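import Mathlib
import Pool.Agent.W851.Had.Schn

/-!
# Bounded sums from a scale on

Let `A` contain more than a quarter of `[1, H]`, and more than a quarter of the multiples of `2` and of `3` up to `d H`,
for all `H ≥ N`, as far as these numbers are at most `M`. Then all multiples of `6` between `C N` and `M` are sums of at
most `h` elements of `A`, where `h` and `C` depend only on the density.
-/

set_option autoImplicit false

namespace Pool.Agent.U455.BT

open Finset

open Classical in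
/-- a covering lemma -/
theorem cover (S : ℕ → Prop) (δ : ℝ) (hδ : 0 < δ) (P N : ℕ) (hPN : P ≤ N)
    (hbad : ∀ p, p ≤ P → S p → ∃ m : ℕ, 1 ≤ δ * m ∧ p + m ≤ N ∧
      (((Ioc p (p + m)).filter S).card : ℝ) < δ * m) :
    ∀ n p : ℕ, p + n = P + 1 → (((Ico p (P + 1)).filter S).card : ℝ) ≤ 2 * δ * ((N : ℝ) + 1 - p) := by
  intro n
  induction n using Nat.strong_induction_on with
  | _ n ih =>
    intro p hp
    rcases Nat.eq_zero_or_pos n with h0 | h0
    · have h1 : p = P + 1 := by omega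
      rw [h1, Ico_self, filter_empty, card_empty]
      have h2 : (P : ℝ) ≤ N := by exact_mod_cast hPN
      push_cast
      have : 0 ≤ (N : ℝ) + 1 - (P + 1) := by linarith
      positivity
    · have hpP : p ≤ P := by omega
      by_cases hS : S p
      · obtain ⟨m, hm1, hm2, hm3⟩ := hbad p hpP hS
        have h1 : (((Ico (p + m + 1) (P + 1)).filter S).card : ℝ) ≤ 2 * δ * ((N : ℝ) - p - m) := by
          rcases Nat.lt_or_ge (p + m + 1) (P + 1) with h2 | h2
          · have h3 := ih (n - (m + 1)) (by omega) (p + m + 1) (by omega)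
            push_cast at h3 ⊢
            have e : (N : ℝ) + 1 - (p + m + 1) = N - p - m := by ring
            rw [e] at h3
            exact h3
          · rw [Ico_eq_empty (by omega), filter_empty, card_empty]
            have h3 : ((p + m : ℕ) : ℝ) ≤ N := by exact_mod_cast hm2
            push_cast at h3 ⊢
            have : 0 ≤ (N : ℝ) - p - m := by linarith
            positivity
        have h2 : ((Ico p (P + 1)).filter S).card ≤ 1 + ((Ioc p (p + m)).filter S).card +
            ((Ico (p + m + 1) (P + 1)).filter S).card := by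
          have h3 : (Ico p (P + 1)).filter S ⊆ ({p} ∪ (Ioc p (p + m)).filter S) ∪
              (Ico (p + m + 1) (P + 1)).filter S := by
            intro y hy
            rw [mem_filter, mem_Ico] at hy
            simp only [mem_union, mem_singleton, mem_filter, mem_Ioc, mem_Ico]
            by_cases h4 : y = p
            · exact Or.inl (Or.inl h4)
            · by_cases h5 : y ≤ p + m
              · exact Or.inl (Or.inr ⟨⟨by omega, h5⟩, hy.2⟩)
              · exact Or.inr ⟨⟨by omega, hy.1.2⟩, hy.2⟩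
          refine (card_le_card h3).trans ((card_union_le _ _).trans (Nat.add_le_add_right ?_ _))
          exact (card_union_le _ _).trans (by rw [card_singleton])
        have h3 : (((Ico p (P + 1)).filter S).card : ℝ) ≤ 1 + (((Ioc p (p + m)).filter S).card : ℝ) +
            (((Ico (p + m + 1) (P + 1)).filter S).card : ℝ) := by exact_mod_cast h2
        nlinarith
      · have h1 : (Ico p (P + 1)).filter S = (Ico (p + 1) (P + 1)).filter S := by
          ext y
          simp only [mem_filter, mem_Ico]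
          constructor
          · rintro ⟨⟨h2, h3⟩, h4⟩
            have : y ≠ p := fun h => hS (h ▸ h4)
            exact ⟨⟨by omega, h3⟩, h4⟩
          · rintro ⟨⟨h2, h3⟩, h4⟩
            exact ⟨⟨by omega, h3⟩, h4⟩
        rw [h1]
        have h2 := ih (n - 1) (by omega) (p + 1) (by omega)
        push_cast at h2 ⊢
        nlinarith

open Classical in
/-- a point from which the set is dense at all scales -/
theorem point (S : ℕ → Prop) (δ : ℝ) (hδ : 0 < δ) (P N : ℕ) (hPN : P ≤ N)
    (h : 2 * δ * ((N : ℝ) + 1) < (((Icc 0 P).filter S).card : ℝ)) :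
    ∃ p ≤ P, S p ∧ ∀ m : ℕ, 1 ≤ δ * m → p + m ≤ N → δ * m ≤ (((Ioc p (p + m)).filter S).card : ℝ) := by
  by_contra hcon
  push Not at hcon
  have h1 := cover S δ hδ P N hPN (fun p hp hS => by
    obtain ⟨m, h2, h3, h4⟩ := hcon p hp hS
    exact ⟨m, h2, h3, h4⟩) (P + 1) 0 (by omega)
  rw [Nat.cast_zero, sub_zero] at h1
  have e : Ico 0 (P + 1) = Icc 0 P := by
    ext y
    simp only [mem_Ico, mem_Icc]
    omega
  rw [e] at h1
  linarith

/-- two elements at distance `d` in the class of `r` modulo `d` -/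
def Sd (A : ℕ → Prop) (d r j : ℕ) : Prop := A (r + d * j) ∧ A (r + d * j + d)

open Classical in
theorem pairs (A : ℕ → Prop) (N : ℕ) (c : ℝ)
    (hA : (N : ℝ) / 4 + 1 + 9 * c < (((Icc 1 N).filter A).card : ℝ)) :
    ∃ d r : ℕ, (1 ≤ d ∧ d ≤ 3) ∧ r < d ∧ c < (((Icc 0 N).filter (Sd A d r)).card : ℝ) := by
  by_contra hcon
  push Not at hcon
  obtain ⟨T, hT⟩ : ∃ T : Finset ℕ, T = (Icc 1 N).filter (fun a => A a ∧ ¬ A (a + 1) ∧ ¬ A (a + 2) ∧
    ¬ A (a + 3)) := ⟨_, rfl⟩
  have hTc : T.card ≤ N / 4 + 1 := by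
    have h1 : T.card ≤ (range (N / 4 + 1)).card := by
      apply card_le_card_of_injOn (fun a => a / 4)
      · intro a ha
        rw [hT, mem_coe, mem_filter, mem_Icc] at ha
        rw [mem_coe, mem_range]
        show a / 4 < N / 4 + 1
        omega
      · intro a ha b hb hab
        rw [hT, mem_coe, mem_filter] at ha hb
        have hab' : a / 4 = b / 4 := hab
        obtain ⟨-, ha1, ha2, ha3, ha4⟩ := ha
        obtain ⟨-, hb1, hb2, hb3, hb4⟩ := hb
        by_contra hne
        have : b = a + 1 ∨ b = a + 2 ∨ b = a + 3 ∨ a = b + 1 ∨ a = b + 2 ∨ a = b + 3 := by omega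
        rcases this with h | h | h | h | h | h
        · exact ha2 (h ▸ hb1)
        · exact ha3 (h ▸ hb1)
        · exact ha4 (h ▸ hb1)
        · exact hb2 (h ▸ ha1)
        · exact hb3 (h ▸ ha1)
        · exact hb4 (h ▸ ha1)
    rwa [card_range] at h1
  obtain ⟨I, hI⟩ : ∃ I : Finset (ℕ × ℕ), I = (Icc 1 3 ×ˢ range 3).filter (fun x => x.2 < x.1) := ⟨_, rfl⟩
  have hIc : I.card ≤ 9 := by
    rw [hI]
    refine (card_filter_le _ _).trans ?_
    rw [card_product, Nat.card_Icc, card_range]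
  have hsub : (Icc 1 N).filter A ⊆ T ∪ I.biUnion (fun x =>
      ((Icc 0 N).filter (Sd A x.1 x.2)).image (fun j => x.2 + x.1 * j)) := by
    intro a ha
    rw [mem_filter, mem_Icc] at ha
    rw [mem_union]
    have key : ∀ d : ℕ, 1 ≤ d → d ≤ 3 → A (a + d) → a ∈ I.biUnion (fun x =>
      ((Icc 0 N).filter (Sd A x.1 x.2)).image (fun j => x.2 + x.1 * j)) := by
      intro d h1 h2 h3
      rw [mem_biUnion]
      have h4 := Nat.mod_add_div a d
      have h5 := Nat.mod_lt a (show 0 < d by omega)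
      refine ⟨(d, a % d), ?_, ?_⟩
      · rw [hI, mem_filter, mem_product, mem_Icc, mem_range]
        exact ⟨⟨⟨h1, h2⟩, by show a % d < 3; omega⟩, h5⟩
      · rw [mem_image]
        refine ⟨a / d, ?_, h4⟩
        rw [mem_filter, mem_Icc]
        refine ⟨⟨Nat.zero_le _, (Nat.div_le_self _ _).trans ha.1.2⟩, ?_⟩
        show A (a % d + d * (a / d)) ∧ A (a % d + d * (a / d) + d)
        rw [h4]
        exact ⟨ha.2, h3⟩
    by_cases h1 : A (a + 1)
    · exact Or.inr (key 1 le_rfl (by norm_num) h1)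
    by_cases h2 : A (a + 2)
    · exact Or.inr (key 2 (by norm_num) (by norm_num) h2)
    by_cases h3 : A (a + 3)
    · exact Or.inr (key 3 (by norm_num) (by norm_num) h3)
    refine Or.inl ?_
    rw [hT, mem_filter, mem_Icc]
    exact ⟨ha.1, ha.2, h1, h2, h3⟩
  have hcard : (((Icc 1 N).filter A).card : ℝ) ≤ T.card + ∑ x ∈ I, c := by
    have h1 := (card_le_card hsub).trans ((card_union_le _ _).trans (Nat.add_le_add_left card_biUnion_le _))
    have h2 : (((Icc 1 N).filter A).card : ℝ) ≤ T.card + ∑ x ∈ I, ((((Icc 0 N).filter (Sd A x.1 x.2)).image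
        (fun j => x.2 + x.1 * j)).card : ℝ) := by exact_mod_cast h1
    refine h2.trans (add_le_add_right (sum_le_sum fun x hx => ?_) _)
    rw [hI, mem_filter, mem_product, mem_Icc] at hx
    refine le_trans ?_ (hcon x.1 x.2 hx.1.1 hx.2)
    exact_mod_cast card_image_le
  rw [sum_const, nsmul_eq_mul] at hcard
  have hc0 : 0 ≤ c := by
    refine le_trans ?_ (hcon 1 0 ⟨le_rfl, by norm_num⟩ (by norm_num))
    exact Nat.cast_nonneg _
  have h1 : (I.card : ℝ) * c ≤ 9 * c := mul_le_mul_of_nonneg_right (by exact_mod_cast hIc) hc0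
  have h2 : (T.card : ℝ) ≤ (N : ℝ) / 4 + 1 := by
    have h3 : (T.card : ℝ) ≤ ((N / 4 : ℕ) : ℝ) + 1 := by exact_mod_cast hTc
    have h4 : ((N / 4 : ℕ) : ℝ) ≤ (N : ℝ) / 4 := Nat.cast_div_le
    linarith
  linarith

/-- shifted set -/
def Dd (A : ℕ → Prop) (d a m : ℕ) : Prop := A (a + d * m)

open Classical in
/-- a progression of sums -/
theorem local_ap (ρ : ℝ) (hρ : 1 / 4 < ρ) : ∃ h N₀ : ℕ, ∀ (A : ℕ → Prop) (N : ℕ), N₀ ≤ N →
    ρ * N ≤ (((Icc 1 N).filter A).card : ℝ) →
    ∃ d s : ℕ, (1 ≤ d ∧ d ≤ 3) ∧ d ∣ s ∧ s ≤ h * N ∧ ∀ n ≤ N, ∃ l : List ℕ, l.length ≤ h ∧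
      (∀ y ∈ l, A y) ∧ l.sum = s + d * n := by
  obtain ⟨σ, hσ⟩ : ∃ σ : ℝ, σ = (ρ - 1 / 4) / 18 := ⟨_, rfl⟩
  have hσ0 : 0 < σ := by rw [hσ]; linarith
  obtain ⟨δ, hδ⟩ : ∃ δ : ℝ, δ = min (σ / 5) 1 := ⟨_, rfl⟩
  have hδ0 : 0 < δ := by rw [hδ]; exact lt_min (by positivity) one_pos
  have hδ1 : δ ≤ 1 := by rw [hδ]; exact min_le_right _ _
  have hδσ : δ ≤ σ / 5 := by rw [hδ]; exact min_le_left _ _
  obtain ⟨h₀, hh₀⟩ := exists_nat_ge (1 / δ)
  have hδh : 1 ≤ δ * h₀ := by
    rw [div_le_iff₀ hδ0] at hh₀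
    linarith
  obtain ⟨N₀, hN₀⟩ := exists_nat_ge (1 / σ + 3)
  refine ⟨18 * (h₀ + h₀), N₀, fun A N hN hA => ?_⟩
  have hNR : 1 / σ + 3 ≤ (N : ℝ) := hN₀.trans (by exact_mod_cast hN)
  have hσN : 1 ≤ σ * N := by
    have h1 : 1 / σ ≤ N := by linarith
    rw [div_le_iff₀ hσ0] at h1
    linarith
  have hN3 : (3 : ℝ) < N := by
    have : 0 < 1 / σ := by positivity
    linarith
  have hρσ : ρ = 1 / 4 + 18 * σ := by rw [hσ]; ring
  obtain ⟨d, r, hd, hr, hS⟩ := pairs A N (σ * N) (by
    refine lt_of_lt_of_le ?_ hA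
    rw [hρσ]
    nlinarith)
  obtain ⟨p, hp, hSp, hgood⟩ := point (Sd A d r) δ hδ0 N (2 * N) (by omega) (by
    refine lt_of_le_of_lt ?_ hS
    push_cast
    nlinarith)
  obtain ⟨a, ha⟩ : ∃ a, a = r + d * p := ⟨_, rfl⟩
  have hD0 : Dd A d a 0 := by
    unfold Dd
    rw [ha, mul_zero, add_zero]
    exact hSp.1
  have hD1 : Dd A d a 1 := by
    unfold Dd
    rw [ha, mul_one]
    exact hSp.2
  have hD : ∀ m ≤ N, δ * m ≤ (W851.Had.cnt (Dd A d a) m : ℝ) := by
    intro m hm
    unfold W851.Had.cnt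
    rcases Nat.eq_zero_or_pos m with h0 | h0
    · subst h0; simp
    by_cases h1 : 1 ≤ δ * m
    · refine (hgood m h1 (by omega)).trans ?_
      rw [Nat.cast_le]
      apply card_le_card_of_injOn (fun y => y - p)
      · intro y hy
        rw [mem_coe, mem_filter, mem_Ioc] at hy
        rw [mem_coe, mem_filter, mem_Icc]
        refine ⟨⟨by show 1 ≤ y - p; omega, by show y - p ≤ m; omega⟩, ?_⟩
        unfold Dd
        have e : a + d * (y - p) = r + d * y := by
          rw [ha]
          obtain ⟨z, rfl⟩ : ∃ z, y = p + z := ⟨y - p, by omega⟩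
          rw [Nat.add_sub_cancel_left]
          ring
        rw [e]
        exact hy.2.1
      · intro y hy y' hy' h
        rw [mem_coe, mem_filter, mem_Ioc] at hy hy'
        have h' : y - p = y' - p := h
        omega
    · push Not at h1
      have h2 : 1 ≤ ((Icc 1 m).filter (Dd A d a)).card := by
        rw [Nat.one_le_iff_ne_zero, ← Nat.pos_iff_ne_zero, card_pos]
        exact ⟨1, mem_filter.2 ⟨mem_Icc.2 ⟨le_rfl, h0⟩, hD1⟩⟩
      have h3 : (1 : ℝ) ≤ (((Icc 1 m).filter (Dd A d a)).card : ℝ) := by exact_mod_cast h2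
      linarith
  have hsum : ∀ n ≤ N, ∃ l : List ℕ, l.length = h₀ + h₀ ∧ (∀ y ∈ l, A y) ∧
      l.sum = (h₀ + h₀) * a + d * n := by
    intro n hn
    obtain ⟨l, hl1, hl2, hl3⟩ := W851.Had.schn (Dd A d a) N h₀ δ hδ1 hδh hD0 hD n hn
    refine ⟨l.map (fun y => a + d * y), by rw [List.length_map, hl1], ?_, ?_⟩
    · intro y hy
      obtain ⟨z, hz, rfl⟩ := List.mem_map.1 hy
      exact hl2 z hz
    · have key : ∀ l : List ℕ, (l.map (fun y => a + d * y)).sum = l.length * a + d * l.sum := by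
        intro l
        induction l with
        | nil => simp
        | cons b l ih =>
          rw [List.map_cons, List.sum_cons, ih, List.length_cons, List.sum_cons]
          ring
      rw [key, hl1, hl3]
  obtain ⟨l₀, hl₀, hl₀', hl₀''⟩ := hsum 0 (Nat.zero_le _)
  have haN : a ≤ 4 * N := by
    rw [ha]
    have h1 : d * p ≤ 3 * N := Nat.mul_le_mul hd.2 hp
    have h2 : 3 < N := by exact_mod_cast hN3
    omega
  refine ⟨d, d * ((h₀ + h₀) * a), hd, dvd_mul_right _ _, ?_, fun n hn => ?_⟩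
  · calc d * ((h₀ + h₀) * a) ≤ 3 * ((h₀ + h₀) * (4 * N)) := by gcongr; exact hd.2
      _ ≤ 18 * (h₀ + h₀) * N := by nlinarith [Nat.zero_le ((h₀ + h₀) * N)]
  · obtain ⟨l, hl1, hl2, hl3⟩ := hsum n hn
    have hd' : d = 1 ∨ d = 2 ∨ d = 3 := by omega
    rcases hd' with rfl | rfl | rfl
    · refine ⟨l, by omega, hl2, by rw [hl3]; ring⟩
    · refine ⟨l ++ l₀, by rw [List.length_append]; omega, ?_, ?_⟩
      · intro y hy
        rcases List.mem_append.1 hy with h | h
        · exact hl2 y h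
        · exact hl₀' y h
      · rw [List.sum_append, hl3, hl₀'']
        ring
    · refine ⟨l ++ (l₀ ++ l₀), by rw [List.length_append, List.length_append]; omega, ?_, ?_⟩
      · intro y hy
        rcases List.mem_append.1 hy with h | h
        · exact hl2 y h
        · rcases List.mem_append.1 h with h | h
          · exact hl₀' y h
          · exact hl₀' y h
      · rw [List.sum_append, List.sum_append, hl3, hl₀'']
        ring

/-- blocks of length `N` which contain an element of `B` -/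
def Bl (B : ℕ → Prop) (N j : ℕ) : Prop := j = 0 ∨ ∃ k, (j - 1) * N < k ∧ k ≤ j * N ∧ B k

open Classical in
theorem blocks (ρ : ℝ) (hρ : 0 < ρ) (hρ1 : ρ ≤ 1) (h₀ : ℕ) (hh₀ : 1 ≤ ρ * h₀) (B : ℕ → Prop) (N J : ℕ)
    (hN : 1 ≤ N) (hB : ∀ j, 1 ≤ j → j ≤ J → ρ * (j * N : ℕ) ≤ (((Icc 1 (j * N)).filter B).card : ℝ)) :
    ∀ j ≤ J, ∃ l : List ℕ, l.length ≤ h₀ + h₀ ∧ (∀ y ∈ l, B y) ∧ l.sum ≤ j * N ∧
      j * N ≤ l.sum + (h₀ + h₀) * N := by
  intro j hj
  have hD : ∀ m ≤ J, ρ * m ≤ (W851.Had.cnt (Bl B N) m : ℝ) := by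
    intro m hm
    rcases Nat.eq_zero_or_pos m with h0 | h0
    · subst h0; simp
    unfold W851.Had.cnt
    have h1 := hB m h0 hm
    have h2 : ((Icc 1 (m * N)).filter B).card ≤ N * ((Icc 1 m).filter (Bl B N)).card := by
      have h3 := card_le_mul_card_image (f := fun k => (k - 1) / N + 1) ((Icc 1 (m * N)).filter B) N (by
        intro c hc
        have h4 : ((Icc 1 (m * N)).filter B).filter (fun k => (k - 1) / N + 1 = c) ⊆
            Ioc ((c - 1) * N) ((c - 1) * N + N) := by
          intro k hk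
          rw [mem_filter, mem_filter, mem_Icc] at hk
          obtain ⟨⟨⟨h5, h6⟩, h7⟩, h8⟩ := hk
          have h10 := Nat.div_add_mod (k - 1) N
          have h11 := Nat.mod_lt (k - 1) (show 0 < N by omega)
          obtain ⟨q, hq⟩ : ∃ q, q = (k - 1) / N := ⟨_, rfl⟩
          rw [← hq] at h8 h10
          have h9 : c - 1 = q := by omega
          rw [mem_Ioc, h9, mul_comm q N]
          omega
        refine (card_le_card h4).trans ?_
        rw [Nat.card_Ioc]
        omega)
      refine h3.trans (Nat.mul_le_mul_left _ (card_le_card ?_))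
      intro c hc
      obtain ⟨k, hk, rfl⟩ := mem_image.1 hc
      rw [mem_filter, mem_Icc] at hk
      obtain ⟨⟨h5, h6⟩, h7⟩ := hk
      have h10 := Nat.div_add_mod (k - 1) N
      have h11 := Nat.mod_lt (k - 1) (show 0 < N by omega)
      have h12 : (k - 1) / N < m := by
        rw [Nat.div_lt_iff_lt_mul (by omega)]
        omega
      obtain ⟨q, hq⟩ : ∃ q, q = (k - 1) / N := ⟨_, rfl⟩
      rw [← hq] at h10 h12 ⊢
      rw [mem_filter, mem_Icc]
      refine ⟨⟨by omega, by omega⟩, Or.inr ⟨k, ?_, ?_, h7⟩⟩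
      · rw [Nat.add_sub_cancel, mul_comm]
        omega
      · rw [add_mul, mul_comm q N]
        omega
    have h3 : (((Icc 1 (m * N)).filter B).card : ℝ) ≤ N * (((Icc 1 m).filter (Bl B N)).card : ℝ) := by
      exact_mod_cast h2
    have h4 : (0 : ℝ) < N := by exact_mod_cast (show 0 < N by omega)
    push_cast at h1
    have h5 : N * (ρ * m) ≤ N * (((Icc 1 m).filter (Bl B N)).card : ℝ) := by
      calc N * (ρ * m) = ρ * (m * N) := by ring
        _ ≤ _ := h1.trans h3
    exact le_of_mul_le_mul_left h5 h4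
  obtain ⟨l, hl1, hl2, hl3⟩ := W851.Had.schn (Bl B N) J h₀ ρ hρ1 hh₀ (Or.inl rfl) hD j hj
  have key : ∀ l : List ℕ, (∀ y ∈ l, Bl B N y) → ∃ l' : List ℕ, l'.length ≤ l.length ∧ (∀ y ∈ l', B y) ∧
      l'.sum ≤ l.sum * N ∧ l.sum * N ≤ l'.sum + l.length * N := by
    intro l
    induction l with
    | nil => intro _; exact ⟨[], by simp, by simp, by simp, by simp⟩
    | cons y l ih =>
      intro h
      obtain ⟨l', h1, h2, h3, h4⟩ := ih fun z hz => h z (List.mem_cons_of_mem _ hz)
      rcases h y List.mem_cons_self with h5 | ⟨k, h5, h6, h7⟩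
      · refine ⟨l', by rw [List.length_cons]; omega, h2, ?_, ?_⟩
        · rw [List.sum_cons, h5, zero_add]
          exact h3
        · rw [List.sum_cons, h5, zero_add, List.length_cons, add_mul]
          omega
      · refine ⟨k :: l', by rw [List.length_cons, List.length_cons]; omega, ?_, ?_, ?_⟩
        · intro z hz
          rcases List.mem_cons.1 hz with h8 | h8
          · rw [h8]; exact h7
          · exact h2 z h8
        · rw [List.sum_cons, List.sum_cons, add_mul]
          omega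
        · rw [List.sum_cons, List.sum_cons, List.length_cons, add_mul, add_mul, one_mul]
          have h8 : y * N ≤ k + N := by
            rcases Nat.eq_zero_or_pos y with h9 | h9
            · subst h9; omega
            · obtain ⟨z, rfl⟩ : ∃ z, y = z + 1 := ⟨y - 1, by omega⟩
              rw [Nat.add_sub_cancel] at h5
              rw [add_mul, one_mul]
              omega
          omega
  obtain ⟨l', h1, h2, h3, h4⟩ := key l hl2
  rw [hl1, hl3] at *
  exact ⟨l', h1, h2, h3, h4⟩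

open Classical in
/-- **Bounded sums from the scale `N` on.** -/
theorem main (ρ : ℝ) (hρ : 1 / 4 < ρ) : ∃ h C N₀ : ℕ, ∀ (A : ℕ → Prop) (N M : ℕ), N₀ ≤ N →
    (∀ d H : ℕ, 1 ≤ d → d ≤ 3 → N ≤ H → d * H ≤ M →
      ρ * H ≤ (((Icc 1 H).filter (fun k => A (d * k))).card : ℝ)) →
    ∀ t : ℕ, 6 ∣ t → C * N ≤ t → t ≤ M →
      ∃ l : List ℕ, l.length ≤ h ∧ (∀ y ∈ l, A y ∧ 1 ≤ y) ∧ l.sum = t := by
  obtain ⟨h₁, N₁, hloc⟩ := local_ap ρ hρ
  obtain ⟨h₂, hh₂⟩ := exists_nat_ge (1 / min ρ 1)
  have hρ0 : 0 < min ρ 1 := lt_min (by linarith) one_pos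
  have hρh : 1 ≤ min ρ 1 * h₂ := by
    rw [div_le_iff₀ hρ0] at hh₂
    linarith
  refine ⟨h₁ + (h₂ + h₂), (h₁ + 1) * (h₂ + h₂ + 1), max N₁ 1, fun A N M hN hA t h6 htC htM => ?_⟩
  have hN1 : N₁ ≤ N := (le_max_left _ _).trans hN
  have hN0 : 1 ≤ N := (le_max_right _ _).trans hN
  obtain ⟨N', hN'⟩ : ∃ N', N' = (h₂ + h₂ + 1) * N := ⟨_, rfl⟩
  have hNN' : N ≤ N' := by
    rw [hN']
    exact Nat.le_mul_of_pos_left _ (by omega)
  have htN' : (h₁ + 1) * N' ≤ t := by
    rw [hN', ← mul_assoc]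
    exact htC
  have hN't : N' ≤ t := (Nat.le_mul_of_pos_left _ (by omega)).trans htN'
  obtain ⟨A', hA'⟩ : ∃ A' : ℕ → Prop, A' = fun y => A y ∧ 1 ≤ y := ⟨_, rfl⟩
  have hAA' : ∀ d H : ℕ, 1 ≤ d → ((Icc 1 H).filter (fun k => A (d * k))) =
      ((Icc 1 H).filter (fun k => A' (d * k))) := by
    intro d H hd
    ext k
    rw [mem_filter, mem_filter, mem_Icc, hA']
    constructor
    · rintro ⟨h1, h2⟩
      exact ⟨h1, h2, Nat.mul_pos hd h1.1⟩
    · rintro ⟨h1, h2⟩
      exact ⟨h1, h2.1⟩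
  obtain ⟨d, s, hd, hds, hs, hap⟩ := hloc A' N' (hN1.trans hNN') (by
    have h1 := hA 1 N' le_rfl (by norm_num) hNN' (by omega)
    rw [hAA' 1 N' le_rfl] at h1
    simpa only [one_mul] using h1)
  have hst : s ≤ t := hs.trans ((Nat.mul_le_mul_right _ (by omega)).trans htN')
  have hdt : d ∣ t := by
    have : d = 1 ∨ d = 2 ∨ d = 3 := by omega
    rcases this with rfl | rfl | rfl
    · exact one_dvd _
    · exact (by norm_num : 2 ∣ 6).trans h6
    · exact (by norm_num : 3 ∣ 6).trans h6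
  obtain ⟨u, hu⟩ := Nat.dvd_sub hdt hds
  have hut : t = s + d * u := by omega
  obtain ⟨j, hj⟩ : ∃ j, j = u / N := ⟨_, rfl⟩
  have hj1 : j * N ≤ u := by rw [hj]; exact Nat.div_mul_le_self _ _
  have hj2 : u < j * N + N := by
    rw [hj]
    have := Nat.lt_div_mul_add (a := u) (show 0 < N by omega)
    omega
  obtain ⟨l, hl1, hl2, hl3, hl4⟩ := blocks (min ρ 1) hρ0 (min_le_right _ _) h₂ hρh (fun k => A' (d * k)) N j hN0
    (by
      intro i hi1 hi2
      have h1 : N ≤ i * N := Nat.le_mul_of_pos_left _ (by omega)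
      have h2 : i * N ≤ j * N := Nat.mul_le_mul_right _ hi2
      have h3 : d * (i * N) ≤ M := by
        have : d * (i * N) ≤ d * u := Nat.mul_le_mul_left _ (h2.trans hj1)
        omega
      have h4 := hA d (i * N) hd.1 hd.2 h1 h3
      rw [hAA' d _ hd.1] at h4
      refine le_trans ?_ h4
      exact mul_le_mul_of_nonneg_right (min_le_left _ _) (Nat.cast_nonneg _)) j le_rfl
  obtain ⟨l', hl1', hl2', hl3'⟩ := hap (u - l.sum) (by
    rw [hN', add_mul, one_mul]
    omega)
  refine ⟨l' ++ l.map (fun k => d * k), ?_, ?_, ?_⟩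
  · rw [List.length_append, List.length_map]
    omega
  · intro y hy
    have : A' y := by
      rcases List.mem_append.1 hy with h | h
      · exact hl2' y h
      · obtain ⟨k, hk, rfl⟩ := List.mem_map.1 h
        exact hl2 k hk
    rw [hA'] at this
    exact this
  · have key : ∀ l : List ℕ, (l.map (fun y => d * y)).sum = d * l.sum := by
      intro l
      induction l with
      | nil => simp
      | cons b l ih =>
        rw [List.map_cons, List.sum_cons, ih, List.sum_cons]
        ring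
    rw [List.sum_append, key, hl3', hut]
    have h1 : u = (u - l.sum) + l.sum := by omega
    calc s + d * (u - l.sum) + d * l.sum = s + d * ((u - l.sum) + l.sum) := by ring
      _ = s + d * u := by rw [← h1]

end Pool.Agent.U455.BT
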