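import Mathlib

/-!
# Averaging over finite patterns
-/

set_option autoImplicit false

namespace Pool.Agent.U455.DP

open Finset Filter

open Classical in
/-- the members of `F` at which `f` is at least `β m`, when the mean of `f / m` is at least `α` -/
theorem markov (F : Finset ℕ) (f : ℕ → ℝ) (m α β : ℝ) (hm : 0 < m) (hf : ∀ n ∈ F, f n ≤ m)
    (hβ : 0 ≤ β) (h : α * F.card * m ≤ ∑ n ∈ F, f n) :
    (α - β) * F.card ≤ ((F.filter (fun n => β * m ≤ f n)).card : ℝ) := by
  have h1 : ∑ n ∈ F, f n ≤ ∑ n ∈ F, (β * m + if β * m ≤ f n then m else 0) := by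
    refine Finset.sum_le_sum fun n hn => ?_
    split_ifs with hh
    · have := hf n hn
      have h2 : 0 ≤ β * m := by positivity
      linarith
    · push Not at hh
      linarith
  rw [Finset.sum_add_distrib, Finset.sum_const, nsmul_eq_mul, ← Finset.sum_filter,
    Finset.sum_const, nsmul_eq_mul] at h1
  have h2 : ((α - β) * F.card) * m ≤ ((F.filter (fun n => β * m ≤ f n)).card : ℝ) * m := by
    linarith
  exact le_of_mul_le_mul_right h2 hm

open Classical in
theorem swap {ι : Type} (F : Finset ℕ) (A : Finset ι) (P : ι → ℕ → Prop) :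
    ∑ n ∈ F, ((A.filter (fun a => P a n)).card : ℝ) = ∑ a ∈ A, ((F.filter (P a)).card : ℝ) := by
  simp only [Finset.card_filter, Nat.cast_sum, Nat.cast_ite, Nat.cast_one, Nat.cast_zero]
  exact Finset.sum_comm

open Classical in
theorem shift_count (P : ℕ → Prop) (T u a : ℕ) :
    ((Ioc u (u + T)).filter (fun i => P (i + a))).card = ((Ioc (u + a) (u + a + T)).filter P).card := by
  rw [← Finset.card_image_of_injective ((Ioc u (u + T)).filter (fun i => P (i + a)))
    (add_left_injective a)]
  congr 1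
  ext j
  simp only [mem_filter, mem_image, mem_Ioc]
  constructor
  · rintro ⟨i, ⟨⟨g1, g2⟩, g3⟩, rfl⟩
    exact ⟨⟨by omega, by omega⟩, g3⟩
  · rintro ⟨⟨g1, g2⟩, g3⟩
    exact ⟨j - a, ⟨⟨by omega, by omega⟩, by rwa [Nat.sub_add_cancel (by omega)]⟩, by omega⟩

open Classical in
theorem refl_count (P : ℕ → Prop) (T u c b : ℕ) (hc : u + T < c) :
    ((Ioc (c - u - T - 1 + b) (c - u - T - 1 + b + T)).filter P).card ≤
      ((Ioc u (u + T)).filter (fun i => P (c - i + b))).card := by
  refine Finset.card_le_card_of_injOn (fun j => c + b - j) ?_ ?_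
  · intro j hj
    simp only [coe_filter, Set.mem_ofPred_eq, mem_Ioc] at hj ⊢
    obtain ⟨⟨g1, g2⟩, g3⟩ := hj
    refine ⟨⟨by omega, by omega⟩, ?_⟩
    have hjb : b ≤ j := by omega
    rw [show c - (c + b - j) + b = j by omega]
    exact g3
  · intro j hj j' hj' h
    simp only [coe_filter, Set.mem_ofPred_eq, mem_Ioc] at hj hj'
    have h' : c + b - j = c + b - j' := h
    omega

open Classical in
theorem both (F : Finset ℕ) (P Q : ℕ → Prop) :
    (F.filter P).card + (F.filter Q).card ≤ F.card + (F.filter (fun i => P i ∧ Q i)).card := by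
  have h := Finset.card_union_add_card_inter (F.filter P) (F.filter Q)
  have h1 : (F.filter P ∪ F.filter Q).card ≤ F.card :=
    Finset.card_le_card (Finset.union_subset (Finset.filter_subset _ _) (Finset.filter_subset _ _))
  have h2 : F.filter P ∩ F.filter Q = F.filter (fun i => P i ∧ Q i) := by
    ext i
    simp only [mem_inter, mem_filter]
    tauto
  rw [h2] at h
  omega

open Classical in
/-- **More than one half of every pattern.** Here `G c` is a family of sets of integers. -/
theorem pattern {ι : Type} (G : ι → ℕ → Prop) (δ : ℝ) (hδ : 0 ≤ δ) (L : ℕ) (S : Set ι)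
    (hG : ∀ s ∈ S, ∀ T : ℕ, L ≤ T → ∀ u : ℕ,
      (1 / 2 + 2 * δ) * (T : ℝ) ≤ (((Ioc u (u + T)).filter (G s)).card : ℝ))
    (A B : Finset (ι × ℕ)) (hA : ∀ p ∈ A, p.1 ∈ S) (hB : ∀ p ∈ B, p.1 ∈ S)
    (hAB : 0 < A.card + B.card) (T : ℕ) (hT : L ≤ T) (u c : ℕ) (hc : u + T < c) :
    δ * (T : ℝ) ≤ (((Ioc u (u + T)).filter (fun i => (1 / 2 + δ) * ((A.card : ℝ) + B.card) ≤
      ((A.filter (fun p => G p.1 (i + p.2))).card : ℝ) +
        ((B.filter (fun p => G p.1 (c - i + p.2))).card : ℝ))).card : ℝ) := by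
  have hm : (0 : ℝ) < (A.card : ℝ) + B.card := by exact_mod_cast hAB
  have h1 : ∀ s ∈ S, ∀ a : ℕ, (1 / 2 + 2 * δ) * (T : ℝ) ≤
      (((Ioc u (u + T)).filter (fun i => G s (i + a))).card : ℝ) := by
    intro s hs a
    rw [shift_count (G s) T u a]
    exact hG s hs T hT (u + a)
  have h2 : ∀ s ∈ S, ∀ b : ℕ, (1 / 2 + 2 * δ) * (T : ℝ) ≤
      (((Ioc u (u + T)).filter (fun i => G s (c - i + b))).card : ℝ) := by
    intro s hs b
    refine (hG s hs T hT (c - u - T - 1 + b)).trans ?_
    exact_mod_cast refl_count (G s) T u c b hc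
  have h3 := markov (Ioc u (u + T)) (fun i => ((A.filter (fun p => G p.1 (i + p.2))).card : ℝ) +
        ((B.filter (fun p => G p.1 (c - i + p.2))).card : ℝ)) ((A.card : ℝ) + B.card) (1 / 2 + 2 * δ)
        (1 / 2 + δ) hm (fun i _ => by
          have g1 := Finset.card_filter_le A (fun p => G p.1 (i + p.2))
          have g2 := Finset.card_filter_le B (fun p => G p.1 (c - i + p.2))
          have g3 : ((A.filter (fun p => G p.1 (i + p.2))).card : ℝ) ≤ A.card := by exact_mod_cast g1
          have g4 : ((B.filter (fun p => G p.1 (c - i + p.2))).card : ℝ) ≤ B.card := by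
            exact_mod_cast g2
          linarith) (by linarith) (by
          rw [Finset.sum_add_distrib, swap (Ioc u (u + T)) A (fun p i => G p.1 (i + p.2)),
            swap (Ioc u (u + T)) B (fun p i => G p.1 (c - i + p.2))]
          have hcard : (((Ioc u (u + T)).card : ℕ) : ℝ) = T := by
            rw [Nat.card_Ioc, Nat.add_sub_cancel_left]
          rw [hcard]
          have g1 : (A.card : ℝ) * ((1 / 2 + 2 * δ) * T) ≤
              ∑ p ∈ A, (((Ioc u (u + T)).filter (fun i => G p.1 (i + p.2))).card : ℝ) := by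
            rw [← nsmul_eq_mul, ← Finset.sum_const]
            exact Finset.sum_le_sum fun p hp => h1 p.1 (hA p hp) p.2
          have g2 : (B.card : ℝ) * ((1 / 2 + 2 * δ) * T) ≤
              ∑ p ∈ B, (((Ioc u (u + T)).filter (fun i => G p.1 (c - i + p.2))).card : ℝ) := by
            rw [← nsmul_eq_mul, ← Finset.sum_const]
            exact Finset.sum_le_sum fun p hp => h2 p.1 (hB p hp) p.2
          linarith)
  have hcard : (((Ioc u (u + T)).card : ℕ) : ℝ) = T := by
    rw [Nat.card_Ioc, Nat.add_sub_cancel_left]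
  rw [hcard] at h3
  have e : (1 / 2 + 2 * δ - (1 / 2 + δ)) * (T : ℝ) = δ * T := by ring
  rw [e] at h3
  exact h3

end Pool.Agent.U455.DP
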