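import Mathlib
import Pool.Agent.H947R3.GM.Cls
import Pool.Agent.U455.DP

/-!
# Sums of three elements of a set which meets the differences of four classes

`G` a set of natural numbers such that any four admissible classes of `K` shifts contain two shifts of different
classes whose difference is in `G`, and such that for all `P` divisible by some `M` all large multiples of `P`
are sums of two, and all multiples are differences of two multiples of `P` in `G`. Then every large multiple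
of `6` is a sum of three elements of `G`, and every multiple of `6` is `g₁ + g₂ - g₃`.
-/

set_option autoImplicit false

namespace Pool.Agent.U455.TG

open Finset Pool.Agent.H947R3.GM

/-- infinitely many elements in the class of `r` modulo `P` -/
def Inf (G : Set ℕ) (P : ℕ) (r : ℤ) : Prop := ∀ n : ℕ, ∃ g ∈ G, n < g ∧ (g : ℤ) ≡ r [ZMOD P]

theorem Inf.congr {G : Set ℕ} {P : ℕ} {r s : ℤ} (h : Inf G P r) (hrs : r ≡ s [ZMOD P]) : Inf G P s := by
  intro n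
  obtain ⟨g, hg, hn, hr⟩ := h n
  exact ⟨g, hg, hn, hr.trans hrs⟩

/-- four classes -/
def C4 (G : Set ℕ) (N K : ℕ) : Prop := ∀ H : Fin 4 → Fin K → ℕ, AdmN N H →
  ∃ g g' i i', g ≠ g' ∧ H g i < H g' i' ∧ H g' i' - H g i ∈ G

theorem bound (G : Set ℕ) (P : ℕ) (hP : 0 < P) : ∃ B : ℕ, ∀ g ∈ G, B < g → Inf G P g := by
  classical
  have h : ∀ r : ℕ, ∃ n : ℕ, ¬ Inf G P r → ∀ g ∈ G, n < g → ¬ (g : ℤ) ≡ r [ZMOD P] := by
    intro r
    by_cases hr : Inf G P r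
    · exact ⟨0, fun h => absurd hr h⟩
    · have h1 := hr
      unfold Inf at h1
      push Not at h1
      obtain ⟨n, hn⟩ := h1
      exact ⟨n, fun _ g hg hng => hn g hg hng⟩
  choose n hn using h
  refine ⟨(range P).sup n, fun g hg hB => ?_⟩
  by_contra hI
  have h1 : ((g : ℤ)) ≡ ((g % P : ℕ) : ℤ) [ZMOD P] := by
    push_cast
    exact (Int.mod_modEq _ _).symm
  have h2 : ¬ Inf G P ((g % P : ℕ) : ℤ) := fun h => hI (h.congr h1.symm)
  have h3 : n (g % P) ≤ (range P).sup n := le_sup (mem_range.2 (Nat.mod_lt g hP))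
  exact hn (g % P) h2 g hg (lt_of_le_of_lt h3 hB) h1

theorem seq {G : Set ℕ} {P : ℕ} {r : ℤ} (h : Inf G P r) (n K : ℕ) :
    ∃ A : Fin K → ℕ, Function.Injective A ∧ ∀ i, A i ∈ G ∧ n < A i ∧ (A i : ℤ) ≡ r [ZMOD P] := by
  have hinf : {g : ℕ | g ∈ G ∧ n < g ∧ (g : ℤ) ≡ r [ZMOD P]}.Infinite := by
    apply Set.infinite_of_forall_exists_gt
    intro m
    obtain ⟨g, hg, hn, hr⟩ := h (max n m)
    exact ⟨g, ⟨hg, lt_of_le_of_lt (le_max_left _ _) hn, hr⟩, lt_of_le_of_lt (le_max_right _ _) hn⟩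
  refine ⟨fun i => (hinf.natEmbedding _ i.1 : ℕ), ?_, fun i => (hinf.natEmbedding _ i.1).2⟩
  intro i j hij
  have h1 := (hinf.natEmbedding _).injective (Subtype.ext hij)
  exact Fin.ext h1

theorem avoid {ι : Type*} [Fintype ι] (p : ℕ) (hp : 0 < p) (hc : Fintype.card ι < p) (f : ι → ℤ) :
    ∃ n : ℤ, ∀ i, ¬ (p : ℤ) ∣ n + f i := by
  classical
  have : NeZero p := ⟨hp.ne'⟩
  have h1 : (univ.image (fun i => (-(f i : ZMod p)))).card < Fintype.card (ZMod p) := by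
    rw [ZMod.card]
    exact lt_of_le_of_lt card_image_le hc
  obtain ⟨x, hx⟩ : ∃ x, x ∉ univ.image (fun i => (-(f i : ZMod p))) := by
    by_contra h
    push Not at h
    rw [eq_univ_of_forall h, card_univ] at h1
    exact lt_irrefl _ h1
  refine ⟨(x.val : ℤ), fun i hd => hx ?_⟩
  rw [mem_image]
  refine ⟨i, mem_univ _, ?_⟩
  have h2 := (ZMod.intCast_zmod_eq_zero_iff_dvd _ p).2 hd
  push_cast at h2
  rw [ZMod.natCast_zmod_val] at h2
  exact (eq_neg_of_add_eq_zero_left h2).symm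

theorem two3 (u v : ℤ) : ∃ n : ℤ, ¬ (3 : ℤ) ∣ n + u ∧ ¬ (3 : ℤ) ∣ n + v := by
  have hu : u % 3 = 0 ∨ u % 3 = 1 ∨ u % 3 = 2 := by omega
  have hv : v % 3 = 0 ∨ v % 3 = 1 ∨ v % 3 = 2 := by omega
  rcases hu with h | h | h <;> rcases hv with h' | h' | h'
  · exact ⟨1, by omega, by omega⟩
  · exact ⟨1, by omega, by omega⟩
  · exact ⟨2, by omega, by omega⟩
  · exact ⟨1, by omega, by omega⟩
  · exact ⟨1, by omega, by omega⟩
  · exact ⟨0, by omega, by omega⟩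
  · exact ⟨2, by omega, by omega⟩
  · exact ⟨0, by omega, by omega⟩
  · exact ⟨0, by omega, by omega⟩

section
variable {G : Set ℕ} {N K P : ℕ}

theorem adm (hN : 2 ∣ N) (hP3 : 3 ∣ P) (hP : ∀ p : ℕ, p.Prime → p ≤ 4 * K → p ∣ P)
    (H : Fin 4 → Fin K → ℕ) (ρ : Fin 4 → ℤ)
    (hinj : Function.Injective (fun x : Fin 4 × Fin K => H x.1 x.2))
    (hρ : ∀ g i, (H g i : ℤ) ≡ ρ g [ZMOD P]) (h3 : 3 ∣ N ∨ ∃ n : ℤ, ∀ g, ¬ (3 : ℤ) ∣ n + ρ g) :
    AdmN N H := by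
  refine ⟨hinj, fun p hp hpN => ?_⟩
  have hpos := hp.pos
  have hred : ∀ q : ℕ, q ∣ P → ∀ n : ℤ, (∀ g, ¬ (q : ℤ) ∣ n + ρ g) →
      ∀ g i, ¬ (q : ℤ) ∣ n + (H g i : ℤ) := by
    intro q hq n hn g i hd
    refine hn g ?_
    have h1 : (H g i : ℤ) ≡ ρ g [ZMOD q] := (hρ g i).of_dvd (by exact_mod_cast hq)
    have h2 := h1.symm.dvd
    have e : n + ρ g = (n + (H g i : ℤ)) - ((H g i : ℤ) - ρ g) := by ring
    rw [e]
    exact dvd_sub hd h2
  by_cases h2 : p = 2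
  · exact absurd (h2 ▸ hN) hpN
  by_cases h3' : p = 3
  · subst h3'
    rcases h3 with h | ⟨n, hn⟩
    · exact absurd h hpN
    · exact ⟨n, fun g i => hred 3 hP3 n hn g i⟩
  have h5 : 5 ≤ p := by
    have h4 : p ≠ 4 := by rintro rfl; revert hp; decide
    have := hp.two_le
    omega
  by_cases hK : p ≤ 4 * K
  · obtain ⟨n, hn⟩ := avoid p hpos (by rw [Fintype.card_fin]; omega) ρ
    exact ⟨n, fun g i => hred p (hP p hp hK) n hn g i⟩
  · obtain ⟨n, hn⟩ := avoid (ι := Fin 4 × Fin K) p hpos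
      (by rw [Fintype.card_prod, Fintype.card_fin, Fintype.card_fin]; omega) (fun x => (H x.1 x.2 : ℤ))
    exact ⟨n, fun g i => hn (g, i)⟩

/-- four residues: a difference of a later and an earlier one is the class of infinitely many elements -/
theorem four (hN : 2 ∣ N) (hP0 : 0 < P) (hP3 : 3 ∣ P) (hP : ∀ p : ℕ, p.Prime → p ≤ 4 * K → p ∣ P)
    (hG : C4 G N K) (r : Fin 4 → ℤ) (h3 : 3 ∣ N ∨ ∃ n : ℤ, ∀ g, ¬ (3 : ℤ) ∣ n + r g) :
    ∃ i j : Fin 4, i < j ∧ Inf G P (r j - r i) := by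
  obtain ⟨B, hB⟩ := bound G P hP0
  have hP0' : (0 : ℤ) < P := by exact_mod_cast hP0
  set H : Fin 4 → Fin K → ℕ := fun g i => ((r g) % P).toNat + P * (i.1 + g.1 * (K + B + 1)) with hH
  have hr : ∀ g, (((r g % P).toNat : ℕ) : ℤ) = r g % P := fun g => Int.toNat_of_nonneg (Int.emod_nonneg _ hP0'.ne')
  have hlt : ∀ g, (r g % P).toNat < P := by
    intro g
    have h1 := Int.emod_lt_of_pos (r g) hP0'
    have h2 := hr g
    omega
  have hsep : ∀ g g' : Fin 4, g < g' → ∀ i i', H g i + B < H g' i' := by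
    intro g g' hg i i'
    have hg' : g.1 + 1 ≤ g'.1 := hg
    have hi : i.1 + 1 ≤ K := i.2
    have h1 := hlt g
    simp only [hH]
    have h2 : P * (i.1 + 1 + g.1 * (K + B + 1)) + P * (B + 1) ≤ P * (i'.1 + g'.1 * (K + B + 1)) := by
      rw [← Nat.mul_add]
      refine Nat.mul_le_mul_left _ ?_
      have h4 : (g.1 + 1) * (K + B + 1) ≤ g'.1 * (K + B + 1) := Nat.mul_le_mul_right _ hg'
      have h5 : (g.1 + 1) * (K + B + 1) = g.1 * (K + B + 1) + (K + B + 1) := by ring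
      omega
    have h3 : B + 1 ≤ P * (B + 1) := Nat.le_mul_of_pos_left _ hP0
    have h6 : P * (i.1 + 1 + g.1 * (K + B + 1)) = P * (i.1 + g.1 * (K + B + 1)) + P := by ring
    omega
  have hρ : ∀ g i, (H g i : ℤ) ≡ r g [ZMOD P] := by
    intro g i
    simp only [hH]
    push_cast
    rw [hr g]
    have h1 : r g % P + (P : ℤ) * ((i.1 : ℤ) + g.1 * (K + B + 1)) ≡ r g % P + 0 [ZMOD P] :=
      Int.ModEq.add_left _ ((Int.modEq_zero_iff_dvd).2 (dvd_mul_right _ _))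
    rw [add_zero] at h1
    exact h1.trans (Int.mod_modEq _ _)
  have hinj : Function.Injective (fun x : Fin 4 × Fin K => H x.1 x.2) := by
    rintro ⟨g, i⟩ ⟨g', i'⟩ h
    simp only at h
    rcases lt_trichotomy g g' with hg | hg | hg
    · have := hsep g g' hg i i'; omega
    · subst hg
      simp only [hH] at h
      have h1 : P * (i.1 + g.1 * (K + B + 1)) = P * (i'.1 + g.1 * (K + B + 1)) := by omega
      have h2 := Nat.eq_of_mul_eq_mul_left hP0 h1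
      have h3 : i.1 = i'.1 := by omega
      rw [Fin.ext h3]
    · have := hsep g' g hg i' i; omega
  obtain ⟨g, g', i, i', hne, hl, hd⟩ := hG H (adm hN hP3 hP H r hinj hρ h3)
  rcases lt_trichotomy g g' with hg | hg | hg
  · refine ⟨g, g', hg, ?_⟩
    have h1 := hsep g g' hg i i'
    have h2 := hB _ hd (by omega)
    refine h2.congr ?_
    rw [Nat.cast_sub hl.le]
    exact (hρ g' i').sub (hρ g i)
  · exact absurd hg hne
  · have := hsep g' g hg i' i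
    omega

/-- sums of three elements, first case -/
theorem sumE (hN : 2 ∣ N) (hP0 : 0 < P) (hP3 : 3 ∣ P) (hP : ∀ p : ℕ, p.Prime → p ≤ 4 * K → p ∣ P)
    (hG : C4 G N K) (α β : ℤ) (hα : Inf G P α) (hβ : Inf G P β) (hαβ : ¬ Inf G P (β - α)) :
    ∃ L : ℕ, ∀ x : ℕ, L ≤ x → (3 ∣ N ∨ ∃ n : ℤ, ¬ (3 : ℤ) ∣ n + α ∧ ¬ (3 : ℤ) ∣ n + β ∧
      ¬ (3 : ℤ) ∣ n + (x - β) ∧ ¬ (3 : ℤ) ∣ n + (x - α)) →
      ∃ g₁ g₂ g₃, g₁ ∈ G ∧ g₂ ∈ G ∧ g₃ ∈ G ∧ x = g₁ + g₂ + g₃ := by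
  obtain ⟨B, hB⟩ := bound G P hP0
  obtain ⟨A₁, hi₁, hA₁⟩ := seq hα 0 K
  set m₁ := univ.sup A₁ with hm₁
  have hle₁ : ∀ i, A₁ i ≤ m₁ := fun i => le_sup (mem_univ i)
  obtain ⟨A₂, hi₂, hA₂⟩ := seq hβ (m₁ + B) K
  set m₂ := univ.sup A₂ with hm₂
  have hle₂ : ∀ i, A₂ i ≤ m₂ := fun i => le_sup (mem_univ i)
  refine ⟨2 * (m₁ + m₂) + 1, fun x hx h3 => ?_⟩
  have hne : ∀ i j, A₂ j - A₁ i ∉ G := by
    intro i j hd
    have h1 := hle₁ i
    have h2 := (hA₂ j).2.1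
    refine hαβ ((hB _ hd (by omega)).congr ?_)
    rw [Nat.cast_sub (by omega)]
    exact (hA₂ j).2.2.sub (hA₁ i).2.2
  have hadm : AdmN N ![A₁, A₂, fun i => x - A₂ i, fun i => x - A₁ i] := by
    refine adm hN hP3 hP _ ![α, β, x - β, x - α] ?_ ?_ ?_
    · rintro ⟨g, i⟩ ⟨g', i'⟩ h
      have a1 := hle₁ i
      have a2 := hle₁ i'
      have a3 := hle₂ i
      have a4 := hle₂ i'
      have b1 := (hA₂ i).2.1
      have b2 := (hA₂ i').2.1
      have c1 : A₁ i = A₁ i' → i = i' := fun h => hi₁ h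
      have c2 : A₂ i = A₂ i' → i = i' := fun h => hi₂ h
      fin_cases g <;> fin_cases g' <;> simp at h ⊢ <;> first
        | exact c1 h | exact c2 h | exact c1 (by omega) | exact c2 (by omega) | omega
    · intro g i
      have a1 := hle₁ i
      have a3 := hle₂ i
      fin_cases g
      · exact (hA₁ i).2.2
      · exact (hA₂ i).2.2
      · simp only [Fin.reduceFinMk, Matrix.cons_val]
        rw [Nat.cast_sub (by omega)]
        exact (Int.ModEq.refl _).sub (hA₂ i).2.2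
      · simp only [Fin.reduceFinMk, Matrix.cons_val]
        rw [Nat.cast_sub (by omega)]
        exact (Int.ModEq.refl _).sub (hA₁ i).2.2
    · rcases h3 with h | ⟨n, h1, h2, h4, h5⟩
      · exact Or.inl h
      · refine Or.inr ⟨n, fun g => ?_⟩
        fin_cases g
        · exact h1
        · exact h2
        · exact h4
        · exact h5
  obtain ⟨g, g', i, i', hgg, hl, hd⟩ := hG _ hadm
  have a1 := hle₁ i
  have a2 := hle₁ i'
  have a3 := hle₂ i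
  have a4 := hle₂ i'
  have b1 := (hA₂ i).2.1
  have b2 := (hA₂ i').2.1
  have hn1 := hne i i'
  have hn2 := hne i' i
  fin_cases g <;> fin_cases g' <;> simp at hgg hl hd
  · exact absurd hd (hne i i')
  · exact ⟨A₁ i, A₂ i', _, (hA₁ i).1, (hA₂ i').1, hd, by omega⟩
  · exact ⟨A₁ i, A₁ i', _, (hA₁ i).1, (hA₁ i').1, hd, by omega⟩
  · omega
  · exact ⟨A₂ i, A₂ i', _, (hA₂ i).1, (hA₂ i').1, hd, by omega⟩
  · exact ⟨A₂ i, A₁ i', _, (hA₂ i).1, (hA₁ i').1, hd, by omega⟩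
  · omega
  · omega
  · refine absurd hd ?_
    have e : x - A₁ i' - (x - A₂ i) = A₂ i - A₁ i' := by omega
    rw [e]
    exact hne i' i
  · omega
  · omega
  · omega

/-- differences, first case -/
theorem difE (hN : 2 ∣ N) (hP0 : 0 < P) (hP3 : 3 ∣ P) (hP : ∀ p : ℕ, p.Prime → p ≤ 4 * K → p ∣ P)
    (hG : C4 G N K) (α β : ℤ) (hα : Inf G P α) (hβ : Inf G P β) (hαβ : ¬ Inf G P (β - α)) :
    ∀ x : ℕ, (3 ∣ N ∨ ∃ n : ℤ, ¬ (3 : ℤ) ∣ n + α ∧ ¬ (3 : ℤ) ∣ n + β ∧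
      ¬ (3 : ℤ) ∣ n + (x + α) ∧ ¬ (3 : ℤ) ∣ n + (x + β)) →
      ∀ R : ℕ, ∃ g₁ g₂ g₃, g₁ ∈ G ∧ g₂ ∈ G ∧ g₃ ∈ G ∧ R < g₁ ∧ x + g₃ = g₁ + g₂ := by
  obtain ⟨B, hB⟩ := bound G P hP0
  intro x h3 R
  obtain ⟨A₁, hi₁, hA₁⟩ := seq hα R K
  set m₁ := univ.sup A₁ with hm₁
  have hle₁ : ∀ i, A₁ i ≤ m₁ := fun i => le_sup (mem_univ i)
  obtain ⟨A₂, hi₂, hA₂⟩ := seq hβ (m₁ + B + R) K
  set m₂ := univ.sup A₂ with hm₂
  have hle₂ : ∀ i, A₂ i ≤ m₂ := fun i => le_sup (mem_univ i)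
  obtain ⟨A₃, hi₃, hA₃⟩ := seq hα (m₁ + m₂) K
  set m₃ := univ.sup A₃ with hm₃
  have hle₃ : ∀ i, A₃ i ≤ m₃ := fun i => le_sup (mem_univ i)
  obtain ⟨A₄, hi₄, hA₄⟩ := seq hβ (m₁ + m₂ + m₃ + B) K
  have hne : ∀ i j, A₂ j - A₁ i ∉ G := by
    intro i j hd
    have h1 := hle₁ i
    have h2 := (hA₂ j).2.1
    refine hαβ ((hB _ hd (by omega)).congr ?_)
    rw [Nat.cast_sub (by omega)]
    exact (hA₂ j).2.2.sub (hA₁ i).2.2
  have hne' : ∀ i j, A₄ j - A₃ i ∉ G := by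
    intro i j hd
    have h1 := hle₃ i
    have h2 := (hA₄ j).2.1
    refine hαβ ((hB _ hd (by omega)).congr ?_)
    rw [Nat.cast_sub (by omega)]
    exact (hA₄ j).2.2.sub (hA₃ i).2.2
  have hadm : AdmN N ![A₁, A₂, fun i => x + A₃ i, fun i => x + A₄ i] := by
    refine adm hN hP3 hP _ ![α, β, x + α, x + β] ?_ ?_ ?_
    · rintro ⟨g, i⟩ ⟨g', i'⟩ h
      have a1 := hle₁ i
      have a2 := hle₁ i'
      have a3 := hle₂ i
      have a4 := hle₂ i'
      have a5 := hle₃ i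
      have a6 := hle₃ i'
      have b1 := (hA₂ i).2.1
      have b2 := (hA₂ i').2.1
      have b3 := (hA₃ i).2.1
      have b4 := (hA₃ i').2.1
      have b5 := (hA₄ i).2.1
      have b6 := (hA₄ i').2.1
      have c1 : A₁ i = A₁ i' → i = i' := fun h => hi₁ h
      have c2 : A₂ i = A₂ i' → i = i' := fun h => hi₂ h
      have c3 : A₃ i = A₃ i' → i = i' := fun h => hi₃ h
      have c4 : A₄ i = A₄ i' → i = i' := fun h => hi₄ h
      fin_cases g <;> fin_cases g' <;> simp at h ⊢ <;> first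
        | exact c1 h | exact c2 h | exact c3 h | exact c4 h
        | exact c1 (by omega) | exact c2 (by omega) | exact c3 (by omega) | exact c4 (by omega) | omega
    · intro g i
      fin_cases g
      · exact (hA₁ i).2.2
      · exact (hA₂ i).2.2
      · simp only [Fin.reduceFinMk, Matrix.cons_val]
        rw [Nat.cast_add]
        exact (Int.ModEq.refl _).add (hA₃ i).2.2
      · simp only [Fin.reduceFinMk, Matrix.cons_val]
        rw [Nat.cast_add]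
        exact (Int.ModEq.refl _).add (hA₄ i).2.2
    · rcases h3 with h | ⟨n, h1, h2, h4, h5⟩
      · exact Or.inl h
      · refine Or.inr ⟨n, fun g => ?_⟩
        fin_cases g
        · exact h1
        · exact h2
        · exact h4
        · exact h5
  obtain ⟨g, g', i, i', hgg, hl, hd⟩ := hG _ hadm
  have a1 := hle₁ i
  have a2 := hle₁ i'
  have a3 := hle₂ i
  have a4 := hle₂ i'
  have a5 := hle₃ i
  have a6 := hle₃ i'
  have b1 := (hA₂ i).2.1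
  have b2 := (hA₂ i').2.1
  have b3 := (hA₃ i).2.1
  have b4 := (hA₃ i').2.1
  have b5 := (hA₄ i).2.1
  have b6 := (hA₄ i').2.1
  have d1 := (hA₁ i).2.1
  fin_cases g <;> fin_cases g' <;> simp at hgg hl hd
  · exact absurd hd (hne i i')
  · exact ⟨A₁ i, _, A₃ i', (hA₁ i).1, hd, (hA₃ i').1, by omega, by omega⟩
  · exact ⟨A₁ i, _, A₄ i', (hA₁ i).1, hd, (hA₄ i').1, by omega, by omega⟩
  · omega
  · exact ⟨A₂ i, _, A₃ i', (hA₂ i).1, hd, (hA₃ i').1, by omega, by omega⟩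
  · exact ⟨A₂ i, _, A₄ i', (hA₂ i).1, hd, (hA₄ i').1, by omega, by omega⟩
  · omega
  · omega
  · refine absurd hd ?_
    have e : x + A₄ i' - (x + A₃ i) = A₄ i' - A₃ i := by omega
    rw [e]
    exact hne' i i'
  · omega
  · omega
  · omega

/-- all large multiples of `P` are sums of two, all multiples are differences of two elements -/
def Two (G : Set ℕ) (P : ℕ) : Prop :=
  (∃ L : ℕ, ∀ k : ℕ, L ≤ k → ∃ i : ℕ, i < k ∧ 0 < i ∧ P * i ∈ G ∧ P * (k - i) ∈ G) ∧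
  ∀ h : ℕ, ∀ R : ℕ, ∃ i : ℕ, R < i ∧ P * i ∈ G ∧ P * (i + h) ∈ G

open Classical in
/-- from windows of density more than one half -/
theorem two_of_win (c : ℝ) (hc : 1 / 2 < c)
    (hw : ∃ L : ℕ, ∀ T : ℕ, L ≤ T → ∀ u : ℕ,
      c * (T : ℝ) ≤ ({k : ℕ | u < k ∧ k ≤ u + T ∧ P * k ∈ G}.ncard : ℝ)) : Two G P := by
  obtain ⟨L, hL⟩ := hw
  have hL' : ∀ T : ℕ, L ≤ T → ∀ u : ℕ,
      c * (T : ℝ) ≤ (((Ioc u (u + T)).filter (fun k => P * k ∈ G)).card : ℝ) := by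
    intro T hT u
    have h := hL T hT u
    have e : {k : ℕ | u < k ∧ k ≤ u + T ∧ P * k ∈ G} =
        (((Ioc u (u + T)).filter (fun k => P * k ∈ G) : Finset ℕ) : Set ℕ) := by
      ext k
      rw [Finset.mem_coe, mem_filter, mem_Ioc, and_assoc]
      exact Iff.rfl
    rwa [e, Set.ncard_coe_finset] at h
  constructor
  · refine ⟨L + 2, fun k hk => ?_⟩
    have h1 := hL' (k - 1) (by omega) 0
    have h2 := hL' (k - 1) (by omega) (k - 0 - (k - 1) - 1 + 0)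
    have h2' := DP.refl_count (fun j => P * j ∈ G) (k - 1) 0 k 0 (by omega)
    have h3 := DP.both (Ioc 0 (0 + (k - 1))) (fun i => P * i ∈ G) (fun i => P * (k - i + 0) ∈ G)
    rw [Nat.card_Ioc, Nat.add_sub_cancel_left] at h3
    have h4 : (((Ioc 0 (0 + (k - 1))).filter (fun i => P * i ∈ G)).card : ℝ) +
        (((Ioc 0 (0 + (k - 1))).filter (fun i => P * (k - i + 0) ∈ G)).card : ℝ) ≤ ((k - 1 : ℕ) : ℝ) +
        (((Ioc 0 (0 + (k - 1))).filter (fun i => P * i ∈ G ∧ P * (k - i + 0) ∈ G)).card : ℝ) := by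
      exact_mod_cast h3
    have h2'' : c * ((k - 1 : ℕ) : ℝ) ≤
        (((Ioc 0 (0 + (k - 1))).filter (fun i => P * (k - i + 0) ∈ G)).card : ℝ) :=
      le_trans h2 (by exact_mod_cast h2')
    have h5 : (0 : ℝ) < ((k - 1 : ℕ) : ℝ) := by exact_mod_cast (by omega : 0 < k - 1)
    have h6 : (0 : ℝ) <
        (((Ioc 0 (0 + (k - 1))).filter (fun i => P * i ∈ G ∧ P * (k - i + 0) ∈ G)).card : ℝ) := by
      nlinarith
    have h7 : 0 < ((Ioc 0 (0 + (k - 1))).filter (fun i => P * i ∈ G ∧ P * (k - i + 0) ∈ G)).card := by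
      exact_mod_cast h6
    obtain ⟨i, hi⟩ := Finset.card_pos.1 h7
    rw [mem_filter, mem_Ioc] at hi
    exact ⟨i, by omega, hi.1.1, hi.2.1, by simpa using hi.2.2⟩
  · intro h R
    have h1 := hL' (L + 1) (by omega) R
    have h2 := hL' (L + 1) (by omega) (R + h)
    rw [← DP.shift_count (fun j => P * j ∈ G) (L + 1) R h] at h2
    have h3 := DP.both (Ioc R (R + (L + 1))) (fun i => P * i ∈ G) (fun i => P * (i + h) ∈ G)
    rw [Nat.card_Ioc, Nat.add_sub_cancel_left] at h3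
    have h4 : (((Ioc R (R + (L + 1))).filter (fun i => P * i ∈ G)).card : ℝ) +
        (((Ioc R (R + (L + 1))).filter (fun i => P * (i + h) ∈ G)).card : ℝ) ≤ ((L + 1 : ℕ) : ℝ) +
        (((Ioc R (R + (L + 1))).filter (fun i => P * i ∈ G ∧ P * (i + h) ∈ G)).card : ℝ) := by
      exact_mod_cast h3
    have h5 : (0 : ℝ) < ((L + 1 : ℕ) : ℝ) := by positivity
    have h6 : (0 : ℝ) <
        (((Ioc R (R + (L + 1))).filter (fun i => P * i ∈ G ∧ P * (i + h) ∈ G)).card : ℝ) := by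
      nlinarith
    have h7 : 0 < ((Ioc R (R + (L + 1))).filter (fun i => P * i ∈ G ∧ P * (i + h) ∈ G)).card := by
      exact_mod_cast h6
    obtain ⟨i, hi⟩ := Finset.card_pos.1 h7
    rw [mem_filter, mem_Ioc] at hi
    exact ⟨i, hi.1.1, hi.2.1, hi.2.2⟩

/-- second case: all classes divisible by `6` -/
theorem direct (hP0 : 0 < P) (h2 : Two G P) (h6 : ∀ t : ℤ, Inf G P (6 * t)) (hP6 : 6 ∣ P) :
    (∃ L : ℕ, ∀ x : ℕ, L ≤ x → 6 ∣ x →
      ∃ g₁ g₂ g₃, g₁ ∈ G ∧ g₂ ∈ G ∧ g₃ ∈ G ∧ x = g₁ + g₂ + g₃) ∧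
    ∀ x : ℕ, 6 ∣ x → ∀ R : ℕ, ∃ g₁ g₂ g₃, g₁ ∈ G ∧ g₂ ∈ G ∧ g₃ ∈ G ∧ R < g₁ ∧ x + g₃ = g₁ + g₂ := by
  have hch : ∀ r R : ℕ, ∃ g : ℕ, 6 ∣ r → g ∈ G ∧ R < g ∧ g % P = r % P := by
    intro r R
    by_cases hr : 6 ∣ r
    · obtain ⟨t, rfl⟩ := hr
      obtain ⟨g, hg, hR, hm⟩ := h6 (t : ℤ) R
      refine ⟨g, fun _ => ⟨hg, hR, ?_⟩⟩
      have h1 : (g : ℤ) ≡ ((6 * t : ℕ) : ℤ) [ZMOD P] := by push_cast; exact hm
      exact (Int.natCast_modEq_iff.1 h1)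
    · exact ⟨0, fun h => absurd h hr⟩
  constructor
  · choose gs hgs using fun r => hch r 0
    obtain ⟨L, hL⟩ := h2.1
    refine ⟨(range P).sup gs + P * L + 1, fun x hx h6x => ?_⟩
    have hr6 : 6 ∣ x % P := (Nat.dvd_mod_iff hP6).2 h6x
    obtain ⟨h1, -, h3⟩ := hgs (x % P) hr6
    have h4 : gs (x % P) ≤ (range P).sup gs := le_sup (mem_range.2 (Nat.mod_lt x hP0))
    have h5 : P ∣ x - gs (x % P) := by
      rw [← Nat.modEq_iff_dvd' (by omega)]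
      rw [Nat.ModEq, h3, Nat.mod_mod]
    obtain ⟨k, hk⟩ := h5
    have hLk : L ≤ k := by
      have h6 : P * L ≤ P * k := by omega
      exact Nat.le_of_mul_le_mul_left h6 hP0
    obtain ⟨i, hik, -, hg1, hg2⟩ := hL k hLk
    refine ⟨_, _, _, h1, hg1, hg2, ?_⟩
    have h7 : P * i + P * (k - i) = P * k := by
      rw [← Nat.mul_add]
      congr 1
      omega
    omega
  · intro x h6x R
    obtain ⟨g, hg⟩ := hch x R
    obtain ⟨h1, hR, h3⟩ := hg h6x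
    rcases le_total g x with hle | hle
    · have h5 : P ∣ x - g := by
        rw [← Nat.modEq_iff_dvd' hle]
        exact h3
      obtain ⟨k, hk⟩ := h5
      obtain ⟨i, -, hg1, hg2⟩ := h2.2 k 0
      refine ⟨g, P * (i + k), P * i, h1, hg2, hg1, hR, ?_⟩
      rw [Nat.mul_add]
      omega
    · have h5 : P ∣ g - x := by
        rw [← Nat.modEq_iff_dvd' hle]
        exact h3.symm
      obtain ⟨k, hk⟩ := h5
      obtain ⟨i, -, hg1, hg2⟩ := h2.2 k 0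
      refine ⟨g, P * i, P * (i + k), h1, hg1, hg2, hR, ?_⟩
      rw [Nat.mul_add]
      omega

/-- the theorem -/
theorem main (hN : 2 ∣ N) (hP0 : 0 < P) (hP18 : 18 ∣ P) (hP : ∀ p : ℕ, p.Prime → p ≤ 4 * K → p ∣ P)
    (hG : C4 G N K) (h2 : Two G P) :
    (∃ L : ℕ, ∀ x : ℕ, L ≤ x → 6 ∣ x →
      ∃ g₁ g₂ g₃, g₁ ∈ G ∧ g₂ ∈ G ∧ g₃ ∈ G ∧ x = g₁ + g₂ + g₃) ∧
    ∀ x : ℕ, 6 ∣ x → ∀ R : ℕ, ∃ g₁ g₂ g₃, g₁ ∈ G ∧ g₂ ∈ G ∧ g₃ ∈ G ∧ R < g₁ ∧ x + g₃ = g₁ + g₂ := by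
  have hP3 : 3 ∣ P := dvd_trans (by norm_num) hP18
  have hP6 : 6 ∣ P := dvd_trans (by norm_num) hP18
  -- both statements from a pair of classes
  have hE : ∀ α β : ℤ, Inf G P α → Inf G P β → ¬ Inf G P (β - α) →
      (3 ∣ N ∨ (3 : ℤ) ∣ β - α ∨ (3 : ℤ) ∣ α + β ∧ ¬ (3 : ℤ) ∣ α) →
      (∃ L : ℕ, ∀ x : ℕ, L ≤ x → 6 ∣ x →
        ∃ g₁ g₂ g₃, g₁ ∈ G ∧ g₂ ∈ G ∧ g₃ ∈ G ∧ x = g₁ + g₂ + g₃) ∧
      ∀ x : ℕ, 6 ∣ x → ∀ R : ℕ, ∃ g₁ g₂ g₃, g₁ ∈ G ∧ g₂ ∈ G ∧ g₃ ∈ G ∧ R < g₁ ∧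
        x + g₃ = g₁ + g₂ := by
    intro α β hα hβ hαβ h3
    constructor
    · obtain ⟨L, hL⟩ := sumE hN hP0 hP3 hP hG α β hα hβ hαβ
      refine ⟨L, fun x hx h6 => hL x hx ?_⟩
      rcases h3 with h | h | ⟨h, h'⟩
      · exact Or.inl h
      · obtain ⟨n, hn1, hn2⟩ := two3 α (x - α)
        exact Or.inr ⟨n, hn1, by omega, by omega, hn2⟩
      · exact Or.inr ⟨0, by omega, by omega, by omega, by omega⟩
    · intro x h6 R
      refine difE hN hP0 hP3 hP hG α β hα hβ hαβ x ?_ R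
      rcases h3 with h | h | ⟨h, h'⟩
      · exact Or.inl h
      · obtain ⟨n, hn1, hn2⟩ := two3 α (x + α)
        exact Or.inr ⟨n, hn1, by omega, hn2, by omega⟩
      · exact Or.inr ⟨0, by omega, by omega, by omega, by omega⟩
  by_contra hno
  have hW : ∀ α β : ℤ, Inf G P α → Inf G P β →
      (3 ∣ N ∨ (3 : ℤ) ∣ β - α ∨ (3 : ℤ) ∣ α + β ∧ ¬ (3 : ℤ) ∣ α) → Inf G P (β - α) := by
    intro α β hα hβ h3
    by_contra h
    exact hno (hE α β hα hβ h h3)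
  have h0 : Inf G P 0 := by
    intro n
    obtain ⟨i, hi, hg, -⟩ := h2.2 0 n
    refine ⟨P * i, hg, ?_, ?_⟩
    · exact lt_of_lt_of_le hi (Nat.le_mul_of_pos_left _ hP0)
    · push_cast
      exact Int.modEq_zero_iff_dvd.2 (dvd_mul_right _ _)
  by_cases h3N : 3 ∣ N
  · -- a subgroup
    set S : AddSubgroup ℤ := AddSubgroup.ofSub {s : ℤ | Inf G P s} ⟨0, h0⟩
      (fun x hx y hy => by
        have := hW y x hy hx (Or.inl h3N)
        rwa [sub_eq_add_neg] at this) with hS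
    have hmem : ∀ s : ℤ, s ∈ S ↔ Inf G P s := fun s => Iff.rfl
    obtain ⟨i, j, hij, hI⟩ := four hN hP0 hP3 hP hG ![0, 1, 2, 3] (Or.inl h3N)
    have h6 : (6 : ℤ) ∈ S := by
      rw [← hmem] at hI
      fin_cases i <;> fin_cases j <;> simp at hij hI <;> first
        | exact (by simpa using S.zsmul_mem hI 6)
        | exact (by simpa using S.zsmul_mem hI 3)
        | exact (by simpa using S.zsmul_mem hI 2)
    refine hno (direct hP0 h2 (fun t => ?_) hP6)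
    rw [← hmem, mul_comm]
    have := S.zsmul_mem h6 t
    simpa using this
  · -- the part divisible by `3`
    set S : AddSubgroup ℤ := AddSubgroup.ofSub {s : ℤ | (3 : ℤ) ∣ s ∧ Inf G P s} ⟨0, dvd_zero _, h0⟩
      (fun x hx y hy => by
        have := hW y x hy.2 hx.2 (Or.inr (Or.inl (dvd_sub hx.1 hy.1)))
        rw [sub_eq_add_neg] at this
        refine ⟨?_, this⟩
        have h1 := dvd_sub hx.1 hy.1
        rwa [sub_eq_add_neg] at h1) with hS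
    have hmem : ∀ s : ℤ, s ∈ S ↔ ((3 : ℤ) ∣ s ∧ Inf G P s) := fun s => Iff.rfl
    have h6not : (6 : ℤ) ∉ S := by
      intro h6
      refine hno (direct hP0 h2 (fun t => ?_) hP6)
      have := S.zsmul_mem h6 t
      rw [smul_eq_mul, hmem] at this
      rw [mul_comm]
      exact this.2
    have h3not : (3 : ℤ) ∉ S := by
      intro h3
      have := S.zsmul_mem h3 2
      exact h6not (by simpa using this)
    have h9 : (9 : ℤ) ∈ S := by
      obtain ⟨i, j, hij, hI⟩ := four hN hP0 hP3 hP hG ![0, 3, 6, 9]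
        (Or.inr ⟨1, fun g => by fin_cases g <;> simp⟩)
      have k3 : ¬ Inf G P 3 := fun h => h3not ((hmem 3).2 ⟨by decide, h⟩)
      have k6 : ¬ Inf G P 6 := fun h => h6not ((hmem 6).2 ⟨by decide, h⟩)
      fin_cases i <;> fin_cases j <;> simp at hij hI <;> first
        | exact absurd hI k3
        | exact absurd hI k6
        | exact (hmem 9).2 ⟨by decide, hI⟩
    have hS9 : ∀ s : ℤ, (3 : ℤ) ∣ s → Inf G P s → (9 : ℤ) ∣ s := by
      intro s h3 hI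
      have hs : s ∈ S := (hmem s).2 ⟨h3, hI⟩
      have hq := S.sub_mem hs (S.zsmul_mem h9 (s / 9))
      rw [smul_eq_mul] at hq
      have h1 : s % 9 = 0 ∨ s % 9 = 3 ∨ s % 9 = 6 := by omega
      rcases h1 with h1 | h1 | h1
      · omega
      · exfalso
        rw [show s - s / 9 * 9 = 3 by omega] at hq
        exact h3not hq
      · exfalso
        rw [show s - s / 9 * 9 = 6 by omega] at hq
        exact h6not hq
    have k3 : ¬ Inf G P 3 := fun h => h3not ((hmem 3).2 ⟨by decide, h⟩)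
    have k6 : ¬ Inf G P 6 := fun h => h6not ((hmem 6).2 ⟨by decide, h⟩)
    obtain ⟨α, hα3, hα⟩ : ∃ α : ℤ, α % 3 = 1 ∧ Inf G P α := by
      obtain ⟨i, j, hij, hI⟩ := four hN hP0 hP3 hP hG ![0, 3, 6, 1]
        (Or.inr ⟨1, fun g => by fin_cases g <;> simp⟩)
      fin_cases i <;> fin_cases j <;> simp at hij hI <;> first
        | exact absurd hI k3
        | exact absurd hI k6
        | exact ⟨_, by norm_num, hI⟩
    obtain ⟨β, hβ3, hβ⟩ : ∃ β : ℤ, β % 3 = 2 ∧ Inf G P β := by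
      obtain ⟨i, j, hij, hI⟩ := four hN hP0 hP3 hP hG ![1, 0, 3, 6]
        (Or.inr ⟨1, fun g => by fin_cases g <;> simp⟩)
      fin_cases i <;> fin_cases j <;> simp at hij hI <;> first
        | exact absurd hI k3
        | exact absurd hI k6
        | exact ⟨_, by norm_num, hI⟩
    have e1 := hW α β hα hβ (Or.inr (Or.inr ⟨by omega, by omega⟩))
    have e2 := hW β α hβ hα (Or.inr (Or.inr ⟨by omega, by omega⟩))
    have f1 := hS9 _ (by omega) (hW α (β - α) hα e1 (Or.inr (Or.inl (by omega))))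
    have f2 := hS9 _ (by omega) (hW β (α - β) hβ e2 (Or.inr (Or.inl (by omega))))
    omega

/-- the theorem, from windows: `M` divides all the steps -/
theorem main' (hN : 2 ∣ N) (hG : C4 G N K) (c : ℝ) (hc : 1 / 2 < c) (M : ℕ) (hM : 0 < M)
    (hw : ∀ P : ℕ, 0 < P → M ∣ P → ∃ L : ℕ, ∀ T : ℕ, L ≤ T → ∀ u : ℕ,
      c * (T : ℝ) ≤ ({k : ℕ | u < k ∧ k ≤ u + T ∧ P * k ∈ G}.ncard : ℝ)) :
    (∃ L : ℕ, ∀ x : ℕ, L ≤ x → 6 ∣ x →
      ∃ g₁ g₂ g₃, g₁ ∈ G ∧ g₂ ∈ G ∧ g₃ ∈ G ∧ x = g₁ + g₂ + g₃) ∧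
    ∀ x : ℕ, 6 ∣ x → ∀ R : ℕ, ∃ g₁ g₂ g₃, g₁ ∈ G ∧ g₂ ∈ G ∧ g₃ ∈ G ∧ R < g₁ ∧ x + g₃ = g₁ + g₂ := by
  have hP0 : 0 < M * 18 * (4 * K).factorial := by positivity
  refine main (P := M * 18 * (4 * K).factorial) hN hP0 ?_ ?_ hG (two_of_win c hc (hw _ hP0 ?_))
  · exact (dvd_mul_left _ _).mul_right _
  · intro p hp hpK
    exact (Nat.dvd_factorial hp.pos hpK).mul_left _
  · exact (dvd_mul_right _ _).mul_right _

end

end Pool.Agent.U455.TG
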