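import Mathlib
import Pool.Agent.U455.TG

/-!
# Sums of three elements of a set which meets the differences of any four admissible classes

Any set `G` of natural numbers such that any four admissible classes of `K` shifts contain two shifts of
different classes whose difference is in `G`: every large multiple of `6` is a sum of three elements of `G`, two
of them bounded, and every multiple of `6` is `g₁ + g₂ - g₃`.
-/

set_option autoImplicit false

namespace Pool.Agent.U455.TH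

open Finset Pool.Agent.H947R3.GM Pool.Agent.U455.TG

section
variable {G : Set ℕ} {N K P : ℕ}

/-- the two conclusions -/
def Concl (G : Set ℕ) : Prop :=
  (∃ B L : ℕ, ∀ x : ℕ, L ≤ x → 6 ∣ x → ∃ g₁ g₂ g₃, g₁ ∈ G ∧ g₂ ∈ G ∧ g₃ ∈ G ∧ g₁ ≤ B ∧ g₂ ≤ B ∧
    x = g₁ + g₂ + g₃) ∧
  ∀ x : ℕ, 6 ∣ x → ∀ R : ℕ, ∃ g₁ g₂ g₃, g₁ ∈ G ∧ g₂ ∈ G ∧ g₃ ∈ G ∧ R < g₁ ∧ x + g₃ = g₁ + g₂

theorem posK (hG : C4 G N K) : 0 < K := by
  rcases Nat.eq_zero_or_pos K with h | h
  · subst h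
    obtain ⟨-, -, i, -⟩ := hG (fun _ i => i.elim0) ⟨fun x => x.2.elim0, fun p _ _ => ⟨0, fun _ i => i.elim0⟩⟩
    exact i.elim0
  · exact h

/-- sets of multiples of `P` without differences -/
def Ind (G : Set ℕ) (P K R : ℕ) : Prop := ∃ X Y : Fin K → ℕ, Function.Injective X ∧
  Function.Injective Y ∧ (∀ i, X i ∈ G ∧ P ∣ X i ∧ R < X i) ∧ (∀ i, Y i ∈ G ∧ P ∣ Y i) ∧
  (∀ i j, X i < Y j) ∧ ∀ i j, Y j - X i ∉ G

theorem indSum (hN : 2 ∣ N) (hP3 : 3 ∣ P) (hP : ∀ p : ℕ, p.Prime → p ≤ 4 * K → p ∣ P)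
    (hG : C4 G N K) (hI : Ind G P K 0) :
    ∃ B L : ℕ, ∀ x : ℕ, L ≤ x → ∃ g₁ g₂ g₃, g₁ ∈ G ∧ g₂ ∈ G ∧ g₃ ∈ G ∧ g₁ ≤ B ∧ g₂ ≤ B ∧
      x = g₁ + g₂ + g₃ := by
  obtain ⟨A₁, A₂, hi₁, hi₂, hA₁, hA₂, hlt, hne⟩ := hI
  set m₁ := univ.sup A₁ with hm₁
  have hle₁ : ∀ i, A₁ i ≤ m₁ := fun i => le_sup (mem_univ i)
  set m₂ := univ.sup A₂ with hm₂
  have hle₂ : ∀ i, A₂ i ≤ m₂ := fun i => le_sup (mem_univ i)
  refine ⟨m₁ + m₂, 2 * (m₁ + m₂) + 1, fun x hx => ?_⟩
  have hadm : AdmN N ![A₁, A₂, fun i => x - A₂ i, fun i => x - A₁ i] := by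
    refine adm hN hP3 hP _ ![0, 0, x, x] ?_ ?_ ?_
    · rintro ⟨g, i⟩ ⟨g', i'⟩ h
      have a1 := hle₁ i
      have a2 := hle₁ i'
      have a3 := hle₂ i
      have a4 := hle₂ i'
      have b1 := hlt i i'
      have b2 := hlt i' i
      have c1 : A₁ i = A₁ i' → i = i' := fun h => hi₁ h
      have c2 : A₂ i = A₂ i' → i = i' := fun h => hi₂ h
      fin_cases g <;> fin_cases g' <;> simp at h ⊢ <;> first
        | exact c1 h | exact c2 h | exact c1 (by omega) | exact c2 (by omega) | omega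
    · intro g i
      have a1 := hle₁ i
      have a3 := hle₂ i
      have d1 : (A₁ i : ℤ) ≡ 0 [ZMOD P] := Int.modEq_zero_iff_dvd.2 (by exact_mod_cast (hA₁ i).2.1)
      have d2 : (A₂ i : ℤ) ≡ 0 [ZMOD P] := Int.modEq_zero_iff_dvd.2 (by exact_mod_cast (hA₂ i).2)
      fin_cases g
      · exact d1
      · exact d2
      · simp only [Fin.reduceFinMk, Matrix.cons_val]
        rw [Nat.cast_sub (by omega)]
        simpa using (Int.ModEq.refl (x : ℤ)).sub d2
      · simp only [Fin.reduceFinMk, Matrix.cons_val]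
        rw [Nat.cast_sub (by omega)]
        simpa using (Int.ModEq.refl (x : ℤ)).sub d1
    · obtain ⟨n, h1, h2⟩ := two3 0 (x : ℤ)
      refine Or.inr ⟨n, fun g => ?_⟩
      fin_cases g
      · exact h1
      · exact h1
      · exact h2
      · exact h2
  obtain ⟨g, g', i, i', hgg, hl, hd⟩ := hG _ hadm
  have a1 := hle₁ i
  have a2 := hle₁ i'
  have a3 := hle₂ i
  have a4 := hle₂ i'
  have b1 := hlt i i'
  have b2 := hlt i' i
  fin_cases g <;> fin_cases g' <;> simp at hgg hl hd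
  · exact absurd hd (hne i i')
  · exact ⟨A₁ i, A₂ i', _, (hA₁ i).1, (hA₂ i').1, hd, by omega, by omega, by omega⟩
  · exact ⟨A₁ i, A₁ i', _, (hA₁ i).1, (hA₁ i').1, hd, by omega, by omega, by omega⟩
  · omega
  · exact ⟨A₂ i, A₂ i', _, (hA₂ i).1, (hA₂ i').1, hd, by omega, by omega, by omega⟩
  · exact ⟨A₂ i, A₁ i', _, (hA₂ i).1, (hA₁ i').1, hd, by omega, by omega, by omega⟩
  · omega
  · omega
  · refine absurd hd ?_
    have e : x - A₁ i' - (x - A₂ i) = A₂ i - A₁ i' := by omega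
    rw [e]
    exact hne i' i
  · omega
  · omega
  · omega

/-- sums of three elements, first case -/
theorem sumEb (hN : 2 ∣ N) (hP0 : 0 < P) (hP3 : 3 ∣ P) (hP : ∀ p : ℕ, p.Prime → p ≤ 4 * K → p ∣ P)
    (hG : C4 G N K) (α β : ℤ) (hα : Inf G P α) (hβ : Inf G P β) (hαβ : ¬ Inf G P (β - α)) :
    ∃ B' L : ℕ, ∀ x : ℕ, L ≤ x → (3 ∣ N ∨ ∃ n : ℤ, ¬ (3 : ℤ) ∣ n + α ∧ ¬ (3 : ℤ) ∣ n + β ∧
      ¬ (3 : ℤ) ∣ n + (x - β) ∧ ¬ (3 : ℤ) ∣ n + (x - α)) →
      ∃ g₁ g₂ g₃, g₁ ∈ G ∧ g₂ ∈ G ∧ g₃ ∈ G ∧ g₁ ≤ B' ∧ g₂ ≤ B' ∧ x = g₁ + g₂ + g₃ := by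
  obtain ⟨B, hB⟩ := bound G P hP0
  obtain ⟨A₁, hi₁, hA₁⟩ := seq hα 0 K
  set m₁ := univ.sup A₁ with hm₁
  have hle₁ : ∀ i, A₁ i ≤ m₁ := fun i => le_sup (mem_univ i)
  obtain ⟨A₂, hi₂, hA₂⟩ := seq hβ (m₁ + B) K
  set m₂ := univ.sup A₂ with hm₂
  have hle₂ : ∀ i, A₂ i ≤ m₂ := fun i => le_sup (mem_univ i)
  refine ⟨m₁ + m₂, 2 * (m₁ + m₂) + 1, fun x hx h3 => ?_⟩
  have hne : ∀ i j, A₂ j - A₁ i ∉ G := by
    intro i j hd
    have h1 := hle₁ i
    have h2 := (hA₂ j).2.1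
    refine hαβ ((hB _ hd (by omega)).congr ?_)
    rw [Nat.cast_sub (by omega)]
    exact (hA₂ j).2.2.sub (hA₁ i).2.2
  have hadm : AdmN N ![A₁, A₂, fun i => x - A₂ i, fun i => x - A₁ i] := by
    refine adm hN hP3 hP _ ![α, β, x - β, x - α] ?_ ?_ ?_
    · rintro ⟨g, i⟩ ⟨g', i'⟩ h
      have a1 := hle₁ i
      have a2 := hle₁ i'
      have a3 := hle₂ i
      have a4 := hle₂ i'
      have b1 := (hA₂ i).2.1
      have b2 := (hA₂ i').2.1
      have c1 : A₁ i = A₁ i' → i = i' := fun h => hi₁ h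
      have c2 : A₂ i = A₂ i' → i = i' := fun h => hi₂ h
      fin_cases g <;> fin_cases g' <;> simp at h ⊢ <;> first
        | exact c1 h | exact c2 h | exact c1 (by omega) | exact c2 (by omega) | omega
    · intro g i
      have a1 := hle₁ i
      have a3 := hle₂ i
      fin_cases g
      · exact (hA₁ i).2.2
      · exact (hA₂ i).2.2
      · simp only [Fin.reduceFinMk, Matrix.cons_val]
        rw [Nat.cast_sub (by omega)]
        exact (Int.ModEq.refl _).sub (hA₂ i).2.2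
      · simp only [Fin.reduceFinMk, Matrix.cons_val]
        rw [Nat.cast_sub (by omega)]
        exact (Int.ModEq.refl _).sub (hA₁ i).2.2
    · rcases h3 with h | ⟨n, h1, h2, h4, h5⟩
      · exact Or.inl h
      · refine Or.inr ⟨n, fun g => ?_⟩
        fin_cases g
        · exact h1
        · exact h2
        · exact h4
        · exact h5
  obtain ⟨g, g', i, i', hgg, hl, hd⟩ := hG _ hadm
  have a1 := hle₁ i
  have a2 := hle₁ i'
  have a3 := hle₂ i
  have a4 := hle₂ i'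
  have b1 := (hA₂ i).2.1
  have b2 := (hA₂ i').2.1
  have hn1 := hne i i'
  have hn2 := hne i' i
  fin_cases g <;> fin_cases g' <;> simp at hgg hl hd
  · exact absurd hd (hne i i')
  · exact ⟨A₁ i, A₂ i', _, (hA₁ i).1, (hA₂ i').1, hd, by omega, by omega, by omega⟩
  · exact ⟨A₁ i, A₁ i', _, (hA₁ i).1, (hA₁ i').1, hd, by omega, by omega, by omega⟩
  · omega
  · exact ⟨A₂ i, A₂ i', _, (hA₂ i).1, (hA₂ i').1, hd, by omega, by omega, by omega⟩
  · exact ⟨A₂ i, A₁ i', _, (hA₂ i).1, (hA₁ i').1, hd, by omega, by omega, by omega⟩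
  · omega
  · omega
  · refine absurd hd ?_
    have e : x - A₁ i' - (x - A₂ i) = A₂ i - A₁ i' := by omega
    rw [e]
    exact hne i' i
  · omega
  · omega
  · omega

theorem indDif (hN : 2 ∣ N) (hP3 : 3 ∣ P) (hP : ∀ p : ℕ, p.Prime → p ≤ 4 * K → p ∣ P)
    (hG : C4 G N K) (hI : ∀ R, Ind G P K R) :
    ∀ x R : ℕ, ∃ g₁ g₂ g₃, g₁ ∈ G ∧ g₂ ∈ G ∧ g₃ ∈ G ∧ R < g₁ ∧ x + g₃ = g₁ + g₂ := by
  intro x R
  obtain ⟨A₁, A₂, hi₁, hi₂, hA₁, hA₂, hlt, hne⟩ := hI R
  set m₁ := univ.sup A₁ with hm₁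
  have hle₁ : ∀ i, A₁ i ≤ m₁ := fun i => le_sup (mem_univ i)
  set m₂ := univ.sup A₂ with hm₂
  have hle₂ : ∀ i, A₂ i ≤ m₂ := fun i => le_sup (mem_univ i)
  obtain ⟨A₃, A₄, hi₃, hi₄, hA₃, hA₄, hlt', hne'⟩ := hI (m₁ + m₂)
  have hadm : AdmN N ![A₁, A₂, fun i => x + A₃ i, fun i => x + A₄ i] := by
    refine adm hN hP3 hP _ ![0, 0, x, x] ?_ ?_ ?_
    · rintro ⟨g, i⟩ ⟨g', i'⟩ h
      have a1 := hle₁ i
      have a2 := hle₁ i'
      have a3 := hle₂ i
      have a4 := hle₂ i'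
      have b1 := hlt i i'
      have b2 := hlt i' i
      have b3 := (hA₃ i).2.2
      have b4 := (hA₃ i').2.2
      have b5 := hlt' i i'
      have b6 := hlt' i' i
      have c1 : A₁ i = A₁ i' → i = i' := fun h => hi₁ h
      have c2 : A₂ i = A₂ i' → i = i' := fun h => hi₂ h
      have c3 : A₃ i = A₃ i' → i = i' := fun h => hi₃ h
      have c4 : A₄ i = A₄ i' → i = i' := fun h => hi₄ h
      fin_cases g <;> fin_cases g' <;> simp at h ⊢ <;> first
        | exact c1 h | exact c2 h | exact c3 h | exact c4 h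
        | exact c1 (by omega) | exact c2 (by omega) | exact c3 (by omega) | exact c4 (by omega) | omega
    · intro g i
      have d1 : (A₁ i : ℤ) ≡ 0 [ZMOD P] := Int.modEq_zero_iff_dvd.2 (by exact_mod_cast (hA₁ i).2.1)
      have d2 : (A₂ i : ℤ) ≡ 0 [ZMOD P] := Int.modEq_zero_iff_dvd.2 (by exact_mod_cast (hA₂ i).2)
      have d3 : (A₃ i : ℤ) ≡ 0 [ZMOD P] := Int.modEq_zero_iff_dvd.2 (by exact_mod_cast (hA₃ i).2.1)
      have d4 : (A₄ i : ℤ) ≡ 0 [ZMOD P] := Int.modEq_zero_iff_dvd.2 (by exact_mod_cast (hA₄ i).2)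
      fin_cases g
      · exact d1
      · exact d2
      · simp only [Fin.reduceFinMk, Matrix.cons_val]
        rw [Nat.cast_add]
        simpa using (Int.ModEq.refl (x : ℤ)).add d3
      · simp only [Fin.reduceFinMk, Matrix.cons_val]
        rw [Nat.cast_add]
        simpa using (Int.ModEq.refl (x : ℤ)).add d4
    · obtain ⟨n, h1, h2⟩ := two3 0 (x : ℤ)
      refine Or.inr ⟨n, fun g => ?_⟩
      fin_cases g
      · exact h1
      · exact h1
      · exact h2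
      · exact h2
  obtain ⟨g, g', i, i', hgg, hl, hd⟩ := hG _ hadm
  have a1 := hle₁ i
  have a2 := hle₁ i'
  have a3 := hle₂ i
  have a4 := hle₂ i'
  have b1 := hlt i i'
  have b2 := hlt i' i
  have b3 := (hA₃ i).2.2
  have b4 := (hA₃ i').2.2
  have b5 := hlt' i i'
  have b6 := hlt' i' i
  have d1 := (hA₁ i).2.2
  have d2 := hlt i i
  fin_cases g <;> fin_cases g' <;> simp at hgg hl hd
  · exact absurd hd (hne i i')
  · exact ⟨A₁ i, _, A₃ i', (hA₁ i).1, hd, (hA₃ i').1, by omega, by omega⟩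
  · exact ⟨A₁ i, _, A₄ i', (hA₁ i).1, hd, (hA₄ i').1, by omega, by omega⟩
  · omega
  · exact ⟨A₂ i, _, A₃ i', (hA₂ i).1, hd, (hA₃ i').1, by omega, by omega⟩
  · exact ⟨A₂ i, _, A₄ i', (hA₂ i).1, hd, (hA₄ i').1, by omega, by omega⟩
  · omega
  · omega
  · refine absurd hd ?_
    have e : x + A₄ i' - (x + A₃ i) = A₄ i' - A₃ i := by omega
    rw [e]
    exact hne' i i'
  · omega
  · omega
  · omega

/-- bounded gaps -/
theorem syndetic (hN : 2 ∣ N) (hP0 : 0 < P) (hP3 : 3 ∣ P)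
    (hP : ∀ p : ℕ, p.Prime → p ≤ 4 * K → p ∣ P) (hG : C4 G N K) :
    ∃ l : ℕ, ∀ u : ℕ, ∃ k : ℕ, u < k ∧ k ≤ u + l ∧ P * k ∈ G := by
  by_contra hno
  push Not at hno
  choose u hu using hno
  set y : ℕ → ℕ := fun n => Nat.rec 0 (fun _ a => u (a + 2 * K) + a + K) n with hy
  have hy1 : ∀ n, y (n + 1) = u (y n + 2 * K) + y n + K := fun n => rfl
  have hmono : ∀ n m, n < m → y n + K ≤ y m ∧ ∀ d : ℕ, y m < d + y n + K → d < y m - y n + K →
      P * d ∉ G := by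
    intro n m hnm
    obtain ⟨k, rfl⟩ : ∃ k, m = k + 1 := ⟨m - 1, by omega⟩
    have hnk : y n ≤ y k := by
      rcases Nat.lt_or_ge n k with h | h
      · have : ∀ a b, a ≤ b → y a ≤ y b := by
          intro a b hab
          induction b, hab using Nat.le_induction with
          | base => exact le_rfl
          | succ b _ ih => rw [hy1]; omega
        exact this n k h.le
      · have : n = k := by omega
        rw [this]
    have h1 := hy1 k
    refine ⟨by omega, fun d hd1 hd2 => ?_⟩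
    exact hu (y k + 2 * K) d (by omega) (by omega)
  set H : Fin 4 → Fin K → ℕ := fun g i => P * (y g.1 + i.1) with hH
  have hadm : AdmN N H := by
    refine adm hN hP3 hP H (fun _ => 0) ?_ ?_ (Or.inr ⟨1, fun _ => by norm_num⟩)
    · rintro ⟨g, i⟩ ⟨g', i'⟩ h
      simp only [hH] at h
      have h1 := Nat.eq_of_mul_eq_mul_left hP0 h
      have hi := i.2
      have hi' := i'.2
      rcases lt_trichotomy g.1 g'.1 with hg | hg | hg
      · have := (hmono _ _ hg).1; omega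
      · rw [hg] at h1
        have e1 := Fin.ext hg
        have e2 : i = i' := Fin.ext (by omega)
        rw [e1, e2]
      · have := (hmono _ _ hg).1; omega
    · intro g i
      simp only [hH]
      push_cast
      exact Int.modEq_zero_iff_dvd.2 (dvd_mul_right _ _)
  obtain ⟨g, g', i, i', hgg, hl, hd⟩ := hG H hadm
  simp only [hH] at hl hd
  have hl' := Nat.lt_of_mul_lt_mul_left hl
  have hi := i.2
  have hi' := i'.2
  rw [← Nat.mul_sub] at hd
  rcases lt_trichotomy g.1 g'.1 with hg | hg | hg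
  · obtain ⟨h1, h2⟩ := hmono _ _ hg
    exact h2 _ (by omega) (by omega) hd
  · exact hgg (Fin.ext hg)
  · have := (hmono _ _ hg).1; omega

open Classical in
/-- the second case: almost all differences of elements of `A` with a fixed finite set are in `A` -/
theorem star (A : Set ℕ) (K R : ℕ)
    (hNI : ∀ X Y : Fin K → ℕ, Function.Injective X → Function.Injective Y →
      (∀ i, X i ∈ A ∧ R < X i) → (∀ i, Y i ∈ A) → (∀ i j, X i < Y j) → ∃ i j, Y j - X i ∈ A)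
    (Z : Finset ℕ) (hZ : ∀ z ∈ Z, z ∈ A ∧ R < z) :
    ∃ b : ℕ, ∀ g ∈ A, b < g → (∀ z ∈ Z, z < g) ∧ (Z.filter (fun z => g - z ∉ A)).card < K := by
  have hfin : ∀ X ∈ Z.powersetCard K, {g : ℕ | g ∈ A ∧ ∀ z ∈ X, g - z ∉ A}.Finite := by
    intro X hX
    rw [mem_powersetCard] at hX
    by_contra hinf
    have hinf' : {g : ℕ | g ∈ A ∧ ∀ z ∈ X, g - z ∉ A}.Infinite := hinf
    have hinf2 : {g : ℕ | (g ∈ A ∧ ∀ z ∈ X, g - z ∉ A) ∧ X.sup id < g}.Infinite := by
      apply Set.infinite_of_forall_exists_gt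
      intro m
      obtain ⟨g, hg, hgm⟩ := hinf'.exists_gt (max m (X.sup id))
      exact ⟨g, ⟨hg, lt_of_le_of_lt (le_max_right _ _) hgm⟩, lt_of_le_of_lt (le_max_left _ _) hgm⟩
    have hXi : ∀ i, X.orderEmbOfFin hX.2 i ∈ X := fun i => Finset.orderEmbOfFin_mem X hX.2 i
    obtain ⟨i, j, hij⟩ := hNI (fun i => X.orderEmbOfFin hX.2 i)
      (fun i => (hinf2.natEmbedding _ i.1 : ℕ)) (X.orderEmbOfFin hX.2).injective
      (fun i j h => Fin.ext ((hinf2.natEmbedding _).injective (Subtype.ext h)))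
      (fun i => hZ _ (hX.1 (hXi i))) (fun i => (hinf2.natEmbedding _ i.1).2.1.1)
      (fun i j => lt_of_le_of_lt (le_sup (f := id) (hXi i)) (hinf2.natEmbedding _ j.1).2.2)
    exact (hinf2.natEmbedding _ j.1).2.1.2 _ (hXi i) hij
  have hfin2 : (⋃ X ∈ Z.powersetCard K, {g : ℕ | g ∈ A ∧ ∀ z ∈ X, g - z ∉ A}).Finite :=
    Set.Finite.biUnion (Finset.finite_toSet _) hfin
  obtain ⟨b, hb⟩ := hfin2.bddAbove
  refine ⟨max b (Z.sup id), fun g hg hbg => ⟨fun z hz => ?_, ?_⟩⟩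
  · exact lt_of_le_of_lt ((le_sup (f := id) hz).trans (le_max_right _ _)) hbg
  · by_contra hc
    push Not at hc
    obtain ⟨X, hXs, hXc⟩ := Finset.exists_subset_card_eq hc
    have h1 : g ∈ ⋃ X ∈ Z.powersetCard K, {g : ℕ | g ∈ A ∧ ∀ z ∈ X, g - z ∉ A} := by
      simp only [Set.mem_iUnion]
      refine ⟨X, mem_powersetCard.2 ⟨hXs.trans (filter_subset _ _), hXc⟩, hg, fun z hz => ?_⟩
      exact (mem_filter.1 (hXs hz)).2
    have h2 := hb h1
    have h3 := le_max_left b (Z.sup id)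
    omega

/-- the differences which occur infinitely often -/
def Dif (A : Set ℕ) : Set ℕ := {r : ℕ | {a : ℕ | a ∈ A ∧ a + r ∈ A}.Infinite}

open Classical in
theorem twoN (A : Set ℕ) (K R : ℕ)
    (hNI : ∀ X Y : Fin K → ℕ, Function.Injective X → Function.Injective Y →
      (∀ i, X i ∈ A ∧ R < X i) → (∀ i, Y i ∈ A) → (∀ i j, X i < Y j) → ∃ i j, Y j - X i ∈ A)
    (hsyn : ∃ l : ℕ, ∀ u : ℕ, ∃ k : ℕ, u < k ∧ k ≤ u + l ∧ k ∈ A)
    (hfull : ∀ t : ℕ, 0 < t → ∀ n : ℕ, ∃ g ∈ A, n < g ∧ g ≡ 1 [MOD t]) :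
    (∃ B L : ℕ, ∀ k : ℕ, L ≤ k → ∃ i : ℕ, i < k ∧ 0 < i ∧ i ≤ B ∧ i ∈ A ∧ k - i ∈ A) ∧
    ∀ h R' : ℕ, ∃ i : ℕ, R' < i ∧ i ∈ A ∧ i + h ∈ A := by
  obtain ⟨l, hl⟩ := hsyn
  have hstar := star A K R hNI
  -- finite sets of pairs
  have hpairs : ∀ r ∈ Dif A, ∀ n : ℕ, ∃ W : Finset ℕ, W.card = n ∧ ∀ w ∈ W, w ∈ A ∧ w + r ∈ A ∧ R < w := by
    intro r hr n
    have h1 : {a : ℕ | (a ∈ A ∧ a + r ∈ A) ∧ R < a}.Infinite := by
      apply Set.infinite_of_forall_exists_gt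
      intro m
      obtain ⟨g, hg, hgm⟩ := Set.Infinite.exists_gt hr (max m R)
      exact ⟨g, ⟨hg, lt_of_le_of_lt (le_max_right _ _) hgm⟩, lt_of_le_of_lt (le_max_left _ _) hgm⟩
    obtain ⟨W, hW, hWc⟩ := h1.exists_subset_card_eq n
    exact ⟨W, hWc, fun w hw => ⟨(hW hw).1.1, (hW hw).1.2, (hW hw).2⟩⟩
  -- closure
  have hcl : ∀ r ∈ Dif A, ∀ r' ∈ Dif A, r + r' ∈ Dif A ∧ (r' ≤ r → r - r' ∈ Dif A) := by
    intro r hr r' hr'
    obtain ⟨W, hWc, hW⟩ := hpairs r' hr' (4 * K)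
    obtain ⟨b, hb⟩ := hstar (W ∪ W.image (· + r')) (by
      intro z hz
      rw [mem_union, mem_image] at hz
      rcases hz with hz | ⟨w, hw, rfl⟩
      · exact ⟨(hW z hz).1, (hW z hz).2.2⟩
      · exact ⟨(hW w hw).2.1, by have := (hW w hw).2.2; omega⟩)
    have key : ∀ c : ℕ, b < c → c ∈ A → c + r ∈ A → ∃ w ∈ W, w + r' < c ∧ c - w ∈ A ∧
        c - (w + r') ∈ A ∧ c + r - w ∈ A ∧ c + r - (w + r') ∈ A := by
      intro c hbc hc hcr
      obtain ⟨h1, h2⟩ := hb c hc hbc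
      obtain ⟨h3, h4⟩ := hb (c + r) hcr (by omega)
      by_contra hno
      push Not at hno
      have hsub : W ⊆ (W.filter (fun w => c - w ∉ A)) ∪ (W.filter (fun w => c - (w + r') ∉ A)) ∪
          ((W.filter (fun w => c + r - w ∉ A)) ∪ (W.filter (fun w => c + r - (w + r') ∉ A))) := by
        intro w hw
        simp only [mem_union, mem_filter]
        have h5 := h1 (w + r') (mem_union_right _ (mem_image_of_mem _ hw))
        by_cases e1 : c - w ∈ A
        · by_cases e2 : c - (w + r') ∈ A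
          · by_cases e3 : c + r - w ∈ A
            · exact Or.inr (Or.inr ⟨hw, hno w hw h5 e1 e2 e3⟩)
            · exact Or.inr (Or.inl ⟨hw, e3⟩)
          · exact Or.inl (Or.inr ⟨hw, e2⟩)
        · exact Or.inl (Or.inl ⟨hw, e1⟩)
      have c1 : ∀ g : ℕ, (W.filter (fun w => g - w ∉ A)).card ≤
          ((W ∪ W.image (· + r')).filter (fun z => g - z ∉ A)).card := by
        intro g
        refine card_le_card fun w hw => ?_
        rw [mem_filter] at hw ⊢
        exact ⟨mem_union_left _ hw.1, hw.2⟩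
      have c2 : ∀ g : ℕ, (W.filter (fun w => g - (w + r') ∉ A)).card ≤
          ((W ∪ W.image (· + r')).filter (fun z => g - z ∉ A)).card := by
        intro g
        refine card_le_card_of_injOn (fun w => w + r') ?_ (fun a _ b _ h => Nat.add_right_cancel h)
        intro w hw
        rw [mem_coe, mem_filter] at hw
        rw [mem_coe, mem_filter]
        exact ⟨mem_union_right _ (mem_image_of_mem _ hw.1), hw.2⟩
      have h6 := card_le_card hsub
      have h7 := card_union_le ((W.filter (fun w => c - w ∉ A)) ∪ (W.filter (fun w => c - (w + r') ∉ A)))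
        ((W.filter (fun w => c + r - w ∉ A)) ∪ (W.filter (fun w => c + r - (w + r') ∉ A)))
      have h8 := card_union_le (W.filter (fun w => c - w ∉ A)) (W.filter (fun w => c - (w + r') ∉ A))
      have h9 := card_union_le (W.filter (fun w => c + r - w ∉ A))
        (W.filter (fun w => c + r - (w + r') ∉ A))
      have d1 := c1 c
      have d2 := c2 c
      have d3 := c1 (c + r)
      have d4 := c2 (c + r)
      omega
    constructor
    · apply Set.infinite_of_forall_exists_gt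
      intro m
      obtain ⟨c, ⟨hc, hcr⟩, hcm⟩ := Set.Infinite.exists_gt hr (m + b + (W ∪ W.image (· + r')).sup id)
      obtain ⟨w, hw, hwc, -, h2, h3, -⟩ := key c (by omega) hc hcr
      have h5 : w + r' ≤ (W ∪ W.image (· + r')).sup id :=
        le_sup (f := id) (mem_union_right _ (mem_image_of_mem _ hw))
      refine ⟨c - (w + r'), ⟨h2, ?_⟩, by omega⟩
      rw [show c - (w + r') + (r + r') = c + r - w by omega]
      exact h3
    · intro hle
      apply Set.infinite_of_forall_exists_gt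
      intro m
      obtain ⟨c, ⟨hc, hcr⟩, hcm⟩ := Set.Infinite.exists_gt hr (m + b + (W ∪ W.image (· + r')).sup id)
      obtain ⟨w, hw, hwc, h1, -, -, h4⟩ := key c (by omega) hc hcr
      have h5 : w + r' ≤ (W ∪ W.image (· + r')).sup id :=
        le_sup (f := id) (mem_union_right _ (mem_image_of_mem _ hw))
      refine ⟨c - w, ⟨h1, ?_⟩, by omega⟩
      rw [show c - w + (r - r') = c + r - (w + r') by omega]
      exact h4
  -- a positive difference
  have hpos : ∃ r ∈ Dif A, 0 < r := by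
    by_contra hno
    push Not at hno
    have hf : ∀ s ∈ Icc 1 l, {a : ℕ | a ∈ A ∧ a + s ∈ A}.Finite := by
      intro s hs
      by_contra h
      have := hno s h
      rw [mem_Icc] at hs
      omega
    have hf2 : (⋃ s ∈ Icc 1 l, {a : ℕ | a ∈ A ∧ a + s ∈ A}).Finite :=
      Set.Finite.biUnion (Finset.finite_toSet _) hf
    obtain ⟨b, hb⟩ := hf2.bddAbove
    obtain ⟨a, ha1, ha2, ha3⟩ := hl b
    obtain ⟨a', hb1, hb2, hb3⟩ := hl a
    have h1 : a ∈ ⋃ s ∈ Icc 1 l, {a : ℕ | a ∈ A ∧ a + s ∈ A} := by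
      simp only [Set.mem_iUnion]
      refine ⟨a' - a, mem_Icc.2 ⟨by omega, by omega⟩, ha3, ?_⟩
      rw [show a + (a' - a) = a' by omega]
      exact hb3
    have := hb h1
    omega
  -- the smallest positive difference divides all
  obtain ⟨t, ⟨htD, ht0⟩, htmin⟩ : ∃ t, (t ∈ Dif A ∧ 0 < t) ∧ ∀ r, r ∈ Dif A → 0 < r → t ≤ r := by
    have hex : ∃ r, r ∈ Dif A ∧ 0 < r := hpos
    exact ⟨Nat.find hex, Nat.find_spec hex, fun r h1 h2 => Nat.find_min' hex ⟨h1, h2⟩⟩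
  have h0 : 0 ∈ Dif A := by
    have := (hcl t htD t htD).2 le_rfl
    rwa [Nat.sub_self] at this
  have hmulD : ∀ q : ℕ, t * q ∈ Dif A := by
    intro q
    induction q with
    | zero => simpa using h0
    | succ q ih => rw [Nat.mul_succ]; exact (hcl _ ih _ htD).1
  have hdvd : ∀ r ∈ Dif A, t ∣ r := by
    intro r hr
    have h1 := (hcl r hr _ (hmulD (r / t))).2 (Nat.mul_div_le r t)
    have h2 : r - t * (r / t) = r % t := by
      have := Nat.div_add_mod r t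
      omega
    rw [h2] at h1
    rcases Nat.eq_zero_or_pos (r % t) with h3 | h3
    · exact Nat.dvd_of_mod_eq_zero h3
    · have := htmin _ h1 h3
      have := Nat.mod_lt r ht0
      omega
  -- it is one
  have ht1 : t = 1 := by
    have hB : {g : ℕ | (g ∈ A ∧ g ≡ 1 [MOD t]) ∧ R < g}.Infinite := by
      apply Set.infinite_of_forall_exists_gt
      intro m
      obtain ⟨g, hg, hgm, hg1⟩ := hfull t ht0 (max m R)
      exact ⟨g, ⟨⟨hg, hg1⟩, lt_of_le_of_lt (le_max_right _ _) hgm⟩,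
        lt_of_le_of_lt (le_max_left _ _) hgm⟩
    obtain ⟨Z, hZ, hZc⟩ := hB.exists_subset_card_eq K
    obtain ⟨b, hb⟩ := hstar Z (fun z hz => ⟨(hZ hz).1.1, (hZ hz).2⟩)
    have hex : ∃ z ∈ Z, z ∈ Dif A := by
      by_contra hno
      push Not at hno
      have hf : ∀ z ∈ Z, {a : ℕ | a ∈ A ∧ a + z ∈ A}.Finite := by
        intro z hz
        by_contra h
        exact hno z hz h
      have hf2 : (⋃ z ∈ Z, {a : ℕ | a ∈ A ∧ a + z ∈ A}).Finite :=
        Set.Finite.biUnion (Finset.finite_toSet _) hf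
      obtain ⟨b', hb'⟩ := hf2.bddAbove
      obtain ⟨g, hg, hgm, -⟩ := hfull t ht0 (b + b' + Z.sup id)
      obtain ⟨h1, h2⟩ := hb g hg (by omega)
      obtain ⟨z, hz, hzA⟩ : ∃ z ∈ Z, g - z ∈ A := by
        by_contra hno2
        push Not at hno2
        rw [filter_true_of_mem hno2, hZc] at h2
        omega
      have h3 : z ≤ Z.sup id := le_sup (f := id) hz
      have h4 : g - z ∈ ⋃ z ∈ Z, {a : ℕ | a ∈ A ∧ a + z ∈ A} := by
        simp only [Set.mem_iUnion]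
        refine ⟨z, hz, hzA, ?_⟩
        rw [show g - z + z = g by omega]
        exact hg
      have := hb' h4
      omega
    obtain ⟨z, hz, hzD⟩ := hex
    have h1 := hdvd z hzD
    have h2 := (hZ hz).1.2
    have h3 : t ∣ 1 := (Nat.ModEq.dvd_iff h2 dvd_rfl).1 h1
    exact Nat.dvd_one.1 h3
  have hall : ∀ r : ℕ, r ∈ Dif A := by
    intro r
    have := hmulD r
    rwa [ht1, one_mul] at this
  constructor
  · have hZ : ∀ r : ℕ, ∃ b c : ℕ, ∀ g ∈ A, b < g → ∃ z, R < z ∧ z < g ∧ z ≤ c ∧ z + r ∈ A ∧ g - z ∈ A := by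
      intro r
      obtain ⟨W, hWc, hW⟩ := hpairs r (hall r) K
      obtain ⟨b, hb⟩ := hstar W (fun z hz => ⟨(hW z hz).1, (hW z hz).2.2⟩)
      refine ⟨b, W.sup id, fun g hg hbg => ?_⟩
      obtain ⟨h1, h2⟩ := hb g hg hbg
      obtain ⟨z, hz, hzA⟩ : ∃ z ∈ W, g - z ∈ A := by
        by_contra hno2
        push Not at hno2
        rw [filter_true_of_mem hno2, hWc] at h2
        omega
      exact ⟨z, (hW z hz).2.2, h1 z hz, le_sup (f := id) hz, (hW z hz).2.1, hzA⟩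
    choose bs cs hbs using hZ
    refine ⟨(range (l + 1)).sup cs + l, (range (l + 1)).sup bs + l + 2, fun k hk => ?_⟩
    obtain ⟨g, hg1, hg2, hg3⟩ := hl (k - 1 - l)
    have hr : k - g < l + 1 := by omega
    have h1 : bs (k - g) ≤ (range (l + 1)).sup bs := le_sup (mem_range.2 hr)
    have h2 : cs (k - g) ≤ (range (l + 1)).sup cs := le_sup (mem_range.2 hr)
    obtain ⟨z, hz1, hz2, hz5, hz3, hz4⟩ := hbs (k - g) g hg3 (by omega)
    refine ⟨z + (k - g), by omega, by omega, by omega, hz3, ?_⟩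
    rw [show k - (z + (k - g)) = g - z by omega]
    exact hz4
  · intro h R'
    obtain ⟨i, ⟨hi1, hi2⟩, hi3⟩ := Set.Infinite.exists_gt (hall h) R'
    exact ⟨i, hi3, hi1, hi2⟩

/-- second case: all classes divisible by `6` -/
theorem directb (hP0 : 0 < P)
    (h2 : (∃ B L : ℕ, ∀ k : ℕ, L ≤ k → ∃ i : ℕ, i < k ∧ 0 < i ∧ i ≤ B ∧ P * i ∈ G ∧ P * (k - i) ∈ G) ∧
      ∀ h : ℕ, ∀ R : ℕ, ∃ i : ℕ, R < i ∧ P * i ∈ G ∧ P * (i + h) ∈ G)
    (h6 : ∀ t : ℤ, Inf G P (6 * t)) (hP6 : 6 ∣ P) : Concl G := by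
  have hch : ∀ r R : ℕ, ∃ g : ℕ, 6 ∣ r → g ∈ G ∧ R < g ∧ g % P = r % P := by
    intro r R
    by_cases hr : 6 ∣ r
    · obtain ⟨t, rfl⟩ := hr
      obtain ⟨g, hg, hR, hm⟩ := h6 (t : ℤ) R
      refine ⟨g, fun _ => ⟨hg, hR, ?_⟩⟩
      have h1 : (g : ℤ) ≡ ((6 * t : ℕ) : ℤ) [ZMOD P] := by push_cast; exact hm
      exact (Int.natCast_modEq_iff.1 h1)
    · exact ⟨0, fun h => absurd h hr⟩
  constructor
  · choose gs hgs using fun r => hch r 0
    obtain ⟨B, L, hL⟩ := h2.1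
    refine ⟨(range P).sup gs + P * B, (range P).sup gs + P * L + 1, fun x hx h6x => ?_⟩
    have hr6 : 6 ∣ x % P := (Nat.dvd_mod_iff hP6).2 h6x
    obtain ⟨h1, -, h3⟩ := hgs (x % P) hr6
    have h4 : gs (x % P) ≤ (range P).sup gs := le_sup (mem_range.2 (Nat.mod_lt x hP0))
    have h5 : P ∣ x - gs (x % P) := by
      rw [← Nat.modEq_iff_dvd' (by omega)]
      rw [Nat.ModEq, h3, Nat.mod_mod]
    obtain ⟨k, hk⟩ := h5
    have hLk : L ≤ k := by
      have h6 : P * L ≤ P * k := by omega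
      exact Nat.le_of_mul_le_mul_left h6 hP0
    obtain ⟨i, hik, -, hiB, hg1, hg2⟩ := hL k hLk
    have h8 : P * i ≤ P * B := Nat.mul_le_mul_left _ hiB
    refine ⟨_, _, _, h1, hg1, hg2, by omega, by omega, ?_⟩
    have h7 : P * i + P * (k - i) = P * k := by
      rw [← Nat.mul_add]
      congr 1
      omega
    omega
  · intro x h6x R
    obtain ⟨g, hg⟩ := hch x R
    obtain ⟨h1, hR, h3⟩ := hg h6x
    rcases le_total g x with hle | hle
    · have h5 : P ∣ x - g := by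
        rw [← Nat.modEq_iff_dvd' hle]
        exact h3
      obtain ⟨k, hk⟩ := h5
      obtain ⟨i, -, hg1, hg2⟩ := h2.2 k 0
      refine ⟨g, P * (i + k), P * i, h1, hg2, hg1, hR, ?_⟩
      rw [Nat.mul_add]
      omega
    · have h5 : P ∣ g - x := by
        rw [← Nat.modEq_iff_dvd' hle]
        exact h3.symm
      obtain ⟨k, hk⟩ := h5
      obtain ⟨i, -, hg1, hg2⟩ := h2.2 k 0
      refine ⟨g, P * i, P * (i + k), h1, hg1, hg2, hR, ?_⟩
      rw [Nat.mul_add]
      omega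

/-- the structure of the residues modulo `P` -/
theorem dich (hN : 2 ∣ N) (hP0 : 0 < P) (hP18 : 18 ∣ P) (hP : ∀ p : ℕ, p.Prime → p ≤ 4 * K → p ∣ P)
    (hG : C4 G N K) (h0 : Inf G P 0) : Concl G ∨ ∀ t : ℤ, Inf G P (6 * t) := by
  have hP3 : 3 ∣ P := dvd_trans (by norm_num) hP18
  have hE : ∀ α β : ℤ, Inf G P α → Inf G P β → ¬ Inf G P (β - α) →
      (3 ∣ N ∨ (3 : ℤ) ∣ β - α ∨ (3 : ℤ) ∣ α + β ∧ ¬ (3 : ℤ) ∣ α) → Concl G := by
    intro α β hα hβ hαβ h3
    constructor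
    · obtain ⟨B, L, hL⟩ := sumEb hN hP0 hP3 hP hG α β hα hβ hαβ
      refine ⟨B, L, fun x hx h6 => hL x hx ?_⟩
      rcases h3 with h | h | ⟨h, h'⟩
      · exact Or.inl h
      · obtain ⟨n, hn1, hn2⟩ := two3 α (x - α)
        exact Or.inr ⟨n, hn1, by omega, by omega, hn2⟩
      · exact Or.inr ⟨0, by omega, by omega, by omega, by omega⟩
    · intro x h6 R
      refine difE hN hP0 hP3 hP hG α β hα hβ hαβ x ?_ R
      rcases h3 with h | h | ⟨h, h'⟩
      · exact Or.inl h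
      · obtain ⟨n, hn1, hn2⟩ := two3 α (x + α)
        exact Or.inr ⟨n, hn1, by omega, hn2, by omega⟩
      · exact Or.inr ⟨0, by omega, by omega, by omega, by omega⟩
  by_contra hno'
  obtain ⟨hno, hno2⟩ := not_or.1 hno'
  have hW : ∀ α β : ℤ, Inf G P α → Inf G P β →
      (3 ∣ N ∨ (3 : ℤ) ∣ β - α ∨ (3 : ℤ) ∣ α + β ∧ ¬ (3 : ℤ) ∣ α) → Inf G P (β - α) := by
    intro α β hα hβ h3
    by_contra h
    exact hno (hE α β hα hβ h h3)
  by_cases h3N : 3 ∣ N
  · -- a subgroup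
    set S : AddSubgroup ℤ := AddSubgroup.ofSub {s : ℤ | Inf G P s} ⟨0, h0⟩
      (fun x hx y hy => by
        have := hW y x hy hx (Or.inl h3N)
        rwa [sub_eq_add_neg] at this) with hS
    have hmem : ∀ s : ℤ, s ∈ S ↔ Inf G P s := fun s => Iff.rfl
    obtain ⟨i, j, hij, hI⟩ := four hN hP0 hP3 hP hG ![0, 1, 2, 3] (Or.inl h3N)
    have h6 : (6 : ℤ) ∈ S := by
      rw [← hmem] at hI
      fin_cases i <;> fin_cases j <;> simp at hij hI <;> first
        | exact (by simpa using S.zsmul_mem hI 6)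
        | exact (by simpa using S.zsmul_mem hI 3)
        | exact (by simpa using S.zsmul_mem hI 2)
    refine hno2 (fun t => ?_)
    rw [← hmem, mul_comm]
    have := S.zsmul_mem h6 t
    simpa using this
  · -- the part divisible by `3`
    set S : AddSubgroup ℤ := AddSubgroup.ofSub {s : ℤ | (3 : ℤ) ∣ s ∧ Inf G P s} ⟨0, dvd_zero _, h0⟩
      (fun x hx y hy => by
        have := hW y x hy.2 hx.2 (Or.inr (Or.inl (dvd_sub hx.1 hy.1)))
        rw [sub_eq_add_neg] at this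
        refine ⟨?_, this⟩
        have h1 := dvd_sub hx.1 hy.1
        rwa [sub_eq_add_neg] at h1) with hS
    have hmem : ∀ s : ℤ, s ∈ S ↔ ((3 : ℤ) ∣ s ∧ Inf G P s) := fun s => Iff.rfl
    have h6not : (6 : ℤ) ∉ S := by
      intro h6
      refine hno2 (fun t => ?_)
      have := S.zsmul_mem h6 t
      rw [smul_eq_mul, hmem] at this
      rw [mul_comm]
      exact this.2
    have h3not : (3 : ℤ) ∉ S := by
      intro h3
      have := S.zsmul_mem h3 2
      exact h6not (by simpa using this)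
    have h9 : (9 : ℤ) ∈ S := by
      obtain ⟨i, j, hij, hI⟩ := four hN hP0 hP3 hP hG ![0, 3, 6, 9]
        (Or.inr ⟨1, fun g => by fin_cases g <;> simp⟩)
      have k3 : ¬ Inf G P 3 := fun h => h3not ((hmem 3).2 ⟨by decide, h⟩)
      have k6 : ¬ Inf G P 6 := fun h => h6not ((hmem 6).2 ⟨by decide, h⟩)
      fin_cases i <;> fin_cases j <;> simp at hij hI <;> first
        | exact absurd hI k3
        | exact absurd hI k6
        | exact (hmem 9).2 ⟨by decide, hI⟩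
    have hS9 : ∀ s : ℤ, (3 : ℤ) ∣ s → Inf G P s → (9 : ℤ) ∣ s := by
      intro s h3 hI
      have hs : s ∈ S := (hmem s).2 ⟨h3, hI⟩
      have hq := S.sub_mem hs (S.zsmul_mem h9 (s / 9))
      rw [smul_eq_mul] at hq
      have h1 : s % 9 = 0 ∨ s % 9 = 3 ∨ s % 9 = 6 := by omega
      rcases h1 with h1 | h1 | h1
      · omega
      · exfalso
        rw [show s - s / 9 * 9 = 3 by omega] at hq
        exact h3not hq
      · exfalso
        rw [show s - s / 9 * 9 = 6 by omega] at hq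
        exact h6not hq
    have k3 : ¬ Inf G P 3 := fun h => h3not ((hmem 3).2 ⟨by decide, h⟩)
    have k6 : ¬ Inf G P 6 := fun h => h6not ((hmem 6).2 ⟨by decide, h⟩)
    obtain ⟨α, hα3, hα⟩ : ∃ α : ℤ, α % 3 = 1 ∧ Inf G P α := by
      obtain ⟨i, j, hij, hI⟩ := four hN hP0 hP3 hP hG ![0, 3, 6, 1]
        (Or.inr ⟨1, fun g => by fin_cases g <;> simp⟩)
      fin_cases i <;> fin_cases j <;> simp at hij hI <;> first
        | exact absurd hI k3
        | exact absurd hI k6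
        | exact ⟨_, by norm_num, hI⟩
    obtain ⟨β, hβ3, hβ⟩ : ∃ β : ℤ, β % 3 = 2 ∧ Inf G P β := by
      obtain ⟨i, j, hij, hI⟩ := four hN hP0 hP3 hP hG ![1, 0, 3, 6]
        (Or.inr ⟨1, fun g => by fin_cases g <;> simp⟩)
      fin_cases i <;> fin_cases j <;> simp at hij hI <;> first
        | exact absurd hI k3
        | exact absurd hI k6
        | exact ⟨_, by norm_num, hI⟩
    have e1 := hW α β hα hβ (Or.inr (Or.inr ⟨by omega, by omega⟩))
    have e2 := hW β α hβ hα (Or.inr (Or.inr ⟨by omega, by omega⟩))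
    have f1 := hS9 _ (by omega) (hW α (β - α) hα e1 (Or.inr (Or.inl (by omega))))
    have f2 := hS9 _ (by omega) (hW β (α - β) hβ e2 (Or.inr (Or.inl (by omega))))
    omega

/-- **the theorem**: every large multiple of `6` is a sum of three elements, every multiple of `6` is
`g₁ + g₂ - g₃` -/
theorem all (hN : 2 ∣ N) (hG : C4 G N K) : Concl G := by
  have hK := posK hG
  -- the moduli
  have hmod : ∀ s : ℕ, 0 < s → 0 < 18 * (4 * K).factorial * s ∧ 18 ∣ 18 * (4 * K).factorial * s ∧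
      ∀ p : ℕ, p.Prime → p ≤ 4 * K → p ∣ 18 * (4 * K).factorial * s := by
    intro s hs
    refine ⟨by positivity, (dvd_mul_right _ _).mul_right _, fun p hp hpK => ?_⟩
    exact ((Nat.dvd_factorial hp.pos hpK).mul_left _).mul_right _
  have h3 : ∀ {P : ℕ}, 18 ∣ P → 3 ∣ P := fun h => dvd_trans (by norm_num) h
  by_contra hno
  have hInf : ∀ s : ℕ, 0 < s → ∀ t : ℤ, Inf G (18 * (4 * K).factorial * s) (6 * t) := by
    intro s hs
    obtain ⟨h0, h18, hp⟩ := hmod s hs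
    obtain ⟨l, hl⟩ := syndetic hN h0 (h3 h18) hp hG
    rcases dich hN h0 h18 hp hG (fun n => by
      obtain ⟨k, hk1, -, hk2⟩ := hl n
      refine ⟨_, hk2, lt_of_lt_of_le hk1 (Nat.le_mul_of_pos_left _ h0), ?_⟩
      exact Int.modEq_zero_iff_dvd.2 (Int.natCast_dvd_natCast.2 (dvd_mul_right _ _))) with h | h
    · exact absurd h hno
    · exact h
  set P : ℕ := 18 * (4 * K).factorial with hPdef
  obtain ⟨hP0, hP18, hP⟩ := hmod 1 one_pos
  rw [mul_one] at hP0 hP18 hP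
  have hP6 : 6 ∣ P := dvd_trans (by norm_num) hP18
  by_cases hI : ∀ R, Ind G P K R
  · refine hno ⟨?_, fun x _ R => indDif hN (h3 hP18) hP hG hI x R⟩
    obtain ⟨B, L, hL⟩ := indSum hN (h3 hP18) hP hG (hI 0)
    exact ⟨B, L, fun x hx _ => hL x hx⟩
  · push Not at hI
    obtain ⟨R, hR⟩ := hI
    have hNI : ∀ X Y : Fin K → ℕ, Function.Injective X → Function.Injective Y →
        (∀ i, X i ∈ {k : ℕ | P * k ∈ G} ∧ R < X i) → (∀ i, Y i ∈ {k : ℕ | P * k ∈ G}) →
        (∀ i j, X i < Y j) → ∃ i j, Y j - X i ∈ {k : ℕ | P * k ∈ G} := by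
      intro X Y hX hY hXA hYA hlt
      by_contra hno2
      push Not at hno2
      refine hR ⟨fun i => P * X i, fun j => P * Y j, fun i j h => hX (Nat.eq_of_mul_eq_mul_left hP0 h),
        fun i j h => hY (Nat.eq_of_mul_eq_mul_left hP0 h), fun i => ⟨(hXA i).1, dvd_mul_right _ _, ?_⟩,
        fun j => ⟨hYA j, dvd_mul_right _ _⟩, fun i j => Nat.mul_lt_mul_of_pos_left (hlt i j) hP0, fun i j h => ?_⟩
      · exact lt_of_lt_of_le (hXA i).2 (Nat.le_mul_of_pos_left _ hP0)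
      · rw [← Nat.mul_sub] at h
        exact hno2 i j h
    obtain ⟨l, hl⟩ := syndetic hN hP0 (h3 hP18) hP hG
    obtain ⟨h1, h2⟩ := twoN {k : ℕ | P * k ∈ G} K R hNI ⟨l, hl⟩ (by
      intro t ht n
      obtain ⟨q, hq⟩ := hP6
      obtain ⟨g, hg, hn, hm⟩ := hInf t ht (q : ℤ) (P * n)
      have hm' : (g : ℤ) ≡ ((P * 1 : ℕ) : ℤ) [ZMOD ((P * t : ℕ) : ℤ)] := by
        rw [mul_one]
        have e : ((P : ℕ) : ℤ) = 6 * (q : ℤ) := by rw [hq]; push_cast; ring
        rw [e]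
        exact hm
      have hm2 : g ≡ P * 1 [MOD P * t] := Int.natCast_modEq_iff.1 hm'
      have hPg : P ∣ g := ((Nat.ModEq.of_mul_right t hm2).dvd_iff dvd_rfl).2 (dvd_mul_right _ _)
      obtain ⟨k, rfl⟩ := hPg
      exact ⟨k, hg, Nat.lt_of_mul_lt_mul_left hn, Nat.ModEq.mul_left_cancel' hP0.ne' hm2⟩)
    refine hno (directb hP0 ⟨h1, fun h R' => h2 h R'⟩ (fun t => ?_) hP6)
    have := hInf 1 one_pos t
    rwa [mul_one] at this

end

end Pool.Agent.U455.TH
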