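import Mathlib
import Pool.Agent.U455.TJ

/-!
# The three-term theorem at every scale

A family of sets `G x` such that any four admissible classes of shifts contain, for all large `x`, two shifts of
different classes whose difference is in `G x`: then every multiple of `6` is `g₁ + g₂ - g₃` with bounded elements of
`G x`, for all large `x` (limits along ultrafilters).
-/

set_option autoImplicit false

namespace Pool.Agent.U455.EVS

open Filter Pool.Agent.H947R3.GM Pool.Agent.U455.TG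

section
variable {α : Type*} {l : Filter α} {G : α → Set ℕ} {N K : ℕ}

/-- four classes, eventually -/
def EvC4 (l : Filter α) (G : α → Set ℕ) (N K : ℕ) : Prop := ∀ H : Fin 4 → Fin K → ℕ, AdmN N H →
  ∀ᶠ x in l, ∃ g g' i i', g ≠ g' ∧ H g i < H g' i' ∧ H g' i' - H g i ∈ G x

/-- the limit along an ultrafilter -/
def lim (U : Ultrafilter α) (G : α → Set ℕ) : Set ℕ := {k | ∀ᶠ x in (U : Filter α), k ∈ G x}

theorem c4_lim (h : EvC4 l G N K) (U : Ultrafilter α) (hU : (U : Filter α) ≤ l) : C4 (lim U G) N K := by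
  intro H hH
  have h1 := (h H hH).filter_mono hU
  obtain ⟨g, h1⟩ := Ultrafilter.eventually_exists_iff.1 h1
  obtain ⟨g', h1⟩ := Ultrafilter.eventually_exists_iff.1 h1
  obtain ⟨i, h1⟩ := Ultrafilter.eventually_exists_iff.1 h1
  obtain ⟨i', h1⟩ := Ultrafilter.eventually_exists_iff.1 h1
  obtain ⟨x, hx⟩ := h1.exists
  exact ⟨g, g', i, i', hx.1, hx.2.1, h1.mono fun y hy => hy.2.2⟩

/-- compactness -/
theorem compact (P : ℕ → α → Prop) (hP : ∀ B x, P B x → P (B + 1) x)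
    (h : ∀ U : Ultrafilter α, (U : Filter α) ≤ l → ∃ B, ∀ᶠ x in (U : Filter α), P B x) :
    ∃ B, ∀ᶠ x in l, P B x := by
  by_contra hcon
  push Not at hcon
  have hmono : ∀ B C, B ≤ C → ∀ x, P B x → P C x := by
    intro B C hBC x hx
    induction C, hBC using Nat.le_induction with
    | base => exact hx
    | succ n _ ih => exact hP n x ih
  have hne : ∀ B, NeBot (l ⊓ 𝓟 {x | ¬ P B x}) := fun B => frequently_iff_neBot.1 (by
    have := hcon B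
    simpa using this)
  have hd : Directed (· ≥ ·) (fun B => l ⊓ 𝓟 {x | ¬ P B x}) := by
    intro B C
    refine ⟨max B C, ?_, ?_⟩
    · refine inf_le_inf_left _ (principal_mono.2 fun x hx hx' => hx (hmono _ _ (le_max_left _ _) x hx'))
    · refine inf_le_inf_left _ (principal_mono.2 fun x hx hx' => hx (hmono _ _ (le_max_right _ _) x hx'))
  have hα : Nonempty α := (hne 0).nonempty
  have hN : NeBot (⨅ B, l ⊓ 𝓟 {x | ¬ P B x}) := iInf_neBot_of_directed hd hne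
  obtain ⟨B, hB⟩ := h (Ultrafilter.of (⨅ B, l ⊓ 𝓟 {x | ¬ P B x})) ((Ultrafilter.of_le _).trans
    ((iInf_le _ 0).trans inf_le_left))
  have h1 : ∀ᶠ x in (Ultrafilter.of (⨅ B, l ⊓ 𝓟 {x | ¬ P B x}) : Filter α), ¬ P B x :=
    ((Ultrafilter.of_le _).trans ((iInf_le _ B).trans inf_le_right)) (mem_principal_self _)
  obtain ⟨x, hx, hx'⟩ := (hB.and h1).exists
  exact hx' hx

/-- **every multiple of `6` is `g₁ + g₂ - g₃`, for all large `x`** -/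
theorem diff (hN : 2 ∣ N) (h : EvC4 l G N K) (t : ℕ) (ht : 6 ∣ t) (R : ℕ) :
    ∃ B : ℕ, ∀ᶠ x in l, ∃ g₁ g₂ g₃, g₁ ∈ G x ∧ g₂ ∈ G x ∧ g₃ ∈ G x ∧ (R < g₁ ∧ g₁ ≤ B) ∧
      (R < g₂ ∧ g₂ ≤ B) ∧ (R < g₃ ∧ g₃ ≤ B) ∧ t + g₃ = g₁ + g₂ := by
  refine compact _ ?_ fun U hU => ?_
  · rintro B x ⟨g₁, g₂, g₃, h1, h2, h3, h4, h5, h6, h7⟩
    exact ⟨g₁, g₂, g₃, h1, h2, h3, ⟨h4.1, by omega⟩, ⟨h5.1, by omega⟩, ⟨h6.1, by omega⟩, h7⟩
  · obtain ⟨-, h2⟩ := Pool.Agent.U455.TJ.all hN (c4_lim h U hU)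
    obtain ⟨g₁, g₂, g₃, k1, k2, k3, k4, k5, k6, k7⟩ := h2 t ht R
    refine ⟨g₁ + g₂ + g₃, ?_⟩
    have k1' : ∀ᶠ x in (U : Filter α), g₁ ∈ G x := k1
    have k2' : ∀ᶠ x in (U : Filter α), g₂ ∈ G x := k2
    have k3' : ∀ᶠ x in (U : Filter α), g₃ ∈ G x := k3
    filter_upwards [k1', k2', k3'] with x m1 m2 m3
    exact ⟨g₁, g₂, g₃, m1, m2, m3, ⟨k4, by omega⟩, ⟨k5, by omega⟩, ⟨k6, by omega⟩, k7⟩

/-- sums of three elements: all multiples of `6` in a long interval which begins at a bounded place -/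
theorem sums (hN : 2 ∣ N) (h : EvC4 l G N K) (M R : ℕ) :
    ∃ T : ℕ, ∀ᶠ x in l, ∃ L ≤ T, ∀ t : ℕ, L ≤ t → t ≤ L + M → 6 ∣ t → ∃ g₁ g₂ g₃, g₁ ∈ G x ∧ g₂ ∈ G x ∧
      g₃ ∈ G x ∧ R < g₁ ∧ R < g₂ ∧ R < g₃ ∧ t = g₁ + g₂ + g₃ := by
  refine compact _ ?_ fun U hU => ?_
  · rintro B x ⟨L, hL, h1⟩
    exact ⟨L, by omega, h1⟩
  · obtain ⟨h1, -⟩ := Pool.Agent.U455.TJ.all hN (c4_lim h U hU)
    obtain ⟨B, L, h2⟩ := h1 R
    have h3 : ∀ᶠ x in (U : Filter α), ∀ t ∈ Finset.Icc L (L + M), 6 ∣ t → ∃ g₁ g₂ g₃, g₁ ∈ G x ∧ g₂ ∈ G x ∧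
        g₃ ∈ G x ∧ R < g₁ ∧ R < g₂ ∧ R < g₃ ∧ t = g₁ + g₂ + g₃ := by
      rw [eventually_all_finset]
      intro t ht
      rw [Finset.mem_Icc] at ht
      by_cases h6 : 6 ∣ t
      · obtain ⟨g₁, g₂, g₃, k1, k2, k3, k4, k5, k6, k7⟩ := h2 t ht.1 h6
        have k1' : ∀ᶠ x in (U : Filter α), g₁ ∈ G x := k1
        have k2' : ∀ᶠ x in (U : Filter α), g₂ ∈ G x := k2
        have k3' : ∀ᶠ x in (U : Filter α), g₃ ∈ G x := k3
        filter_upwards [k1', k2', k3'] with x m1 m2 m3 _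
        exact ⟨g₁, g₂, g₃, m1, m2, m3, k4.1, k5.1, k6, k7⟩
      · exact Eventually.of_forall fun x h => absurd h h6
    refine ⟨L, ?_⟩
    filter_upwards [h3] with x hx
    exact ⟨L, le_rfl, fun t ht1 ht2 h6 => hx t (Finset.mem_Icc.2 ⟨ht1, ht2⟩) h6⟩

end

end Pool.Agent.U455.EVS
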