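import Mathlib
import Pool.Agent.N646.TT.Nar
import Pool.Agent.U455.EVS
import Pool.Agent.U455.BT

/-!
# Density and bounded sums, at every scale, from four classes
-/

set_option autoImplicit false

namespace Pool.Agent.U455.UNI

open Finset Filter Pool.Agent.H947R3.GM Pool.Agent.U455.EVS

section
variable {α : Type*} {l : Filter α} {G : α → Set ℕ} {N K : ℕ}

/-- multiples -/
theorem mult (h : EvC4 l G N K) (d : ℕ) (hd : 1 ≤ d) : EvC4 l (fun x => {k | d * k ∈ G x}) N K := by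
  intro H hH
  obtain ⟨hinj, hadm⟩ := hH
  have h1 := h (fun g i => d * H g i) ⟨?_, ?_⟩
  · refine h1.mono fun x hx => ?_
    obtain ⟨g, g', i, i', h2, h3, h4⟩ := hx
    refine ⟨g, g', i, i', h2, lt_of_mul_lt_mul_left h3 (Nat.zero_le _), ?_⟩
    show d * (H g' i' - H g i) ∈ G x
    rw [Nat.mul_sub]
    exact h4
  · intro y y' hy
    exact hinj (Nat.eq_of_mul_eq_mul_left hd hy)
  · intro p hp hpN
    by_cases hpd : p ∣ d
    · refine ⟨1, fun g i h2 => ?_⟩
      have h3 : (p : ℤ) ∣ ((d * H g i : ℕ) : ℤ) := by exact_mod_cast hpd.mul_right _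
      have h4 := (dvd_add_left h3).1 h2
      have h5 : p ∣ 1 := by exact_mod_cast h4
      exact hp.one_lt.ne' (Nat.dvd_one.1 h5)
    · obtain ⟨n, hn⟩ := hadm p hp hpN
      refine ⟨d * n, fun g i h2 => hn g i ?_⟩
      have e : (d : ℤ) * n + ((d * H g i : ℕ) : ℤ) = (d : ℤ) * (n + H g i) := by push_cast; ring
      rw [e] at h2
      rcases (Nat.prime_iff_prime_int.1 hp).dvd_or_dvd h2 with h3 | h3
      · exact absurd (by exact_mod_cast h3) hpd
      · exact h3

open Classical in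
/-- the density, uniformly -/
theorem dens (K : ℕ) (hK : 1 ≤ K) (ε : ℝ) (hε : 0 < ε) : ∃ L : ℕ, ∀ {α : Type} (l : Filter α) (G : α → Set ℕ)
    (N : ℕ), 2 ∣ N → EvC4 l G N K → ∀ H : ℕ, L ≤ H → ∀ᶠ x in l,
      (1 / 3 - ε) * (H : ℝ) ≤ (((Icc 1 H).filter (fun k : ℕ => k ∈ G x)).card : ℝ) := by
  obtain ⟨L, hL⟩ := Pool.Agent.N646.TT.config ε hε K hK
  refine ⟨L, fun l G N hN hG H hH => ?_⟩
  -- a configuration for every bad set
  have hch : ∀ B : Finset ℕ, ∃ A : Fin 4 → Fin K → ℕ, (B ⊆ Icc 1 H → (2 / 3 + ε) * (H : ℝ) ≤ B.card →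
      AdmN N A ∧ ∀ g g', g < g' → ∀ i j, A g i < A g' j ∧ A g' j - A g i ∈ B) := by
    intro B
    by_cases hB : B ⊆ Icc 1 H ∧ (2 / 3 + ε) * (H : ℝ) ≤ B.card
    · obtain ⟨c, r, F, h1, h2, h3⟩ := hL H hH B hB.1 hB.2
      refine ⟨fun g i => r g + (4 * K).factorial * F (g, i), fun _ _ => ⟨?_, h3⟩⟩
      refine Pool.Agent.U455.TG.adm (P := (4 * K).factorial) hN ?_ ?_ _ (fun g => (r g : ℤ)) h2 ?_ ?_
      · exact (Nat.prime_three.dvd_factorial).2 (by omega)
      · exact fun p hp hpK => (hp.dvd_factorial).2 hpK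
      · intro g i
        rw [Int.modEq_iff_dvd]
        push_cast
        exact ⟨-F (g, i), by ring⟩
      · right
        obtain ⟨n, hn1, hn2⟩ := Pool.Agent.U455.TG.two3 0 c
        refine ⟨n, fun g hd => ?_⟩
        rcases h1 g with h4 | h4
        · apply hn1
          have h5 : (3 : ℤ) ∣ (r g : ℤ) := by
            have : 3 ∣ r g := Nat.dvd_of_mod_eq_zero h4
            exact_mod_cast this
          rw [add_zero]
          exact (dvd_add_left h5).1 hd
        · apply hn2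
          have h5 : (3 : ℤ) ∣ (r g : ℤ) - c := by
            have h6 := Nat.div_add_mod (r g) 3
            refine ⟨((r g / 3 : ℕ) : ℤ), ?_⟩
            rw [h4] at h6
            have h7 : ((3 * (r g / 3) + c : ℕ) : ℤ) = r g := by rw [h6]
            push_cast at h7 ⊢
            linarith
          have e : n + (c : ℤ) = (n + r g) - ((r g : ℤ) - c) := by ring
          rw [e]
          exact dvd_sub hd h5
    · exact ⟨fun _ _ => 0, fun h1 h2 => absurd ⟨h1, h2⟩ hB⟩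
  choose A hA using hch
  have hev : ∀ᶠ x in l, ∀ B ∈ (Icc 1 H).powerset, AdmN N (A B) →
      ∃ g g' i i', g ≠ g' ∧ A B g i < A B g' i' ∧ A B g' i' - A B g i ∈ G x := by
    rw [eventually_all_finset]
    intro B _
    by_cases h : AdmN N (A B)
    · exact (hG (A B) h).mono fun x hx _ => hx
    · exact Eventually.of_forall fun x h' => absurd h' h
  filter_upwards [hev] with x hx
  by_contra hcon
  push Not at hcon
  obtain ⟨B, hB⟩ : ∃ B, B = (Icc 1 H).filter (fun k => k ∉ G x) := ⟨_, rfl⟩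
  have hBI : B ⊆ Icc 1 H := by rw [hB]; exact filter_subset _ _
  have hsum : ((Icc 1 H).filter (fun k => k ∈ G x)).card + B.card = H := by
    rw [hB, card_filter_add_card_filter_not, Nat.card_Icc, Nat.add_sub_cancel]
  have hsumR : (((Icc 1 H).filter (fun k => k ∈ G x)).card : ℝ) + (B.card : ℝ) = H := by exact_mod_cast hsum
  obtain ⟨h1, h2⟩ := hA B hBI (by linarith)
  obtain ⟨g, g', i, i', h3, h4, h5⟩ := hx B (mem_powerset.2 hBI) h1
  have key : ∀ y ∈ B, y ∉ G x := fun y hy => by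
    rw [hB] at hy
    exact (mem_filter.1 hy).2
  rcases lt_or_gt_of_ne h3 with h6 | h6
  · exact key _ (h2 g g' h6 i i').2 h5
  · have h7 := (h2 g' g h6 i' i).1
    omega

/-- **bounded sums at every scale** -/
theorem bounded : ∃ h : ℕ, ∀ K : ℕ, 1 ≤ K → ∃ T : ℕ, ∀ {α : Type} (l : Filter α) (G : α → Set ℕ) (N : ℕ),
    2 ∣ N → EvC4 l G N K → ∀ t : ℕ, 6 ∣ t → T ≤ t → ∀ᶠ x in l,
      ∃ w : List ℕ, w.length ≤ h ∧ (∀ k ∈ w, k ∈ G x ∧ 1 ≤ k) ∧ w.sum = t := by
  classical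
  obtain ⟨h, C, N₀, hmain⟩ := Pool.Agent.U455.BT.main (1 / 3 - 1 / 24) (by norm_num)
  refine ⟨h, fun K hK => ?_⟩
  obtain ⟨L, hL⟩ := dens K hK (1 / 24) (by norm_num)
  obtain ⟨M, hM⟩ : ∃ M, M = max N₀ L := ⟨_, rfl⟩
  refine ⟨C * M, fun l G N hN hG t h6 ht => ?_⟩
  have hev : ∀ᶠ x in l, ∀ d ∈ Icc 1 3, ∀ H ∈ Icc M t,
      (1 / 3 - 1 / 24) * (H : ℝ) ≤ (((Icc 1 H).filter (fun k : ℕ => d * k ∈ G x)).card : ℝ) := by
    rw [Filter.eventually_all_finset]
    intro d hd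
    rw [Filter.eventually_all_finset]
    intro H hH
    rw [mem_Icc] at hd hH
    have hLM : L ≤ M := by rw [hM]; exact le_max_right _ _
    exact hL l (fun x => {k | d * k ∈ G x}) N hN (mult hG d hd.1) H (hLM.trans hH.1)
  filter_upwards [hev] with x hx
  exact hmain (fun k => k ∈ G x) M t (by rw [hM]; exact le_max_left _ _) (fun d H hd1 hd3 hMH hdH =>
    hx d (mem_Icc.2 ⟨hd1, hd3⟩) H (mem_Icc.2 ⟨hMH, (Nat.le_mul_of_pos_left _ (by omega)).trans hdH⟩))
    t h6 ht le_rfl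

end

end Pool.Agent.U455.UNI
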