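import Mathlib
import Pool.Agent.U455.UNI

/-!
# The ternary theorem, uniformly
-/

set_option autoImplicit false

namespace Pool.Agent.U455.UF

open Filter Pool.Agent.H947R3.GM Pool.Agent.U455.EVS

/-- four admissible classes of shifts which are at most `Y` -/
def F4 (G : Set ℕ) (K Y : ℕ) : Prop := ∀ H : Fin 4 → Fin K → ℕ, AdmN 2 H → (∀ g i, H g i ≤ Y) →
  ∃ g g' i i', g ≠ g' ∧ H g i < H g' i' ∧ H g' i' - H g i ∈ G

/-- the filter of the sets with this property for large `Y` -/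
def fil (K : ℕ) : Filter (Set ℕ) := ⨅ Y : ℕ, 𝓟 {G | F4 G K Y}

theorem mem_fil (K : ℕ) (S : Set (Set ℕ)) : S ∈ fil K ↔ ∃ Y : ℕ, ∀ G, F4 G K Y → G ∈ S := by
  unfold fil
  rw [mem_iInf_of_directed]
  · constructor
    · rintro ⟨Y, hY⟩
      exact ⟨Y, fun G hG => mem_principal.1 hY hG⟩
    · rintro ⟨Y, hY⟩
      exact ⟨Y, mem_principal.2 fun G hG => hY G hG⟩
  · intro Y Y'
    refine ⟨max Y Y', ?_, ?_⟩
    · exact principal_mono.2 fun G hG H hH hY => hG H hH fun g i => (hY g i).trans (le_max_left _ _)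
    · exact principal_mono.2 fun G hG H hH hY => hG H hH fun g i => (hY g i).trans (le_max_right _ _)

theorem ev (K : ℕ) : EvC4 (fil K) (fun G : Set ℕ => G) 2 K := by
  intro H hH
  have : {G : Set ℕ | ∃ g g' i i', g ≠ g' ∧ H g i < H g' i' ∧ H g' i' - H g i ∈ G} ∈ fil K := by
    rw [mem_fil]
    refine ⟨∑ g, ∑ i, H g i, fun G hG => hG H hH fun g i => ?_⟩
    calc H g i ≤ ∑ i, H g i := Finset.single_le_sum (f := fun i => H g i) (fun _ _ => Nat.zero_le _)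
          (Finset.mem_univ i)
      _ ≤ _ := Finset.single_le_sum (f := fun g => ∑ i, H g i) (fun _ _ => Nat.zero_le _) (Finset.mem_univ g)
  exact this

/-- **the ternary theorem, uniformly** -/
theorem diff (K R : ℕ) : ∃ B Y : ℕ, ∀ G : Set ℕ, F4 G K Y → ∃ g₁ g₂ g₃, g₁ ∈ G ∧ g₂ ∈ G ∧ g₃ ∈ G ∧
    (R < g₁ ∧ g₁ ≤ B) ∧ (R < g₂ ∧ g₂ ≤ B) ∧ (R < g₃ ∧ g₃ ≤ B) ∧ 6 + g₃ = g₁ + g₂ := by
  obtain ⟨B, hB⟩ := EVS.diff (by norm_num) (ev K) 6 dvd_rfl R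
  obtain ⟨Y, hY⟩ := (mem_fil K _).1 hB
  exact ⟨B, Y, fun G hG => hY G hG⟩

/-- sums -/
theorem sums (K M R : ℕ) : ∃ T Y : ℕ, ∀ G : Set ℕ, F4 G K Y → ∃ L ≤ T, ∀ t : ℕ, L ≤ t → t ≤ L + M → 6 ∣ t →
    ∃ g₁ g₂ g₃, g₁ ∈ G ∧ g₂ ∈ G ∧ g₃ ∈ G ∧ R < g₁ ∧ R < g₂ ∧ R < g₃ ∧ t = g₁ + g₂ + g₃ := by
  obtain ⟨T, hT⟩ := EVS.sums (by norm_num) (ev K) M R
  obtain ⟨Y, hY⟩ := (mem_fil K _).1 hT
  exact ⟨T, Y, fun G hG => hY G hG⟩

theorem adm_two {N : ℕ} (hN : 2 ∣ N) {K : ℕ} {H : Fin 4 → Fin K → ℕ} (h : AdmN 2 H) : AdmN N H :=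
  ⟨h.1, fun p hp hpN => h.2 p hp fun hp2 => hpN (hp2.trans hN)⟩

/-- admissible families, multiplied by `d` -/
theorem adm_mul {N : ℕ} {K : ℕ} {H : Fin 4 → Fin K → ℕ} (h : AdmN N H) (d : ℕ) (hd : 1 ≤ d) :
    AdmN N (fun g i => d * H g i) := by
  obtain ⟨hinj, hadm⟩ := h
  refine ⟨fun y y' hy => hinj (Nat.eq_of_mul_eq_mul_left hd hy), fun p hp hpN => ?_⟩
  by_cases hpd : p ∣ d
  · refine ⟨1, fun g i h2 => ?_⟩
    have h3 : (p : ℤ) ∣ ((d * H g i : ℕ) : ℤ) := by exact_mod_cast hpd.mul_right _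
    have h4 := (dvd_add_left h3).1 h2
    have h5 : p ∣ 1 := by exact_mod_cast h4
    exact hp.one_lt.ne' (Nat.dvd_one.1 h5)
  · obtain ⟨n, hn⟩ := hadm p hp hpN
    refine ⟨d * n, fun g i h2 => hn g i ?_⟩
    have e : (d : ℤ) * n + ((d * H g i : ℕ) : ℤ) = (d : ℤ) * (n + H g i) := by push_cast; ring
    rw [e] at h2
    rcases (Nat.prime_iff_prime_int.1 hp).dvd_or_dvd h2 with h3 | h3
    · exact absurd (by exact_mod_cast h3) hpd
    · exact h3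

/-- eventually: four classes of shifts up to `Y`, for the elements divisible by `d` -/
theorem ev_F4 {α : Type} {l : Filter α} {G : α → Set ℕ} {N K : ℕ} (hN : 2 ∣ N) (h : EvC4 l G N K) (d Y : ℕ)
    (hd : 1 ≤ d) : ∀ᶠ x in l, F4 {k | d * k ∈ G x} K Y := by
  classical
  have h1 := UNI.mult h d hd
  have h2 : ∀ᶠ x in l, ∀ H ∈ Fintype.piFinset (fun _ : Fin 4 => Fintype.piFinset
      (fun _ : Fin K => Finset.range (Y + 1))), AdmN 2 H →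
      ∃ g g' i i', g ≠ g' ∧ H g i < H g' i' ∧ H g' i' - H g i ∈ {k | d * k ∈ G x} := by
    rw [eventually_all_finset]
    intro H _
    by_cases hH : AdmN 2 H
    · exact (h1 H (adm_two hN hH)).mono fun x hx _ => hx
    · exact Eventually.of_forall fun x h' => absurd h' hH
  filter_upwards [h2] with x hx H hH hY
  refine hx H ?_ hH
  rw [Fintype.mem_piFinset]
  intro g
  rw [Fintype.mem_piFinset]
  intro i
  exact Finset.mem_range.2 (Nat.lt_succ_of_le (hY g i))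

/-- **every multiple `t` of `6` is a combination of three elements of size `t`** -/
theorem linear (K R : ℕ) : ∃ C : ℕ, ∀ {α : Type} (l : Filter α) (G : α → Set ℕ) (N : ℕ), 2 ∣ N → EvC4 l G N K →
    ∀ t : ℕ, 6 ∣ t → 1 ≤ t → ∀ᶠ x in l, ∃ g₁ g₂ g₃, g₁ ∈ G x ∧ g₂ ∈ G x ∧ g₃ ∈ G x ∧
      (R * t < g₁ ∧ g₁ ≤ C * t) ∧ (R * t < g₂ ∧ g₂ ≤ C * t) ∧ (R * t < g₃ ∧ g₃ ≤ C * t) ∧
      t + g₃ = g₁ + g₂ := by
  obtain ⟨B, Y, hBY⟩ := diff K (6 * R)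
  refine ⟨B, fun l G N hN hG t h6 ht => ?_⟩
  obtain ⟨d, hd⟩ := h6
  have hd1 : 1 ≤ d := by omega
  filter_upwards [ev_F4 hN hG d Y hd1] with x hx
  obtain ⟨g₁, g₂, g₃, h1, h2, h3, h4, h5, h6, h7⟩ := hBY _ hx
  have key : ∀ g, 6 * R < g → g ≤ B → R * t < d * g ∧ d * g ≤ B * t := by
    intro g h8 h9
    constructor
    · have h10 := Nat.mul_lt_mul_of_pos_left h8 hd1
      have e : d * (6 * R) = R * t := by rw [hd]; ring
      rw [e] at h10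
      exact h10
    · calc d * g ≤ d * B := Nat.mul_le_mul_left _ h9
        _ ≤ B * t := by
          rw [mul_comm]
          exact Nat.mul_le_mul_left _ (by omega)
  refine ⟨d * g₁, d * g₂, d * g₃, h1, h2, h3, key g₁ h4.1 h4.2, key g₂ h5.1 h5.2, key g₃ h6.1 h6.2, ?_⟩
  rw [← Nat.mul_add, ← h7, hd]
  ring

end Pool.Agent.U455.UF
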