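import Mathlib
import Pool.Agent.U455.BT

/-!
# Bounded sums from a scale on, for arbitrary positive density
-/

set_option autoImplicit false

namespace Pool.Agent.U455.BTG

open Finset
open Pool.Agent.U455.BT (Sd Dd point blocks)

open Classical in
theorem pairs (A : ℕ → Prop) (N D : ℕ) (c : ℝ)
    (hA : (N : ℝ) / (D + 1) + 1 + (D * D : ℕ) * c < (((Icc 1 N).filter A).card : ℝ)) :
    ∃ d r : ℕ, (1 ≤ d ∧ d ≤ D) ∧ r < d ∧ c < (((Icc 0 N).filter (Sd A d r)).card : ℝ) ∨ D = 0 := by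
  by_contra hcon
  push Not at hcon
  have hD0 : D ≠ 0 := fun h => hcon 0 0 |>.2 h
  have hD : 1 ≤ D := Nat.one_le_iff_ne_zero.2 hD0
  obtain ⟨T, hT⟩ : ∃ T : Finset ℕ, T = (Icc 1 N).filter (fun a => A a ∧ ∀ e, 1 ≤ e → e ≤ D → ¬ A (a + e)) :=
    ⟨_, rfl⟩
  have hTc : T.card ≤ N / (D + 1) + 1 := by
    have h1 : T.card ≤ (range (N / (D + 1) + 1)).card := by
      apply card_le_card_of_injOn (fun a => a / (D + 1))
      · intro a ha
        rw [hT, mem_coe, mem_filter, mem_Icc] at ha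
        rw [mem_coe, mem_range]
        show a / (D + 1) < N / (D + 1) + 1
        have := Nat.div_le_div_right (c := D + 1) ha.1.2
        omega
      · intro a ha b hb hab
        rw [hT, mem_coe, mem_filter] at ha hb
        have hab' : a / (D + 1) = b / (D + 1) := hab
        obtain ⟨-, ha1, ha2⟩ := ha
        obtain ⟨-, hb1, hb2⟩ := hb
        have e1 := Nat.div_add_mod a (D + 1)
        have e2 := Nat.div_add_mod b (D + 1)
        have e3 := Nat.mod_lt a (show 0 < D + 1 by omega)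
        have e4 := Nat.mod_lt b (show 0 < D + 1 by omega)
        rw [hab'] at e1
        rcases lt_trichotomy a b with h | h | h
        · exact absurd hb1 (by
            have := ha2 (b - a) (by omega) (by omega)
            rwa [show a + (b - a) = b by omega] at this)
        · exact h
        · exact absurd ha1 (by
            have := hb2 (a - b) (by omega) (by omega)
            rwa [show b + (a - b) = a by omega] at this)
    rwa [card_range] at h1
  obtain ⟨I, hI⟩ : ∃ I : Finset (ℕ × ℕ), I = (Icc 1 D ×ˢ range D).filter (fun x => x.2 < x.1) := ⟨_, rfl⟩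
  have hIc : I.card ≤ D * D := by
    rw [hI]
    refine (card_filter_le _ _).trans ?_
    rw [card_product, Nat.card_Icc, card_range, Nat.add_sub_cancel]
  have hsub : (Icc 1 N).filter A ⊆ T ∪ I.biUnion (fun x =>
      ((Icc 0 N).filter (Sd A x.1 x.2)).image (fun j => x.2 + x.1 * j)) := by
    intro a ha
    rw [mem_filter, mem_Icc] at ha
    rw [mem_union]
    have key : ∀ d : ℕ, 1 ≤ d → d ≤ D → A (a + d) → a ∈ I.biUnion (fun x =>
      ((Icc 0 N).filter (Sd A x.1 x.2)).image (fun j => x.2 + x.1 * j)) := by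
      intro d h1 h2 h3
      rw [mem_biUnion]
      have h4 := Nat.mod_add_div a d
      have h5 := Nat.mod_lt a (show 0 < d by omega)
      refine ⟨(d, a % d), ?_, ?_⟩
      · rw [hI, mem_filter, mem_product, mem_Icc, mem_range]
        exact ⟨⟨⟨h1, h2⟩, by show a % d < D; omega⟩, h5⟩
      · rw [mem_image]
        refine ⟨a / d, ?_, h4⟩
        rw [mem_filter, mem_Icc]
        refine ⟨⟨Nat.zero_le _, (Nat.div_le_self _ _).trans ha.1.2⟩, ?_⟩
        show A (a % d + d * (a / d)) ∧ A (a % d + d * (a / d) + d)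
        rw [h4]
        exact ⟨ha.2, h3⟩
    by_cases h1 : ∃ e, 1 ≤ e ∧ e ≤ D ∧ A (a + e)
    · obtain ⟨e, h2, h3, h4⟩ := h1
      exact Or.inr (key e h2 h3 h4)
    · push Not at h1
      refine Or.inl ?_
      rw [hT, mem_filter, mem_Icc]
      exact ⟨ha.1, ha.2, h1⟩
  have hcard : (((Icc 1 N).filter A).card : ℝ) ≤ T.card + ∑ x ∈ I, c := by
    have h1 := (card_le_card hsub).trans ((card_union_le _ _).trans (Nat.add_le_add_left card_biUnion_le _))
    have h2 : (((Icc 1 N).filter A).card : ℝ) ≤ T.card + ∑ x ∈ I, ((((Icc 0 N).filter (Sd A x.1 x.2)).image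
        (fun j => x.2 + x.1 * j)).card : ℝ) := by exact_mod_cast h1
    refine h2.trans (add_le_add_right (sum_le_sum fun x hx => ?_) _)
    rw [hI, mem_filter, mem_product, mem_Icc] at hx
    refine le_trans ?_ ((hcon x.1 x.2).1 hx.1.1 hx.2)
    exact_mod_cast card_image_le
  rw [sum_const, nsmul_eq_mul] at hcard
  have hc0 : 0 ≤ c := by
    refine le_trans ?_ ((hcon 1 0).1 ⟨le_rfl, hD⟩ (by norm_num))
    exact Nat.cast_nonneg _
  have h1 : (I.card : ℝ) * c ≤ (D * D : ℕ) * c := mul_le_mul_of_nonneg_right (by exact_mod_cast hIc) hc0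
  have h2 : (T.card : ℝ) ≤ (N : ℝ) / (D + 1) + 1 := by
    have h3 : (T.card : ℝ) ≤ ((N / (D + 1) : ℕ) : ℝ) + 1 := by exact_mod_cast hTc
    have h4 : ((N / (D + 1) : ℕ) : ℝ) ≤ (N : ℝ) / ((D + 1 : ℕ) : ℝ) := Nat.cast_div_le
    push_cast at h4
    linarith
  linarith

open Classical in
/-- a progression of sums -/
theorem local_ap (D : ℕ) (hD : 1 ≤ D) (ρ : ℝ) (hρ : 1 / ((D : ℝ) + 1) < ρ) : ∃ h N₀ : ℕ, ∀ (A : ℕ → Prop) (N : ℕ),
    N₀ ≤ N → ρ * N ≤ (((Icc 1 N).filter A).card : ℝ) →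
    ∃ d s : ℕ, (1 ≤ d ∧ d ≤ D) ∧ d ∣ s ∧ s ≤ h * N ∧ ∀ n ≤ N, ∃ l : List ℕ, l.length ≤ h ∧
      (∀ y ∈ l, A y) ∧ l.sum = s + d * n := by
  have hDR : (1 : ℝ) ≤ D := by exact_mod_cast hD
  obtain ⟨σ, hσ⟩ : ∃ σ : ℝ, σ = (ρ - 1 / ((D : ℝ) + 1)) / (2 * (D * D)) := ⟨_, rfl⟩
  have hσ0 : 0 < σ := by rw [hσ]; exact div_pos (by linarith) (by positivity)
  obtain ⟨δ, hδ⟩ : ∃ δ : ℝ, δ = min (σ / 5) 1 := ⟨_, rfl⟩
  have hδ0 : 0 < δ := by rw [hδ]; exact lt_min (by positivity) one_pos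
  have hδ1 : δ ≤ 1 := by rw [hδ]; exact min_le_right _ _
  have hδσ : δ ≤ σ / 5 := by rw [hδ]; exact min_le_left _ _
  obtain ⟨h₀, hh₀⟩ := exists_nat_ge (1 / δ)
  have hδh : 1 ≤ δ * h₀ := by
    rw [div_le_iff₀ hδ0] at hh₀
    linarith
  obtain ⟨N₀, hN₀⟩ := exists_nat_ge (2 / σ + 3)
  refine ⟨2 * (D * D) * (h₀ + h₀) + 2 * (D * D) * (h₀ + h₀), N₀, fun A N hN hA => ?_⟩
  have hNR : 2 / σ + 3 ≤ (N : ℝ) := hN₀.trans (by exact_mod_cast hN)
  have hσN : 2 ≤ σ * N := by
    have h1 : 2 / σ ≤ N := by linarith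
    rw [div_le_iff₀ hσ0] at h1
    linarith
  have hN3 : (3 : ℝ) < N := by
    have : 0 < 2 / σ := by positivity
    linarith
  have hρσ : ρ = 1 / ((D : ℝ) + 1) + 2 * (D * D) * σ := by rw [hσ]; field_simp; ring
  obtain ⟨d, r, hdr⟩ := pairs A N D (σ * N) (by
    refine lt_of_lt_of_le ?_ hA
    rw [hρσ, add_mul, one_div, inv_mul_eq_div]
    push_cast
    have h2 : (1 : ℝ) ≤ (D : ℝ) * D := by nlinarith
    have h1 : (D : ℝ) * D * 2 ≤ (D : ℝ) * D * (σ * N) := mul_le_mul_of_nonneg_left hσN (by positivity)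
    nlinarith)
  rcases hdr with ⟨hd, hr, hS⟩ | h0
  swap
  · omega
  obtain ⟨p, hp, hSp, hgood⟩ := point (Sd A d r) δ hδ0 N (2 * N) (by omega) (by
    refine lt_of_le_of_lt ?_ hS
    push_cast
    nlinarith)
  obtain ⟨a, ha⟩ : ∃ a, a = r + d * p := ⟨_, rfl⟩
  have hD0 : Dd A d a 0 := by
    unfold Dd
    rw [ha, mul_zero, add_zero]
    exact hSp.1
  have hD1 : Dd A d a 1 := by
    unfold Dd
    rw [ha, mul_one]
    exact hSp.2
  have hDD : ∀ m ≤ N, δ * m ≤ (W851.Had.cnt (Dd A d a) m : ℝ) := by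
    intro m hm
    unfold W851.Had.cnt
    rcases Nat.eq_zero_or_pos m with h0 | h0
    · subst h0; simp
    by_cases h1 : 1 ≤ δ * m
    · refine (hgood m h1 (by omega)).trans ?_
      rw [Nat.cast_le]
      apply card_le_card_of_injOn (fun y => y - p)
      · intro y hy
        rw [mem_coe, mem_filter, mem_Ioc] at hy
        rw [mem_coe, mem_filter, mem_Icc]
        refine ⟨⟨by show 1 ≤ y - p; omega, by show y - p ≤ m; omega⟩, ?_⟩
        unfold Dd
        have e : a + d * (y - p) = r + d * y := by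
          rw [ha]
          obtain ⟨z, rfl⟩ : ∃ z, y = p + z := ⟨y - p, by omega⟩
          rw [Nat.add_sub_cancel_left]
          ring
        rw [e]
        exact hy.2.1
      · intro y hy y' hy' h
        rw [mem_coe, mem_filter, mem_Ioc] at hy hy'
        have h' : y - p = y' - p := h
        omega
    · push Not at h1
      have h2 : 1 ≤ ((Icc 1 m).filter (Dd A d a)).card := by
        rw [Nat.one_le_iff_ne_zero, ← Nat.pos_iff_ne_zero, card_pos]
        exact ⟨1, mem_filter.2 ⟨mem_Icc.2 ⟨le_rfl, h0⟩, hD1⟩⟩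
      have h3 : (1 : ℝ) ≤ (((Icc 1 m).filter (Dd A d a)).card : ℝ) := by exact_mod_cast h2
      linarith
  have hsum : ∀ n ≤ N, ∃ l : List ℕ, l.length = h₀ + h₀ ∧ (∀ y ∈ l, A y) ∧
      l.sum = (h₀ + h₀) * a + d * n := by
    intro n hn
    obtain ⟨l, hl1, hl2, hl3⟩ := W851.Had.schn (Dd A d a) N h₀ δ hδ1 hδh hD0 hDD n hn
    refine ⟨l.map (fun y => a + d * y), by rw [List.length_map, hl1], ?_, ?_⟩
    · intro y hy
      obtain ⟨z, hz, rfl⟩ := List.mem_map.1 hy
      exact hl2 z hz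
    · have key : ∀ l : List ℕ, (l.map (fun y => a + d * y)).sum = l.length * a + d * l.sum := by
        intro l
        induction l with
        | nil => simp
        | cons b l ih =>
          rw [List.map_cons, List.sum_cons, ih, List.length_cons, List.sum_cons]
          ring
      rw [key, hl1, hl3]
  obtain ⟨l₀, hl₀, hl₀', hl₀''⟩ := hsum 0 (Nat.zero_le _)
  have haN : a ≤ 2 * D * N := by
    rw [ha]
    have h1 : d * p ≤ D * N := Nat.mul_le_mul hd.2 hp
    have h2 : 3 < N := by exact_mod_cast hN3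
    have h3 : D * 1 ≤ D * N := Nat.mul_le_mul_left _ (by omega)
    have e : 2 * D * N = D * N + D * N := by ring
    omega
  -- copies of the shortest list
  have hrep : ∀ i : ℕ, ∃ l : List ℕ, l.length = i * (h₀ + h₀) ∧ (∀ y ∈ l, A y) ∧ l.sum = i * ((h₀ + h₀) * a) := by
    intro i
    induction i with
    | zero => exact ⟨[], by simp, by simp, by simp⟩
    | succ i ih =>
      obtain ⟨l, h1, h2, h3⟩ := ih
      refine ⟨l ++ l₀, ?_, ?_, ?_⟩
      · rw [List.length_append, h1, hl₀]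
        ring
      · intro y hy
        rcases List.mem_append.1 hy with h | h
        · exact h2 y h
        · exact hl₀' y h
      · rw [List.sum_append, h3, hl₀'']
        ring
  have hDD1 : D ≤ D * D := Nat.le_mul_of_pos_left _ hD
  refine ⟨d, d * ((h₀ + h₀) * a), hd, dvd_mul_right _ _, ?_, fun n hn => ?_⟩
  · calc d * ((h₀ + h₀) * a) ≤ D * ((h₀ + h₀) * (2 * D * N)) := by gcongr; exact hd.2
      _ = 2 * (D * D) * (h₀ + h₀) * N := by ring
      _ ≤ (2 * (D * D) * (h₀ + h₀) + 2 * (D * D) * (h₀ + h₀)) * N := Nat.mul_le_mul_right _ (by omega)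
  · obtain ⟨l, hl1, hl2, hl3⟩ := hsum n hn
    obtain ⟨l', hl1', hl2', hl3'⟩ := hrep (d - 1)
    refine ⟨l ++ l', ?_, ?_, ?_⟩
    · rw [List.length_append, hl1, hl1']
      have h1 : (h₀ + h₀) + (d - 1) * (h₀ + h₀) = d * (h₀ + h₀) := by
        obtain ⟨e, rfl⟩ : ∃ e, d = e + 1 := ⟨d - 1, by omega⟩
        rw [Nat.add_sub_cancel]
        ring
      rw [h1]
      have h2 : d * (h₀ + h₀) ≤ (2 * (D * D)) * (h₀ + h₀) := Nat.mul_le_mul_right _ (by omega)
      omega
    · intro y hy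
      rcases List.mem_append.1 hy with h | h
      · exact hl2 y h
      · exact hl2' y h
    · rw [List.sum_append, hl3, hl3']
      obtain ⟨e, rfl⟩ : ∃ e, d = e + 1 := ⟨d - 1, by omega⟩
      rw [Nat.add_sub_cancel]
      ring

open Classical in
/-- **Bounded sums from the scale `N` on.** -/
theorem main (D : ℕ) (hD : 1 ≤ D) (ρ σ : ℝ) (hρ : 1 / ((D : ℝ) + 1) < ρ) (hσ : 0 < σ) :
    ∃ h C N₀ : ℕ, ∀ (A : ℕ → Prop) (N M : ℕ), N₀ ≤ N →
    (∀ H : ℕ, N ≤ H → H ≤ M → ρ * H ≤ (((Icc 1 H).filter A).card : ℝ)) →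
    (∀ d H : ℕ, 1 ≤ d → d ≤ D → N ≤ H → d * H ≤ M →
      σ * H ≤ (((Icc 1 H).filter (fun k => A (d * k))).card : ℝ)) →
    ∀ t : ℕ, D.factorial ∣ t → C * N ≤ t → t ≤ M →
      ∃ l : List ℕ, l.length ≤ h ∧ (∀ y ∈ l, A y ∧ 1 ≤ y) ∧ l.sum = t := by
  obtain ⟨h₁, N₁, hloc⟩ := local_ap D hD ρ hρ
  obtain ⟨h₂, hh₂⟩ := exists_nat_ge (1 / min σ 1)
  have hσ0 : 0 < min σ 1 := lt_min hσ one_pos
  have hσh : 1 ≤ min σ 1 * h₂ := by
    rw [div_le_iff₀ hσ0] at hh₂
    linarith
  refine ⟨h₁ + (h₂ + h₂), (h₁ + 1) * (h₂ + h₂ + 1), max N₁ 1, fun A N M hN hA1 hA t h6 htC htM => ?_⟩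
  have hN1 : N₁ ≤ N := (le_max_left _ _).trans hN
  have hN0 : 1 ≤ N := (le_max_right _ _).trans hN
  obtain ⟨N', hN'⟩ : ∃ N', N' = (h₂ + h₂ + 1) * N := ⟨_, rfl⟩
  have hNN' : N ≤ N' := by
    rw [hN']
    exact Nat.le_mul_of_pos_left _ (by omega)
  have htN' : (h₁ + 1) * N' ≤ t := by
    rw [hN', ← mul_assoc]
    exact htC
  have hN't : N' ≤ t := (Nat.le_mul_of_pos_left _ (by omega)).trans htN'
  obtain ⟨A', hA'⟩ : ∃ A' : ℕ → Prop, A' = fun y => A y ∧ 1 ≤ y := ⟨_, rfl⟩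
  have hAA' : ∀ d H : ℕ, 1 ≤ d → ((Icc 1 H).filter (fun k => A (d * k))) =
      ((Icc 1 H).filter (fun k => A' (d * k))) := by
    intro d H hd
    ext k
    rw [mem_filter, mem_filter, mem_Icc, hA']
    constructor
    · rintro ⟨h1, h2⟩
      exact ⟨h1, h2, Nat.mul_pos hd h1.1⟩
    · rintro ⟨h1, h2⟩
      exact ⟨h1, h2.1⟩
  obtain ⟨d, s, hd, hds, hs, hap⟩ := hloc A' N' (hN1.trans hNN') (by
    have h1 := hA1 N' hNN' (by omega)
    have h2 := hAA' 1 N' le_rfl
    simp only [one_mul] at h2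
    have h3 : ((Icc 1 N').filter A) = ((Icc 1 N').filter A') := h2
    rw [h3] at h1
    exact h1)
  have hst : s ≤ t := hs.trans ((Nat.mul_le_mul_right _ (by omega)).trans htN')
  have hdt : d ∣ t := (Nat.dvd_factorial (by omega) hd.2).trans h6
  obtain ⟨u, hu⟩ := Nat.dvd_sub hdt hds
  have hut : t = s + d * u := by omega
  obtain ⟨j, hj⟩ : ∃ j, j = u / N := ⟨_, rfl⟩
  have hj1 : j * N ≤ u := by rw [hj]; exact Nat.div_mul_le_self _ _
  have hj2 : u < j * N + N := by
    rw [hj]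
    have := Nat.lt_div_mul_add (a := u) (show 0 < N by omega)
    omega
  obtain ⟨l, hl1, hl2, hl3, hl4⟩ := blocks (min σ 1) hσ0 (min_le_right _ _) h₂ hσh (fun k => A' (d * k)) N j hN0
    (by
      intro i hi1 hi2
      have h1 : N ≤ i * N := Nat.le_mul_of_pos_left _ (by omega)
      have h2 : i * N ≤ j * N := Nat.mul_le_mul_right _ hi2
      have h3 : d * (i * N) ≤ M := by
        have : d * (i * N) ≤ d * u := Nat.mul_le_mul_left _ (h2.trans hj1)
        omega
      have h4 := hA d (i * N) hd.1 hd.2 h1 h3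
      rw [hAA' d _ hd.1] at h4
      refine le_trans ?_ h4
      exact mul_le_mul_of_nonneg_right (min_le_left _ _) (Nat.cast_nonneg _)) j le_rfl
  obtain ⟨l', hl1', hl2', hl3'⟩ := hap (u - l.sum) (by
    rw [hN', add_mul, one_mul]
    omega)
  refine ⟨l' ++ l.map (fun k => d * k), ?_, ?_, ?_⟩
  · rw [List.length_append, List.length_map]
    omega
  · intro y hy
    have : A' y := by
      rcases List.mem_append.1 hy with h | h
      · exact hl2' y h
      · obtain ⟨k, hk, rfl⟩ := List.mem_map.1 h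
        exact hl2 k hk
    rw [hA'] at this
    exact this
  · have key : ∀ l : List ℕ, (l.map (fun y => d * y)).sum = d * l.sum := by
      intro l
      induction l with
      | nil => simp
      | cons b l ih =>
        rw [List.map_cons, List.sum_cons, ih, List.sum_cons]
        ring
    rw [List.sum_append, key, hl3', hut]
    have h1 : u = (u - l.sum) + l.sum := by omega
    calc s + d * (u - l.sum) + d * l.sum = s + d * ((u - l.sum) + l.sum) := by ring
      _ = s + d * u := by rw [← h1]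

end Pool.Agent.U455.BTG
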