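import Mathlib
import Pool.Agent.Y840.PT.Shift
import Pool.Agent.R527.LV.Core
import Pool.Agent.TH891.SG.Gal4

/-!
# Popular differences of sets of primes of positive relative density in intervals
-/

set_option autoImplicit false

namespace Pool.Agent.U455.PCW

open Finset Filter
open Pool.Agent.R527.LV (ps pat box mem_box card_box ps_zero ps_succ pat_card)
open Pool.Agent.H387R2.Uni (CT nuT CT_nonneg)

/-- pairs of elements of `Q` at distance `m k`, `k ≤ L` -/
theorem cells (Q : Finset ℕ) (a H m L : ℕ) (hQ : Q ⊆ Ioc a (a + H)) (hm : 1 ≤ m) (hL : 1 ≤ L) (hW : m * L ≤ H)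
    (hbig : 4 * (H : ℝ) ≤ Q.card * L) :
    (Q.card : ℝ) ^ 2 * L / (8 * H) ≤ ∑ k ∈ Icc 1 L, ((Q.filter (fun p => p + m * k ∈ Q)).card : ℝ) := by
  classical
  obtain ⟨W, hWd⟩ : ∃ W, W = m * L := ⟨_, rfl⟩
  have hW1 : 1 ≤ W := by rw [hWd]; exact Nat.mul_pos hm hL
  have hH1 : 1 ≤ H := by omega
  obtain ⟨f, hf⟩ : ∃ f : ℕ → ℕ × ℕ, f = fun p => ((p - a - 1) / W, (p - a - 1) % m) := ⟨_, rfl⟩
  obtain ⟨S, hS⟩ : ∃ S : Finset (ℕ × ℕ), S = range (H / W + 1) ×ˢ range m := ⟨_, rfl⟩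
  have hfS : ∀ p ∈ Q, f p ∈ S := by
    intro p hp
    have h1 := mem_Ioc.1 (hQ hp)
    rw [hf, hS, mem_product, mem_range, mem_range]
    refine ⟨?_, Nat.mod_lt _ (by omega)⟩
    show (p - a - 1) / W < H / W + 1
    have := Nat.div_le_div_right (c := W) (show p - a - 1 ≤ H by omega)
    omega
  have hSc : S.card * L ≤ 2 * H := by
    rw [hS, card_product, card_range, card_range]
    have h1 : (H / W + 1) * m * L = (H / W) * W + W := by rw [hWd]; ring
    rw [h1]
    have h2 := Nat.div_mul_le_self H W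
    rw [← hWd] at hW
    omega
  -- ordered pairs in the same cell
  obtain ⟨n, hn⟩ : ∃ n : ℕ × ℕ → ℕ, n = fun c => (Q.filter (fun p => f p = c)).card := ⟨_, rfl⟩
  obtain ⟨P, hP⟩ : ∃ P : Finset (ℕ × ℕ), P = (Q ×ˢ Q).filter (fun x => f x.1 = f x.2) := ⟨_, rfl⟩
  have hPc : P.card = ∑ c ∈ S, n c ^ 2 := by
    rw [card_eq_sum_card_fiberwise (f := fun x => f x.1) (t := S)
      (fun x hx => by
        rw [hP, mem_coe, mem_filter, mem_product] at hx
        exact hfS _ hx.1.1)]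
    apply sum_congr rfl
    intro c _
    rw [hn]
    show _ = (Q.filter (fun p => f p = c)).card ^ 2
    rw [sq, ← card_product]
    congr 1
    ext x
    rw [mem_filter, hP, mem_filter, mem_product, mem_product, mem_filter, mem_filter]
    constructor
    · rintro ⟨⟨⟨h1, h2⟩, h3⟩, h4⟩
      exact ⟨⟨h1, h4⟩, h2, by rw [← h3, h4]⟩
    · rintro ⟨⟨h1, h2⟩, h3, h4⟩
      exact ⟨⟨⟨h1, h3⟩, by rw [h2, h4]⟩, h2⟩
  have hQn : Q.card = ∑ c ∈ S, n c := by
    rw [hn]
    exact card_eq_sum_card_fiberwise (f := f) (t := S) (fun p hp => hfS p hp)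
  -- increasing pairs
  obtain ⟨P', hP'⟩ : ∃ P' : Finset (ℕ × ℕ), P' = P.filter (fun x => x.1 < x.2) := ⟨_, rfl⟩
  have hPP' : P.card ≤ Q.card + 2 * P'.card := by
    have h1 : P ⊆ (Q.image (fun p => (p, p)) ∪ P') ∪ P'.image (fun x => (x.2, x.1)) := by
      intro x hx
      have hx0 := hx
      rw [hP, mem_filter, mem_product] at hx
      obtain ⟨⟨h2, h3⟩, h4⟩ := hx
      rw [mem_union, mem_union]
      rcases lt_trichotomy x.1 x.2 with h5 | h5 | h5
      · refine Or.inl (Or.inr ?_)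
        rw [hP', mem_filter]
        exact ⟨hx0, h5⟩
      · refine Or.inl (Or.inl ?_)
        rw [mem_image]
        exact ⟨x.1, h2, Prod.ext rfl h5⟩
      · refine Or.inr ?_
        rw [mem_image]
        refine ⟨(x.2, x.1), ?_, rfl⟩
        rw [hP', mem_filter, hP, mem_filter, mem_product]
        exact ⟨⟨⟨h3, h2⟩, h4.symm⟩, h5⟩
    have h2 := card_le_card h1
    have h3 := card_union_le (Q.image (fun p => (p, p)) ∪ P') (P'.image (fun x => (x.2, x.1)))
    have h4 := card_union_le (Q.image (fun p => (p, p))) P'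
    have h5 : (Q.image (fun p => (p, p))).card ≤ Q.card := card_image_le
    have h6 : (P'.image (fun x => (x.2, x.1))).card ≤ P'.card := card_image_le
    omega
  have hP'c : P'.card ≤ ∑ k ∈ Icc 1 L, (Q.filter (fun p => p + m * k ∈ Q)).card := by
    have h1 : P'.card ≤ ((Icc 1 L).sigma (fun k => Q.filter (fun p => p + m * k ∈ Q))).card := by
      apply card_le_card_of_injOn (fun x => ⟨(x.2 - x.1) / m, x.1⟩)
      · intro x hx
        rw [mem_coe, hP', mem_filter, hP, mem_filter, mem_product] at hx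
        obtain ⟨⟨⟨h2, h3⟩, h4⟩, h5⟩ := hx
        rw [hf] at h4
        have h4' := Prod.mk.inj h4
        have e1 := mem_Ioc.1 (hQ h2)
        have e2 := mem_Ioc.1 (hQ h3)
        have hd : m ∣ x.2 - x.1 := by
          have h6 : (x.1 - a - 1) ≡ (x.2 - a - 1) [MOD m] := h4'.2
          have h7 := (Nat.modEq_iff_dvd' (by omega)).1 h6
          have e : x.2 - a - 1 - (x.1 - a - 1) = x.2 - x.1 := by omega
          rwa [e] at h7
        have hlt : x.2 - x.1 < W := by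
          have h6 := Nat.div_add_mod (x.1 - a - 1) W
          have h7 := Nat.div_add_mod (x.2 - a - 1) W
          have h8 := Nat.mod_lt (x.2 - a - 1) (show 0 < W by omega)
          have h9 : (x.1 - a - 1) / W = (x.2 - a - 1) / W := h4'.1
          rw [h9] at h6
          omega
        obtain ⟨k, hk⟩ := hd
        have hk1 : (x.2 - x.1) / m = k := by rw [hk]; exact Nat.mul_div_cancel_left _ (by omega)
        have hk2 : 1 ≤ k := by
          rcases Nat.eq_zero_or_pos k with h0 | h0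
          · subst h0; omega
          · exact h0
        have hk3 : k ≤ L := by
          rw [hk, hWd] at hlt
          exact (lt_of_mul_lt_mul_left hlt (Nat.zero_le _)).le
        rw [mem_coe, mem_sigma]
        refine ⟨?_, ?_⟩
        · show (x.2 - x.1) / m ∈ Icc 1 L
          rw [hk1, mem_Icc]
          exact ⟨hk2, hk3⟩
        · show x.1 ∈ Q.filter (fun p => p + m * ((x.2 - x.1) / m) ∈ Q)
          rw [hk1, mem_filter, ← hk, show x.1 + (x.2 - x.1) = x.2 by omega]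
          exact ⟨h2, h3⟩
      · intro x hx y hy hxy
        rw [mem_coe, hP', mem_filter, hP, mem_filter, mem_product] at hx hy
        obtain ⟨⟨⟨h2, h3⟩, h4⟩, h5⟩ := hx
        obtain ⟨⟨⟨g2, g3⟩, g4⟩, g5⟩ := hy
        rw [hf] at h4 g4
        have h4' := Prod.mk.inj h4
        have g4' := Prod.mk.inj g4
        have hxy1 : (x.2 - x.1) / m = (y.2 - y.1) / m := by
          have := congrArg Sigma.fst hxy
          exact this
        have hxy2 : x.1 = y.1 := by
          have h0 := Sigma.mk.inj_iff.1 hxy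
          exact eq_of_heq h0.2
        have e1 := mem_Ioc.1 (hQ h2)
        have e2 := mem_Ioc.1 (hQ h3)
        have f1 := mem_Ioc.1 (hQ g2)
        have f2 := mem_Ioc.1 (hQ g3)
        have hd : m ∣ x.2 - x.1 := by
          have h6 : (x.1 - a - 1) ≡ (x.2 - a - 1) [MOD m] := h4'.2
          have h7 := (Nat.modEq_iff_dvd' (by omega)).1 h6
          have e : x.2 - a - 1 - (x.1 - a - 1) = x.2 - x.1 := by omega
          rwa [e] at h7
        have hd' : m ∣ y.2 - y.1 := by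
          have h6 : (y.1 - a - 1) ≡ (y.2 - a - 1) [MOD m] := g4'.2
          have h7 := (Nat.modEq_iff_dvd' (by omega)).1 h6
          have e : y.2 - a - 1 - (y.1 - a - 1) = y.2 - y.1 := by omega
          rwa [e] at h7
        have h8 : x.2 - x.1 = y.2 - y.1 := by
          rw [← Nat.div_mul_cancel hd, ← Nat.div_mul_cancel hd', hxy1]
        exact Prod.ext hxy2 (by omega)
    rwa [card_sigma] at h1
  -- Cauchy-Schwarz
  have hCS : (Q.card : ℝ) ^ 2 ≤ S.card * (P.card : ℝ) := by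
    rw [hPc, hQn]
    push_cast
    exact sq_sum_le_card_mul_sum_sq
  obtain ⟨R, hR⟩ : ∃ R : ℝ, R = ∑ k ∈ Icc 1 L, ((Q.filter (fun p => p + m * k ∈ Q)).card : ℝ) := ⟨_, rfl⟩
  rw [← hR]
  have hPR : (P.card : ℝ) ≤ Q.card + 2 * R := by
    have h1 : (P.card : ℝ) ≤ Q.card + 2 * (P'.card : ℝ) := by exact_mod_cast hPP'
    have h2 : (P'.card : ℝ) ≤ R := by rw [hR]; exact_mod_cast hP'c
    linarith
  have hSL : (S.card : ℝ) * L ≤ 2 * H := by exact_mod_cast hSc
  have hH0 : (0 : ℝ) < H := by exact_mod_cast hH1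
  have hL0 : (0 : ℝ) < L := by exact_mod_cast hL
  have hq0 : (0 : ℝ) ≤ Q.card := Nat.cast_nonneg _
  have hR0 : 0 ≤ R := by rw [hR]; positivity
  have h1 : (Q.card : ℝ) ^ 2 * L ≤ 2 * H * (Q.card + 2 * R) := by
    calc (Q.card : ℝ) ^ 2 * L ≤ (S.card * (P.card : ℝ)) * L := by gcongr
      _ = (S.card * (L : ℝ)) * P.card := by ring
      _ ≤ (2 * H) * (Q.card + 2 * R) := by gcongr
  have h2 : 2 * (H : ℝ) * Q.card ≤ (Q.card : ℝ) ^ 2 * L / 2 := by
    have := mul_le_mul_of_nonneg_left hbig hq0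
    nlinarith
  rw [div_le_iff₀ (by positivity)]
  nlinarith

lemma pat_one (d : ℕ) : ∀ t ∈ pat (fun _ : Fin 1 => d), t = 0 ∨ t = d := by
  classical
  intro t ht
  unfold pat at ht
  rw [mem_image] at ht
  obtain ⟨i, -, rfl⟩ := ht
  have hi : i = 0 ∨ i = (0 : Fin 1).succ := by
    rcases i with ⟨i, hi⟩
    have : i = 0 ∨ i = 1 := by omega
    rcases this with rfl | rfl
    · exact Or.inl rfl
    · exact Or.inr rfl
  rcases hi with rfl | rfl
  · exact Or.inl (ps_zero _)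
  · refine Or.inr ?_
    rw [ps_succ]
    show ps (fun _ : Fin 1 => d) 0 + d = d
    rw [ps_zero, zero_add]

open Classical in
/-- the upper bound sieve for pairs in intervals -/
theorem up2 : ∃ C : ℝ, 0 < C ∧ ∃ X₀ : ℕ, ∀ a H : ℕ, X₀ ≤ H → H ≤ a → ∀ d : ℕ, 1 ≤ d → 2 ∣ d →
    (((Ioc a (a + H)).filter (fun n => n.Prime ∧ (n + d).Prime)).card : ℝ) ≤
      C * (CT (pat (fun _ : Fin 1 => d)) * (H / Real.log H ^ 2)) := by
  obtain ⟨C, hC, X₀, h⟩ := Pool.Agent.Y840.PT.up 2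
  refine ⟨C, hC, X₀, fun a H hH hHa d hd h2 => ?_⟩
  have hTc : ((pat (fun _ : Fin 1 => d)).map Pool.Agent.Y840.PT.sh).card = 2 := by
    rw [card_map, pat_card (fun _ => hd)]
  have h1 := h H a hH (by omega) ((pat (fun _ : Fin 1 => d)).map Pool.Agent.Y840.PT.sh)
    (Pool.Agent.Y840.PT.prim_sh _) hTc (by
      intro p hp
      rw [Pool.Agent.Y840.PT.w_sh _ hp.pos]
      show ((pat (fun _ : Fin 1 => d)).image (· % p)).card < p
      rcases Nat.lt_or_ge 2 p with h3 | h3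
      · have h4 : ((pat (fun _ : Fin 1 => d)).image (· % p)).card ≤ (pat (fun _ : Fin 1 => d)).card := card_image_le
        rw [pat_card (fun _ => hd)] at h4
        omega
      · have h4 : p = 2 := le_antisymm h3 hp.two_le
        subst h4
        have h5 : (pat (fun _ : Fin 1 => d)).image (· % 2) ⊆ {0} := by
          intro y hy
          obtain ⟨t, ht, rfl⟩ := mem_image.1 hy
          rw [mem_singleton]
          rcases pat_one d t ht with rfl | rfl
          · rfl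
          · exact Nat.mod_eq_zero_of_dvd h2
        have h6 := card_le_card h5
        rw [card_singleton] at h6
        omega)
  rw [Pool.Agent.Y840.PT.SL_sh] at h1
  refine le_trans ?_ h1
  rw [Nat.cast_le]
  apply card_le_card
  intro q hq
  rw [mem_filter] at hq ⊢
  refine ⟨hq.1, fun L hL => ?_⟩
  rw [Finset.mem_map] at hL
  obtain ⟨t, ht, rfl⟩ := hL
  show (1 * q + t).Prime
  rw [one_mul]
  rcases pat_one d t ht with rfl | rfl
  · exact hq.2.1
  · exact hq.2.2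

/-- second moment along multiples -/
theorem mom2 (b : ℕ) (hb : 1 ≤ b) : ∃ C : ℝ, 0 < C ∧ ∀ L : ℕ, 1 ≤ L →
    ∑ k ∈ Icc 1 L, CT (pat (fun _ : Fin 1 => 2 * b * k)) ^ 2 ≤ C * L := by
  classical
  obtain ⟨C₂, hC₂, hmom⟩ := Pool.Agent.TH891.SG.CT_mom 1 2
  refine ⟨C₂ * 2 ^ (1 + 1) * (3 * b), by positivity, fun L hL => ?_⟩
  have h5 := Pool.Agent.R527.LV.mom 1 C₂ hmom (2 * b * L)
  have hb0 : (1 : ℝ) ≤ b := by exact_mod_cast hb
  have hL0 : (1 : ℝ) ≤ L := by exact_mod_cast hL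
  calc ∑ k ∈ Icc 1 L, CT (pat (fun _ : Fin 1 => 2 * b * k)) ^ 2
      = ∑ g ∈ (Icc 1 L).image (fun k => (fun _ : Fin 1 => 2 * b * k)), CT (pat g) ^ 2 := by
        rw [sum_image]
        intro k _ k' _ hkk
        have h6 := congrFun hkk 0
        exact Nat.eq_of_mul_eq_mul_left (show 0 < 2 * b by omega) h6
    _ ≤ ∑ g ∈ box 1 (2 * b * L), CT (pat g) ^ 2 := by
        apply sum_le_sum_of_subset_of_nonneg
        · intro g hg
          obtain ⟨k, hk, rfl⟩ := mem_image.1 hg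
          rw [mem_box]
          intro _
          have hk' := mem_Icc.1 hk
          exact ⟨Nat.mul_pos (by omega) hk'.1, Nat.mul_le_mul_left _ hk'.2⟩
        · intro g _ _
          positivity
    _ ≤ C₂ * 2 ^ (1 + 1) * ((1 * (2 * b * L) + 1 : ℕ) : ℝ) ^ 1 := h5
    _ ≤ C₂ * 2 ^ (1 + 1) * (3 * b) * L := by
        rw [pow_one, mul_assoc (C₂ * 2 ^ (1 + 1))]
        apply mul_le_mul_of_nonneg_left _ (by positivity)
        push_cast
        nlinarith

open Classical in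
/-- **A positive proportion of all differences is popular** -/
theorem pop (δ : ℝ) (hδ : 0 < δ) (b : ℕ) (hb : 1 ≤ b) : ∃ κ ρ K : ℝ, 0 < κ ∧ 0 < ρ ∧ 0 < K ∧ ∃ X₀ : ℕ,
    ∀ a H : ℕ, X₀ ≤ H → H ≤ a → ∀ Q : Finset ℕ, Q ⊆ Ioc a (a + H) → (∀ p ∈ Q, p.Prime) →
      δ * (H / Real.log H) ≤ Q.card → ∀ L : ℕ, K * Real.log H ≤ L → 2 * b * L ≤ H →
      ρ * L ≤ (((Icc 1 L).filter (fun k => κ * (H / Real.log H ^ 2) ≤
        ((Q.filter (fun p => p + 2 * b * k ∈ Q)).card : ℝ))).card : ℝ) := by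
  obtain ⟨C, hC, X₁, hup⟩ := up2
  obtain ⟨C₃, hC₃, hmom⟩ := mom2 b hb
  obtain ⟨κ, hκ⟩ : ∃ κ : ℝ, κ = δ ^ 2 / 16 := ⟨_, rfl⟩
  have hκ0 : 0 < κ := by rw [hκ]; positivity
  refine ⟨κ, κ ^ 2 / (C ^ 2 * C₃), 4 / δ + 1, hκ0, by positivity, by positivity, max X₁ 3,
    fun a H hH hHa Q hQ hQp hQc L hL hLH => ?_⟩
  have hX₁ : X₁ ≤ H := (le_max_left _ _).trans hH
  have hH3 : 3 ≤ H := (le_max_right _ _).trans hH
  have hHR : (3 : ℝ) ≤ H := by exact_mod_cast hH3
  have hlog1 : 1 < Real.log H := by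
    rw [Real.lt_log_iff_exp_lt (by linarith)]
    have := Real.exp_one_lt_d9
    linarith
  obtain ⟨ℓ, hℓ⟩ : ∃ ℓ : ℝ, ℓ = Real.log H := ⟨_, rfl⟩
  rw [← hℓ] at hQc hL hlog1 ⊢
  have hℓ0 : 0 < ℓ := by linarith
  have hL1R : 1 < (L : ℝ) := by
    have : 0 < 4 / δ := by positivity
    nlinarith
  have hL1 : 1 ≤ L := by
    have : (1 : ℝ) ≤ L := hL1R.le
    exact_mod_cast this
  have hL0 : (0 : ℝ) < L := by linarith
  have hH0 : (0 : ℝ) < H := by linarith
  have hbig : 4 * (H : ℝ) ≤ Q.card * L := by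
    have h1 : δ * (H / ℓ) * ((4 / δ + 1) * ℓ) ≤ Q.card * L := mul_le_mul hQc hL (by positivity) (by positivity)
    have h2 : δ * (H / ℓ) * ((4 / δ + 1) * ℓ) = 4 * H + δ * H := by field_simp
    rw [h2] at h1
    nlinarith
  have hcell := cells Q a H (2 * b) L hQ (by omega) hL1 hLH hbig
  obtain ⟨V, hV⟩ : ∃ V : ℝ, V = H / ℓ ^ 2 := ⟨_, rfl⟩
  rw [← hV]
  have hV0 : 0 < V := by rw [hV]; positivity
  obtain ⟨R, hR⟩ : ∃ R : ℕ → ℝ, R = fun k => ((Q.filter (fun p => p + 2 * b * k ∈ Q)).card : ℝ) := ⟨_, rfl⟩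
  have hRk : ∀ k, ((Q.filter (fun p => p + 2 * b * k ∈ Q)).card : ℝ) = R k := fun k => by rw [hR]
  simp only [hRk] at hcell ⊢
  have hsum : 2 * κ * V * L ≤ ∑ k ∈ Icc 1 L, R k := by
    refine le_trans ?_ hcell
    have h1 : (δ * (H / ℓ)) ^ 2 ≤ (Q.card : ℝ) ^ 2 := pow_le_pow_left₀ (by positivity) hQc 2
    calc 2 * κ * V * L = (δ * (H / ℓ)) ^ 2 * L / (8 * H) := by
          rw [hκ, hV]
          field_simp
          norm_num
      _ ≤ (Q.card : ℝ) ^ 2 * L / (8 * H) := by gcongr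
  obtain ⟨G, hG⟩ : ∃ G, G = (Icc 1 L).filter (fun k => κ * V ≤ R k) := ⟨_, rfl⟩
  rw [← hG]
  have hsplit := sum_filter_add_sum_filter_not (Icc 1 L) (fun k => κ * V ≤ R k) R
  rw [← hG] at hsplit
  have hsmall : ∑ k ∈ (Icc 1 L).filter (fun k => ¬ κ * V ≤ R k), R k ≤ κ * V * L := by
    calc ∑ k ∈ (Icc 1 L).filter (fun k => ¬ κ * V ≤ R k), R k
        ≤ ∑ k ∈ (Icc 1 L).filter (fun k => ¬ κ * V ≤ R k), κ * V := by
          apply sum_le_sum
          intro k hk
          exact (not_le.1 (mem_filter.1 hk).2).le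
      _ = (((Icc 1 L).filter (fun k => ¬ κ * V ≤ R k)).card : ℝ) * (κ * V) := by
          rw [sum_const, nsmul_eq_mul]
      _ ≤ L * (κ * V) := by
          apply mul_le_mul_of_nonneg_right _ (by positivity)
          have h1 := card_filter_le (Icc 1 L) (fun k => ¬ κ * V ≤ R k)
          rw [Nat.card_Icc, Nat.add_sub_cancel] at h1
          exact_mod_cast h1
      _ = κ * V * L := by ring
  have hGsum : κ * V * L ≤ ∑ k ∈ G, R k := by linarith
  have hRup : ∀ k ∈ G, R k ≤ C * V * CT (pat (fun _ : Fin 1 => 2 * b * k)) := by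
    intro k hk
    rw [hG, mem_filter, mem_Icc] at hk
    have h1 := hup a H hX₁ hHa (2 * b * k) (Nat.mul_pos (by omega) hk.1.1) ⟨b * k, by ring⟩
    rw [← hℓ, ← hV] at h1
    have h2 : R k ≤ (((Ioc a (a + H)).filter (fun n => n.Prime ∧ (n + 2 * b * k).Prime)).card : ℝ) := by
      rw [hR]
      refine Nat.cast_le.2 (card_le_card fun p hp => ?_)
      rw [mem_filter] at hp ⊢
      exact ⟨hQ hp.1, hQp p hp.1, hQp _ hp.2⟩
    calc R k ≤ _ := h2
      _ ≤ _ := h1
      _ = _ := by ring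
  have h3 : κ * V * L ≤ C * V * ∑ k ∈ G, CT (pat (fun _ : Fin 1 => 2 * b * k)) := by
    refine hGsum.trans ?_
    rw [mul_sum]
    exact sum_le_sum hRup
  have h4 : κ * L ≤ C * ∑ k ∈ G, CT (pat (fun _ : Fin 1 => 2 * b * k)) := by
    have h5 : V * (κ * L) ≤ V * (C * ∑ k ∈ G, CT (pat (fun _ : Fin 1 => 2 * b * k))) := by
      calc V * (κ * L) = κ * V * L := by ring
        _ ≤ _ := h3
        _ = _ := by ring
    exact le_of_mul_le_mul_left h5 hV0
  have h5 : (∑ k ∈ G, CT (pat (fun _ : Fin 1 => 2 * b * k))) ^ 2 ≤ G.card * (C₃ * L) := by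
    refine sq_sum_le_card_mul_sum_sq.trans ?_
    apply mul_le_mul_of_nonneg_left _ (Nat.cast_nonneg _)
    refine le_trans ?_ (hmom L hL1)
    apply sum_le_sum_of_subset_of_nonneg
    · rw [hG]; exact filter_subset _ _
    · intro k _ _
      positivity
  have h6 : (κ * L) ^ 2 ≤ C ^ 2 * (G.card * (C₃ * L)) := by
    calc (κ * L) ^ 2 ≤ (C * ∑ k ∈ G, CT (pat (fun _ : Fin 1 => 2 * b * k))) ^ 2 :=
          pow_le_pow_left₀ (by positivity) h4 2
      _ = C ^ 2 * (∑ k ∈ G, CT (pat (fun _ : Fin 1 => 2 * b * k))) ^ 2 := by ring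
      _ ≤ _ := by gcongr
  have h7 : L * (κ ^ 2 * L) ≤ L * (C ^ 2 * C₃ * G.card) := by
    calc L * (κ ^ 2 * L) = (κ * L) ^ 2 := by ring
      _ ≤ _ := h6
      _ = _ := by ring
  have h8 := le_of_mul_le_mul_left h7 hL0
  rw [div_mul_eq_mul_div, div_le_iff₀ (by positivity)]
  linarith

end Pool.Agent.U455.PCW
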