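import Mathlib
import Pool.Agent.U455.PCW
import Pool.Agent.U455.BTG

/-!
# Gaps between consecutive elements of sets of primes of positive relative density in intervals
-/

set_option autoImplicit false

namespace Pool.Agent.U455.CGW

open Finset Filter
open Pool.Agent.U455.PCW (up2 mom2)
open Pool.Agent.R527.LV (ps pat)
open Pool.Agent.H387R2.Uni (CT nuT CT_nonneg)

/-- the elements `q` of `Q` for which `q + g` is the next element of `Q` -/
def Nx (Q : Finset ℕ) (g q : ℕ) : Prop := q + g ∈ Q ∧ ∀ r ∈ Q, q < r → q + g ≤ r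

open Classical in
/-- few long gaps -/
theorem gaps_sum (Q : Finset ℕ) (a H m : ℕ) (hQ : Q ⊆ Ioc a (a + H)) :
    Q.card ≤ 1 + H / (m + 1) + ∑ g ∈ Icc 1 m, (Q.filter (Nx Q g)).card := by
  obtain ⟨B, hB⟩ : ∃ B, B = Q.filter (fun q => (∃ r ∈ Q, q < r) ∧ ∀ r ∈ Q, q < r → q + m < r) := ⟨_, rfl⟩
  have hBc : B.card ≤ H / (m + 1) := by
    rw [Nat.le_div_iff_mul_le (by omega)]
    have h1 : (B ×ˢ range (m + 1)).card ≤ (Ioc a (a + H)).card := by
      apply card_le_card_of_injOn (fun x => x.1 + 1 + x.2)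
      · intro x hx
        rw [mem_coe, mem_product, mem_range, hB, mem_filter] at hx
        obtain ⟨⟨h2, ⟨r, hr, hqr⟩, h3⟩, h4⟩ := hx
        have h5 := h3 r hr hqr
        have h6 := mem_Ioc.1 (hQ hr)
        have h7 := mem_Ioc.1 (hQ h2)
        rw [mem_coe, mem_Ioc]
        show a < x.1 + 1 + x.2 ∧ x.1 + 1 + x.2 ≤ a + H
        omega
      · intro x hx y hy hxy
        rw [mem_coe, mem_product, mem_range, hB, mem_filter] at hx hy
        obtain ⟨⟨h2, -, h3⟩, h4⟩ := hx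
        obtain ⟨⟨g2, -, g3⟩, g4⟩ := hy
        have hxy' : x.1 + 1 + x.2 = y.1 + 1 + y.2 := hxy
        rcases lt_trichotomy x.1 y.1 with h5 | h5 | h5
        · have := h3 _ g2 h5
          omega
        · exact Prod.ext h5 (by omega)
        · have := g3 _ h2 h5
          omega
    rw [card_product, card_range, Nat.card_Ioc, Nat.add_sub_cancel_left] at h1
    exact h1
  have hsub : Q ⊆ (Q.filter (fun q => ∀ r ∈ Q, r ≤ q) ∪ B) ∪ (Icc 1 m).biUnion (fun g => Q.filter (Nx Q g)) := by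
    intro q hq
    rw [mem_union, mem_union, mem_filter, hB, mem_filter, mem_biUnion]
    by_cases h1 : ∀ r ∈ Q, r ≤ q
    · exact Or.inl (Or.inl ⟨hq, h1⟩)
    push Not at h1
    by_cases h2 : ∀ r ∈ Q, q < r → q + m < r
    · exact Or.inl (Or.inr ⟨hq, h1, h2⟩)
    push Not at h2
    obtain ⟨r, hr, hqr, hrm⟩ := h2
    refine Or.inr ?_
    obtain ⟨s, hs, hsmin⟩ := exists_min_image (Q.filter (fun r => q < r)) id ⟨r, mem_filter.2 ⟨hr, hqr⟩⟩
    rw [mem_filter] at hs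
    have hsr : s ≤ r := hsmin r (mem_filter.2 ⟨hr, hqr⟩)
    refine ⟨s - q, mem_Icc.2 ⟨by omega, by omega⟩, mem_filter.2 ⟨hq, ?_, ?_⟩⟩
    · rw [show q + (s - q) = s by omega]
      exact hs.1
    · intro r' hr' hqr'
      have := hsmin r' (mem_filter.2 ⟨hr', hqr'⟩)
      have h3 : s ≤ r' := this
      omega
  have h1 : (Q.filter (fun q => ∀ r ∈ Q, r ≤ q)).card ≤ 1 := by
    rw [card_le_one]
    intro x hx y hy
    rw [mem_filter] at hx hy
    exact le_antisymm (hy.2 x hx.1) (hx.2 y hy.1)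
  have h2 := card_le_card hsub
  have h3 := card_union_le (Q.filter (fun q => ∀ r ∈ Q, r ≤ q) ∪ B) ((Icc 1 m).biUnion (fun g => Q.filter (Nx Q g)))
  have h4 := card_union_le (Q.filter (fun q => ∀ r ∈ Q, r ≤ q)) B
  have h5 : ((Icc 1 m).biUnion (fun g => Q.filter (Nx Q g))).card ≤ ∑ g ∈ Icc 1 m, (Q.filter (Nx Q g)).card :=
    card_biUnion_le
  omega

open Classical in
/-- the popular values -/
theorem core (b : ℕ) (hb : 1 ≤ b) (κ : ℝ) (hκ0 : 0 < κ) : ∃ ρ : ℝ, 0 < ρ ∧ ∃ X₀ : ℕ,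
    ∀ a H : ℕ, X₀ ≤ H → H ≤ a → ∀ (R : ℕ → ℝ) (L : ℕ), 1 ≤ L →
      (∀ k ∈ Icc 1 L, R k ≤ (((Ioc a (a + H)).filter (fun n => n.Prime ∧ (n + 2 * b * k).Prime)).card : ℝ)) →
      2 * κ * (H / Real.log H ^ 2) * L ≤ ∑ k ∈ Icc 1 L, R k →
      ρ * L ≤ (((Icc 1 L).filter (fun k => κ * (H / Real.log H ^ 2) ≤ R k)).card : ℝ) := by
  obtain ⟨C, hC, X₁, hup⟩ := up2
  obtain ⟨C₃, hC₃, hmom⟩ := mom2 b hb
  refine ⟨κ ^ 2 / (C ^ 2 * C₃), by positivity, max X₁ 3, fun a H hH hHa R L hL1 hRup' hsum => ?_⟩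
  have hX₁ : X₁ ≤ H := (le_max_left _ _).trans hH
  have hH3 : 3 ≤ H := (le_max_right _ _).trans hH
  have hHR : (3 : ℝ) ≤ H := by exact_mod_cast hH3
  have hlog1 : 1 < Real.log H := by
    rw [Real.lt_log_iff_exp_lt (by linarith)]
    have := Real.exp_one_lt_d9
    linarith
  obtain ⟨ℓ, hℓ⟩ : ∃ ℓ : ℝ, ℓ = Real.log H := ⟨_, rfl⟩
  rw [← hℓ] at hlog1 hsum ⊢
  have hℓ0 : 0 < ℓ := by linarith
  have hL0 : (0 : ℝ) < L := by exact_mod_cast hL1
  have hH0 : (0 : ℝ) < H := by linarith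
  obtain ⟨V, hV⟩ : ∃ V : ℝ, V = H / ℓ ^ 2 := ⟨_, rfl⟩
  rw [← hV] at hsum ⊢
  have hV0 : 0 < V := by rw [hV]; positivity
  obtain ⟨G, hG⟩ : ∃ G, G = (Icc 1 L).filter (fun k => κ * V ≤ R k) := ⟨_, rfl⟩
  rw [← hG]
  have hsplit := sum_filter_add_sum_filter_not (Icc 1 L) (fun k => κ * V ≤ R k) R
  rw [← hG] at hsplit
  have hsmall : ∑ k ∈ (Icc 1 L).filter (fun k => ¬ κ * V ≤ R k), R k ≤ κ * V * L := by
    calc ∑ k ∈ (Icc 1 L).filter (fun k => ¬ κ * V ≤ R k), R k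
        ≤ ∑ k ∈ (Icc 1 L).filter (fun k => ¬ κ * V ≤ R k), κ * V := by
          apply sum_le_sum
          intro k hk
          exact (not_le.1 (mem_filter.1 hk).2).le
      _ = (((Icc 1 L).filter (fun k => ¬ κ * V ≤ R k)).card : ℝ) * (κ * V) := by
          rw [sum_const, nsmul_eq_mul]
      _ ≤ L * (κ * V) := by
          apply mul_le_mul_of_nonneg_right _ (by positivity)
          have h1 := card_filter_le (Icc 1 L) (fun k => ¬ κ * V ≤ R k)
          rw [Nat.card_Icc, Nat.add_sub_cancel] at h1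
          exact_mod_cast h1
      _ = κ * V * L := by ring
  have hGsum : κ * V * L ≤ ∑ k ∈ G, R k := by linarith
  have hRup : ∀ k ∈ G, R k ≤ C * V * CT (pat (fun _ : Fin 1 => 2 * b * k)) := by
    intro k hk
    rw [hG, mem_filter] at hk
    have hk1 := mem_Icc.1 hk.1
    have h1 := hup a H hX₁ hHa (2 * b * k) (Nat.mul_pos (by omega) hk1.1) ⟨b * k, by ring⟩
    rw [← hℓ, ← hV] at h1
    calc R k ≤ _ := hRup' k hk.1
      _ ≤ _ := h1
      _ = _ := by ring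
  have h3 : κ * V * L ≤ C * V * ∑ k ∈ G, CT (pat (fun _ : Fin 1 => 2 * b * k)) := by
    refine hGsum.trans ?_
    rw [mul_sum]
    exact sum_le_sum hRup
  have h4 : κ * L ≤ C * ∑ k ∈ G, CT (pat (fun _ : Fin 1 => 2 * b * k)) := by
    have h5 : V * (κ * L) ≤ V * (C * ∑ k ∈ G, CT (pat (fun _ : Fin 1 => 2 * b * k))) := by
      calc V * (κ * L) = κ * V * L := by ring
        _ ≤ _ := h3
        _ = _ := by ring
    exact le_of_mul_le_mul_left h5 hV0
  have h5 : (∑ k ∈ G, CT (pat (fun _ : Fin 1 => 2 * b * k))) ^ 2 ≤ G.card * (C₃ * L) := by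
    refine sq_sum_le_card_mul_sum_sq.trans ?_
    apply mul_le_mul_of_nonneg_left _ (Nat.cast_nonneg _)
    refine le_trans ?_ (hmom L hL1)
    apply sum_le_sum_of_subset_of_nonneg
    · rw [hG]; exact filter_subset _ _
    · intro k _ _
      positivity
  have h6 : (κ * L) ^ 2 ≤ C ^ 2 * (G.card * (C₃ * L)) := by
    calc (κ * L) ^ 2 ≤ (C * ∑ k ∈ G, CT (pat (fun _ : Fin 1 => 2 * b * k))) ^ 2 :=
          pow_le_pow_left₀ (by positivity) h4 2
      _ = C ^ 2 * (∑ k ∈ G, CT (pat (fun _ : Fin 1 => 2 * b * k))) ^ 2 := by ring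
      _ ≤ _ := by gcongr
  have h7 : L * (κ ^ 2 * L) ≤ L * (C ^ 2 * C₃ * G.card) := by
    calc L * (κ ^ 2 * L) = (κ * L) ^ 2 := by ring
      _ ≤ _ := h6
      _ = _ := by ring
  have h8 := le_of_mul_le_mul_left h7 hL0
  rw [div_mul_eq_mul_div, div_le_iff₀ (by positivity)]
  linarith

open Classical in
/-- **A positive proportion of all gaps up to a multiple of the logarithm is popular** -/
theorem pop (δ : ℝ) (hδ : 0 < δ) : ∃ κ ρ K : ℝ, 0 < κ ∧ 0 < ρ ∧ 0 < K ∧ ∃ X₀ : ℕ,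
    ∀ a H : ℕ, X₀ ≤ H → H ≤ a → ∀ Q : Finset ℕ, Q ⊆ Ioc a (a + H) → (∀ p ∈ Q, p.Prime) →
      δ * (H / Real.log H) ≤ Q.card → ∀ L : ℕ, K * Real.log H ≤ L → (L : ℝ) ≤ 2 * (K * Real.log H) →
      ρ * L ≤ (((Icc 1 L).filter (fun k => κ * (H / Real.log H ^ 2) ≤
        ((Q.filter (Nx Q (2 * k))).card : ℝ))).card : ℝ) := by
  obtain ⟨K, hK⟩ : ∃ K : ℝ, K = 2 / δ := ⟨_, rfl⟩
  have hK0 : 0 < K := by rw [hK]; positivity
  obtain ⟨κ, hκ⟩ : ∃ κ : ℝ, κ = δ / (8 * K) := ⟨_, rfl⟩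
  have hκ0 : 0 < κ := by rw [hκ]; positivity
  obtain ⟨ρ, hρ, X₁, hcore⟩ := core 1 le_rfl κ hκ0
  -- `H / log H` is large
  have hlim : Tendsto (fun H : ℕ => (H : ℝ) / Real.log H) atTop atTop := by
    have h1 : Tendsto (fun x : ℝ => x / Real.log x) atTop atTop := by
      have h2 : Tendsto (fun y : ℝ => Real.exp y / y ^ 1) atTop atTop := Real.tendsto_exp_div_pow_atTop 1
      have h3 := h2.comp Real.tendsto_log_atTop
      refine h3.congr' ?_
      filter_upwards [eventually_gt_atTop (0 : ℝ)] with x hx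
      simp [Real.exp_log hx]
    exact h1.comp tendsto_natCast_atTop_atTop
  obtain ⟨X₂, hX₂⟩ := eventually_atTop.1 (hlim.eventually_ge_atTop (4 / δ))
  refine ⟨κ, ρ, K, hκ0, hρ, hK0, max X₁ (max X₂ 3), fun a H hH hHa Q hQ hQp hQc L hL1 hL2 => ?_⟩
  have hX₁ : X₁ ≤ H := (le_max_left _ _).trans hH
  have hX₂' : X₂ ≤ H := (le_max_left _ _).trans ((le_max_right _ _).trans hH)
  have hH3 : 3 ≤ H := (le_max_right _ _).trans ((le_max_right _ _).trans hH)
  have hbig := hX₂ H hX₂'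
  have hHR : (3 : ℝ) ≤ H := by exact_mod_cast hH3
  have hlog1 : 1 < Real.log H := by
    rw [Real.lt_log_iff_exp_lt (by linarith)]
    have := Real.exp_one_lt_d9
    linarith
  have hlog0 : 0 < Real.log (H : ℝ) := by linarith
  have hH0 : (0 : ℝ) < H := by linarith
  have hL0 : (0 : ℝ) < L := lt_of_lt_of_le (by positivity) hL1
  have hL1' : 1 ≤ L := by exact_mod_cast hL0
  have hodd : ∀ q ∈ Q, q % 2 = 1 := by
    intro q hq
    have h1 := mem_Ioc.1 (hQ hq)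
    rcases (hQp q hq).eq_two_or_odd with h2 | h2
    · omega
    · exact h2
  refine hcore a H hX₁ hHa (fun k => ((Q.filter (Nx Q (2 * k))).card : ℝ)) L hL1' ?_ ?_
  · intro k _
    refine Nat.cast_le.2 (card_le_card fun q hq => ?_)
    rw [mem_filter] at hq ⊢
    rw [mul_one]
    exact ⟨hQ hq.1, hQp q hq.1, hQp _ hq.2.1⟩
  · -- the sum over all gaps
    have h1 := gaps_sum Q a H (2 * L) hQ
    have h2 : ∑ g ∈ Icc 1 (2 * L), (Q.filter (Nx Q g)).card = ∑ k ∈ Icc 1 L, (Q.filter (Nx Q (2 * k))).card := by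
      rw [← sum_image (s := Icc 1 L) (g := fun k => 2 * k) (f := fun g => (Q.filter (Nx Q g)).card) (by
        intro x _ y _ hxy
        have : 2 * x = 2 * y := hxy
        omega)]
      symm
      apply sum_subset
      · intro g hg
        obtain ⟨k, hk, rfl⟩ := mem_image.1 hg
        rw [mem_Icc] at hk ⊢
        show 1 ≤ 2 * k ∧ 2 * k ≤ 2 * L
        omega
      · intro g hg hg'
        rw [card_eq_zero, filter_eq_empty_iff]
        intro q hq hN
        have e1 := hodd q hq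
        have e2 := hodd _ hN.1
        apply hg'
        rw [mem_image]
        rw [mem_Icc] at hg
        refine ⟨g / 2, mem_Icc.2 ⟨by omega, by omega⟩, ?_⟩
        show 2 * (g / 2) = g
        omega
    rw [h2] at h1
    have h3 : (Q.card : ℝ) ≤ 1 + ((H / (2 * L + 1) : ℕ) : ℝ) +
        ∑ k ∈ Icc 1 L, ((Q.filter (Nx Q (2 * k))).card : ℝ) := by exact_mod_cast h1
    have h4 : ((H / (2 * L + 1) : ℕ) : ℝ) ≤ (H : ℝ) / ((2 * L + 1 : ℕ) : ℝ) := Nat.cast_div_le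
    have h5 : (H : ℝ) / ((2 * L + 1 : ℕ) : ℝ) ≤ δ / 4 * (H / Real.log H) := by
      have h6 : 2 * (K * Real.log H) ≤ ((2 * L + 1 : ℕ) : ℝ) := by
        push_cast
        linarith
      calc (H : ℝ) / ((2 * L + 1 : ℕ) : ℝ) ≤ H / (2 * (K * Real.log H)) := by gcongr
        _ = δ / 4 * (H / Real.log H) := by
            rw [hK]
            field_simp
            norm_num
    have h6 : 1 ≤ δ / 4 * (H / Real.log H) := by
      calc (1 : ℝ) = δ / 4 * (4 / δ) := by field_simp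
        _ ≤ _ := by gcongr
    have h7 : δ / 2 * (H / Real.log H) ≤ ∑ k ∈ Icc 1 L, ((Q.filter (Nx Q (2 * k))).card : ℝ) := by linarith
    refine le_trans ?_ h7
    calc 2 * κ * (H / Real.log H ^ 2) * L ≤ 2 * κ * (H / Real.log H ^ 2) * (2 * (K * Real.log H)) := by gcongr
      _ = δ / 2 * (H / Real.log H) := by
          rw [hκ]
          field_simp
          norm_num

/-- sums of `j` elements of the progression of sums -/
theorem comb (A : ℕ → Prop) (h s d L : ℕ) (hap : ∀ n ≤ L, ∃ l : List ℕ, l.length ≤ h ∧ (∀ y ∈ l, A y) ∧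
    l.sum = s + d * n) : ∀ j n : ℕ, n ≤ j * L → ∃ l : List ℕ, l.length ≤ j * h ∧ (∀ y ∈ l, A y) ∧
    l.sum = j * s + d * n := by
  intro j
  induction j with
  | zero =>
    intro n hn
    have : n = 0 := by omega
    subst this
    exact ⟨[], by simp, by simp, by simp⟩
  | succ j ih =>
    intro n hn
    obtain ⟨m, hm⟩ : ∃ m, m = min n L := ⟨_, rfl⟩
    have hmL : m ≤ L := by rw [hm]; exact min_le_right _ _
    have hmn : m ≤ n := by rw [hm]; exact min_le_left _ _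
    have hnm : n - m ≤ j * L := by
      rw [add_mul, one_mul] at hn
      rcases Nat.le_total n L with h1 | h1
      · have : m = n := by rw [hm]; exact min_eq_left h1
        omega
      · have : m = L := by rw [hm]; exact min_eq_right h1
        omega
    obtain ⟨l, h1, h2, h3⟩ := hap m hmL
    obtain ⟨l', h1', h2', h3'⟩ := ih (n - m) hnm
    refine ⟨l ++ l', ?_, ?_, ?_⟩
    · rw [List.length_append, add_mul, one_mul]
      omega
    · intro y hy
      rcases List.mem_append.1 hy with h | h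
      · exact h2 y h
      · exact h2' y h
    · rw [List.sum_append, h3, h3']
      obtain ⟨e, rfl⟩ : ∃ e, n = m + e := ⟨n - m, by omega⟩
      rw [Nat.add_sub_cancel_left]
      ring

open Classical in
/-- **All multiples of a number are economical sums of popular gaps.** -/
theorem main (δ : ℝ) (hδ : 0 < δ) : ∃ h M : ℕ, 1 ≤ M ∧ ∃ κ K : ℝ, 0 < κ ∧ 0 < K ∧ ∃ X₀ : ℕ,
    ∀ a H : ℕ, X₀ ≤ H → H ≤ a → ∀ Q : Finset ℕ, Q ⊆ Ioc a (a + H) → (∀ p ∈ Q, p.Prime) →
      δ * (H / Real.log H) ≤ Q.card → ∀ t : ℕ, M ∣ t → K * Real.log H ≤ t →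
      ∃ l : List ℕ, l.length * Real.log H ≤ h * t ∧ l.sum = t ∧ ∀ g ∈ l, 1 ≤ g ∧ g ≤ K * Real.log H ∧
        κ * (H / Real.log H ^ 2) ≤ ((Q.filter (Nx Q g)).card : ℝ) := by
  obtain ⟨κ, ρ, K₁, hκ, hρ, hK₁, X₁, hpop⟩ := pop δ hδ
  obtain ⟨D, hD⟩ : ∃ D : ℕ, 1 / ((D : ℝ) + 1) < ρ := exists_nat_one_div_lt hρ
  obtain ⟨D', hD'⟩ : ∃ D', D' = max D 1 := ⟨_, rfl⟩
  have hD1 : 1 ≤ D' := by rw [hD']; exact le_max_right _ _
  have hDρ : 1 / ((D' : ℝ) + 1) < ρ := by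
    refine lt_of_le_of_lt ?_ hD
    apply one_div_le_one_div_of_le (by positivity)
    have : (D : ℝ) ≤ D' := by rw [hD']; exact_mod_cast le_max_left _ _
    linarith
  obtain ⟨h₁, N₁, hloc⟩ := BTG.local_ap D' hD1 ρ hDρ
  obtain ⟨K, hK⟩ : ∃ K : ℝ, K = max K₁ 1 := ⟨_, rfl⟩
  have hlim : Tendsto (fun H : ℕ => K₁ * Real.log (H : ℝ)) atTop atTop :=
    (Real.tendsto_log_atTop.comp tendsto_natCast_atTop_atTop).const_mul_atTop hK₁
  obtain ⟨X₃, hX₃⟩ := eventually_atTop.1 (hlim.eventually_ge_atTop (max (N₁ : ℝ) 1))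
  obtain ⟨h₂, hh₂⟩ := exists_nat_ge (1 / K₁)
  obtain ⟨W, hW⟩ : ∃ W : ℕ, W = (h₁ + 1) * (h₁ + D') := ⟨_, rfl⟩
  refine ⟨h₁ * h₂, 2 * D'.factorial, Nat.mul_pos (by norm_num) (Nat.factorial_pos _), κ,
    4 * (W + 1) * K₁, hκ, by positivity, max X₁ X₃, fun a H hH hHa Q hQ hQp hQc t hMt htK => ?_⟩
  have hX₁ : X₁ ≤ H := (le_max_left _ _).trans hH
  have hX₃' : X₃ ≤ H := (le_max_right _ _).trans hH
  have hKl := hX₃ H hX₃'
  have hKl1 : (N₁ : ℝ) ≤ K₁ * Real.log H := (le_max_left _ _).trans hKl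
  have hKl2 : 1 ≤ K₁ * Real.log H := (le_max_right _ _).trans hKl
  have hlog : 0 ≤ Real.log (H : ℝ) := Real.log_natCast_nonneg H
  obtain ⟨L, hL⟩ : ∃ L, L = ⌈K₁ * Real.log H⌉₊ := ⟨_, rfl⟩
  have hL1 : K₁ * Real.log H ≤ L := by rw [hL]; exact Nat.le_ceil _
  have hL2 : (L : ℝ) ≤ 2 * (K₁ * Real.log H) := by
    have : (L : ℝ) < K₁ * Real.log H + 1 := by rw [hL]; exact Nat.ceil_lt_add_one (by linarith)
    linarith
  have hL0 : N₁ ≤ L := by
    have : (N₁ : ℝ) ≤ L := hKl1.trans hL1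
    exact_mod_cast this
  have hLpos : 1 ≤ L := by
    have : (1 : ℝ) ≤ L := hKl2.trans hL1
    exact_mod_cast this
  have hdens := hpop a H hX₁ hHa Q hQ hQp hQc L hL1 hL2
  obtain ⟨A, hA⟩ : ∃ A : ℕ → Prop, A = fun k => κ * (H / Real.log H ^ 2) ≤
    ((Q.filter (Nx Q (2 * k))).card : ℝ) ∧ 1 ≤ k ∧ k ≤ L := ⟨_, rfl⟩
  obtain ⟨d, s, hd, hds, hs, hap⟩ := hloc A L hL0 (by
      refine hdens.trans (Nat.cast_le.2 (card_le_card fun k hk => ?_))
      rw [mem_filter] at hk ⊢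
      refine ⟨hk.1, ?_⟩
      rw [hA]
      exact ⟨hk.2, (mem_Icc.1 hk.1).1, (mem_Icc.1 hk.1).2⟩)
  obtain ⟨u, hu⟩ := hMt
  obtain ⟨t', ht'⟩ : ∃ t', t' = D'.factorial * u := ⟨_, rfl⟩
  have htt' : t = 2 * t' := by rw [hu, ht']; ring
  have hdt : d ∣ t' := by rw [ht']; exact (Nat.dvd_factorial (by omega) hd.2).mul_right _
  -- the size of `t'`
  have htW : (W + 1) * L ≤ t' := by
    have h1 : (t : ℝ) = 2 * (t' : ℝ) := by rw [htt']; push_cast; ring
    have h2 : (((W + 1) * L : ℕ) : ℝ) ≤ (t' : ℝ) := by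
      rw [h1] at htK
      have hW0 : (0 : ℝ) ≤ (W : ℝ) + 1 := by positivity
      have h3 := mul_le_mul_of_nonneg_left hL2 hW0
      push_cast
      nlinarith
    exact_mod_cast h2
  have hsdL : 0 < s + d * L := by
    have : 1 ≤ d * L := Nat.mul_pos hd.1 hLpos
    omega
  obtain ⟨q, hq⟩ : ∃ q, q = t' / (s + d * L) := ⟨_, rfl⟩
  have hq1 : q * (s + d * L) ≤ t' := by rw [hq]; exact Nat.div_mul_le_self _ _
  have hq2 : t' < (q + 1) * (s + d * L) := by
    rw [hq, add_mul, one_mul]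
    exact Nat.lt_div_mul_add hsdL
  have hsle : s + d * L ≤ (h₁ + D') * L := by
    rw [add_mul]
    exact Nat.add_le_add hs (Nat.mul_le_mul_right _ hd.2)
  have hqh : h₁ ≤ q := by
    rw [hq, Nat.le_div_iff_mul_le hsdL]
    calc h₁ * (s + d * L) ≤ (h₁ + 1) * ((h₁ + D') * L) := Nat.mul_le_mul (by omega) hsle
      _ = W * L := by rw [hW]; ring
      _ ≤ (W + 1) * L := Nat.mul_le_mul_right _ (by omega)
      _ ≤ t' := htW
  have hqs : (q + 1) * s ≤ t' := by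
    have h1 : s ≤ q * (d * L) := by
      calc s ≤ h₁ * L := hs
        _ ≤ q * (d * L) := Nat.mul_le_mul hqh (Nat.le_mul_of_pos_left _ hd.1)
    rw [mul_add] at hq1
    rw [add_mul, one_mul]
    omega
  obtain ⟨n, hn⟩ : d ∣ t' - (q + 1) * s := Nat.dvd_sub hdt (hds.mul_left _)
  have hnL : n ≤ (q + 1) * L := by
    have h1 : d * n < d * ((q + 1) * L) := by
      rw [← hn]
      have : d * ((q + 1) * L) = (q + 1) * (d * L) := by ring
      rw [this]
      rw [mul_add] at hq2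
      omega
    exact (lt_of_mul_lt_mul_left h1 (Nat.zero_le _)).le
  obtain ⟨l, hl1, hl2, hl3⟩ := comb A h₁ s d L hap (q + 1) n hnL
  have key : ∀ l : List ℕ, (l.map (fun y => 2 * y)).sum = 2 * l.sum := by
    intro l
    induction l with
    | nil => simp
    | cons b l ih =>
      rw [List.map_cons, List.sum_cons, ih, List.sum_cons]
      ring
  refine ⟨l.map (fun y => 2 * y), ?_, ?_, fun g hg => ?_⟩
  · -- the number of terms
    rw [List.length_map]
    have h1 : (q + 1) * L ≤ 2 * t' := by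
      have h2 : q * L ≤ q * (s + d * L) := by
        apply Nat.mul_le_mul_left
        have : L ≤ d * L := Nat.le_mul_of_pos_left _ hd.1
        omega
      have h3 : L ≤ t' := le_trans (Nat.le_mul_of_pos_left _ (by omega)) htW
      rw [add_mul, one_mul]
      omega
    have h2 : (((q + 1) * L : ℕ) : ℝ) ≤ t := by rw [htt']; exact_mod_cast h1
    have h3 : (l.length : ℝ) ≤ (((q + 1) * h₁ : ℕ) : ℝ) := by exact_mod_cast hl1
    push_cast at h2 h3 ⊢
    have h4 : Real.log H ≤ h₂ * L := by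
      have h5 : 1 ≤ K₁ * h₂ := by
        rw [div_le_iff₀ hK₁] at hh₂
        linarith
      calc Real.log H ≤ (K₁ * h₂) * Real.log H := le_mul_of_one_le_left hlog h5
        _ = h₂ * (K₁ * Real.log H) := by ring
        _ ≤ h₂ * L := by gcongr
    calc (l.length : ℝ) * Real.log H ≤ ((q + 1) * h₁) * (h₂ * L) := mul_le_mul h3 h4 hlog (by positivity)
      _ = h₁ * h₂ * ((q + 1) * L) := by ring
      _ ≤ h₁ * h₂ * t := by gcongr
  · rw [key, hl3, htt', ← hn]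
    omega
  · obtain ⟨k, hk, rfl⟩ := List.mem_map.1 hg
    have hAk := hl2 k hk
    rw [hA] at hAk
    obtain ⟨h1, h2, h3⟩ := hAk
    refine ⟨by omega, ?_, h1⟩
    have h4 : (k : ℝ) ≤ L := by exact_mod_cast h3
    push_cast
    have hW0 : (0 : ℝ) ≤ W := Nat.cast_nonneg _
    calc 2 * (k : ℝ) ≤ 2 * (2 * (K₁ * Real.log H)) := by linarith
      _ ≤ 4 * (W + 1) * K₁ * Real.log H := by nlinarith [mul_nonneg hW0 (mul_nonneg hK₁.le hlog)]

end Pool.Agent.U455.CGW
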