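import Mathlib
import Pool.Agent.U455.BTG

/-!
# Bounded sums from a scale on, for arbitrary positive density, without a hypothesis on the multiples
-/

set_option autoImplicit false

namespace Pool.Agent.U455.BTH

open Finset
open Pool.Agent.U455.BT (blocks)
open Pool.Agent.U455.BTG (local_ap)

open Classical in
/-- **Bounded sums from the scale `N` on.** -/
theorem main (D : ℕ) (hD : 1 ≤ D) (ρ : ℝ) (hρ : 1 / ((D : ℝ) + 1) < ρ) :
    ∃ h C N₀ : ℕ, ∀ (A : ℕ → Prop) (N M : ℕ), N₀ ≤ N →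
    (∀ H : ℕ, N ≤ H → H ≤ M → ρ * H ≤ (((Icc 1 H).filter A).card : ℝ)) →
    ∀ t : ℕ, D.factorial ∣ t → C * N ≤ t → t ≤ M →
      ∃ l : List ℕ, l.length ≤ h ∧ (∀ y ∈ l, A y ∧ 1 ≤ y) ∧ l.sum = t := by
  obtain ⟨h₁, N₁, hloc⟩ := local_ap D hD ρ hρ
  obtain ⟨σ, hσd⟩ : ∃ σ : ℝ, σ = ρ := ⟨_, rfl⟩
  have hσ : 0 < σ := by
    rw [hσd]
    refine lt_trans ?_ hρ
    positivity
  obtain ⟨h₂, hh₂⟩ := exists_nat_ge (1 / min σ 1)
  have hσ0 : 0 < min σ 1 := lt_min hσ one_pos
  have hσh : 1 ≤ min σ 1 * h₂ := by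
    rw [div_le_iff₀ hσ0] at hh₂
    linarith
  refine ⟨h₁ + D * (h₂ + h₂), (h₁ + 1) * (h₂ + h₂ + 1), max N₁ 1, fun A N M hN hA1 t h6 htC htM => ?_⟩
  have hN1 : N₁ ≤ N := (le_max_left _ _).trans hN
  have hN0 : 1 ≤ N := (le_max_right _ _).trans hN
  obtain ⟨N', hN'⟩ : ∃ N', N' = (h₂ + h₂ + 1) * N := ⟨_, rfl⟩
  have hNN' : N ≤ N' := by
    rw [hN']
    exact Nat.le_mul_of_pos_left _ (by omega)
  have htN' : (h₁ + 1) * N' ≤ t := by
    rw [hN', ← mul_assoc]
    exact htC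
  have hN't : N' ≤ t := (Nat.le_mul_of_pos_left _ (by omega)).trans htN'
  obtain ⟨A', hA'⟩ : ∃ A' : ℕ → Prop, A' = fun y => A y ∧ 1 ≤ y := ⟨_, rfl⟩
  have hAA' : ∀ H : ℕ, ((Icc 1 H).filter A) = ((Icc 1 H).filter A') := by
    intro H
    ext k
    rw [mem_filter, mem_filter, mem_Icc, hA']
    constructor
    · rintro ⟨h1, h2⟩
      exact ⟨h1, h2, h1.1⟩
    · rintro ⟨h1, h2⟩
      exact ⟨h1, h2.1⟩
  obtain ⟨d, s, hd, hds, hs, hap⟩ := hloc A' N' (hN1.trans hNN') (by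
    have h1 := hA1 N' hNN' (by omega)
    rw [hAA' N'] at h1
    exact h1)
  have hst : s ≤ t := hs.trans ((Nat.mul_le_mul_right _ (by omega)).trans htN')
  have hdt : d ∣ t := (Nat.dvd_factorial (by omega) hd.2).trans h6
  obtain ⟨u, hu⟩ := Nat.dvd_sub hdt hds
  have hut : t = s + d * u := by omega
  obtain ⟨j, hj⟩ : ∃ j, j = u / N := ⟨_, rfl⟩
  have hj1 : j * N ≤ u := by rw [hj]; exact Nat.div_mul_le_self _ _
  have hj2 : u < j * N + N := by
    rw [hj]
    have := Nat.lt_div_mul_add (a := u) (show 0 < N by omega)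
    omega
  obtain ⟨l, hl1, hl2, hl3, hl4⟩ := blocks (min σ 1) hσ0 (min_le_right _ _) h₂ hσh A' N j hN0
    (by
      intro i hi1 hi2
      have h1 : N ≤ i * N := Nat.le_mul_of_pos_left _ (by omega)
      have h2 : i * N ≤ j * N := Nat.mul_le_mul_right _ hi2
      have h3 : i * N ≤ M := by
        have : u ≤ d * u := Nat.le_mul_of_pos_left _ hd.1
        omega
      have h4 := hA1 (i * N) h1 h3
      rw [hAA' _, ← hσd] at h4
      refine le_trans ?_ h4
      exact mul_le_mul_of_nonneg_right (min_le_left _ _) (Nat.cast_nonneg _)) j le_rfl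
  obtain ⟨l', hl1', hl2', hl3'⟩ := hap (u - l.sum) (by
    rw [hN', add_mul, one_mul]
    omega)
  -- `d` copies of the elements of `l`
  have hrep : ∀ e : ℕ, ∃ l₂ : List ℕ, l₂.length ≤ e * l.length ∧ (∀ y ∈ l₂, A' y) ∧ l₂.sum = e * l.sum := by
    intro e
    induction e with
    | zero => exact ⟨[], by simp, by simp, by simp⟩
    | succ e ih =>
      obtain ⟨l₂, g1, g2, g3⟩ := ih
      refine ⟨l₂ ++ l, ?_, ?_, ?_⟩
      · rw [List.length_append, add_mul, one_mul]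
        omega
      · intro y hy
        rcases List.mem_append.1 hy with h | h
        · exact g2 y h
        · exact hl2 y h
      · rw [List.sum_append, g3, add_mul, one_mul]
  obtain ⟨l₂, g1, g2, g3⟩ := hrep d
  refine ⟨l' ++ l₂, ?_, ?_, ?_⟩
  · rw [List.length_append]
    have h1 : d * l.length ≤ D * (h₂ + h₂) := Nat.mul_le_mul hd.2 hl1
    omega
  · intro y hy
    have : A' y := by
      rcases List.mem_append.1 hy with h | h
      · exact hl2' y h
      · exact g2 y h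
    rw [hA'] at this
    exact this
  · rw [List.sum_append, g3, hl3', hut]
    have h1 : u = (u - l.sum) + l.sum := by omega
    calc s + d * (u - l.sum) + d * l.sum = s + d * ((u - l.sum) + l.sum) := by ring
      _ = s + d * u := by rw [← h1]

end Pool.Agent.U455.BTH
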