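import Mathlib
import Pool.Agent.U455.PCW
import Pool.Agent.U455.BTG

/-!
# Popular shapes of tuples in sets of primes of positive relative density in intervals
-/

set_option autoImplicit false

namespace Pool.Agent.U455.KTW

open Finset Filter
open Pool.Agent.H387R2.Uni (CT nuT CT_nonneg)

/-- the sets of `j + 2` integers of `[0, L)` which contain `0` -/
def shs (j L : ℕ) : Finset (Finset ℕ) := ((range L).powersetCard (j + 2)).filter (fun T => 0 ∈ T)

/-- the sets of `j + 2` integers of `[0, d]` which contain `0` and `d` -/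
def shp (j d : ℕ) : Finset (Finset ℕ) := ((range (d + 1)).powersetCard (j + 2)).filter (fun T => 0 ∈ T ∧ d ∈ T)

/-- positions -/
def pos (Q T : Finset ℕ) : Finset ℕ := Q.filter (fun p => ∀ t ∈ T, p + t ∈ Q)

/-- dilates -/
def dil (m : ℕ) (T : Finset ℕ) : Finset ℕ := T.image (fun t => m * t)

/-- tuples of elements of `Q` in short cells -/
theorem cells (Q : Finset ℕ) (a H m L j : ℕ) (hQ : Q ⊆ Ioc a (a + H)) (hm : 1 ≤ m) (hL : 1 ≤ L) (hW : m * L ≤ H)
    (hbig : 4 * (j + 1) * (H : ℝ) ≤ Q.card * L) :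
    (Q.card : ℝ) ^ (j + 2) * L ^ (j + 1) ≤ 2 ^ (2 * j + 3) * (j + 2).factorial * H ^ (j + 1) *
      ∑ T ∈ shs j L, ((pos Q (dil m T)).card : ℝ) := by
  classical
  obtain ⟨W, hWd⟩ : ∃ W, W = m * L := ⟨_, rfl⟩
  have hW1 : 1 ≤ W := by rw [hWd]; exact Nat.mul_pos hm hL
  have hH1 : 1 ≤ H := by omega
  obtain ⟨f, hf⟩ : ∃ f : ℕ → ℕ × ℕ, f = fun p => ((p - a - 1) / W, (p - a - 1) % m) := ⟨_, rfl⟩
  obtain ⟨S, hS⟩ : ∃ S : Finset (ℕ × ℕ), S = range (H / W + 1) ×ˢ range m := ⟨_, rfl⟩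
  have hfS : ∀ p ∈ Q, f p ∈ S := by
    intro p hp
    have h1 := mem_Ioc.1 (hQ hp)
    rw [hf, hS, mem_product, mem_range, mem_range]
    refine ⟨?_, Nat.mod_lt _ (by omega)⟩
    show (p - a - 1) / W < H / W + 1
    have := Nat.div_le_div_right (c := W) (show p - a - 1 ≤ H by omega)
    omega
  have hSc : S.card * L ≤ 2 * H := by
    rw [hS, card_product, card_range, card_range]
    have h1 : (H / W + 1) * m * L = (H / W) * W + W := by rw [hWd]; ring
    rw [h1]
    have h2 := Nat.div_mul_le_self H W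
    rw [← hWd] at hW
    omega
  have hS1 : 1 ≤ S.card := by
    rw [hS, card_product, card_range, card_range]
    exact Nat.mul_pos (Nat.succ_pos _) hm
  obtain ⟨n, hn⟩ : ∃ n : ℕ × ℕ → ℕ, n = fun c => (Q.filter (fun p => f p = c)).card := ⟨_, rfl⟩
  have hQn : Q.card = ∑ c ∈ S, n c := by
    rw [hn]
    exact card_eq_sum_card_fiberwise (f := f) (t := S) (fun p hp => hfS p hp)
  -- two elements of a cell
  have hcell : ∀ p ∈ Q, ∀ q ∈ Q, f p = f q → p ≤ q → m ∣ q - p ∧ q - p < m * L := by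
    intro p hp q hq hpq hle
    rw [hf] at hpq
    have h4' := Prod.mk.inj hpq
    have e1 := mem_Ioc.1 (hQ hp)
    have e2 := mem_Ioc.1 (hQ hq)
    constructor
    · have h6 : (p - a - 1) ≡ (q - a - 1) [MOD m] := h4'.2
      have h7 := (Nat.modEq_iff_dvd' (by omega)).1 h6
      have e : q - a - 1 - (p - a - 1) = q - p := by omega
      rwa [e] at h7
    · have h6 := Nat.div_add_mod (p - a - 1) W
      have h7 := Nat.div_add_mod (q - a - 1) W
      have h8 := Nat.mod_lt (q - a - 1) (show 0 < W by omega)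
      have h9 : (p - a - 1) / W = (q - a - 1) / W := h4'.1
      rw [h9] at h6
      rw [← hWd]
      omega
  -- the subsets of the cells
  obtain ⟨P, hP⟩ : ∃ P : Finset (Finset ℕ), P = S.biUnion (fun c => (Q.filter (fun p => f p = c)).powersetCard (j + 2)) :=
    ⟨_, rfl⟩
  have hPc : P.card = ∑ c ∈ S, (n c).choose (j + 2) := by
    rw [hP, card_biUnion]
    · apply sum_congr rfl
      intro c _
      rw [card_powersetCard, hn]
    · intro c _ c' _ hcc
      rw [Function.onFun, disjoint_left]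
      intro T hT hT'
      rw [mem_powersetCard] at hT hT'
      obtain ⟨x, hx⟩ := card_pos.1 (show 0 < T.card by omega)
      have h1 := (mem_filter.1 (hT.1 hx)).2
      have h2 := (mem_filter.1 (hT'.1 hx)).2
      exact hcc (h1.symm.trans h2)
  have hPmem : ∀ U ∈ P, U ⊆ Q ∧ U.card = j + 2 ∧ ∀ x ∈ U, ∀ y ∈ U, x ≤ y → m ∣ y - x ∧ y - x < m * L := by
    intro U hU
    rw [hP, mem_biUnion] at hU
    obtain ⟨c, _, hU⟩ := hU
    rw [mem_powersetCard] at hU
    refine ⟨fun x hx => (mem_filter.1 (hU.1 hx)).1, hU.2, fun x hx y hy hxy => ?_⟩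
    obtain ⟨h1, h2⟩ := mem_filter.1 (hU.1 hx)
    obtain ⟨h3, h4⟩ := mem_filter.1 (hU.1 hy)
    exact hcell x h1 y h3 (h2.trans h4.symm) hxy
  obtain ⟨mn, hmn⟩ : ∃ mn : Finset ℕ → ℕ, ∀ U ∈ P, mn U ∈ U ∧ ∀ x ∈ U, mn U ≤ x := by
    refine ⟨fun U => if h : U.Nonempty then U.min' h else 0, fun U hU => ?_⟩
    have hne : U.Nonempty := card_pos.1 (by rw [(hPmem U hU).2.1]; omega)
    simp only [hne, dite_true]
    exact ⟨min'_mem _ _, fun x hx => min'_le _ _ hx⟩
  have hback : ∀ U ∈ P, U = (U.image (fun x => (x - mn U) / m)).image (fun t => mn U + m * t) := by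
    intro U hU
    obtain ⟨h1, h2⟩ := hmn U hU
    ext x
    rw [mem_image]
    constructor
    · intro hx
      refine ⟨(x - mn U) / m, mem_image.2 ⟨x, hx, rfl⟩, ?_⟩
      have h3 := h2 x hx
      rw [Nat.mul_div_cancel' ((hPmem U hU).2.2 _ h1 x hx h3).1]
      omega
    · rintro ⟨t, ht, rfl⟩
      obtain ⟨y, hy, rfl⟩ := mem_image.1 ht
      have h3 := h2 y hy
      rw [Nat.mul_div_cancel' ((hPmem U hU).2.2 _ h1 y hy h3).1]
      rw [show mn U + (y - mn U) = y by omega]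
      exact hy
  have hPle : P.card ≤ ∑ T ∈ shs j L, (pos Q (dil m T)).card := by
    have h1 : P.card ≤ ((shs j L).sigma (fun T => pos Q (dil m T))).card := by
      apply card_le_card_of_injOn (fun U => ⟨U.image (fun x => (x - mn U) / m), mn U⟩)
      · intro U hU
        rw [mem_coe] at hU
        obtain ⟨h1, h2⟩ := hmn U hU
        obtain ⟨h3, h4, h5⟩ := hPmem U hU
        rw [mem_coe, mem_sigma]
        have hcard : (U.image (fun x => (x - mn U) / m)).card = j + 2 := by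
          rw [card_image_of_injOn, h4]
          intro x hx y hy hxy
          have e1 := h5 _ h1 x hx (h2 x hx)
          have e2 := h5 _ h1 y hy (h2 y hy)
          have e3 := Nat.mul_div_cancel' e1.1
          have e4 := Nat.mul_div_cancel' e2.1
          have hxy' : (x - mn U) / m = (y - mn U) / m := hxy
          rw [hxy', e4] at e3
          have e5 := h2 x hx
          have e6 := h2 y hy
          omega
        constructor
        · show U.image (fun x => (x - mn U) / m) ∈ shs j L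
          unfold shs
          rw [mem_filter, mem_powersetCard]
          refine ⟨⟨?_, hcard⟩, mem_image.2 ⟨mn U, h1, by simp⟩⟩
          intro t ht
          obtain ⟨x, hx, rfl⟩ := mem_image.1 ht
          rw [mem_range]
          exact Nat.div_lt_of_lt_mul (h5 _ h1 x hx (h2 x hx)).2
        · show mn U ∈ pos Q (dil m (U.image (fun x => (x - mn U) / m)))
          unfold pos dil
          rw [mem_filter]
          refine ⟨h3 h1, fun t ht => ?_⟩
          obtain ⟨s, hs, rfl⟩ := mem_image.1 ht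
          obtain ⟨x, hx, rfl⟩ := mem_image.1 hs
          have e3 := Nat.mul_div_cancel' (h5 _ h1 x hx (h2 x hx)).1
          show mn U + m * ((x - mn U) / m) ∈ Q
          rw [e3]
          have e5 := h2 x hx
          rw [show mn U + (x - mn U) = x by omega]
          exact h3 hx
      · intro U hU U' hU' he
        rw [mem_coe] at hU hU'
        obtain ⟨e1, e2⟩ := Sigma.mk.inj_iff.1 he
        have e3 : mn U = mn U' := eq_of_heq e2
        rw [hback U hU, hback U' hU', e1, e3]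
    rwa [card_sigma] at h1
  -- the power mean inequality
  have hpm : (∑ c ∈ S, ((n c - (j + 1) : ℕ) : ℝ)) ^ (j + 2) / (S.card : ℝ) ^ (j + 1) ≤
      ∑ c ∈ S, ((n c - (j + 1) : ℕ) : ℝ) ^ (j + 2) :=
    pow_sum_div_card_le_sum_pow (fun c _ => Nat.cast_nonneg _) (j + 1)
  have hchoose : ∀ c : ℕ × ℕ, ((n c - (j + 1) : ℕ) : ℝ) ^ (j + 2) ≤ (j + 2).factorial * ((n c).choose (j + 2) : ℝ) := by
    intro c
    have h1 : n c + 1 - (j + 2) = n c - (j + 1) := by omega
    have h2 : (((n c + 1 - (j + 2)) ^ (j + 2) : ℕ) : ℝ) ≤ (((n c).descFactorial (j + 2) : ℕ) : ℝ) :=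
      Nat.cast_le.2 (Nat.pow_sub_le_descFactorial _ _)
    rw [h1, Nat.descFactorial_eq_factorial_mul_choose] at h2
    push_cast at h2
    exact h2
  obtain ⟨R, hR⟩ : ∃ R : ℝ, R = ∑ T ∈ shs j L, ((pos Q (dil m T)).card : ℝ) := ⟨_, rfl⟩
  rw [← hR]
  have hsum : ∑ c ∈ S, ((n c - (j + 1) : ℕ) : ℝ) ^ (j + 2) ≤ (j + 2).factorial * R := by
    calc ∑ c ∈ S, ((n c - (j + 1) : ℕ) : ℝ) ^ (j + 2) ≤ ∑ c ∈ S, (j + 2).factorial * ((n c).choose (j + 2) : ℝ) :=
          sum_le_sum fun c _ => hchoose c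
      _ = (j + 2).factorial * (P.card : ℝ) := by rw [← mul_sum, hPc]; push_cast; rfl
      _ ≤ (j + 2).factorial * R := by
          rw [hR]
          exact mul_le_mul_of_nonneg_left (by exact_mod_cast hPle) (Nat.cast_nonneg _)
  have hH0 : (0 : ℝ) < H := by exact_mod_cast hH1
  have hL0 : (0 : ℝ) < L := by exact_mod_cast hL
  have hSL : (S.card : ℝ) * L ≤ 2 * H := by exact_mod_cast hSc
  have hS0 : (0 : ℝ) < S.card := by exact_mod_cast hS1
  have hlow : (Q.card : ℝ) / 2 ≤ ∑ c ∈ S, ((n c - (j + 1) : ℕ) : ℝ) := by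
    have h1 : (Q.card : ℝ) - (j + 1) * S.card ≤ ∑ c ∈ S, ((n c - (j + 1) : ℕ) : ℝ) := by
      rw [hQn]
      push_cast
      rw [← nsmul_eq_mul' , ← sum_const, ← sum_sub_distrib]
      apply sum_le_sum
      intro c _
      have : n c ≤ (n c - (j + 1)) + (j + 1) := by omega
      have h2 : (n c : ℝ) ≤ ((n c - (j + 1) : ℕ) : ℝ) + (j + 1) := by exact_mod_cast this
      linarith
    have h2 : ((j : ℝ) + 1) * S.card ≤ Q.card / 2 := by
      have h3 : ((j : ℝ) + 1) * S.card * L ≤ Q.card / 2 * L := by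
        have h4 : ((j : ℝ) + 1) * (S.card * L) ≤ (j + 1) * (2 * H) := mul_le_mul_of_nonneg_left hSL (by positivity)
        nlinarith
      exact le_of_mul_le_mul_right h3 hL0
    linarith
  have hfin : ((Q.card : ℝ) / 2) ^ (j + 2) / (S.card : ℝ) ^ (j + 1) ≤ (j + 2).factorial * R := by
    refine le_trans ?_ (hpm.trans hsum)
    gcongr
  rw [div_le_iff₀ (by positivity)] at hfin
  have hR0 : 0 ≤ R := by rw [hR]; positivity
  have e0 : (Q.card : ℝ) ^ (j + 2) = 2 ^ (j + 2) * ((Q.card : ℝ) / 2) ^ (j + 2) := by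
    rw [← mul_pow]
    congr 1
    ring
  calc (Q.card : ℝ) ^ (j + 2) * L ^ (j + 1) = 2 ^ (j + 2) * (((Q.card : ℝ) / 2) ^ (j + 2) * L ^ (j + 1)) := by
        rw [e0, mul_assoc]
    _ ≤ 2 ^ (j + 2) * (((j + 2).factorial * R * (S.card : ℝ) ^ (j + 1)) * L ^ (j + 1)) := by gcongr
    _ = 2 ^ (j + 2) * ((j + 2).factorial * R * ((S.card : ℝ) * L) ^ (j + 1)) := by rw [mul_pow]; ring
    _ ≤ 2 ^ (j + 2) * ((j + 2).factorial * R * (2 * H) ^ (j + 1)) := by gcongr
    _ = 2 ^ (2 * j + 3) * (j + 2).factorial * H ^ (j + 1) * R := by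
        rw [mul_pow, show 2 * j + 3 = (j + 2) + (j + 1) by ring, pow_add]
        ring

lemma dil_card {m : ℕ} (hm : 1 ≤ m) (T : Finset ℕ) : (dil m T).card = T.card := by
  unfold dil
  exact card_image_of_injective _ fun x y hxy => Nat.eq_of_mul_eq_mul_left (by omega) hxy

open Classical in
/-- the upper bound sieve for tuples in intervals -/
theorem upk (l : ℕ) : ∃ C : ℝ, 0 < C ∧ ∃ X₀ : ℕ, ∀ a H : ℕ, X₀ ≤ H → H ≤ a → ∀ T : Finset ℕ, T.card = l →
    (((Ioc a (a + H)).filter (fun n => ∀ t ∈ T, (n + t).Prime)).card : ℝ) ≤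
      C * (CT T * (H / Real.log H ^ l)) := by
  obtain ⟨C, hC, X₀, h⟩ := Pool.Agent.Y840.PT.up l
  refine ⟨C, hC, max X₀ l, fun a H hH hHa T hT => ?_⟩
  have hTc : (T.map Pool.Agent.Y840.PT.sh).card = l := by rw [card_map, hT]
  by_cases hadm : ∀ p : ℕ, p.Prime → Pool.Agent.W218.MU.w (T.map Pool.Agent.Y840.PT.sh) p < p
  · have h1 := h H a ((le_max_left _ _).trans hH) (by omega) (T.map Pool.Agent.Y840.PT.sh)
      (Pool.Agent.Y840.PT.prim_sh _) hTc hadm
    rw [Pool.Agent.Y840.PT.SL_sh] at h1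
    refine le_trans ?_ h1
    rw [Nat.cast_le]
    apply card_le_card
    intro q hq
    rw [mem_filter] at hq ⊢
    refine ⟨hq.1, fun L hL => ?_⟩
    rw [Finset.mem_map] at hL
    obtain ⟨t, ht, rfl⟩ := hL
    show (1 * q + t).Prime
    rw [one_mul]
    exact hq.2 t ht
  · push Not at hadm
    obtain ⟨p, hp, hpw⟩ := hadm
    rw [Pool.Agent.Y840.PT.w_sh _ hp.pos] at hpw
    have hempty : (Ioc a (a + H)).filter (fun n => ∀ t ∈ T, (n + t).Prime) = ∅ := by
      rw [Finset.eq_empty_iff_forall_notMem]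
      intro q hq
      rw [mem_filter, mem_Ioc] at hq
      have himg : T.image (· % p) = range p := by
        apply Finset.eq_of_subset_of_card_le
        · intro r hr
          rw [mem_image] at hr
          obtain ⟨t, _, rfl⟩ := hr
          exact mem_range.2 (Nat.mod_lt _ hp.pos)
        · rw [card_range]
          exact hpw
      have hpl : p ≤ l := by
        have h2 : (T.image (· % p)).card ≤ T.card := card_image_le
        rw [himg, card_range, hT] at h2
        exact h2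
      have h3 : (p - q % p) % p ∈ T.image (· % p) := by
        rw [himg]
        exact mem_range.2 (Nat.mod_lt _ hp.pos)
      rw [mem_image] at h3
      obtain ⟨t, ht, h4⟩ := h3
      have h5 : p ∣ q + t := by
        have h6 : q % p < p := Nat.mod_lt _ hp.pos
        rw [Nat.dvd_iff_mod_eq_zero, Nat.add_mod, h4, Nat.add_mod_mod, Nat.add_sub_cancel' h6.le, Nat.mod_self]
      have h6 := (Nat.prime_dvd_prime_iff_eq hp (hq.2 t ht)).1 h5
      have h7 := hq.1.1
      have h8 : l ≤ H := (le_max_right _ _).trans hH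
      omega
    rw [hempty, card_empty, Nat.cast_zero]
    have h1 := CT_nonneg T
    have h2 : 0 ≤ Real.log (H : ℝ) := Real.log_natCast_nonneg H
    positivity

/-- second moment of the singular series over the dilated shapes -/
theorem momk (j m : ℕ) (hm : 1 ≤ m) : ∃ C : ℝ, 0 < C ∧ ∀ L : ℕ, 1 ≤ L →
    ∑ T ∈ shs j L, CT (dil m T) ^ 2 ≤ C * L ^ (j + 1) := by
  classical
  obtain ⟨C₂, hC₂, hmom⟩ := Pool.Agent.TH891.SG.CT_mom (j + 1) 2
  refine ⟨C₂ * 2 ^ (j + 2) * m ^ (j + 1), by positivity, fun L hL => ?_⟩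
  have hmL : 1 ≤ m * L := Nat.mul_pos hm hL
  have hmL0 : (0 : ℝ) < ((m * L : ℕ) : ℝ) := by exact_mod_cast hmL
  -- translates
  have hkey : ∑ x ∈ range (m * L) ×ˢ shs j L, CT (dil m x.2) ^ 2 ≤
      ∑ T ∈ (range (2 * (m * L))).powersetCard (j + 1 + 1), CT T ^ 2 := by
    have h0 : ∀ T ∈ shs j L, T ⊆ range L ∧ T.card = j + 2 ∧ 0 ∈ T := by
      intro T hT
      unfold shs at hT
      rw [mem_filter, mem_powersetCard] at hT
      exact ⟨hT.1.1, hT.1.2, hT.2⟩
    have hinj : Set.InjOn (fun x : ℕ × Finset ℕ => (dil m x.2).image (fun t => t + x.1))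
        (range (m * L) ×ˢ shs j L : Finset (ℕ × Finset ℕ)) := by
      intro x hx y hy hxy
      rw [mem_coe, mem_product] at hx hy
      have hxy' : (dil m x.2).image (fun t => t + x.1) = (dil m y.2).image (fun t => t + y.1) := hxy
      obtain ⟨hx1, hx2, hx3⟩ := h0 _ hx.2
      obtain ⟨hy1, hy2, hy3⟩ := h0 _ hy.2
      have hmem : ∀ z : ℕ × Finset ℕ, 0 ∈ z.2 → z.1 ∈ (dil m z.2).image (fun t => t + z.1) := by
        intro z hz
        rw [mem_image]
        exact ⟨0, by unfold dil; rw [mem_image]; exact ⟨0, hz, by simp⟩, by simp⟩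
      have hle : ∀ z : ℕ × Finset ℕ, ∀ w ∈ (dil m z.2).image (fun t => t + z.1), z.1 ≤ w := by
        intro z w hw
        obtain ⟨t, _, rfl⟩ := mem_image.1 hw
        exact Nat.le_add_left _ _
      have h1 : x.1 = y.1 := by
        apply le_antisymm
        · exact hle x _ (by rw [hxy']; exact hmem y hy3)
        · exact hle y _ (by rw [← hxy']; exact hmem x hx3)
      refine Prod.ext h1 ?_
      have h2 : ∀ z w : ℕ × Finset ℕ, z.1 = w.1 →
          (dil m z.2).image (fun t => t + z.1) = (dil m w.2).image (fun t => t + w.1) → z.2 ⊆ w.2 := by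
        intro z w hzw he t ht
        have h3 : m * t + z.1 ∈ (dil m z.2).image (fun t => t + z.1) := by
          rw [mem_image]
          exact ⟨m * t, by unfold dil; exact mem_image.2 ⟨t, ht, rfl⟩, rfl⟩
        rw [he, mem_image] at h3
        obtain ⟨s, hs, hs'⟩ := h3
        unfold dil at hs
        obtain ⟨u, hu, rfl⟩ := mem_image.1 hs
        have h4 : m * u = m * t := by omega
        have h5 : u = t := Nat.eq_of_mul_eq_mul_left (by omega) h4
        rwa [← h5]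
      exact Subset.antisymm (h2 x y h1 hxy') (h2 y x h1.symm hxy'.symm)
    have h1 : ∑ x ∈ range (m * L) ×ˢ shs j L, CT (dil m x.2) ^ 2 =
        ∑ T ∈ (range (m * L) ×ˢ shs j L).image (fun x => (dil m x.2).image (fun t => t + x.1)), CT T ^ 2 := by
      rw [sum_image hinj]
      apply sum_congr rfl
      intro x _
      rw [Pool.Agent.R527.LV.CT_shift]
    rw [h1]
    apply sum_le_sum_of_subset_of_nonneg
    · intro T hT
      obtain ⟨x, hx, rfl⟩ := mem_image.1 hT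
      rw [mem_product, mem_range] at hx
      obtain ⟨hx1, hx2, hx3⟩ := h0 _ hx.2
      rw [mem_powersetCard]
      constructor
      · intro w hw
        obtain ⟨t, ht, rfl⟩ := mem_image.1 hw
        unfold dil at ht
        obtain ⟨u, hu, rfl⟩ := mem_image.1 ht
        have h2 := mem_range.1 (hx1 hu)
        rw [mem_range]
        have h3 : m * u < m * L := Nat.mul_lt_mul_of_pos_left h2 (by omega)
        omega
      · rw [card_image_of_injective _ (add_left_injective x.1), dil_card hm, hx2]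
    · intro T _ _
      positivity
  have h2 : ∑ x ∈ range (m * L) ×ˢ shs j L, CT (dil m x.2) ^ 2 =
      ((m * L : ℕ) : ℝ) * ∑ T ∈ shs j L, CT (dil m T) ^ 2 := by
    rw [sum_product]
    simp only [sum_const, card_range, nsmul_eq_mul]
  rw [h2] at hkey
  have h3 := hkey.trans (hmom (2 * (m * L)))
  have h4 : C₂ * ((2 * (m * L) : ℕ) : ℝ) ^ (j + 1 + 1) =
      ((m * L : ℕ) : ℝ) * (C₂ * 2 ^ (j + 2) * m ^ (j + 1) * L ^ (j + 1)) := by
    push_cast
    rw [mul_pow, show j + 1 + 1 = j + 2 by ring, show ((m : ℝ) * L) ^ (j + 2) = (m * L) * (m * L) ^ (j + 1) by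
      rw [pow_succ' ((m : ℝ) * L) (j + 1)], mul_pow (m : ℝ)]
    ring
  rw [h4] at h3
  exact le_of_mul_le_mul_left h3 hmL0

lemma shs_card (j L : ℕ) : ((shs j L).card : ℝ) ≤ (L : ℝ) ^ (j + 1) := by
  classical
  have h1 : (shs j L).card ≤ ((range L).powersetCard (j + 1)).card := by
    apply card_le_card_of_injOn (fun T => T.erase 0)
    · intro T hT
      unfold shs at hT
      rw [mem_coe, mem_filter, mem_powersetCard] at hT
      rw [mem_coe, mem_powersetCard]
      refine ⟨(erase_subset _ _).trans hT.1.1, ?_⟩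
      rw [card_erase_of_mem hT.2, hT.1.2]
      omega
    · intro T hT T' hT' he
      unfold shs at hT hT'
      rw [mem_coe, mem_filter] at hT hT'
      rw [← insert_erase hT.2, ← insert_erase hT'.2]
      exact congrArg _ he
  rw [card_powersetCard, card_range] at h1
  exact_mod_cast h1.trans (Nat.choose_le_pow _ _)

open Classical in
/-- **A positive proportion of all shapes is popular** -/
theorem popular (j : ℕ) (δ : ℝ) (hδ : 0 < δ) (m : ℕ) (hm : 1 ≤ m) : ∃ κ ρ K : ℝ, 0 < κ ∧ 0 < ρ ∧ 0 < K ∧ ∃ X₀ : ℕ,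
    ∀ a H : ℕ, X₀ ≤ H → H ≤ a → ∀ Q : Finset ℕ, Q ⊆ Ioc a (a + H) → (∀ p ∈ Q, p.Prime) →
      δ * (H / Real.log H) ≤ Q.card → ∀ L : ℕ, K * Real.log H ≤ L → m * L ≤ H →
      ρ * L ^ (j + 1) ≤ (((shs j L).filter (fun T => κ * (H / Real.log H ^ (j + 2)) ≤
        ((pos Q (dil m T)).card : ℝ))).card : ℝ) := by
  obtain ⟨C, hC, X₁, hup⟩ := upk (j + 2)
  obtain ⟨C₃, hC₃, hmom⟩ := momk j m hm
  obtain ⟨B, hB⟩ : ∃ B : ℝ, B = 2 ^ (2 * j + 3) * (j + 2).factorial := ⟨_, rfl⟩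
  have hB0 : 0 < B := by rw [hB]; positivity
  obtain ⟨κ, hκ⟩ : ∃ κ : ℝ, κ = δ ^ (j + 2) / (2 * B) := ⟨_, rfl⟩
  have hκ0 : 0 < κ := by rw [hκ]; positivity
  refine ⟨κ, κ ^ 2 / (C ^ 2 * C₃), 4 * (j + 1) / δ + 1, hκ0, by positivity, by positivity, max X₁ 3,
    fun a H hH hHa Q hQ hQp hQc L hL hLH => ?_⟩
  have hX₁ : X₁ ≤ H := (le_max_left _ _).trans hH
  have hH3 : 3 ≤ H := (le_max_right _ _).trans hH
  have hHR : (3 : ℝ) ≤ H := by exact_mod_cast hH3
  have hlog1 : 1 < Real.log H := by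
    rw [Real.lt_log_iff_exp_lt (by linarith)]
    have := Real.exp_one_lt_d9
    linarith
  obtain ⟨ℓ, hℓ⟩ : ∃ ℓ : ℝ, ℓ = Real.log H := ⟨_, rfl⟩
  rw [← hℓ] at hQc hL hlog1 ⊢
  have hℓ0 : 0 < ℓ := by linarith
  have hL1R : 1 < (L : ℝ) := by
    have : 0 < 4 * ((j : ℝ) + 1) / δ := by positivity
    nlinarith
  have hL1 : 1 ≤ L := by
    have : (1 : ℝ) ≤ L := hL1R.le
    exact_mod_cast this
  have hL0 : (0 : ℝ) < L := by linarith
  have hH0 : (0 : ℝ) < H := by linarith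
  have hbig : 4 * (j + 1) * (H : ℝ) ≤ Q.card * L := by
    have h1 : δ * (H / ℓ) * ((4 * (j + 1) / δ + 1) * ℓ) ≤ Q.card * L :=
      mul_le_mul hQc hL (by positivity) (by positivity)
    have h2 : δ * (H / ℓ) * ((4 * (j + 1) / δ + 1) * ℓ) = 4 * (j + 1) * H + δ * H := by field_simp
    rw [h2] at h1
    nlinarith
  have hcell := cells Q a H m L j hQ hm hL1 hLH hbig
  rw [← hB] at hcell
  obtain ⟨V, hV⟩ : ∃ V : ℝ, V = H / ℓ ^ (j + 2) := ⟨_, rfl⟩
  rw [← hV]
  have hV0 : 0 < V := by rw [hV]; positivity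
  obtain ⟨R, hR⟩ : ∃ R : Finset ℕ → ℝ, R = fun T => ((pos Q (dil m T)).card : ℝ) := ⟨_, rfl⟩
  have hRk : ∀ T, ((pos Q (dil m T)).card : ℝ) = R T := fun T => by rw [hR]
  simp only [hRk] at hcell ⊢
  obtain ⟨E, hE⟩ : ∃ E : ℝ, E = (L : ℝ) ^ (j + 1) := ⟨_, rfl⟩
  rw [← hE] at hcell ⊢
  have hE0 : 0 < E := by rw [hE]; positivity
  have hsum : 2 * κ * V * E ≤ ∑ T ∈ shs j L, R T := by
    have h1 : (δ * (H / ℓ)) ^ (j + 2) ≤ (Q.card : ℝ) ^ (j + 2) := pow_le_pow_left₀ (by positivity) hQc _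
    have h2 : (δ * (H / ℓ)) ^ (j + 2) * E ≤ B * H ^ (j + 1) * ∑ T ∈ shs j L, R T :=
      (mul_le_mul_of_nonneg_right h1 hE0.le).trans hcell
    have h3 : (δ * (H / ℓ)) ^ (j + 2) * E = B * H ^ (j + 1) * (2 * κ * V * E) := by
      rw [hκ, hV, mul_pow, div_pow, pow_succ (H : ℝ) (j + 1)]
      field_simp
    rw [h3] at h2
    exact le_of_mul_le_mul_left h2 (by positivity)
  obtain ⟨G, hG⟩ : ∃ G, G = (shs j L).filter (fun T => κ * V ≤ R T) := ⟨_, rfl⟩
  rw [← hG]
  have hsplit := sum_filter_add_sum_filter_not (shs j L) (fun T => κ * V ≤ R T) R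
  rw [← hG] at hsplit
  have hsmall : ∑ T ∈ (shs j L).filter (fun T => ¬ κ * V ≤ R T), R T ≤ κ * V * E := by
    calc ∑ T ∈ (shs j L).filter (fun T => ¬ κ * V ≤ R T), R T
        ≤ ∑ T ∈ (shs j L).filter (fun T => ¬ κ * V ≤ R T), κ * V := by
          apply sum_le_sum
          intro T hT
          exact (not_le.1 (mem_filter.1 hT).2).le
      _ = (((shs j L).filter (fun T => ¬ κ * V ≤ R T)).card : ℝ) * (κ * V) := by
          rw [sum_const, nsmul_eq_mul]
      _ ≤ E * (κ * V) := by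
          apply mul_le_mul_of_nonneg_right _ (by positivity)
          have h1 : (((shs j L).filter (fun T => ¬ κ * V ≤ R T)).card : ℝ) ≤ ((shs j L).card : ℝ) :=
            Nat.cast_le.2 (card_filter_le _ _)
          rw [hE]
          exact h1.trans (shs_card j L)
      _ = κ * V * E := by ring
  have hGsum : κ * V * E ≤ ∑ T ∈ G, R T := by linarith
  have hRup : ∀ T ∈ G, R T ≤ C * V * CT (dil m T) := by
    intro T hT
    rw [hG, mem_filter] at hT
    have hTs := hT.1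
    unfold shs at hTs
    rw [mem_filter, mem_powersetCard] at hTs
    have h1 := hup a H hX₁ hHa (dil m T) (by rw [dil_card hm, hTs.1.2])
    rw [← hℓ, ← hV] at h1
    have h2 : R T ≤ (((Ioc a (a + H)).filter (fun n => ∀ t ∈ dil m T, (n + t).Prime)).card : ℝ) := by
      rw [hR]
      refine Nat.cast_le.2 (card_le_card fun p hp => ?_)
      unfold pos at hp
      rw [mem_filter] at hp ⊢
      exact ⟨hQ hp.1, fun t ht => hQp _ (hp.2 t ht)⟩
    calc R T ≤ _ := h2
      _ ≤ _ := h1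
      _ = _ := by ring
  have h3 : κ * V * E ≤ C * V * ∑ T ∈ G, CT (dil m T) := by
    refine hGsum.trans ?_
    rw [mul_sum]
    exact sum_le_sum hRup
  have h4 : κ * E ≤ C * ∑ T ∈ G, CT (dil m T) := by
    have h5 : V * (κ * E) ≤ V * (C * ∑ T ∈ G, CT (dil m T)) := by
      calc V * (κ * E) = κ * V * E := by ring
        _ ≤ _ := h3
        _ = _ := by ring
    exact le_of_mul_le_mul_left h5 hV0
  have h5 : (∑ T ∈ G, CT (dil m T)) ^ 2 ≤ G.card * (C₃ * E) := by
    refine sq_sum_le_card_mul_sum_sq.trans ?_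
    apply mul_le_mul_of_nonneg_left _ (Nat.cast_nonneg _)
    rw [hE]
    refine le_trans ?_ (hmom L hL1)
    apply sum_le_sum_of_subset_of_nonneg
    · rw [hG]; exact filter_subset _ _
    · intro T _ _
      positivity
  have h6 : (κ * E) ^ 2 ≤ C ^ 2 * (G.card * (C₃ * E)) := by
    calc (κ * E) ^ 2 ≤ (C * ∑ T ∈ G, CT (dil m T)) ^ 2 := pow_le_pow_left₀ (by positivity) h4 2
      _ = C ^ 2 * (∑ T ∈ G, CT (dil m T)) ^ 2 := by ring
      _ ≤ _ := by gcongr
  have h7 : E * (κ ^ 2 * E) ≤ E * (C ^ 2 * C₃ * G.card) := by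
    calc E * (κ ^ 2 * E) = (κ * E) ^ 2 := by ring
      _ ≤ _ := h6
      _ = _ := by ring
  have h8 := le_of_mul_le_mul_left h7 hE0
  rw [div_mul_eq_mul_div, div_le_iff₀ (by positivity)]
  linarith

open Classical in
/-- **A positive proportion of all numbers is the diameter of many popular shapes** -/
theorem diam (j : ℕ) (δ : ℝ) (hδ : 0 < δ) (b : ℕ) (hb : 1 ≤ b) : ∃ κ ρ K : ℝ, 0 < κ ∧ 0 < ρ ∧ 0 < K ∧ ∃ X₀ : ℕ,
    ∀ a H : ℕ, X₀ ≤ H → H ≤ a → ∀ Q : Finset ℕ, Q ⊆ Ioc a (a + H) → (∀ p ∈ Q, p.Prime) →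
      δ * (H / Real.log H) ≤ Q.card → ∀ L : ℕ, K * Real.log H ≤ L → 2 * b * L ≤ H →
      ρ * L ≤ (((Icc 1 L).filter (fun k => κ * ((b * k : ℕ) : ℝ) ^ j ≤
        (((shp j (2 * b * k)).filter (fun T => κ * (H / Real.log H ^ (j + 2)) ≤ ((pos Q T).card : ℝ))).card : ℝ))).card : ℝ) := by
  obtain ⟨κ₀, ρ₀, K, hκ₀, hρ₀, hK, X₀, hpop⟩ := popular j δ hδ (2 * b) (by omega)
  have hb0 : (0 : ℝ) < b := by exact_mod_cast hb
  obtain ⟨κ, hκ⟩ : ∃ κ : ℝ, κ = min κ₀ (ρ₀ / 2 / (b : ℝ) ^ j) := ⟨_, rfl⟩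
  have hκ0 : 0 < κ := by rw [hκ]; exact lt_min hκ₀ (by positivity)
  refine ⟨κ, ρ₀ / 2, K, hκ0, by positivity, hK, max X₀ 3, fun a H hH hHa Q hQ hQp hQc L hL hLH => ?_⟩
  have hX₀ : X₀ ≤ H := (le_max_left _ _).trans hH
  have hH3 : 3 ≤ H := (le_max_right _ _).trans hH
  have hHR : (3 : ℝ) ≤ H := by exact_mod_cast hH3
  have hlog1 : 1 < Real.log H := by
    rw [Real.lt_log_iff_exp_lt (by linarith)]
    have := Real.exp_one_lt_d9
    linarith
  have hL0 : (0 : ℝ) < L := lt_of_lt_of_le (by positivity) hL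
  have hL1 : 1 ≤ L := by exact_mod_cast hL0
  obtain ⟨V, hV⟩ : ∃ V : ℝ, V = H / Real.log H ^ (j + 2) := ⟨_, rfl⟩
  have hV0 : 0 ≤ V := by rw [hV]; positivity
  have hG := hpop a H hX₀ hHa Q hQ hQp hQc L hL hLH
  rw [← hV] at hG ⊢
  obtain ⟨G, hGd⟩ : ∃ G, G = (shs j L).filter (fun T => κ₀ * V ≤ ((pos Q (dil (2 * b) T)).card : ℝ)) := ⟨_, rfl⟩
  rw [← hGd] at hG
  obtain ⟨g, hg⟩ : ∃ g : ℕ → Finset (Finset ℕ), g = fun k => (shp j k).filter
    (fun T => κ₀ * V ≤ ((pos Q (dil (2 * b) T)).card : ℝ)) := ⟨_, rfl⟩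
  -- the maximum of a shape
  have hsub : G ⊆ (Icc 1 (L - 1)).biUnion g := by
    intro T hT
    rw [hGd, mem_filter] at hT
    have hTs := hT.1
    unfold shs at hTs
    rw [mem_filter, mem_powersetCard] at hTs
    obtain ⟨⟨h1, h2⟩, h3⟩ := hTs
    have hne : T.Nonempty := ⟨0, h3⟩
    have h4 := mem_range.1 (h1 (T.max'_mem hne))
    have h5 : 1 ≤ T.max' hne := by
      obtain ⟨x, hx, y, hy, hxy⟩ := one_lt_card.1 (show 1 < T.card by omega)
      have h6 := T.le_max' x hx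
      have h7 := T.le_max' y hy
      omega
    rw [mem_biUnion]
    refine ⟨T.max' hne, mem_Icc.2 ⟨h5, by omega⟩, ?_⟩
    rw [hg]
    show T ∈ (shp j (T.max' hne)).filter _
    unfold shp
    rw [mem_filter, mem_filter, mem_powersetCard]
    refine ⟨⟨⟨fun x hx => ?_, h2⟩, h3, T.max'_mem hne⟩, hT.2⟩
    have := T.le_max' x hx
    rw [mem_range]
    omega
  have hgk : ∀ k ∈ Icc 1 (L - 1), ((g k).card : ℝ) ≤ (L : ℝ) ^ j := by
    intro k hk
    rw [mem_Icc] at hk
    have h1 : (g k).card ≤ (shp j k).card := by rw [hg]; exact card_filter_le _ _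
    have h2 : (shp j k).card ≤ (k + 1) ^ j := Pool.Agent.TH891.SG.card_through2 (k + 1) j (show (0 : ℕ) ≠ k by omega)
    have h3 : (k + 1) ^ j ≤ L ^ j := Nat.pow_le_pow_left (by omega) _
    exact_mod_cast h1.trans (h2.trans h3)
  obtain ⟨A, hA⟩ : ∃ A, A = (Icc 1 L).filter (fun k : ℕ => ρ₀ / 2 * (k : ℝ) ^ j ≤ ((g k).card : ℝ)) := ⟨_, rfl⟩
  have hAc : ρ₀ / 2 * L ≤ (A.card : ℝ) := by
    have h1 : (G.card : ℝ) ≤ ∑ k ∈ Icc 1 (L - 1), ((g k).card : ℝ) := by
      exact_mod_cast (card_le_card hsub).trans card_biUnion_le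
    have h2 := sum_filter_add_sum_filter_not (Icc 1 (L - 1)) (fun k : ℕ => ρ₀ / 2 * (k : ℝ) ^ j ≤ ((g k).card : ℝ))
      (fun k => ((g k).card : ℝ))
    have h3 : ∑ k ∈ (Icc 1 (L - 1)).filter (fun k : ℕ => ρ₀ / 2 * (k : ℝ) ^ j ≤ ((g k).card : ℝ)), ((g k).card : ℝ) ≤
        A.card * (L : ℝ) ^ j := by
      calc _ ≤ ∑ k ∈ (Icc 1 (L - 1)).filter (fun k : ℕ => ρ₀ / 2 * (k : ℝ) ^ j ≤ ((g k).card : ℝ)), (L : ℝ) ^ j :=
            sum_le_sum fun k hk => hgk k (mem_filter.1 hk).1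
        _ = (((Icc 1 (L - 1)).filter (fun k : ℕ => ρ₀ / 2 * (k : ℝ) ^ j ≤ ((g k).card : ℝ))).card : ℝ) * (L : ℝ) ^ j := by
            rw [sum_const, nsmul_eq_mul]
        _ ≤ A.card * (L : ℝ) ^ j := by
            apply mul_le_mul_of_nonneg_right _ (by positivity)
            refine Nat.cast_le.2 (card_le_card fun k hk => ?_)
            rw [mem_filter, mem_Icc] at hk
            rw [hA, mem_filter, mem_Icc]
            exact ⟨⟨hk.1.1, by omega⟩, hk.2⟩
    have h4 : ∑ k ∈ (Icc 1 (L - 1)).filter (fun k : ℕ => ¬ ρ₀ / 2 * (k : ℝ) ^ j ≤ ((g k).card : ℝ)), ((g k).card : ℝ) ≤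
        ρ₀ / 2 * (L : ℝ) ^ (j + 1) := by
      calc _ ≤ ∑ k ∈ (Icc 1 (L - 1)).filter (fun k : ℕ => ¬ ρ₀ / 2 * (k : ℝ) ^ j ≤ ((g k).card : ℝ)),
            ρ₀ / 2 * (L : ℝ) ^ j := by
            apply sum_le_sum
            intro k hk
            rw [mem_filter, mem_Icc] at hk
            refine (not_le.1 hk.2).le.trans ?_
            have h5 : (k : ℝ) ≤ L := by
              have : k ≤ L := by omega
              exact_mod_cast this
            gcongr
        _ = (((Icc 1 (L - 1)).filter (fun k : ℕ => ¬ ρ₀ / 2 * (k : ℝ) ^ j ≤ ((g k).card : ℝ))).card : ℝ) *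
            (ρ₀ / 2 * (L : ℝ) ^ j) := by rw [sum_const, nsmul_eq_mul]
        _ ≤ L * (ρ₀ / 2 * (L : ℝ) ^ j) := by
            apply mul_le_mul_of_nonneg_right _ (by positivity)
            have h5 := card_filter_le (Icc 1 (L - 1)) (fun k : ℕ => ¬ ρ₀ / 2 * (k : ℝ) ^ j ≤ ((g k).card : ℝ))
            rw [Nat.card_Icc] at h5
            have h6 : ((Icc 1 (L - 1)).filter (fun k : ℕ => ¬ ρ₀ / 2 * (k : ℝ) ^ j ≤ ((g k).card : ℝ))).card ≤ L := by
              omega
            exact_mod_cast h6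
        _ = ρ₀ / 2 * (L : ℝ) ^ (j + 1) := by rw [pow_succ]; ring
    have h5 : ρ₀ / 2 * L * (L : ℝ) ^ j ≤ A.card * (L : ℝ) ^ j := by
      have h6 : ρ₀ / 2 * L * (L : ℝ) ^ j = ρ₀ * (L : ℝ) ^ (j + 1) - ρ₀ / 2 * (L : ℝ) ^ (j + 1) := by
        rw [pow_succ]; ring
      rw [h6]
      linarith
    exact le_of_mul_le_mul_right h5 (by positivity)
  refine hAc.trans (Nat.cast_le.2 (card_le_card fun k hk => ?_))
  rw [hA, mem_filter] at hk
  rw [mem_filter]
  refine ⟨hk.1, ?_⟩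
  have h1 : κ * ((b * k : ℕ) : ℝ) ^ j ≤ ρ₀ / 2 * (k : ℝ) ^ j := by
    have h2 : κ ≤ ρ₀ / 2 / (b : ℝ) ^ j := by rw [hκ]; exact min_le_right _ _
    push_cast
    rw [mul_pow]
    calc κ * ((b : ℝ) ^ j * (k : ℝ) ^ j) ≤ ρ₀ / 2 / (b : ℝ) ^ j * ((b : ℝ) ^ j * (k : ℝ) ^ j) := by gcongr
      _ = ρ₀ / 2 * (k : ℝ) ^ j := by field_simp
  refine h1.trans (hk.2.trans (Nat.cast_le.2 ?_))
  apply card_le_card_of_injOn (dil (2 * b))
  · intro T hT
    rw [hg] at hT
    have hT' : T ∈ (shp j k).filter (fun T => κ₀ * V ≤ ((pos Q (dil (2 * b) T)).card : ℝ)) := hT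
    rw [mem_filter] at hT'
    obtain ⟨hT1, hT2⟩ := hT'
    unfold shp at hT1
    rw [mem_filter, mem_powersetCard] at hT1
    obtain ⟨⟨h3, h4⟩, h5, h6⟩ := hT1
    rw [mem_coe, mem_filter]
    constructor
    · unfold shp
      rw [mem_filter, mem_powersetCard]
      refine ⟨⟨?_, by rw [dil_card (by omega), h4]⟩, ?_, ?_⟩
      · intro x hx
        unfold dil at hx
        obtain ⟨t, ht, rfl⟩ := mem_image.1 hx
        have h7 := mem_range.1 (h3 ht)
        rw [mem_range]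
        have h8 : 2 * b * t ≤ 2 * b * k := Nat.mul_le_mul_left _ (by omega)
        omega
      · unfold dil
        exact mem_image.2 ⟨0, h5, by simp⟩
      · unfold dil
        exact mem_image.2 ⟨k, h6, rfl⟩
    · refine le_trans ?_ hT2
      apply mul_le_mul_of_nonneg_right _ hV0
      rw [hκ]; exact min_le_left _ _
  · intro T _ T' _ he
    unfold dil at he
    exact (image_injective fun x y hxy => Nat.eq_of_mul_eq_mul_left (show 0 < 2 * b by omega) hxy) he

end Pool.Agent.U455.KTW
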