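import Mathlib
import Pool.Agent.U455.KTW
import Pool.Agent.U455.BTH

/-!
# Parallelograms in sets of primes of positive relative density in intervals
-/

set_option autoImplicit false

namespace Pool.Agent.U455.PAR

open Finset Filter
open Pool.Agent.H387R2 (Uni.CT Uni.CT_nonneg)
open Pool.Agent.H387R2.Uni (CT nuT CT_nonneg)
open Pool.Agent.TH891.SG (Gm Gm_pow one_le_Gm CT_le_Gm prod_le_sum_pow sum_Gm sum_Gm_dist Zc)

/-- powers of the singular series -/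
theorem CT_pow_le (m c : ℕ) (h2 : 2 ≤ c) (T : Finset ℕ) (hTc : T.card = c) :
    CT T ^ m ≤ ∑ u ∈ (T ×ˢ T).filter (fun u => u.1 ≠ u.2),
      Gm ((1 + 2) ^ (m * (Pool.Agent.H386R2.HL.prs c).card)) (Nat.dist u.2 u.1) := by
  classical
  obtain ⟨A, hA⟩ : ∃ A : ℝ, A = (1 + 2) ^ (m * (Pool.Agent.H386R2.HL.prs c).card) := ⟨_, rfl⟩
  rw [← hA]
  have hA0 : 0 ≤ A := by rw [hA]; positivity
  have hG0 : ∀ n, 0 ≤ Gm A n := fun n => zero_le_one.trans (one_le_Gm hA0 n)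
  have hcard : (Pool.Agent.H386R2.HL.prs T.card).card = (Pool.Agent.H386R2.HL.prs c).card := by rw [hTc]
  have hne : (Pool.Agent.H386R2.HL.prs T.card).Nonempty := by
    refine ⟨(⟨0, by omega⟩, ⟨1, by omega⟩), ?_⟩
    unfold Pool.Agent.H386R2.HL.prs
    rw [mem_filter]
    exact ⟨mem_univ _, by rw [Fin.lt_def]; simp⟩
  have h1 := CT_le_Gm T
  have h2 : CT T ^ m ≤ (∏ q ∈ Pool.Agent.H386R2.HL.prs T.card,
      Gm 2 (Nat.dist (Pool.Agent.H387R2.Uni.en T q.1) (Pool.Agent.H387R2.Uni.en T q.2))) ^ m :=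
    pow_le_pow_left₀ (CT_nonneg T) h1 m
  refine h2.trans ?_
  rw [← prod_pow]
  refine (prod_le_sum_pow _ hne _ ?_).trans ?_
  · intro q _
    exact pow_nonneg (zero_le_one.trans (one_le_Gm (by norm_num) _)) m
  · rw [hcard]
    have h3 : ∀ q ∈ Pool.Agent.H386R2.HL.prs T.card,
        (Gm 2 (Nat.dist (Pool.Agent.H387R2.Uni.en T q.1) (Pool.Agent.H387R2.Uni.en T q.2)) ^ m) ^
          (Pool.Agent.H386R2.HL.prs c).card ≤
          Gm A (Nat.dist (Pool.Agent.H387R2.Uni.en T q.2) (Pool.Agent.H387R2.Uni.en T q.1)) := by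
      intro q _
      rw [← pow_mul, Nat.dist_comm, hA]
      exact Gm_pow (m * (Pool.Agent.H386R2.HL.prs c).card) (by norm_num) _
    refine (sum_le_sum h3).trans ?_
    have hinj : Set.InjOn (fun q : Fin T.card × Fin T.card =>
        (Pool.Agent.H387R2.Uni.en T q.1, Pool.Agent.H387R2.Uni.en T q.2))
        (Pool.Agent.H386R2.HL.prs T.card : Set (Fin T.card × Fin T.card)) := by
      intro q _ q' _ h
      simp only [Prod.mk.injEq] at h
      exact Prod.ext (Pool.Agent.H387R2.Uni.en_inj T h.1) (Pool.Agent.H387R2.Uni.en_inj T h.2)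
    have h4 := sum_image (f := fun u : ℕ × ℕ => Gm A (Nat.dist u.2 u.1)) hinj
    simp only at h4
    rw [← h4]
    apply sum_le_sum_of_subset_of_nonneg _ (fun _ _ _ => hG0 _)
    intro u hu
    obtain ⟨q, hq, rfl⟩ := mem_image.1 hu
    have hq' : q.1 < q.2 := (mem_filter.1 hq).2
    rw [mem_filter, mem_product]
    exact ⟨⟨Pool.Agent.H387R2.Uni.en_mem T _, Pool.Agent.H387R2.Uni.en_mem T _⟩,
      fun h => hq'.ne (Pool.Agent.H387R2.Uni.en_inj T h)⟩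

/-- the corners of the parallelogram -/
def TT (k l : ℕ) : Finset ℕ := {0, 2 * k, 2 * l, 2 * k + 2 * l}

lemma TT_card {k l : ℕ} (hk : 1 ≤ k) (hl : 1 ≤ l) (hkl : k ≠ l) : (TT k l).card = 4 := by
  unfold TT
  rw [card_insert_of_notMem, card_insert_of_notMem, card_insert_of_notMem, card_singleton]
  · rw [mem_singleton]; omega
  · rw [mem_insert, mem_singleton]; omega
  · rw [mem_insert, mem_insert, mem_singleton]; omega

/-- the pairs of distinct numbers up to `L` -/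
def SS (L : ℕ) : Finset (ℕ × ℕ) := (Icc 1 L ×ˢ Icc 1 L).filter (fun x => x.1 ≠ x.2)

theorem momP : ∃ C : ℝ, 0 < C ∧ ∀ L : ℕ, 1 ≤ L → ∑ x ∈ SS L, CT (TT x.1 x.2) ^ 2 ≤ C * (L : ℝ) ^ 2 := by
  classical
  obtain ⟨A, hA⟩ : ∃ A : ℝ, A = (1 + 2) ^ (2 * (Pool.Agent.H386R2.HL.prs 4).card) := ⟨_, rfl⟩
  have hA0 : 0 ≤ A := by rw [hA]; positivity
  have hG0 : ∀ n, 0 ≤ Gm A n := fun n => zero_le_one.trans (one_le_Gm hA0 n)
  obtain ⟨E, hE⟩ : ∃ E : ℝ, E = Real.exp (A * Zc) := ⟨_, rfl⟩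
  have hE0 : 0 < E := by rw [hE]; positivity
  have hsum : ∀ X : ℕ, ∑ n ∈ Icc 1 X, Gm A n ≤ E * X := fun X => by rw [hE]; exact sum_Gm hA0 X
  refine ⟨16 * (14 * E), by positivity, fun L hL => ?_⟩
  have hLR : (1 : ℝ) ≤ L := by exact_mod_cast hL
  have hpt : ∀ x ∈ SS L, CT (TT x.1 x.2) ^ 2 ≤ 16 * (Gm A (2 * x.1) + Gm A (2 * x.2) + Gm A (2 * x.1 + 2 * x.2) +
      Gm A (Nat.dist (2 * x.2) (2 * x.1))) := by
    intro x hx
    unfold SS at hx
    rw [mem_filter, mem_product, mem_Icc, mem_Icc] at hx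
    obtain ⟨⟨⟨h1, h2⟩, h3, h4⟩, h5⟩ := hx
    have hc := TT_card h1 h3 h5
    have h6 := CT_pow_le 2 4 (by norm_num) (TT x.1 x.2) hc
    rw [← hA] at h6
    refine h6.trans ?_
    calc ∑ u ∈ (TT x.1 x.2 ×ˢ TT x.1 x.2).filter (fun u => u.1 ≠ u.2), Gm A (Nat.dist u.2 u.1)
        ≤ ∑ u ∈ (TT x.1 x.2 ×ˢ TT x.1 x.2).filter (fun u => u.1 ≠ u.2), (Gm A (2 * x.1) + Gm A (2 * x.2) +
            Gm A (2 * x.1 + 2 * x.2) + Gm A (Nat.dist (2 * x.2) (2 * x.1))) := by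
          apply sum_le_sum
          intro u hu
          rw [mem_filter, mem_product] at hu
          obtain ⟨⟨hu1, hu2⟩, hu3⟩ := hu
          have hd : Nat.dist u.2 u.1 = 2 * x.1 ∨ Nat.dist u.2 u.1 = 2 * x.2 ∨
              Nat.dist u.2 u.1 = 2 * x.1 + 2 * x.2 ∨ Nat.dist u.2 u.1 = Nat.dist (2 * x.2) (2 * x.1) := by
            unfold TT at hu1 hu2
            rw [mem_insert, mem_insert, mem_insert, mem_singleton] at hu1 hu2
            unfold Nat.dist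
            omega
          have g1 := hG0 (2 * x.1)
          have g2 := hG0 (2 * x.2)
          have g3 := hG0 (2 * x.1 + 2 * x.2)
          have g4 := hG0 (Nat.dist (2 * x.2) (2 * x.1))
          rcases hd with h | h | h | h <;> rw [h] <;> linarith
      _ = (((TT x.1 x.2 ×ˢ TT x.1 x.2).filter (fun u => u.1 ≠ u.2)).card : ℝ) * (Gm A (2 * x.1) + Gm A (2 * x.2) +
            Gm A (2 * x.1 + 2 * x.2) + Gm A (Nat.dist (2 * x.2) (2 * x.1))) := by rw [sum_const, nsmul_eq_mul]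
      _ ≤ 16 * (Gm A (2 * x.1) + Gm A (2 * x.2) + Gm A (2 * x.1 + 2 * x.2) +
            Gm A (Nat.dist (2 * x.2) (2 * x.1))) := by
          apply mul_le_mul_of_nonneg_right
          · have h7 : ((TT x.1 x.2 ×ˢ TT x.1 x.2).filter (fun u => u.1 ≠ u.2)).card ≤ 16 := by
              refine (card_filter_le _ _).trans ?_
              rw [card_product, hc]
            exact_mod_cast h7
          · have g1 := hG0 (2 * x.1)
            have g2 := hG0 (2 * x.2)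
            have g3 := hG0 (2 * x.1 + 2 * x.2)
            have g4 := hG0 (Nat.dist (2 * x.2) (2 * x.1))
            linarith
  refine (sum_le_sum hpt).trans ?_
  rw [← mul_sum, mul_assoc]
  apply mul_le_mul_of_nonneg_left _ (by norm_num)
  -- the single sums
  have hdouble : ∑ k ∈ Icc 1 L, Gm A (2 * k) ≤ 2 * E * L := by
    calc ∑ k ∈ Icc 1 L, Gm A (2 * k) = ∑ n ∈ (Icc 1 L).image (fun k => 2 * k), Gm A n := by
          rw [sum_image]
          intro x _ y _ hxy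
          have : 2 * x = 2 * y := hxy
          omega
      _ ≤ ∑ n ∈ Icc 1 (2 * L), Gm A n := by
          apply sum_le_sum_of_subset_of_nonneg _ (fun _ _ _ => hG0 _)
          intro n hn
          obtain ⟨k, hk, rfl⟩ := mem_image.1 hn
          rw [mem_Icc] at hk ⊢
          omega
      _ ≤ E * ((2 * L : ℕ) : ℝ) := hsum _
      _ = 2 * E * L := by push_cast; ring
  have hplus : ∀ k ∈ Icc 1 L, ∑ l ∈ Icc 1 L, Gm A (2 * k + 2 * l) ≤ 4 * E * L := by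
    intro k hk
    rw [mem_Icc] at hk
    calc ∑ l ∈ Icc 1 L, Gm A (2 * k + 2 * l) = ∑ n ∈ (Icc 1 L).image (fun l => 2 * k + 2 * l), Gm A n := by
          rw [sum_image]
          intro x _ y _ hxy
          have : 2 * k + 2 * x = 2 * k + 2 * y := hxy
          omega
      _ ≤ ∑ n ∈ Icc 1 (4 * L), Gm A n := by
          apply sum_le_sum_of_subset_of_nonneg _ (fun _ _ _ => hG0 _)
          intro n hn
          obtain ⟨l, hl, rfl⟩ := mem_image.1 hn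
          rw [mem_Icc] at hl ⊢
          omega
      _ ≤ E * ((4 * L : ℕ) : ℝ) := hsum _
      _ = 4 * E * L := by push_cast; ring
  have hdist : ∀ k ∈ Icc 1 L, ∑ l ∈ (Icc 1 L).filter (fun l => k ≠ l), Gm A (Nat.dist (2 * l) (2 * k)) ≤ 6 * E * L := by
    intro k hk
    rw [mem_Icc] at hk
    calc ∑ l ∈ (Icc 1 L).filter (fun l => k ≠ l), Gm A (Nat.dist (2 * l) (2 * k))
        = ∑ n ∈ ((Icc 1 L).filter (fun l => k ≠ l)).image (fun l => 2 * l), Gm A (Nat.dist n (2 * k)) := by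
          rw [sum_image]
          intro x _ y _ hxy
          have : 2 * x = 2 * y := hxy
          omega
      _ ≤ ∑ n ∈ (range (2 * L + 1)).erase (2 * k), Gm A (Nat.dist n (2 * k)) := by
          apply sum_le_sum_of_subset_of_nonneg _ (fun _ _ _ => hG0 _)
          intro n hn
          obtain ⟨l, hl, rfl⟩ := mem_image.1 hn
          rw [mem_filter, mem_Icc] at hl
          rw [mem_erase, mem_range]
          omega
      _ ≤ 2 * (Real.exp (A * Zc) * ((2 * L + 1 : ℕ) : ℝ)) := sum_Gm_dist hA0 (2 * L + 1) (2 * k) (by omega)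
      _ ≤ 6 * E * L := by
          rw [← hE]
          push_cast
          nlinarith
  -- the double sums
  have hS : ∀ F : ℕ × ℕ → ℝ, (∀ x, 0 ≤ F x) → ∑ x ∈ SS L, F x ≤ ∑ k ∈ Icc 1 L, ∑ l ∈ Icc 1 L, F (k, l) := by
    intro F hF
    rw [← sum_product (s := Icc 1 L) (t := Icc 1 L) (f := F)]
    exact sum_le_sum_of_subset_of_nonneg (filter_subset _ _) (fun x _ _ => hF x)
  have e1 : ∑ x ∈ SS L, Gm A (2 * x.1) ≤ 2 * E * L * L := by
    refine (hS (fun x => Gm A (2 * x.1)) (fun x => hG0 _)).trans ?_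
    simp only [sum_const, Nat.card_Icc, Nat.add_sub_cancel, nsmul_eq_mul]
    rw [← mul_sum]
    nlinarith
  have e2 : ∑ x ∈ SS L, Gm A (2 * x.2) ≤ 2 * E * L * L := by
    refine (hS (fun x => Gm A (2 * x.2)) (fun x => hG0 _)).trans ?_
    calc ∑ k ∈ Icc 1 L, ∑ l ∈ Icc 1 L, Gm A (2 * l) ≤ ∑ k ∈ Icc 1 L, 2 * E * L := sum_le_sum fun _ _ => hdouble
      _ = 2 * E * L * L := by
          rw [sum_const, Nat.card_Icc, Nat.add_sub_cancel, nsmul_eq_mul]
          ring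
  have e3 : ∑ x ∈ SS L, Gm A (2 * x.1 + 2 * x.2) ≤ 4 * E * L * L := by
    refine (hS (fun x => Gm A (2 * x.1 + 2 * x.2)) (fun x => hG0 _)).trans ?_
    calc ∑ k ∈ Icc 1 L, ∑ l ∈ Icc 1 L, Gm A (2 * k + 2 * l) ≤ ∑ k ∈ Icc 1 L, 4 * E * L := sum_le_sum hplus
      _ = 4 * E * L * L := by
          rw [sum_const, Nat.card_Icc, Nat.add_sub_cancel, nsmul_eq_mul]
          ring
  have e4 : ∑ x ∈ SS L, Gm A (Nat.dist (2 * x.2) (2 * x.1)) ≤ 6 * E * L * L := by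
    have h1 : ∑ x ∈ SS L, Gm A (Nat.dist (2 * x.2) (2 * x.1)) =
        ∑ k ∈ Icc 1 L, ∑ l ∈ (Icc 1 L).filter (fun l => k ≠ l), Gm A (Nat.dist (2 * l) (2 * k)) := by
      unfold SS
      rw [sum_filter, sum_product]
      apply sum_congr rfl
      intro k _
      rw [sum_filter]
    rw [h1]
    calc ∑ k ∈ Icc 1 L, ∑ l ∈ (Icc 1 L).filter (fun l => k ≠ l), Gm A (Nat.dist (2 * l) (2 * k))
        ≤ ∑ k ∈ Icc 1 L, 6 * E * L := sum_le_sum hdist
      _ = 6 * E * L * L := by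
          rw [sum_const, Nat.card_Icc, Nat.add_sub_cancel, nsmul_eq_mul]
          ring
  rw [sum_add_distrib, sum_add_distrib, sum_add_distrib]
  calc _ ≤ 2 * E * L * L + 2 * E * L * L + 4 * E * L * L + 6 * E * L * L := by linarith
    _ = 14 * E * (L : ℝ) ^ 2 := by ring

/-- the positions of the parallelogram -/
def Par (Q : Finset ℕ) (d e : ℕ) : Finset ℕ := Q.filter (fun p => p + d ∈ Q ∧ p + e ∈ Q ∧ p + d + e ∈ Q)

open Classical in
/-- **A positive proportion of all parallelograms is popular** -/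
theorem popular (δ : ℝ) (hδ : 0 < δ) : ∃ κ ρ K : ℝ, 0 < κ ∧ 0 < ρ ∧ 0 < K ∧ ∃ X₀ : ℕ,
    ∀ a H : ℕ, X₀ ≤ H → H ≤ a → ∀ Q : Finset ℕ, Q ⊆ Ioc a (a + H) → (∀ p ∈ Q, p.Prime) →
      δ * (H / Real.log H) ≤ Q.card → ∀ L : ℕ, K * Real.log H ^ 2 ≤ L → 2 * L ≤ H →
      ρ * (L : ℝ) ^ 2 ≤ (((SS L).filter (fun x => κ * (H / Real.log H ^ 4) ≤
        ((Par Q (2 * x.1) (2 * x.2)).card : ℝ))).card : ℝ) := by
  obtain ⟨κ₁, ρ₁, K₁, hκ₁, hρ₁, hK₁, X₁, hpop⟩ := PCW.pop δ hδ 1 le_rfl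
  obtain ⟨C₂, hC₂, X₂, hup2⟩ := PCW.up2
  obtain ⟨C₃, hC₃, hmom2⟩ := PCW.mom2 1 le_rfl
  obtain ⟨C₄, hC₄, X₄, hup4⟩ := KTW.upk 4
  obtain ⟨C₅, hC₅, hmomP⟩ := momP
  obtain ⟨c₂, hc₂⟩ : ∃ c₂ : ℝ, c₂ = ρ₁ * κ₁ ^ 2 / 8 := ⟨_, rfl⟩
  have hc₂0 : 0 < c₂ := by rw [hc₂]; positivity
  obtain ⟨C', hC'⟩ : ∃ C' : ℝ, C' = C₂ * (1 + C₃) := ⟨_, rfl⟩
  have hC'0 : 0 < C' := by rw [hC']; positivity
  obtain ⟨κ, hκ⟩ : ∃ κ : ℝ, κ = c₂ / 4 := ⟨_, rfl⟩
  have hκ0 : 0 < κ := by rw [hκ]; positivity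
  obtain ⟨K, hK⟩ : ∃ K : ℝ, K = max K₁ (max (4 / κ₁) (2 * C' / c₂)) := ⟨_, rfl⟩
  have hKK₁ : K₁ ≤ K := by rw [hK]; exact le_max_left _ _
  have hKκ : 4 / κ₁ ≤ K := by rw [hK]; exact (le_max_left _ _).trans (le_max_right _ _)
  have hKC : 2 * C' / c₂ ≤ K := by rw [hK]; exact (le_max_right _ _).trans (le_max_right _ _)
  have hK0 : 0 < K := lt_of_lt_of_le hK₁ hKK₁
  refine ⟨κ, κ ^ 2 / (C₄ ^ 2 * C₅), K, hκ0, by positivity, hK0, max (max X₁ X₂) (max X₄ 3),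
    fun a H hH hHa Q hQ hQp hQc L hL hLH => ?_⟩
  have hX₁ : X₁ ≤ H := (le_max_left _ _).trans ((le_max_left _ _).trans hH)
  have hX₂ : X₂ ≤ H := (le_max_right _ _).trans ((le_max_left _ _).trans hH)
  have hX₄ : X₄ ≤ H := (le_max_left _ _).trans ((le_max_right _ _).trans hH)
  have hH3 : 3 ≤ H := (le_max_right _ _).trans ((le_max_right _ _).trans hH)
  have hHR : (3 : ℝ) ≤ H := by exact_mod_cast hH3
  have hlog1 : 1 < Real.log H := by
    rw [Real.lt_log_iff_exp_lt (by linarith)]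
    have := Real.exp_one_lt_d9
    linarith
  obtain ⟨ℓ, hℓ⟩ : ∃ ℓ : ℝ, ℓ = Real.log H := ⟨_, rfl⟩
  have hpop' := hpop a H hX₁ hHa Q hQ hQp hQc L
  rw [← hℓ] at hL hlog1 hpop' ⊢
  have hℓ0 : 0 < ℓ := by linarith
  have hH0 : (0 : ℝ) < H := by linarith
  have hL0 : (0 : ℝ) < L := lt_of_lt_of_le (by positivity) hL
  have hL1 : 1 ≤ L := by exact_mod_cast hL0
  have hK1L : K₁ * ℓ ≤ L := by
    refine le_trans ?_ hL
    calc K₁ * ℓ ≤ K * ℓ := by gcongr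
      _ ≤ K * ℓ ^ 2 := by
          apply mul_le_mul_of_nonneg_left _ hK0.le
          nlinarith
  have hpop'' := hpop' hK1L (by omega)
  obtain ⟨V, hV⟩ : ∃ V : ℝ, V = H / ℓ ^ 2 := ⟨_, rfl⟩
  obtain ⟨W, hW⟩ : ∃ W : ℝ, W = H / ℓ ^ 4 := ⟨_, rfl⟩
  have hV0 : 0 < V := by rw [hV]; positivity
  have hW0 : 0 < W := by rw [hW]; positivity
  have hVW : V = W * ℓ ^ 2 := by rw [hV, hW]; field_simp
  have hVV : V ^ 2 / H = W := by rw [hV, hW]; field_simp
  rw [← hV] at hpop''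
  rw [← hW]
  obtain ⟨P, hP⟩ : ∃ P, P = (Icc 1 L).filter (fun k => κ₁ * V ≤
    ((Q.filter (fun p => p + 2 * 1 * k ∈ Q)).card : ℝ)) := ⟨_, rfl⟩
  rw [← hP] at hpop''
  obtain ⟨R, hR⟩ : ∃ R : ℕ × ℕ → ℝ, R = fun x => ((Par Q (2 * x.1) (2 * x.2)).card : ℝ) := ⟨_, rfl⟩
  have hRx : ∀ x, ((Par Q (2 * x.1) (2 * x.2)).card : ℝ) = R x := fun x => by rw [hR]
  simp only [hRx]
  have hR0 : ∀ x, 0 ≤ R x := fun x => by rw [hR]; positivity
  -- for popular `k`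
  have hrow : ∀ k ∈ P, (κ₁ * V) ^ 2 * L / (8 * H) ≤ ∑ l ∈ Icc 1 L, R (k, l) := by
    intro k hk
    rw [hP, mem_filter] at hk
    obtain ⟨Q', hQ'⟩ : ∃ Q', Q' = Q.filter (fun p => p + 2 * 1 * k ∈ Q) := ⟨_, rfl⟩
    have hQ'c : κ₁ * V ≤ (Q'.card : ℝ) := by rw [hQ']; exact hk.2
    have hQ's : Q' ⊆ Ioc a (a + H) := by rw [hQ']; exact (filter_subset _ _).trans hQ
    have hbig : 4 * (H : ℝ) ≤ Q'.card * L := by
      have h1 : κ₁ * V * (K * ℓ ^ 2) ≤ Q'.card * L := mul_le_mul hQ'c hL (by positivity) (by positivity)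
      have h2 : κ₁ * V * (K * ℓ ^ 2) = κ₁ * K * H := by rw [hV]; field_simp
      have h3 : 4 ≤ κ₁ * K := by
        rw [div_le_iff₀ hκ₁] at hKκ
        linarith
      rw [h2] at h1
      nlinarith
    have hc := PCW.cells Q' a H 2 L hQ's (by norm_num) hL1 hLH hbig
    have h4 : (κ₁ * V) ^ 2 * L / (8 * H) ≤ (Q'.card : ℝ) ^ 2 * L / (8 * H) := by gcongr
    refine h4.trans (hc.trans (sum_le_sum fun l _ => ?_))
    rw [hR]
    refine Nat.cast_le.2 (card_le_card fun p hp => ?_)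
    rw [hQ'] at hp
    simp only [mem_filter] at hp
    unfold Par
    rw [mem_filter]
    obtain ⟨⟨h5, h6⟩, h7, h8⟩ := hp
    have e1 : p + 2 * 1 * k = p + 2 * k := by ring
    have e2 : p + 2 * l + 2 * 1 * k = p + 2 * k + 2 * l := by ring
    rw [e1] at h6
    rw [e2] at h8
    exact ⟨h5, h6, h7, h8⟩
  have hall : c₂ * W * (L : ℝ) ^ 2 ≤ ∑ k ∈ Icc 1 L, ∑ l ∈ Icc 1 L, R (k, l) := by
    calc c₂ * W * (L : ℝ) ^ 2 = (ρ₁ * L) * ((κ₁ * V) ^ 2 * L / (8 * H)) := by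
          rw [hc₂, ← hVV]
          field_simp
      _ ≤ P.card * ((κ₁ * V) ^ 2 * L / (8 * H)) := by gcongr
      _ = ∑ k ∈ P, (κ₁ * V) ^ 2 * L / (8 * H) := by rw [sum_const, nsmul_eq_mul]
      _ ≤ ∑ k ∈ P, ∑ l ∈ Icc 1 L, R (k, l) := sum_le_sum hrow
      _ ≤ ∑ k ∈ Icc 1 L, ∑ l ∈ Icc 1 L, R (k, l) := by
          apply sum_le_sum_of_subset_of_nonneg (by rw [hP]; exact filter_subset _ _)
          intro k _ _
          exact sum_nonneg fun l _ => hR0 _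
  -- the diagonal
  have hdiag : ∑ k ∈ Icc 1 L, R (k, k) ≤ C' * V * L := by
    have h1 : ∀ k ∈ Icc 1 L, R (k, k) ≤ C₂ * V * (1 + CT (Pool.Agent.R527.LV.pat (fun _ : Fin 1 => 2 * 1 * k)) ^ 2) := by
      intro k hk
      rw [mem_Icc] at hk
      have h2 := hup2 a H hX₂ hHa (2 * 1 * k) (by omega) ⟨k, by ring⟩
      rw [← hℓ, ← hV] at h2
      have h3 : R (k, k) ≤ (((Ioc a (a + H)).filter (fun n => n.Prime ∧ (n + 2 * 1 * k).Prime)).card : ℝ) := by
        rw [hR]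
        refine Nat.cast_le.2 (card_le_card fun p hp => ?_)
        unfold Par at hp
        rw [mem_filter] at hp ⊢
        refine ⟨hQ hp.1, hQp p hp.1, ?_⟩
        rw [show 2 * 1 * k = 2 * k by ring]
        exact hQp _ hp.2.1
      obtain ⟨s, hs⟩ : ∃ s, s = CT (Pool.Agent.R527.LV.pat (fun _ : Fin 1 => 2 * 1 * k)) := ⟨_, rfl⟩
      rw [← hs] at h2 ⊢
      have h4 : s ≤ 1 + s ^ 2 := by nlinarith [sq_nonneg (s - 1 / 2)]
      calc R (k, k) ≤ _ := h3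
        _ ≤ C₂ * (s * V) := h2
        _ ≤ C₂ * ((1 + s ^ 2) * V) := by gcongr
        _ = _ := by ring
    calc ∑ k ∈ Icc 1 L, R (k, k) ≤ ∑ k ∈ Icc 1 L, C₂ * V * (1 +
          CT (Pool.Agent.R527.LV.pat (fun _ : Fin 1 => 2 * 1 * k)) ^ 2) := sum_le_sum h1
      _ = C₂ * V * (L + ∑ k ∈ Icc 1 L, CT (Pool.Agent.R527.LV.pat (fun _ : Fin 1 => 2 * 1 * k)) ^ 2) := by
          rw [← mul_sum, sum_add_distrib, sum_const, Nat.card_Icc, Nat.add_sub_cancel, nsmul_eq_mul, mul_one]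
      _ ≤ C₂ * V * (L + C₃ * L) := by
          have := hmom2 L hL1
          gcongr
      _ = C' * V * L := by rw [hC']; ring
  have hoff : 2 * κ * W * (L : ℝ) ^ 2 ≤ ∑ x ∈ SS L, R x := by
    have h1 : ∑ k ∈ Icc 1 L, ∑ l ∈ Icc 1 L, R (k, l) = ∑ x ∈ SS L, R x + ∑ k ∈ Icc 1 L, R (k, k) := by
      have h2 : ∑ x ∈ SS L, R x = ∑ k ∈ Icc 1 L, ∑ l ∈ (Icc 1 L).filter (fun l => k ≠ l), R (k, l) := by
        unfold SS
        rw [sum_filter, sum_product]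
        apply sum_congr rfl
        intro k _
        rw [sum_filter]
      rw [h2, ← sum_add_distrib]
      apply sum_congr rfl
      intro k hk
      rw [← sum_filter_add_sum_filter_not (Icc 1 L) (fun l => k ≠ l)]
      congr 1
      have h3 : (Icc 1 L).filter (fun l => ¬ k ≠ l) = {k} := by
        ext l
        rw [mem_filter, mem_singleton, not_not]
        constructor
        · rintro ⟨_, h⟩; exact h.symm
        · rintro rfl; exact ⟨hk, rfl⟩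
      rw [h3, sum_singleton]
    have h4 : C' * V * L ≤ c₂ / 2 * W * (L : ℝ) ^ 2 := by
      have h5 : C' ≤ c₂ / 2 * K := by
        rw [div_le_iff₀ hc₂0] at hKC
        linarith
      calc C' * V * L = C' * W * ℓ ^ 2 * L := by rw [hVW]; ring
        _ ≤ (c₂ / 2 * K) * W * ℓ ^ 2 * L := by gcongr
        _ = c₂ / 2 * W * L * (K * ℓ ^ 2) := by ring
        _ ≤ c₂ / 2 * W * L * L := by gcongr
        _ = _ := by ring
    rw [h1] at hall
    have h6 : 2 * κ * W * (L : ℝ) ^ 2 = c₂ * W * (L : ℝ) ^ 2 - c₂ / 2 * W * (L : ℝ) ^ 2 := by rw [hκ]; ring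
    rw [h6]
    linarith
  obtain ⟨E, hE⟩ : ∃ E : ℝ, E = (L : ℝ) ^ 2 := ⟨_, rfl⟩
  rw [← hE] at hoff ⊢
  have hE0 : 0 < E := by rw [hE]; positivity
  obtain ⟨G, hG⟩ : ∃ G, G = (SS L).filter (fun x => κ * W ≤ R x) := ⟨_, rfl⟩
  rw [← hG]
  have hSSc : ((SS L).card : ℝ) ≤ E := by
    have h1 : (SS L).card ≤ L * L := by
      unfold SS
      refine (card_filter_le _ _).trans ?_
      rw [card_product, Nat.card_Icc, Nat.add_sub_cancel]
    rw [hE, sq]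
    exact_mod_cast h1
  have hsplit := sum_filter_add_sum_filter_not (SS L) (fun x => κ * W ≤ R x) R
  rw [← hG] at hsplit
  have hsmall : ∑ x ∈ (SS L).filter (fun x => ¬ κ * W ≤ R x), R x ≤ κ * W * E := by
    calc ∑ x ∈ (SS L).filter (fun x => ¬ κ * W ≤ R x), R x
        ≤ ∑ x ∈ (SS L).filter (fun x => ¬ κ * W ≤ R x), κ * W := by
          apply sum_le_sum
          intro x hx
          exact (not_le.1 (mem_filter.1 hx).2).le
      _ = (((SS L).filter (fun x => ¬ κ * W ≤ R x)).card : ℝ) * (κ * W) := by rw [sum_const, nsmul_eq_mul]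
      _ ≤ E * (κ * W) := by
          apply mul_le_mul_of_nonneg_right _ (by positivity)
          exact (Nat.cast_le.2 (card_filter_le _ _)).trans hSSc
      _ = κ * W * E := by ring
  have hGsum : κ * W * E ≤ ∑ x ∈ G, R x := by linarith
  have hRup : ∀ x ∈ G, R x ≤ C₄ * W * CT (TT x.1 x.2) := by
    intro x hx
    rw [hG, mem_filter] at hx
    have hxs := hx.1
    unfold SS at hxs
    rw [mem_filter, mem_product, mem_Icc, mem_Icc] at hxs
    have h1 := hup4 a H hX₄ hHa (TT x.1 x.2) (TT_card hxs.1.1.1 hxs.1.2.1 hxs.2)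
    rw [← hℓ, ← hW] at h1
    have h2 : R x ≤ (((Ioc a (a + H)).filter (fun n => ∀ t ∈ TT x.1 x.2, (n + t).Prime)).card : ℝ) := by
      rw [hR]
      refine Nat.cast_le.2 (card_le_card fun p hp => ?_)
      unfold Par at hp
      rw [mem_filter] at hp ⊢
      refine ⟨hQ hp.1, fun t ht => ?_⟩
      unfold TT at ht
      rw [mem_insert, mem_insert, mem_insert, mem_singleton] at ht
      rcases ht with rfl | rfl | rfl | rfl
      · rw [add_zero]; exact hQp p hp.1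
      · exact hQp _ hp.2.1
      · exact hQp _ hp.2.2.1
      · rw [← add_assoc]; exact hQp _ hp.2.2.2
    calc R x ≤ _ := h2
      _ ≤ _ := h1
      _ = _ := by ring
  have h3 : κ * W * E ≤ C₄ * W * ∑ x ∈ G, CT (TT x.1 x.2) := by
    refine hGsum.trans ?_
    rw [mul_sum]
    exact sum_le_sum hRup
  have h4 : κ * E ≤ C₄ * ∑ x ∈ G, CT (TT x.1 x.2) := by
    have h5 : W * (κ * E) ≤ W * (C₄ * ∑ x ∈ G, CT (TT x.1 x.2)) := by
      calc W * (κ * E) = κ * W * E := by ring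
        _ ≤ _ := h3
        _ = _ := by ring
    exact le_of_mul_le_mul_left h5 hW0
  have h5 : (∑ x ∈ G, CT (TT x.1 x.2)) ^ 2 ≤ G.card * (C₅ * E) := by
    refine sq_sum_le_card_mul_sum_sq.trans ?_
    apply mul_le_mul_of_nonneg_left _ (Nat.cast_nonneg _)
    rw [hE]
    refine le_trans ?_ (hmomP L hL1)
    apply sum_le_sum_of_subset_of_nonneg
    · rw [hG]; exact filter_subset _ _
    · intro x _ _
      positivity
  have h6 : (κ * E) ^ 2 ≤ C₄ ^ 2 * (G.card * (C₅ * E)) := by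
    calc (κ * E) ^ 2 ≤ (C₄ * ∑ x ∈ G, CT (TT x.1 x.2)) ^ 2 := pow_le_pow_left₀ (by positivity) h4 2
      _ = C₄ ^ 2 * (∑ x ∈ G, CT (TT x.1 x.2)) ^ 2 := by ring
      _ ≤ _ := by gcongr
  have h7 : E * (κ ^ 2 * E) ≤ E * (C₄ ^ 2 * C₅ * G.card) := by
    calc E * (κ ^ 2 * E) = (κ * E) ^ 2 := by ring
      _ ≤ _ := h6
      _ = _ := by ring
  have h8 := le_of_mul_le_mul_left h7 hE0
  rw [div_mul_eq_mul_div, div_le_iff₀ (by positivity)]
  linarith

end Pool.Agent.U455.PAR
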