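import Mathlib
import Pool.Agent.Y840.PT.Shift

/-!
# The upper bound sieve for sifted integers, with arbitrary residue classes
-/

set_option autoImplicit false
set_option maxHeartbeats 4000000

namespace Pool.Agent.U455.UPG

open Finset Filter Topology
open Pool.Agent.W218.MU (w loc SL Prim w_le w_le_p SL_hasProd loc_nonneg SL_nonneg)
open Pool.Agent.Y843.HS (Pr VV S_FIN)
open Pool.Agent.Y840.PT (V_le SL_ge P0 floor_pow alg)

open Classical in
/-- **The upper bound sieve** with arbitrary classes -/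
theorem up_gen (l : ℕ) (η : ℝ) (hη : 0 < η) : ∃ C : ℝ, 0 < C ∧ ∃ X₀ : ℕ, ∀ X : ℕ, X₀ ≤ X →
    ∀ T : Finset (ℕ × ℕ), Prim T → T.card = l → (∀ p : ℕ, p.Prime → w T p < p) →
    ∀ Q : ℕ → ℕ → Prop, (∀ p n, Q p n ↔ Q p (n % p)) →
      (∀ p : ℕ, p.Prime → w T p ≤ Pool.Agent.Y959.Sv.nu Q p ∧ Pool.Agent.Y959.Sv.nu Q p ≤ l) →
    (((Icc 1 X).filter (fun n => ∀ p : ℕ, p.Prime → (p : ℝ) ≤ (X : ℝ) ^ η → ¬ Q p n)).card : ℝ) ≤
      C * (SL T * (X / Real.log X ^ l)) := by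
  obtain ⟨K, z0, hK, hup⟩ := Pool.Agent.Y959.Sv.up_sieve l
  obtain ⟨C, hC, y₀, hy₀, hV⟩ := V_le l
  obtain ⟨c, hc0, hSLge⟩ := SL_ge l
  set M : ℝ := ∏ p ∈ P0 z0, (p : ℝ) with hM
  have hM0 : 0 < M := prod_pos fun p hp => by exact_mod_cast (mem_filter.1 hp).2.pos
  have hK0 : (0 : ℝ) < K := by exact_mod_cast hK
  set κ : ℝ := min η (1 / (2 * K)) with hκ
  have hκ0 : 0 < κ := lt_min hη (by positivity)
  have hκη : κ ≤ η := min_le_left _ _
  have hκK : κ ≤ 1 / (2 * K) := min_le_right _ _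
  have tN : Tendsto (fun N : ℕ => (N : ℝ)) atTop atTop := tendsto_natCast_atTop_atTop
  have hsmall : ∀ᶠ X : ℕ in atTop, Real.log (X : ℝ) ^ l * √(X : ℝ) ≤ c * X := by
    have h1 : (fun x : ℝ => Real.log x ^ l) =o[atTop] (fun x : ℝ => x ^ (1 / 2 : ℝ)) := by
      have := isLittleO_log_rpow_rpow_atTop (l : ℝ) (show (0 : ℝ) < 1 / 2 by norm_num)
      simpa [Real.rpow_natCast] using this
    have h2 := (h1.bound hc0)
    filter_upwards [tN.eventually h2, eventually_ge_atTop 1] with X hX hX1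
    have hX0 : (0 : ℝ) ≤ X := Nat.cast_nonneg X
    have hlog : 0 ≤ Real.log (X : ℝ) := Real.log_natCast_nonneg X
    rw [Real.norm_of_nonneg (by positivity), Real.norm_of_nonneg (by positivity),
      ← Real.sqrt_eq_rpow] at hX
    calc Real.log (X : ℝ) ^ l * √(X : ℝ) ≤ c * √(X : ℝ) * √(X : ℝ) := by gcongr
      _ = c * X := by rw [mul_assoc, Real.mul_self_sqrt hX0]
  obtain ⟨X₂, hX₂⟩ := eventually_atTop.1 ((floor_pow hκ0 (max y₀ 3)).and hsmall)
  refine ⟨2 * (M * (C * (2 / κ) ^ l)) + 1, by positivity, max X₂ 3,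
    fun X hX T hT hc hadm Q hper hnuQ => ?_⟩
  obtain ⟨⟨h1, h2, h3⟩, h4⟩ := hX₂ X ((le_max_left _ _).trans hX)
  have hX3 : 3 ≤ X := (le_max_right _ _).trans hX
  set y : ℕ := ⌊(X : ℝ) ^ κ⌋₊ with hy
  have hX0 : (0 : ℝ) < X := by exact_mod_cast (by omega : 0 < X)
  have hX1 : (1 : ℝ) ≤ X := by exact_mod_cast (by omega : 1 ≤ X)
  have hL : 0 < Real.log X := Real.log_pos (by exact_mod_cast (by omega : 1 < X))
  have hyκ : (y : ℝ) ≤ (X : ℝ) ^ κ := Nat.floor_le (by positivity)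
  have hyK' : (y : ℝ) ^ K ≤ √(X : ℝ) := by
    calc ((y : ℝ)) ^ K ≤ ((X : ℝ) ^ κ) ^ K := pow_le_pow_left₀ (Nat.cast_nonneg _) hyκ K
      _ ≤ ((X : ℝ) ^ (1 / (2 * (K : ℝ)))) ^ K := by
          apply pow_le_pow_left₀ (by positivity)
          exact Real.rpow_le_rpow_of_exponent_le hX1 hκK
      _ = √(X : ℝ) := by
          rw [← Real.rpow_natCast, ← Real.rpow_mul hX0.le]
          have e : 1 / (2 * (K : ℝ)) * K = 1 / 2 := by field_simp
          rw [e, ← Real.sqrt_eq_rpow]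
  have hyK : y ^ K ≤ X := by
    have h6 : √(X : ℝ) ≤ X := by
      rw [Real.sqrt_le_left hX0.le]
      have : (3 : ℝ) ≤ X := by exact_mod_cast hX3
      nlinarith
    exact_mod_cast hyK'.trans h6
  set P : Finset ℕ := (P0 y).filter (fun p => z0 < p) with hP
  have hPmem : ∀ p ∈ P, p.Prime ∧ z0 < p ∧ p ≤ y := by
    intro p hp
    rw [hP, mem_filter, P0, mem_filter, mem_Ioc] at hp
    exact ⟨hp.1.2, hp.2, by omega⟩
  have key := hup y X ((le_max_right _ _).trans h1) hyK Q hper P (by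
      intro p hp
      obtain ⟨a1, a2, a3⟩ := hPmem p hp
      exact ⟨a1, a2, a3, (hnuQ p a1).2⟩)
  have hcnt : (((Icc 1 X).filter (fun n => ∀ p : ℕ, p.Prime → (p : ℝ) ≤ (X : ℝ) ^ η → ¬ Q p n)).card : ℝ) ≤
      (((Icc 1 X).filter (fun n : ℕ => ∀ p ∈ P, ¬ Q p n)).card : ℝ) := by
    rw [Nat.cast_le]
    apply card_le_card
    intro n hn
    rw [mem_filter] at hn ⊢
    refine ⟨hn.1, fun p hp => ?_⟩
    obtain ⟨a1, a2, a3⟩ := hPmem p hp
    apply hn.2 p a1
    calc (p : ℝ) ≤ y := by exact_mod_cast a3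
      _ ≤ (X : ℝ) ^ κ := hyκ
      _ ≤ (X : ℝ) ^ η := Real.rpow_le_rpow_of_exponent_le hX1 hκη
  refine hcnt.trans (le_trans (le_of_eq ?_) (key.trans ?_))
  · congr!
  have hnu : ∏ p ∈ P, (1 - (Pool.Agent.Y959.Sv.nu Q p : ℝ) / p) ≤ ∏ p ∈ P, (1 - (w T p : ℝ) / p) := by
    apply Finset.prod_le_prod
    · intro p hp
      have hp0 : (0 : ℝ) < p := by exact_mod_cast (hPmem p hp).1.pos
      rw [sub_nonneg, div_le_one hp0]
      exact_mod_cast Pool.Agent.Y959.Sv.nu_le Q p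
    · intro p hp
      have hp0 : (0 : ℝ) < p := by exact_mod_cast (hPmem p hp).1.pos
      have h5 : (w T p : ℝ) ≤ Pool.Agent.Y959.Sv.nu Q p := by exact_mod_cast (hnuQ p (hPmem p hp).1).1
      gcongr
  -- compare with the full product
  have hfac : ∀ p ∈ P0 y, 1 / (p : ℝ) ≤ 1 - (w T p : ℝ) / p := by
    intro p hp
    have hpp := (mem_filter.1 hp).2
    have hp0 : (0 : ℝ) < p := by exact_mod_cast hpp.pos
    have h1 : (w T p : ℝ) + 1 ≤ p := by exact_mod_cast hadm p hpp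
    rw [le_sub_iff_add_le, ← add_div, div_le_one hp0]
    linarith
  have hfac0 : ∀ p ∈ P0 y, 0 < 1 - (w T p : ℝ) / p := by
    intro p hp
    have hp0 : (0 : ℝ) < p := by exact_mod_cast (mem_filter.1 hp).2.pos
    exact lt_of_lt_of_le (by positivity) (hfac p hp)
  have hV' := hV T hT hc y ((le_max_left _ _).trans h1)
  have hsplit : (∏ p ∈ P, (1 - (w T p : ℝ) / p)) *
      ∏ p ∈ (P0 y).filter (fun p => ¬ z0 < p), (1 - (w T p : ℝ) / p) =
      ∏ p ∈ P0 y, (1 - (w T p : ℝ) / p) := prod_filter_mul_prod_filter_not _ _ _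
  have hlow : 1 / M ≤ ∏ p ∈ (P0 y).filter (fun p => ¬ z0 < p), (1 - (w T p : ℝ) / p) := by
    have h5 : 1 / M ≤ ∏ p ∈ (P0 y).filter (fun p => ¬ z0 < p), 1 / (p : ℝ) := by
      rw [hM, prod_div_distrib, prod_const_one]
      apply one_div_le_one_div_of_le
      · exact prod_pos fun p hp => by exact_mod_cast (mem_filter.1 (mem_filter.1 hp).1).2.pos
      · apply prod_le_prod_of_subset_of_one_le
        · intro p hp
          rw [mem_filter, P0, mem_filter, mem_Ioc] at hp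
          rw [P0, mem_filter, mem_Ioc]
          exact ⟨⟨hp.1.1.1, by omega⟩, hp.1.2⟩
        · intro p _; positivity
        · intro p hp _
          exact_mod_cast (mem_filter.1 hp).2.one_lt.le
    refine h5.trans ?_
    apply Finset.prod_le_prod
    · intro p _; positivity
    · intro p hp
      exact hfac p (mem_filter.1 hp).1
  have hP0 : 0 ≤ ∏ p ∈ P, (1 - (w T p : ℝ) / p) :=
    prod_nonneg fun p hp => (hfac0 p (mem_filter.1 hp).1).le
  have hPle : ∏ p ∈ P, (1 - (w T p : ℝ) / p) ≤ M * ∏ p ∈ P0 y, (1 - (w T p : ℝ) / p) := by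
    rw [← hsplit]
    calc ∏ p ∈ P, (1 - (w T p : ℝ) / p) = M * ((∏ p ∈ P, (1 - (w T p : ℝ) / p)) * (1 / M)) := by
          field_simp
      _ ≤ _ := by gcongr
  have hSL0 : 0 ≤ SL T := SL_nonneg hT
  have hSLc := hSLge T hT hc hadm
  have h7 : ∏ p ∈ P0 y, (1 - (w T p : ℝ) / p) ≤ C * (2 / κ) ^ l * SL T / Real.log X ^ l := by
    refine hV'.trans ?_
    have h5 : (κ / 2 * Real.log X) ^ l ≤ Real.log y ^ l := pow_le_pow_left₀ (by positivity) h3 l
    calc C * SL T / Real.log y ^ l ≤ C * SL T / (κ / 2 * Real.log X) ^ l :=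
          div_le_div_of_nonneg_left (by positivity) (by positivity) h5
      _ = _ := alg C κ _ _ hκ0 hL l
  have h8 : √(X : ℝ) ≤ SL T * (X / Real.log X ^ l) := by
    rw [← mul_div_assoc, le_div_iff₀ (by positivity), mul_comm]
    refine h4.trans ?_
    gcongr
  calc 2 * (X * ∏ p ∈ P, (1 - (Pool.Agent.Y959.Sv.nu Q p : ℝ) / p)) + √(X : ℝ)
      ≤ 2 * (X * ∏ p ∈ P, (1 - (w T p : ℝ) / p)) + √(X : ℝ) := by gcongr
    _ ≤ 2 * (X * (M * (C * (2 / κ) ^ l * SL T / Real.log X ^ l))) + SL T * (X / Real.log X ^ l) := by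
        gcongr
        exact hPle.trans (mul_le_mul_of_nonneg_left h7 hM0.le)
    _ = _ := by ring

end Pool.Agent.U455.UPG
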