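import Mathlib
import Pool.Agent.U455.UPG
import Pool.Agent.U455.PAR
import Pool.Agent.U455.CGW
import Pool.Agent.X58.IV.Vol

/-!
# Gaps between consecutive elements of dense sets of sifted tuples
-/

set_option autoImplicit false
set_option maxHeartbeats 4000000

namespace Pool.Agent.U455.RTG

open Finset Filter Topology
open Pool.Agent.W218.MU (w SL Prim w_le w_le_p)
open Pool.Agent.H387R2.Uni (CT nuT CT_nonneg)
open Pool.Agent.TH891.SG (Gm one_le_Gm sum_Gm sum_Gm_dist Zc)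
open Pool.Agent.Y840.PT (sh prim_sh SL_sh w_sh dvd_mod)
open Pool.Agent.U455.CGW (Nx gaps_sum)

open Classical in
/-- the `n ∈ (a, a + H]` for which no `n + f`, `f ∈ F`, is divisible by a prime `p ≤ y` -/
noncomputable def Rough (F : Finset ℕ) (y : ℝ) (a H : ℕ) : Finset ℕ :=
  (Ioc a (a + H)).filter (fun n => ∀ f ∈ F, ∀ p : ℕ, p.Prime → (p : ℝ) ≤ y → ¬ p ∣ n + f)

lemma mem_Rough {F : Finset ℕ} {y : ℝ} {a H n : ℕ} : n ∈ Rough F y a H ↔ n ∈ Ioc a (a + H) ∧
    ∀ f ∈ F, ∀ p : ℕ, p.Prime → (p : ℝ) ≤ y → ¬ p ∣ n + f := by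
  classical
  unfold Rough
  rw [mem_filter]

open Classical in
/-- the upper bound sieve -/
theorem up_T (l : ℕ) (η : ℝ) (hη : 0 < η) : ∃ C : ℝ, 0 < C ∧ ∃ X₀ : ℕ, ∀ a H : ℕ, X₀ ≤ H →
    ∀ T : Finset ℕ, T.card = l →
    ((Rough T ((H : ℝ) ^ η) a H).card : ℝ) ≤ C * (CT T * (H / Real.log H ^ l)) := by
  obtain ⟨C, hC, X₁, h⟩ := UPG.up_gen l η hη
  have hlim : Tendsto (fun H : ℕ => (H : ℝ) ^ η) atTop atTop :=
    (tendsto_rpow_atTop hη).comp tendsto_natCast_atTop_atTop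
  obtain ⟨X₂, hX₂⟩ := eventually_atTop.1 (hlim.eventually_ge_atTop (l : ℝ))
  refine ⟨C, hC, max X₁ X₂, fun a H hH T hT => ?_⟩
  have hTc : (T.map sh).card = l := by rw [card_map, hT]
  by_cases hadm : ∀ p : ℕ, p.Prime → w (T.map sh) p < p
  · have h1 := h H ((le_max_left _ _).trans hH) (T.map sh) (prim_sh _) hTc hadm
      (fun p n => ∃ L ∈ T.map sh, p ∣ L.1 * (n + a) + L.2) (by
        intro p n
        apply exists_congr
        intro L
        have e1 : p ∣ L.1 * (n + a) + L.2 ↔ p ∣ L.1 * n + (L.1 * a + L.2) := by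
          rw [mul_add, add_assoc]
        have e2 : p ∣ L.1 * (n % p + a) + L.2 ↔ p ∣ L.1 * (n % p) + (L.1 * a + L.2) := by
          rw [mul_add, add_assoc]
        rw [e1, e2, ← dvd_mod]) (by
        intro p hp
        rw [Pool.Agent.Y840.PT.nu_shift, ← hTc]
        exact ⟨le_rfl, w_le (prim_sh _) hp⟩)
    rw [SL_sh] at h1
    refine le_trans ?_ h1
    rw [Nat.cast_le]
    apply card_le_card_of_injOn (fun n => n - a)
    · intro n hn
      rw [mem_coe, mem_Rough, mem_Ioc] at hn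
      rw [mem_coe, mem_filter, mem_Icc]
      obtain ⟨⟨n1, n2⟩, n3⟩ := hn
      refine ⟨⟨Nat.le_sub_of_add_le (by omega), Nat.sub_le_of_le_add (by omega)⟩, ?_⟩
      rintro p hp hpH ⟨L, hLT, hd⟩
      rw [Finset.mem_map] at hLT
      obtain ⟨t, ht, rfl⟩ := hLT
      have hd' : p ∣ 1 * (n - a + a) + t := hd
      rw [one_mul, Nat.sub_add_cancel n1.le] at hd'
      exact n3 t ht p hp hpH hd'
    · intro x hx y hy hxy
      rw [mem_coe, mem_Rough, mem_Ioc] at hx hy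
      have h' : x - a = y - a := hxy
      obtain ⟨⟨a1, a2⟩, _⟩ := hx
      obtain ⟨⟨b1, b2⟩, _⟩ := hy
      omega
  · push Not at hadm
    obtain ⟨p, hp, hpw⟩ := hadm
    rw [w_sh _ hp.pos] at hpw
    have hempty : Rough T ((H : ℝ) ^ η) a H = ∅ := by
      rw [Finset.eq_empty_iff_forall_notMem]
      intro q hq
      rw [mem_Rough, mem_Ioc] at hq
      have himg : T.image (· % p) = range p := by
        apply Finset.eq_of_subset_of_card_le
        · intro r hr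
          rw [mem_image] at hr
          obtain ⟨t, _, rfl⟩ := hr
          exact mem_range.2 (Nat.mod_lt _ hp.pos)
        · rw [card_range]
          exact hpw
      have hpl : p ≤ l := by
        have h2 : (T.image (· % p)).card ≤ T.card := card_image_le
        rw [himg, card_range, hT] at h2
        exact h2
      have h3 : (p - q % p) % p ∈ T.image (· % p) := by
        rw [himg]
        exact mem_range.2 (Nat.mod_lt _ hp.pos)
      rw [mem_image] at h3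
      obtain ⟨t, ht, h4⟩ := h3
      have h5 : p ∣ q + t := by
        have h6 : q % p < p := Nat.mod_lt _ hp.pos
        rw [Nat.dvd_iff_mod_eq_zero, Nat.add_mod, h4, Nat.add_mod_mod, Nat.add_sub_cancel' h6.le, Nat.mod_self]
      refine hq.2 t ht p hp ?_ h5
      have h6 := hX₂ H ((le_max_right _ _).trans hH)
      have h7 : (p : ℝ) ≤ l := by exact_mod_cast hpl
      linarith
    rw [hempty, card_empty, Nat.cast_zero]
    have h1 := CT_nonneg T
    have h2 : 0 ≤ Real.log (H : ℝ) := Real.log_natCast_nonneg H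
    positivity

/-- no class is excluded by `F` modulo any prime -/
def Adm (F : Finset ℕ) : Prop := ∀ p : ℕ, p.Prime → ∃ r : ℕ, ∀ f ∈ F, ¬ p ∣ r + f

/-- the lower bound sieve -/
theorem low_F (F : Finset ℕ) (hF : Adm F) : ∃ η c : ℝ, 0 < η ∧ 0 < c ∧ ∃ X₀ : ℕ, ∀ a H : ℕ, X₀ ≤ H →
    c * (H / Real.log H ^ F.card) ≤ (Rough F ((H : ℝ) ^ η) a H).card := by
  classical
  obtain ⟨η, c, hη, hc, X₁, hlow⟩ := Pool.Agent.Y840.PT.low F.card
  obtain ⟨c', hc', hV⟩ := Pool.Agent.X58.IV.VV_ge F.card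
  have hTc : (F.map sh).card = F.card := by rw [card_map]
  have hw : ∀ p : ℕ, p.Prime → w (F.map sh) p < p := by
    intro p hp
    obtain ⟨r, hr⟩ := hF p hp
    have h1 : (range p).filter (fun n => ∃ L ∈ F.map sh, p ∣ L.1 * n + L.2) ⊆ (range p).erase (r % p) := by
      intro n hn
      rw [mem_filter, mem_range] at hn
      obtain ⟨hn1, L, hL, hd⟩ := hn
      rw [Finset.mem_map] at hL
      obtain ⟨f, hf, rfl⟩ := hL
      have hd' : p ∣ 1 * n + f := hd
      rw [mem_erase, mem_range]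
      refine ⟨?_, hn1⟩
      rintro rfl
      apply hr f hf
      rw [← dvd_mod, one_mul] at hd'
      exact hd'
    have h2 := card_le_card h1
    rw [card_erase_of_mem (mem_range.2 (Nat.mod_lt _ hp.pos)), card_range] at h2
    have h3 := hp.pos
    have h4 : w (F.map sh) p ≤ p - 1 := by
      unfold w
      convert h2
    omega
  obtain ⟨X₂, hX₂⟩ := eventually_atTop.1 (Pool.Agent.Y840.PT.floor_pow hη 2)
  refine ⟨η, c * (c' / η ^ F.card), hη, by positivity, max X₁ (max X₂ 3), fun a H hH => ?_⟩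
  have hX₁ : X₁ ≤ H := (le_max_left _ _).trans hH
  obtain ⟨-, h2, -⟩ := hX₂ H ((le_max_left _ _).trans ((le_max_right _ _).trans hH))
  have hH3 : 3 ≤ H := (le_max_right _ _).trans ((le_max_right _ _).trans hH)
  have hH0 : (0 : ℝ) < H := by exact_mod_cast (by omega : 0 < H)
  have hlog : 0 < Real.log (H : ℝ) := Real.log_pos (by exact_mod_cast (by omega : 1 < H))
  have h3 := hlow H a hX₁ (F.map sh) (prim_sh _) hTc hw
  have h4 := hV (Pool.Agent.Y840.PT.ZT (F.map sh)) (by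
    intro p hp
    refine ⟨?_, hw p hp, fun c hcz => mem_range.1 (mem_filter.1 hcz).1⟩
    rw [Pool.Agent.Y840.PT.card_ZT, ← hTc]
    exact w_le (prim_sh _) hp) ⌊(H : ℝ) ^ η⌋₊ h2
  have hy1 : (1 : ℝ) < (⌊(H : ℝ) ^ η⌋₊ : ℝ) := by exact_mod_cast (by omega : 1 < ⌊(H : ℝ) ^ η⌋₊)
  have h5 : Real.log (⌊(H : ℝ) ^ η⌋₊ : ℝ) ≤ η * Real.log H := by
    rw [← Real.log_rpow hH0]
    exact Real.log_le_log (by linarith) (Nat.floor_le (by positivity))
  have h6 : 0 < Real.log (⌊(H : ℝ) ^ η⌋₊ : ℝ) := Real.log_pos hy1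
  have h7 : c' / (η * Real.log H) ^ F.card ≤ c' / Real.log (⌊(H : ℝ) ^ η⌋₊ : ℝ) ^ F.card := by
    apply div_le_div_of_nonneg_left hc'.le (by positivity)
    exact pow_le_pow_left₀ h6.le h5 _
  calc c * (c' / η ^ F.card) * (H / Real.log H ^ F.card) = c * H * (c' / (η * Real.log H) ^ F.card) := by
        rw [mul_pow]
        field_simp
    _ ≤ c * H * Pool.Agent.Y843.HS.VV (Pool.Agent.Y840.PT.ZT (F.map sh)) 0 ⌊(H : ℝ) ^ η⌋₊ := by
        apply mul_le_mul_of_nonneg_left (h7.trans h4) (by positivity)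
    _ ≤ _ := h3
    _ ≤ (Rough F ((H : ℝ) ^ η) a H).card := by
        rw [Nat.cast_le]
        apply card_le_card
        intro n hn
        rw [mem_filter] at hn
        rw [mem_Rough]
        refine ⟨hn.1, fun f hf p hp hpy hd => ?_⟩
        refine hn.2 (sh f) (mem_map_of_mem sh hf) p hp hpy ?_
        show p ∣ 1 * n + f
        rw [one_mul]
        exact hd

/-- the two shifted copies -/
def UU (F : Finset ℕ) (g : ℕ) : Finset ℕ := F ∪ F.image (· + g)

lemma UU_card {F : Finset ℕ} {D g : ℕ} (hD : ∀ f ∈ F, f ≤ D) (hg : D < g) : (UU F g).card = 2 * F.card := by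
  unfold UU
  rw [card_union_of_disjoint, card_image_of_injective _ (fun x y h => Nat.add_right_cancel h), two_mul]
  rw [disjoint_left]
  intro x hx hx'
  obtain ⟨f, _, rfl⟩ := mem_image.1 hx'
  have := hD _ hx
  omega

/-- second moment -/
theorem mom_U (F : Finset ℕ) (hF : F.Nonempty) (D : ℕ) (hD : ∀ f ∈ F, f ≤ D) : ∃ C : ℝ, 0 < C ∧ ∀ L : ℕ, 1 ≤ L →
    ∑ g ∈ Icc (D + 1) L, CT (UU F g) ^ 2 ≤ C * L := by
  classical
  obtain ⟨l, hl⟩ : ∃ l, l = F.card := ⟨_, rfl⟩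
  have hl1 : 1 ≤ l := by rw [hl]; exact hF.card_pos
  obtain ⟨A, hA⟩ : ∃ A : ℝ, A = (1 + 2) ^ (2 * (Pool.Agent.H386R2.HL.prs (2 * l)).card) := ⟨_, rfl⟩
  have hA0 : 0 ≤ A := by rw [hA]; positivity
  have hG0 : ∀ n, 0 ≤ Gm A n := fun n => zero_le_one.trans (one_le_Gm hA0 n)
  obtain ⟨E, hE⟩ : ∃ E : ℝ, E = Real.exp (A * Zc) := ⟨_, rfl⟩
  have hE0 : 0 < E := by rw [hE]; positivity
  obtain ⟨B0, hB0⟩ : ∃ B0 : ℝ, B0 = ∑ x ∈ F ×ˢ F, Gm A (Nat.dist x.2 x.1) := ⟨_, rfl⟩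
  have hB00 : 0 ≤ B0 := by rw [hB0]; exact sum_nonneg fun _ _ => hG0 _
  refine ⟨(2 * l) ^ 2 * (B0 + l ^ 2 * (2 * (E * (2 * D + 2)))) , by positivity, fun L hL => ?_⟩
  have hLR : (1 : ℝ) ≤ L := by exact_mod_cast hL
  have hpt : ∀ g ∈ Icc (D + 1) L, CT (UU F g) ^ 2 ≤ (2 * l) ^ 2 * (B0 + ∑ x ∈ F ×ˢ F, Gm A (Nat.dist (x.2 + g) x.1)) := by
    intro g hg
    rw [mem_Icc] at hg
    have hc := UU_card hD (show D < g by omega)
    rw [← hl] at hc
    have h6 := PAR.CT_pow_le 2 (2 * l) (by omega) (UU F g) hc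
    rw [← hA] at h6
    refine h6.trans ?_
    obtain ⟨S, hS⟩ : ∃ S : ℝ, S = ∑ x ∈ F ×ˢ F, Gm A (Nat.dist (x.2 + g) x.1) := ⟨_, rfl⟩
    rw [← hS]
    have hS0 : 0 ≤ S := by rw [hS]; exact sum_nonneg fun _ _ => hG0 _
    calc ∑ u ∈ (UU F g ×ˢ UU F g).filter (fun u => u.1 ≠ u.2), Gm A (Nat.dist u.2 u.1)
        ≤ ∑ u ∈ (UU F g ×ˢ UU F g).filter (fun u => u.1 ≠ u.2), (B0 + S) := by
          apply sum_le_sum
          intro u hu
          rw [mem_filter, mem_product] at hu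
          obtain ⟨⟨hu1, hu2⟩, hu3⟩ := hu
          have hB : ∀ f ∈ F, ∀ f' ∈ F, Gm A (Nat.dist f' f) ≤ B0 + S := by
            intro f hf f' hf'
            have : Gm A (Nat.dist f' f) ≤ B0 := by
              rw [hB0]
              exact single_le_sum (f := fun x : ℕ × ℕ => Gm A (Nat.dist x.2 x.1)) (fun _ _ => hG0 _)
                (mem_product.2 ⟨hf, hf'⟩ : (f, f') ∈ F ×ˢ F)
            linarith
          have hC : ∀ f ∈ F, ∀ f' ∈ F, Gm A (Nat.dist (f' + g) f) ≤ B0 + S := by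
            intro f hf f' hf'
            have : Gm A (Nat.dist (f' + g) f) ≤ S := by
              rw [hS]
              exact single_le_sum (f := fun x : ℕ × ℕ => Gm A (Nat.dist (x.2 + g) x.1)) (fun _ _ => hG0 _)
                (mem_product.2 ⟨hf, hf'⟩ : (f, f') ∈ F ×ˢ F)
            linarith
          unfold UU at hu1 hu2
          rw [mem_union, mem_image] at hu1 hu2
          rcases hu1 with h1 | ⟨f1, h1, e1⟩
          · rcases hu2 with h2 | ⟨f2, h2, e2⟩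
            · exact hB _ h1 _ h2
            · rw [← e2]
              exact hC _ h1 _ h2
          · rcases hu2 with h2 | ⟨f2, h2, e2⟩
            · rw [← e1, Nat.dist_comm]
              exact hC _ h2 _ h1
            · rw [← e1, ← e2]
              have : Nat.dist (f2 + g) (f1 + g) = Nat.dist f2 f1 := by unfold Nat.dist; omega
              rw [this]
              exact hB _ h1 _ h2
      _ = (((UU F g ×ˢ UU F g).filter (fun u => u.1 ≠ u.2)).card : ℝ) * (B0 + S) := by rw [sum_const, nsmul_eq_mul]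
      _ ≤ (2 * l) ^ 2 * (B0 + S) := by
          apply mul_le_mul_of_nonneg_right _ (by linarith)
          have h7 : ((UU F g ×ˢ UU F g).filter (fun u => u.1 ≠ u.2)).card ≤ (2 * l) ^ 2 := by
            refine (card_filter_le _ _).trans ?_
            rw [card_product, hc, sq]
          exact_mod_cast h7
  refine (sum_le_sum hpt).trans ?_
  rw [← mul_sum, mul_assoc]
  apply mul_le_mul_of_nonneg_left _ (by positivity)
  rw [sum_add_distrib, add_mul, sum_comm]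
  apply add_le_add
  · rw [sum_const, nsmul_eq_mul, Nat.card_Icc, mul_comm]
    apply mul_le_mul_of_nonneg_left _ hB00
    have : L + 1 - (D + 1) ≤ L := by omega
    exact_mod_cast this
  · calc ∑ x ∈ F ×ˢ F, ∑ g ∈ Icc (D + 1) L, Gm A (Nat.dist (x.2 + g) x.1)
        ≤ ∑ x ∈ F ×ˢ F, 2 * (E * (2 * D + 2)) * L := by
          apply sum_le_sum
          intro x hx
          rw [mem_product] at hx
          have hx1 := hD _ hx.1
          have hx2 := hD _ hx.2
          calc ∑ g ∈ Icc (D + 1) L, Gm A (Nat.dist (x.2 + g) x.1)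
              = ∑ n ∈ (Icc (D + 1) L).image (fun g => x.2 + g), Gm A (Nat.dist n x.1) := by
                rw [sum_image]
                intro y _ z _ hyz
                have : x.2 + y = x.2 + z := hyz
                omega
            _ ≤ ∑ n ∈ (range (D + L + 1)).erase x.1, Gm A (Nat.dist n x.1) := by
                apply sum_le_sum_of_subset_of_nonneg _ (fun _ _ _ => hG0 _)
                intro n hn
                obtain ⟨g, hg, rfl⟩ := mem_image.1 hn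
                rw [mem_Icc] at hg
                rw [mem_erase, mem_range]
                omega
            _ ≤ 2 * (Real.exp (A * Zc) * ((D + L + 1 : ℕ) : ℝ)) := sum_Gm_dist hA0 (D + L + 1) x.1 (by omega)
            _ ≤ 2 * (E * (2 * D + 2)) * L := by
                rw [← hE]
                have h8 : ((D + L + 1 : ℕ) : ℝ) ≤ (2 * D + 2) * L := by
                  push_cast
                  nlinarith [mul_nonneg (Nat.cast_nonneg (α := ℝ) D) (show (0 : ℝ) ≤ (L : ℝ) - 1 by linarith)]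
                calc 2 * (E * ((D + L + 1 : ℕ) : ℝ)) ≤ 2 * (E * ((2 * D + 2) * L)) := by gcongr
                  _ = _ := by ring
      _ = l ^ 2 * (2 * (E * (2 * D + 2))) * L := by
          rw [sum_const, nsmul_eq_mul, card_product, ← hl]
          push_cast
          ring

/-- the second moment method -/
theorem pz (I : Finset ℕ) (R s : ℕ → ℝ) (L V C C₃ κ : ℝ) (hL : 0 < L) (hV : 0 < V) (hC : 0 < C) (hC₃ : 0 < C₃)
    (hκ : 0 < κ) (h1 : ∀ g ∈ I, R g ≤ C * V * s g) (h2 : ∑ g ∈ I, s g ^ 2 ≤ C₃ * L) (h3 : (I.card : ℝ) ≤ L)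
    (h4 : 2 * κ * V * L ≤ ∑ g ∈ I, R g) :
    κ ^ 2 / (C ^ 2 * C₃) * L ≤ ((I.filter (fun g => κ * V ≤ R g)).card : ℝ) := by
  obtain ⟨G, hG⟩ : ∃ G, G = I.filter (fun g => κ * V ≤ R g) := ⟨_, rfl⟩
  rw [← hG]
  have hsplit := sum_filter_add_sum_filter_not I (fun g => κ * V ≤ R g) R
  rw [← hG] at hsplit
  have hsmall : ∑ g ∈ I.filter (fun g => ¬ κ * V ≤ R g), R g ≤ κ * V * L := by
    calc ∑ g ∈ I.filter (fun g => ¬ κ * V ≤ R g), R g
        ≤ ∑ g ∈ I.filter (fun g => ¬ κ * V ≤ R g), κ * V := by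
          apply sum_le_sum
          intro g hg
          exact (not_le.1 (mem_filter.1 hg).2).le
      _ = ((I.filter (fun g => ¬ κ * V ≤ R g)).card : ℝ) * (κ * V) := by rw [sum_const, nsmul_eq_mul]
      _ ≤ L * (κ * V) := by
          apply mul_le_mul_of_nonneg_right _ (by positivity)
          exact (Nat.cast_le.2 (card_filter_le _ _)).trans h3
      _ = κ * V * L := by ring
  have hGsum : κ * V * L ≤ ∑ g ∈ G, R g := by linarith
  have h5 : κ * V * L ≤ C * V * ∑ g ∈ G, s g := by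
    refine hGsum.trans ?_
    rw [mul_sum]
    exact sum_le_sum fun g hg => h1 g (by rw [hG, mem_filter] at hg; exact hg.1)
  have h6 : κ * L ≤ C * ∑ g ∈ G, s g := by
    have h7 : V * (κ * L) ≤ V * (C * ∑ g ∈ G, s g) := by
      calc V * (κ * L) = κ * V * L := by ring
        _ ≤ _ := h5
        _ = _ := by ring
    exact le_of_mul_le_mul_left h7 hV
  have h7 : (∑ g ∈ G, s g) ^ 2 ≤ G.card * (C₃ * L) := by
    refine sq_sum_le_card_mul_sum_sq.trans ?_
    apply mul_le_mul_of_nonneg_left _ (Nat.cast_nonneg _)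
    refine le_trans ?_ h2
    apply sum_le_sum_of_subset_of_nonneg
    · rw [hG]; exact filter_subset _ _
    · intro k _ _
      positivity
  have h8 : (κ * L) ^ 2 ≤ C ^ 2 * (G.card * (C₃ * L)) := by
    calc (κ * L) ^ 2 ≤ (C * ∑ g ∈ G, s g) ^ 2 := pow_le_pow_left₀ (by positivity) h6 2
      _ = C ^ 2 * (∑ g ∈ G, s g) ^ 2 := by ring
      _ ≤ _ := by gcongr
  have h9 : L * (κ ^ 2 * L) ≤ L * (C ^ 2 * C₃ * G.card) := by
    calc L * (κ ^ 2 * L) = (κ * L) ^ 2 := by ring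
      _ ≤ _ := h8
      _ = _ := by ring
  have h10 := le_of_mul_le_mul_left h9 hL
  rw [div_mul_eq_mul_div, div_le_iff₀ (by positivity)]
  linarith

open Classical in
/-- **A positive proportion of all gaps is popular** -/
theorem pop (F : Finset ℕ) (hF : F.Nonempty) (η δ : ℝ) (hη : 0 < η) (hδ : 0 < δ) :
    ∃ κ ρ K : ℝ, 0 < κ ∧ 0 < ρ ∧ 0 < K ∧ ∃ X₀ : ℕ,
    ∀ a H : ℕ, X₀ ≤ H → ∀ Q : Finset ℕ, Q ⊆ Rough F ((H : ℝ) ^ η) a H →
      δ * (H / Real.log H ^ F.card) ≤ Q.card → ∀ L : ℕ, K * Real.log H ^ F.card ≤ L →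
      (L : ℝ) ≤ 2 * (K * Real.log H ^ F.card) →
      ρ * L ≤ (((Icc 1 L).filter (fun g => κ * (H / Real.log H ^ (2 * F.card)) ≤
        ((Q.filter (Nx Q g)).card : ℝ))).card : ℝ) := by
  obtain ⟨l, hl⟩ : ∃ l, l = F.card := ⟨_, rfl⟩
  have hl1 : 1 ≤ l := by rw [hl]; exact hF.card_pos
  rw [← hl]
  obtain ⟨D, hD, hDF⟩ : ∃ D : ℕ, (∀ f ∈ F, f ≤ D) ∧ D ∈ F := ⟨F.max' hF, fun f hf => F.le_max' f hf, F.max'_mem hF⟩
  obtain ⟨C, hC, X₁, hup⟩ := up_T (2 * l) η hη
  obtain ⟨C₁, hC₁, X₂, hup1⟩ := up_T (l + 1) η hη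
  obtain ⟨C₃, hC₃, hmom⟩ := mom_U F hF D hD
  obtain ⟨K, hK⟩ : ∃ K : ℝ, K = 4 / δ := ⟨_, rfl⟩
  have hK0 : 0 < K := by rw [hK]; positivity
  obtain ⟨κ, hκ⟩ : ∃ κ : ℝ, κ = δ / (8 * K) := ⟨_, rfl⟩
  have hκ0 : 0 < κ := by rw [hκ]; positivity
  obtain ⟨Z, hZ⟩ : ∃ Z : ℝ, Z = ∑ g ∈ Icc 1 D, C₁ * CT (insert (D + g) F) := ⟨_, rfl⟩
  have hZ0 : 0 ≤ Z := by rw [hZ]; exact sum_nonneg fun g _ => mul_nonneg hC₁.le (CT_nonneg _)
  -- `H / log^l H` is large
  have hlim : Tendsto (fun H : ℕ => (H : ℝ) / Real.log H ^ l) atTop atTop := by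
    have h1 : Tendsto (fun x : ℝ => x / Real.log x ^ l) atTop atTop := by
      have h2 : Tendsto (fun y : ℝ => Real.exp y / y ^ l) atTop atTop := Real.tendsto_exp_div_pow_atTop l
      have h3 := h2.comp Real.tendsto_log_atTop
      refine h3.congr' ?_
      filter_upwards [eventually_gt_atTop (0 : ℝ)] with x hx
      simp [Real.exp_log hx]
    exact h1.comp tendsto_natCast_atTop_atTop
  have hlim2 : Tendsto (fun H : ℕ => Real.log (H : ℝ)) atTop atTop :=
    Real.tendsto_log_atTop.comp tendsto_natCast_atTop_atTop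
  obtain ⟨X₃, hX₃⟩ := eventually_atTop.1 ((hlim.eventually_ge_atTop (8 / δ)).and
    (hlim2.eventually_ge_atTop (max 1 (8 * Z / δ))))
  refine ⟨κ, κ ^ 2 / (C ^ 2 * C₃), K, hκ0, by positivity, hK0, max (max X₁ X₂) (max X₃ 3),
    fun a H hH Q hQ hQc L hL1 hL2 => ?_⟩
  have hX₁ : X₁ ≤ H := (le_max_left _ _).trans ((le_max_left _ _).trans hH)
  have hX₂ : X₂ ≤ H := (le_max_right _ _).trans ((le_max_left _ _).trans hH)
  obtain ⟨hb1, hb2⟩ := hX₃ H ((le_max_left _ _).trans ((le_max_right _ _).trans hH))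
  have hH3 : 3 ≤ H := (le_max_right _ _).trans ((le_max_right _ _).trans hH)
  have hHR : (3 : ℝ) ≤ H := by exact_mod_cast hH3
  have hlog1 : 1 ≤ Real.log H := (le_max_left _ _).trans hb2
  have hlogZ : 8 * Z / δ ≤ Real.log H := (le_max_right _ _).trans hb2
  have hlog0 : 0 < Real.log (H : ℝ) := by linarith
  have hH0 : (0 : ℝ) < H := by linarith
  obtain ⟨Λ, hΛ⟩ : ∃ Λ : ℝ, Λ = Real.log H ^ l := ⟨_, rfl⟩
  have hΛ0 : 0 < Λ := by rw [hΛ]; positivity
  have hΛ2 : Real.log (H : ℝ) ^ (2 * l) = Λ ^ 2 := by rw [hΛ, ← pow_mul, mul_comm 2 l]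
  rw [← hΛ] at hL1 hL2 hQc hb1
  rw [hΛ2]
  have hL0 : (0 : ℝ) < L := lt_of_lt_of_le (by positivity) hL1
  have hL1' : 1 ≤ L := by exact_mod_cast hL0
  have hQI : Q ⊆ Ioc a (a + H) := fun q hq => (mem_Rough.1 (hQ hq)).1
  obtain ⟨R, hR⟩ : ∃ R : ℕ → ℝ, R = fun g => ((Q.filter (Nx Q g)).card : ℝ) := ⟨_, rfl⟩
  have hRg : ∀ g, ((Q.filter (Nx Q g)).card : ℝ) = R g := fun g => by rw [hR]
  have hR0 : ∀ g, 0 ≤ R g := fun g => by rw [hR]; positivity
  -- all gaps
  have hgap : δ / 2 * (H / Λ) ≤ ∑ g ∈ Icc (D + 1) L, R g := by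
    have h1 := gaps_sum Q a H L hQI
    have h3 : (Q.card : ℝ) ≤ 1 + ((H / (L + 1) : ℕ) : ℝ) + ∑ g ∈ Icc 1 L, ((Q.filter (Nx Q g)).card : ℝ) := by
      exact_mod_cast h1
    simp only [hRg] at h3
    have h4 : ((H / (L + 1) : ℕ) : ℝ) ≤ (H : ℝ) / ((L + 1 : ℕ) : ℝ) := Nat.cast_div_le
    have h5 : (H : ℝ) / ((L + 1 : ℕ) : ℝ) ≤ δ / 4 * (H / Λ) := by
      have h6 : K * Λ ≤ ((L + 1 : ℕ) : ℝ) := by
        push_cast
        linarith
      calc (H : ℝ) / ((L + 1 : ℕ) : ℝ) ≤ H / (K * Λ) := by gcongr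
        _ = δ / 4 * (H / Λ) := by
            rw [hK]
            field_simp
    have h6 : 1 ≤ δ / 8 * (H / Λ) := by
      calc (1 : ℝ) = δ / 8 * (8 / δ) := by field_simp
        _ ≤ _ := by gcongr
    have h7 : ∑ g ∈ Icc 1 L, R g ≤ ∑ g ∈ Icc 1 D, R g + ∑ g ∈ Icc (D + 1) L, R g := by
      have h8 : Icc 1 L ⊆ Icc 1 D ∪ Icc (D + 1) L := by
        intro g hg
        rw [mem_union, mem_Icc, mem_Icc]
        rw [mem_Icc] at hg
        omega
      have h9 : Disjoint (Icc 1 D) (Icc (D + 1) L) := by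
        rw [disjoint_left]
        intro g hg hg'
        rw [mem_Icc] at hg hg'
        omega
      rw [← sum_union h9]
      exact sum_le_sum_of_subset_of_nonneg h8 fun g _ _ => hR0 g
    have h8 : ∑ g ∈ Icc 1 D, R g ≤ δ / 8 * (H / Λ) := by
      have h9 : ∀ g ∈ Icc 1 D, R g ≤ C₁ * CT (insert (D + g) F) * (H / (Real.log H ^ (l + 1))) := by
        intro g hg
        rw [mem_Icc] at hg
        have hnot : D + g ∉ F := fun h => by
          have := hD _ h
          omega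
        have hc : (insert (D + g) F).card = l + 1 := by rw [card_insert_of_notMem hnot, hl]
        have h1 := hup1 a H hX₂ (insert (D + g) F) hc
        have h2 : R g ≤ ((Rough (insert (D + g) F) ((H : ℝ) ^ η) a H).card : ℝ) := by
          rw [hR]
          refine Nat.cast_le.2 (card_le_card fun q hq => ?_)
          rw [mem_filter] at hq
          have h3 := mem_Rough.1 (hQ hq.1)
          have h4 := mem_Rough.1 (hQ hq.2.1)
          rw [mem_Rough]
          refine ⟨h3.1, fun f hf => ?_⟩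
          rw [mem_insert] at hf
          rcases hf with rfl | hf
          · have e : q + (D + g) = q + g + D := by ring
            rw [e]
            exact h4.2 D hDF
          · exact h3.2 f hf
        calc R g ≤ _ := h2
          _ ≤ _ := h1
          _ = _ := by ring
      calc ∑ g ∈ Icc 1 D, R g ≤ ∑ g ∈ Icc 1 D, C₁ * CT (insert (D + g) F) * (H / (Real.log H ^ (l + 1))) :=
            sum_le_sum h9
        _ = Z * (H / (Real.log H ^ (l + 1))) := by rw [← sum_mul, hZ]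
        _ = (Z / Real.log H) * (H / Λ) := by
            rw [hΛ, pow_succ]
            field_simp
        _ ≤ δ / 8 * (H / Λ) := by
            apply mul_le_mul_of_nonneg_right _ (by positivity)
            rw [div_le_iff₀ hlog0]
            rw [div_le_iff₀ hδ] at hlogZ
            linarith
    linarith
  simp only [hRg]
  have hkey := pz (Icc (D + 1) L) R (fun g => CT (UU F g)) L (H / Λ ^ 2) C C₃ κ hL0 (by positivity) hC hC₃ hκ0 (by
      intro g hg
      rw [mem_Icc] at hg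
      have h1 := hup a H hX₁ (UU F g) (by rw [UU_card hD (show D < g by omega), hl])
      rw [hΛ2] at h1
      have h2 : R g ≤ ((Rough (UU F g) ((H : ℝ) ^ η) a H).card : ℝ) := by
        rw [hR]
        refine Nat.cast_le.2 (card_le_card fun q hq => ?_)
        rw [mem_filter] at hq
        have h3 := mem_Rough.1 (hQ hq.1)
        have h4 := mem_Rough.1 (hQ hq.2.1)
        rw [mem_Rough]
        refine ⟨h3.1, fun f hf => ?_⟩
        unfold UU at hf
        rw [mem_union, mem_image] at hf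
        rcases hf with hf | ⟨f', hf', rfl⟩
        · exact h3.2 f hf
        · have e : q + (f' + g) = q + g + f' := by ring
          rw [e]
          exact h4.2 f' hf'
      calc R g ≤ _ := h2
        _ ≤ _ := h1
        _ = _ := by ring) (hmom L hL1') (by
      rw [Nat.card_Icc]
      have : L + 1 - (D + 1) ≤ L := by omega
      exact_mod_cast this) (by
      refine le_trans ?_ hgap
      calc 2 * κ * (H / Λ ^ 2) * L ≤ 2 * κ * (H / Λ ^ 2) * (2 * (K * Λ)) := by gcongr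
        _ = δ / 2 * (H / Λ) := by
            rw [hκ]
            field_simp
            norm_num)
  refine hkey.trans (Nat.cast_le.2 (card_le_card fun g hg => ?_))
  rw [mem_filter, mem_Icc] at hg ⊢
  exact ⟨⟨by omega, hg.1.2⟩, hg.2⟩

/-- economical sums from the density at one scale -/
theorem econ (ρ K₁ : ℝ) (hρ : 0 < ρ) (hK₁ : 0 < K₁) : ∃ h M : ℕ, 1 ≤ M ∧ ∃ K Λ₀ : ℝ, 0 < K ∧ ∀ Λ : ℝ, Λ₀ ≤ Λ →
    ∀ A : ℕ → Prop, (∀ L : ℕ, K₁ * Λ ≤ L → (L : ℝ) ≤ 2 * (K₁ * Λ) → ∃ S : Finset ℕ, S ⊆ Icc 1 L ∧ (∀ g ∈ S, A g) ∧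
      ρ * L ≤ (S.card : ℝ)) → ∀ t : ℕ, M ∣ t → K * Λ ≤ t →
    ∃ l : List ℕ, l.length * Λ ≤ h * t ∧ l.sum = t ∧ ∀ g ∈ l, A g ∧ 1 ≤ g ∧ g ≤ K * Λ := by
  classical
  obtain ⟨D, hD⟩ : ∃ D : ℕ, 1 / ((D : ℝ) + 1) < ρ := exists_nat_one_div_lt hρ
  obtain ⟨D', hD'⟩ : ∃ D', D' = max D 1 := ⟨_, rfl⟩
  have hD1 : 1 ≤ D' := by rw [hD']; exact le_max_right _ _
  have hDρ : 1 / ((D' : ℝ) + 1) < ρ := by
    refine lt_of_le_of_lt ?_ hD
    apply one_div_le_one_div_of_le (by positivity)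
    have : (D : ℝ) ≤ D' := by rw [hD']; exact_mod_cast le_max_left _ _
    linarith
  obtain ⟨h₁, N₁, hloc⟩ := BTG.local_ap D' hD1 ρ hDρ
  obtain ⟨h₂, hh₂⟩ := exists_nat_ge (1 / K₁)
  obtain ⟨W, hW⟩ : ∃ W : ℕ, W = (h₁ + 1) * (h₁ + D') := ⟨_, rfl⟩
  refine ⟨2 * (h₁ * h₂), D'.factorial, Nat.factorial_pos _, 2 * (W + 1) * K₁, max (N₁ : ℝ) 1 / K₁,
    by positivity, fun Λ hΛ A hA t hMt htK => ?_⟩
  rw [div_le_iff₀ hK₁, mul_comm] at hΛ
  have hKl1 : (N₁ : ℝ) ≤ K₁ * Λ := (le_max_left _ _).trans hΛ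
  have hKl2 : 1 ≤ K₁ * Λ := (le_max_right _ _).trans hΛ
  have hΛ0 : 0 < Λ := by
    by_contra hcon
    push Not at hcon
    nlinarith
  obtain ⟨L, hL⟩ : ∃ L, L = ⌈K₁ * Λ⌉₊ := ⟨_, rfl⟩
  have hL1 : K₁ * Λ ≤ L := by rw [hL]; exact Nat.le_ceil _
  have hL2 : (L : ℝ) ≤ 2 * (K₁ * Λ) := by
    have : (L : ℝ) < K₁ * Λ + 1 := by rw [hL]; exact Nat.ceil_lt_add_one (by linarith)
    linarith
  have hL0 : N₁ ≤ L := by
    have : (N₁ : ℝ) ≤ L := hKl1.trans hL1
    exact_mod_cast this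
  have hLpos : 1 ≤ L := by
    have : (1 : ℝ) ≤ L := hKl2.trans hL1
    exact_mod_cast this
  obtain ⟨S, hS1, hS2, hS3⟩ := hA L hL1 hL2
  obtain ⟨B, hB⟩ : ∃ B : ℕ → Prop, B = fun k => A k ∧ 1 ≤ k ∧ k ≤ L := ⟨_, rfl⟩
  obtain ⟨d, s, hd, hds, hs, hap⟩ := hloc B L hL0 (by
      refine hS3.trans (Nat.cast_le.2 (card_le_card fun k hk => ?_))
      rw [mem_filter]
      refine ⟨hS1 hk, ?_⟩
      rw [hB]
      exact ⟨hS2 k hk, (mem_Icc.1 (hS1 hk)).1, (mem_Icc.1 (hS1 hk)).2⟩)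
  have hdt : d ∣ t := (Nat.dvd_factorial (by omega) hd.2).trans hMt
  -- the size of `t`
  have htW : (W + 1) * L ≤ t := by
    have h2 : (((W + 1) * L : ℕ) : ℝ) ≤ (t : ℝ) := by
      have hW0 : (0 : ℝ) ≤ (W : ℝ) + 1 := by positivity
      have h3 := mul_le_mul_of_nonneg_left hL2 hW0
      push_cast
      nlinarith
    exact_mod_cast h2
  have hsdL : 0 < s + d * L := by
    have : 1 ≤ d * L := Nat.mul_pos hd.1 hLpos
    omega
  obtain ⟨q, hq⟩ : ∃ q, q = t / (s + d * L) := ⟨_, rfl⟩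
  have hq1 : q * (s + d * L) ≤ t := by rw [hq]; exact Nat.div_mul_le_self _ _
  have hq2 : t < (q + 1) * (s + d * L) := by
    rw [hq, add_mul, one_mul]
    exact Nat.lt_div_mul_add hsdL
  have hsle : s + d * L ≤ (h₁ + D') * L := by
    rw [add_mul]
    exact Nat.add_le_add hs (Nat.mul_le_mul_right _ hd.2)
  have hqh : h₁ ≤ q := by
    rw [hq, Nat.le_div_iff_mul_le hsdL]
    calc h₁ * (s + d * L) ≤ (h₁ + 1) * ((h₁ + D') * L) := Nat.mul_le_mul (by omega) hsle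
      _ = W * L := by rw [hW]; ring
      _ ≤ (W + 1) * L := Nat.mul_le_mul_right _ (by omega)
      _ ≤ t := htW
  have hqs : (q + 1) * s ≤ t := by
    have h1 : s ≤ q * (d * L) := by
      calc s ≤ h₁ * L := hs
        _ ≤ q * (d * L) := Nat.mul_le_mul hqh (Nat.le_mul_of_pos_left _ hd.1)
    rw [mul_add] at hq1
    rw [add_mul, one_mul]
    omega
  obtain ⟨n, hn⟩ : d ∣ t - (q + 1) * s := Nat.dvd_sub hdt (hds.mul_left _)
  have hnL : n ≤ (q + 1) * L := by
    have h1 : d * n < d * ((q + 1) * L) := by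
      rw [← hn]
      have : d * ((q + 1) * L) = (q + 1) * (d * L) := by ring
      rw [this]
      rw [mul_add] at hq2
      omega
    exact (lt_of_mul_lt_mul_left h1 (Nat.zero_le _)).le
  obtain ⟨l, hl1, hl2, hl3⟩ := CGW.comb B h₁ s d L hap (q + 1) n hnL
  refine ⟨l, ?_, ?_, fun g hg => ?_⟩
  · -- the number of terms
    have h1 : (q + 1) * L ≤ 2 * t := by
      have h2 : q * L ≤ q * (s + d * L) := by
        apply Nat.mul_le_mul_left
        have : L ≤ d * L := Nat.le_mul_of_pos_left _ hd.1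
        omega
      have h3 : L ≤ t := le_trans (Nat.le_mul_of_pos_left _ (by omega)) htW
      rw [add_mul, one_mul]
      omega
    have h2 : (((q + 1) * L : ℕ) : ℝ) ≤ 2 * t := by exact_mod_cast h1
    have h3 : (l.length : ℝ) ≤ (((q + 1) * h₁ : ℕ) : ℝ) := by exact_mod_cast hl1
    push_cast at h2 h3 ⊢
    have h4 : Λ ≤ h₂ * L := by
      have h5 : 1 ≤ K₁ * h₂ := by
        rw [div_le_iff₀ hK₁] at hh₂
        linarith
      calc Λ ≤ (K₁ * h₂) * Λ := le_mul_of_one_le_left hΛ0.le h5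
        _ = h₂ * (K₁ * Λ) := by ring
        _ ≤ h₂ * L := by gcongr
    calc (l.length : ℝ) * Λ ≤ ((q + 1) * h₁) * (h₂ * L) := mul_le_mul h3 h4 hΛ0.le (by positivity)
      _ = h₁ * h₂ * ((q + 1) * L) := by ring
      _ ≤ h₁ * h₂ * (2 * t) := by gcongr
      _ = 2 * (h₁ * h₂) * t := by ring
  · rw [hl3, ← hn]
    omega
  · have hBg := hl2 g hg
    rw [hB] at hBg
    obtain ⟨h1, h2, h3⟩ := hBg
    refine ⟨h1, h2, ?_⟩
    have h4 : (g : ℝ) ≤ L := by exact_mod_cast h3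
    have hW0 : (0 : ℝ) ≤ W := Nat.cast_nonneg _
    calc (g : ℝ) ≤ 2 * (K₁ * Λ) := by linarith
      _ ≤ 2 * (W + 1) * K₁ * Λ := by nlinarith [mul_nonneg hW0 (mul_nonneg hK₁.le hΛ0.le)]

open Classical in
/-- **Every multiple of a number is an economical sum of popular gaps.** -/
theorem main (F : Finset ℕ) (hF : F.Nonempty) (η δ : ℝ) (hη : 0 < η) (hδ : 0 < δ) :
    ∃ h M : ℕ, 1 ≤ M ∧ ∃ κ K : ℝ, 0 < κ ∧ 0 < K ∧ ∃ X₀ : ℕ,
    ∀ a H : ℕ, X₀ ≤ H → ∀ Q : Finset ℕ, Q ⊆ Rough F ((H : ℝ) ^ η) a H →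
      δ * (H / Real.log H ^ F.card) ≤ Q.card → ∀ t : ℕ, M ∣ t → K * Real.log H ^ F.card ≤ t →
      ∃ l : List ℕ, l.length * Real.log H ^ F.card ≤ h * t ∧ l.sum = t ∧ ∀ g ∈ l, 1 ≤ g ∧
        g ≤ K * Real.log H ^ F.card ∧
        κ * (H / Real.log H ^ (2 * F.card)) ≤ ((Q.filter (Nx Q g)).card : ℝ) := by
  obtain ⟨κ, ρ, K₁, hκ, hρ, hK₁, X₁, hpop⟩ := pop F hF η δ hη hδ
  obtain ⟨h, M, hM, K, Λ₀, hK, hec⟩ := econ ρ K₁ hρ hK₁
  have hlim2 : Tendsto (fun H : ℕ => Real.log (H : ℝ) ^ F.card) atTop atTop :=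
    (tendsto_pow_atTop hF.card_pos.ne').comp (Real.tendsto_log_atTop.comp tendsto_natCast_atTop_atTop)
  obtain ⟨X₃, hX₃⟩ := eventually_atTop.1 (hlim2.eventually_ge_atTop Λ₀)
  refine ⟨h, M, hM, κ, K, hκ, hK, max X₁ X₃, fun a H hH Q hQ hQc t hMt htK => ?_⟩
  obtain ⟨l, h1, h2, h3⟩ := hec (Real.log (H : ℝ) ^ F.card) (hX₃ H ((le_max_right _ _).trans hH))
    (fun g => κ * (H / Real.log H ^ (2 * F.card)) ≤ ((Q.filter (Nx Q g)).card : ℝ)) (by
      intro L hL1 hL2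
      refine ⟨_, filter_subset _ _, ?_, hpop a H ((le_max_left _ _).trans hH) Q hQ hQc L hL1 hL2⟩
      intro g hg
      exact (mem_filter.1 hg).2) t hMt htK
  exact ⟨l, h1, h2, fun g hg => ⟨(h3 g hg).2.1, (h3 g hg).2.2, (h3 g hg).1⟩⟩

end Pool.Agent.U455.RTG
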