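import Mathlib
import Pool.Agent.U455.KTW
import Pool.Agent.U455.BTG

/-!
# Vectors as bounded sums of popular shapes
-/

set_option autoImplicit false
set_option maxHeartbeats 4000000

namespace Pool.Agent.U455.VEC

open Finset Filter
open Pool.Agent.U455.KTW (shs pos dil popular)

open Classical in
/-- the elements `p` of `Q` with all `p + d i` in `Q` -/
noncomputable def occ {k : ℕ} (Q : Finset ℕ) (d : Fin k → ℤ) : Finset ℕ :=
  Q.filter (fun p => ∀ i, ∃ q ∈ Q, (q : ℤ) = p + d i)

lemma mem_occ {k : ℕ} {Q : Finset ℕ} {d : Fin k → ℤ} {p : ℕ} :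
    p ∈ occ Q d ↔ p ∈ Q ∧ ∀ i, ∃ q ∈ Q, (q : ℤ) = p + d i := by
  classical
  unfold occ
  rw [mem_filter]

/-- the shape seen from the `a`-th point -/
def rot {k : ℕ} (d : Fin k → ℤ) (a : Fin (k + 1)) : Fin k → ℤ := fun i =>
  (Fin.cons 0 d : Fin (k + 1) → ℤ) (a + i.succ) - (Fin.cons 0 d : Fin (k + 1) → ℤ) a

lemma rot_zero {k : ℕ} (d : Fin k → ℤ) : rot d 0 = d := by
  funext i
  unfold rot
  rw [zero_add, Fin.cons_succ, Fin.cons_zero, sub_zero]

lemma sum_rot {k : ℕ} (d : Fin k → ℤ) : ∑ a, rot d a = 0 := by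
  funext i
  rw [Finset.sum_apply]
  unfold rot
  rw [Finset.sum_sub_distrib, Pi.zero_apply, sub_eq_zero]
  exact Equiv.sum_comp (Equiv.addRight i.succ) (Fin.cons 0 d : Fin (k + 1) → ℤ)

lemma cons_inj {k : ℕ} {d : Fin k → ℤ} (h0 : ∀ i, d i ≠ 0) (hd : Function.Injective d) :
    Function.Injective (Fin.cons 0 d : Fin (k + 1) → ℤ) := by
  rw [Fin.cons_injective_iff]
  refine ⟨?_, hd⟩
  rintro ⟨i, hi⟩
  exact h0 i hi

lemma rot_good {k : ℕ} {d : Fin k → ℤ} (h0 : ∀ i, d i ≠ 0) (hd : Function.Injective d) (a : Fin (k + 1)) :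
    (∀ i, rot d a i ≠ 0) ∧ Function.Injective (rot d a) := by
  have hx := cons_inj h0 hd
  constructor
  · intro i h
    unfold rot at h
    rw [sub_eq_zero] at h
    have h1 := hx h
    have h2 : i.succ = 0 := by
      have h3 : a + i.succ = a + 0 := by rw [h1, add_zero]
      exact add_left_cancel h3
    exact Fin.succ_ne_zero i h2
  · intro i j h
    unfold rot at h
    have h1 := hx (sub_left_injective h)
    have h2 := add_left_cancel h1
    exact Fin.succ_injective _ h2

lemma occ_rot {k : ℕ} (Q : Finset ℕ) (d : Fin k → ℤ) (a : Fin (k + 1)) : (occ Q d).card ≤ (occ Q (rot d a)).card := by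
  have hx : ∀ p ∈ occ Q d, ∀ b : Fin (k + 1), ∃ q ∈ Q, (q : ℤ) = p + (Fin.cons 0 d : Fin (k + 1) → ℤ) b := by
    intro p hp b
    rw [mem_occ] at hp
    rcases Fin.eq_zero_or_eq_succ b with rfl | ⟨i, rfl⟩
    · exact ⟨p, hp.1, by rw [Fin.cons_zero, add_zero]⟩
    · obtain ⟨q, hq, hq'⟩ := hp.2 i
      exact ⟨q, hq, by rw [Fin.cons_succ, hq']⟩
  apply card_le_card_of_injOn (fun p : ℕ => ((p : ℤ) + (Fin.cons 0 d : Fin (k + 1) → ℤ) a).toNat)
  · intro p hp
    rw [mem_coe] at hp
    rw [mem_coe, mem_occ]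
    obtain ⟨q, hq, hq'⟩ := hx p hp a
    have e : ((p : ℤ) + (Fin.cons 0 d : Fin (k + 1) → ℤ) a).toNat = q := by rw [← hq', Int.toNat_natCast]
    simp only [e]
    refine ⟨hq, fun i => ?_⟩
    obtain ⟨r, hr, hr'⟩ := hx p hp (a + i.succ)
    refine ⟨r, hr, ?_⟩
    rw [hr', hq']
    unfold rot
    ring
  · intro p hp p' hp' h
    rw [mem_coe] at hp hp'
    obtain ⟨q, hq, hq'⟩ := hx p hp a
    obtain ⟨r, hr, hr'⟩ := hx p' hp' a
    have e : ((p : ℤ) + (Fin.cons 0 d : Fin (k + 1) → ℤ) a).toNat = q := by rw [← hq', Int.toNat_natCast]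
    have e' : ((p' : ℤ) + (Fin.cons 0 d : Fin (k + 1) → ℤ) a).toNat = r := by rw [← hr', Int.toNat_natCast]
    simp only [e, e'] at h
    rw [h] at hq'
    have : (p : ℤ) = p' := by linarith
    exact_mod_cast this

/-- sums of at most `h` elements of `G` -/
def RR {k : ℕ} (G : (Fin k → ℤ) → Prop) (h : ℕ) (t : Fin k → ℤ) : Prop :=
  ∃ l : List (Fin k → ℤ), l.length ≤ h ∧ l.sum = t ∧ ∀ d ∈ l, G d

lemma RR_zero {k : ℕ} (G : (Fin k → ℤ) → Prop) : RR G 0 0 := ⟨[], by simp, by simp, by simp⟩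

lemma RR_one {k : ℕ} {G : (Fin k → ℤ) → Prop} {d : Fin k → ℤ} (hd : G d) : RR G 1 d :=
  ⟨[d], by simp, by simp, by simpa using hd⟩

lemma RR_add {k : ℕ} {G : (Fin k → ℤ) → Prop} {h h' : ℕ} {t t' : Fin k → ℤ} (H : RR G h t) (H' : RR G h' t') :
    RR G (h + h') (t + t') := by
  obtain ⟨l, h1, h2, h3⟩ := H
  obtain ⟨l', h1', h2', h3'⟩ := H'
  refine ⟨l ++ l', ?_, ?_, fun d hd => ?_⟩
  · rw [List.length_append]; omega
  · rw [List.sum_append, h2, h2']
  · rcases List.mem_append.1 hd with hd | hd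
    · exact h3 d hd
    · exact h3' d hd

lemma RR_mono {k : ℕ} {G : (Fin k → ℤ) → Prop} {h h' : ℕ} {t : Fin k → ℤ} (H : RR G h t) (hh : h ≤ h') : RR G h' t := by
  obtain ⟨l, h1, h2, h3⟩ := H
  exact ⟨l, h1.trans hh, h2, h3⟩

lemma RR_sum {k : ℕ} {G : (Fin k → ℤ) → Prop} {h : ℕ} {ι : Type} (s : Finset ι) (f : ι → Fin k → ℤ)
    (H : ∀ i ∈ s, RR G h (f i)) : RR G (s.card * h) (∑ i ∈ s, f i) := by
  classical
  induction s using Finset.induction_on with
  | empty => simpa using RR_zero G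
  | insert a s ha ih =>
    rw [sum_insert ha, card_insert_of_notMem ha, add_mul, one_mul, add_comm (s.card * h)]
    exact RR_add (H a (mem_insert_self _ _)) (ih fun i hi => H i (mem_insert_of_mem hi))

lemma RR_list {k : ℕ} {G : (Fin k → ℤ) → Prop} {h : ℕ} (l : List ℕ) (f : ℕ → Fin k → ℤ)
    (H : ∀ v ∈ l, RR G h (f v)) : RR G (l.length * h) (l.map f).sum := by
  induction l with
  | nil => simpa using RR_zero G
  | cons b l ih =>
    rw [List.map_cons, List.sum_cons, List.length_cons, add_mul, one_mul, add_comm (l.length * h)]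
    exact RR_add (H b (by simp)) (ih fun v hv => H v (List.mem_cons_of_mem _ hv))

/-- a progression of sums of exactly `h` elements -/
theorem local_exact (ρ : ℝ) (hρ : 0 < ρ) : ∃ h D N₀ : ℕ, 1 ≤ D ∧ ∀ (L : ℕ) (V : Finset ℕ), N₀ ≤ L → V ⊆ Icc 1 L →
    ρ * L ≤ V.card → ∃ d c : ℕ, 1 ≤ d ∧ d ≤ D ∧ ∀ n ≤ L, ∃ l : List ℕ, l.length = h ∧ (∀ v ∈ l, v ∈ V) ∧
      l.sum = c + d * n := by
  classical
  obtain ⟨D, hD⟩ : ∃ D : ℕ, 1 / ((D : ℝ) + 1) < ρ / 2 := exists_nat_one_div_lt (by positivity)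
  obtain ⟨D', hD'⟩ : ∃ D', D' = max D 1 := ⟨_, rfl⟩
  have hD1 : 1 ≤ D' := by rw [hD']; exact le_max_right _ _
  have hDρ : 1 / ((D' : ℝ) + 1) < ρ / 2 := by
    refine lt_of_le_of_lt ?_ hD
    apply one_div_le_one_div_of_le (by positivity)
    have : (D : ℝ) ≤ D' := by rw [hD']; exact_mod_cast le_max_left _ _
    linarith
  obtain ⟨h, N₀, hloc⟩ := BTG.local_ap D' hD1 (ρ / 2) hDρ
  obtain ⟨N₁, hN₁⟩ := exists_nat_ge (2 / ρ)
  refine ⟨h, D', max N₀ (max N₁ 1), hD1, fun L V hL hV hVc => ?_⟩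
  have hL₀ : N₀ ≤ L := (le_max_left _ _).trans hL
  have hL₁ : N₁ ≤ L := (le_max_left _ _).trans ((le_max_right _ _).trans hL)
  have hL1 : 1 ≤ L := (le_max_right _ _).trans ((le_max_right _ _).trans hL)
  have hLR : (1 : ℝ) ≤ L := by exact_mod_cast hL1
  have hL2 : 1 ≤ ρ / 2 * L := by
    have h1 : (N₁ : ℝ) ≤ L := by exact_mod_cast hL₁
    have h2 := hN₁.trans h1
    rw [div_le_iff₀ hρ] at h2
    linarith
  have hVne : V.Nonempty := by
    rw [← card_pos]
    have : (0 : ℝ) < V.card := lt_of_lt_of_le (by positivity) hVc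
    exact_mod_cast this
  obtain ⟨j, hj⟩ : ∃ j, j = V.min' hVne := ⟨_, rfl⟩
  have hjV : j ∈ V := by rw [hj]; exact V.min'_mem hVne
  have hjmin : ∀ v ∈ V, j ≤ v := fun v hv => by rw [hj]; exact V.min'_le v hv
  obtain ⟨d, s, hd, -, -, hap⟩ := hloc (fun i => i + j ∈ V) L hL₀ (by
    have h1 : V.card ≤ 1 + ((Icc 1 L).filter (fun i => i + j ∈ V)).card := by
      have h2 : V ⊆ {j} ∪ ((Icc 1 L).filter (fun i => i + j ∈ V)).image (fun i => i + j) := by
        intro v hv
        rw [mem_union, mem_singleton, mem_image]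
        by_cases h3 : v = j
        · exact Or.inl h3
        · have h4 := hjmin v hv
          have h5 := mem_Icc.1 (hV hv)
          refine Or.inr ⟨v - j, ?_, by omega⟩
          rw [mem_filter, mem_Icc, Nat.sub_add_cancel h4]
          exact ⟨⟨by omega, by omega⟩, hv⟩
      have h3 := card_le_card h2
      have h4 := card_union_le {j} (((Icc 1 L).filter (fun i => i + j ∈ V)).image (fun i => i + j))
      have h5 : (((Icc 1 L).filter (fun i => i + j ∈ V)).image (fun i => i + j)).card ≤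
          ((Icc 1 L).filter (fun i => i + j ∈ V)).card := card_image_le
      rw [card_singleton] at h4
      omega
    have h2 : (V.card : ℝ) ≤ 1 + (((Icc 1 L).filter (fun i => i + j ∈ V)).card : ℝ) := by exact_mod_cast h1
    have h3 : ρ / 2 * L ≤ (((Icc 1 L).filter (fun i => i + j ∈ V)).card : ℝ) := by linarith
    refine h3.trans (le_of_eq ?_)
    congr!)
  refine ⟨d, h * j + s, hd.1, hd.2, fun n hn => ?_⟩
  obtain ⟨l, h1, h2, h3⟩ := hap n hn
  refine ⟨l.map (fun i => i + j) ++ List.replicate (h - l.length) j, ?_, fun v hv => ?_, ?_⟩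
  · rw [List.length_append, List.length_map, List.length_replicate]
    omega
  · rcases List.mem_append.1 hv with hv | hv
    · obtain ⟨i, hi, rfl⟩ := List.mem_map.1 hv
      exact h2 i hi
    · rw [List.mem_replicate] at hv
      rw [hv.2]
      exact hjV
  · have key : ∀ l : List ℕ, (l.map (fun i => i + j)).sum = l.sum + l.length * j := by
      intro l
      induction l with
      | nil => simp
      | cons b l ih =>
        rw [List.map_cons, List.sum_cons, ih, List.sum_cons, List.length_cons]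
        ring
    rw [List.sum_append, key, List.sum_replicate, smul_eq_mul, h3]
    obtain ⟨e, he⟩ : ∃ e, h = l.length + e := ⟨h - l.length, by omega⟩
    rw [he, Nat.add_sub_cancel_left]
    ring

/-- a fibre -/
theorem fibre (j L : ℕ) (hL : 1 ≤ L) (P : Finset (Finset ℕ)) (hP : P ⊆ shs j L) (ρ : ℝ) (hρ : 0 < ρ)
    (hPc : ρ * (L : ℝ) ^ (j + 1) ≤ P.card) : ∃ S V : Finset ℕ, S.card = j + 1 ∧ 0 ∈ S ∧ S ⊆ range L ∧ V ⊆ Icc 1 L ∧
      ρ * L ≤ V.card ∧ ∀ v ∈ V, v ∉ S ∧ insert v S ∈ P := by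
  classical
  obtain ⟨SS, hSS⟩ : ∃ SS : Finset (Finset ℕ), SS = ((range L).powersetCard (j + 1)).filter (fun S => 0 ∈ S) := ⟨_, rfl⟩
  have hSSc : (SS.card : ℝ) ≤ (L : ℝ) ^ j := by
    have h1 : SS.card ≤ ((range L).powersetCard j).card := by
      apply card_le_card_of_injOn (fun T => T.erase 0)
      · intro T hT
        rw [mem_coe, hSS, mem_filter, mem_powersetCard] at hT
        rw [mem_coe, mem_powersetCard]
        refine ⟨(erase_subset _ _).trans hT.1.1, ?_⟩
        rw [card_erase_of_mem hT.2, hT.1.2]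
        omega
      · intro T hT T' hT' h
        rw [mem_coe, hSS, mem_filter] at hT hT'
        have h2 : T.erase 0 = T'.erase 0 := h
        rw [← insert_erase hT.2, ← insert_erase hT'.2, h2]
    rw [card_powersetCard, card_range] at h1
    have h2 : L.choose j ≤ L ^ j := Nat.choose_le_pow L j
    exact_mod_cast h1.trans h2
  obtain ⟨V, hV⟩ : ∃ V : Finset ℕ → Finset ℕ, V = fun S => (Icc 1 L).filter (fun v => v ∉ S ∧ insert v S ∈ P) := ⟨_, rfl⟩
  have hcount : P.card ≤ ∑ S ∈ SS, (V S).card := by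
    have hTp : ∀ T ∈ P, ∃ hne : T.Nonempty, T.max' hne ∈ T ∧ 1 ≤ T.max' hne ∧ T.max' hne ≤ L ∧ T ⊆ range L ∧
        T.card = j + 2 ∧ 0 ∈ T := by
      intro T hT
      have h1 := hP hT
      unfold shs at h1
      rw [mem_filter, mem_powersetCard] at h1
      have hne : T.Nonempty := ⟨0, h1.2⟩
      refine ⟨hne, T.max'_mem hne, ?_, ?_, h1.1.1, h1.1.2, h1.2⟩
      · by_contra hcon
        push Not at hcon
        have h2 : T ⊆ {0} := by
          intro x hx
          have := T.le_max' x hx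
          rw [mem_singleton]
          omega
        have h3 := card_le_card h2
        rw [card_singleton, h1.1.2] at h3
        omega
      · exact (mem_range.1 (h1.1.1 (T.max'_mem hne))).le
    rw [← card_sigma]
    apply card_le_card_of_injOn (fun T => if hne : T.Nonempty then ⟨T.erase (T.max' hne), T.max' hne⟩ else ⟨∅, 0⟩)
    · intro T hT
      rw [mem_coe] at hT
      obtain ⟨hne, h1, h2, h3, h4, h5, h6⟩ := hTp T hT
      rw [mem_coe]
      simp only [hne, dif_pos]
      rw [mem_sigma]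
      simp only
      refine ⟨?_, ?_⟩
      · rw [hSS, mem_filter, mem_powersetCard, mem_erase]
        refine ⟨⟨(erase_subset _ _).trans h4, ?_⟩, by omega, h6⟩
        rw [card_erase_of_mem h1, h5]
        omega
      · rw [hV, mem_filter, mem_Icc, insert_erase h1]
        exact ⟨⟨h2, h3⟩, notMem_erase _ _, hT⟩
    · intro T hT T' hT' h
      rw [mem_coe] at hT hT'
      obtain ⟨hne, h1, -⟩ := hTp T hT
      obtain ⟨hne', h1', -⟩ := hTp T' hT'
      simp only [hne, hne', dif_pos] at h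
      have h2 := Sigma.mk.inj_iff.1 h
      have h3 := h2.1
      have h4 := eq_of_heq h2.2
      rw [← insert_erase h1, ← insert_erase h1', h3, h4]
  have hLR : (0 : ℝ) < L := by exact_mod_cast hL
  have hcountR : (P.card : ℝ) ≤ ∑ S ∈ SS, ((V S).card : ℝ) := by exact_mod_cast hcount
  obtain ⟨S, hS, hSV⟩ : ∃ S ∈ SS, ρ * L ≤ ((V S).card : ℝ) := by
    by_contra hcon
    push Not at hcon
    have hne : SS.Nonempty := by
      by_contra hem
      rw [not_nonempty_iff_eq_empty] at hem
      rw [hem, sum_empty] at hcountR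
      have : 0 < ρ * (L : ℝ) ^ (j + 1) := by positivity
      linarith
    have h1 : ∑ S ∈ SS, ((V S).card : ℝ) < ∑ S ∈ SS, ρ * L := sum_lt_sum_of_nonempty hne hcon
    rw [sum_const, nsmul_eq_mul] at h1
    have h2 : (SS.card : ℝ) * (ρ * L) ≤ (L : ℝ) ^ j * (ρ * L) := by gcongr
    have h3 : (L : ℝ) ^ j * (ρ * L) = ρ * (L : ℝ) ^ (j + 1) := by ring
    linarith
  rw [hSS, mem_filter, mem_powersetCard] at hS
  refine ⟨S, V S, hS.1.2, hS.2, hS.1.1, ?_, hSV, fun v hv => ?_⟩
  · rw [hV]; exact filter_subset _ _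
  · rw [hV, mem_filter] at hv
    exact hv.2

/-- an enumeration -/
lemma enum {k : ℕ} (i : Fin k) (S : Finset ℕ) (hS : S.card = k) (h0 : 0 ∈ S) :
    ∃ b : Fin k → ℕ, (∀ i', i' ≠ i → b i' ∈ S.erase 0) ∧ ∀ i' i'', i' ≠ i → i'' ≠ i → b i' = b i'' → i' = i'' := by
  classical
  have hc : (univ.erase i : Finset (Fin k)).card = (S.erase 0).card := by
    rw [card_erase_of_mem (mem_univ i), card_univ, Fintype.card_fin, card_erase_of_mem h0, hS]
  obtain ⟨e⟩ : Nonempty ((univ.erase i : Finset (Fin k)) ≃ (S.erase 0 : Finset ℕ)) := ⟨Finset.equivOfCardEq hc⟩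
  refine ⟨fun i' => if h : i' ∈ univ.erase i then ((e ⟨i', h⟩ : (S.erase 0 : Finset ℕ)) : ℕ) else 0, ?_, ?_⟩
  · intro i' hi'
    have h : i' ∈ univ.erase i := mem_erase.2 ⟨hi', mem_univ _⟩
    simp only [h, dif_pos]
    exact (e ⟨i', h⟩).2
  · intro i' i'' hi' hi'' heq
    have h : i' ∈ univ.erase i := mem_erase.2 ⟨hi', mem_univ _⟩
    have h' : i'' ∈ univ.erase i := mem_erase.2 ⟨hi'', mem_univ _⟩
    simp only [h, h', dif_pos] at heq
    have h2 := e.injective (Subtype.ext heq)
    exact congrArg Subtype.val h2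

lemma sum_update {k : ℕ} (b : Fin k → ℤ) (i : Fin k) (l : List ℕ) :
    (l.map (fun v : ℕ => Function.update b i (v : ℤ))).sum = Function.update (fun i' => (l.length : ℤ) * b i') i (l.sum : ℤ) := by
  induction l with
  | nil =>
    funext i'
    by_cases h : i' = i
    · subst h; simp
    · rw [Function.update_of_ne h]; simp
  | cons v l ih =>
    rw [List.map_cons, List.sum_cons, ih]
    funext i'
    rw [Pi.add_apply]
    by_cases h : i' = i
    · subst h
      rw [Function.update_self, Function.update_self, Function.update_self, List.sum_cons]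
      push_cast
      ring
    · rw [Function.update_of_ne h, Function.update_of_ne h, Function.update_of_ne h, List.length_cons]
      push_cast
      ring

open Classical in
/-- **Every vector of `(M ℤ) ^ k` is a bounded sum of popular shapes.** -/
theorem main (k : ℕ) (hk : 1 ≤ k) (δ : ℝ) (hδ : 0 < δ) : ∃ h M : ℕ, 1 ≤ M ∧ ∃ κ K : ℝ, 0 < κ ∧ 0 < K ∧ ∃ X₀ : ℕ,
    ∀ a H : ℕ, X₀ ≤ H → H ≤ a → ∀ Q : Finset ℕ, Q ⊆ Ioc a (a + H) → (∀ p ∈ Q, p.Prime) →
      δ * (H / Real.log H) ≤ Q.card → ∀ L : ℕ, K * Real.log H ≤ L → L ≤ H →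
      ∀ t : Fin k → ℤ, (∀ i, (M : ℤ) ∣ t i) → (∀ i, |t i| ≤ (L : ℤ)) →
        RR (fun d : Fin k → ℤ => (∀ i, d i ≠ 0) ∧ Function.Injective d ∧ (∀ i, |d i| ≤ (L : ℤ)) ∧
          κ * (H / Real.log H ^ (k + 1)) ≤ ((occ Q d).card : ℝ)) h t := by
  obtain ⟨j, hj⟩ : ∃ j, k = j + 1 := ⟨k - 1, by omega⟩
  obtain ⟨κ, ρ, K, hκ, hρ, hK, X₁, hpop⟩ := popular j δ hδ 1 le_rfl
  obtain ⟨h₁, D, N₀, hD1, hloc⟩ := local_exact ρ hρ
  have hlim : Tendsto (fun H : ℕ => K * Real.log (H : ℝ)) atTop atTop :=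
    (Real.tendsto_log_atTop.comp tendsto_natCast_atTop_atTop).const_mul_atTop hK
  obtain ⟨X₂, hX₂⟩ := eventually_atTop.1 (hlim.eventually_ge_atTop (max (N₀ : ℝ) 1))
  refine ⟨k * (h₁ * 1 + h₁ * k), D.factorial, Nat.factorial_pos _, κ, K, hκ, hK, max X₁ X₂,
    fun a H hH hHa Q hQ hQp hQc L hL hLH t hMt htL => ?_⟩
  have hb := hX₂ H ((le_max_right _ _).trans hH)
  have hL₀ : N₀ ≤ L := by
    have : (N₀ : ℝ) ≤ L := ((le_max_left _ _).trans hb).trans hL
    exact_mod_cast this
  have hL1 : 1 ≤ L := by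
    have : (1 : ℝ) ≤ L := ((le_max_right _ _).trans hb).trans hL
    exact_mod_cast this
  have hp := hpop a H ((le_max_left _ _).trans hH) hHa Q hQ hQp hQc L hL (by omega)
  obtain ⟨P, hP⟩ : ∃ P, P = (shs j L).filter (fun T => κ * (H / Real.log H ^ (j + 2)) ≤ ((pos Q (dil 1 T)).card : ℝ)) :=
    ⟨_, rfl⟩
  rw [← hP] at hp
  obtain ⟨S, V, hSc, hS0, hSL, hVL, hVc, hSV⟩ := fibre j L hL1 P (by rw [hP]; exact filter_subset _ _) ρ hρ hp
  obtain ⟨d, c, hd1, hdD, hap⟩ := hloc L V hL₀ hVL hVc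
  obtain ⟨G, hG⟩ : ∃ G : (Fin k → ℤ) → Prop, G = fun d : Fin k → ℤ => (∀ i, d i ≠ 0) ∧ Function.Injective d ∧
          (∀ i, |d i| ≤ (L : ℤ)) ∧ κ * (H / Real.log H ^ (k + 1)) ≤ ((occ Q d).card : ℝ) := ⟨_, rfl⟩
  rw [← hG]
  -- one coordinate
  have hone : ∀ i : Fin k, RR G (h₁ * 1 + h₁ * k) (Pi.single i (t i)) := by
    intro i
    obtain ⟨b, hb1, hb2⟩ := enum i S (by rw [hSc, hj]) hS0
    obtain ⟨B, hB⟩ : ∃ B : Fin k → ℤ, B = fun i' => (b i' : ℤ) := ⟨_, rfl⟩
    have hBi : ∀ i', B i' = (b i' : ℤ) := fun i' => by rw [hB]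
    -- the vectors are good
    have hw : ∀ v ∈ V, (∀ i', Function.update B i (v : ℤ) i' ≠ 0) ∧ Function.Injective (Function.update B i (v : ℤ)) ∧
        (∀ i', 0 ≤ Function.update B i (v : ℤ) i' ∧ Function.update B i (v : ℤ) i' ≤ L) ∧
        κ * (H / Real.log H ^ (k + 1)) ≤ ((occ Q (Function.update B i (v : ℤ))).card : ℝ) := by
      intro v hv
      obtain ⟨hvS, hvP⟩ := hSV v hv
      have hvL := mem_Icc.1 (hVL hv)
      refine ⟨fun i' => ?_, fun i' i'' h => ?_, fun i' => ?_, ?_⟩
      · by_cases h : i' = i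
        · subst h
          rw [Function.update_self]
          exact_mod_cast (by omega : v ≠ 0)
        · rw [Function.update_of_ne h, hBi]
          have := (mem_erase.1 (hb1 i' h)).1
          exact_mod_cast this
      · by_cases h1 : i' = i
        · by_cases h2 : i'' = i
          · rw [h1, h2]
          · exfalso
            subst h1
            rw [Function.update_self, Function.update_of_ne h2, hBi] at h
            have h3 := (mem_erase.1 (hb1 i'' h2)).2
            apply hvS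
            have : v = b i'' := by exact_mod_cast h
            rwa [this]
        · by_cases h2 : i'' = i
          · exfalso
            subst h2
            rw [Function.update_self, Function.update_of_ne h1, hBi] at h
            have h3 := (mem_erase.1 (hb1 i' h1)).2
            apply hvS
            have : b i' = v := by exact_mod_cast h
            rwa [← this]
          · rw [Function.update_of_ne h1, Function.update_of_ne h2, hBi, hBi] at h
            exact hb2 i' i'' h1 h2 (by exact_mod_cast h)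
      · by_cases h : i' = i
        · subst h
          rw [Function.update_self]
          exact ⟨by positivity, by exact_mod_cast hvL.2⟩
        · rw [Function.update_of_ne h, hBi]
          have := mem_range.1 (hSL (mem_erase.1 (hb1 i' h)).2)
          exact ⟨by positivity, by exact_mod_cast this.le⟩
      · rw [hP, mem_filter] at hvP
        have hk1 : Real.log (H : ℝ) ^ (k + 1) = Real.log (H : ℝ) ^ (j + 2) := by
          congr 1
          omega
        rw [hk1]
        refine hvP.2.trans (Nat.cast_le.2 (card_le_card fun p hp => ?_))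
        unfold pos at hp
        rw [mem_filter] at hp
        have hpT : ∀ s ∈ insert v S, p + s ∈ Q := by
          intro s hs
          have h3 := hp.2 (1 * s) (by unfold dil; exact mem_image.2 ⟨s, hs, rfl⟩)
          rwa [one_mul] at h3
        rw [mem_occ]
        refine ⟨hp.1, fun i' => ?_⟩
        by_cases h : i' = i
        · subst h
          refine ⟨p + v, hpT v (mem_insert_self _ _), ?_⟩
          rw [Function.update_self]
          push_cast
          ring
        · refine ⟨p + b i', hpT _ (mem_insert_of_mem (mem_erase.1 (hb1 i' h)).2), ?_⟩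
          rw [Function.update_of_ne h, hBi]
          push_cast
          ring
    have hpos : ∀ v ∈ V, RR G 1 (Function.update B i (v : ℤ)) := by
      intro v hv
      obtain ⟨g1, g2, g3, g4⟩ := hw v hv
      apply RR_one
      rw [hG]
      exact ⟨g1, g2, fun i' => by rw [abs_of_nonneg (g3 i').1]; exact (g3 i').2, g4⟩
    have hneg : ∀ v ∈ V, RR G k (-Function.update B i (v : ℤ)) := by
      intro v hv
      obtain ⟨g1, g2, g3, g4⟩ := hw v hv
      obtain ⟨w, hw'⟩ : ∃ w, w = Function.update B i (v : ℤ) := ⟨_, rfl⟩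
      rw [← hw'] at g1 g2 g3 g4 ⊢
      have hx : ∀ a : Fin (k + 1), 0 ≤ (Fin.cons 0 w : Fin (k + 1) → ℤ) a ∧ (Fin.cons 0 w : Fin (k + 1) → ℤ) a ≤ L := by
        intro a
        rcases Fin.eq_zero_or_eq_succ a with rfl | ⟨i', rfl⟩
        · rw [Fin.cons_zero]
          exact ⟨le_rfl, by positivity⟩
        · rw [Fin.cons_succ]
          exact g3 i'
      have hrot : ∀ a : Fin (k + 1), G (rot w a) := by
        intro a
        obtain ⟨r1, r2⟩ := rot_good g1 g2 a
        rw [hG]
        refine ⟨r1, r2, fun i' => ?_, g4.trans (Nat.cast_le.2 (occ_rot Q w a))⟩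
        unfold rot
        have e1 := hx (a + i'.succ)
        have e2 := hx a
        rw [abs_le]
        constructor <;> linarith [e1.1, e1.2, e2.1, e2.2]
      have hsum : -w = ∑ a : Fin k, rot w a.succ := by
        have h3 := sum_rot w
        rw [Fin.sum_univ_succ, rot_zero] at h3
        exact neg_eq_of_add_eq_zero_right h3
      rw [hsum]
      have h4 := RR_sum (G := G) (h := 1) univ (fun a : Fin k => rot w a.succ) (fun a _ => RR_one (hrot a.succ))
      rw [card_univ, Fintype.card_fin, mul_one] at h4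
      exact h4
    -- the multiples of `d` on the axis
    have haxis : ∀ n n' : ℕ, n ≤ L → n' ≤ L → RR G (h₁ * 1 + h₁ * k) (Pi.single i ((d : ℤ) * n - d * n')) := by
      intro n n' hn hn'
      obtain ⟨l, l1, l2, l3⟩ := hap n hn
      obtain ⟨l', l1', l2', l3'⟩ := hap n' hn'
      have h3 := RR_list (G := G) (h := 1) l (fun v : ℕ => Function.update B i (v : ℤ)) (fun v hv => hpos v (l2 v hv))
      have h4 := RR_list (G := G) (h := k) l' (fun v : ℕ => -Function.update B i (v : ℤ)) (fun v hv => hneg v (l2' v hv))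
      have h5 := RR_add h3 h4
      rw [l1, l1'] at h5
      have h6 : (l'.map (fun v : ℕ => -Function.update B i (v : ℤ))).sum =
          -(l'.map (fun v : ℕ => Function.update B i (v : ℤ))).sum := by
        clear h3 h4 h5 l1' l2' l3'
        induction l' with
        | nil => simp
        | cons v l' ih =>
          rw [List.map_cons, List.sum_cons, List.map_cons, List.sum_cons, ih]
          abel
      rw [h6, sum_update, sum_update, l1, l1', l3, l3'] at h5
      convert h5 using 1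
      funext i'
      by_cases h : i' = i
      · subst h
        rw [Pi.single_eq_same, Pi.add_apply, Pi.neg_apply, Function.update_self, Function.update_self]
        push_cast
        ring
      · rw [Pi.single_eq_of_ne h, Pi.add_apply, Pi.neg_apply, Function.update_of_ne h, Function.update_of_ne h]
        ring
    have hdM : (d : ℤ) ∣ t i := by
      refine dvd_trans ?_ (hMt i)
      exact_mod_cast Nat.dvd_factorial (by omega) hdD
    obtain ⟨m, hm⟩ := hdM
    have hmL : |m| ≤ L := by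
      have h3 := htL i
      rw [hm, abs_mul] at h3
      have h4 : (1 : ℤ) ≤ |(d : ℤ)| := by rw [Nat.abs_cast]; exact_mod_cast hd1
      calc |m| = 1 * |m| := (one_mul _).symm
        _ ≤ |(d : ℤ)| * |m| := mul_le_mul_of_nonneg_right h4 (abs_nonneg _)
        _ ≤ L := h3
    have hnat : m.natAbs ≤ L := by
      have h3 : ((m.natAbs : ℕ) : ℤ) ≤ L := by rw [Int.natCast_natAbs]; exact hmL
      exact_mod_cast h3
    rcases le_total 0 m with h3 | h3
    · have h4 := haxis m.natAbs 0 hnat (by omega)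
      have h5 : ((m.natAbs : ℕ) : ℤ) = m := by rw [Int.natCast_natAbs, abs_of_nonneg h3]
      rw [h5, Nat.cast_zero, mul_zero, sub_zero, ← hm] at h4
      exact h4
    · have h4 := haxis 0 m.natAbs (by omega) hnat
      have h5 : ((m.natAbs : ℕ) : ℤ) = -m := by rw [Int.natCast_natAbs, abs_of_nonpos h3]
      rw [h5, Nat.cast_zero, mul_zero, zero_sub, mul_neg, neg_neg, ← hm] at h4
      exact h4
  have h3 := RR_sum (G := G) univ (fun i : Fin k => Pi.single i (t i)) (fun i _ => hone i)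
  rw [Finset.univ_sum_single, card_univ, Fintype.card_fin] at h3
  exact h3

end Pool.Agent.U455.VEC
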