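import Mathlib
import Pool.Agent.U455.RTG
import Pool.Agent.U455.VEC
import Pool.Agent.R527.LV.Core

/-!
# Vectors of consecutive gaps of dense sets of sifted tuples
-/

set_option autoImplicit false
set_option maxHeartbeats 4000000

namespace Pool.Agent.U455.GVV

open Finset Filter Topology
open Pool.Agent.R527.LV (ps ps_succ ps_zero)
open Pool.Agent.U455.RTG (Rough mem_Rough up_T Adm)
open Pool.Agent.U455.CGW (Nx gaps_sum)
open Pool.Agent.H387R2.Uni (CT CT_nonneg)
open Pool.Agent.TH891.SG (Gm one_le_Gm sum_Gm sum_Gm_dist Zc)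

lemma ps_cons {k : ℕ} (a : ℕ) (g : Fin k → ℕ) (i : Fin (k + 1)) :
    ps (Fin.cons a g : Fin (k + 1) → ℕ) i.succ = a + ps g i := by
  unfold ps
  rw [Fin.sum_univ_succ]
  simp [Fin.cons_succ]

lemma ps_mono {k : ℕ} {g : Fin k → ℕ} {D : ℕ} (hg : ∀ i, D + 1 ≤ g i) (i i' : Fin (k + 1)) (h : i < i') :
    ps g i + (D + 1) ≤ ps g i' := by
  have key : StrictMono (ps g) := by
    rw [Fin.strictMono_iff_lt_succ]
    intro j
    rw [ps_succ]
    have := hg j
    omega
  obtain ⟨j, hj⟩ : ∃ j : Fin k, i = j.castSucc := by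
    have h1 : (i : ℕ) < k := by
      have := i'.2
      have : (i : ℕ) < i' := h
      omega
    exact ⟨⟨i, h1⟩, Fin.ext rfl⟩
  subst hj
  have h2 : j.succ ≤ i' := Fin.castSucc_lt_iff_succ_le.1 h
  have h3 := key.monotone h2
  rw [ps_succ] at h3
  have := hg j
  omega

/-- the next `k` elements of `Q` after `q` are `q + ps g i` -/
def CN {k : ℕ} (Q : Finset ℕ) (g : Fin k → ℕ) (q : ℕ) : Prop := ∀ i : Fin k, Nx Q (g i) (q + ps g i.castSucc)

/-- the box of the gap vectors -/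
def bx (k D L : ℕ) : Finset (Fin k → ℕ) := Fintype.piFinset (fun _ => Icc (D + 1) L)

lemma mem_bx {k D L : ℕ} {g : Fin k → ℕ} : g ∈ bx k D L ↔ ∀ i, D + 1 ≤ g i ∧ g i ≤ L := by
  unfold bx
  simp [Fintype.mem_piFinset]

lemma Nx_unique {Q : Finset ℕ} {g g' q : ℕ} (hg : 1 ≤ g) (hg' : 1 ≤ g') (h : Nx Q g q) (h' : Nx Q g' q) : g = g' := by
  have h1 := h.2 _ h'.1 (by omega)
  have h2 := h'.2 _ h.1 (by omega)
  omega

open Classical in
/-- the elements of `Q` whose next gap is in `(D, m]` -/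
noncomputable def G1 (Q : Finset ℕ) (D m : ℕ) : Finset ℕ := Q.filter (fun q => ∃ g ∈ Icc (D + 1) m, Nx Q g q)

lemma mem_G1 {Q : Finset ℕ} {D m q : ℕ} : q ∈ G1 Q D m ↔ q ∈ Q ∧ ∃ g ∈ Icc (D + 1) m, Nx Q g q := by
  classical
  unfold G1
  simp only [mem_filter]

/-- the elements of `Q` whose next `k` gaps are in `(D, m]` -/
theorem runs (Q : Finset ℕ) (D m k : ℕ) : ∃ S ⊆ Q, Q.card ≤ S.card + k * (Q.card - (G1 Q D m).card) ∧
    ∀ q ∈ S, ∃ g ∈ bx k D m, CN Q g q := by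
  classical
  induction k with
  | zero =>
    refine ⟨Q, Subset.refl _, by omega, fun q _ => ⟨fun i => i.elim0, ?_, fun i => i.elim0⟩⟩
    rw [mem_bx]
    exact fun i => i.elim0
  | succ k ih =>
    obtain ⟨S, hSQ, hSc, hS⟩ := ih
    refine ⟨Q.filter (fun q => ∃ g ∈ Icc (D + 1) m, Nx Q g q ∧ q + g ∈ S), filter_subset _ _, ?_, ?_⟩
    · have hG : G1 Q D m ⊆ Q := fun q hq => (mem_G1.1 hq).1
      -- the complement
      have h1 : (Q \ Q.filter (fun q => ∃ g ∈ Icc (D + 1) m, Nx Q g q ∧ q + g ∈ S)).card ≤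
          (Q \ G1 Q D m).card + (Q \ S).card := by
        have h2 : Q \ Q.filter (fun q => ∃ g ∈ Icc (D + 1) m, Nx Q g q ∧ q + g ∈ S) ⊆
            (Q \ G1 Q D m) ∪ (Q.filter (fun q => ∃ g ∈ Icc (D + 1) m, Nx Q g q ∧ q + g ∈ Q \ S)) := by
          intro q hq
          simp only [Finset.mem_sdiff, mem_filter] at hq
          simp only [mem_union, Finset.mem_sdiff, mem_filter]
          by_cases h3 : q ∈ G1 Q D m
          · right
            obtain ⟨g, hg, hgN⟩ := (mem_G1.1 h3).2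
            exact ⟨hq.1, g, hg, hgN, hgN.1, fun h4 => hq.2 ⟨hq.1, g, hg, hgN, h4⟩⟩
          · exact Or.inl ⟨hq.1, h3⟩
        have h3 : (Q.filter (fun q => ∃ g ∈ Icc (D + 1) m, Nx Q g q ∧ q + g ∈ Q \ S)).card ≤ (Q \ S).card := by
          have hch : ∀ q ∈ Q.filter (fun q => ∃ g ∈ Icc (D + 1) m, Nx Q g q ∧ q + g ∈ Q \ S), ∃ r ∈ Q \ S, q < r ∧
              ∀ r' ∈ Q, q < r' → r ≤ r' := by
            intro q hq
            simp only [mem_filter] at hq
            obtain ⟨_, g, hg, hgN, hgS⟩ := hq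
            rw [mem_Icc] at hg
            exact ⟨q + g, hgS, by omega, hgN.2⟩
          choose! nx hnx using hch
          apply card_le_card_of_injOn nx
          · intro q hq
            exact (hnx q hq).1
          · intro q hq r hr h
            obtain ⟨a1, a2, a3⟩ := hnx q hq
            obtain ⟨b1, b2, b3⟩ := hnx r hr
            have hqQ := (mem_filter.1 hq).1
            have hrQ := (mem_filter.1 hr).1
            rcases lt_trichotomy q r with h4 | h4 | h4
            · have := a3 r hrQ h4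
              omega
            · exact h4
            · have := b3 q hqQ h4
              omega
        exact (card_le_card h2).trans ((card_union_le _ _).trans (Nat.add_le_add_left h3 _))
      rw [card_sdiff_of_subset (filter_subset _ _), card_sdiff_of_subset hG, card_sdiff_of_subset hSQ] at h1
      have h2 := card_le_card (filter_subset (fun q => ∃ g ∈ Icc (D + 1) m, Nx Q g q ∧ q + g ∈ S) Q)
      have h3 := card_le_card hSQ
      rw [add_mul, one_mul]
      omega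
    · intro q hq
      rw [mem_filter] at hq
      obtain ⟨hqQ, g, hg, hgN, hgS⟩ := hq
      obtain ⟨g', hg', hC⟩ := hS _ hgS
      rw [mem_Icc] at hg
      rw [mem_bx] at hg'
      refine ⟨Fin.cons g g', ?_, ?_⟩
      · rw [mem_bx]
        intro i
        rcases Fin.eq_zero_or_eq_succ i with rfl | ⟨i', rfl⟩
        · rw [Fin.cons_zero]; exact hg
        · rw [Fin.cons_succ]; exact hg' i'
      · intro i
        rcases Fin.eq_zero_or_eq_succ i with rfl | ⟨i', rfl⟩
        · rw [Fin.cons_zero, Fin.castSucc_zero, ps_zero, add_zero]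
          exact hgN
        · rw [Fin.cons_succ, ← Fin.succ_castSucc, ps_cons, ← add_assoc]
          exact hC i'

/-- the shifted copies of `F` -/
def TT {k : ℕ} (F : Finset ℕ) (g : Fin k → ℕ) : Finset ℕ :=
  ((univ : Finset (Fin (k + 1))) ×ˢ F).image (fun x => ps g x.1 + x.2)

lemma TT_card {k : ℕ} {F : Finset ℕ} {D : ℕ} (hD : ∀ f ∈ F, f ≤ D) {g : Fin k → ℕ} (hg : ∀ i, D + 1 ≤ g i) :
    (TT F g).card = (k + 1) * F.card := by
  unfold TT
  rw [card_image_of_injOn, card_product, card_univ, Fintype.card_fin]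
  intro x hx y hy h
  rw [mem_coe, mem_product] at hx hy
  have h1 := hD _ hx.2
  have h2 := hD _ hy.2
  have h3 : ps g x.1 + x.2 = ps g y.1 + y.2 := h
  rcases lt_trichotomy x.1 y.1 with h4 | h4 | h4
  · have := ps_mono hg _ _ h4
    omega
  · rw [h4] at h3
    exact Prod.ext h4 (by omega)
  · have := ps_mono hg _ _ h4
    omega

lemma ps_update {k : ℕ} (g : Fin k → ℕ) (j : Fin k) (v : ℕ) (i : Fin (k + 1)) :
    ps (Function.update g j v) i = if (j : ℕ) < (i : ℕ) then v + ps (Function.update g j 0) i else ps g i := by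
  classical
  unfold ps
  split_ifs with h
  · rw [← Finset.add_sum_erase _ _ (mem_univ j), ← Finset.add_sum_erase (univ : Finset (Fin k))
      (fun i_1 => if (i_1 : ℕ) < (i : ℕ) then Function.update g j 0 i_1 else 0) (mem_univ j)]
    simp only [h, if_true, Function.update_self]
    rw [zero_add]
    congr 1
    apply sum_congr rfl
    intro i' hi'
    rw [Function.update_of_ne (ne_of_mem_erase hi'), Function.update_of_ne (ne_of_mem_erase hi')]
  · apply sum_congr rfl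
    intro i' _
    by_cases h1 : i' = j
    · subst h1
      rw [if_neg h, if_neg h]
    · rw [Function.update_of_ne h1]

lemma ps_le' {k : ℕ} {g : Fin k → ℕ} {L : ℕ} (hg : ∀ i, g i ≤ L) (i : Fin (k + 1)) : ps g i ≤ k * L := by
  unfold ps
  calc ∑ j : Fin k, (if (j : ℕ) < (i : ℕ) then g j else 0) ≤ ∑ _j : Fin k, L := by
        apply sum_le_sum
        intro j _
        split_ifs
        · exact hg j
        · exact Nat.zero_le _
    _ = k * L := by simp

/-- the box with one coordinate removed -/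
def bo (k D L : ℕ) (j : Fin k) : Finset (Fin k → ℕ) :=
  Fintype.piFinset (fun i => if i = j then {D + 1} else Icc (D + 1) L)

lemma bo_card (k D L : ℕ) (j : Fin k) : (bo k D L j).card ≤ L ^ (k - 1) := by
  unfold bo
  rw [Fintype.card_piFinset, ← Finset.mul_prod_erase _ _ (mem_univ j)]
  simp only [if_true, card_singleton, one_mul]
  calc ∏ x ∈ univ.erase j, (if x = j then ({D + 1} : Finset ℕ) else Icc (D + 1) L).card ≤ ∏ x ∈ univ.erase j, L := by
        apply Finset.prod_le_prod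
        · intro _ _; exact Nat.zero_le _
        · intro x hx
          rw [if_neg (ne_of_mem_erase hx), Nat.card_Icc]
          omega
    _ = L ^ (k - 1) := by rw [prod_const, card_erase_of_mem (mem_univ j), card_univ, Fintype.card_fin]

/-- summation over one coordinate first -/
lemma sum_bx {k D L : ℕ} (j : Fin k) (φ : (Fin k → ℕ) → ℝ) (h0 : ∀ g, 0 ≤ φ g) :
    ∑ g ∈ bx k D L, φ g ≤ ∑ u ∈ bo k D L j, ∑ v ∈ Icc (D + 1) L, φ (Function.update u j v) := by
  classical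
  rw [← sum_product (s := bo k D L j) (t := Icc (D + 1) L) (f := fun x => φ (Function.update x.1 j x.2))]
  have h1 : ∑ g ∈ bx k D L, φ g = ∑ x ∈ (bx k D L).image (fun g => (Function.update g j (D + 1), g j)),
      φ (Function.update x.1 j x.2) := by
    rw [sum_image]
    · apply sum_congr rfl
      intro g _
      rw [Function.update_idem, Function.update_eq_self]
    · intro g _ g' _ h
      have h2 := Prod.mk.inj h
      have h3 : g = Function.update (Function.update g j (D + 1)) j (g j) := by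
        rw [Function.update_idem, Function.update_eq_self]
      have h4 : g' = Function.update (Function.update g' j (D + 1)) j (g' j) := by
        rw [Function.update_idem, Function.update_eq_self]
      rw [h3, h4, h2.1, h2.2]
  rw [h1]
  apply sum_le_sum_of_subset_of_nonneg
  · intro x hx
    obtain ⟨g, hg, rfl⟩ := mem_image.1 hx
    rw [mem_bx] at hg
    rw [mem_product, mem_Icc]
    refine ⟨?_, hg j⟩
    unfold bo
    rw [Fintype.mem_piFinset]
    intro i
    show Function.update g j (D + 1) i ∈ if i = j then ({D + 1} : Finset ℕ) else Icc (D + 1) L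
    by_cases h : i = j
    · subst h
      rw [if_pos rfl, mem_singleton, Function.update_self]
    · rw [if_neg h, Function.update_of_ne h, mem_Icc]
      exact hg i
  · intro x _ _
    exact h0 _

lemma ps_monotone {k : ℕ} (g : Fin k → ℕ) : Monotone (ps g) := by
  intro i i' h
  unfold ps
  apply sum_le_sum
  intro j _
  split_ifs with h1 h2
  · exact le_rfl
  · exact absurd (lt_of_lt_of_le h1 h) h2
  · exact Nat.zero_le _
  · exact le_rfl

lemma bx_card (k D L : ℕ) : (bx k D L).card ≤ L ^ k := by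
  unfold bx
  rw [Fintype.card_piFinset]
  calc ∏ _x : Fin k, (Icc (D + 1) L).card ≤ ∏ _x : Fin k, L := by
        apply Finset.prod_le_prod
        · intro _ _; exact Nat.zero_le _
        · intro x _
          rw [Nat.card_Icc]
          omega
    _ = L ^ k := by rw [prod_const, card_univ, Fintype.card_fin]

/-- the sum over one pair -/
lemma pair_sum {A : ℝ} (hA0 : 0 ≤ A) {k D L : ℕ} (hL : 1 ≤ L) (j : Fin k) (i : Fin (k + 1)) (hij : i ≤ j.castSucc)
    (f f' : ℕ) (hf : f ≤ D) (hf' : f' ≤ D) :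
    ∑ g ∈ bx k D L, Gm A (Nat.dist (ps g j.succ + f') (ps g i + f)) ≤
      2 * (Real.exp (A * Zc) * (k + D + 2)) * (L : ℝ) ^ k := by
  classical
  have hG0 : ∀ n, 0 ≤ Gm A n := fun n => zero_le_one.trans (one_le_Gm hA0 n)
  have hk : 1 ≤ k := by
    have := j.2
    omega
  have hLR : (1 : ℝ) ≤ L := by exact_mod_cast hL
  refine (sum_bx j _ (fun g => hG0 _)).trans ?_
  have hu : ∀ u ∈ bo k D L j, ∑ v ∈ Icc (D + 1) L, Gm A (Nat.dist (ps (Function.update u j v) j.succ + f')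
      (ps (Function.update u j v) i + f)) ≤ 2 * (Real.exp (A * Zc) * (k + D + 2)) * L := by
    intro u hu
    obtain ⟨u0, hu0⟩ : ∃ u0, u0 = Function.update u j 0 := ⟨_, rfl⟩
    obtain ⟨P, hP⟩ : ∃ P, P = ps u0 j.succ := ⟨_, rfl⟩
    obtain ⟨X, hX⟩ : ∃ X, X = ps u0 i := ⟨_, rfl⟩
    have hji : ¬ (j : ℕ) < (i : ℕ) := by
      have h1 : (i : ℕ) ≤ (j.castSucc : Fin (k + 1)) := hij
      have h2 : ((j.castSucc : Fin (k + 1)) : ℕ) = j := Fin.val_castSucc j
      omega
    have e1 : ∀ v, ps (Function.update u j v) j.succ = v + P := by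
      intro v
      rw [ps_update, if_pos (by rw [Fin.val_succ]; omega), hP, hu0]
    have e2 : ∀ v, ps (Function.update u j v) i = X := by
      intro v
      rw [ps_update, if_neg hji, hX, hu0, ps_update, if_neg hji]
    have hu0L : ∀ i', u0 i' ≤ L := by
      intro i'
      rw [hu0]
      by_cases h : i' = j
      · subst h
        rw [Function.update_self]
        exact Nat.zero_le _
      · rw [Function.update_of_ne h]
        unfold bo at hu
        rw [Fintype.mem_piFinset] at hu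
        have h1 := hu i'
        rw [if_neg h, mem_Icc] at h1
        exact h1.2
    have hPL : P ≤ k * L := by rw [hP]; exact ps_le' hu0L _
    have hXP : X ≤ P := by
      rw [hX, hP]
      apply ps_monotone
      exact hij.trans (Fin.castSucc_lt_succ).le
    simp only [e1, e2]
    calc ∑ v ∈ Icc (D + 1) L, Gm A (Nat.dist (v + P + f') (X + f))
        = ∑ n ∈ (Icc (D + 1) L).image (fun v => v + P + f'), Gm A (Nat.dist n (X + f)) := by
          rw [sum_image]
          intro y _ z _ hyz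
          have : y + P + f' = z + P + f' := hyz
          omega
      _ ≤ ∑ n ∈ (range ((k + 1) * L + D + 1)).erase (X + f), Gm A (Nat.dist n (X + f)) := by
          apply sum_le_sum_of_subset_of_nonneg _ (fun _ _ _ => hG0 _)
          intro n hn
          obtain ⟨v, hv, rfl⟩ := mem_image.1 hn
          rw [mem_Icc] at hv
          rw [mem_erase, mem_range, add_mul, one_mul]
          omega
      _ ≤ 2 * (Real.exp (A * Zc) * (((k + 1) * L + D + 1 : ℕ) : ℝ)) := by
          apply sum_Gm_dist hA0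
          rw [add_mul, one_mul]
          omega
      _ ≤ 2 * (Real.exp (A * Zc) * (k + D + 2)) * L := by
          have h8 : (((k + 1) * L + D + 1 : ℕ) : ℝ) ≤ (k + D + 2) * L := by
            push_cast
            nlinarith [mul_nonneg (Nat.cast_nonneg (α := ℝ) D) (show (0 : ℝ) ≤ (L : ℝ) - 1 by linarith)]
          calc 2 * (Real.exp (A * Zc) * (((k + 1) * L + D + 1 : ℕ) : ℝ))
              ≤ 2 * (Real.exp (A * Zc) * ((k + D + 2) * L)) := by gcongr
            _ = _ := by ring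
  refine (sum_le_sum hu).trans ?_
  rw [sum_const, nsmul_eq_mul]
  have h1 : ((bo k D L j).card : ℝ) ≤ (L : ℝ) ^ (k - 1) := by exact_mod_cast bo_card k D L j
  have h2 : (L : ℝ) ^ k = (L : ℝ) ^ (k - 1) * L := by
    rw [← pow_succ]
    congr 1
    omega
  calc ((bo k D L j).card : ℝ) * (2 * (Real.exp (A * Zc) * (k + D + 2)) * L)
      ≤ (L : ℝ) ^ (k - 1) * (2 * (Real.exp (A * Zc) * (k + D + 2)) * L) :=
        mul_le_mul_of_nonneg_right h1 (by positivity)
    _ = _ := by rw [h2]; ring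

/-- second moment -/
theorem mom (k : ℕ) (hk : 1 ≤ k) (F : Finset ℕ) (hF : F.Nonempty) (D : ℕ) (hD : ∀ f ∈ F, f ≤ D) :
    ∃ C : ℝ, 0 < C ∧ ∀ L : ℕ, 1 ≤ L → ∑ g ∈ bx k D L, CT (TT F g) ^ 2 ≤ C * (L : ℝ) ^ k := by
  classical
  obtain ⟨c, hc⟩ : ∃ c, c = (k + 1) * F.card := ⟨_, rfl⟩
  have hc2 : 2 ≤ c := by
    rw [hc]
    have := hF.card_pos
    nlinarith
  obtain ⟨A, hA⟩ : ∃ A : ℝ, A = (1 + 2) ^ (2 * (Pool.Agent.H386R2.HL.prs c).card) := ⟨_, rfl⟩
  have hA0 : 0 ≤ A := by rw [hA]; positivity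
  have hG0 : ∀ n, 0 ≤ Gm A n := fun n => zero_le_one.trans (one_le_Gm hA0 n)
  obtain ⟨E, hE⟩ : ∃ E : ℝ, E = 2 * (Real.exp (A * Zc) * (k + D + 2)) := ⟨_, rfl⟩
  have hE0 : 0 < E := by rw [hE]; positivity
  obtain ⟨B0, hB0⟩ : ∃ B0 : ℝ, B0 = ∑ x ∈ F ×ˢ F, Gm A (Nat.dist x.2 x.1) := ⟨_, rfl⟩
  have hB00 : 0 ≤ B0 := by rw [hB0]; exact sum_nonneg fun _ _ => hG0 _
  obtain ⟨W, hW⟩ : ∃ W : Finset ((Fin k × Fin (k + 1)) × (ℕ × ℕ)), W =
      ((univ : Finset (Fin k × Fin (k + 1))).filter (fun y => y.2 ≤ y.1.castSucc)) ×ˢ (F ×ˢ F) := ⟨_, rfl⟩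
  refine ⟨c ^ 2 * (B0 + (W.card : ℝ) * E), ?_, fun L hL => ?_⟩
  · have hWc : 0 < W.card := by
      rw [card_pos]
      obtain ⟨f, hf⟩ := hF
      refine ⟨((⟨0, by omega⟩, 0), (f, f)), ?_⟩
      rw [hW, mem_product, mem_filter, mem_product]
      exact ⟨⟨mem_univ _, Fin.zero_le _⟩, hf, hf⟩
    have : (0 : ℝ) < W.card := by exact_mod_cast hWc
    have : (0 : ℝ) < c := by exact_mod_cast (by omega : 0 < c)
    positivity
  have hLR : (1 : ℝ) ≤ L := by exact_mod_cast hL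
  have hpt : ∀ g ∈ bx k D L, CT (TT F g) ^ 2 ≤ c ^ 2 * (B0 + ∑ w ∈ W,
      Gm A (Nat.dist (ps g w.1.1.succ + w.2.2) (ps g w.1.2 + w.2.1))) := by
    intro g hg
    rw [mem_bx] at hg
    have hcT : (TT F g).card = c := by rw [hc]; exact TT_card hD (fun i => (hg i).1)
    have h6 := PAR.CT_pow_le 2 c hc2 (TT F g) hcT
    rw [← hA] at h6
    refine h6.trans ?_
    obtain ⟨φ, hφ⟩ : ∃ φ : (Fin k × Fin (k + 1)) × (ℕ × ℕ) → ℝ,
      ∀ w, φ w = Gm A (Nat.dist (ps g w.1.1.succ + w.2.2) (ps g w.1.2 + w.2.1)) := ⟨_, fun w => rfl⟩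
    obtain ⟨S, hS⟩ : ∃ S : ℝ, S = ∑ w ∈ W, φ w := ⟨_, rfl⟩
    have hSe : ∑ w ∈ W, Gm A (Nat.dist (ps g w.1.1.succ + w.2.2) (ps g w.1.2 + w.2.1)) = S := by
      rw [hS]
      exact sum_congr rfl fun w _ => (hφ w).symm
    rw [hSe]
    have hφ0 : ∀ w, 0 ≤ φ w := fun w => by rw [hφ]; exact hG0 _
    have hS0 : 0 ≤ S := by rw [hS]; exact sum_nonneg fun w _ => hφ0 w
    have hC : ∀ (i i' : Fin (k + 1)), i < i' → ∀ f ∈ F, ∀ f' ∈ F,
        Gm A (Nat.dist (ps g i' + f') (ps g i + f)) ≤ B0 + S := by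
      intro i i' hii f hf f' hf'
      obtain ⟨j, hj⟩ : ∃ j : Fin k, i' = j.succ := by
        rcases Fin.eq_zero_or_eq_succ i' with h | ⟨j, h⟩
        · rw [h] at hii
          exact absurd hii (Fin.not_lt_zero i)
        · exact ⟨j, h⟩
      subst hj
      have hle : i ≤ j.castSucc := Fin.le_castSucc_iff.2 hii
      have hmem : ((j, i), (f, f')) ∈ W := by
        rw [hW, mem_product, mem_filter, mem_product]
        exact ⟨⟨mem_univ _, hle⟩, hf, hf'⟩
      have h9 : φ ((j, i), (f, f')) ≤ S := by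
        rw [hS]
        exact single_le_sum (fun w _ => hφ0 w) hmem
      rw [hφ] at h9
      linarith
    calc ∑ u ∈ (TT F g ×ˢ TT F g).filter (fun u => u.1 ≠ u.2), Gm A (Nat.dist u.2 u.1)
        ≤ ∑ u ∈ (TT F g ×ˢ TT F g).filter (fun u => u.1 ≠ u.2), (B0 + S) := by
          apply sum_le_sum
          intro u hu
          rw [mem_filter, mem_product] at hu
          obtain ⟨⟨hu1, hu2⟩, -⟩ := hu
          unfold TT at hu1 hu2
          rw [mem_image] at hu1 hu2
          obtain ⟨x, hx, e1⟩ := hu1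
          obtain ⟨y, hy, e2⟩ := hu2
          rw [mem_product] at hx hy
          rw [← e1, ← e2]
          rcases lt_trichotomy x.1 y.1 with h | h | h
          · exact hC x.1 y.1 h x.2 hx.2 y.2 hy.2
          · rw [h]
            have e3 : Nat.dist (ps g y.1 + y.2) (ps g y.1 + x.2) = Nat.dist y.2 x.2 := by unfold Nat.dist; omega
            rw [e3]
            have : Gm A (Nat.dist y.2 x.2) ≤ B0 := by
              rw [hB0]
              exact single_le_sum (f := fun x : ℕ × ℕ => Gm A (Nat.dist x.2 x.1)) (fun _ _ => hG0 _)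
                (mem_product.2 ⟨hx.2, hy.2⟩ : (x.2, y.2) ∈ F ×ˢ F)
            linarith
          · rw [Nat.dist_comm]
            exact hC y.1 x.1 h y.2 hy.2 x.2 hx.2
      _ = (((TT F g ×ˢ TT F g).filter (fun u => u.1 ≠ u.2)).card : ℝ) * (B0 + S) := by rw [sum_const, nsmul_eq_mul]
      _ ≤ c ^ 2 * (B0 + S) := by
          apply mul_le_mul_of_nonneg_right _ (by linarith)
          have h7 : ((TT F g ×ˢ TT F g).filter (fun u => u.1 ≠ u.2)).card ≤ c ^ 2 := by
            refine (card_filter_le _ _).trans ?_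
            rw [card_product, hcT, sq]
          exact_mod_cast h7
  refine (sum_le_sum hpt).trans ?_
  rw [← mul_sum, mul_assoc]
  apply mul_le_mul_of_nonneg_left _ (by positivity)
  rw [sum_add_distrib, add_mul, sum_comm]
  apply add_le_add
  · rw [sum_const, nsmul_eq_mul, mul_comm]
    apply mul_le_mul_of_nonneg_left _ hB00
    exact_mod_cast bx_card k D L
  · calc ∑ w ∈ W, ∑ g ∈ bx k D L, Gm A (Nat.dist (ps g w.1.1.succ + w.2.2) (ps g w.1.2 + w.2.1))
        ≤ ∑ w ∈ W, E * (L : ℝ) ^ k := by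
          apply sum_le_sum
          intro w hw
          rw [hW, mem_product, mem_filter, mem_product] at hw
          rw [hE]
          exact pair_sum hA0 hL w.1.1 w.1.2 hw.1.2 w.2.1 w.2.2 (hD _ hw.2.1) (hD _ hw.2.2)
      _ = (W.card : ℝ) * E * (L : ℝ) ^ k := by
          rw [sum_const, nsmul_eq_mul]
          ring

/-- the second moment method -/
theorem pz {ι : Type} (I : Finset ι) (R s : ι → ℝ) (L V C C₃ κ : ℝ) (hL : 0 < L) (hV : 0 < V) (hC : 0 < C)
    (hC₃ : 0 < C₃) (hκ : 0 < κ) (h1 : ∀ g ∈ I, R g ≤ C * V * s g) (h2 : ∑ g ∈ I, s g ^ 2 ≤ C₃ * L)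
    (h3 : (I.card : ℝ) ≤ L) (h4 : 2 * κ * V * L ≤ ∑ g ∈ I, R g) :
    ∃ G ⊆ I, κ ^ 2 / (C ^ 2 * C₃) * L ≤ (G.card : ℝ) ∧ ∀ g ∈ G, κ * V ≤ R g := by
  classical
  obtain ⟨G, hG⟩ : ∃ G, G = I.filter (fun g => κ * V ≤ R g) := ⟨_, rfl⟩
  refine ⟨G, by rw [hG]; exact filter_subset _ _, ?_, fun g hg => by rw [hG, mem_filter] at hg; exact hg.2⟩
  have hsplit := sum_filter_add_sum_filter_not I (fun g => κ * V ≤ R g) R
  rw [← hG] at hsplit
  have hsmall : ∑ g ∈ I.filter (fun g => ¬ κ * V ≤ R g), R g ≤ κ * V * L := by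
    calc ∑ g ∈ I.filter (fun g => ¬ κ * V ≤ R g), R g
        ≤ ∑ g ∈ I.filter (fun g => ¬ κ * V ≤ R g), κ * V := by
          apply sum_le_sum
          intro g hg
          exact (not_le.1 (mem_filter.1 hg).2).le
      _ = ((I.filter (fun g => ¬ κ * V ≤ R g)).card : ℝ) * (κ * V) := by rw [sum_const, nsmul_eq_mul]
      _ ≤ L * (κ * V) := by
          apply mul_le_mul_of_nonneg_right _ (by positivity)
          exact (Nat.cast_le.2 (card_filter_le _ _)).trans h3
      _ = κ * V * L := by ring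
  have hGsum : κ * V * L ≤ ∑ g ∈ G, R g := by linarith
  have h5 : κ * V * L ≤ C * V * ∑ g ∈ G, s g := by
    refine hGsum.trans ?_
    rw [mul_sum]
    exact sum_le_sum fun g hg => h1 g (by rw [hG, mem_filter] at hg; exact hg.1)
  have h6 : κ * L ≤ C * ∑ g ∈ G, s g := by
    have h7 : V * (κ * L) ≤ V * (C * ∑ g ∈ G, s g) := by
      calc V * (κ * L) = κ * V * L := by ring
        _ ≤ _ := h5
        _ = _ := by ring
    exact le_of_mul_le_mul_left h7 hV
  have h7 : (∑ g ∈ G, s g) ^ 2 ≤ G.card * (C₃ * L) := by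
    refine sq_sum_le_card_mul_sum_sq.trans ?_
    apply mul_le_mul_of_nonneg_left _ (Nat.cast_nonneg _)
    refine le_trans ?_ h2
    apply sum_le_sum_of_subset_of_nonneg
    · rw [hG]; exact filter_subset _ _
    · intro k _ _
      positivity
  have h8 : (κ * L) ^ 2 ≤ C ^ 2 * (G.card * (C₃ * L)) := by
    calc (κ * L) ^ 2 ≤ (C * ∑ g ∈ G, s g) ^ 2 := pow_le_pow_left₀ (by positivity) h6 2
      _ = C ^ 2 * (∑ g ∈ G, s g) ^ 2 := by ring
      _ ≤ _ := by gcongr
  have h9 : L * (κ ^ 2 * L) ≤ L * (C ^ 2 * C₃ * G.card) := by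
    calc L * (κ ^ 2 * L) = (κ * L) ^ 2 := by ring
      _ ≤ _ := h8
      _ = _ := by ring
  have h10 := le_of_mul_le_mul_left h9 hL
  rw [div_mul_eq_mul_div, div_le_iff₀ (by positivity)]
  linarith

open Classical in
/-- few long or short gaps -/
lemma G1_card (Q : Finset ℕ) (a H D L : ℕ) (hQ : Q ⊆ Ioc a (a + H)) :
    Q.card ≤ 1 + H / (L + 1) + ∑ g ∈ Icc 1 D, (Q.filter (Nx Q g)).card + (G1 Q D L).card := by
  have h1 := gaps_sum Q a H L hQ
  have h2 : ∑ g ∈ Icc 1 L, (Q.filter (Nx Q g)).card ≤ ∑ g ∈ Icc 1 D, (Q.filter (Nx Q g)).card +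
      ∑ g ∈ Icc (D + 1) L, (Q.filter (Nx Q g)).card := by
    have h8 : Icc 1 L ⊆ Icc 1 D ∪ Icc (D + 1) L := by
      intro g hg
      rw [mem_union, mem_Icc, mem_Icc]
      rw [mem_Icc] at hg
      omega
    have h9 : Disjoint (Icc 1 D) (Icc (D + 1) L) := by
      rw [disjoint_left]
      intro g hg hg'
      rw [mem_Icc] at hg hg'
      omega
    rw [← sum_union h9]
    exact sum_le_sum_of_subset h8
  have h3 : ∑ g ∈ Icc (D + 1) L, (Q.filter (Nx Q g)).card ≤ (G1 Q D L).card := by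
    rw [← card_biUnion]
    · apply card_le_card
      intro q hq
      rw [mem_biUnion] at hq
      obtain ⟨g, hg, hq⟩ := hq
      rw [mem_filter] at hq
      exact mem_G1.2 ⟨hq.1, g, hg, hq.2⟩
    · intro g hg g' hg' hne
      rw [Function.onFun, disjoint_left]
      intro q hq hq'
      rw [mem_filter] at hq hq'
      rw [mem_coe, mem_Icc] at hg hg'
      exact hne (Nx_unique (by omega) (by omega) hq.2 hq'.2)
  omega

open Classical in
/-- **A positive proportion of the vectors of consecutive gaps is popular** -/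
theorem pop (k : ℕ) (hk : 1 ≤ k) (F : Finset ℕ) (hF : F.Nonempty) (D : ℕ) (hD : ∀ f ∈ F, f ≤ D) (hDF : D ∈ F)
    (η δ : ℝ) (hη : 0 < η) (hδ : 0 < δ) :
    ∃ κ ρ K : ℝ, 0 < κ ∧ 0 < ρ ∧ 0 < K ∧ ∃ X₀ : ℕ,
    ∀ a H : ℕ, X₀ ≤ H → ∀ Q : Finset ℕ, Q ⊆ Rough F ((H : ℝ) ^ η) a H →
      δ * (H / Real.log H ^ F.card) ≤ Q.card → ∀ L : ℕ, K * Real.log H ^ F.card ≤ L →
      (L : ℝ) ≤ 2 * (K * Real.log H ^ F.card) →
      ∃ G ⊆ bx k D L, ρ * (L : ℝ) ^ k ≤ (G.card : ℝ) ∧ ∀ g ∈ G, κ * (H / Real.log H ^ ((k + 1) * F.card)) ≤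
        ((Q.filter (CN Q g)).card : ℝ) := by
  obtain ⟨l, hl⟩ : ∃ l, l = F.card := ⟨_, rfl⟩
  have hl1 : 1 ≤ l := by rw [hl]; exact hF.card_pos
  rw [← hl]
  have hkR : (1 : ℝ) ≤ k := by exact_mod_cast hk
  obtain ⟨C, hC, X₁, hup⟩ := up_T ((k + 1) * l) η hη
  obtain ⟨C₁, hC₁, X₂, hup1⟩ := up_T (l + 1) η hη
  obtain ⟨C₃, hC₃, hmom⟩ := mom k hk F hF D hD
  obtain ⟨K, hK⟩ : ∃ K : ℝ, K = 4 * k / δ := ⟨_, rfl⟩
  have hK0 : 0 < K := by rw [hK]; positivity
  obtain ⟨κ, hκ⟩ : ∃ κ : ℝ, κ = δ / (4 * (2 * K) ^ k) := ⟨_, rfl⟩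
  have hκ0 : 0 < κ := by rw [hκ]; positivity
  obtain ⟨Z, hZ⟩ : ∃ Z : ℝ, Z = ∑ g ∈ Icc 1 D, C₁ * CT (insert (D + g) F) := ⟨_, rfl⟩
  have hZ0 : 0 ≤ Z := by rw [hZ]; exact sum_nonneg fun g _ => mul_nonneg hC₁.le (CT_nonneg _)
  -- `H / log^l H` is large
  have hlim : Tendsto (fun H : ℕ => (H : ℝ) / Real.log H ^ l) atTop atTop := by
    have h1 : Tendsto (fun x : ℝ => x / Real.log x ^ l) atTop atTop := by
      have h2 : Tendsto (fun y : ℝ => Real.exp y / y ^ l) atTop atTop := Real.tendsto_exp_div_pow_atTop l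
      have h3 := h2.comp Real.tendsto_log_atTop
      refine h3.congr' ?_
      filter_upwards [eventually_gt_atTop (0 : ℝ)] with x hx
      simp [Real.exp_log hx]
    exact h1.comp tendsto_natCast_atTop_atTop
  have hlim2 : Tendsto (fun H : ℕ => Real.log (H : ℝ)) atTop atTop :=
    Real.tendsto_log_atTop.comp tendsto_natCast_atTop_atTop
  obtain ⟨X₃, hX₃⟩ := eventually_atTop.1 ((hlim.eventually_ge_atTop (8 * k / δ)).and
    (hlim2.eventually_ge_atTop (max 1 (8 * k * Z / δ))))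
  refine ⟨κ, κ ^ 2 / (C ^ 2 * C₃), K, hκ0, by positivity, hK0, max (max X₁ X₂) (max X₃ 3),
    fun a H hH Q hQ hQc L hL1 hL2 => ?_⟩
  have hX₁ : X₁ ≤ H := (le_max_left _ _).trans ((le_max_left _ _).trans hH)
  have hX₂ : X₂ ≤ H := (le_max_right _ _).trans ((le_max_left _ _).trans hH)
  obtain ⟨hb1, hb2⟩ := hX₃ H ((le_max_left _ _).trans ((le_max_right _ _).trans hH))
  have hH3 : 3 ≤ H := (le_max_right _ _).trans ((le_max_right _ _).trans hH)
  have hHR : (3 : ℝ) ≤ H := by exact_mod_cast hH3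
  have hlog1 : 1 ≤ Real.log H := (le_max_left _ _).trans hb2
  have hlogZ : 8 * k * Z / δ ≤ Real.log H := (le_max_right _ _).trans hb2
  have hlog0 : 0 < Real.log (H : ℝ) := by linarith
  have hH0 : (0 : ℝ) < H := by linarith
  obtain ⟨Λ, hΛ⟩ : ∃ Λ : ℝ, Λ = Real.log H ^ l := ⟨_, rfl⟩
  have hΛ0 : 0 < Λ := by rw [hΛ]; positivity
  have hΛ2 : Real.log (H : ℝ) ^ ((k + 1) * l) = Λ ^ (k + 1) := by rw [hΛ, ← pow_mul, mul_comm (k + 1) l]
  rw [← hΛ] at hL1 hL2 hQc hb1
  rw [hΛ2]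
  have hL0 : (0 : ℝ) < L := lt_of_lt_of_le (by positivity) hL1
  have hL1' : 1 ≤ L := by exact_mod_cast hL0
  have hQI : Q ⊆ Ioc a (a + H) := fun q hq => (mem_Rough.1 (hQ hq)).1
  obtain ⟨R, hR⟩ : ∃ R : (Fin k → ℕ) → ℝ, R = fun g => ((Q.filter (CN Q g)).card : ℝ) := ⟨_, rfl⟩
  have hRg : ∀ g, ((Q.filter (CN Q g)).card : ℝ) = R g := fun g => by rw [hR]
  -- the short gaps
  have h8 : ∑ g ∈ Icc 1 D, ((Q.filter (Nx Q g)).card : ℝ) ≤ Z / Real.log H * (H / Λ) := by
    have h9 : ∀ g ∈ Icc 1 D, ((Q.filter (Nx Q g)).card : ℝ) ≤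
        C₁ * CT (insert (D + g) F) * (H / (Real.log H ^ (l + 1))) := by
      intro g hg
      rw [mem_Icc] at hg
      have hnot : D + g ∉ F := fun h => by
        have := hD _ h
        omega
      have hc : (insert (D + g) F).card = l + 1 := by rw [card_insert_of_notMem hnot, hl]
      have h1 := hup1 a H hX₂ (insert (D + g) F) hc
      have h2 : ((Q.filter (Nx Q g)).card : ℝ) ≤ ((Rough (insert (D + g) F) ((H : ℝ) ^ η) a H).card : ℝ) := by
        refine Nat.cast_le.2 (card_le_card fun q hq => ?_)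
        rw [mem_filter] at hq
        have h3 := mem_Rough.1 (hQ hq.1)
        have h4 := mem_Rough.1 (hQ hq.2.1)
        rw [mem_Rough]
        refine ⟨h3.1, fun f hf => ?_⟩
        rw [mem_insert] at hf
        rcases hf with rfl | hf
        · have e : q + (D + g) = q + g + D := by ring
          rw [e]
          exact h4.2 D hDF
        · exact h3.2 f hf
      calc ((Q.filter (Nx Q g)).card : ℝ) ≤ _ := h2
        _ ≤ _ := h1
        _ = _ := by ring
    calc ∑ g ∈ Icc 1 D, ((Q.filter (Nx Q g)).card : ℝ)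
        ≤ ∑ g ∈ Icc 1 D, C₁ * CT (insert (D + g) F) * (H / (Real.log H ^ (l + 1))) := sum_le_sum h9
      _ = Z * (H / (Real.log H ^ (l + 1))) := by rw [← sum_mul, hZ]
      _ = (Z / Real.log H) * (H / Λ) := by
          rw [hΛ, pow_succ]
          field_simp
  -- all gap vectors
  have hgap : δ / 2 * (H / Λ) ≤ ∑ g ∈ bx k D L, R g := by
    obtain ⟨S, hSQ, hSc, hS⟩ := runs Q D L k
    have h1 := G1_card Q a H D L hQI
    have h2 : (Q.card : ℝ) ≤ S.card + k * (1 + ((H / (L + 1) : ℕ) : ℝ) + ∑ g ∈ Icc 1 D, ((Q.filter (Nx Q g)).card : ℝ)) := by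
      have h3 : Q.card - (G1 Q D L).card ≤ 1 + H / (L + 1) + ∑ g ∈ Icc 1 D, (Q.filter (Nx Q g)).card :=
        tsub_le_iff_right.2 h1
      have h4 := hSc.trans (Nat.add_le_add_left (Nat.mul_le_mul_left k h3) _)
      exact_mod_cast h4
    have h4 : ((H / (L + 1) : ℕ) : ℝ) ≤ (H : ℝ) / ((L + 1 : ℕ) : ℝ) := Nat.cast_div_le
    have h5 : k * ((H : ℝ) / ((L + 1 : ℕ) : ℝ)) ≤ δ / 4 * (H / Λ) := by
      have h6 : K * Λ ≤ ((L + 1 : ℕ) : ℝ) := by
        push_cast
        linarith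
      calc k * ((H : ℝ) / ((L + 1 : ℕ) : ℝ)) ≤ k * (H / (K * Λ)) := by gcongr
        _ = δ / 4 * (H / Λ) := by
            rw [hK]
            field_simp
    have h6 : (k : ℝ) ≤ δ / 8 * (H / Λ) := by
      calc (k : ℝ) = δ / 8 * (8 * k / δ) := by field_simp
        _ ≤ _ := by gcongr
    have h7 : k * ∑ g ∈ Icc 1 D, ((Q.filter (Nx Q g)).card : ℝ) ≤ δ / 8 * (H / Λ) := by
      calc k * ∑ g ∈ Icc 1 D, ((Q.filter (Nx Q g)).card : ℝ) ≤ k * (Z / Real.log H * (H / Λ)) := by gcongr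
        _ = (k * Z / Real.log H) * (H / Λ) := by ring
        _ ≤ δ / 8 * (H / Λ) := by
            apply mul_le_mul_of_nonneg_right _ (by positivity)
            rw [div_le_iff₀ hlog0]
            rw [div_le_iff₀ hδ] at hlogZ
            linarith
    have h9 : (S.card : ℝ) ≤ ∑ g ∈ bx k D L, R g := by
      have h10 : S ⊆ (bx k D L).biUnion (fun g => Q.filter (CN Q g)) := by
        intro q hq
        obtain ⟨g, hg, hC⟩ := hS q hq
        rw [mem_biUnion]
        exact ⟨g, hg, mem_filter.2 ⟨hSQ hq, hC⟩⟩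
      have h11 := (card_le_card h10).trans card_biUnion_le
      have h12 : (S.card : ℝ) ≤ ∑ g ∈ bx k D L, ((Q.filter (CN Q g)).card : ℝ) := by exact_mod_cast h11
      simpa only [hRg] using h12
    have h10 : k * ((H / (L + 1) : ℕ) : ℝ) ≤ k * ((H : ℝ) / ((L + 1 : ℕ) : ℝ)) := by gcongr
    rw [mul_add, mul_add, mul_one] at h2
    have h11 : δ / 2 * (H / Λ) + (δ / 4 * (H / Λ) + δ / 8 * (H / Λ) + δ / 8 * (H / Λ)) = δ * (H / Λ) := by ring
    linarith
  have hLk : (0 : ℝ) < (L : ℝ) ^ k := by positivity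
  obtain ⟨G, hGs, hGc, hG⟩ := pz (bx k D L) R (fun g => CT (TT F g)) ((L : ℝ) ^ k) (H / Λ ^ (k + 1)) C C₃ κ hLk
    (by positivity) hC hC₃ hκ0 (by
      intro g hg
      rw [mem_bx] at hg
      have h1 := hup a H hX₁ (TT F g) (by rw [TT_card hD (fun i => (hg i).1), hl])
      rw [hΛ2] at h1
      have h2 : R g ≤ ((Rough (TT F g) ((H : ℝ) ^ η) a H).card : ℝ) := by
        rw [hR]
        refine Nat.cast_le.2 (card_le_card fun q hq => ?_)
        rw [mem_filter] at hq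
        rw [mem_Rough]
        refine ⟨hQI hq.1, fun x hx => ?_⟩
        unfold TT at hx
        rw [mem_image] at hx
        obtain ⟨⟨i, f⟩, hy, rfl⟩ := hx
        rw [mem_product] at hy
        have hqi : q + ps g i ∈ Q := by
          rcases Fin.eq_zero_or_eq_succ i with h | ⟨j, h⟩
          · rw [h, ps_zero, add_zero]
            exact hq.1
          · rw [h, ps_succ, ← add_assoc]
            exact (hq.2 j).1
        have h3 := mem_Rough.1 (hQ hqi)
        have e : q + (ps g i + f) = q + ps g i + f := by ring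
        rw [e]
        exact h3.2 f hy.2
      calc R g ≤ _ := h2
        _ ≤ _ := h1
        _ = _ := by ring) (hmom L hL1') (by exact_mod_cast bx_card k D L) (by
      refine le_trans ?_ hgap
      have h1 : (L : ℝ) ^ k ≤ (2 * K) ^ k * Λ ^ k := by
        rw [← mul_pow]
        apply pow_le_pow_left₀ hL0.le
        linarith
      calc 2 * κ * (H / Λ ^ (k + 1)) * (L : ℝ) ^ k ≤ 2 * κ * (H / Λ ^ (k + 1)) * ((2 * K) ^ k * Λ ^ k) := by gcongr
        _ = δ / 2 * (H / Λ) := by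
            rw [hκ, pow_succ]
            have : (2 * K) ^ k ≠ 0 := by positivity
            field_simp
            norm_num)
  exact ⟨G, hGs, hGc, fun g hg => by rw [hRg]; exact hG g hg⟩

/-- a fibre of a dense set of vectors -/
theorem fibreV {k D L : ℕ} (hL : 1 ≤ L) (i : Fin k) (P : Finset (Fin k → ℕ)) (hP : P ⊆ bx k D L) (ρ : ℝ)
    (hρ : 0 < ρ) (hPc : ρ * (L : ℝ) ^ k ≤ P.card) :
    ∃ b : Fin k → ℕ, ∃ V : Finset ℕ, V ⊆ Icc 1 L ∧ ρ * L ≤ V.card ∧ ∀ v ∈ V, Function.update b i v ∈ P := by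
  classical
  have hk : 1 ≤ k := by
    have := i.2
    omega
  have hLR : (0 : ℝ) < L := by exact_mod_cast (by omega : 0 < L)
  obtain ⟨N, hN⟩ : ∃ N : (Fin k → ℕ) → Finset ℕ, N = fun u => (Icc (D + 1) L).filter (fun v => Function.update u i v ∈ P) :=
    ⟨_, rfl⟩
  have h1 : (P.card : ℝ) ≤ ∑ u ∈ bo k D L i, ((N u).card : ℝ) := by
    have h2 := sum_bx i (D := D) (L := L) (fun g => if g ∈ P then (1 : ℝ) else 0) (fun g => by split_ifs <;> norm_num)
    have h3 : ∑ g ∈ bx k D L, (if g ∈ P then (1 : ℝ) else 0) = P.card := by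
      rw [← sum_filter, sum_const, nsmul_eq_mul, mul_one]
      congr 2
      ext g
      rw [mem_filter]
      exact ⟨fun h => h.2, fun h => ⟨hP h, h⟩⟩
    rw [h3] at h2
    refine h2.trans (le_of_eq (sum_congr rfl fun u _ => ?_))
    rw [← sum_filter, sum_const, nsmul_eq_mul, mul_one, hN]
  by_contra hcon
  push Not at hcon
  have h4 : ∀ u ∈ bo k D L i, ((N u).card : ℝ) < ρ * L := by
    intro u _
    by_contra h5
    push Not at h5
    obtain ⟨v, hv, hv'⟩ := hcon u (N u) (by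
      intro v hv
      rw [hN, mem_filter, mem_Icc] at hv
      rw [mem_Icc]
      omega) h5
    rw [hN, mem_filter] at hv
    exact hv' hv.2
  have h0 : 0 < ρ * (L : ℝ) ^ k := by positivity
  have hne : (bo k D L i).Nonempty := by
    by_contra hem
    rw [not_nonempty_iff_eq_empty] at hem
    rw [hem, sum_empty] at h1
    linarith
  have h5 := sum_lt_sum_of_nonempty hne h4
  rw [sum_const, nsmul_eq_mul] at h5
  have h6 : ((bo k D L i).card : ℝ) ≤ (L : ℝ) ^ (k - 1) := by exact_mod_cast bo_card k D L i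
  have h7 : (L : ℝ) ^ k = (L : ℝ) ^ (k - 1) * L := by
    rw [← pow_succ]
    congr 1
    omega
  have h8 : ((bo k D L i).card : ℝ) * (ρ * L) ≤ (L : ℝ) ^ (k - 1) * (ρ * L) :=
    mul_le_mul_of_nonneg_right h6 (by positivity)
  have h9 : (L : ℝ) ^ (k - 1) * (ρ * L) = ρ * (L : ℝ) ^ k := by rw [h7]; ring
  linarith

/-- signed sums of at most `n` vectors of `P` -/
def SR {k : ℕ} (P : (Fin k → ℕ) → Prop) (n : ℕ) (t : Fin k → ℤ) : Prop :=
  ∃ l l' : List (Fin k → ℕ), l.length + l'.length ≤ n ∧ (∀ g ∈ l, P g) ∧ (∀ g ∈ l', P g) ∧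
    ∀ i, t i = (l.map (fun g => (g i : ℤ))).sum - (l'.map (fun g => (g i : ℤ))).sum

lemma SR_zero {k : ℕ} (P : (Fin k → ℕ) → Prop) : SR P 0 0 :=
  ⟨[], [], by simp, by simp, by simp, by simp⟩

lemma SR_mono {k : ℕ} {P : (Fin k → ℕ) → Prop} {n n' : ℕ} {t : Fin k → ℤ} (h : SR P n t) (hn : n ≤ n') : SR P n' t := by
  obtain ⟨l, l', h1, h2, h3, h4⟩ := h
  exact ⟨l, l', h1.trans hn, h2, h3, h4⟩

lemma SR_neg {k : ℕ} {P : (Fin k → ℕ) → Prop} {n : ℕ} {t : Fin k → ℤ} (h : SR P n t) : SR P n (-t) := by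
  obtain ⟨l, l', h1, h2, h3, h4⟩ := h
  refine ⟨l', l, by omega, h3, h2, fun i => ?_⟩
  rw [Pi.neg_apply, h4 i]
  ring

lemma SR_add {k : ℕ} {P : (Fin k → ℕ) → Prop} {n n' : ℕ} {t t' : Fin k → ℤ} (h : SR P n t) (h' : SR P n' t') :
    SR P (n + n') (t + t') := by
  obtain ⟨l, m, h1, h2, h3, h4⟩ := h
  obtain ⟨l', m', h1', h2', h3', h4'⟩ := h'
  refine ⟨l ++ l', m ++ m', ?_, fun g hg => ?_, fun g hg => ?_, fun i => ?_⟩
  · rw [List.length_append, List.length_append]
    omega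
  · rcases List.mem_append.1 hg with hg | hg
    · exact h2 g hg
    · exact h2' g hg
  · rcases List.mem_append.1 hg with hg | hg
    · exact h3 g hg
    · exact h3' g hg
  · rw [Pi.add_apply, h4 i, h4' i, List.map_append, List.map_append, List.sum_append, List.sum_append]
    ring

lemma SR_sum {k : ℕ} {P : (Fin k → ℕ) → Prop} {ι : Type} (s : Finset ι) (n : ι → ℕ) (f : ι → Fin k → ℤ)
    (H : ∀ i ∈ s, SR P (n i) (f i)) : SR P (∑ i ∈ s, n i) (∑ i ∈ s, f i) := by
  classical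
  induction s using Finset.induction_on with
  | empty => simpa using SR_zero P
  | insert a s ha ih =>
    rw [sum_insert ha, sum_insert ha]
    exact SR_add (H a (mem_insert_self _ _)) (ih fun i hi => H i (mem_insert_of_mem hi))

lemma map_update {k : ℕ} (b : Fin k → ℕ) (i i' : Fin k) (l : List ℕ) :
    ((l.map (fun v => Function.update b i v)).map (fun g => (g i' : ℤ))).sum =
      if i' = i then (l.sum : ℤ) else (l.length : ℤ) * b i' := by
  induction l with
  | nil => simp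
  | cons v l ih =>
    rw [List.map_cons, List.map_cons, List.sum_cons, ih]
    by_cases h : i' = i
    · subst h
      rw [if_pos rfl, if_pos rfl, Function.update_self, List.sum_cons]
      push_cast
      ring
    · rw [if_neg h, if_neg h, Function.update_of_ne h, List.length_cons]
      push_cast
      ring

/-- **From the density of the popular vectors to all vectors of a lattice** -/
theorem lattice (k : ℕ) (ρ : ℝ) (hρ : 0 < ρ) : ∃ h D₁ N₀ : ℕ, 1 ≤ D₁ ∧ ∀ (L D : ℕ), N₀ ≤ L → 1 ≤ L →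
    ∀ G : Finset (Fin k → ℕ), G ⊆ bx k D L → ρ * (L : ℝ) ^ k ≤ G.card → ∀ t : Fin k → ℤ,
      (∀ i, ((D₁.factorial : ℕ) : ℤ) ∣ t i) → SR (fun g => g ∈ G) (∑ i, 2 * h * ((t i).natAbs / L + 1)) t := by
  classical
  obtain ⟨h, D₁, N₀, hD₁, hloc⟩ := VEC.local_exact ρ hρ
  refine ⟨h, D₁, N₀, hD₁, fun L D hL hL1 G hG hGc t hMt => ?_⟩
  have hone : ∀ i : Fin k, SR (fun g => g ∈ G) (2 * h * ((t i).natAbs / L + 1)) (Pi.single i (t i)) := by
    intro i
    obtain ⟨b, V, hVL, hVc, hV⟩ := fibreV hL1 i G hG ρ hρ hGc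
    obtain ⟨d, c, hd1, hdD, hap⟩ := hloc L V hL hVL hVc
    have hblock : ∀ n ≤ L, SR (fun g => g ∈ G) (2 * h) (Pi.single i ((d : ℤ) * n)) := by
      intro n hn
      obtain ⟨l, l1, l2, l3⟩ := hap n hn
      obtain ⟨l', l1', l2', l3'⟩ := hap 0 (Nat.zero_le _)
      refine ⟨l.map (fun v => Function.update b i v), l'.map (fun v => Function.update b i v), ?_, ?_, ?_, ?_⟩
      · rw [List.length_map, List.length_map, l1, l1']
        omega
      · intro g hg
        obtain ⟨v, hv, rfl⟩ := List.mem_map.1 hg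
        exact hV v (l2 v hv)
      · intro g hg
        obtain ⟨v, hv, rfl⟩ := List.mem_map.1 hg
        exact hV v (l2' v hv)
      · intro i'
        rw [map_update, map_update, l1, l1', l3, l3']
        by_cases h3 : i' = i
        · subst h3
          rw [if_pos rfl, if_pos rfl, Pi.single_eq_same]
          push_cast
          ring
        · rw [if_neg h3, if_neg h3, Pi.single_eq_of_ne h3]
          ring
    have hall : ∀ q r : ℕ, r ≤ L → SR (fun g => g ∈ G) (2 * h * (q + 1)) (Pi.single i ((d : ℤ) * ((q * L + r : ℕ) : ℤ))) := by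
      intro q
      induction q with
      | zero =>
        intro r hr
        rw [zero_mul, zero_add, zero_add, mul_one]
        exact hblock r hr
      | succ q ih =>
        intro r hr
        have h3 := SR_add (ih r hr) (hblock L le_rfl)
        have e1 : 2 * h * (q + 1 + 1) = 2 * h * (q + 1) + 2 * h := by ring
        have e2 : (Pi.single i ((d : ℤ) * (((q + 1) * L + r : ℕ) : ℤ)) : Fin k → ℤ) =
            Pi.single i ((d : ℤ) * ((q * L + r : ℕ) : ℤ)) + Pi.single i ((d : ℤ) * (L : ℤ)) := by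
          rw [← Pi.single_add]
          congr 1
          push_cast
          ring
        rw [e1, e2]
        exact h3
    have hdM : (d : ℤ) ∣ t i := by
      refine dvd_trans ?_ (hMt i)
      exact_mod_cast Nat.dvd_factorial (by omega) hdD
    obtain ⟨m, hm⟩ := hdM
    have hmt : m.natAbs ≤ (t i).natAbs := by
      rw [hm, Int.natAbs_mul, Int.natAbs_natCast]
      exact Nat.le_mul_of_pos_left _ (by omega)
    have h3 := hall (m.natAbs / L) (m.natAbs % L) (Nat.mod_lt _ (by omega)).le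
    rw [Nat.div_add_mod' m.natAbs L] at h3
    have h4 : 2 * h * (m.natAbs / L + 1) ≤ 2 * h * ((t i).natAbs / L + 1) := by
      apply Nat.mul_le_mul_left
      exact Nat.succ_le_succ (Nat.div_le_div_right hmt)
    have h5 := SR_mono h3 h4
    rcases le_total 0 m with h6 | h6
    · have h7 : ((m.natAbs : ℕ) : ℤ) = m := by rw [Int.natCast_natAbs, abs_of_nonneg h6]
      rw [h7, ← hm] at h5
      exact h5
    · have h7 : ((m.natAbs : ℕ) : ℤ) = -m := by rw [Int.natCast_natAbs, abs_of_nonpos h6]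
      rw [h7] at h5
      have h8 := SR_neg h5
      have e : -(Pi.single i ((d : ℤ) * -m) : Fin k → ℤ) = Pi.single i (t i) := by
        rw [← Pi.single_neg, hm]
        congr 1
        ring
      rw [e] at h8
      exact h8
  have h3 := SR_sum univ (fun i : Fin k => 2 * h * ((t i).natAbs / L + 1)) (fun i : Fin k => Pi.single i (t i))
    (fun i _ => hone i)
  rw [Finset.univ_sum_single] at h3
  exact h3

open Classical in
/-- **The vectors of `k` consecutive gaps** -/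
theorem main (k : ℕ) (hk : 1 ≤ k) (F : Finset ℕ) (hF : F.Nonempty) (η δ : ℝ) (hη : 0 < η) (hδ : 0 < δ) :
    ∃ h M : ℕ, 1 ≤ M ∧ ∃ κ ρ K : ℝ, 0 < κ ∧ 0 < ρ ∧ 0 < K ∧ ∃ X₀ : ℕ,
    ∀ a H : ℕ, X₀ ≤ H → ∀ Q : Finset ℕ, Q ⊆ Rough F ((H : ℝ) ^ η) a H →
      δ * (H / Real.log H ^ F.card) ≤ Q.card →
      (∃ G : Finset (Fin k → ℕ), ρ * (Real.log H ^ F.card) ^ k ≤ (G.card : ℝ) ∧
        ∀ g ∈ G, (∀ i, 1 ≤ g i ∧ (g i : ℝ) ≤ K * Real.log H ^ F.card) ∧
          κ * (H / Real.log H ^ ((k + 1) * F.card)) ≤ ((Q.filter (CN Q g)).card : ℝ)) ∧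
      ∀ t : Fin k → ℤ, (∀ i, (M : ℤ) ∣ t i) → ∃ n : ℕ,
        n * Real.log H ^ F.card ≤ h * (Real.log H ^ F.card + ∑ i, |(t i : ℝ)|) ∧
        SR (fun g => (∀ i, 1 ≤ g i ∧ (g i : ℝ) ≤ K * Real.log H ^ F.card) ∧
          κ * (H / Real.log H ^ ((k + 1) * F.card)) ≤ ((Q.filter (CN Q g)).card : ℝ)) n t := by
  obtain ⟨D, hD, hDF⟩ : ∃ D : ℕ, (∀ f ∈ F, f ≤ D) ∧ D ∈ F := ⟨F.max' hF, fun f hf => F.le_max' f hf, F.max'_mem hF⟩
  obtain ⟨κ, ρ, K₁, hκ, hρ, hK₁, X₁, hpop⟩ := pop k hk F hF D hD hDF η δ hη hδ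
  obtain ⟨h₁, D₁, N₀, hD₁, hlat⟩ := lattice k ρ hρ
  obtain ⟨h₂, hh₂⟩ := exists_nat_ge (max (k : ℝ) (1 / K₁))
  have hlim2 : Tendsto (fun H : ℕ => K₁ * Real.log (H : ℝ) ^ F.card) atTop atTop :=
    ((tendsto_pow_atTop hF.card_pos.ne').comp
      (Real.tendsto_log_atTop.comp tendsto_natCast_atTop_atTop)).const_mul_atTop hK₁
  obtain ⟨X₃, hX₃⟩ := eventually_atTop.1 (hlim2.eventually_ge_atTop (max (N₀ : ℝ) 1))
  refine ⟨2 * h₁ * h₂, D₁.factorial, Nat.factorial_pos _, κ, ρ * K₁ ^ k, 2 * K₁, hκ, by positivity, by positivity,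
    max X₁ X₃, fun a H hH Q hQ hQc => ?_⟩
  have hb := hX₃ H ((le_max_right _ _).trans hH)
  obtain ⟨Λ, hΛ⟩ : ∃ Λ : ℝ, Λ = Real.log H ^ F.card := ⟨_, rfl⟩
  have hpp := hpop a H ((le_max_left _ _).trans hH) Q hQ hQc
  rw [← hΛ] at hpp hb
  rw [← hΛ]
  have hKl1 : (N₀ : ℝ) ≤ K₁ * Λ := (le_max_left _ _).trans hb
  have hKl2 : 1 ≤ K₁ * Λ := (le_max_right _ _).trans hb
  have hΛ0 : 0 < Λ := by
    by_contra hcon
    push Not at hcon
    nlinarith
  obtain ⟨L, hL⟩ : ∃ L, L = ⌈K₁ * Λ⌉₊ := ⟨_, rfl⟩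
  have hL1 : K₁ * Λ ≤ L := by rw [hL]; exact Nat.le_ceil _
  have hL2 : (L : ℝ) ≤ 2 * (K₁ * Λ) := by
    have : (L : ℝ) < K₁ * Λ + 1 := by rw [hL]; exact Nat.ceil_lt_add_one (by linarith)
    linarith
  have hL0 : N₀ ≤ L := by
    have : (N₀ : ℝ) ≤ L := hKl1.trans hL1
    exact_mod_cast this
  have hLpos : 1 ≤ L := by
    have : (1 : ℝ) ≤ L := hKl2.trans hL1
    exact_mod_cast this
  have hLR : (0 : ℝ) < L := by exact_mod_cast (by omega : 0 < L)
  obtain ⟨G, hGs, hGc, hG⟩ := hpp L hL1 hL2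
  have hG' : ∀ g ∈ G, (∀ i, 1 ≤ g i ∧ (g i : ℝ) ≤ 2 * K₁ * Λ) ∧
      κ * (H / Real.log H ^ ((k + 1) * F.card)) ≤ ((Q.filter (CN Q g)).card : ℝ) := by
    intro g hg
    refine ⟨fun i => ?_, hG g hg⟩
    have h1 := mem_bx.1 (hGs hg) i
    have h2 : (g i : ℝ) ≤ L := by exact_mod_cast h1.2
    exact ⟨by omega, by linarith⟩
  refine ⟨⟨G, ?_, hG'⟩, fun t hMt => ⟨∑ i, 2 * h₁ * ((t i).natAbs / L + 1), ?_, ?_⟩⟩
  · refine le_trans ?_ hGc
    calc ρ * K₁ ^ k * Λ ^ k = ρ * (K₁ * Λ) ^ k := by rw [mul_pow]; ring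
      _ ≤ ρ * (L : ℝ) ^ k := by gcongr
  · push_cast
    have h1 : ∀ i : Fin k, 2 * (h₁ : ℝ) * ((((t i).natAbs / L : ℕ) : ℝ) + 1) * Λ ≤
        2 * h₁ * (Λ + 1 / K₁ * |(t i : ℝ)|) := by
      intro i
      have h2 : (((t i).natAbs / L : ℕ) : ℝ) ≤ ((t i).natAbs : ℝ) / L := Nat.cast_div_le
      have h3 : ((t i).natAbs : ℝ) = |(t i : ℝ)| := by rw [Nat.cast_natAbs, Int.cast_abs]
      rw [h3] at h2
      have h4 : |(t i : ℝ)| / L * Λ ≤ 1 / K₁ * |(t i : ℝ)| := by
        rw [div_mul_eq_mul_div, div_le_iff₀ hLR]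
        have h5 : Λ ≤ 1 / K₁ * L := by
          rw [one_div, ← div_eq_inv_mul, le_div_iff₀ hK₁]
          linarith
        calc |(t i : ℝ)| * Λ ≤ |(t i : ℝ)| * (1 / K₁ * L) := by gcongr
          _ = _ := by ring
      calc 2 * (h₁ : ℝ) * ((((t i).natAbs / L : ℕ) : ℝ) + 1) * Λ
          ≤ 2 * (h₁ : ℝ) * (|(t i : ℝ)| / L + 1) * Λ := by gcongr
        _ = 2 * h₁ * (Λ + |(t i : ℝ)| / L * Λ) := by ring
        _ ≤ _ := by gcongr
    have hh3 : (k : ℝ) ≤ h₂ := (le_max_left _ _).trans hh₂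
    have hh4 : 1 / K₁ ≤ h₂ := (le_max_right _ _).trans hh₂
    calc (∑ i, 2 * (h₁ : ℝ) * ((((t i).natAbs / L : ℕ) : ℝ) + 1)) * Λ
        = ∑ i, 2 * (h₁ : ℝ) * ((((t i).natAbs / L : ℕ) : ℝ) + 1) * Λ := by rw [sum_mul]
      _ ≤ ∑ i, 2 * h₁ * (Λ + 1 / K₁ * |(t i : ℝ)|) := sum_le_sum fun i _ => h1 i
      _ = 2 * h₁ * (k * Λ + 1 / K₁ * ∑ i, |(t i : ℝ)|) := by
          rw [← mul_sum, sum_add_distrib, ← mul_sum, sum_const, card_univ, Fintype.card_fin, nsmul_eq_mul]
      _ ≤ 2 * h₁ * (h₂ * Λ + h₂ * ∑ i, |(t i : ℝ)|) := by gcongr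
      _ = _ := by ring
  · obtain ⟨l, l', g1, g2, g3, g4⟩ := hlat L D hL0 hLpos G hGs hGc t hMt
    exact ⟨l, l', g1, fun g hg => hG' g (g2 g hg), fun g hg => hG' g (g3 g hg), g4⟩

end Pool.Agent.U455.GVV
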