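import Mathlib
import Pool.Agent.U455.VEC
import Pool.Agent.U455.GVV
import Pool.Agent.X58.IV.Vol
import Pool.Agent.X58.IV.Up
import Pool.Agent.Y79.HS.Loc
import Pool.Agent.Y79.HS.Gav
import Pool.Agent.Y843.HS.Gd

/-!
# Popular shapes in dense subsets of arbitrary sifted sets
-/

set_option autoImplicit false
set_option maxHeartbeats 4000000

namespace Pool.Agent.U455.ASZ

open Finset Filter Topology
open Pool.Agent.X58.IV (Adm Sift upZ VV_pos VV_le_one fac)
open Pool.Agent.Y843.HS (Pr VV Sv Om Co Coll Gd)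
open Pool.Agent.Y840.PT (P0)
open Pool.Agent.U455.KTW (shs pos dil cells shs_card)

lemma VV_small {l : ℕ} {Z : ℕ → Finset ℕ} (hZ : Adm l Z) (s : ℕ) :
    1 / ((∏ p ∈ P0 s, p : ℕ) : ℝ) ≤ VV Z 0 s := by
  unfold VV
  have e : (1 : ℝ) / ((∏ p ∈ P0 s, p : ℕ) : ℝ) = ∏ p ∈ Pr 0 s, 1 / (p : ℝ) := by
    rw [prod_div_distrib, prod_const_one]
    push_cast
    rfl
  rw [e]
  apply Finset.prod_le_prod
  · intro p _; positivity
  · intro p hp
    exact (fac hZ (mem_filter.1 hp).2).1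

/-- the collision weight of a set -/
noncomputable def sg (K : ℕ) (Z : ℕ → Finset ℕ) (s R : ℕ) (T : Finset ℕ) : ℝ :=
  ∏ x ∈ T.offDiag, Gd K Z s R ((x.1 : ℤ) - x.2)

lemma one_le_sg (K : ℕ) (Z : ℕ → Finset ℕ) (s R : ℕ) (T : Finset ℕ) : 1 ≤ sg K Z s R T := by
  unfold sg
  have h : ∀ x ∈ T.offDiag, (1 : ℝ) ≤ Gd K Z s R ((x.1 : ℤ) - x.2) := fun x _ =>
    Pool.Agent.Y843.HS.one_le_Gd K _
  calc (1 : ℝ) = ∏ x ∈ T.offDiag, (1 : ℝ) := by rw [prod_const_one]
    _ ≤ _ := Finset.prod_le_prod (fun _ _ => zero_le_one) h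

/-- the upper bound sieve for the positions of `T` -/
theorem upT (l m : ℕ) (hm : 1 ≤ m) (κ : ℝ) (hκ : 0 < κ) : ∃ K s₀ : ℕ, ∀ s : ℕ, s₀ ≤ s → ∃ C : ℝ, 0 < C ∧ ∃ X₀ : ℕ,
    ∀ X A : ℕ, X₀ ≤ X → ∀ Z : ℕ → Finset ℕ, Adm l Z → ∀ Q : Finset ℕ, Q ⊆ Sift Z κ A X → ∀ T : Finset ℕ,
      T.card = m →
      ((pos Q T).card : ℝ) ≤ C * (X * VV Z 0 ⌊(X : ℝ) ^ κ⌋₊ ^ m) * sg K Z s ⌊(X : ℝ) ^ κ⌋₊ T := by
  classical
  obtain ⟨K, hK⟩ := Pool.Agent.Y79.HS.loc l m
  obtain ⟨s₀, hs₀⟩ := hK 1 one_pos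
  refine ⟨K, max s₀ (m * l), fun s hs => ?_⟩
  have hs1 : s₀ ≤ s := (le_max_left _ _).trans hs
  have hs2 : m * l ≤ s := (le_max_right _ _).trans hs
  obtain ⟨C, hC, X₁, hup⟩ := upZ (m * l) κ hκ
  obtain ⟨D, hD⟩ : ∃ D : ℕ, D = ∏ p ∈ P0 s, p := ⟨_, rfl⟩
  have hD1 : 1 ≤ D := by
    rw [hD]
    exact Nat.pos_of_ne_zero (prod_ne_zero_iff.2 fun p hp => (mem_filter.1 hp).2.ne_zero)
  have hD0 : (0 : ℝ) < D := by exact_mod_cast hD1
  obtain ⟨X₂, hX₂⟩ := eventually_atTop.1 (Pool.Agent.Y840.PT.floor_pow hκ s)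
  refine ⟨C * D ^ m, by positivity, max X₁ X₂, fun X A hX Z hZ Q hQ T hT => ?_⟩
  obtain ⟨R, hR⟩ : ∃ R : ℕ, R = ⌊(X : ℝ) ^ κ⌋₊ := ⟨_, rfl⟩
  have hsR : s ≤ R := by
    obtain ⟨h1, h2, h3⟩ := hX₂ X ((le_max_right _ _).trans hX)
    rw [hR]
    exact h1
  rw [← hR]
  -- the enumeration
  obtain ⟨u, hu⟩ : ∃ u : Fin m → ℕ, u = fun i => T.orderEmbOfFin hT i := ⟨_, rfl⟩
  have huT : ∀ i, u i ∈ T := fun i => by rw [hu]; exact T.orderEmbOfFin_mem hT i
  have huinj : Function.Injective u := by rw [hu]; exact (T.orderEmbOfFin hT).injective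
  have hurange : ∀ t ∈ T, ∃ i, u i = t := by
    intro t ht
    have h1 : t ∈ Set.range (T.orderEmbOfFin hT) := by
      rw [Finset.range_orderEmbOfFin]
      exact ht
    obtain ⟨i, hi⟩ := h1
    exact ⟨i, by rw [hu]; exact hi⟩
  -- the classes
  obtain ⟨Z', hZ'⟩ : ∃ Z' : ℕ → Finset ℕ, Z' = fun p => if p ≤ s then Z p else Om Z u p := ⟨_, rfl⟩
  have hZ1 : ∀ p, p ≤ s → Z' p = Z p := fun p hp => by rw [hZ']; simp only [hp, if_true]
  have hZ2 : ∀ p, ¬ p ≤ s → Z' p = Om Z u p := fun p hp => by rw [hZ']; simp only [hp, if_false]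
  have hSv : Sv l s R Z := by
    intro p hp
    have hpp := (mem_filter.1 hp).2
    exact ⟨(hZ p hpp).1, (hZ p hpp).2.2⟩
  have hAdm : Adm (m * l) Z' := by
    intro p hp
    by_cases hps : p ≤ s
    · rw [hZ1 p hps]
      obtain ⟨h1, h2, h3⟩ := hZ p hp
      exact ⟨h1.trans (Nat.le_mul_of_pos_left _ hm), h2, h3⟩
    · rw [hZ2 p hps]
      have h1 : (Om Z u p).card ≤ m * l := Pool.Agent.Y843.HS.card_Om Z u (hZ p hp).1
      refine ⟨h1, by omega, fun c hc => ?_⟩
      unfold Om at hc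
      rw [mem_filter, mem_range] at hc
      exact hc.1
  have h1 := hup X A ((le_max_left _ _).trans hX) Z' hAdm (pos Q T) (by
    intro n hn
    unfold pos at hn
    rw [mem_filter] at hn
    have h2 := hQ hn.1
    unfold Sift at h2
    exact (mem_filter.1 h2).1) (by
    intro n hn p hp hpX hmem
    unfold pos at hn
    rw [mem_filter] at hn
    by_cases hps : p ≤ s
    · rw [hZ1 p hps] at hmem
      have h2 := hQ hn.1
      unfold Sift at h2
      exact (mem_filter.1 h2).2 p hp hpX hmem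
    · rw [hZ2 p hps, Pool.Agent.Y843.HS.mem_Om_iff Z u hp.pos] at hmem
      obtain ⟨i, hi⟩ := hmem
      have h2 := hQ (hn.2 (u i) (huT i))
      unfold Sift at h2
      exact (mem_filter.1 h2).2 p hp hpX hi)
  rw [← hR] at h1
  -- the products
  have hv0 : 0 < VV Z 0 s := VV_pos hZ 0 s
  have hv1 : 0 < VV Z s R := VV_pos hZ s R
  have e1 : VV Z' 0 R = VV Z 0 s * ∏ p ∈ Pr s R, (1 - ((Om Z u p).card : ℝ) / p) := by
    rw [Pool.Agent.X58.IV.VV_split Z' (Nat.zero_le s) hsR]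
    congr 1
    · unfold VV
      apply prod_congr rfl
      intro p hp
      unfold Pr at hp
      rw [mem_filter, mem_Ioc] at hp
      rw [hZ1 p hp.1.2]
    · unfold VV
      apply prod_congr rfl
      intro p hp
      unfold Pr at hp
      rw [mem_filter, mem_Ioc] at hp
      rw [hZ2 p (by omega)]
  have hloc := (hs₀ s R hs1 Z hSv u).2
  have hcoll : Coll K Z s R u ≤ sg K Z s R T := by
    refine (Pool.Agent.Y843.HS.Coll_le K u).trans (le_of_eq ?_)
    unfold sg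
    have e2 : T.offDiag = ((univ : Finset (Fin m)).offDiag).image (fun x => (u x.1, u x.2)) := by
      ext x
      rw [mem_offDiag, mem_image]
      constructor
      · rintro ⟨hx1, hx2, hx3⟩
        obtain ⟨i, hi⟩ := hurange _ hx1
        obtain ⟨i', hi'⟩ := hurange _ hx2
        refine ⟨(i, i'), ?_, Prod.ext hi hi'⟩
        rw [mem_offDiag]
        refine ⟨mem_univ _, mem_univ _, fun h => hx3 ?_⟩
        have h' : i = i' := h
        rw [← hi, ← hi', h']
      · rintro ⟨y, hy, rfl⟩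
        rw [mem_offDiag] at hy
        exact ⟨huT _, huT _, fun h => hy.2.2 (huinj h)⟩
    rw [e2, prod_image]
    intro x _ y _ hxy
    have h3 := Prod.mk.inj hxy
    exact Prod.ext (huinj h3.1) (huinj h3.2)
  have hsg0 : 0 ≤ sg K Z s R T := zero_le_one.trans (one_le_sg K Z s R T)
  have e3 : VV Z s R ≤ D * VV Z 0 R := by
    rw [Pool.Agent.X58.IV.VV_split Z (Nat.zero_le s) hsR]
    have h5 : 1 / (D : ℝ) ≤ VV Z 0 s := by rw [hD]; exact VV_small hZ s
    calc VV Z s R = D * (1 / D * VV Z s R) := by field_simp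
      _ ≤ _ := by gcongr
  calc ((pos Q T).card : ℝ) ≤ C * X * VV Z' 0 R := h1
    _ = C * X * (VV Z 0 s * ∏ p ∈ Pr s R, (1 - ((Om Z u p).card : ℝ) / p)) := by rw [e1]
    _ ≤ C * X * (1 * (VV Z s R ^ m * Coll K Z s R u)) := by
        apply mul_le_mul_of_nonneg_left _ (by positivity)
        have hc0 : 0 ≤ VV Z s R ^ m * Coll K Z s R u := by
          have := Pool.Agent.Y843.HS.one_le_Coll (Z := Z) (s := s) (R := R) K u
          positivity
        calc VV Z 0 s * ∏ p ∈ Pr s R, (1 - ((Om Z u p).card : ℝ) / p)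
            ≤ VV Z 0 s * (VV Z s R ^ m * Coll K Z s R u) := mul_le_mul_of_nonneg_left hloc hv0.le
          _ ≤ 1 * (VV Z s R ^ m * Coll K Z s R u) := mul_le_mul_of_nonneg_right (VV_le_one hZ 0 s) hc0
    _ ≤ C * X * (1 * ((D * VV Z 0 R) ^ m * sg K Z s R T)) := by
        have h6 : 0 ≤ Coll K Z s R u := zero_le_one.trans (Pool.Agent.Y843.HS.one_le_Coll K u)
        have hvR : 0 < VV Z 0 R := VV_pos hZ 0 R
        exact mul_le_mul_of_nonneg_left (mul_le_mul_of_nonneg_left (mul_le_mul (pow_le_pow_left₀ hv1.le e3 m) hcoll h6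
          (by positivity)) zero_le_one) (by positivity)
    _ = _ := by rw [mul_pow]; ring

/-- translates -/
lemma trans_sum (F : Finset ℕ → ℝ) (hF0 : ∀ T, 0 ≤ F T) (hF : ∀ (T : Finset ℕ) (z : ℕ), F (T.image (fun t => t + z)) = F T)
    (j L : ℕ) (hL : 1 ≤ L) :
    (L : ℝ) * ∑ T ∈ shs j L, F T ≤ ∑ T ∈ (range (2 * L)).powersetCard (j + 2), F T := by
  classical
  have h0 : ∀ T ∈ shs j L, T ⊆ range L ∧ T.card = j + 2 ∧ 0 ∈ T := by
    intro T hT
    unfold shs at hT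
    rw [mem_filter, mem_powersetCard] at hT
    exact ⟨hT.1.1, hT.1.2, hT.2⟩
  have hinj : Set.InjOn (fun x : ℕ × Finset ℕ => x.2.image (fun t => t + x.1))
      (range L ×ˢ shs j L : Finset (ℕ × Finset ℕ)) := by
    intro x hx y hy hxy
    rw [mem_coe, mem_product] at hx hy
    have hxy' : x.2.image (fun t => t + x.1) = y.2.image (fun t => t + y.1) := hxy
    obtain ⟨hx1, hx2, hx3⟩ := h0 _ hx.2
    obtain ⟨hy1, hy2, hy3⟩ := h0 _ hy.2
    have hmem : ∀ z : ℕ × Finset ℕ, 0 ∈ z.2 → z.1 ∈ z.2.image (fun t => t + z.1) := by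
      intro z hz
      rw [mem_image]
      exact ⟨0, hz, by simp⟩
    have hle : ∀ z : ℕ × Finset ℕ, ∀ w ∈ z.2.image (fun t => t + z.1), z.1 ≤ w := by
      intro z w hw
      obtain ⟨t, _, rfl⟩ := mem_image.1 hw
      exact Nat.le_add_left _ _
    have h1 : x.1 = y.1 := by
      apply le_antisymm
      · exact hle x _ (by rw [hxy']; exact hmem y hy3)
      · exact hle y _ (by rw [← hxy']; exact hmem x hx3)
    refine Prod.ext h1 ?_
    rw [h1] at hxy'
    exact image_injective (add_left_injective y.1) hxy'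
  have h1 : (L : ℝ) * ∑ T ∈ shs j L, F T = ∑ x ∈ range L ×ˢ shs j L, F (x.2.image (fun t => t + x.1)) := by
    rw [sum_product]
    simp only [hF, sum_const, card_range, nsmul_eq_mul]
  rw [h1, ← sum_image (f := F) hinj]
  apply sum_le_sum_of_subset_of_nonneg
  · intro T hT
    obtain ⟨x, hx, rfl⟩ := mem_image.1 hT
    rw [mem_product, mem_range] at hx
    obtain ⟨hx1, hx2, hx3⟩ := h0 _ hx.2
    rw [mem_powersetCard]
    constructor
    · intro w hw
      obtain ⟨t, ht, rfl⟩ := mem_image.1 hw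
      have h2 := mem_range.1 (hx1 ht)
      rw [mem_range]
      omega
    · rw [card_image_of_injective _ (add_left_injective x.1), hx2]
  · intro T _ _
    exact hF0 T

/-- second moment of the collision weight over the shapes -/
theorem momZ (l j K : ℕ) : ∃ s₀ B₀ X₀ : ℕ, ∃ C : ℝ, 0 < C ∧ ∀ s R X L : ℕ, s₀ ≤ s → X₀ ≤ X → R ≤ X →
    Real.log X ^ B₀ ≤ L → 1 ≤ L → ∀ Z : ℕ → Finset ℕ, Sv l s R Z →
    ∑ T ∈ shs j L, sg K Z s R T ^ 2 ≤ C * (L : ℝ) ^ (j + 1) := by
  classical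
  obtain ⟨N, hN⟩ : ∃ N : ℕ, N = (j + 2) * (j + 2) - (j + 2) := ⟨_, rfl⟩
  obtain ⟨K', hK'⟩ : ∃ K' : ℕ, K' = (2 * N) * K * (1 + K) ^ (2 * N) := ⟨_, rfl⟩
  obtain ⟨s₀, B₀, X₀, hgav⟩ := Pool.Agent.Y79.HS.gav l K' 1 one_pos
  refine ⟨s₀, B₀, X₀, 12 * 2 ^ j, by positivity, fun s R X L hs hX hRX hLB hL Z hZ => ?_⟩
  have hL0 : (0 : ℝ) < L := by exact_mod_cast hL
  obtain ⟨G, hG⟩ : ∃ G : ℤ → ℝ, G = fun h => Gd K' Z s R h := ⟨_, rfl⟩
  have hG1 : ∀ h, 1 ≤ G h := fun h => by rw [hG]; exact Pool.Agent.Y843.HS.one_le_Gd K' h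
  have hG0 : ∀ h, 0 ≤ G h := fun h => zero_le_one.trans (hG1 h)
  obtain ⟨F, hF⟩ : ∃ F : Finset ℕ → ℝ, ∀ T, F T = ∑ x ∈ T.offDiag, G ((x.1 : ℤ) - x.2) := ⟨_, fun T => rfl⟩
  -- pointwise
  have hpt : ∀ T ∈ shs j L, sg K Z s R T ^ 2 ≤ F T := by
    intro T hT
    unfold shs at hT
    rw [mem_filter, mem_powersetCard] at hT
    have hc : T.offDiag.card = N := by rw [offDiag_card, hT.1.2, hN]
    have hne : T.offDiag.Nonempty := by
      rw [← card_pos, hc, hN]
      have : (j + 2) * 2 ≤ (j + 2) * (j + 2) := Nat.mul_le_mul_left _ (by omega)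
      omega
    rw [hF]
    unfold sg
    rw [← prod_pow]
    refine (Pool.Agent.TH891.SG.prod_le_sum_pow _ hne _ ?_).trans ?_
    · intro x _
      exact pow_nonneg (zero_le_one.trans (Pool.Agent.Y843.HS.one_le_Gd K _)) 2
    · apply sum_le_sum
      intro x _
      rw [hc, ← pow_mul, hG, hK']
      exact Pool.Agent.Y843.HS.pow_Gd_le K (2 * N) _
  refine (sum_le_sum hpt).trans ?_
  have hF0 : ∀ T, 0 ≤ F T := fun T => by rw [hF]; exact sum_nonneg fun _ _ => hG0 _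
  have htr := trans_sum F hF0 (by
    intro T z
    rw [hF, hF]
    have e : (T.image (fun t => t + z)).offDiag = T.offDiag.image (fun x => (x.1 + z, x.2 + z)) := by
      ext x
      rw [mem_offDiag, mem_image, mem_image, mem_image]
      constructor
      · rintro ⟨⟨a, ha, ha'⟩, ⟨b, hb, hb'⟩, hne⟩
        refine ⟨(a, b), ?_, Prod.ext ha' hb'⟩
        rw [mem_offDiag]
        refine ⟨ha, hb, fun h => hne ?_⟩
        have h' : a = b := h
        rw [← ha', ← hb', h']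
      · rintro ⟨y, hy, rfl⟩
        rw [mem_offDiag] at hy
        refine ⟨⟨y.1, hy.1, rfl⟩, ⟨y.2, hy.2.1, rfl⟩, fun h => hy.2.2 ?_⟩
        have h' : y.1 + z = y.2 + z := h
        omega
    rw [e, sum_image]
    · apply sum_congr rfl
      intro x _
      congr 1
      push_cast
      ring
    · intro x _ y _ hxy
      have h3 := Prod.mk.inj hxy
      exact Prod.ext (by omega) (by omega)) j L hL
  -- the sum over all sets
  have hall : ∑ T ∈ (range (2 * L)).powersetCard (j + 2), F T ≤ (12 * 2 ^ j * (L : ℝ) ^ (j + 1)) * L := by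
    have hcount : ∀ x ∈ (range (2 * L)).offDiag,
        ((((range (2 * L)).powersetCard (j + 2)).filter (fun T => x ∈ T.offDiag)).card : ℝ) ≤ ((2 * L : ℕ) : ℝ) ^ j := by
      intro x hx
      rw [mem_offDiag] at hx
      have h1 : (((range (2 * L)).powersetCard (j + 2)).filter (fun T => x ∈ T.offDiag)).card ≤
          ((range (2 * L)).powersetCard j).card := by
        apply card_le_card_of_injOn (fun T => (T.erase x.1).erase x.2)
        · intro T hT
          rw [mem_coe, mem_filter, mem_powersetCard, mem_offDiag] at hT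
          obtain ⟨⟨hT1, hT2⟩, hT3, hT4, hT5⟩ := hT
          rw [mem_coe, mem_powersetCard]
          refine ⟨(erase_subset _ _).trans ((erase_subset _ _).trans hT1), ?_⟩
          rw [card_erase_of_mem (mem_erase.2 ⟨Ne.symm hT5, hT4⟩), card_erase_of_mem hT3, hT2]
          omega
        · intro T hT T' hT' h
          rw [mem_coe, mem_filter, mem_powersetCard, mem_offDiag] at hT hT'
          have h2 : (T.erase x.1).erase x.2 = (T'.erase x.1).erase x.2 := h
          have h3 : T.erase x.1 = T'.erase x.1 := by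
            rw [← insert_erase (mem_erase.2 ⟨Ne.symm hT.2.2.2, hT.2.2.1⟩ : x.2 ∈ T.erase x.1), h2,
              insert_erase (mem_erase.2 ⟨Ne.symm hT'.2.2.2, hT'.2.2.1⟩ : x.2 ∈ T'.erase x.1)]
          rw [← insert_erase hT.2.1, h3, insert_erase hT'.2.1]
      rw [card_powersetCard, card_range] at h1
      exact_mod_cast h1.trans (Nat.choose_le_pow _ _)
    have h1 : ∑ T ∈ (range (2 * L)).powersetCard (j + 2), F T =
        ∑ x ∈ (range (2 * L)).offDiag, ((((range (2 * L)).powersetCard (j + 2)).filter (fun T => x ∈ T.offDiag)).card : ℝ) *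
          G ((x.1 : ℤ) - x.2) := by
      have h2 : ∀ T ∈ (range (2 * L)).powersetCard (j + 2), F T =
          ∑ x ∈ (range (2 * L)).offDiag, if x ∈ T.offDiag then G ((x.1 : ℤ) - x.2) else 0 := by
        intro T hT
        rw [mem_powersetCard] at hT
        rw [hF, ← sum_filter]
        apply sum_congr _ fun _ _ => rfl
        ext x
        rw [mem_filter]
        refine ⟨fun h => ⟨?_, h⟩, fun h => h.2⟩
        rw [mem_offDiag] at h ⊢
        exact ⟨hT.1 h.1, hT.1 h.2.1, h.2.2⟩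
      rw [sum_congr rfl h2, sum_comm]
      apply sum_congr rfl
      intro x _
      rw [← sum_filter, sum_const, nsmul_eq_mul]
    rw [h1]
    have h3 : ∑ x ∈ (range (2 * L)).offDiag, G ((x.1 : ℤ) - x.2) ≤ ((2 * L : ℕ) : ℝ) * (6 * L) := by
      have h4 : ∑ x ∈ (range (2 * L)).offDiag, G ((x.1 : ℤ) - x.2) ≤
          ∑ y ∈ range (2 * L), ∑ h ∈ Ioo (-((2 * L : ℕ) : ℤ)) ((2 * L : ℕ) : ℤ), G h := by
        rw [← sum_product (s := range (2 * L)) (t := Ioo (-((2 * L : ℕ) : ℤ)) ((2 * L : ℕ) : ℤ)) (f := fun x => G x.2)]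
        have h5 : ∑ x ∈ (range (2 * L)).offDiag, G ((x.1 : ℤ) - x.2) =
            ∑ z ∈ ((range (2 * L)).offDiag).image (fun x : ℕ × ℕ => (x.2, (x.1 : ℤ) - x.2)), G z.2 := by
          rw [sum_image]
          intro x _ y _ hxy
          have h6 := Prod.mk.inj hxy
          have h7 : x.2 = y.2 := h6.1
          have h8 : (x.1 : ℤ) - x.2 = y.1 - y.2 := h6.2
          exact Prod.ext (by omega) h7
        rw [h5]
        apply sum_le_sum_of_subset_of_nonneg
        · intro z hz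
          obtain ⟨x, hx, rfl⟩ := mem_image.1 hz
          rw [mem_offDiag, mem_range, mem_range] at hx
          rw [mem_product, mem_range, mem_Ioo]
          refine ⟨hx.2.1, ?_, ?_⟩
          · show -((2 * L : ℕ) : ℤ) < (x.1 : ℤ) - x.2
            omega
          · show (x.1 : ℤ) - x.2 < ((2 * L : ℕ) : ℤ)
            omega
        · intro z _ _
          exact hG0 _
      refine h4.trans ?_
      rw [sum_const, card_range, nsmul_eq_mul]
      apply mul_le_mul_of_nonneg_left _ (Nat.cast_nonneg _)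
      have h5 := hgav s R X (2 * L) hs hX hRX (by
        push_cast
        linarith) Z hZ
      have h6 : (0 : ℝ) < ((2 * L : ℕ) : ℝ) := by push_cast; linarith
      rw [div_le_iff₀ h6, sum_sub_distrib, sum_const, nsmul_eq_mul, mul_one, Int.card_Ioo] at h5
      have h7 : ((((2 * L : ℕ) : ℤ) - -((2 * L : ℕ) : ℤ) - 1).toNat : ℝ) ≤ 4 * L := by
        have h8 : (((2 * L : ℕ) : ℤ) - -((2 * L : ℕ) : ℤ) - 1).toNat ≤ 4 * L := by omega
        exact_mod_cast h8
      push_cast at h5 h7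
      have h9 : ∀ h, G h = Gd K' Z s R h := fun h => by rw [hG]
      simp only [h9]
      push_cast
      linarith
    calc ∑ x ∈ (range (2 * L)).offDiag, ((((range (2 * L)).powersetCard (j + 2)).filter (fun T => x ∈ T.offDiag)).card : ℝ) *
          G ((x.1 : ℤ) - x.2)
        ≤ ∑ x ∈ (range (2 * L)).offDiag, ((2 * L : ℕ) : ℝ) ^ j * G ((x.1 : ℤ) - x.2) := by
          apply sum_le_sum
          intro x hx
          exact mul_le_mul_of_nonneg_right (hcount x hx) (hG0 _)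
      _ = ((2 * L : ℕ) : ℝ) ^ j * ∑ x ∈ (range (2 * L)).offDiag, G ((x.1 : ℤ) - x.2) := by rw [mul_sum]
      _ ≤ ((2 * L : ℕ) : ℝ) ^ j * (((2 * L : ℕ) : ℝ) * (6 * L)) := by gcongr
      _ = (12 * 2 ^ j * (L : ℝ) ^ (j + 1)) * L := by
          push_cast
          rw [mul_pow]
          ring
  have h2 := htr.trans hall
  rw [mul_comm (L : ℝ)] at h2
  exact le_of_mul_le_mul_right h2 hL0

lemma dil_one (T : Finset ℕ) : Pool.Agent.U455.KTW.dil 1 T = T := by
  unfold Pool.Agent.U455.KTW.dil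
  simp

/-- **A positive proportion of all shapes is popular** -/
theorem popZ (l j : ℕ) (κ δ : ℝ) (hκ : 0 < κ) (hκ1 : κ ≤ 1) (hδ : 0 < δ) : ∃ c ρ : ℝ, ∃ B X₀ : ℕ, 0 < c ∧ 0 < ρ ∧
    ∀ X A : ℕ, X₀ ≤ X → ∀ Z : ℕ → Finset ℕ, Adm l Z → ∀ Q : Finset ℕ, Q ⊆ Sift Z κ A X →
      δ * (X * VV Z 0 ⌊(X : ℝ) ^ κ⌋₊) ≤ Q.card → ∀ L : ℕ, Real.log X ^ B ≤ L → L ≤ X →
      ∃ P ⊆ shs j L, ρ * (L : ℝ) ^ (j + 1) ≤ (P.card : ℝ) ∧
        ∀ T ∈ P, c * (X * VV Z 0 ⌊(X : ℝ) ^ κ⌋₊ ^ (j + 2)) ≤ ((pos Q T).card : ℝ) := by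
  classical
  obtain ⟨K, s₀, hup⟩ := upT l (j + 2) (by omega) κ hκ
  obtain ⟨s₁, B₀, X₁, C₃, hC₃, hmom⟩ := momZ l j K
  obtain ⟨s, hs⟩ : ∃ s, s = max s₀ s₁ := ⟨_, rfl⟩
  obtain ⟨C, hC, X₂, hup'⟩ := hup s (by rw [hs]; exact le_max_left _ _)
  obtain ⟨c₀, hc₀, hVge⟩ := Pool.Agent.X58.IV.VV_ge l
  obtain ⟨X₃, hX₃⟩ := eventually_atTop.1 (Pool.Agent.Y840.PT.floor_pow hκ 2)
  have tl : Tendsto (fun n : ℕ => Real.log (n : ℝ)) atTop atTop :=
    Real.tendsto_log_atTop.comp tendsto_natCast_atTop_atTop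
  obtain ⟨X₄, hX₄⟩ := eventually_atTop.1 (tl.eventually_ge_atTop (max 1 (4 * (j + 1) / (δ * c₀))))
  obtain ⟨Bc, hBc⟩ : ∃ Bc : ℝ, Bc = 2 ^ (2 * j + 3) * (j + 2).factorial := ⟨_, rfl⟩
  have hBc0 : 0 < Bc := by rw [hBc]; positivity
  obtain ⟨c, hc⟩ : ∃ c : ℝ, c = δ ^ (j + 2) / (2 * Bc) := ⟨_, rfl⟩
  have hc0 : 0 < c := by rw [hc]; positivity
  refine ⟨c, c ^ 2 / (C ^ 2 * C₃), max B₀ (l + 1), max (max X₁ X₂) (max X₃ X₄), hc0, by positivity,
    fun X A hX Z hZ Q hQ hQc L hLB hLX => ?_⟩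
  have hX₁ : X₁ ≤ X := (le_max_left _ _).trans ((le_max_left _ _).trans hX)
  have hX₂ : X₂ ≤ X := (le_max_right _ _).trans ((le_max_left _ _).trans hX)
  have hX₃' := hX₃ X ((le_max_left _ _).trans ((le_max_right _ _).trans hX))
  have hX₄' := hX₄ X ((le_max_right _ _).trans ((le_max_right _ _).trans hX))
  have hlog1 : 1 ≤ Real.log (X : ℝ) := (le_max_left _ _).trans hX₄'
  have hlog2 : 4 * (j + 1) / (δ * c₀) ≤ Real.log (X : ℝ) := (le_max_right _ _).trans hX₄'
  have hX1 : (1 : ℝ) ≤ X := by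
    by_contra hcon
    push Not at hcon
    have : Real.log (X : ℝ) ≤ 0 := Real.log_nonpos (Nat.cast_nonneg _) hcon.le
    linarith
  have hX0 : (0 : ℝ) < X := by linarith
  obtain ⟨R, hR⟩ : ∃ R : ℕ, R = ⌊(X : ℝ) ^ κ⌋₊ := ⟨_, rfl⟩
  rw [← hR] at hQc hX₃'
  have hup'' := hup' X A hX₂ Z hZ Q hQ
  rw [← hR] at hup''
  rw [← hR]
  have hR2 : 2 ≤ R := hX₃'.1
  have hRX : R ≤ X := by
    have h1 : (R : ℝ) ≤ X := by
      rw [hR]
      refine (Nat.floor_le (by positivity)).trans ?_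
      calc (X : ℝ) ^ κ ≤ (X : ℝ) ^ (1 : ℝ) := Real.rpow_le_rpow_of_exponent_le hX1 hκ1
        _ = X := Real.rpow_one _
    exact_mod_cast h1
  obtain ⟨V, hV⟩ : ∃ V : ℝ, V = VV Z 0 R := ⟨_, rfl⟩
  rw [← hV] at hQc hup'' ⊢
  have hV0 : 0 < V := by rw [hV]; exact VV_pos hZ 0 R
  have hVlow : c₀ / Real.log X ^ l ≤ V := by
    rw [hV]
    refine le_trans ?_ (hVge Z hZ R hR2)
    have h1 : 0 < Real.log (R : ℝ) := Real.log_pos (by exact_mod_cast (by omega : 1 < R))
    have h2 : Real.log (R : ℝ) ≤ Real.log X := Real.log_le_log (by exact_mod_cast (by omega : 0 < R)) (by exact_mod_cast hRX)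
    apply div_le_div_of_nonneg_left hc₀.le (by positivity)
    exact pow_le_pow_left₀ h1.le h2 l
  have hLB0 : Real.log X ^ B₀ ≤ (L : ℝ) := (pow_le_pow_right₀ hlog1 (le_max_left _ _)).trans hLB
  have hLB1 : Real.log X ^ (l + 1) ≤ (L : ℝ) := (pow_le_pow_right₀ hlog1 (le_max_right _ _)).trans hLB
  have hL1 : 1 ≤ L := by
    have : (1 : ℝ) ≤ L := (one_le_pow₀ hlog1).trans hLB1
    exact_mod_cast this
  have hL0 : (0 : ℝ) < L := by exact_mod_cast hL1
  have hQI : Q ⊆ Ioc A (A + X) := by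
    intro n hn
    have h2 := hQ hn
    unfold Sift at h2
    exact (mem_filter.1 h2).1
  have hbig : 4 * (j + 1) * (X : ℝ) ≤ Q.card * L := by
    have h1 : δ * (X * (c₀ / Real.log X ^ l)) * Real.log X ^ (l + 1) ≤ Q.card * L := by
      apply mul_le_mul _ hLB1 (by positivity) (Nat.cast_nonneg _)
      refine le_trans ?_ hQc
      gcongr
    have h2 : δ * (X * (c₀ / Real.log X ^ l)) * Real.log X ^ (l + 1) = δ * c₀ * Real.log X * X := by
      rw [pow_succ]
      field_simp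
    rw [h2] at h1
    rw [div_le_iff₀ (by positivity)] at hlog2
    refine le_trans ?_ h1
    apply mul_le_mul_of_nonneg_right _ hX0.le
    linarith
  have hcell := cells Q A X 1 L j hQI le_rfl hL1 (by omega) hbig
  simp only [dil_one] at hcell
  rw [← hBc] at hcell
  obtain ⟨E, hE⟩ : ∃ E : ℝ, E = (L : ℝ) ^ (j + 1) := ⟨_, rfl⟩
  rw [← hE] at hcell ⊢
  have hE0 : 0 < E := by rw [hE]; positivity
  obtain ⟨P, hP1, hP2, hP3⟩ := GVV.pz (shs j L) (fun T => ((pos Q T).card : ℝ)) (sg K Z s R) E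
    (X * V ^ (j + 2)) C C₃ c hE0 (by positivity) hC hC₃ hc0 (by
      intro T hT
      unfold shs at hT
      rw [mem_filter, mem_powersetCard] at hT
      exact hup'' T hT.1.2) (by
      rw [hE]
      refine hmom s R X L (by rw [hs]; exact le_max_right _ _) hX₁ hRX hLB0 hL1 Z ?_
      intro p hp
      have hpp := (mem_filter.1 hp).2
      exact ⟨(hZ p hpp).1, (hZ p hpp).2.2⟩) (by rw [hE]; exact shs_card j L) (by
      have h1 : (δ * (X * V)) ^ (j + 2) ≤ (Q.card : ℝ) ^ (j + 2) := pow_le_pow_left₀ (by positivity) hQc _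
      have h2 : (δ * (X * V)) ^ (j + 2) * E ≤ Bc * X ^ (j + 1) * ∑ T ∈ shs j L, ((pos Q T).card : ℝ) :=
        (mul_le_mul_of_nonneg_right h1 hE0.le).trans hcell
      have h3 : (δ * (X * V)) ^ (j + 2) * E = Bc * X ^ (j + 1) * (2 * c * (X * V ^ (j + 2)) * E) := by
        rw [hc, mul_pow, mul_pow, pow_succ (X : ℝ) (j + 1)]
        field_simp
      rw [h3] at h2
      exact le_of_mul_le_mul_left h2 (by positivity))
  exact ⟨P, hP1, hP2, hP3⟩

open Pool.Agent.U455.VEC (occ mem_occ RR RR_one RR_sum RR_list RR_add rot rot_zero sum_rot rot_good occ_rot enum sum_update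
  fibre local_exact) in
/-- from the density of the popular shapes to all vectors -/
theorem vecP (k : ℕ) (hk : 1 ≤ k) (ρ : ℝ) (hρ : 0 < ρ) : ∃ h D N₀ : ℕ, 1 ≤ D ∧ ∀ (L : ℕ) (Q : Finset ℕ) (W : ℝ)
    (P : Finset (Finset ℕ)), N₀ ≤ L → 1 ≤ L → P ⊆ shs (k - 1) L → ρ * (L : ℝ) ^ (k - 1 + 1) ≤ (P.card : ℝ) →
    (∀ T ∈ P, W ≤ ((pos Q T).card : ℝ)) → ∀ t : Fin k → ℤ, (∀ i, ((D.factorial : ℕ) : ℤ) ∣ t i) →
    (∀ i, |t i| ≤ (L : ℤ)) →
      RR (fun d : Fin k → ℤ => (∀ i, d i ≠ 0) ∧ Function.Injective d ∧ (∀ i, |d i| ≤ (L : ℤ)) ∧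
        W ≤ ((occ Q d).card : ℝ)) h t := by
  classical
  obtain ⟨h₁, D, N₀, hD1, hloc⟩ := local_exact ρ hρ
  refine ⟨k * (h₁ * 1 + h₁ * k), D, N₀, hD1, fun L Q W P hL₀ hL1 hPs hPc hPW t hMt htL => ?_⟩
  obtain ⟨j, hj⟩ : ∃ j, j = k - 1 := ⟨_, rfl⟩
  rw [← hj] at hPs hPc
  have hj' : k = j + 1 := by omega
  obtain ⟨S, V, hSc, hS0, hSL, hVL, hVc, hSV⟩ := fibre j L hL1 P hPs ρ hρ hPc
  obtain ⟨d, c, hd1, hdD, hap⟩ := hloc L V hL₀ hVL hVc
  obtain ⟨G, hG⟩ : ∃ G : (Fin k → ℤ) → Prop, G = fun d : Fin k → ℤ => (∀ i, d i ≠ 0) ∧ Function.Injective d ∧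
          (∀ i, |d i| ≤ (L : ℤ)) ∧ W ≤ ((occ Q d).card : ℝ) := ⟨_, rfl⟩
  rw [← hG]
  -- one coordinate
  have hone : ∀ i : Fin k, RR G (h₁ * 1 + h₁ * k) (Pi.single i (t i)) := by
    intro i
    obtain ⟨b, hb1, hb2⟩ := enum i S (by rw [hSc, hj']) hS0
    obtain ⟨B, hB⟩ : ∃ B : Fin k → ℤ, B = fun i' => (b i' : ℤ) := ⟨_, rfl⟩
    have hBi : ∀ i', B i' = (b i' : ℤ) := fun i' => by rw [hB]
    -- the vectors are good
    have hw : ∀ v ∈ V, (∀ i', Function.update B i (v : ℤ) i' ≠ 0) ∧ Function.Injective (Function.update B i (v : ℤ)) ∧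
        (∀ i', 0 ≤ Function.update B i (v : ℤ) i' ∧ Function.update B i (v : ℤ) i' ≤ L) ∧
        W ≤ ((occ Q (Function.update B i (v : ℤ))).card : ℝ) := by
      intro v hv
      obtain ⟨hvS, hvP⟩ := hSV v hv
      have hvL := mem_Icc.1 (hVL hv)
      refine ⟨fun i' => ?_, fun i' i'' h => ?_, fun i' => ?_, ?_⟩
      · by_cases h : i' = i
        · subst h
          rw [Function.update_self]
          exact_mod_cast (by omega : v ≠ 0)
        · rw [Function.update_of_ne h, hBi]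
          have := (mem_erase.1 (hb1 i' h)).1
          exact_mod_cast this
      · by_cases h1 : i' = i
        · by_cases h2 : i'' = i
          · rw [h1, h2]
          · exfalso
            subst h1
            rw [Function.update_self, Function.update_of_ne h2, hBi] at h
            have h3 := (mem_erase.1 (hb1 i'' h2)).2
            apply hvS
            have : v = b i'' := by exact_mod_cast h
            rwa [this]
        · by_cases h2 : i'' = i
          · exfalso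
            subst h2
            rw [Function.update_self, Function.update_of_ne h1, hBi] at h
            have h3 := (mem_erase.1 (hb1 i' h1)).2
            apply hvS
            have : b i' = v := by exact_mod_cast h
            rwa [← this]
          · rw [Function.update_of_ne h1, Function.update_of_ne h2, hBi, hBi] at h
            exact hb2 i' i'' h1 h2 (by exact_mod_cast h)
      · by_cases h : i' = i
        · subst h
          rw [Function.update_self]
          exact ⟨by positivity, by exact_mod_cast hvL.2⟩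
        · rw [Function.update_of_ne h, hBi]
          have := mem_range.1 (hSL (mem_erase.1 (hb1 i' h)).2)
          exact ⟨by positivity, by exact_mod_cast this.le⟩
      · refine (hPW _ hvP).trans (Nat.cast_le.2 (card_le_card fun p hp => ?_))
        unfold pos at hp
        rw [mem_filter] at hp
        have hpT : ∀ s ∈ insert v S, p + s ∈ Q := hp.2
        rw [mem_occ]
        refine ⟨hp.1, fun i' => ?_⟩
        by_cases h : i' = i
        · subst h
          refine ⟨p + v, hpT v (mem_insert_self _ _), ?_⟩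
          rw [Function.update_self]
          push_cast
          ring
        · refine ⟨p + b i', hpT _ (mem_insert_of_mem (mem_erase.1 (hb1 i' h)).2), ?_⟩
          rw [Function.update_of_ne h, hBi]
          push_cast
          ring
    have hpos : ∀ v ∈ V, RR G 1 (Function.update B i (v : ℤ)) := by
      intro v hv
      obtain ⟨g1, g2, g3, g4⟩ := hw v hv
      apply RR_one
      rw [hG]
      exact ⟨g1, g2, fun i' => by rw [abs_of_nonneg (g3 i').1]; exact (g3 i').2, g4⟩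
    have hneg : ∀ v ∈ V, RR G k (-Function.update B i (v : ℤ)) := by
      intro v hv
      obtain ⟨g1, g2, g3, g4⟩ := hw v hv
      obtain ⟨w, hw'⟩ : ∃ w, w = Function.update B i (v : ℤ) := ⟨_, rfl⟩
      rw [← hw'] at g1 g2 g3 g4 ⊢
      have hx : ∀ a : Fin (k + 1), 0 ≤ (Fin.cons 0 w : Fin (k + 1) → ℤ) a ∧ (Fin.cons 0 w : Fin (k + 1) → ℤ) a ≤ L := by
        intro a
        rcases Fin.eq_zero_or_eq_succ a with rfl | ⟨i', rfl⟩
        · rw [Fin.cons_zero]
          exact ⟨le_rfl, by positivity⟩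
        · rw [Fin.cons_succ]
          exact g3 i'
      have hrot : ∀ a : Fin (k + 1), G (rot w a) := by
        intro a
        obtain ⟨r1, r2⟩ := rot_good g1 g2 a
        rw [hG]
        refine ⟨r1, r2, fun i' => ?_, g4.trans (Nat.cast_le.2 (occ_rot Q w a))⟩
        unfold rot
        have e1 := hx (a + i'.succ)
        have e2 := hx a
        rw [abs_le]
        constructor <;> linarith [e1.1, e1.2, e2.1, e2.2]
      have hsum : -w = ∑ a : Fin k, rot w a.succ := by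
        have h3 := sum_rot w
        rw [Fin.sum_univ_succ, rot_zero] at h3
        exact neg_eq_of_add_eq_zero_right h3
      rw [hsum]
      have h4 := RR_sum (G := G) (h := 1) univ (fun a : Fin k => rot w a.succ) (fun a _ => RR_one (hrot a.succ))
      rw [card_univ, Fintype.card_fin, mul_one] at h4
      exact h4
    -- the multiples of `d` on the axis
    have haxis : ∀ n n' : ℕ, n ≤ L → n' ≤ L → RR G (h₁ * 1 + h₁ * k) (Pi.single i ((d : ℤ) * n - d * n')) := by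
      intro n n' hn hn'
      obtain ⟨l, l1, l2, l3⟩ := hap n hn
      obtain ⟨l', l1', l2', l3'⟩ := hap n' hn'
      have h3 := RR_list (G := G) (h := 1) l (fun v : ℕ => Function.update B i (v : ℤ)) (fun v hv => hpos v (l2 v hv))
      have h4 := RR_list (G := G) (h := k) l' (fun v : ℕ => -Function.update B i (v : ℤ)) (fun v hv => hneg v (l2' v hv))
      have h5 := RR_add h3 h4
      rw [l1, l1'] at h5
      have h6 : (l'.map (fun v : ℕ => -Function.update B i (v : ℤ))).sum =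
          -(l'.map (fun v : ℕ => Function.update B i (v : ℤ))).sum := by
        clear h3 h4 h5 l1' l2' l3'
        induction l' with
        | nil => simp
        | cons v l' ih =>
          rw [List.map_cons, List.sum_cons, List.map_cons, List.sum_cons, ih]
          abel
      rw [h6, sum_update, sum_update, l1, l1', l3, l3'] at h5
      convert h5 using 1
      funext i'
      by_cases h : i' = i
      · subst h
        rw [Pi.single_eq_same, Pi.add_apply, Pi.neg_apply, Function.update_self, Function.update_self]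
        push_cast
        ring
      · rw [Pi.single_eq_of_ne h, Pi.add_apply, Pi.neg_apply, Function.update_of_ne h, Function.update_of_ne h]
        ring
    have hdM : (d : ℤ) ∣ t i := by
      refine dvd_trans ?_ (hMt i)
      exact_mod_cast Nat.dvd_factorial (by omega) hdD
    obtain ⟨m, hm⟩ := hdM
    have hmL : |m| ≤ L := by
      have h3 := htL i
      rw [hm, abs_mul] at h3
      have h4 : (1 : ℤ) ≤ |(d : ℤ)| := by rw [Nat.abs_cast]; exact_mod_cast hd1
      calc |m| = 1 * |m| := (one_mul _).symm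
        _ ≤ |(d : ℤ)| * |m| := mul_le_mul_of_nonneg_right h4 (abs_nonneg _)
        _ ≤ L := h3
    have hnat : m.natAbs ≤ L := by
      have h3 : ((m.natAbs : ℕ) : ℤ) ≤ L := by rw [Int.natCast_natAbs]; exact hmL
      exact_mod_cast h3
    rcases le_total 0 m with h3 | h3
    · have h4 := haxis m.natAbs 0 hnat (by omega)
      have h5 : ((m.natAbs : ℕ) : ℤ) = m := by rw [Int.natCast_natAbs, abs_of_nonneg h3]
      rw [h5, Nat.cast_zero, mul_zero, sub_zero, ← hm] at h4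
      exact h4
    · have h4 := haxis 0 m.natAbs (by omega) hnat
      have h5 : ((m.natAbs : ℕ) : ℤ) = -m := by rw [Int.natCast_natAbs, abs_of_nonpos h3]
      rw [h5, Nat.cast_zero, mul_zero, zero_sub, mul_neg, neg_neg, ← hm] at h4
      exact h4
  have h3 := RR_sum (G := G) univ (fun i : Fin k => Pi.single i (t i)) (fun i _ => hone i)
  rw [Finset.univ_sum_single, card_univ, Fintype.card_fin] at h3
  exact h3

open Pool.Agent.U455.VEC (occ RR) in
/-- **Every vector of a lattice is a bounded sum of popular shapes: arbitrary sifted sets** -/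
theorem main (k : ℕ) (hk : 1 ≤ k) (l : ℕ) (κ δ : ℝ) (hκ : 0 < κ) (hκ1 : κ ≤ 1) (hδ : 0 < δ) :
    ∃ h M B : ℕ, 1 ≤ M ∧ ∃ c : ℝ, 0 < c ∧ ∃ X₀ : ℕ, ∀ X A : ℕ, X₀ ≤ X → ∀ Z : ℕ → Finset ℕ, Adm l Z →
      ∀ Q : Finset ℕ, Q ⊆ Sift Z κ A X → δ * (X * VV Z 0 X) ≤ Q.card →
      ∀ L : ℕ, Real.log X ^ B ≤ L → L ≤ X → ∀ t : Fin k → ℤ, (∀ i, (M : ℤ) ∣ t i) → (∀ i, |t i| ≤ (L : ℤ)) →
        RR (fun d : Fin k → ℤ => (∀ i, d i ≠ 0) ∧ Function.Injective d ∧ (∀ i, |d i| ≤ (L : ℤ)) ∧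
          c * (X * VV Z 0 X ^ (k + 1)) ≤ ((occ Q d).card : ℝ)) h t := by
  classical
  obtain ⟨c₁, hc₁, N₁, hcomp⟩ := Pool.Agent.X58.IV.VV_comp_pow l κ 1 hκ one_pos
  obtain ⟨c, ρ, B, X₁, hc, hρ, hpop⟩ := popZ l (k - 1) κ (δ * c₁) hκ hκ1 (by positivity)
  obtain ⟨h, D, N₀, hD, hvec⟩ := vecP k hk ρ hρ
  have tl : Tendsto (fun n : ℕ => Real.log (n : ℝ)) atTop atTop :=
    Real.tendsto_log_atTop.comp tendsto_natCast_atTop_atTop
  obtain ⟨X₄, hX₄⟩ := eventually_atTop.1 (tl.eventually_ge_atTop (max 1 (N₀ : ℝ)))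
  refine ⟨h, D.factorial, max B 1, Nat.factorial_pos _, c, hc, max (max N₁ X₁) X₄,
    fun X A hX Z hZ Q hQ hQc L hLB hLX t hMt htL => ?_⟩
  have hN₁ : N₁ ≤ X := (le_max_left _ _).trans ((le_max_left _ _).trans hX)
  have hX₁ : X₁ ≤ X := (le_max_right _ _).trans ((le_max_left _ _).trans hX)
  have hX₄' := hX₄ X ((le_max_right _ _).trans hX)
  have hlog1 : 1 ≤ Real.log (X : ℝ) := (le_max_left _ _).trans hX₄'
  have hlog2 : (N₀ : ℝ) ≤ Real.log (X : ℝ) := (le_max_right _ _).trans hX₄'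
  have hX1 : (1 : ℝ) ≤ X := by
    by_contra hcon
    push Not at hcon
    have : Real.log (X : ℝ) ≤ 0 := Real.log_nonpos (Nat.cast_nonneg _) hcon.le
    linarith
  have hLB0 : Real.log X ^ B ≤ (L : ℝ) := (pow_le_pow_right₀ hlog1 (le_max_left _ _)).trans hLB
  have hLB1 : Real.log X ≤ (L : ℝ) := by
    have h1 : Real.log X ^ 1 ≤ (L : ℝ) := (pow_le_pow_right₀ hlog1 (le_max_right _ _)).trans hLB
    rwa [pow_one] at h1
  have hL₀ : N₀ ≤ L := by
    have : (N₀ : ℝ) ≤ L := hlog2.trans hLB1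
    exact_mod_cast this
  have hL1 : 1 ≤ L := by
    have : (1 : ℝ) ≤ L := hlog1.trans hLB1
    exact_mod_cast this
  have h1 := hcomp Z hZ X X hN₁ (by rw [Real.rpow_one])
  have h2 : VV Z 0 X ≤ VV Z 0 ⌊(X : ℝ) ^ κ⌋₊ := by
    apply Pool.Agent.X58.IV.VV_anti hZ
    have h3 : ((⌊(X : ℝ) ^ κ⌋₊ : ℕ) : ℝ) ≤ X := by
      refine (Nat.floor_le (by positivity)).trans ?_
      calc (X : ℝ) ^ κ ≤ (X : ℝ) ^ (1 : ℝ) := Real.rpow_le_rpow_of_exponent_le hX1 hκ1
        _ = X := Real.rpow_one _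
    exact_mod_cast h3
  have hV0 : 0 < VV Z 0 X := VV_pos hZ 0 X
  obtain ⟨P, hP1, hP2, hP3⟩ := hpop X A hX₁ Z hZ Q hQ (by
    refine le_trans ?_ hQc
    calc δ * c₁ * (X * VV Z 0 ⌊(X : ℝ) ^ κ⌋₊) = δ * (X * (c₁ * VV Z 0 ⌊(X : ℝ) ^ κ⌋₊)) := by ring
      _ ≤ δ * (X * VV Z 0 X) := by gcongr) L hLB0 hLX
  refine hvec L Q (c * (X * VV Z 0 X ^ (k + 1))) P hL₀ hL1 hP1 hP2 (fun T hT => ?_) t hMt htL
  refine le_trans ?_ (hP3 T hT)
  have e : k - 1 + 2 = k + 1 := by omega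
  rw [e]
  gcongr

end Pool.Agent.U455.ASZ
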