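import Mathlib
import Pool.Agent.U455.ASZ

/-!
# Vectors of consecutive gaps in dense subsets of sifted sets with slow collisions
-/

set_option autoImplicit false
set_option maxHeartbeats 4000000

namespace Pool.Agent.U455.ASG

open Finset Filter Topology
open Pool.Agent.X58.IV (Adm Sift upZ VV_pos VV_le_one fac)
open Pool.Agent.Y843.HS (Pr VV Sv Gd Dp)
open Pool.Agent.U455.KTW (pos)
open Pool.Agent.U455.ASZ (sg one_le_sg upT)
open Pool.Agent.R527.LV (ps ps_succ ps_zero)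
open Pool.Agent.U455.GVV (bx mem_bx bx_card bo bo_card sum_bx ps_update ps_le' ps_monotone ps_mono CN runs G1 G1_card SR)
open Pool.Agent.U455.CGW (Nx)

/-- the primes with a collision for `h` divide a small number -/
def Slow (C : ℕ) (Z : ℕ → Finset ℕ) : Prop := ∀ h : ℕ, 1 ≤ h → ∃ m : ℕ, 1 ≤ m ∧ m ≤ (C * h) ^ C ∧
  ∀ p : ℕ, p.Prime → (∃ c ∈ Z p, ∃ c' ∈ Z p, (p : ℤ) ∣ (h : ℤ) - ((c : ℤ) - c')) → p ∣ m

lemma Gd_neg (K : ℕ) (Z : ℕ → Finset ℕ) (a b : ℕ) (h : ℤ) : Gd K Z a b (-h) = Gd K Z a b h := by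
  classical
  unfold Gd
  apply prod_congr _ (fun _ _ => rfl)
  ext p
  rw [mem_filter, mem_filter]
  have key : ∀ g : ℤ, (∃ c ∈ Z p, ∃ c' ∈ Z p, (p : ℤ) ∣ g - ((c : ℤ) - c')) →
      ∃ c ∈ Z p, ∃ c' ∈ Z p, (p : ℤ) ∣ -g - ((c : ℤ) - c') := by
    rintro g ⟨c, hc, c', hc', hd⟩
    refine ⟨c', hc', c, hc, ?_⟩
    have e : -g - ((c' : ℤ) - c) = -(g - ((c : ℤ) - c')) := by ring
    rw [e]
    exact (dvd_neg).2 hd
  constructor
  · rintro ⟨h1, h2⟩
    have h3 := key _ h2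
    rw [neg_neg] at h3
    exact ⟨h1, h3⟩
  · rintro ⟨h1, h2⟩
    exact ⟨h1, key _ h2⟩

/-- the mean value of the collision weight over very short shifts -/
theorem avG (l K C : ℕ) : ∃ s₀ : ℕ, ∀ s : ℕ, s₀ ≤ s → ∃ L₀ : ℕ, ∀ R L : ℕ, L₀ ≤ L → ∀ Z : ℕ → Finset ℕ,
    Sv l s R Z → Slow C Z → ∑ h ∈ Icc 1 L, Gd K Z s R (h : ℤ) ≤ Real.exp K * 6 * L := by
  classical
  obtain ⟨s₀, B₀, X₀, hgav⟩ := Pool.Agent.Y79.HS.gav l K 1 one_pos
  refine ⟨s₀, fun s hs => ?_⟩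
  obtain ⟨y, hy⟩ : ∃ y : ℕ → ℕ, y = fun L => max X₀ (s + 1) + C * (Nat.log 2 (C * L) + 1) := ⟨_, rfl⟩
  -- the level is small
  have hlarge : ∃ L₀ : ℕ, ∀ L : ℕ, L₀ ≤ L → Real.log (y L) ^ B₀ ≤ (L : ℝ) + 1 := by
    obtain ⟨E, hE⟩ : ∃ E : ℝ, E = (max X₀ (s + 1) : ℕ) + C * (C + 2) + 1 := ⟨_, rfl⟩
    have hE0 : 0 < E := by rw [hE]; positivity
    have t1 : Tendsto (fun n : ℕ => (n : ℝ)) atTop atTop := tendsto_natCast_atTop_atTop
    have t2 := (isLittleO_log_rpow_atTop (r := 1 / (B₀ + 1)) (by positivity)).comp_tendsto t1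
    -- `y L ≤ E * L`
    have hyL : ∀ L : ℕ, 1 ≤ L → (y L : ℝ) ≤ E * L := by
      intro L hL
      have h1 : Nat.log 2 (C * L) ≤ C * L := Nat.log_le_self 2 _
      have h2 : y L ≤ max X₀ (s + 1) + C * (C * L + 1) := by
        rw [hy]
        exact Nat.add_le_add_left (Nat.mul_le_mul_left _ (Nat.succ_le_succ h1)) _
      have h3 : (y L : ℝ) ≤ (max X₀ (s + 1) : ℕ) + C * (C * L + 1) := by exact_mod_cast h2
      have hL1 : (1 : ℝ) ≤ L := by exact_mod_cast hL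
      have hC : (0 : ℝ) ≤ C := Nat.cast_nonneg C
      have hM : (0 : ℝ) ≤ (max X₀ (s + 1) : ℕ) := Nat.cast_nonneg _
      rw [hE]
      nlinarith [mul_nonneg hC (show (0 : ℝ) ≤ L - 1 by linarith), mul_nonneg hM (show (0 : ℝ) ≤ L - 1 by linarith)]
    have h4 : ∀ᶠ n : ℕ in atTop, |Real.log (n : ℝ)| ≤ 1 / 2 * |(n : ℝ) ^ (1 / ((B₀ : ℝ) + 1))| := by
      have := t2.def (show (0 : ℝ) < 1 / 2 by norm_num)
      simpa [Function.comp, Real.norm_eq_abs] using this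
    have h5 : ∀ᶠ n : ℕ in atTop, 2 * Real.log E ≤ (n : ℝ) ^ (1 / ((B₀ : ℝ) + 1)) :=
      ((tendsto_rpow_atTop (by positivity)).comp t1).eventually_ge_atTop _
    obtain ⟨L₀, hL₀⟩ := eventually_atTop.1 (h4.and (h5.and (eventually_ge_atTop 1)))
    refine ⟨L₀, fun L hL => ?_⟩
    obtain ⟨h6, h7, h8⟩ := hL₀ L hL
    have hL1 : (1 : ℝ) ≤ L := by exact_mod_cast h8
    have hy1 : (1 : ℝ) ≤ y L := by
      have h9 : 1 ≤ y L := by
        rw [hy]
        simp only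
        have := le_max_right X₀ (s + 1)
        omega
      exact_mod_cast h9
    have h9 : Real.log (y L) ≤ (L : ℝ) ^ (1 / ((B₀ : ℝ) + 1)) := by
      have h10 : Real.log (y L) ≤ Real.log E + Real.log L := by
        rw [← Real.log_mul hE0.ne' (by positivity)]
        exact Real.log_le_log (by linarith) (hyL L h8)
      have h11 : Real.log L ≤ 1 / 2 * (L : ℝ) ^ (1 / ((B₀ : ℝ) + 1)) := by
        rw [abs_of_nonneg (Real.log_natCast_nonneg L), abs_of_nonneg (by positivity)] at h6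
        exact h6
      linarith
    have h10 : 0 ≤ Real.log (y L) := Real.log_natCast_nonneg _
    calc Real.log (y L) ^ B₀ ≤ ((L : ℝ) ^ (1 / ((B₀ : ℝ) + 1))) ^ B₀ := pow_le_pow_left₀ h10 h9 _
      _ = (L : ℝ) ^ (1 / ((B₀ : ℝ) + 1) * B₀) := by rw [← Real.rpow_natCast, ← Real.rpow_mul (by linarith)]
      _ ≤ (L : ℝ) ^ (1 : ℝ) := by
          apply Real.rpow_le_rpow_of_exponent_le hL1
          rw [one_div, inv_mul_le_iff₀ (by positivity)]
          linarith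
      _ = L := Real.rpow_one _
      _ ≤ L + 1 := by linarith
  obtain ⟨L₀, hL₀⟩ := hlarge
  refine ⟨max L₀ 1, fun R L hL Z hZ hslow => ?_⟩
  have hL1 : 1 ≤ L := (le_max_right _ _).trans hL
  have hLR : (1 : ℝ) ≤ L := by exact_mod_cast hL1
  have hlogy := hL₀ L ((le_max_left _ _).trans hL)
  obtain ⟨Y, hY⟩ : ∃ Y, Y = y L := ⟨_, rfl⟩
  rw [← hY] at hlogy
  have hYX : X₀ ≤ Y := by
    rw [hY, hy]
    simp only
    have := le_max_left X₀ (s + 1)
    omega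
  have hYs : s + 1 ≤ Y := by
    rw [hY, hy]
    simp only
    have := le_max_right X₀ (s + 1)
    omega
  have hYC : C * (Nat.log 2 (C * L) + 1) ≤ Y := by
    rw [hY, hy]
    simp only
    omega
  have hY0 : (0 : ℝ) < Y := by exact_mod_cast (by omega : 0 < Y)
  obtain ⟨R', hR'⟩ : ∃ R', R' = min R Y := ⟨_, rfl⟩
  have hR'Y : R' ≤ Y := by rw [hR']; exact min_le_right _ _
  have hR'R : R' ≤ R := by rw [hR']; exact min_le_left _ _
  have hZ' : Sv l s R' Z := by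
    intro p hp
    apply hZ
    unfold Pr at hp ⊢
    rw [mem_filter, mem_Ioc] at hp ⊢
    exact ⟨⟨hp.1.1, hp.1.2.trans hR'R⟩, hp.2⟩
  -- the large primes
  have hbig : ∀ h ∈ Icc 1 L, Gd K Z s R (h : ℤ) ≤ Real.exp K * Gd K Z s R' (h : ℤ) := by
    intro h hh
    rw [mem_Icc] at hh
    obtain ⟨m, hm1, hmC, hm⟩ := hslow h hh.1
    obtain ⟨S, hS⟩ : ∃ S : Finset ℕ, S = (Dp Z s R (h : ℤ)).filter (fun p => Y < p) := ⟨_, rfl⟩
    have hsub : Dp Z s R (h : ℤ) ⊆ Dp Z s R' (h : ℤ) ∪ S := by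
      intro p hp
      rw [mem_union]
      by_cases hpY : Y < p
      · right
        rw [hS, mem_filter]
        exact ⟨hp, hpY⟩
      · left
        unfold Dp Pr at hp ⊢
        rw [mem_filter, mem_filter, mem_Ioc] at hp ⊢
        refine ⟨⟨⟨hp.1.1.1, ?_⟩, hp.1.2⟩, hp.2⟩
        rw [hR']
        exact le_min hp.1.1.2 (by omega)
    have hSm : ∀ p ∈ S, p.Prime ∧ p ∣ m ∧ Y < p := by
      intro p hp
      rw [hS, mem_filter] at hp
      unfold Dp Pr at hp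
      rw [mem_filter, mem_filter] at hp
      exact ⟨hp.1.1.2, hm p hp.1.1.2 hp.1.2, hp.2⟩
    have hScard : S.card ≤ Y := by
      have h1 : ∏ p ∈ S, p ∣ m := Finset.prod_primes_dvd m (fun p hp => (hSm p hp).1.prime) (fun p hp => (hSm p hp).2.1)
      have h2 : 2 ^ S.card ≤ ∏ p ∈ S, p := by
        rw [← prod_const]
        exact Finset.prod_le_prod (fun _ _ => Nat.zero_le _) (fun p hp => (hSm p hp).1.two_le)
      have h3 : ∏ p ∈ S, p ≤ m := Nat.le_of_dvd (by omega) h1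
      have h4 : (C * h) ^ C ≤ 2 ^ (C * (Nat.log 2 (C * L) + 1)) := by
        have h5 : C * h ≤ C * L := Nat.mul_le_mul_left _ hh.2
        have h6 : C * L < 2 ^ (Nat.log 2 (C * L) + 1) := Nat.lt_pow_succ_log_self (by norm_num) _
        calc (C * h) ^ C ≤ (2 ^ (Nat.log 2 (C * L) + 1)) ^ C := Nat.pow_le_pow_left (h5.trans h6.le) _
          _ = 2 ^ (C * (Nat.log 2 (C * L) + 1)) := by rw [← pow_mul, mul_comm]
      have h5 : 2 ^ S.card ≤ 2 ^ (C * (Nat.log 2 (C * L) + 1)) := h2.trans (h3.trans (hmC.trans h4))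
      exact ((Nat.pow_le_pow_iff_right (by norm_num)).1 h5).trans hYC
    have hprodS : ∏ p ∈ S, (1 + (K : ℝ) / p) ≤ Real.exp K := by
      calc ∏ p ∈ S, (1 + (K : ℝ) / p) ≤ ∏ p ∈ S, Real.exp ((K : ℝ) / Y) := by
            apply Finset.prod_le_prod
            · intro p _; positivity
            · intro p hp
              have h1 : (Y : ℝ) ≤ p := by exact_mod_cast (hSm p hp).2.2.le
              calc 1 + (K : ℝ) / p ≤ (K : ℝ) / Y + 1 := by
                    have : (K : ℝ) / p ≤ K / Y := by gcongr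
                    linarith
                _ ≤ _ := Real.add_one_le_exp _
        _ = Real.exp ((S.card : ℝ) * (K / Y)) := by rw [prod_const, ← Real.exp_nat_mul]
        _ ≤ Real.exp K := by
            apply Real.exp_le_exp.2
            have h1 : (S.card : ℝ) ≤ Y := by exact_mod_cast hScard
            calc (S.card : ℝ) * (K / Y) ≤ Y * (K / Y) := by gcongr
              _ = K := by field_simp
    rw [Pool.Agent.Y843.HS.Gd_eq, Pool.Agent.Y843.HS.Gd_eq]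
    calc ∏ p ∈ Dp Z s R (h : ℤ), (1 + (K : ℝ) / p) ≤ ∏ p ∈ Dp Z s R' (h : ℤ) ∪ S, (1 + (K : ℝ) / p) :=
          Pool.Agent.Y843.HS.prod_fac_mono K hsub
      _ ≤ (∏ p ∈ Dp Z s R' (h : ℤ), (1 + (K : ℝ) / p)) * ∏ p ∈ S, (1 + (K : ℝ) / p) := by
          rw [← prod_union_inter]
          exact le_mul_of_one_le_right (zero_le_one.trans (Pool.Agent.Y843.HS.one_le_prod_fac K _))
            (Pool.Agent.Y843.HS.one_le_prod_fac K _)
      _ ≤ (∏ p ∈ Dp Z s R' (h : ℤ), (1 + (K : ℝ) / p)) * Real.exp K :=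
          mul_le_mul_of_nonneg_left hprodS (zero_le_one.trans (Pool.Agent.Y843.HS.one_le_prod_fac K _))
      _ = _ := mul_comm _ _
  have h5 := hgav s R' Y (L + 1) hs hYX hR'Y (by push_cast; exact hlogy) Z hZ'
  have h6 : (0 : ℝ) < ((L + 1 : ℕ) : ℝ) := by positivity
  rw [div_le_iff₀ h6, sum_sub_distrib, sum_const, nsmul_eq_mul, mul_one, Int.card_Ioo] at h5
  have h7 : ((((L + 1 : ℕ) : ℤ) - -((L + 1 : ℕ) : ℤ) - 1).toNat : ℝ) ≤ 3 * L := by
    have h8 : (((L + 1 : ℕ) : ℤ) - -((L + 1 : ℕ) : ℤ) - 1).toNat ≤ 3 * L := by omega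
    exact_mod_cast h8
  have h8 : ∑ h ∈ Icc 1 L, Gd K Z s R' (h : ℤ) ≤ ∑ h ∈ Ioo (-((L + 1 : ℕ) : ℤ)) ((L + 1 : ℕ) : ℤ), Gd K Z s R' h := by
    have h9 : ∑ h ∈ Icc 1 L, Gd K Z s R' (h : ℤ) = ∑ h ∈ (Icc 1 L).image (fun h : ℕ => (h : ℤ)), Gd K Z s R' h := by
      rw [sum_image]
      intro x _ y _ hxy
      have hxy' : (x : ℤ) = y := hxy
      exact_mod_cast hxy'
    rw [h9]
    apply sum_le_sum_of_subset_of_nonneg
    · intro z hz
      obtain ⟨x, hx, rfl⟩ := mem_image.1 hz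
      rw [mem_Icc] at hx
      rw [mem_Ioo]
      constructor <;> push_cast <;> omega
    · intro z _ _
      exact zero_le_one.trans (Pool.Agent.Y843.HS.one_le_Gd K z)
  calc ∑ h ∈ Icc 1 L, Gd K Z s R (h : ℤ) ≤ ∑ h ∈ Icc 1 L, Real.exp K * Gd K Z s R' (h : ℤ) := sum_le_sum hbig
    _ = Real.exp K * ∑ h ∈ Icc 1 L, Gd K Z s R' (h : ℤ) := by rw [mul_sum]
    _ ≤ Real.exp K * (6 * L) := by
        apply mul_le_mul_of_nonneg_left _ (Real.exp_pos _).le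
        have h9 : ((L + 1 : ℕ) : ℝ) = L + 1 := by push_cast; ring
        rw [h9] at h5
        linarith
    _ = _ := by ring

/-- the starting points of a run -/
def TS {k : ℕ} (g : Fin k → ℕ) : Finset ℕ := (univ : Finset (Fin (k + 1))).image (ps g)

lemma ps_inj' {k : ℕ} {g : Fin k → ℕ} (hg : ∀ i, 1 ≤ g i) : Function.Injective (ps g) := by
  intro x y h
  rcases lt_trichotomy x y with h4 | h4 | h4
  · have := ps_mono (D := 0) hg _ _ h4
    omega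
  · exact h4
  · have := ps_mono (D := 0) hg _ _ h4
    omega

lemma TS_card {k : ℕ} {g : Fin k → ℕ} (hg : ∀ i, 1 ≤ g i) : (TS g).card = k + 1 := by
  unfold TS
  rw [card_image_of_injective _ (ps_inj' hg), card_univ, Fintype.card_fin]

/-- the sum over one pair -/
lemma pair_sumG {k L : ℕ} (hL : 1 ≤ L) (G : ℤ → ℝ) (hG0 : ∀ h, 0 ≤ G h) (E : ℝ)
    (hE : ∑ h ∈ Icc 1 ((k + 1) * L), G (h : ℤ) ≤ E * L) (j : Fin k) (i : Fin (k + 1)) (hij : i ≤ j.castSucc) :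
    ∑ g ∈ bx k 0 L, G ((ps g j.succ : ℤ) - ps g i) ≤ E * (L : ℝ) ^ k := by
  classical
  have hk : 1 ≤ k := by
    have := j.2
    omega
  have hLR : (1 : ℝ) ≤ L := by exact_mod_cast hL
  have hE0 : 0 ≤ E * L := le_trans (sum_nonneg fun h _ => hG0 _) hE
  refine (sum_bx j _ (fun g => hG0 _)).trans ?_
  have hu : ∀ u ∈ bo k 0 L j, ∑ v ∈ Icc (0 + 1) L, G ((ps (Function.update u j v) j.succ : ℤ) -
      ps (Function.update u j v) i) ≤ E * L := by
    intro u hu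
    obtain ⟨u0, hu0⟩ : ∃ u0, u0 = Function.update u j 0 := ⟨_, rfl⟩
    obtain ⟨P, hP⟩ : ∃ P, P = ps u0 j.succ := ⟨_, rfl⟩
    obtain ⟨X, hX⟩ : ∃ X, X = ps u0 i := ⟨_, rfl⟩
    have hji : ¬ (j : ℕ) < (i : ℕ) := by
      have h1 : (i : ℕ) ≤ (j.castSucc : Fin (k + 1)) := hij
      have h2 : ((j.castSucc : Fin (k + 1)) : ℕ) = j := Fin.val_castSucc j
      omega
    have e1 : ∀ v, ps (Function.update u j v) j.succ = v + P := by
      intro v
      rw [ps_update, if_pos (by rw [Fin.val_succ]; omega), hP, hu0]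
    have e2 : ∀ v, ps (Function.update u j v) i = X := by
      intro v
      rw [ps_update, if_neg hji, hX, hu0, ps_update, if_neg hji]
    have hu0L : ∀ i', u0 i' ≤ L := by
      intro i'
      rw [hu0]
      by_cases h : i' = j
      · subst h
        rw [Function.update_self]
        exact Nat.zero_le _
      · rw [Function.update_of_ne h]
        unfold bo at hu
        rw [Fintype.mem_piFinset] at hu
        have h1 := hu i'
        rw [if_neg h, mem_Icc] at h1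
        exact h1.2
    have hPL : P ≤ k * L := by rw [hP]; exact ps_le' hu0L _
    have hXP : X ≤ P := by
      rw [hX, hP]
      apply ps_monotone
      exact hij.trans (Fin.castSucc_lt_succ).le
    simp only [e1, e2]
    calc ∑ v ∈ Icc (0 + 1) L, G (((v + P : ℕ) : ℤ) - X)
        = ∑ n ∈ (Icc (0 + 1) L).image (fun v => v + P - X), G (n : ℤ) := by
          rw [sum_image]
          · apply sum_congr rfl
            intro v _
            congr 1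
            rw [Nat.cast_sub (by omega)]
          · intro y _ z _ hyz
            have : y + P - X = z + P - X := hyz
            omega
      _ ≤ ∑ n ∈ Icc 1 ((k + 1) * L), G (n : ℤ) := by
          apply sum_le_sum_of_subset_of_nonneg _ (fun _ _ _ => hG0 _)
          intro n hn
          obtain ⟨v, hv, rfl⟩ := mem_image.1 hn
          rw [mem_Icc] at hv
          rw [mem_Icc, add_mul, one_mul]
          omega
      _ ≤ E * L := hE
  refine (sum_le_sum hu).trans ?_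
  rw [sum_const, nsmul_eq_mul]
  have h1 : ((bo k 0 L j).card : ℝ) ≤ (L : ℝ) ^ (k - 1) := by exact_mod_cast bo_card k 0 L j
  have h2 : (L : ℝ) ^ k = (L : ℝ) ^ (k - 1) * L := by
    rw [← pow_succ]
    congr 1
    omega
  calc ((bo k 0 L j).card : ℝ) * (E * L) ≤ (L : ℝ) ^ (k - 1) * (E * L) := mul_le_mul_of_nonneg_right h1 hE0
    _ = _ := by rw [h2]; ring

/-- second moment -/
theorem momG (l k K C : ℕ) (hk : 1 ≤ k) : ∃ s₀ : ℕ, ∀ s : ℕ, s₀ ≤ s → ∃ C₃ : ℝ, 0 < C₃ ∧ ∃ L₀ : ℕ, ∀ R L : ℕ, L₀ ≤ L →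
    ∀ Z : ℕ → Finset ℕ, Sv l s R Z → Slow C Z → ∑ g ∈ bx k 0 L, sg K Z s R (TS g) ^ 2 ≤ C₃ * (L : ℝ) ^ k := by
  classical
  obtain ⟨N, hN⟩ : ∃ N : ℕ, N = (k + 1) * (k + 1) - (k + 1) := ⟨_, rfl⟩
  have hN1 : 1 ≤ N := by
    rw [hN]
    have : (k + 1) * 2 ≤ (k + 1) * (k + 1) := Nat.mul_le_mul_left _ (by omega)
    omega
  obtain ⟨K', hK'⟩ : ∃ K' : ℕ, K' = (2 * N) * K * (1 + K) ^ (2 * N) := ⟨_, rfl⟩
  obtain ⟨s₀, hav⟩ := avG l K' C
  refine ⟨s₀, fun s hs => ?_⟩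
  obtain ⟨L₀, hav'⟩ := hav s hs
  obtain ⟨E, hE⟩ : ∃ E : ℝ, E = Real.exp K' * 6 * (k + 1) := ⟨_, rfl⟩
  have hE0 : 0 < E := by rw [hE]; positivity
  obtain ⟨W, hW⟩ : ∃ W : Finset (Fin k × Fin (k + 1)), W = univ.filter (fun y => y.2 ≤ y.1.castSucc) := ⟨_, rfl⟩
  have hWc : 0 < W.card := by
    rw [card_pos]
    refine ⟨(⟨0, by omega⟩, 0), ?_⟩
    rw [hW, mem_filter]
    exact ⟨mem_univ _, Fin.zero_le _⟩
  have hWR : (0 : ℝ) < W.card := by exact_mod_cast hWc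
  have hNR : (0 : ℝ) < N := by exact_mod_cast hN1
  refine ⟨N * (W.card * E), by positivity, max L₀ 1, fun R L hL Z hZ hslow => ?_⟩
  have hL1 : 1 ≤ L := (le_max_right _ _).trans hL
  obtain ⟨G, hG⟩ : ∃ G : ℤ → ℝ, ∀ h, G h = Gd K' Z s R h := ⟨_, fun h => rfl⟩
  have hG1 : ∀ h, 1 ≤ G h := fun h => by rw [hG]; exact Pool.Agent.Y843.HS.one_le_Gd K' h
  have hG0 : ∀ h, 0 ≤ G h := fun h => zero_le_one.trans (hG1 h)
  have hGn : ∀ h, G (-h) = G h := fun h => by rw [hG, hG]; exact Gd_neg K' Z s R h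
  have hav1 : ∑ h ∈ Icc 1 ((k + 1) * L), G (h : ℤ) ≤ E * L := by
    have h1 := hav' R ((k + 1) * L) (((le_max_left _ _).trans hL).trans (Nat.le_mul_of_pos_left _ (by omega))) Z hZ hslow
    simp only [hG]
    refine h1.trans (le_of_eq ?_)
    rw [hE]
    push_cast
    ring
  have hpt : ∀ g ∈ bx k 0 L, sg K Z s R (TS g) ^ 2 ≤ N * ∑ w ∈ W, G ((ps g w.1.succ : ℤ) - ps g w.2) := by
    intro g hg
    rw [mem_bx] at hg
    have hg1 : ∀ i, 1 ≤ g i := fun i => by have := (hg i).1; omega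
    obtain ⟨φ, hφ⟩ : ∃ φ : Fin k × Fin (k + 1) → ℝ, ∀ w, φ w = G ((ps g w.1.succ : ℤ) - ps g w.2) := ⟨_, fun w => rfl⟩
    obtain ⟨S, hS⟩ : ∃ S : ℝ, S = ∑ w ∈ W, φ w := ⟨_, rfl⟩
    have hSe : ∑ w ∈ W, G ((ps g w.1.succ : ℤ) - ps g w.2) = S := by
      rw [hS]
      exact sum_congr rfl fun w _ => (hφ w).symm
    rw [hSe]
    have hφ0 : ∀ w, 0 ≤ φ w := fun w => by rw [hφ]; exact hG0 _
    have hlt : ∀ (i i' : Fin (k + 1)), i < i' → G ((ps g i' : ℤ) - ps g i) ≤ S := by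
      intro i i' hii
      obtain ⟨j, hj⟩ : ∃ j : Fin k, i' = j.succ := by
        rcases Fin.eq_zero_or_eq_succ i' with h | ⟨j, h⟩
        · rw [h] at hii
          exact absurd hii (Fin.not_lt_zero i)
        · exact ⟨j, h⟩
      subst hj
      have hle : i ≤ j.castSucc := Fin.le_castSucc_iff.2 hii
      have hmem : (j, i) ∈ W := by
        rw [hW, mem_filter]
        exact ⟨mem_univ _, hle⟩
      have h9 : φ (j, i) ≤ S := by
        rw [hS]
        exact single_le_sum (fun w _ => hφ0 w) hmem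
      rw [hφ] at h9
      exact h9
    have hc : (TS g).offDiag.card = N := by rw [offDiag_card, TS_card hg1, hN]
    have hne : (TS g).offDiag.Nonempty := by rw [← card_pos, hc]; exact hN1
    unfold sg
    rw [← prod_pow]
    refine (Pool.Agent.TH891.SG.prod_le_sum_pow _ hne _ ?_).trans ?_
    · intro x _
      exact pow_nonneg (zero_le_one.trans (Pool.Agent.Y843.HS.one_le_Gd K _)) 2
    · calc ∑ x ∈ (TS g).offDiag, (Gd K Z s R ((x.1 : ℤ) - x.2) ^ 2) ^ (TS g).offDiag.card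
          ≤ ∑ x ∈ (TS g).offDiag, S := by
            apply sum_le_sum
            intro x hx
            have h1 : (Gd K Z s R ((x.1 : ℤ) - x.2) ^ 2) ^ (TS g).offDiag.card ≤ G ((x.1 : ℤ) - x.2) := by
              rw [hc, ← pow_mul, hG, hK']
              exact Pool.Agent.Y843.HS.pow_Gd_le K (2 * N) _
            refine h1.trans ?_
            rw [mem_offDiag] at hx
            obtain ⟨hx1, hx2, hx3⟩ := hx
            unfold TS at hx1 hx2
            rw [mem_image] at hx1 hx2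
            obtain ⟨i, -, hi⟩ := hx1
            obtain ⟨i', -, hi'⟩ := hx2
            rw [← hi, ← hi']
            rcases lt_trichotomy i i' with h | h | h
            · have e : ((ps g i : ℕ) : ℤ) - ps g i' = -((ps g i' : ℤ) - ps g i) := by ring
              rw [e, hGn]
              exact hlt i i' h
            · exfalso
              apply hx3
              rw [← hi, ← hi', h]
            · exact hlt i' i h
        _ = N * S := by rw [sum_const, nsmul_eq_mul, hc]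
  refine (sum_le_sum hpt).trans ?_
  rw [← mul_sum, mul_assoc]
  apply mul_le_mul_of_nonneg_left _ hNR.le
  rw [sum_comm]
  calc ∑ w ∈ W, ∑ g ∈ bx k 0 L, G ((ps g w.1.succ : ℤ) - ps g w.2) ≤ ∑ w ∈ W, E * (L : ℝ) ^ k := by
        apply sum_le_sum
        intro w hw
        rw [hW, mem_filter] at hw
        exact pair_sumG hL1 G hG0 E hav1 w.1 w.2 hw.2
    _ = (W.card : ℝ) * E * (L : ℝ) ^ k := by
        rw [sum_const, nsmul_eq_mul]
        ring

open Classical in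
/-- **A positive proportion of the vectors of consecutive gaps is popular** -/
theorem popG (l k C₀ : ℕ) (hk : 1 ≤ k) (κ δ : ℝ) (hκ : 0 < κ) (hκ1 : κ ≤ 1) (hδ : 0 < δ) :
    ∃ c ρ K₁ : ℝ, 0 < c ∧ 0 < ρ ∧ 1 ≤ K₁ ∧ ∃ X₀ : ℕ,
    ∀ X A : ℕ, X₀ ≤ X → ∀ Z : ℕ → Finset ℕ, Adm l Z → Slow C₀ Z → ∀ Q : Finset ℕ, Q ⊆ Sift Z κ A X →
      δ * (X * VV Z 0 ⌊(X : ℝ) ^ κ⌋₊) ≤ Q.card → ∀ L : ℕ, K₁ ≤ VV Z 0 ⌊(X : ℝ) ^ κ⌋₊ * L →
      VV Z 0 ⌊(X : ℝ) ^ κ⌋₊ * L ≤ 2 * K₁ →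
      ∃ G ⊆ bx k 0 L, ρ * (L : ℝ) ^ k ≤ (G.card : ℝ) ∧
        ∀ g ∈ G, c * (X * VV Z 0 ⌊(X : ℝ) ^ κ⌋₊ ^ (k + 1)) ≤ ((Q.filter (CN Q g)).card : ℝ) := by
  have hkR : (1 : ℝ) ≤ k := by exact_mod_cast hk
  obtain ⟨K, s₀, hup⟩ := upT l (k + 1) (by omega) κ hκ
  obtain ⟨s₁, hmom⟩ := momG l k K C₀ hk
  obtain ⟨s, hs⟩ : ∃ s, s = max s₀ s₁ := ⟨_, rfl⟩
  obtain ⟨C₃, hC₃, L₀, hmom'⟩ := hmom s (by rw [hs]; exact le_max_right _ _)
  obtain ⟨C, hC, X₂, hup'⟩ := hup s (by rw [hs]; exact le_max_left _ _)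
  obtain ⟨c₀, hc₀, hVge⟩ := Pool.Agent.X58.IV.VV_ge l
  obtain ⟨X₃, hX₃⟩ := eventually_atTop.1 (Pool.Agent.Y840.PT.floor_pow hκ 2)
  have tl : Tendsto (fun n : ℕ => Real.log (n : ℝ)) atTop atTop :=
    Real.tendsto_log_atTop.comp tendsto_natCast_atTop_atTop
  have hlim : Tendsto (fun H : ℕ => (H : ℝ) / Real.log H ^ l) atTop atTop := by
    have h1 : Tendsto (fun x : ℝ => x / Real.log x ^ l) atTop atTop := by
      have h2 : Tendsto (fun y : ℝ => Real.exp y / y ^ l) atTop atTop := Real.tendsto_exp_div_pow_atTop l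
      have h3 := h2.comp Real.tendsto_log_atTop
      refine h3.congr' ?_
      filter_upwards [eventually_gt_atTop (0 : ℝ)] with x hx
      simp [Real.exp_log hx]
    exact h1.comp tendsto_natCast_atTop_atTop
  obtain ⟨X₄, hX₄⟩ := eventually_atTop.1 ((tl.eventually_ge_atTop 1).and
    (hlim.eventually_ge_atTop (4 * k / (δ * c₀))))
  obtain ⟨K₁, hK₁⟩ : ∃ K₁ : ℝ, K₁ = 4 * k / δ + L₀ + 1 := ⟨_, rfl⟩
  have hK₁0 : 0 < K₁ := by rw [hK₁]; positivity
  have hK₁a : 4 * k / δ ≤ K₁ := by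
    rw [hK₁]
    have : (0 : ℝ) ≤ L₀ := Nat.cast_nonneg _
    linarith
  have hK₁b : (L₀ : ℝ) + 1 ≤ K₁ := by
    rw [hK₁]
    have : 0 < 4 * (k : ℝ) / δ := by positivity
    linarith
  obtain ⟨c, hc⟩ : ∃ c : ℝ, c = δ / (4 * (2 * K₁) ^ k) := ⟨_, rfl⟩
  have hc0 : 0 < c := by rw [hc]; positivity
  have hK₁c : 1 ≤ K₁ := by
    have : (0 : ℝ) ≤ L₀ := Nat.cast_nonneg _
    linarith
  refine ⟨c, c ^ 2 / (C ^ 2 * C₃), K₁, hc0, by positivity, hK₁c, max X₂ (max X₃ X₄),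
    fun X A hX Z hZ hslow Q hQ hQc L hL1 hL2 => ?_⟩
  have hX₂ : X₂ ≤ X := (le_max_left _ _).trans hX
  have hX₃' := hX₃ X ((le_max_left _ _).trans ((le_max_right _ _).trans hX))
  obtain ⟨hlog1, hXl⟩ := hX₄ X ((le_max_right _ _).trans ((le_max_right _ _).trans hX))
  have hX1 : (1 : ℝ) ≤ X := by
    by_contra hcon
    push Not at hcon
    have : Real.log (X : ℝ) ≤ 0 := Real.log_nonpos (Nat.cast_nonneg _) hcon.le
    linarith
  have hX0 : (0 : ℝ) < X := by linarith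
  obtain ⟨R, hR⟩ : ∃ R : ℕ, R = ⌊(X : ℝ) ^ κ⌋₊ := ⟨_, rfl⟩
  have hup'' := hup' X A hX₂ Z hZ Q hQ
  rw [← hR] at hup'' hL1 hL2 hQc hX₃' ⊢
  have hR2 : 2 ≤ R := hX₃'.1
  have hRX : R ≤ X := by
    have h1 : (R : ℝ) ≤ X := by
      rw [hR]
      refine (Nat.floor_le (by positivity)).trans ?_
      calc (X : ℝ) ^ κ ≤ (X : ℝ) ^ (1 : ℝ) := Real.rpow_le_rpow_of_exponent_le hX1 hκ1
        _ = X := Real.rpow_one _
    exact_mod_cast h1
  obtain ⟨V, hV⟩ : ∃ V : ℝ, V = VV Z 0 R := ⟨_, rfl⟩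
  rw [← hV] at hQc hup'' hL1 hL2 ⊢
  have hV0 : 0 < V := by rw [hV]; exact VV_pos hZ 0 R
  have hV1 : V ≤ 1 := by rw [hV]; exact VV_le_one hZ 0 R
  have hVlow : c₀ / Real.log X ^ l ≤ V := by
    rw [hV]
    refine le_trans ?_ (hVge Z hZ R hR2)
    have h1 : 0 < Real.log (R : ℝ) := Real.log_pos (by exact_mod_cast (by omega : 1 < R))
    have h2 : Real.log (R : ℝ) ≤ Real.log X := Real.log_le_log (by exact_mod_cast (by omega : 0 < R)) (by exact_mod_cast hRX)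
    apply div_le_div_of_nonneg_left hc₀.le (by positivity)
    exact pow_le_pow_left₀ h1.le h2 l
  have hL0' : (0 : ℝ) ≤ L := Nat.cast_nonneg _
  have hLK : K₁ ≤ (L : ℝ) := by
    calc K₁ ≤ V * L := hL1
      _ ≤ 1 * L := mul_le_mul_of_nonneg_right hV1 hL0'
      _ = L := one_mul _
  have hL0 : (0 : ℝ) < L := lt_of_lt_of_le hK₁0 hLK
  have hLL₀ : L₀ ≤ L := by
    have : (L₀ : ℝ) ≤ L := by linarith
    exact_mod_cast this
  have hQI : Q ⊆ Ioc A (A + X) := by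
    intro n hn
    have h2 := hQ hn
    unfold Sift at h2
    exact (mem_filter.1 h2).1
  obtain ⟨Rr, hRr⟩ : ∃ Rr : (Fin k → ℕ) → ℝ, Rr = fun g => ((Q.filter (CN Q g)).card : ℝ) := ⟨_, rfl⟩
  have hRg : ∀ g, ((Q.filter (CN Q g)).card : ℝ) = Rr g := fun g => by rw [hRr]
  -- all gap vectors
  have hXV : 4 * k / δ ≤ X * V := by
    have h1 : X * (c₀ / Real.log X ^ l) ≤ X * V := by gcongr
    refine le_trans ?_ h1
    rw [div_le_iff₀ (by positivity)] at hXl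
    rw [div_le_iff₀ hδ]
    calc 4 * (k : ℝ) ≤ (X : ℝ) / Real.log X ^ l * (δ * c₀) := hXl
      _ = X * (c₀ / Real.log X ^ l) * δ := by ring
  have hgap : δ / 2 * (X * V) ≤ ∑ g ∈ bx k 0 L, Rr g := by
    obtain ⟨S, hSQ, hSc, hS⟩ := runs Q 0 L k
    have h1 := G1_card Q A X 0 L hQI
    have h2 : (Q.card : ℝ) ≤ S.card + k * (1 + ((X / (L + 1) : ℕ) : ℝ)) := by
      have h3 : Q.card - (G1 Q 0 L).card ≤ 1 + X / (L + 1) := by
        apply tsub_le_iff_right.2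
        have e : ∑ g ∈ Icc 1 0, (Q.filter (Nx Q g)).card = 0 := by simp
        rw [e, add_zero] at h1
        exact h1
      have h4 := hSc.trans (Nat.add_le_add_left (Nat.mul_le_mul_left k h3) _)
      exact_mod_cast h4
    have h4 : ((X / (L + 1) : ℕ) : ℝ) ≤ (X : ℝ) / ((L + 1 : ℕ) : ℝ) := Nat.cast_div_le
    have h5 : (X : ℝ) / ((L + 1 : ℕ) : ℝ) ≤ X * V / K₁ := by
      rw [div_le_div_iff₀ (by positivity) hK₁0]
      have h6 : K₁ ≤ V * ((L + 1 : ℕ) : ℝ) := by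
        push_cast
        rw [mul_add, mul_one]
        linarith
      calc X * K₁ ≤ X * (V * ((L + 1 : ℕ) : ℝ)) := by gcongr
        _ = _ := by ring
    have h6 : k * (X * V / K₁) ≤ δ / 4 * (X * V) := by
      rw [mul_div_assoc', div_le_iff₀ hK₁0]
      have h7 : (k : ℝ) ≤ δ / 4 * K₁ := by
        rw [div_le_iff₀ hδ] at hK₁a
        linarith
      calc k * (X * V) ≤ δ / 4 * K₁ * (X * V) := by gcongr
        _ = _ := by ring
    have h7 : (k : ℝ) ≤ δ / 4 * (X * V) := by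
      rw [div_le_iff₀ hδ] at hXV
      linarith
    have h9 : (S.card : ℝ) ≤ ∑ g ∈ bx k 0 L, Rr g := by
      have h10 : S ⊆ (bx k 0 L).biUnion (fun g => Q.filter (CN Q g)) := by
        intro q hq
        obtain ⟨g, hg, hC⟩ := hS q hq
        rw [mem_biUnion]
        exact ⟨g, hg, mem_filter.2 ⟨hSQ hq, hC⟩⟩
      have h11 := (card_le_card h10).trans card_biUnion_le
      have h12 : (S.card : ℝ) ≤ ∑ g ∈ bx k 0 L, ((Q.filter (CN Q g)).card : ℝ) := by exact_mod_cast h11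
      simpa only [hRg] using h12
    have h10 : k * ((X / (L + 1) : ℕ) : ℝ) ≤ δ / 4 * (X * V) := by
      refine le_trans ?_ h6
      exact mul_le_mul_of_nonneg_left (h4.trans h5) (by linarith)
    rw [mul_add, mul_one] at h2
    have h11 : δ / 2 * (X * V) + (δ / 4 * (X * V) + δ / 4 * (X * V)) = δ * (X * V) := by ring
    linarith
  have hLk : (0 : ℝ) < (L : ℝ) ^ k := by positivity
  obtain ⟨G, hGs, hGc, hG⟩ := GVV.pz (bx k 0 L) Rr (fun g => sg K Z s R (TS g)) ((L : ℝ) ^ k) (X * V ^ (k + 1)) C C₃ c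
    hLk (by positivity) hC hC₃ hc0 (by
      intro g hg
      rw [mem_bx] at hg
      have hg1 : ∀ i, 1 ≤ g i := fun i => by have := (hg i).1; omega
      refine le_trans ?_ (hup'' (TS g) (TS_card hg1))
      rw [hRr]
      refine Nat.cast_le.2 (card_le_card fun q hq => ?_)
      rw [mem_filter] at hq
      unfold pos
      rw [mem_filter]
      refine ⟨hq.1, fun x hx => ?_⟩
      unfold TS at hx
      rw [mem_image] at hx
      obtain ⟨i, -, rfl⟩ := hx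
      rcases Fin.eq_zero_or_eq_succ i with h | ⟨j, h⟩
      · rw [h, ps_zero, add_zero]
        exact hq.1
      · rw [h, ps_succ, ← add_assoc]
        exact (hq.2 j).1) (by
      apply hmom' R L hLL₀ Z _ hslow
      intro p hp
      have hpp := (mem_filter.1 hp).2
      exact ⟨(hZ p hpp).1, (hZ p hpp).2.2⟩) (by exact_mod_cast bx_card k 0 L) (by
      refine le_trans ?_ hgap
      have h1 : V ^ k * (L : ℝ) ^ k ≤ (2 * K₁) ^ k := by
        rw [← mul_pow]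
        exact pow_le_pow_left₀ (by positivity) hL2 k
      calc 2 * c * (X * V ^ (k + 1)) * (L : ℝ) ^ k = 2 * c * (X * V) * (V ^ k * (L : ℝ) ^ k) := by
            rw [pow_succ]
            ring
        _ ≤ 2 * c * (X * V) * (2 * K₁) ^ k := by gcongr
        _ = δ / 2 * (X * V) := by
            rw [hc]
            have : (2 * K₁) ^ k ≠ 0 := by positivity
            field_simp
            norm_num)
  exact ⟨G, hGs, hGc, fun g hg => by rw [hRg]; exact hG g hg⟩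

open Classical in
/-- **The vectors of `k` consecutive gaps** -/
theorem main (l k C₀ : ℕ) (hk : 1 ≤ k) (κ δ : ℝ) (hκ : 0 < κ) (hκ1 : κ ≤ 1) (hδ : 0 < δ) :
    ∃ h M : ℕ, 1 ≤ M ∧ ∃ c ρ K ε₀ : ℝ, 0 < c ∧ 0 < ρ ∧ 0 < K ∧ 0 < ε₀ ∧ ∃ X₀ : ℕ,
    ∀ X A : ℕ, X₀ ≤ X → ∀ Z : ℕ → Finset ℕ, Adm l Z → Slow C₀ Z → ∀ Q : Finset ℕ, Q ⊆ Sift Z κ A X →
      δ * (X * VV Z 0 X) ≤ Q.card →
      (∃ G : Finset (Fin k → ℕ), ρ ≤ (G.card : ℝ) * VV Z 0 X ^ k ∧
        ∀ g ∈ G, (∀ i, 1 ≤ g i ∧ (g i : ℝ) * VV Z 0 X ≤ K) ∧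
          c * (X * VV Z 0 X ^ (k + 1)) ≤ ((Q.filter (CN Q g)).card : ℝ)) ∧
      (VV Z 0 X ≤ ε₀ → ∀ t : Fin k → ℤ, (∀ i, (M : ℤ) ∣ t i) → ∃ n : ℕ,
        (n : ℝ) ≤ h * (1 + VV Z 0 X * ∑ i, |(t i : ℝ)|) ∧
        SR (fun g => (∀ i, 1 ≤ g i ∧ (g i : ℝ) * VV Z 0 X ≤ K) ∧
          c * (X * VV Z 0 X ^ (k + 1)) ≤ ((Q.filter (CN Q g)).card : ℝ)) n t) := by
  obtain ⟨c₁, hc₁, N₁, hcomp⟩ := Pool.Agent.X58.IV.VV_comp_pow l κ 1 hκ one_pos
  obtain ⟨c, ρ, K₁, hc, hρ, hK₁1, X₁, hpop⟩ := popG l k C₀ hk κ (δ * c₁) hκ hκ1 (by positivity)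
  obtain ⟨h₁, D₁, N₀, hD₁, hlat⟩ := GVV.lattice k ρ hρ
  have hK₁ : 0 < K₁ := by linarith
  obtain ⟨h₂, hh₂⟩ := exists_nat_ge (max (k : ℝ) (1 / (K₁ * c₁)))
  have hN₀ : (0 : ℝ) < (N₀ : ℝ) + 1 := by positivity
  refine ⟨2 * h₁ * h₂, D₁.factorial, Nat.factorial_pos _, c, ρ * (c₁ * K₁) ^ k, 2 * K₁, K₁ * c₁ / (N₀ + 1), hc,
    by positivity, by positivity, by positivity, max (max N₁ X₁) 1, fun X A hX Z hZ hslow Q hQ hQc => ?_⟩
  have hN₁ : N₁ ≤ X := (le_max_left _ _).trans ((le_max_left _ _).trans hX)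
  have hX₁ : X₁ ≤ X := (le_max_right _ _).trans ((le_max_left _ _).trans hX)
  have hX1 : (1 : ℝ) ≤ X := by exact_mod_cast (le_max_right _ _).trans hX
  have hcmp := hcomp Z hZ X X hN₁ (by rw [Real.rpow_one])
  have hanti : VV Z 0 X ≤ VV Z 0 ⌊(X : ℝ) ^ κ⌋₊ := by
    apply Pool.Agent.X58.IV.VV_anti hZ
    have h3 : ((⌊(X : ℝ) ^ κ⌋₊ : ℕ) : ℝ) ≤ X := by
      refine (Nat.floor_le (by positivity)).trans ?_
      calc (X : ℝ) ^ κ ≤ (X : ℝ) ^ (1 : ℝ) := Real.rpow_le_rpow_of_exponent_le hX1 hκ1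
        _ = X := Real.rpow_one _
    exact_mod_cast h3
  have hpp := hpop X A hX₁ Z hZ hslow Q hQ
  obtain ⟨V, hV⟩ : ∃ V : ℝ, V = VV Z 0 X := ⟨_, rfl⟩
  obtain ⟨U, hU⟩ : ∃ U : ℝ, U = VV Z 0 ⌊(X : ℝ) ^ κ⌋₊ := ⟨_, rfl⟩
  have hV0 : 0 < V := by rw [hV]; exact VV_pos hZ 0 X
  have hU0 : 0 < U := by rw [hU]; exact VV_pos hZ 0 _
  have hU1 : U ≤ 1 := by rw [hU]; exact VV_le_one hZ 0 _
  rw [← hU] at hpp hcmp hanti
  rw [← hV] at hcmp hanti hQc ⊢
  have hcondQ : δ * c₁ * (X * U) ≤ Q.card := by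
    refine le_trans ?_ hQc
    calc δ * c₁ * (X * U) = δ * (X * (c₁ * U)) := by ring
      _ ≤ δ * (X * V) := by gcongr
  obtain ⟨L, hL⟩ : ∃ L, L = ⌈K₁ / U⌉₊ := ⟨_, rfl⟩
  have hL1 : K₁ / U ≤ L := by rw [hL]; exact Nat.le_ceil _
  have hL1' : K₁ ≤ U * L := by
    rw [div_le_iff₀ hU0] at hL1
    linarith
  have hL2 : U * L ≤ 2 * K₁ := by
    have h1 : (L : ℝ) < K₁ / U + 1 := by rw [hL]; exact Nat.ceil_lt_add_one (by positivity)
    calc U * L ≤ U * (K₁ / U + 1) := by gcongr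
      _ = K₁ + U := by field_simp
      _ ≤ 2 * K₁ := by linarith
  have hL0 : (0 : ℝ) < L := lt_of_lt_of_le (by positivity) hL1
  have hLpos : 1 ≤ L := by exact_mod_cast hL0
  obtain ⟨G, hGs, hGc, hG⟩ := hpp hcondQ L hL1' hL2
  have hG' : ∀ g ∈ G, (∀ i, 1 ≤ g i ∧ (g i : ℝ) * V ≤ 2 * K₁) ∧
      c * (X * V ^ (k + 1)) ≤ ((Q.filter (CN Q g)).card : ℝ) := by
    intro g hg
    refine ⟨fun i => ?_, ?_⟩
    · have h1 := mem_bx.1 (hGs hg) i
      have h2 : (g i : ℝ) ≤ L := by exact_mod_cast h1.2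
      refine ⟨by omega, ?_⟩
      calc (g i : ℝ) * V ≤ L * U := by gcongr
        _ = U * L := mul_comm _ _
        _ ≤ _ := hL2
    · refine le_trans ?_ (hG g hg)
      gcongr
  refine ⟨⟨G, ?_, hG'⟩, fun hVε t hMt => ⟨∑ i, 2 * h₁ * ((t i).natAbs / L + 1), ?_, ?_⟩⟩
  · calc ρ * (c₁ * K₁) ^ k ≤ ρ * (c₁ * (U * L)) ^ k := by gcongr
      _ = ρ * (L : ℝ) ^ k * (c₁ * U) ^ k := by
          rw [mul_assoc ρ, ← mul_pow]
          congr 2
          ring
      _ ≤ (G.card : ℝ) * V ^ k := by gcongr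
  · push_cast
    have hh3 : (k : ℝ) ≤ h₂ := (le_max_left _ _).trans hh₂
    have hh4 : 1 / (K₁ * c₁) ≤ h₂ := (le_max_right _ _).trans hh₂
    have h1 : ∀ i : Fin k, 2 * (h₁ : ℝ) * ((((t i).natAbs / L : ℕ) : ℝ) + 1) ≤
        2 * h₁ * (1 + h₂ * V * |(t i : ℝ)|) := by
      intro i
      have h2 : (((t i).natAbs / L : ℕ) : ℝ) ≤ ((t i).natAbs : ℝ) / L := Nat.cast_div_le
      have h3 : ((t i).natAbs : ℝ) = |(t i : ℝ)| := by rw [Nat.cast_natAbs, Int.cast_abs]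
      rw [h3] at h2
      have h4 : |(t i : ℝ)| / L ≤ h₂ * V * |(t i : ℝ)| := by
        rw [div_le_iff₀ hL0]
        have h5 : 1 ≤ h₂ * V * L := by
          have h6 : 1 ≤ h₂ * (K₁ * c₁) := by
            rw [div_le_iff₀ (by positivity)] at hh4
            exact hh4
          have h7 : K₁ * c₁ ≤ V * L := by
            calc K₁ * c₁ ≤ U * L * c₁ := by gcongr
              _ = c₁ * U * L := by ring
              _ ≤ V * L := by gcongr
          calc (1 : ℝ) ≤ h₂ * (K₁ * c₁) := h6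
            _ ≤ h₂ * (V * L) := by gcongr
            _ = _ := by ring
        calc |(t i : ℝ)| = |(t i : ℝ)| * 1 := (mul_one _).symm
          _ ≤ |(t i : ℝ)| * (h₂ * V * L) := by gcongr
          _ = _ := by ring
      apply mul_le_mul_of_nonneg_left _ (by positivity)
      linarith
    calc ∑ i, 2 * (h₁ : ℝ) * ((((t i).natAbs / L : ℕ) : ℝ) + 1) ≤ ∑ i, 2 * h₁ * (1 + h₂ * V * |(t i : ℝ)|) :=
          sum_le_sum fun i _ => h1 i
      _ = 2 * h₁ * (k + h₂ * V * ∑ i, |(t i : ℝ)|) := by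
          rw [← mul_sum, sum_add_distrib, ← mul_sum, sum_const, card_univ, Fintype.card_fin, nsmul_eq_mul, mul_one]
      _ ≤ 2 * h₁ * (h₂ + h₂ * V * ∑ i, |(t i : ℝ)|) := by gcongr
      _ = _ := by ring
  · have hLN : N₀ ≤ L := by
      have h1 : (N₀ : ℝ) + 1 ≤ L := by
        rw [le_div_iff₀ hN₀] at hVε
        have h2 : c₁ * U * (N₀ + 1) ≤ K₁ * c₁ := (mul_le_mul_of_nonneg_right hcmp hN₀.le).trans hVε
        have h3 : U * ((N₀ : ℝ) + 1) ≤ K₁ := by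
          have h4 : c₁ * (U * (N₀ + 1)) ≤ c₁ * K₁ := by
            calc c₁ * (U * ((N₀ : ℝ) + 1)) = c₁ * U * (N₀ + 1) := by ring
              _ ≤ K₁ * c₁ := h2
              _ = _ := mul_comm _ _
          exact le_of_mul_le_mul_left h4 hc₁
        have h4 : (N₀ : ℝ) + 1 ≤ K₁ / U := by
          rw [le_div_iff₀ hU0]
          linarith
        linarith
      have h2 : (N₀ : ℝ) ≤ L := by linarith
      exact_mod_cast h2
    obtain ⟨l₁, l₂, g1, g2, g3, g4⟩ := hlat L 0 hLN hLpos G hGs hGc t hMt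
    exact ⟨l₁, l₂, g1, fun g hg => hG' g (g2 g hg), fun g hg => hG' g (g3 g hg), g4⟩

end Pool.Agent.U455.ASG
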