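import Mathlib
import Pool.Agent.U455.ASG

/-!
# The sieve problem of a progression
-/

set_option autoImplicit false

namespace Pool.Agent.U455.APC

open Filter Finset

/-- the class modulo `p` for which `p` divides `n q + r` -/
def cl (q r p : ℕ) : Finset ℕ := (range p).filter (fun c => p ∣ c * q + r)

lemma mem_cl {q r p : ℕ} (hp : 0 < p) (n : ℕ) : n % p ∈ cl q r p ↔ p ∣ n * q + r := by
  unfold cl
  rw [mem_filter, mem_range]
  have h2 : n % p * q + r ≡ n * q + r [MOD p] := ((Nat.mod_modEq n p).mul_right q).add_right r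
  have h3 : p ∣ n % p * q + r ↔ p ∣ n * q + r := h2.dvd_iff (dvd_refl p)
  rw [h3]
  exact ⟨fun h => h.2, fun h => ⟨Nat.mod_lt _ hp, h⟩⟩

lemma cl_unique {q r p : ℕ} (hp : p.Prime) (hqr : Nat.Coprime q r) {c c' : ℕ} (hc : c ∈ cl q r p) (hc' : c' ∈ cl q r p) :
    c = c' := by
  unfold cl at hc hc'
  rw [mem_filter, mem_range] at hc hc'
  have h1 : (c * q + r) ≡ (c' * q + r) [MOD p] :=
    ((Nat.modEq_zero_iff_dvd.2 hc.2)).trans (Nat.modEq_zero_iff_dvd.2 hc'.2).symm
  have h2 : c * q ≡ c' * q [MOD p] := Nat.ModEq.add_right_cancel' r h1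
  have hpq : ¬ p ∣ q := by
    intro h
    have h3 : p ∣ r := (Nat.dvd_add_right (h.mul_left c)).1 hc.2
    have h4 : p ∣ Nat.gcd q r := Nat.dvd_gcd h h3
    rw [Nat.Coprime] at hqr
    rw [hqr] at h4
    exact hp.one_lt.ne' (Nat.dvd_one.1 h4)
  have h3 : Nat.gcd p q = 1 := (Nat.Prime.coprime_iff_not_dvd hp).2 hpq
  have h4 : c ≡ c' [MOD p] := Nat.ModEq.cancel_right_of_coprime h3 h2
  have h5 : c % p = c' % p := h4
  rwa [Nat.mod_eq_of_lt hc.1, Nat.mod_eq_of_lt hc'.1] at h5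

lemma cl_card {q r p : ℕ} (hp : p.Prime) (hqr : Nat.Coprime q r) : (cl q r p).card = if p ∣ q then 0 else 1 := by
  classical
  split_ifs with h
  · rw [card_eq_zero, Finset.eq_empty_iff_forall_notMem]
    intro c hc
    unfold cl at hc
    rw [mem_filter] at hc
    have h3 : p ∣ r := (Nat.dvd_add_right (h.mul_left c)).1 hc.2
    have h4 : p ∣ Nat.gcd q r := Nat.dvd_gcd h h3
    rw [Nat.Coprime] at hqr
    rw [hqr] at h4
    exact hp.one_lt.ne' (Nat.dvd_one.1 h4)
  · obtain ⟨u, -, hu⟩ := Nat.exists_mul_mod_eq_one_of_coprime ((Nat.Prime.coprime_iff_not_dvd hp).2 h).symm hp.one_lt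
    rw [card_eq_one]
    have hr : r % p < p := Nat.mod_lt _ hp.pos
    refine ⟨(u * (p - r % p)) % p, ?_⟩
    have hmem : (u * (p - r % p)) % p ∈ cl q r p := by
      rw [mem_cl hp.pos]
      have h1 : u * (p - r % p) * q + r ≡ 0 [MOD p] := by
        have h2 : q * u ≡ 1 [MOD p] := by
          show q * u % p = 1 % p
          rw [hu, Nat.mod_eq_of_lt hp.one_lt]
        calc u * (p - r % p) * q + r = (q * u) * (p - r % p) + r := by ring
          _ ≡ 1 * (p - r % p) + r % p [MOD p] := (h2.mul_right _).add (Nat.mod_modEq r p).symm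
          _ = p := by omega
          _ ≡ 0 [MOD p] := by
              show p % p = 0 % p
              simp
      exact (Nat.modEq_zero_iff_dvd).1 h1
    ext c
    rw [mem_singleton]
    exact ⟨fun hc => cl_unique hp hqr hc hmem, fun hc => by rw [hc]; exact hmem⟩

lemma adm {q r : ℕ} (hqr : Nat.Coprime q r) : Pool.Agent.X58.IV.Adm 1 (cl q r) := by
  intro p hp
  have h1 : (cl q r p).card ≤ 1 := by
    rw [cl_card hp hqr]
    split_ifs <;> omega
  refine ⟨h1, lt_of_le_of_lt h1 hp.one_lt, fun c hc => ?_⟩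
  unfold cl at hc
  exact mem_range.1 (mem_filter.1 hc).1

lemma slow {q r : ℕ} (hqr : Nat.Coprime q r) : Pool.Agent.U455.ASG.Slow 1 (cl q r) := by
  intro g hg
  refine ⟨g, hg, by rw [one_mul, pow_one], ?_⟩
  rintro p hp ⟨c, hc, c', hc', hd⟩
  rw [cl_unique hp hqr hc hc', sub_self, sub_zero] at hd
  exact_mod_cast hd

lemma VV_eq {q r : ℕ} (hqr : Nat.Coprime q r) (X : ℕ) :
    ∏ p ∈ (Icc 1 X).filter (fun p => p.Prime ∧ ¬ p ∣ q), (1 - 1 / (p : ℝ)) =
      Pool.Agent.Y843.HS.VV (cl q r) 0 X := by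
  classical
  unfold Pool.Agent.Y843.HS.VV Pool.Agent.Y843.HS.Pr
  have e1 : (Icc 1 X).filter (fun p => p.Prime ∧ ¬ p ∣ q) = ((Ioc 0 X).filter Nat.Prime).filter (fun p => ¬ p ∣ q) := by
    rw [filter_filter]
    congr 1
  rw [e1, prod_filter]
  apply prod_congr rfl
  intro p hp
  rw [mem_filter] at hp
  rw [cl_card hp.2 hqr]
  by_cases h1 : p ∣ q
  · rw [if_neg (not_not.2 h1), if_pos h1]
    simp
  · rw [if_pos h1, if_neg h1]
    simp

lemma sub_Sift {q r a X : ℕ} {Q : Finset ℕ} (hQ : Q ⊆ Ioc a (a + X)) (hQp : ∀ n ∈ Q, (n * q + r).Prime ∧ X < n * q + r) :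
    Q ⊆ Pool.Agent.X58.IV.Sift (cl q r) 1 a X := by
  classical
  intro n hn
  unfold Pool.Agent.X58.IV.Sift
  rw [mem_filter]
  refine ⟨hQ hn, fun p hp hpX hmem => ?_⟩
  rw [mem_cl hp.pos] at hmem
  rw [Real.rpow_one] at hpX
  have h2 : p ≤ X := by exact_mod_cast hpX
  have h3 : p = n * q + r := (Nat.prime_dvd_prime_iff_eq hp (hQp n hn).1).1 hmem
  have h4 := (hQp n hn).2
  omega

end Pool.Agent.U455.APC
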