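import Pool.Agent.R473.JC.Final
import Pool.Agent.R473.FP.AlgPieces
import Pool.Agent.R473.FP.FS

/-!
# Cutting the digits of two numbers, in two bases, into blocks of small algebraic complexity
-/

set_option autoImplicit false

namespace Pool.Agent.U455.JB

open Finset Polynomial
open Pool.Agent.W472.AC (digit digit_nonneg)
open Pool.Agent.R473.EC (sQ)
open Pool.Agent.R473.JC (ARel joint_last)
open Pool.Agent.R473.FP (blockPoly sQ_block run errors periodic_stretch)
open Pool.Agent.R356 (JointR)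

/-- the block of digits from the `(u+1)`-st to the `v`-th place satisfies a relation of degree `≤ r`
with coefficients of degree `≤ k` -/
def BRel (b : ℕ) (x : ℝ) (r u v k : ℕ) : Prop :=
  ∃ h : Fin (r + 1) → ℚ[X], h ≠ 0 ∧ (∀ j, (h j).natDegree ≤ k) ∧
    X ^ (v - u + 1) ∣ ∑ j, h j * blockPoly b x u (v - u) ^ (j : ℕ)

lemma arel_of_brel (b : ℕ) (x : ℝ) (r u v k : ℕ) (huv : u ≤ v) (h : BRel b x r u v k) :
    ARel (fun l => if u < l then digit b x l else 0) r v (k + u * (r + 1)) := by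
  obtain ⟨h, hh0, hhk, hX⟩ := h
  obtain ⟨q, rfl⟩ : ∃ q, v = u + q := ⟨v - u, by omega⟩
  rw [Nat.add_sub_cancel_left] at hX
  refine ⟨fun j => h j * X ^ (u * (r + 1 - j)), ?_, fun j => ?_, ?_⟩
  · intro h0
    apply hh0
    ext1 j
    have h1 := congrFun h0 j
    exact (mul_eq_zero.1 h1).resolve_right (pow_ne_zero _ X_ne_zero)
  · refine natDegree_mul_le.trans ?_
    rw [natDegree_X_pow]
    exact add_le_add (hhk j) (Nat.mul_le_mul_left _ (Nat.sub_le _ _))
  · have e : ∑ j : Fin (r + 1), (h j * X ^ (u * (r + 1 - j))) *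
        sQ (fun l => if u < l then digit b x l else 0) (u + q) ^ (j : ℕ) =
        X ^ (u * (r + 1)) * ∑ j, h j * blockPoly b x u q ^ (j : ℕ) := by
      rw [Finset.mul_sum]
      refine Finset.sum_congr rfl fun j _ => ?_
      simp only [sQ_block, mul_pow]
      rw [← pow_mul]
      have e1 : u * (r + 1) = u * (r + 1 - j) + u * j := by
        rw [← Nat.mul_add, Nat.sub_add_cancel (by have := j.2; omega)]
      rw [e1, pow_add]
      ring
    rw [e]
    have h2 : u + q + 1 ≤ u * (r + 1) + (q + 1) := by nlinarith [Nat.zero_le (u * r)]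
    exact dvd_trans (pow_dvd_pow _ h2) (by rw [pow_add]; exact mul_dvd_mul_left _ hX)

/-- **One block of each number.** -/
theorem block2 (x y : ℝ) (hxy : JointR x y) (r : ℕ) : ∃ A : ℝ, 1 ≤ A ∧
    ∀ b b' : ℕ, 2 ≤ b → 2 ≤ b' → ∀ u v k u' v' k' : ℕ, u ≤ v → u' ≤ v' →
      BRel b x r u v k → BRel b' y r u' v' k' →
      min (v * Real.log b) (v' * Real.log b') ≤
        A * ((k + 1 + u) * Real.log b + (k' + 1 + u') * Real.log b') := by
  obtain ⟨A, hA, hlast⟩ := joint_last x y hxy r
  refine ⟨A * (r + 2) + 1, by nlinarith [(Nat.cast_nonneg r : (0 : ℝ) ≤ r)], ?_⟩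
  intro b b' hb hb' u v k u' v' k' huv huv' hrel hrel'
  have hbR : (2 : ℝ) ≤ b := by exact_mod_cast hb
  have hbR' : (2 : ℝ) ≤ b' := by exact_mod_cast hb'
  have hlb : 0 < Real.log b := Real.log_pos (by linarith)
  have hlb' : 0 < Real.log b' := Real.log_pos (by linarith)
  have h1 := arel_of_brel b x r u v k huv hrel
  have h2 := arel_of_brel b' y r u' v' k' huv' hrel'
  obtain ⟨lb, elb⟩ : ∃ z : ℝ, z = Real.log b := ⟨_, rfl⟩
  obtain ⟨lb', elb'⟩ : ∃ z : ℝ, z = Real.log b' := ⟨_, rfl⟩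
  have hr0 : (0 : ℝ) ≤ r := Nat.cast_nonneg r
  have hk0 : (0 : ℝ) ≤ k := Nat.cast_nonneg k
  have hk0' : (0 : ℝ) ≤ k' := Nat.cast_nonneg k'
  have hu0 : (0 : ℝ) ≤ u := Nat.cast_nonneg u
  have hu0' : (0 : ℝ) ≤ u' := Nat.cast_nonneg u'
  have hv0 : (0 : ℝ) ≤ v := Nat.cast_nonneg v
  have hv0' : (0 : ℝ) ≤ v' := Nat.cast_nonneg v'
  obtain ⟨T, hT⟩ : ∃ T : ℝ, T = min (v * lb) (v' * lb') := ⟨_, rfl⟩
  rw [← elb] at hlb
  rw [← elb'] at hlb'
  rw [← elb, ← elb', ← hT]
  have hT0 : 0 ≤ T := by rw [hT]; exact le_min (by positivity) (by positivity)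
  obtain ⟨L, hL⟩ : ∃ L : ℕ, L = ⌊T / lb⌋₊ := ⟨_, rfl⟩
  obtain ⟨L', hL'⟩ : ∃ L' : ℕ, L' = ⌊T / lb'⌋₊ := ⟨_, rfl⟩
  have hL1 : L * lb ≤ T := by
    have := Nat.floor_le (div_nonneg hT0 hlb.le)
    rw [← hL, le_div_iff₀ hlb] at this
    exact this
  have hL2 : T < (L + 1) * lb := by
    have := Nat.lt_floor_add_one (T / lb)
    rw [← hL, div_lt_iff₀ hlb] at this
    exact this
  have hL1' : L' * lb' ≤ T := by
    have := Nat.floor_le (div_nonneg hT0 hlb'.le)
    rw [← hL', le_div_iff₀ hlb'] at this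
    exact this
  have hL2' : T < (L' + 1) * lb' := by
    have := Nat.lt_floor_add_one (T / lb')
    rw [← hL', div_lt_iff₀ hlb'] at this
    exact this
  have hLv : L ≤ v := by
    have h3 : (L : ℝ) * lb ≤ v * lb := hL1.trans (by rw [hT]; exact min_le_left _ _)
    exact_mod_cast le_of_mul_le_mul_right h3 hlb
  have hLv' : L' ≤ v' := by
    have h3 : (L' : ℝ) * lb' ≤ v' * lb' := hL1'.trans (by rw [hT]; exact min_le_right _ _)
    exact_mod_cast le_of_mul_le_mul_right h3 hlb'
  have hA2 : 1 ≤ A * (r + 2) + 1 := by nlinarith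
  have hS0 : 0 ≤ (k + 1 + u) * lb + (k' + 1 + u') * lb' := by positivity
  have hSle : (k + 1 + u) * lb + (k' + 1 + u') * lb' ≤
      (A * (r + 2) + 1) * ((k + 1 + u) * lb + (k' + 1 + u') * lb') :=
    le_mul_of_one_le_left hS0 hA2
  by_cases hu : u ≤ L
  swap
  · have h3 : (L : ℝ) + 1 ≤ u := by exact_mod_cast (by omega : L + 1 ≤ u)
    have h4 : ((L : ℝ) + 1) * lb ≤ u * lb := mul_le_mul_of_nonneg_right h3 hlb.le
    have h5 : (u : ℝ) * lb ≤ (k + 1 + u) * lb + (k' + 1 + u') * lb' := by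
      have : 0 ≤ (k' + 1 + u') * lb' := by positivity
      have h6 : (u : ℝ) * lb ≤ (k + 1 + u) * lb := mul_le_mul_of_nonneg_right (by linarith) hlb.le
      linarith
    linarith
  by_cases hu' : u' ≤ L'
  swap
  · have h3 : (L' : ℝ) + 1 ≤ u' := by exact_mod_cast (by omega : L' + 1 ≤ u')
    have h4 : ((L' : ℝ) + 1) * lb' ≤ u' * lb' := mul_le_mul_of_nonneg_right h3 hlb'.le
    have h5 : (u' : ℝ) * lb' ≤ (k + 1 + u) * lb + (k' + 1 + u') * lb' := by
      have : 0 ≤ (k + 1 + u) * lb := by positivity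
      have h6 : (u' : ℝ) * lb' ≤ (k' + 1 + u') * lb' :=
        mul_le_mul_of_nonneg_right (by linarith) hlb'.le
      linarith
    linarith
  have hdig : ∀ (β : ℕ) (z : ℝ), 2 ≤ β → ∀ l, 0 ≤ digit β z l ∧ digit β z l < β :=
    fun β z hβ l => ⟨digit_nonneg _ _ (by omega) _, by
      unfold digit
      exact Int.emod_lt_of_pos _ (by exact_mod_cast (by omega : 0 < β))⟩
  have h3 := hlast b b' hb hb' L L' (k + u * (r + 1)) (k' + u' * (r + 1)) u u' hu hu'
    (fun l => if u < l then digit b x l else 0) (fun l => if u' < l then digit b' y l else 0)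
    (fun l => by
      split_ifs
      · exact hdig b x hb l
      · exact ⟨le_rfl, by exact_mod_cast (by omega : 0 < b)⟩)
    (fun l => by
      split_ifs
      · exact hdig b' y hb' l
      · exact ⟨le_rfl, by exact_mod_cast (by omega : 0 < b')⟩)
    (fun l hl _ => if_pos hl) (fun l hl _ => if_pos hl)
    (h1.trunc L hLv) (h2.trunc L' hLv')
    (by rw [← elb, ← elb']; linarith) (by rw [← elb, ← elb']; linarith)
  rw [← elb, ← elb'] at h3
  push_cast at h3
  have h4 : (k + u * (r + 1) + 1 + u) * lb + (k' + u' * (r + 1) + 1 + u') * lb' ≤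
      (r + 2) * ((k + 1 + u) * lb + (k' + 1 + u') * lb') := by
    have h5 : (k + u * (r + 1) + 1 + u : ℝ) ≤ (r + 2) * (k + 1 + u) := by
      nlinarith [mul_nonneg hr0 hk0, mul_nonneg hr0 hu0]
    have h6 : (k' + u' * (r + 1) + 1 + u' : ℝ) ≤ (r + 2) * (k' + 1 + u') := by
      nlinarith [mul_nonneg hr0 hk0', mul_nonneg hr0 hu0']
    have h7 := mul_le_mul_of_nonneg_right h5 hlb.le
    have h8 := mul_le_mul_of_nonneg_right h6 hlb'.le
    linarith
  have h5 := mul_le_mul_of_nonneg_left h4 (by linarith : (0 : ℝ) ≤ A)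
  have h6 : lb ≤ (k + 1 + u) * lb + (k' + 1 + u') * lb' := by
    have h7 : 0 ≤ (k' + 1 + u') * lb' := by positivity
    have h8 : 1 * lb ≤ (k + 1 + u) * lb := mul_le_mul_of_nonneg_right (by linarith) hlb.le
    linarith
  nlinarith

/-- **Blocks of two numbers.** -/
theorem blocks2 (x y : ℝ) (hxy : JointR x y) (r : ℕ) : ∃ A : ℝ, 1 ≤ A ∧
    ∀ b b' : ℕ, 2 ≤ b → 2 ≤ b' → ∀ (k k' : ℕ) (u v u' v' : ℕ → ℕ), u 0 = 0 → u' 0 = 0 →
      ∀ s s' : ℕ, (∀ i < s, u i ≤ v i ∧ u (i + 1) ≤ v i + 1 ∧ BRel b x r (u i) (v i) k) →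
      (∀ i < s', u' i ≤ v' i ∧ u' (i + 1) ≤ v' i + 1 ∧ BRel b' y r (u' i) (v' i) k') →
      min (u s * Real.log b) (u' s' * Real.log b') ≤
        A ^ (s + s') * ((k + 1) * Real.log b + (k' + 1) * Real.log b') := by
  obtain ⟨A, hA, hblock⟩ := block2 x y hxy r
  refine ⟨3 * A + 1, by linarith, ?_⟩
  intro b b' hb hb' k k' u v u' v' hu0 hu0'
  have hbR : (2 : ℝ) ≤ b := by exact_mod_cast hb
  have hbR' : (2 : ℝ) ≤ b' := by exact_mod_cast hb'
  have hlb : 0 < Real.log b := Real.log_pos (by linarith)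
  have hlb' : 0 < Real.log b' := Real.log_pos (by linarith)
  have hk0 : (0 : ℝ) ≤ k := Nat.cast_nonneg k
  have hk0' : (0 : ℝ) ≤ k' := Nat.cast_nonneg k'
  obtain ⟨K, hK⟩ : ∃ K : ℝ, K = (k + 1) * Real.log b + (k' + 1) * Real.log b' := ⟨_, rfl⟩
  have hKb : Real.log b + Real.log b' ≤ K := by
    rw [hK]
    have h1 : 0 ≤ (k : ℝ) * Real.log b := by positivity
    have h2 : 0 ≤ (k' : ℝ) * Real.log b' := by positivity
    linarith
  have hK0 : 0 < K := by linarith
  rw [← hK]
  suffices H : ∀ n s s' : ℕ, s + s' = n →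
      (∀ i < s, u i ≤ v i ∧ u (i + 1) ≤ v i + 1 ∧ BRel b x r (u i) (v i) k) →
      (∀ i < s', u' i ≤ v' i ∧ u' (i + 1) ≤ v' i + 1 ∧ BRel b' y r (u' i) (v' i) k') →
      min (u s * Real.log b) (u' s' * Real.log b') ≤ (3 * A + 1) ^ n * K from
    fun s s' h h' => H (s + s') s s' rfl h h'
  intro n
  induction n using Nat.strong_induction_on with
  | _ n ih =>
    intro s s' hn h h'
    have hpow : ∀ m : ℕ, 0 ≤ (3 * A + 1) ^ m * K := fun m => by positivity
    rcases Nat.eq_zero_or_pos s with hs | hs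
    · refine (min_le_left _ _).trans ?_
      rw [hs, hu0, Nat.cast_zero, zero_mul]
      exact hpow n
    rcases Nat.eq_zero_or_pos s' with hs' | hs'
    · refine (min_le_right _ _).trans ?_
      rw [hs', hu0', Nat.cast_zero, zero_mul]
      exact hpow n
    obtain ⟨i, rfl⟩ : ∃ i, s = i + 1 := ⟨s - 1, by omega⟩
    obtain ⟨i', rfl⟩ : ∃ i', s' = i' + 1 := ⟨s' - 1, by omega⟩
    obtain ⟨m, rfl⟩ : ∃ m, n = m + 1 := ⟨n - 1, by omega⟩
    obtain ⟨P, hP⟩ : ∃ P : ℝ, P = (3 * A + 1) ^ m * K := ⟨_, rfl⟩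
    have hP0 : 0 ≤ P := by rw [hP]; exact hpow m
    have hKP : K ≤ P := by
      rw [hP]
      exact le_mul_of_one_le_left hK0.le (one_le_pow₀ (by linarith))
    rw [pow_succ]
    have e : (3 * A + 1) ^ m * (3 * A + 1) * K = (3 * A + 1) * P := by rw [hP]; ring
    rw [e]
    have hPle : P ≤ (3 * A + 1) * P := le_mul_of_one_le_left hP0 (by linarith)
    have h1 := ih m (by omega) (i + 1) i' (by omega) h (fun j hj => h' j (by omega))
    have h2 := ih m (by omega) i (i' + 1) (by omega) (fun j hj => h j (by omega)) h'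
    rw [← hP] at h1 h2
    rcases le_or_gt (u (i + 1) * Real.log b) P with h3 | h3
    · exact (min_le_left _ _).trans (h3.trans hPle)
    rcases le_or_gt (u' (i' + 1) * Real.log b') P with h4 | h4
    · exact (min_le_right _ _).trans (h4.trans hPle)
    have h5 : u' i' * Real.log b' ≤ P := by
      rcases min_le_iff.1 h1 with h | h
      · linarith
      · exact h
    have h6 : u i * Real.log b ≤ P := by
      rcases min_le_iff.1 h2 with h | h
      · exact h
      · linarith
    obtain ⟨g1, g2, g3⟩ := h i (by omega)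
    obtain ⟨g1', g2', g3'⟩ := h' i' (by omega)
    have h7 := hblock b b' hb hb' (u i) (v i) k (u' i') (v' i') k' g1 g1' g3 g3'
    have h8 : (k + 1 + u i) * Real.log b + (k' + 1 + u' i') * Real.log b' ≤ 3 * P := by
      have : (k + 1 + u i) * Real.log b + (k' + 1 + u' i') * Real.log b' =
          K + u i * Real.log b + u' i' * Real.log b' := by rw [hK]; ring
      rw [this]
      linarith
    have h9 := mul_le_mul_of_nonneg_left h8 (by linarith : (0 : ℝ) ≤ A)
    have h10 : (u (i + 1) : ℝ) ≤ v i + 1 := by exact_mod_cast g2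
    have h11 : (u' (i' + 1) : ℝ) ≤ v' i' + 1 := by exact_mod_cast g2'
    have h12 := mul_le_mul_of_nonneg_right h10 hlb.le
    have h13 := mul_le_mul_of_nonneg_right h11 hlb'.le
    have h14 : min (u (i + 1) * Real.log b) (u' (i' + 1) * Real.log b') ≤
        min (v i * Real.log b) (v' i' * Real.log b') + (Real.log b + Real.log b') := by
      rcases le_total (v i * Real.log b) (v' i' * Real.log b') with hh | hh
      · rw [min_eq_left hh]
        refine (min_le_left _ _).trans ?_
        linarith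
      · rw [min_eq_right hh]
        refine (min_le_right _ _).trans ?_
        linarith
    linarith

/-- the stretches without errors -/
theorem cover_fs {Q : ℕ} (δ : Fin Q → ℤ → Fin Q) (q₀ : Fin Q) (out : Fin Q → ℤ) (d : ℕ → ℤ)
    (N : ℕ) : ∃ u v : ℕ → ℕ, u 0 = 0 ∧ v (errors δ q₀ out d N) = N ∧
      u (errors δ q₀ out d N + 1) = N ∧
      ∀ i < errors δ q₀ out d N + 1, u i ≤ v i ∧ u (i + 1) ≤ v i + 1 ∧
        ∀ n, u i ≤ n → n < v i → out (run δ q₀ d n) = d (n + 1) := by
  induction N with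
  | zero =>
    refine ⟨fun _ => 0, fun _ => 0, rfl, rfl, rfl, fun i _ => ⟨le_rfl, Nat.zero_le _, fun n _ h => ?_⟩⟩
    exact absurd h (Nat.not_lt_zero n)
  | succ N ih =>
    obtain ⟨u, v, hu0, hvE, huE, hblk⟩ := ih
    obtain ⟨E, hE⟩ : ∃ E : ℕ, E = errors δ q₀ out d N := ⟨_, rfl⟩
    rw [← hE] at hvE huE hblk
    by_cases herr : out (run δ q₀ d N) = d (N + 1)
    · have hE' : errors δ q₀ out d (N + 1) = E := by
        rw [hE]
        unfold errors
        rw [Finset.range_add_one, Finset.filter_insert, if_neg (not_not.2 herr)]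
      rw [hE']
      refine ⟨Function.update u (E + 1) (N + 1), Function.update v E (N + 1), ?_, ?_, ?_, ?_⟩
      · rw [Function.update_of_ne (by omega)]; exact hu0
      · rw [Function.update_self]
      · rw [Function.update_self]
      · intro i hi
        obtain ⟨h1, h2, h3⟩ := hblk i hi
        rcases Nat.lt_succ_iff_lt_or_eq.1 hi with hi' | hi'
        · rw [Function.update_of_ne (by omega), Function.update_of_ne (by omega),
            Function.update_of_ne (by omega)]
          exact ⟨h1, h2, h3⟩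
        · subst hi'
          rw [Function.update_of_ne (by omega), Function.update_self, Function.update_self]
          refine ⟨by omega, by omega, fun n hn1 hn2 => ?_⟩
          rcases Nat.lt_succ_iff_lt_or_eq.1 hn2 with hn3 | hn3
          · exact h3 n hn1 (by omega)
          · rw [hn3]; exact herr
    · have hE' : errors δ q₀ out d (N + 1) = E + 1 := by
        rw [hE]
        unfold errors
        rw [Finset.range_add_one, Finset.filter_insert, if_pos herr, Finset.card_insert_of_notMem]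
        simp
      rw [hE']
      refine ⟨Function.update (Function.update u (E + 1) (N + 1)) (E + 2) (N + 1),
        Function.update v (E + 1) (N + 1), ?_, ?_, ?_, ?_⟩
      · rw [Function.update_of_ne (by omega), Function.update_of_ne (by omega)]; exact hu0
      · rw [Function.update_self]
      · rw [Function.update_self]
      · intro i hi
        rcases Nat.lt_succ_iff_lt_or_eq.1 hi with hi' | hi'
        · obtain ⟨h1, h2, h3⟩ := hblk i hi'
          rcases Nat.lt_succ_iff_lt_or_eq.1 hi' with hi'' | hi''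
          · rw [Function.update_of_ne (by omega), Function.update_of_ne (by omega),
              Function.update_of_ne (by omega), Function.update_of_ne (by omega),
              Function.update_of_ne (by omega)]
            exact ⟨h1, h2, h3⟩
          · subst hi''
            rw [Function.update_of_ne (by omega), Function.update_of_ne (by omega),
              Function.update_of_ne (by omega), Function.update_of_ne (by omega),
              Function.update_self]
            exact ⟨h1, by omega, h3⟩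
        · subst hi'
          rw [Function.update_of_ne (by omega), Function.update_self, Function.update_self,
            Function.update_self]
          exact ⟨le_rfl, by omega, fun n h1 h2 => by omega⟩

lemma blockPoly_coeff (b : ℕ) (x : ℝ) (u n m : ℕ) :
    (blockPoly b x u n).coeff m = if 1 ≤ m ∧ m ≤ n then (digit b x (u + m) : ℚ) else 0 := by
  unfold blockPoly
  rw [finsetSum_coeff]
  simp only [coeff_C_mul_X_pow]
  rw [Finset.sum_ite_eq]
  simp only [mem_Icc]

/-- a periodic stretch satisfies a relation of degree one -/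
theorem brel_periodic (b : ℕ) (x : ℝ) (u v a p Q : ℕ) (hp : 1 ≤ p) (hap : a + p ≤ Q)
    (hper : ∀ i, a ≤ i → u + i + p < v → digit b x (u + i + p + 1) = digit b x (u + i + 1)) :
    BRel b x 1 u v Q := by
  obtain ⟨n, hn⟩ : ∃ n, n = v - u := ⟨_, rfl⟩
  obtain ⟨D, hD⟩ : ∃ D : ℚ[X], D = blockPoly b x u n := ⟨_, rfl⟩
  obtain ⟨F, hF⟩ : ∃ F : ℚ[X], F = (1 - X ^ p) * D := ⟨_, rfl⟩
  obtain ⟨R, hR⟩ : ∃ R : ℚ[X], R = ∑ m ∈ range (a + p + 1), C (F.coeff m) * X ^ m := ⟨_, rfl⟩
  have hRd : R.natDegree ≤ a + p := by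
    rw [hR]
    refine natDegree_sum_le_of_forall_le _ _ fun m hm => ?_
    refine (natDegree_C_mul_X_pow_le _ _).trans ?_
    have := mem_range.1 hm
    omega
  have hRc : ∀ m, R.coeff m = if m < a + p + 1 then F.coeff m else 0 := by
    intro m
    rw [hR, finsetSum_coeff]
    simp only [coeff_C_mul_X_pow]
    rw [Finset.sum_ite_eq]
    simp only [mem_range]
  have hp1 : (1 - X ^ p : ℚ[X]) ≠ 0 := by
    intro h
    have h1 := congrArg (fun f : ℚ[X] => f.coeff 0) h
    simp only [coeff_sub, coeff_one_zero, coeff_X_pow, coeff_zero] at h1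
    rw [if_neg (by omega)] at h1
    norm_num at h1
  refine ⟨![-R, 1 - X ^ p], ?_, ?_, ?_⟩
  · intro h
    exact hp1 (congrFun h 1)
  · intro j
    fin_cases j
    · change (-R).natDegree ≤ Q
      rw [natDegree_neg]
      omega
    · change (1 - X ^ p : ℚ[X]).natDegree ≤ Q
      refine (natDegree_sub_le _ _).trans ?_
      rw [natDegree_one, natDegree_X_pow]
      omega
  · rw [← hn, ← hD, X_pow_dvd_iff]
    intro m hm
    have e : ∑ j : Fin (1 + 1), (![-R, 1 - X ^ p] : Fin 2 → ℚ[X]) j * D ^ (j : ℕ) = F - R := by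
      rw [Fin.sum_univ_two]
      change -R * D ^ 0 + (1 - X ^ p) * D ^ 1 = _
      rw [hF]
      ring
    rw [e, coeff_sub, hRc]
    split_ifs with h1
    · ring
    · rw [sub_zero, hF, sub_mul, one_mul, coeff_sub, coeff_X_pow_mul', if_pos (by omega), hD,
        blockPoly_coeff, blockPoly_coeff, if_pos ⟨by omega, by omega⟩, if_pos ⟨by omega, by omega⟩]
      have h2 := hper (m - p - 1) (by omega) (by omega)
      rw [show u + (m - p - 1) + p + 1 = u + m by omega,
        show u + (m - p - 1) + 1 = u + (m - p) by omega] at h2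
      rw [h2]
      ring

/-- **Two finite-state predictors.** -/
theorem predictors2 (x y : ℝ) (hxy : JointR x y) : ∃ A : ℝ, 1 ≤ A ∧
    ∀ b b' : ℕ, 2 ≤ b → 2 ≤ b' → ∀ (Q Q' : ℕ) (δ : Fin Q → ℤ → Fin Q) (q₀ : Fin Q)
      (out : Fin Q → ℤ) (δ' : Fin Q' → ℤ → Fin Q') (q₀' : Fin Q') (out' : Fin Q' → ℤ) (N N' : ℕ),
      min (N * Real.log b) (N' * Real.log b') ≤
        A ^ (errors δ q₀ out (digit b x) N + errors δ' q₀' out' (digit b' y) N' + 2) *
          ((Q + 1) * Real.log b + (Q' + 1) * Real.log b') := by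
  obtain ⟨A, hA, h⟩ := blocks2 x y hxy 1
  refine ⟨A, hA, fun b b' hb hb' Q Q' δ q₀ out δ' q₀' out' N N' => ?_⟩
  obtain ⟨u, v, hu0, -, huE, hblk⟩ := cover_fs δ q₀ out (digit b x) N
  obtain ⟨u', v', hu0', -, huE', hblk'⟩ := cover_fs δ' q₀' out' (digit b' y) N'
  have h1 := h b b' hb hb' Q Q' u v u' v' hu0 hu0' (errors δ q₀ out (digit b x) N + 1)
    (errors δ' q₀' out' (digit b' y) N' + 1)
    (fun i hi => by
      obtain ⟨h1, h2, h3⟩ := hblk i hi
      obtain ⟨a, p, hp, hap, hper⟩ := periodic_stretch δ q₀ out (digit b x) (u i) (v i) h3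
      exact ⟨h1, h2, brel_periodic b x (u i) (v i) a p Q hp hap hper⟩)
    (fun i hi => by
      obtain ⟨h1, h2, h3⟩ := hblk' i hi
      obtain ⟨a, p, hp, hap, hper⟩ := periodic_stretch δ' q₀' out' (digit b' y) (u' i) (v' i) h3
      exact ⟨h1, h2, brel_periodic b' y (u' i) (v' i) a p Q' hp hap hper⟩)
  rw [huE, huE'] at h1
  have e : errors δ q₀ out (digit b x) N + 1 + (errors δ' q₀' out' (digit b' y) N' + 1) =
      errors δ q₀ out (digit b x) N + errors δ' q₀' out' (digit b' y) N' + 2 := by ring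
  rw [e] at h1
  exact h1

end Pool.Agent.U455.JB
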