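import Mathlib
import Pool.Agent.N646.TT.Nar
import Pool.Agent.U455.TJ

/-!
# Four classes of shifts and narrow progressions of prime pairs

Any four admissible classes of `K` shifts contain two shifts of different classes whose difference `k` is such that
there are arbitrarily long narrow arithmetic progressions of primes `p` with `p + 2 b k` prime.
-/

set_option autoImplicit false

namespace Pool.Agent.U455.AP

open Finset Filter Topology
open Pool.Agent.H947R3.GM (AdmN)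
open Pool.Agent.N646.TT (GoodAP apc)

open Classical in
theorem c4 (b : ℕ) (hb : 1 ≤ b) : ∃ K : ℕ, Pool.Agent.U455.TG.C4 {k : ℕ | GoodAP b (2 * b * k)} (2 * b) K := by
  obtain ⟨K, hK, hpat⟩ := Pool.Agent.Y827.HN.patR 4 1 (by norm_num) (by norm_num)
  refine ⟨K, fun H hH => ?_⟩
  obtain ⟨hinj, hadm⟩ := hH
  by_contra hcon
  push Not at hcon
  obtain ⟨po, hpo⟩ : ∃ po : Fin 4 × Fin K → ℕ, po = fun z => H z.1 z.2 := ⟨_, rfl⟩
  have hpo' : ∀ z, po z = H z.1 z.2 := fun z => by rw [hpo]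
  have hcross' : ∀ z z' : Fin 4 × Fin K, z.1 ≠ z'.1 → po z < po z' →
      ¬ GoodAP b (2 * b * (po z' - po z)) := by
    intro z z' h h'
    rw [hpo', hpo'] at h' ⊢
    exact hcon z.1 z'.1 z.2 z'.2 h h'
  -- the lengths and radii
  have hbad : ∀ w : (Fin 4 × Fin K) × (Fin 4 × Fin K), ∃ l R : ℕ, (w.1.1 ≠ w.2.1 ∧ po w.1 < po w.2) →
      ∀ C : ℕ, ∀ᶠ x : ℕ in atTop, ∀ D : ℕ, ¬ (1 ≤ D ∧ (D : ℝ) ≤ Real.log x ^ C ∧
        (x : ℝ) / Real.log x ^ C ≤ (apc b (2 * b * (po w.2 - po w.1)) l D R x : ℝ)) := by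
    intro w
    by_cases hw : w.1.1 ≠ w.2.1 ∧ po w.1 < po w.2
    · have h2 := hcross' w.1 w.2 hw.1 hw.2
      unfold GoodAP at h2
      push Not at h2
      obtain ⟨l, R, h3⟩ := h2
      refine ⟨l, R, fun _ C => ?_⟩
      have h4 := h3 C
      filter_upwards [h4] with x hx D hD
      exact absurd hD.2.2 (not_le.2 (hx D hD.1 hD.2.1))
    · exact ⟨0, 0, fun h => absurd h hw⟩
  choose lf Rf hlR using hbad
  obtain ⟨l₀, hl₀⟩ : ∃ l₀, l₀ = ∑ w, lf w := ⟨_, rfl⟩
  obtain ⟨s, hs⟩ : ∃ s, s = ∑ w, Rf w + ∑ z, 2 * b * po z := ⟨_, rfl⟩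
  have hlle : ∀ w, lf w ≤ l₀ := fun w => by
    rw [hl₀]
    exact single_le_sum (f := lf) (fun _ _ => Nat.zero_le _) (mem_univ w)
  have hsle : ∀ w z, Rf w + 2 * b * po z ≤ s := fun w z => by
    rw [hs]
    exact Nat.add_le_add (single_le_sum (f := Rf) (fun _ _ => Nat.zero_le _) (mem_univ w))
      (single_le_sum (f := fun z => 2 * b * po z) (fun _ _ => Nat.zero_le _) (mem_univ z))
  obtain ⟨Hf, hHf⟩ : ∃ Hf : Fin 4 → Fin K → ℤ × ℤ, Hf = fun g i => ((1 : ℤ), ((2 * b * po (g, i) : ℕ) : ℤ)) :=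
    ⟨_, rfl⟩
  obtain ⟨U, hU⟩ : ∃ U : Finset (ℤ × ℤ), U = ((Icc (-(s : ℤ)) s).filter
      (fun t => ¬ ((2 * b : ℕ) : ℤ) ∣ t)).image (fun t : ℤ => ((1 : ℤ), t)) := ⟨_, rfl⟩
  obtain ⟨C, hC⟩ := hpat Hf (by
    rintro ⟨g, i⟩ ⟨g', i'⟩ h
    have h1 : Hf g i = Hf g' i' := h
    rw [hHf] at h1
    have h2 : ((2 * b * po (g, i) : ℕ) : ℤ) = ((2 * b * po (g', i') : ℕ) : ℤ) := (Prod.mk.inj h1).2
    have h3 : 2 * b * po (g, i) = 2 * b * po (g', i') := by exact_mod_cast h2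
    have h4 := Nat.eq_of_mul_eq_mul_left (by omega) h3
    rw [hpo', hpo'] at h4
    exact hinj h4) (fun g i => by
    rw [hHf]
    exact ⟨one_pos, isCoprime_one_left⟩) (fun p hp hpK => by
    by_cases hpb : p ∣ 2 * b
    · refine ⟨1, fun g i hd => hp.one_lt.ne' ?_⟩
      rw [hHf] at hd
      have h1 : (p : ℤ) ∣ ((2 * b * po (g, i) : ℕ) : ℤ) := by
        exact_mod_cast hpb.mul_right _
      have h2 : (p : ℤ) ∣ 1 := by
        have h3 := dvd_sub hd h1
        simpa using h3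
      have h4 : p ∣ 1 := by exact_mod_cast h2
      exact Nat.dvd_one.1 h4
    · obtain ⟨n, hn⟩ := hadm p hp hpb
      refine ⟨2 * b * n, fun g i hd => hn g i ?_⟩
      rw [hHf] at hd
      have h1 : (p : ℤ) ∣ ((2 * b : ℕ) : ℤ) * (n + H g i) := by
        have h2 : ((2 * b : ℕ) : ℤ) * (n + H g i) = 1 * (2 * b * n) + ((2 * b * po (g, i) : ℕ) : ℤ) := by
          rw [hpo']
          push_cast
          ring
        rw [h2]
        exact hd
      rcases (Nat.prime_iff_prime_int.1 hp).dvd_or_dvd h1 with h2 | h2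
      · exact absurd (by exact_mod_cast h2) hpb
      · exact h2) U (fun u hu => by
    rw [hU] at hu
    obtain ⟨t, ht, rfl⟩ := mem_image.1 hu
    refine ⟨one_pos, isCoprime_one_left, fun g i h => ?_⟩
    rw [hHf] at h
    have h2 : t = ((2 * b * po (g, i) : ℕ) : ℤ) := (Prod.mk.inj h).2
    apply (mem_filter.1 ht).2
    rw [h2]
    exact_mod_cast dvd_mul_right (2 * b) (po (g, i))) l₀
  have hall : ∀ᶠ x : ℕ in atTop, ∀ w : (Fin 4 × Fin K) × (Fin 4 × Fin K),
      (w.1.1 ≠ w.2.1 ∧ po w.1 < po w.2) →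
      ∀ D : ℕ, ¬ (1 ≤ D ∧ (D : ℝ) ≤ Real.log x ^ C ∧ (x : ℝ) / Real.log x ^ C ≤
        (apc b (2 * b * (po w.2 - po w.1)) (lf w) D (Rf w) x : ℝ)) := by
    rw [eventually_all]
    intro w
    by_cases hw : w.1.1 ≠ w.2.1 ∧ po w.1 < po w.2
    · filter_upwards [hlR w hw C] with x hx _
      exact hx
    · exact Eventually.of_forall fun x h => absurd h hw
  obtain ⟨N, hN1, hN2, hN3⟩ := (hC.and (hall.and (eventually_ge_atTop s))).exists
  obtain ⟨S, cc, hS, hP⟩ := hN1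
  have fin : ∀ z z' : Fin 4 × Fin K, z.1 ∈ S → z'.1 ∈ S → z = (z.1, cc z.1) → z' = (z'.1, cc z'.1) →
      z.1 ≠ z'.1 → po z < po z' → False := by
    intro z z' hg hg' hz hz' hzz hlt
    obtain ⟨D, hD1, hD2, hD3⟩ := hP {Hf z.1 (cc z.1), Hf z'.1 (cc z'.1)} (by
      intro f hf
      rw [mem_insert, mem_singleton] at hf
      rcases hf with rfl | rfl
      · exact mem_image.2 ⟨z.1, hg, rfl⟩
      · exact mem_image.2 ⟨z'.1, hg', rfl⟩)
    apply hN2 (z, z') ⟨hzz, hlt⟩ D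
    refine ⟨hD1, hD2, hD3.trans ?_⟩
    rw [Nat.cast_le]
    unfold Pool.Agent.Y827.HN.cntX apc
    have hpz : 2 * b * po z ≤ s := (Nat.le_add_left _ _).trans (hsle (z, z') z)
    apply card_le_card_of_injOn (fun n : ℕ => n + 2 * b * po z)
    · intro n hn
      obtain ⟨hn1, hn2⟩ := mem_filter.1 (mem_coe.1 hn)
      rw [mem_Icc] at hn1
      refine mem_coe.2 (mem_filter.2 ⟨mem_Icc.2 ⟨by show 1 ≤ n + 2 * b * po z; omega,
        by show n + 2 * b * po z ≤ 2 * N; omega⟩, fun j hj => ?_⟩)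
      obtain ⟨h1, h2⟩ := hn2 j (lt_of_lt_of_le hj (hlle (z, z')))
      have h3 := h1 (Hf z.1 (cc z.1)) (mem_insert_self _ _)
      have h4 := h1 (Hf z'.1 (cc z'.1)) (mem_insert_of_mem (mem_singleton_self _))
      rw [hHf] at h3 h4
      have e3 : ((1 : ℤ) * ((n + j * D : ℕ) : ℤ) + ((2 * b * po (z.1, cc z.1) : ℕ) : ℤ)).toNat =
          n + 2 * b * po z + j * D := by
        rw [← hz, one_mul, ← Nat.cast_add, Int.toNat_natCast]
        ring
      have e4 : ((1 : ℤ) * ((n + j * D : ℕ) : ℤ) + ((2 * b * po (z'.1, cc z'.1) : ℕ) : ℤ)).toNat =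
          n + 2 * b * po z + j * D + 2 * b * (po z' - po z) := by
        rw [← hz', one_mul, ← Nat.cast_add, Int.toNat_natCast]
        have h5 : 2 * b * po z' = 2 * b * po z + 2 * b * (po z' - po z) := by
          rw [← Nat.mul_add, Nat.add_sub_cancel' hlt.le]
        rw [h5]
        ring
      have h3' : (n + 2 * b * po z + j * D).Prime := by
        rw [← e3]
        exact h3
      have h4' : (n + 2 * b * po z + j * D + 2 * b * (po z' - po z)).Prime := by
        rw [← e4]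
        exact h4
      refine ⟨h3', h4', fun q hq hqR => ?_⟩
      by_contra hnd
      have hqR' : |(q : ℤ) - ((n + 2 * b * po z + j * D : ℕ) : ℤ)| ≤ (Rf (z, z') : ℕ) := hqR
      have hnd' : ¬ ((2 * b : ℕ) : ℤ) ∣ (q : ℤ) - ((n + 2 * b * po z + j * D : ℕ) : ℤ) := hnd
      obtain ⟨t, ht⟩ : ∃ t : ℤ, t = (q : ℤ) - ((n + j * D : ℕ) : ℤ) := ⟨_, rfl⟩
      have ht2 : t = ((q : ℤ) - ((n + 2 * b * po z + j * D : ℕ) : ℤ)) + ((2 * b * po z : ℕ) : ℤ) := by
        rw [ht]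
        push_cast
        ring
      have htU : ((1 : ℤ), t) ∈ U := by
        rw [hU]
        refine mem_image.2 ⟨t, mem_filter.2 ⟨?_, ?_⟩, rfl⟩
        · have h6 := hsle (z, z') z
          have h7 : ((Rf (z, z') : ℕ) : ℤ) + ((2 * b * po z : ℕ) : ℤ) ≤ s := by exact_mod_cast h6
          have h8 : (0 : ℤ) ≤ ((2 * b * po z : ℕ) : ℤ) := Int.natCast_nonneg _
          rw [abs_le] at hqR'
          rw [mem_Icc, ht2]
          constructor
          · linarith [hqR'.1]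
          · linarith [hqR'.2]
        · intro h6
          apply hnd'
          have h7 : (q : ℤ) - ((n + 2 * b * po z + j * D : ℕ) : ℤ) = t - ((2 * b * po z : ℕ) : ℤ) := by
            rw [ht2]
            ring
          rw [h7]
          refine dvd_sub h6 ?_
          exact_mod_cast dvd_mul_right (2 * b) (po z)
      have h6 := h2 ((1 : ℤ), t) (mem_union_right _ htU)
      apply h6
      have e5 : ((1 : ℤ) * ((n + j * D : ℕ) : ℤ) + t).toNat = q := by
        rw [ht, one_mul]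
        have : ((n + j * D : ℕ) : ℤ) + ((q : ℤ) - ((n + j * D : ℕ) : ℤ)) = q := by ring
        rw [this, Int.toNat_natCast]
      rw [e5]
      exact hq
    · intro n _ n' _ he
      have he' : n + 2 * b * po z = n' + 2 * b * po z := he
      omega
  obtain ⟨g₁, hg₁, g₂, hg₂, hne⟩ := one_lt_card.1 (by omega : 1 < S.card)
  have hne' : po (g₁, cc g₁) ≠ po (g₂, cc g₂) := by
    intro h
    rw [hpo', hpo'] at h
    have h1 := hinj h
    exact hne (congrArg Prod.fst h1)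
  rcases lt_or_gt_of_ne hne' with h | h
  · exact fin _ _ hg₁ hg₂ rfl rfl hne h
  · exact fin _ _ hg₂ hg₁ rfl rfl hne.symm h

/-- three summands -/
theorem three (b : ℕ) (hb : 1 ≤ b) : Pool.Agent.U455.TJ.Concl {k : ℕ | GoodAP b (2 * b * k)} := by
  obtain ⟨K, hK⟩ := c4 b hb
  exact Pool.Agent.U455.TJ.all (dvd_mul_right 2 b) hK

end Pool.Agent.U455.AP
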