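import Mathlib
import Pool.Agent.W851.Had.Schn

/-!
# Sums of boundedly many elements of a set with density above one quarter along all multiples

Uniform in the set and its range: let `A` contain more than a quarter of `[1, H]` for all `H ≥ C`, and more
than a quarter of the multiples `b k`, `k ≤ H`, for all `b ≤ C` and `H ≥ C₂`, as far as these numbers are at most
`M`. Then all multiples of `6` between `C'` and `M` are sums of at most `h` elements of `A`, where `h` and `C'` depend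
only on `C`, `C₂` and the density.
-/

set_option autoImplicit false

namespace Pool.Agent.U455.BS

open Finset

/-- residues of sums of elements of `F` -/
theorem residues (F : Finset ℕ) (g a : ℕ) (hF : ∀ k : ℤ, (∀ f ∈ F, k ∣ (f : ℤ)) → k ∣ (g : ℤ)) (ha : 0 < a)
    (t : ℕ) (ht : g ∣ t) : ∃ l : List ℕ, (∀ y ∈ l, y ∈ F) ∧ l.sum ≡ t [MOD a] := by
  classical
  have : NeZero a := ⟨ha.ne'⟩
  -- the subgroup of `ℤ`
  obtain ⟨c, hc⟩ : ∃ c : ℤ, AddSubgroup.closure ((fun f : ℕ => (f : ℤ)) '' (F : Set ℕ)) =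
      AddSubgroup.zmultiples c := by
    obtain ⟨c, hc⟩ := Int.subgroup_cyclic (AddSubgroup.closure ((fun f : ℕ => (f : ℤ)) '' (F : Set ℕ)))
    exact ⟨c, by rw [hc, AddSubgroup.zmultiples_eq_closure]⟩
  have h1 : c ∣ (g : ℤ) := hF c fun f hf => by
    have : (f : ℤ) ∈ AddSubgroup.closure ((fun f : ℕ => (f : ℤ)) '' (F : Set ℕ)) :=
      AddSubgroup.subset_closure ⟨f, hf, rfl⟩
    rw [hc, Int.mem_zmultiples_iff] at this
    exact this
  have h2 : (t : ℤ) ∈ AddSubgroup.closure ((fun f : ℕ => (f : ℤ)) '' (F : Set ℕ)) := by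
    rw [hc, Int.mem_zmultiples_iff]
    exact h1.trans (by exact_mod_cast ht)
  -- pass to `ZMod a`
  have h3 : ((t : ℕ) : ZMod a) ∈ AddSubgroup.closure ((fun f : ℕ => (f : ZMod a)) '' (F : Set ℕ)) := by
    have h4 := AddSubgroup.mem_map_of_mem (Int.castAddHom (ZMod a)) h2
    rw [AddMonoidHom.map_closure, ← Set.image_comp] at h4
    simpa using h4
  have h4 : ((t : ℕ) : ZMod a) ∈ AddSubmonoid.closure ((fun f : ℕ => (f : ZMod a)) '' (F : Set ℕ)) := by
    rw [← AddSubgroup.closure_toAddSubmonoid_of_finite]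
    exact h3
  obtain ⟨l, hl1, hl2⟩ := AddSubmonoid.exists_list_of_mem_closure h4
  -- lift the list
  have key : ∀ l : List (ZMod a), (∀ y ∈ l, y ∈ (fun f : ℕ => (f : ZMod a)) '' (F : Set ℕ)) →
      ∃ l' : List ℕ, (∀ y ∈ l', y ∈ F) ∧ ((l'.sum : ℕ) : ZMod a) = l.sum := by
    intro l
    induction l with
    | nil => intro _; exact ⟨[], by simp, by simp⟩
    | cons y l ih =>
      intro h
      obtain ⟨l', h5, h6⟩ := ih fun z hz => h z (List.mem_cons_of_mem _ hz)
      obtain ⟨f, hf, hfy⟩ := h y List.mem_cons_self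
      refine ⟨f :: l', ?_, ?_⟩
      · intro z hz
        rcases List.mem_cons.1 hz with h7 | h7
        · rw [h7]; exact hf
        · exact h5 z h7
      · rw [List.sum_cons, List.sum_cons, Nat.cast_add, h6]
        simp only at hfy
        rw [hfy]
  obtain ⟨l', h5, h6⟩ := key l hl1
  refine ⟨l', h5, ?_⟩
  rw [hl2] at h6
  exact (ZMod.natCast_eq_natCast_iff _ _ _).1 h6

open Classical in
/-- bounded lists for the residues -/
theorem bounded (C : ℕ) : ∃ h₁ : ℕ, ∀ (F : Finset ℕ) (a t : ℕ), F ⊆ Icc 1 C → a ∈ Icc 1 C →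
    (∃ l : List ℕ, (∀ y ∈ l, y ∈ F) ∧ l.sum ≡ t [MOD a]) →
    ∃ l : List ℕ, l.length ≤ h₁ ∧ (∀ y ∈ l, y ∈ F) ∧ l.sum ≡ t [MOD a] := by
  have hex : ∀ x : Finset ℕ × ℕ × ℕ, ∃ n : ℕ,
      (∃ l : List ℕ, (∀ y ∈ l, y ∈ x.1) ∧ l.sum ≡ x.2.2 [MOD x.2.1]) →
      ∃ l : List ℕ, l.length ≤ n ∧ (∀ y ∈ l, y ∈ x.1) ∧ l.sum ≡ x.2.2 [MOD x.2.1] := by
    intro x
    by_cases h : ∃ l : List ℕ, (∀ y ∈ l, y ∈ x.1) ∧ l.sum ≡ x.2.2 [MOD x.2.1]
    · obtain ⟨l, h1, h2⟩ := h
      exact ⟨l.length, fun _ => ⟨l, le_rfl, h1, h2⟩⟩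
    · exact ⟨0, fun h' => absurd h' h⟩
  choose n hn using hex
  refine ⟨((Icc 1 C).powerset ×ˢ (Icc 1 C ×ˢ range (C + 1))).sup n, fun F a t hF ha hl => ?_⟩
  have ha' := mem_Icc.1 ha
  have hmod : t % a ≡ t [MOD a] := Nat.mod_modEq _ _
  obtain ⟨l, h1, h2, h3⟩ := hn (F, a, t % a) (by
    obtain ⟨l, h1, h2⟩ := hl
    exact ⟨l, h1, h2.trans hmod.symm⟩)
  refine ⟨l, h1.trans ?_, h2, h3.trans hmod⟩
  refine le_sup (f := n) ?_
  rw [mem_product, mem_product, mem_powerset, mem_range]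
  exact ⟨hF, ha, by have := Nat.mod_lt t (show 0 < a by omega); simp only; omega⟩

/-- `0` and the quotients -/
def Gq (A : ℕ → Prop) (a k : ℕ) : Prop := A (a * k) ∨ k = 0

open Classical in
theorem main (C C₂ : ℕ) (ρ : ℝ) (hC : 1 ≤ C) (hC₂ : 1 ≤ C₂) (hρ : 1 / 4 < ρ) :
    ∃ h C' : ℕ, ∀ (A : ℕ → Prop) (M : ℕ),
    (∀ H : ℕ, C ≤ H → H ≤ M → ρ * H ≤ (((Icc 1 H).filter A).card : ℝ)) →
    (∀ b H : ℕ, 1 ≤ b → b ≤ C → C₂ ≤ H → b * H ≤ M →
      ρ * H ≤ (((Icc 1 H).filter (fun k => A (b * k))).card : ℝ)) →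
    ∀ t : ℕ, 6 ∣ t → C' ≤ t → t ≤ M →
      ∃ l : List ℕ, l.length ≤ h ∧ (∀ y ∈ l, A y ∧ 1 ≤ y) ∧ l.sum = t := by
  obtain ⟨h₁, hh₁⟩ := bounded C
  set δ : ℝ := min (min ρ (1 / C₂)) 1 with hδ
  have hC₂R : (1 : ℝ) ≤ C₂ := by exact_mod_cast hC₂
  have hδ0 : 0 < δ := by
    rw [hδ]
    exact lt_min (lt_min (by linarith) (by positivity)) one_pos
  obtain ⟨h₀, hh₀⟩ := exists_nat_ge (1 / δ)
  have hδh : 1 ≤ δ * h₀ := by
    rw [div_le_iff₀ hδ0] at hh₀
    linarith
  refine ⟨h₁ + (h₀ + h₀), C + C * h₁, fun A M hA hAb t h6 htC htM => ?_⟩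
  have hCM : C ≤ M := by omega
  -- the small elements
  set F : Finset ℕ := (Icc 1 C).filter A with hF
  have hFc := hA C le_rfl hCM
  have hCR : (1 : ℝ) ≤ C := by exact_mod_cast hC
  have hFpos : 0 < F.card := by
    have : (0 : ℝ) < F.card := by nlinarith
    exact_mod_cast this
  obtain ⟨a, haF⟩ := card_pos.1 hFpos
  obtain ⟨ha1, haA⟩ := mem_filter.1 haF
  have ha1' := mem_Icc.1 ha1
  -- a common divisor is at most `3`
  have h6F : ∀ k : ℤ, (∀ f ∈ F, k ∣ (f : ℤ)) → k ∣ ((6 : ℕ) : ℤ) := by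
    intro k hk
    obtain ⟨n, hn⟩ : ∃ n : ℕ, n = k.natAbs := ⟨_, rfl⟩
    have hk' : ∀ f ∈ F, n ∣ f := fun f hf => by
      have := Int.natAbs_dvd_natAbs.2 (hk f hf)
      rw [hn]
      simpa using this
    have hn0 : 0 < n := Nat.pos_of_dvd_of_pos (hk' a haF) (by omega)
    have hle : F.card ≤ C / n := by
      have h1 : F ⊆ (Icc 1 (C / n)).image (fun j => n * j) := by
        intro f hf
        obtain ⟨j, hj⟩ := hk' f hf
        have h2 := mem_Icc.1 (mem_filter.1 hf).1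
        rw [mem_image]
        refine ⟨j, mem_Icc.2 ⟨?_, ?_⟩, hj.symm⟩
        · rcases Nat.eq_zero_or_pos j with h3 | h3
          · subst h3; omega
          · exact h3
        · rw [Nat.le_div_iff_mul_le hn0, mul_comm, ← hj]
          exact h2.2
      refine (card_le_card h1).trans (card_image_le.trans ?_)
      rw [Nat.card_Icc, Nat.add_sub_cancel]
    have hn4 : n < 4 := by
      by_contra h4
      push Not at h4
      have h5 : C / n ≤ C / 4 := Nat.div_le_div_left h4 (by norm_num)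
      have h6 : ((C / 4 : ℕ) : ℝ) ≤ (C : ℝ) / 4 := Nat.cast_div_le
      have h7 : (F.card : ℝ) ≤ (C : ℝ) / 4 := le_trans (by exact_mod_cast hle.trans h5) h6
      nlinarith
    have hn6 : n ∣ 6 := by interval_cases n <;> decide
    rw [← Int.natAbs_dvd_natAbs, ← hn]
    simpa using hn6
  obtain ⟨l₁, hl1, hl2, hl3⟩ := hh₁ F a t (filter_subset _ _) ha1
    (residues F 6 a h6F (by omega) t h6)
  have hsum : l₁.sum ≤ C * h₁ := by
    have h1 : l₁.sum ≤ l₁.length * C := by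
      have := List.sum_le_card_nsmul l₁ C (fun y hy => (mem_Icc.1 (mem_filter.1 (hl2 y hy)).1).2)
      simpa using this
    have h2 : l₁.length * C ≤ h₁ * C := Nat.mul_le_mul_right _ hl1
    rw [mul_comm C]
    omega
  have hdvd : a ∣ t - l₁.sum := by
    rw [← Nat.modEq_iff_dvd' (by omega)]
    exact hl3
  obtain ⟨n, hn⟩ := hdvd
  -- Schnirelmann
  have hD : ∀ m ≤ n, δ * m ≤ (W851.Had.cnt (Gq A a) m : ℝ) := by
    intro m hm
    rcases Nat.eq_zero_or_pos m with h0 | h0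
    · subst h0; simp
    have ham : a * m ≤ M := by
      have : a * m ≤ a * n := Nat.mul_le_mul_left _ hm
      omega
    have hm0 : (0 : ℝ) < m := by exact_mod_cast h0
    unfold W851.Had.cnt
    rcases Nat.lt_or_ge m C₂ with h2 | h2
    · have h3 : 1 ≤ ((Icc 1 m).filter (Gq A a)).card := by
        rw [Nat.one_le_iff_ne_zero, ← Nat.pos_iff_ne_zero, card_pos]
        refine ⟨1, mem_filter.2 ⟨mem_Icc.2 ⟨le_rfl, h0⟩, Or.inl ?_⟩⟩
        rw [mul_one]
        exact haA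
      have h4 : δ ≤ 1 / C₂ := (min_le_left _ _).trans (min_le_right _ _)
      have h5 : (m : ℝ) ≤ C₂ := by exact_mod_cast h2.le
      calc δ * m ≤ 1 / C₂ * C₂ := by gcongr
        _ = 1 := by field_simp
        _ ≤ _ := by exact_mod_cast h3
    · have h3 := hAb a m ha1'.1 ha1'.2 h2 ham
      have h4 : δ ≤ ρ := (min_le_left _ _).trans (min_le_left _ _)
      have h5 : (((Icc 1 m).filter (fun k => A (a * k))).card : ℝ) ≤
          ((Icc 1 m).filter (Gq A a)).card := by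
        refine Nat.cast_le.2 (card_le_card fun k hk => ?_)
        rw [mem_filter] at hk ⊢
        exact ⟨hk.1, Or.inl hk.2⟩
      refine le_trans ?_ (h3.trans h5)
      nlinarith
  obtain ⟨l, hl, hl', hl''⟩ := W851.Had.schn (Gq A a) n h₀ δ (min_le_right _ _) hδh
    (Or.inr rfl) hD n le_rfl
  refine ⟨l₁ ++ (l.filter (fun y => decide (y ≠ 0))).map (fun y => a * y), ?_, ?_, ?_⟩
  · rw [List.length_append, List.length_map]
    exact Nat.add_le_add hl1 ((List.length_filter_le _ _).trans hl.le)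
  · intro y hy
    rcases List.mem_append.1 hy with h1 | h1
    · have h2 := mem_filter.1 (hl2 y h1)
      exact ⟨h2.2, (mem_Icc.1 h2.1).1⟩
    · rw [List.mem_map] at h1
      obtain ⟨z, hz, rfl⟩ := h1
      rw [List.mem_filter] at hz
      have hz0 : z ≠ 0 := by simpa using hz.2
      rcases hl' z hz.1 with h2 | h2
      · exact ⟨h2, Nat.mul_pos (by omega) (Nat.pos_of_ne_zero hz0)⟩
      · exact absurd h2 hz0
  · have key : ∀ l : List ℕ, ((l.filter (fun y => decide (y ≠ 0))).map (fun y => a * y)).sum = a * l.sum := by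
      intro l
      induction l with
      | nil => rfl
      | cons b l ih =>
        by_cases hb : b = 0
        · subst hb
          simpa using ih
        · rw [List.filter_cons_of_pos (by simpa using hb), List.map_cons, List.sum_cons, ih, List.sum_cons]
          ring
    rw [List.sum_append, key, hl'', ← hn]
    omega

end Pool.Agent.U455.BS
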