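import Mathlib
import Pool.Agent.Y862.Sc
import Pool.Agent.U455.BT

/-!
# Bounded sums of times, at every scale
-/

set_option autoImplicit false

namespace Pool.Agent.U455.EV

open Filter
open Pool.Agent.Y862 (transferEv)

/-- the number of the primes `p ≤ x` whose next prime iterate is the `k`-th one, followed by `R` composite iterates, and
which are not one of the first `R` iterates of a prime -/
noncomputable def num (a : ℕ → ℕ → ℕ) (R k : ℕ) (x : ℝ) : ℕ :=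
  {p : ℕ | (p : ℝ) ≤ x ∧ p.Prime ∧ (a p k).Prime ∧ (∀ l, 0 < l → l < k → ¬ (a p l).Prime) ∧
    ∀ l, 0 < l → l ≤ R → ¬ (a p (k + l)).Prime ∧ ∀ q : ℕ, q.Prime → a q l ≠ p}.ncard

theorem main : ∃ h : ℕ, ∀ (D : ℕ) (e : ℤ) (m : ℕ), 2 ≤ D → e ≠ 0 → IsCoprime e (D : ℤ) → 0 < m →
    (∀ p : ℕ, p.Prime → p ∣ D - 1 → (p : ℤ) ∣ e * m) → ∀ a : ℕ → ℕ → ℕ,
    (∀ p j : ℕ, p.Prime → ((a p j : ℕ) : ℤ) = (Pool.Agent.H447R3.IT.S D e)^[j] (p : ℤ)) → ∀ R : ℕ,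
    ∃ C : ℕ, ∀ t : ℕ, 6 ∣ t → C ≤ t → ∀ η : ℝ, 0 < η → ∀ᶠ x : ℝ in atTop,
    ∃ l : List ℕ, l.length ≤ h ∧ l.sum = t ∧ ∀ k ∈ l, 1 ≤ k ∧ x ^ (1 - η) ≤ (num a R (m * k) x : ℝ) := by
  classical
  obtain ⟨h, C, N₀, hmain⟩ := Pool.Agent.U455.BT.main (1 / 3 - 1 / 24) (by norm_num)
  refine ⟨h, fun D e m hD he hcop hm0 hm a ha R => ?_⟩
  have hT : ∀ d : ℕ, ∃ L : ℕ, 1 ≤ d → ∀ T : ℕ, L ≤ T → ∀ η : ℝ, 0 < η → ∀ᶠ x : ℝ in atTop,
      (1 / 3 - 1 / 24) * (T : ℝ) ≤ ({k : ℕ | 1 ≤ k ∧ k ≤ T ∧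
        x ^ (1 - η) ≤ (num a R (m * d * k) x : ℝ)}.ncard : ℝ) := by
    intro d
    by_cases hd : 1 ≤ d
    · obtain ⟨L, hL⟩ := transferEv D e (m * d) hD he hcop (Nat.mul_pos hm0 hd) (fun p hp hpd => by
        have h1 := hm p hp hpd
        push_cast
        rw [← mul_assoc]
        exact h1.mul_right _) a ha R (1 / 24) (by norm_num)
      exact ⟨L, fun _ => hL⟩
    · exact ⟨0, fun h => absurd h hd⟩
  choose L hL using hT
  obtain ⟨N, hN⟩ : ∃ N, N = N₀ + L 1 + L 2 + L 3 := ⟨_, rfl⟩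
  refine ⟨C * N, fun t h6 ht η hη => ?_⟩
  have hev : ∀ᶠ x : ℝ in atTop, ∀ d ∈ Finset.Icc 1 3, ∀ H ∈ Finset.Icc N t,
      (1 / 3 - 1 / 24) * (H : ℝ) ≤ ({k : ℕ | 1 ≤ k ∧ k ≤ H ∧
        x ^ (1 - η) ≤ (num a R (m * d * k) x : ℝ)}.ncard : ℝ) := by
    rw [Filter.eventually_all_finset]
    intro d hd
    rw [Filter.eventually_all_finset]
    intro H hH
    rw [Finset.mem_Icc] at hd hH
    have hLN : L d ≤ N := by
      have : d = 1 ∨ d = 2 ∨ d = 3 := by omega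
      rcases this with rfl | rfl | rfl <;> omega
    exact hL d hd.1 H (hLN.trans hH.1) η hη
  filter_upwards [hev] with x hx
  obtain ⟨l, hl, hl', hl''⟩ := hmain (fun k => x ^ (1 - η) ≤ (num a R (m * k) x : ℝ)) N t (by omega) (by
    intro d H hd1 hd3 hNH hdH
    have h1 := hx d (Finset.mem_Icc.2 ⟨hd1, hd3⟩) H (Finset.mem_Icc.2 ⟨hNH, by
      exact (Nat.le_mul_of_pos_left _ (by omega)).trans hdH⟩)
    refine h1.trans (le_of_eq ?_)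
    rw [Nat.cast_inj, ← Set.ncard_coe_finset]
    congr 1
    ext k
    simp only [Set.mem_setOf_eq, Finset.coe_filter, Finset.mem_Icc, mul_assoc]
    tauto) t h6 ht le_rfl
  exact ⟨l, hl, hl'', fun k hk => ⟨(hl' k hk).2, (hl' k hk).1⟩⟩

end Pool.Agent.U455.EV
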