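import Mathlib
import Pool.Agent.U455.ASG

/-!
# Vectors of constants of linear forms with values in dense subsets of sifted sets
-/

set_option autoImplicit false
set_option maxHeartbeats 4000000

namespace Pool.Agent.U455.GBD

open Finset Filter Topology
open Pool.Agent.X58.IV (Adm Sift upZ VV_pos VV_le_one fac)
open Pool.Agent.Y843.HS (Pr VV Sv Gd Dp)
open Pool.Agent.Y840.PT (P0)
open Pool.Agent.U455.GVV (bx mem_bx bx_card bo bo_card sum_bx fibreV)

open Classical in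
/-- the primes of `(s, R]` modulo which `x` is in one of the classes `θ c c'` -/
noncomputable def cp (S S' : ℕ → Finset ℕ) (θ : ℕ → ℕ → ℕ → ℤ) (s R : ℕ) (x : ℤ) : Finset ℕ :=
  (Pr s R).filter (fun p => ∃ c ∈ S p, ∃ c' ∈ S' p, (p : ℤ) ∣ x - θ p c c')

lemma mem_cp {S S' : ℕ → Finset ℕ} {θ : ℕ → ℕ → ℕ → ℤ} {s R : ℕ} {x : ℤ} {p : ℕ} :
    p ∈ cp S S' θ s R x ↔ p ∈ Pr s R ∧ ∃ c ∈ S p, ∃ c' ∈ S' p, (p : ℤ) ∣ x - θ p c c' := by
  classical
  unfold cp
  rw [mem_filter]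

/-- the collision weight -/
noncomputable def wt (K : ℕ) (S S' : ℕ → Finset ℕ) (θ : ℕ → ℕ → ℕ → ℤ) (s R : ℕ) (x : ℤ) : ℝ :=
  ∏ p ∈ cp S S' θ s R x, (1 + (K : ℝ) / p)

lemma one_le_wt (K : ℕ) (S S' : ℕ → Finset ℕ) (θ : ℕ → ℕ → ℕ → ℤ) (s R : ℕ) (x : ℤ) : 1 ≤ wt K S S' θ s R x :=
  Pool.Agent.Y843.HS.one_le_prod_fac K _

lemma wt_shift (K : ℕ) (S S' : ℕ → Finset ℕ) (θ : ℕ → ℕ → ℕ → ℤ) (s R : ℕ) (B x : ℤ) :
    wt K S S' θ s R (B + x) = wt K S S' (fun p c c' => θ p c c' - B) s R x := by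
  unfold wt
  have e : cp S S' θ s R (B + x) = cp S S' (fun p c c' => θ p c c' - B) s R x := by
    ext p
    rw [mem_cp, mem_cp]
    have h : ∀ c c', (B + x) - θ p c c' = x - (θ p c c' - B) := fun c c' => by ring
    simp only [h]
  rw [e]

lemma pow_wt_le (K L : ℕ) (S S' : ℕ → Finset ℕ) (θ : ℕ → ℕ → ℕ → ℤ) (s R : ℕ) (x : ℤ) :
    wt K S S' θ s R x ^ L ≤ wt (L * K * (1 + K) ^ L) S S' θ s R x := by
  unfold wt
  rw [← prod_pow]
  apply Finset.prod_le_prod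
  · intro p _
    have := Pool.Agent.Y843.HS.one_le_fac K p
    positivity
  · intro p hp
    rw [mem_cp] at hp
    have hpp := (mem_filter.1 hp.1).2
    exact Pool.Agent.Y843.HS.pow_fac_le K L p hpp.one_lt.le

/-- the mean of the collision weight over an interval of integers -/
theorem mean (l K : ℕ) : ∃ s₀ B₀ X₀ : ℕ, ∀ s R X Y : ℕ, s₀ ≤ s → X₀ ≤ X → R ≤ X → Real.log X ^ B₀ ≤ Y → 1 ≤ Y →
    ∀ (S S' : ℕ → Finset ℕ) (θ : ℕ → ℕ → ℕ → ℤ), (∀ p ∈ Pr s R, (S p).card ≤ l ∧ (S' p).card ≤ l) →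
      ∑ x ∈ Icc 1 Y, wt K S S' θ s R (x : ℤ) ≤ 3 * Y := by
  classical
  obtain ⟨s₀, B₀, X₀, hgav⟩ := Pool.Agent.Y79.HS.gav (l * l + 1) K 1 one_pos
  refine ⟨s₀, B₀, X₀, fun s R X Y hs hX hRX hYB hY S S' θ hS => ?_⟩
  obtain ⟨E, hE⟩ : ∃ E : ℕ → Finset ℕ, E = fun p => insert 0 ((S p ×ˢ S' p).image (fun x => ((θ p x.1 x.2) % (p : ℤ)).toNat)) :=
    ⟨_, rfl⟩
  have hSv : Sv (l * l + 1) s R E := by
    intro p hp
    have hpp := (mem_filter.1 hp).2
    have hp0 : (0 : ℤ) < p := by exact_mod_cast hpp.pos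
    obtain ⟨h1, h2⟩ := hS p hp
    rw [hE]
    constructor
    · refine (card_insert_le _ _).trans ?_
      have h3 : ((S p ×ˢ S' p).image (fun x => ((θ p x.1 x.2) % (p : ℤ)).toNat)).card ≤ l * l := by
        refine card_image_le.trans ?_
        rw [card_product]
        exact Nat.mul_le_mul h1 h2
      omega
    · intro c hc
      rw [mem_insert] at hc
      rcases hc with hc | hc
      · rw [hc]; exact hpp.pos
      · rw [mem_image] at hc
        obtain ⟨x, _, rfl⟩ := hc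
        have h4 := Int.emod_lt_of_pos (θ p x.1 x.2) hp0
        have h5 := Int.emod_nonneg (θ p x.1 x.2) hp0.ne'
        have h6 : ((θ p x.1 x.2) % (p : ℤ)).toNat < p := by
          have : (((θ p x.1 x.2) % (p : ℤ)).toNat : ℤ) < p := by rw [Int.toNat_of_nonneg h5]; exact h4
          exact_mod_cast this
        exact h6
  have hg := hgav s R X (Y + 1) hs hX hRX (by push_cast; linarith) E hSv
  have hY1 : (0 : ℝ) < ((Y + 1 : ℕ) : ℝ) := by positivity
  rw [div_le_iff₀ hY1] at hg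
  have hle : ∀ x : ℕ, wt K S S' θ s R (x : ℤ) ≤ Gd K E s R (x : ℤ) := by
    intro x
    rw [Pool.Agent.Y843.HS.Gd_eq]
    unfold wt
    apply Pool.Agent.Y843.HS.prod_fac_mono
    intro p hp
    rw [mem_cp] at hp
    obtain ⟨hp1, c, hc, c', hc', hd⟩ := hp
    have hpp := (mem_filter.1 hp1).2
    have hp0 : (0 : ℤ) < p := by exact_mod_cast hpp.pos
    unfold Dp
    rw [mem_filter]
    refine ⟨hp1, ((θ p c c') % (p : ℤ)).toNat, ?_, 0, ?_, ?_⟩
    · rw [hE]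
      apply mem_insert_of_mem
      rw [mem_image]
      exact ⟨(c, c'), mem_product.2 ⟨hc, hc'⟩, rfl⟩
    · rw [hE]
      exact mem_insert_self _ _
    · rw [Int.toNat_of_nonneg (Int.emod_nonneg _ hp0.ne')]
      have e : (x : ℤ) - (θ p c c' % (p : ℤ) - ((0 : ℕ) : ℤ)) = ((x : ℤ) - θ p c c') + (p : ℤ) * (θ p c c' / (p : ℤ)) := by
        have := Int.emod_add_mul_ediv (θ p c c') (p : ℤ)
        push_cast
        linarith
      rw [e]
      exact dvd_add hd (dvd_mul_right _ _)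
  have h1 : ∑ x ∈ Icc 1 Y, (Gd K E s R (x : ℤ) - 1) ≤ ∑ h ∈ Ioo (-((Y + 1 : ℕ) : ℤ)) ((Y + 1 : ℕ) : ℤ), (Gd K E s R h - 1) := by
    rw [← Finset.sum_image (s := Icc 1 Y) (g := fun x : ℕ => (x : ℤ)) (f := fun h : ℤ => Gd K E s R h - 1)]
    · apply sum_le_sum_of_subset_of_nonneg
      · intro h hh
        rw [mem_image] at hh
        obtain ⟨x, hx, rfl⟩ := hh
        rw [mem_Icc] at hx
        rw [mem_Ioo]
        push_cast
        constructor <;> omega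
      · intro h _ _
        have := Pool.Agent.Y843.HS.one_le_Gd (Z := E) (s := s) (R := R) K h
        linarith
    · intro x _ y _ hxy
      have : (x : ℤ) = y := hxy
      exact_mod_cast this
  have h2 : ∑ x ∈ Icc 1 Y, (Gd K E s R (x : ℤ) - 1) = ∑ x ∈ Icc 1 Y, Gd K E s R (x : ℤ) - Y := by
    rw [sum_sub_distrib, sum_const, Nat.card_Icc, nsmul_eq_mul, mul_one]
    push_cast [Nat.add_sub_cancel]
    ring
  have hYR : (1 : ℝ) ≤ Y := by exact_mod_cast hY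
  calc ∑ x ∈ Icc 1 Y, wt K S S' θ s R (x : ℤ) ≤ ∑ x ∈ Icc 1 Y, Gd K E s R (x : ℤ) := sum_le_sum fun x _ => hle x
    _ ≤ 3 * Y := by
        push_cast at hg h1
        linarith

/-- an inverse of `n` modulo `p` -/
def iv (p n : ℕ) : ℤ := Nat.gcdA n p

lemma iv_spec {p n : ℕ} (hp : p.Prime) (h : ¬ p ∣ n) : (p : ℤ) ∣ (n : ℤ) * iv p n - 1 := by
  have h1 := Nat.gcd_eq_gcd_ab n p
  have h2 : Nat.gcd n p = 1 := by
    rw [Nat.gcd_comm]
    exact (Nat.Prime.coprime_iff_not_dvd hp).2 h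
  rw [h2] at h1
  unfold iv
  refine ⟨-Nat.gcdB n p, ?_⟩
  push_cast at h1
  linarith

/-- the points -/
def MM {k : ℕ} (d : Fin k → ℕ) (N : Fin k → ℤ) (p : ℕ) : Fin (k + 1) → ℤ := Fin.cons 0 (fun i => -(iv p (d i) * N i))

/-- the slopes of the points -/
def ee {k : ℕ} (d : Fin k → ℕ) (p : ℕ) : Fin (k + 1) → ℤ := Fin.cons 1 (fun i => iv p (d i))

/-- the slopes -/
def sl {k : ℕ} (d : Fin k → ℕ) : Fin (k + 1) → ℤ := Fin.cons 1 (fun i => (d i : ℤ))

/-- the classes of `N j` for a collision -/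
def th {k : ℕ} (d : Fin k → ℕ) (N : Fin k → ℤ) (a : Fin (k + 1)) (j : Fin k) (p c c' : ℕ) : ℤ :=
  c' - d j * (MM d N p a + ee d p a * c)

/-- the pairs of forms -/
def J (k : ℕ) : Finset (Fin (k + 1) × Fin k) := univ.filter (fun x => x.1 ≠ x.2.succ)

open Classical in
/-- the `n ∈ Q 0` such that all `d i * n + N i` are in `Q i.succ` -/
noncomputable def rep {k : ℕ} (Q : Fin (k + 1) → Finset ℕ) (d : Fin k → ℕ) (N : Fin k → ℤ) : Finset ℕ :=
  (Q 0).filter (fun n => ∀ i, ∃ m ∈ Q i.succ, (m : ℤ) = d i * n + N i)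

lemma mem_rep {k : ℕ} {Q : Fin (k + 1) → Finset ℕ} {d : Fin k → ℕ} {N : Fin k → ℤ} {n : ℕ} :
    n ∈ rep Q d N ↔ n ∈ Q 0 ∧ ∀ i, ∃ m ∈ Q i.succ, (m : ℤ) = d i * n + N i := by
  classical
  unfold rep
  rw [mem_filter]

lemma one_sub_sum_le {ι : Type} (s : Finset ι) (x : ι → ℝ) (h : ∀ a ∈ s, 0 ≤ x a ∧ x a ≤ 1) :
    1 - ∑ a ∈ s, x a ≤ ∏ a ∈ s, (1 - x a) := by
  classical
  induction s using Finset.induction_on with
  | empty => simp
  | insert a s ha ih =>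
    rw [sum_insert ha, prod_insert ha]
    have h1 := ih fun b hb => h b (mem_insert_of_mem hb)
    obtain ⟨h2, h3⟩ := h a (mem_insert_self _ _)
    have h4 : 0 ≤ ∑ b ∈ s, x b := sum_nonneg fun b hb => (h b (mem_insert_of_mem hb)).1
    nlinarith

/-- the upper bound sieve for the common arguments -/
theorem upN (l k D₀ : ℕ) (κ : ℝ) (hκ : 0 < κ) : ∃ K s₀ : ℕ, ∀ s : ℕ, s₀ ≤ s → ∃ C : ℝ, 0 < C ∧ ∃ X₀ : ℕ,
    ∀ X : ℕ, X₀ ≤ X → ∀ Z : Fin (k + 1) → ℕ → Finset ℕ, (∀ a, Adm l (Z a)) → ∀ (A : Fin (k + 1) → ℕ)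
      (Q : Fin (k + 1) → Finset ℕ), (∀ a, Q a ⊆ Sift (Z a) κ (A a) X) → ∀ d : Fin k → ℕ, (∀ i, 1 ≤ d i ∧ d i ≤ D₀) →
      ∀ N : Fin k → ℤ, ((rep Q d N).card : ℝ) ≤ C * (X * ∏ a, VV (Z a) 0 ⌊(X : ℝ) ^ κ⌋₊) *
        ∏ x ∈ J k, wt K (Z x.1) (Z x.2.succ) (th d N x.1 x.2) s ⌊(X : ℝ) ^ κ⌋₊ (N x.2) := by
  classical
  obtain ⟨m, hm⟩ : ∃ m, m = (k + 1) * l := ⟨_, rfl⟩
  refine ⟨2 * m, 2 * m + 1 + D₀, fun s hs => ?_⟩
  obtain ⟨C, hC, X₁, hup⟩ := upZ m κ hκ
  obtain ⟨D, hD⟩ : ∃ D : ℕ, D = ∏ p ∈ P0 s, p := ⟨_, rfl⟩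
  have hD1 : 1 ≤ D := by
    rw [hD]
    exact Nat.pos_of_ne_zero (prod_ne_zero_iff.2 fun p hp => (mem_filter.1 hp).2.ne_zero)
  have hD0 : (0 : ℝ) < D := by exact_mod_cast hD1
  obtain ⟨X₂, hX₂⟩ := eventually_atTop.1 (Pool.Agent.Y840.PT.floor_pow hκ s)
  refine ⟨C * D ^ (k + 1), by positivity, max X₁ X₂, fun X hX Z hZ A Q hQ d hd N => ?_⟩
  obtain ⟨R, hR⟩ : ∃ R : ℕ, R = ⌊(X : ℝ) ^ κ⌋₊ := ⟨_, rfl⟩
  have hsR : s ≤ R := by
    obtain ⟨h1, h2, h3⟩ := hX₂ X ((le_max_right _ _).trans hX)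
    rw [hR]
    exact h1
  rw [← hR]
  obtain ⟨M, hM⟩ : ∃ M : ℕ → Fin (k + 1) → ℤ, M = fun p => MM d N p := ⟨_, rfl⟩
  obtain ⟨ε, hε⟩ : ∃ ε : ℕ → Fin (k + 1) → ℤ, ε = fun p => ee d p := ⟨_, rfl⟩
  have hM0 : ∀ p, M p 0 = 0 := fun p => by rw [hM]; rfl
  have hMs : ∀ p (i : Fin k), M p i.succ = -(iv p (d i) * N i) := fun p i => by rw [hM]; rfl
  have he0 : ∀ p, ε p 0 = 1 := fun p => by rw [hε]; rfl
  have hes : ∀ p (i : Fin k), ε p i.succ = iv p (d i) := fun p i => by rw [hε]; rfl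
  have hth : ∀ (a : Fin (k + 1)) (j : Fin k) (p c c' : ℕ), th d N a j p c c' = c' - d j * (M p a + ε p a * c) := by
    intro a j p c c'
    rw [hM, hε]
    rfl
  have hnd : ∀ (p : ℕ), p.Prime → s < p → ∀ i, ¬ p ∣ d i := by
    intro p hp hps i hdvd
    have h1 := Nat.le_of_dvd (by have := (hd i).1; omega) hdvd
    have h2 := (hd i).2
    omega
  have hinv : ∀ (p : ℕ), p.Prime → s < p → ∀ i, (p : ℤ) ∣ (d i : ℤ) * iv p (d i) - 1 :=
    fun p hp hps i => iv_spec hp (hnd p hp hps i)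
  -- the classes
  obtain ⟨Ω, hΩ⟩ : ∃ Ω : ℕ → Finset ℕ, Ω = fun p => ((univ : Finset (Fin (k + 1))).sigma (fun a => Z a p)).image
      (fun x => ((M p x.1 + ε p x.1 * x.2) % (p : ℤ)).toNat) := ⟨_, rfl⟩
  have hΩc : ∀ p, (((univ : Finset (Fin (k + 1))).sigma (fun a => Z a p)).card) = ∑ a, (Z a p).card := by
    intro p
    rw [card_sigma]
  have hsum : ∀ p, p.Prime → ∑ a, (Z a p).card ≤ m := by
    intro p hp
    calc ∑ a, (Z a p).card ≤ ∑ _a : Fin (k + 1), l := sum_le_sum fun a _ => (hZ a p hp).1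
      _ = m := by rw [hm]; simp
  have hΩle : ∀ p, p.Prime → (Ω p).card ≤ m := by
    intro p hp
    rw [hΩ]
    refine card_image_le.trans ?_
    rw [hΩc]
    exact hsum p hp
  obtain ⟨Z', hZ'⟩ : ∃ Z' : ℕ → Finset ℕ, Z' = fun p => if p ≤ s then Z 0 p else Ω p := ⟨_, rfl⟩
  have hZ1 : ∀ p, p ≤ s → Z' p = Z 0 p := fun p hp => by rw [hZ']; simp only [hp, if_true]
  have hZ2 : ∀ p, ¬ p ≤ s → Z' p = Ω p := fun p hp => by rw [hZ']; simp only [hp, if_false]
  have hlt : ∀ (p : ℕ) (z : ℤ), 0 < p → (z % (p : ℤ)).toNat < p := by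
    intro p z hp
    have hp0 : (0 : ℤ) < p := by exact_mod_cast hp
    have h4 := Int.emod_lt_of_pos z hp0
    have h5 := Int.emod_nonneg z hp0.ne'
    have : ((z % (p : ℤ)).toNat : ℤ) < p := by rw [Int.toNat_of_nonneg h5]; exact h4
    exact_mod_cast this
  have hl : l ≤ m := by rw [hm]; exact Nat.le_mul_of_pos_left _ (by omega)
  have hAdm : Adm m Z' := by
    intro p hp
    by_cases hps : p ≤ s
    · rw [hZ1 p hps]
      obtain ⟨h1, h2, h3⟩ := hZ 0 p hp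
      exact ⟨h1.trans hl, h2, h3⟩
    · rw [hZ2 p hps]
      have h1 := hΩle p hp
      refine ⟨h1, by omega, fun c hc => ?_⟩
      rw [hΩ, mem_image] at hc
      obtain ⟨x, _, rfl⟩ := hc
      exact hlt p _ hp.pos
  have h1 := hup X (A 0) ((le_max_left _ _).trans hX) Z' hAdm (rep Q d N) (by
    intro n hn
    rw [mem_rep] at hn
    have h2 := hQ 0 hn.1
    unfold Sift at h2
    exact (mem_filter.1 h2).1) (by
    intro n hn p hp hpX hmem
    rw [mem_rep] at hn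
    have hp0 : (0 : ℤ) < p := by exact_mod_cast hp.pos
    by_cases hps : p ≤ s
    · rw [hZ1 p hps] at hmem
      have h2 := hQ 0 hn.1
      unfold Sift at h2
      exact (mem_filter.1 h2).2 p hp hpX hmem
    · rw [hZ2 p hps, hΩ, mem_image] at hmem
      obtain ⟨⟨a, c⟩, hx, hxe⟩ := hmem
      rw [mem_sigma] at hx
      have hc : c ∈ Z a p := hx.2
      have hcp : c < p := (hZ a p hp).2.2 c hc
      have hxe' : ((M p a + ε p a * c) % (p : ℤ)).toNat = n % p := hxe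
      have h3 : (M p a + ε p a * (c : ℤ)) % (p : ℤ) = (n : ℤ) % (p : ℤ) := by
        have h4 : (((M p a + ε p a * c) % (p : ℤ)).toNat : ℤ) = ((n % p : ℕ) : ℤ) := by rw [hxe']
        rw [Int.toNat_of_nonneg (Int.emod_nonneg _ hp0.ne')] at h4
        rw [h4]
        push_cast
        rfl
      rcases Fin.eq_zero_or_eq_succ a with rfl | ⟨i, rfl⟩
      · rw [hM0, he0, zero_add, one_mul] at h3
        have h5 : c % p = n % p := by exact_mod_cast h3
        rw [Nat.mod_eq_of_lt hcp] at h5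
        have h2 := hQ 0 hn.1
        unfold Sift at h2
        exact (mem_filter.1 h2).2 p hp hpX (by rw [← h5]; exact hc)
      · rw [hMs, hes] at h3
        obtain ⟨m', hm', hnm⟩ := hn.2 i
        have h6 : (p : ℤ) ∣ (-(iv p (d i) * N i) + iv p (d i) * (c : ℤ)) - n := Int.ModEq.dvd (Int.ModEq.symm h3)
        have hv := hinv p hp (by omega) i
        have h7 : (m' : ℤ) - c = ((d i : ℤ) * iv p (d i) - 1) * ((c : ℤ) - N i) -
            (d i : ℤ) * ((-(iv p (d i) * N i) + iv p (d i) * (c : ℤ)) - n) := by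
          rw [hnm]
          ring
        have h7' : (p : ℤ) ∣ (m' : ℤ) - c := by
          rw [h7]
          exact dvd_sub (dvd_mul_of_dvd_left hv _) (dvd_mul_of_dvd_right h6 _)
        have h8 : (c : ℤ) ≡ (m' : ℤ) [ZMOD (p : ℤ)] := Int.modEq_iff_dvd.2 h7'
        have h9 : c % p = m' % p := by
          have := h8
          unfold Int.ModEq at this
          exact_mod_cast this
        rw [Nat.mod_eq_of_lt hcp] at h9
        have h2 := hQ i.succ hm'
        unfold Sift at h2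
        exact (mem_filter.1 h2).2 p hp hpX (by rw [← h9]; exact hc))
  rw [← hR] at h1
  -- the products
  obtain ⟨U, hU⟩ : ∃ U : Finset ℕ, U = (J k).biUnion (fun x => cp (Z x.1) (Z x.2.succ)
    (th d N x.1 x.2) s R (N x.2)) := ⟨_, rfl⟩
  have hinj : ∀ p ∈ Pr s R, p ∉ U → (Ω p).card = ∑ a, (Z a p).card := by
    intro p hp hpU
    have hpp := (mem_filter.1 hp).2
    have hps : s < p := by
      have := (mem_filter.1 hp).1
      rw [mem_Ioc] at this
      exact this.1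
    have hp0 : (0 : ℤ) < p := by exact_mod_cast hpp.pos
    have hv := hinv p hpp hps
    rw [hΩ]
    show (image _ _).card = _
    rw [card_image_of_injOn, hΩc]
    rintro ⟨a, c⟩ hx ⟨b, c'⟩ hy hxy
    rw [mem_coe, mem_sigma] at hx hy
    have hc : c ∈ Z a p := hx.2
    have hc' : c' ∈ Z b p := hy.2
    have h2 : ((M p a + ε p a * (c : ℤ)) % (p : ℤ)).toNat = ((M p b + ε p b * (c' : ℤ)) % (p : ℤ)).toNat := hxy
    have h3 : (M p a + ε p a * (c : ℤ)) % (p : ℤ) = (M p b + ε p b * (c' : ℤ)) % (p : ℤ) := by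
      have h4 : (((M p a + ε p a * (c : ℤ)) % (p : ℤ)).toNat : ℤ) = (((M p b + ε p b * (c' : ℤ)) % (p : ℤ)).toNat : ℤ) := by
        rw [h2]
      rwa [Int.toNat_of_nonneg (Int.emod_nonneg _ hp0.ne'), Int.toNat_of_nonneg (Int.emod_nonneg _ hp0.ne')] at h4
    have h5 : (p : ℤ) ∣ (M p b + ε p b * (c' : ℤ)) - (M p a + ε p a * (c : ℤ)) := Int.ModEq.dvd h3
    have hcp : c < p := (hZ a p hpp).2.2 c hc
    have hcp' : c' < p := (hZ b p hpp).2.2 c' hc'
    by_cases hab : a = b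
    · subst hab
      have h6 : (p : ℤ) ∣ (c' : ℤ) - c := by
        rcases Fin.eq_zero_or_eq_succ a with ha | ⟨i, ha⟩
        · rw [ha, he0] at h5
          have e : (M p 0 + 1 * (c' : ℤ)) - (M p 0 + 1 * (c : ℤ)) = (c' : ℤ) - c := by ring
          rwa [e] at h5
        · rw [ha, hes] at h5
          have e : (c' : ℤ) - c = (d i : ℤ) * ((M p i.succ + iv p (d i) * (c' : ℤ)) - (M p i.succ + iv p (d i) * (c : ℤ))) -
              ((d i : ℤ) * iv p (d i) - 1) * ((c' : ℤ) - c) := by ring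
          rw [e]
          exact dvd_sub (dvd_mul_of_dvd_right h5 _) (dvd_mul_of_dvd_left (hv i) _)
      have h7 : (c : ℤ) ≡ (c' : ℤ) [ZMOD (p : ℤ)] := Int.modEq_iff_dvd.2 h6
      have h8 : c % p = c' % p := by
        have := h7
        unfold Int.ModEq at this
        exact_mod_cast this
      rw [Nat.mod_eq_of_lt hcp, Nat.mod_eq_of_lt hcp'] at h8
      rw [h8]
    · exfalso
      apply hpU
      rw [hU, mem_biUnion]
      rcases Fin.eq_zero_or_eq_succ b with hb | ⟨j, hb⟩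
      · subst hb
        rcases Fin.eq_zero_or_eq_succ a with ha | ⟨i, ha⟩
        · exact absurd ha hab
        · subst ha
          refine ⟨((0 : Fin (k + 1)), i), ?_, ?_⟩
          · unfold J
            rw [mem_filter]
            exact ⟨mem_univ _, fun h => hab h.symm⟩
          · rw [mem_cp]
            refine ⟨hp, c', hc', c, hc, ?_⟩
            rw [hMs, hes] at h5
            show (p : ℤ) ∣ N i - th d N 0 i p c' c
            rw [hth]
            have e : N i - ((c : ℤ) - d i * (M p 0 + ε p 0 * (c' : ℤ))) =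
                (d i : ℤ) * ((M p 0 + ε p 0 * (c' : ℤ)) - (-(iv p (d i) * N i) + iv p (d i) * (c : ℤ))) +
                ((d i : ℤ) * iv p (d i) - 1) * ((c : ℤ) - N i) := by
              ring
            rw [e]
            exact dvd_add (dvd_mul_of_dvd_right h5 _) (dvd_mul_of_dvd_left (hv i) _)
      · subst hb
        refine ⟨(a, j), ?_, ?_⟩
        · unfold J
          rw [mem_filter]
          exact ⟨mem_univ _, hab⟩
        · rw [mem_cp]
          refine ⟨hp, c, hc, c', hc', ?_⟩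
          rw [hMs, hes] at h5
          show (p : ℤ) ∣ N j - th d N a j p c c'
          rw [hth]
          have e : N j - ((c' : ℤ) - d j * (M p a + ε p a * (c : ℤ))) =
              -((d j : ℤ) * ((-(iv p (d j) * N j) + iv p (d j) * (c' : ℤ)) - (M p a + ε p a * (c : ℤ)))) +
              ((d j : ℤ) * iv p (d j) - 1) * ((c' : ℤ) - N j) := by
            ring
          rw [e]
          exact dvd_add ((dvd_neg).2 (dvd_mul_of_dvd_right h5 _)) (dvd_mul_of_dvd_left (hv j) _)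
  have hUs : U ⊆ Pr s R := by
    rw [hU]
    intro p hp
    rw [mem_biUnion] at hp
    obtain ⟨x, _, hx⟩ := hp
    exact (mem_cp.1 hx).1
  have hfac : ∀ p ∈ Pr s R, 1 - ((Ω p).card : ℝ) / p ≤
      (∏ a, (1 - ((Z a p).card : ℝ) / p)) * (if p ∈ U then (1 + ((2 * m : ℕ) : ℝ) / p) else 1) := by
    intro p hp
    have hpp := (mem_filter.1 hp).2
    have hps : s < p := by
      have := (mem_filter.1 hp).1
      rw [mem_Ioc] at this
      exact this.1
    have hp0 : (0 : ℝ) < p := by exact_mod_cast hpp.pos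
    have hx : ∀ a ∈ (univ : Finset (Fin (k + 1))), 0 ≤ ((Z a p).card : ℝ) / p ∧ ((Z a p).card : ℝ) / p ≤ 1 := by
      intro a _
      refine ⟨by positivity, ?_⟩
      rw [div_le_one hp0]
      exact_mod_cast (hZ a p hpp).2.1.le
    have hb := one_sub_sum_le univ (fun a => ((Z a p).card : ℝ) / p) hx
    rw [← sum_div] at hb
    by_cases hpU : p ∈ U
    · rw [if_pos hpU]
      obtain ⟨y, hy⟩ : ∃ y : ℝ, y = (m : ℝ) / p := ⟨_, rfl⟩
      have hy0 : 0 ≤ y := by rw [hy]; positivity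
      have hy1 : y ≤ 1 / 2 := by
        rw [hy, div_le_div_iff₀ hp0 two_pos]
        have : m * 2 ≤ 1 * p := by omega
        exact_mod_cast this
      have h2 : (∑ a, ((Z a p).card : ℝ)) / p ≤ y := by
        rw [hy]
        apply div_le_div_of_nonneg_right _ hp0.le
        exact_mod_cast hsum p hpp
      have h3 : 1 - y ≤ ∏ a, (1 - ((Z a p).card : ℝ) / p) := by linarith
      have h4 : ((2 * m : ℕ) : ℝ) / p = 2 * y := by rw [hy]; push_cast; ring
      rw [h4]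
      have h5 : (0 : ℝ) ≤ ((Ω p).card : ℝ) / p := by positivity
      nlinarith
    · rw [if_neg hpU, mul_one, hinj p hp hpU]
      push_cast
      exact hb
  have hfac0 : ∀ p ∈ Pr s R, 0 ≤ 1 - ((Ω p).card : ℝ) / p := by
    intro p hp
    have hpp := (mem_filter.1 hp).2
    have hps : s < p := by
      have := (mem_filter.1 hp).1
      rw [mem_Ioc] at this
      exact this.1
    have hp0 : (0 : ℝ) < p := by exact_mod_cast hpp.pos
    rw [sub_nonneg, div_le_one hp0]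
    have := hΩle p hpp
    exact_mod_cast (by omega : (Ω p).card ≤ p)
  have hprod : ∏ p ∈ Pr s R, (1 - ((Ω p).card : ℝ) / p) ≤
      (∏ a, VV (Z a) s R) * ∏ x ∈ J k, wt (2 * m) (Z x.1) (Z x.2.succ) (th d N x.1 x.2) s R (N x.2) := by
    refine (Finset.prod_le_prod hfac0 hfac).trans ?_
    rw [prod_mul_distrib, Finset.prod_comm]
    have e1 : ∏ p ∈ Pr s R, (if p ∈ U then (1 + ((2 * m : ℕ) : ℝ) / p) else 1) = ∏ p ∈ U, (1 + ((2 * m : ℕ) : ℝ) / p) := by
      rw [← prod_filter]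
      apply prod_congr _ (fun _ _ => rfl)
      ext p
      rw [mem_filter]
      exact ⟨fun h => h.2, fun h => ⟨hUs h, h⟩⟩
    rw [e1]
    apply mul_le_mul_of_nonneg_left _ (prod_nonneg fun a _ => (VV_pos (hZ a) s R).le)
    rw [hU]
    exact Pool.Agent.Y843.HS.prod_biUnion_le (2 * m) (J k) _
  obtain ⟨w, hw⟩ : ∃ w : ℝ, w = ∏ x ∈ J k, wt (2 * m) (Z x.1) (Z x.2.succ) (th d N x.1 x.2) s R (N x.2) := ⟨_, rfl⟩
  have hw1 : 1 ≤ w := by
    rw [hw]
    calc (1 : ℝ) = ∏ x ∈ J k, (1 : ℝ) := by rw [prod_const_one]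
      _ ≤ _ := Finset.prod_le_prod (fun _ _ => zero_le_one) (fun x _ => one_le_wt _ _ _ _ _ _ _)
  rw [← hw] at hprod
  rw [← hw]
  have e1 : VV Z' 0 R = VV (Z 0) 0 s * ∏ p ∈ Pr s R, (1 - ((Ω p).card : ℝ) / p) := by
    rw [Pool.Agent.X58.IV.VV_split Z' (Nat.zero_le s) hsR]
    congr 1
    · unfold VV
      apply prod_congr rfl
      intro p hp
      unfold Pr at hp
      rw [mem_filter, mem_Ioc] at hp
      rw [hZ1 p hp.1.2]
    · unfold VV
      apply prod_congr rfl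
      intro p hp
      unfold Pr at hp
      rw [mem_filter, mem_Ioc] at hp
      rw [hZ2 p (by omega)]
  have e2 : ∏ a, VV (Z a) s R ≤ D ^ (k + 1) * ∏ a, VV (Z a) 0 R := by
    calc ∏ a, VV (Z a) s R ≤ ∏ a : Fin (k + 1), (D * VV (Z a) 0 R) := by
          apply Finset.prod_le_prod
          · intro a _
            exact (VV_pos (hZ a) s R).le
          · intro a _
            rw [Pool.Agent.X58.IV.VV_split (Z a) (Nat.zero_le s) hsR]
            have h5 : 1 / (D : ℝ) ≤ VV (Z a) 0 s := by rw [hD]; exact Pool.Agent.U455.ASZ.VV_small (hZ a) s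
            have hv1 := VV_pos (hZ a) s R
            calc VV (Z a) s R = D * (1 / D * VV (Z a) s R) := by field_simp
              _ ≤ _ := by gcongr
      _ = _ := by rw [prod_mul_distrib, prod_const, card_univ, Fintype.card_fin]
  have hv0 : 0 < VV (Z 0) 0 s := VV_pos (hZ 0) 0 s
  have hP0 : 0 ≤ ∏ a, VV (Z a) s R := prod_nonneg fun a _ => (VV_pos (hZ a) s R).le
  calc ((rep Q d N).card : ℝ) ≤ C * X * VV Z' 0 R := h1
    _ = C * X * (VV (Z 0) 0 s * ∏ p ∈ Pr s R, (1 - ((Ω p).card : ℝ) / p)) := by rw [e1]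
    _ ≤ C * X * (1 * ((∏ a, VV (Z a) s R) * w)) := by
        apply mul_le_mul_of_nonneg_left _ (by positivity)
        calc VV (Z 0) 0 s * ∏ p ∈ Pr s R, (1 - ((Ω p).card : ℝ) / p)
            ≤ VV (Z 0) 0 s * ((∏ a, VV (Z a) s R) * w) := mul_le_mul_of_nonneg_left hprod hv0.le
          _ ≤ 1 * ((∏ a, VV (Z a) s R) * w) := mul_le_mul_of_nonneg_right (VV_le_one (hZ 0) 0 s) (by positivity)
    _ ≤ C * X * (1 * ((D ^ (k + 1) * ∏ a, VV (Z a) 0 R) * w)) := by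
        gcongr
    _ = _ := by ring

lemma J_pos {k : ℕ} (hk : 1 ≤ k) : 0 < (J k).card := by
  rw [card_pos]
  refine ⟨((0 : Fin (k + 1)), (⟨0, by omega⟩ : Fin k)), ?_⟩
  unfold J
  rw [mem_filter]
  exact ⟨mem_univ _, fun h => Fin.succ_ne_zero _ h.symm⟩

/-- second moment of the weights over the box -/
theorem mom (l k K : ℕ) (hk : 1 ≤ k) : ∃ s₀ B₀ X₀ : ℕ, ∃ C₃ : ℝ, 0 < C₃ ∧ ∀ s R X Y : ℕ, s₀ ≤ s → X₀ ≤ X → R ≤ X →
    Real.log X ^ B₀ ≤ Y → 1 ≤ Y → ∀ Z : Fin (k + 1) → ℕ → Finset ℕ, (∀ a, Adm l (Z a)) → ∀ (d : Fin k → ℕ) (B : Fin k → ℤ),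
      ∑ g ∈ bx k 0 Y, (∏ x ∈ J k, wt K (Z x.1) (Z x.2.succ)
        (th d (fun i => B i + (g i : ℤ)) x.1 x.2) s R (B x.2 + (g x.2 : ℤ))) ^ 2 ≤
        C₃ * (Y : ℝ) ^ k := by
  classical
  obtain ⟨n, hn⟩ : ∃ n : ℕ, n = (J k).card := ⟨_, rfl⟩
  have hn1 : 0 < n := by rw [hn]; exact J_pos hk
  obtain ⟨K', hK'⟩ : ∃ K' : ℕ, K' = (2 * n) * K * (1 + K) ^ (2 * n) := ⟨_, rfl⟩
  obtain ⟨s₀, B₀, X₀, hmean⟩ := mean l K'
  refine ⟨s₀, B₀, X₀, n * 3, by positivity, fun s R X Y hs hX hRX hYB hY Z hZ d B => ?_⟩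
  obtain ⟨φ, hφ⟩ : ∃ φ : Fin (k + 1) × Fin k → (Fin k → ℕ) → ℝ, ∀ x g, φ x g = wt K' (Z x.1) (Z x.2.succ)
        (th d (fun i => B i + (g i : ℤ)) x.1 x.2) s R (B x.2 + (g x.2 : ℤ)) :=
    ⟨_, fun x g => rfl⟩
  have hφ0 : ∀ x g, 0 ≤ φ x g := fun x g => by
    rw [hφ]
    exact zero_le_one.trans (one_le_wt _ _ _ _ _ _ _)
  have hpt : ∀ g ∈ bx k 0 Y, (∏ x ∈ J k, wt K (Z x.1) (Z x.2.succ)
        (th d (fun i => B i + (g i : ℤ)) x.1 x.2) s R (B x.2 + (g x.2 : ℤ))) ^ 2 ≤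
        ∑ x ∈ J k, φ x g := by
    intro g _
    rw [← prod_pow]
    refine (Pool.Agent.TH891.SG.prod_le_sum_pow _ (card_pos.1 (J_pos hk)) _ ?_).trans ?_
    · intro x _
      exact pow_nonneg (zero_le_one.trans (one_le_wt _ _ _ _ _ _ _)) 2
    · apply sum_le_sum
      intro x _
      rw [← hn, ← pow_mul, hφ, hK']
      exact pow_wt_le K (2 * n) _ _ _ _ _ _
  refine (sum_le_sum hpt).trans ?_
  rw [sum_comm]
  have hYR : (1 : ℝ) ≤ Y := by exact_mod_cast hY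
  calc ∑ x ∈ J k, ∑ g ∈ bx k 0 Y, φ x g ≤ ∑ x ∈ J k, 3 * (Y : ℝ) ^ k := by
        apply sum_le_sum
        intro x hx
        have hxne : x.1 ≠ x.2.succ := by
          unfold J at hx
          exact (mem_filter.1 hx).2
        refine (sum_bx x.2 (φ x) (hφ0 x)).trans ?_
        have hu : ∀ u ∈ bo k 0 Y x.2, ∑ v ∈ Icc (0 + 1) Y, φ x (Function.update u x.2 v) ≤ 3 * Y := by
          intro u _
          have h1 := hmean s R X Y hs hX hRX hYB hY (Z x.1) (Z x.2.succ)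
            (fun p c c' => th d (fun i => B i + (u i : ℤ)) x.1 x.2 p c c' - B x.2)
            (fun p hp => ⟨(hZ _ p (mem_filter.1 hp).2).1, (hZ _ p (mem_filter.1 hp).2).1⟩)
          refine le_trans (le_of_eq ?_) h1
          apply sum_congr rfl
          intro v _
          have e0 : th d (fun i => B i + (Function.update u x.2 v i : ℤ)) x.1 x.2 =
              th d (fun i => B i + (u i : ℤ)) x.1 x.2 := by
            funext p c c'
            unfold th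
            have e1 : MM d (fun i => B i + (Function.update u x.2 v i : ℤ)) p x.1 =
                MM d (fun i => B i + (u i : ℤ)) p x.1 := by
              rcases Fin.eq_zero_or_eq_succ x.1 with h | ⟨i, h⟩
              · rw [h]
                rfl
              · rw [h]
                show -(iv p (d i) * (B i + (Function.update u x.2 v i : ℤ))) = -(iv p (d i) * (B i + (u i : ℤ)))
                have hi : i ≠ x.2 := by
                  intro h'
                  apply hxne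
                  rw [h, h']
                rw [Function.update_of_ne hi]
            rw [e1]
          rw [hφ, e0, Function.update_self]
          exact wt_shift K' _ _ _ s R (B x.2) (v : ℤ)
        calc ∑ u ∈ bo k 0 Y x.2, ∑ v ∈ Icc (0 + 1) Y, φ x (Function.update u x.2 v) ≤ ∑ u ∈ bo k 0 Y x.2, 3 * (Y : ℝ) :=
              sum_le_sum hu
          _ = ((bo k 0 Y x.2).card : ℝ) * (3 * Y) := by rw [sum_const, nsmul_eq_mul]
          _ ≤ (Y : ℝ) ^ (k - 1) * (3 * Y) := by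
              apply mul_le_mul_of_nonneg_right _ (by positivity)
              exact_mod_cast bo_card k 0 Y x.2
          _ = 3 * (Y : ℝ) ^ k := by
              obtain ⟨k', rfl⟩ : ∃ k', k = k' + 1 := ⟨k - 1, by omega⟩
              rw [Nat.add_sub_cancel, pow_succ]
              ring
    _ = n * 3 * (Y : ℝ) ^ k := by rw [sum_const, nsmul_eq_mul, ← hn]; ring

/-- the lower end of the box of the constants -/
def BB {k : ℕ} (A : Fin (k + 1) → ℕ) (X : ℕ) (d : Fin k → ℕ) (i : Fin k) : ℤ :=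
  (A i.succ : ℤ) - d i * (A 0 + X)

/-- the total number of the common arguments -/
lemma total {k : ℕ} (D₀ : ℕ) (Q : Fin (k + 1) → Finset ℕ) (A : Fin (k + 1) → ℕ) (X : ℕ)
    (hQ : ∀ a, Q a ⊆ Ioc (A a) (A a + X)) (d : Fin k → ℕ) (hd : ∀ i, 1 ≤ d i ∧ d i ≤ D₀) :
    ∏ a, ((Q a).card : ℝ) ≤ ∑ g ∈ bx k 0 ((D₀ + 1) * X), ((rep Q d (fun i => BB A X d i + (g i : ℤ))).card : ℝ) := by
  classical
  have key : ∀ (n : ℕ) (i : Fin k) (m : ℕ), n ∈ Q 0 → m ∈ Q i.succ →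
      1 ≤ (m : ℤ) - d i * n - BB A X d i ∧ (m : ℤ) - d i * n - BB A X d i ≤ ((D₀ + 1) * X : ℕ) := by
    intro n i m hn hm
    have h2 := mem_Ioc.1 (hQ 0 hn)
    have h3 := mem_Ioc.1 (hQ i.succ hm)
    obtain ⟨hd1, hd2⟩ := hd i
    unfold BB
    have g1 : (A 0 : ℤ) + 1 ≤ n := by exact_mod_cast h2.1
    have g2 : (n : ℤ) ≤ A 0 + X := by exact_mod_cast h2.2
    have g3 : (A i.succ : ℤ) + 1 ≤ m := by exact_mod_cast h3.1
    have g4 : (m : ℤ) ≤ A i.succ + X := by exact_mod_cast h3.2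
    have g5 : (d i : ℤ) * n ≤ d i * (A 0 + X) := mul_le_mul_of_nonneg_left g2 (by positivity)
    have g6 : (d i : ℤ) * (A 0) ≤ d i * n := mul_le_mul_of_nonneg_left (by linarith) (by positivity)
    have g7 : (d i : ℤ) * X ≤ D₀ * X := mul_le_mul_of_nonneg_right (by exact_mod_cast hd2) (by positivity)
    push_cast
    constructor
    · linarith
    · have e : (d i : ℤ) * (A 0 + X) = d i * A 0 + d i * X := by ring
      have e2 : ((D₀ : ℤ) + 1) * X = D₀ * X + X := by ring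
      rw [e, e2]
      linarith
  have h1 : ∏ a, (Q a).card ≤ ∑ g ∈ bx k 0 ((D₀ + 1) * X), (rep Q d (fun i => BB A X d i + (g i : ℤ))).card := by
    rw [Fin.prod_univ_succ, ← Fintype.card_piFinset, ← card_product, ← card_sigma]
    apply card_le_card_of_injOn (fun x : ℕ × (Fin k → ℕ) => (⟨fun i => ((x.2 i : ℤ) - d i * x.1 - BB A X d i).toNat, x.1⟩ :
      (_ : Fin k → ℕ) × ℕ))
    · intro x hx
      rw [mem_coe, mem_product, Fintype.mem_piFinset] at hx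
      obtain ⟨hx1, hx2⟩ := hx
      rw [mem_coe, mem_sigma, mem_bx]
      refine ⟨fun i => ?_, ?_⟩
      · obtain ⟨h4, h5⟩ := key x.1 i (x.2 i) hx1 (hx2 i)
        show 0 + 1 ≤ ((x.2 i : ℤ) - d i * x.1 - BB A X d i).toNat ∧
          ((x.2 i : ℤ) - d i * x.1 - BB A X d i).toNat ≤ (D₀ + 1) * X
        constructor
        · have : (1 : ℤ) ≤ (((x.2 i : ℤ) - d i * x.1 - BB A X d i).toNat : ℤ) := by
            rw [Int.toNat_of_nonneg (by linarith)]
            exact h4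
          rw [zero_add]
          exact_mod_cast this
        · have : (((x.2 i : ℤ) - d i * x.1 - BB A X d i).toNat : ℤ) ≤ (((D₀ + 1) * X : ℕ) : ℤ) := by
            rw [Int.toNat_of_nonneg (by linarith)]
            exact h5
          exact_mod_cast this
      · show x.1 ∈ rep Q d (fun i => BB A X d i + ((((x.2 i : ℤ) - d i * x.1 - BB A X d i).toNat : ℕ) : ℤ))
        rw [mem_rep]
        refine ⟨hx1, fun i => ⟨x.2 i, hx2 i, ?_⟩⟩
        obtain ⟨h4, h5⟩ := key x.1 i (x.2 i) hx1 (hx2 i)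
        rw [Int.toNat_of_nonneg (by linarith)]
        ring
    · intro x hx y hy hxy
      rw [mem_coe, mem_product, Fintype.mem_piFinset] at hx hy
      have h2 := Sigma.mk.inj hxy
      obtain ⟨h3, h4⟩ := h2
      have h5 : x.1 = y.1 := eq_of_heq h4
      refine Prod.ext h5 (funext fun i => ?_)
      have h6 := congrFun h3 i
      have h6' : ((x.2 i : ℤ) - d i * x.1 - BB A X d i).toNat = ((y.2 i : ℤ) - d i * y.1 - BB A X d i).toNat := h6
      obtain ⟨h7, _⟩ := key x.1 i (x.2 i) hx.1 (hx.2 i)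
      obtain ⟨h8, _⟩ := key y.1 i (y.2 i) hy.1 (hy.2 i)
      have h9 : (((x.2 i : ℤ) - d i * x.1 - BB A X d i).toNat : ℤ) = (((y.2 i : ℤ) - d i * y.1 - BB A X d i).toNat : ℤ) := by
        rw [h6']
      rw [Int.toNat_of_nonneg (by linarith), Int.toNat_of_nonneg (by linarith), h5] at h9
      have h10 : (x.2 i : ℤ) = y.2 i := by linarith
      exact_mod_cast h10
  calc ∏ a, ((Q a).card : ℝ) = ((∏ a, (Q a).card : ℕ) : ℝ) := by push_cast; rfl
    _ ≤ ((∑ g ∈ bx k 0 ((D₀ + 1) * X), (rep Q d (fun i => BB A X d i + (g i : ℤ))).card : ℕ) : ℝ) := by exact_mod_cast h1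
    _ = _ := by push_cast; rfl

/-- **A positive proportion of the vectors is popular** -/
theorem popN (l k D₀ : ℕ) (hk : 1 ≤ k) (κ δ : ℝ) (hκ : 0 < κ) (hκ1 : κ ≤ 1) (hδ : 0 < δ) :
    ∃ c ρ : ℝ, 0 < c ∧ 0 < ρ ∧ ∃ X₀ : ℕ, ∀ X : ℕ, X₀ ≤ X → ∀ Z : Fin (k + 1) → ℕ → Finset ℕ, (∀ a, Adm l (Z a)) →
      ∀ (A : Fin (k + 1) → ℕ) (Q : Fin (k + 1) → Finset ℕ), (∀ a, Q a ⊆ Sift (Z a) κ (A a) X) →
      (∀ a, δ * (X * VV (Z a) 0 ⌊(X : ℝ) ^ κ⌋₊) ≤ (Q a).card) → ∀ d : Fin k → ℕ, (∀ i, 1 ≤ d i ∧ d i ≤ D₀) →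
      ∃ G ⊆ bx k 0 ((D₀ + 1) * X), ρ * (((D₀ + 1) * X : ℕ) : ℝ) ^ k ≤ (G.card : ℝ) ∧
        ∀ g ∈ G, c * (X * ∏ a, VV (Z a) 0 ⌊(X : ℝ) ^ κ⌋₊) ≤ ((rep Q d (fun i => BB A X d i + (g i : ℤ))).card : ℝ) := by
  classical
  obtain ⟨K, s₀, hup⟩ := upN l k D₀ κ hκ
  obtain ⟨s₁, B₀, X₁, C₃, hC₃, hmom⟩ := mom l k K hk
  obtain ⟨s, hs⟩ : ∃ s, s = max s₀ s₁ := ⟨_, rfl⟩
  obtain ⟨C, hC, X₂, hup'⟩ := hup s (by rw [hs]; exact le_max_left _ _)
  have t1 : ∀ᶠ X : ℕ in atTop, Real.log (X : ℝ) ^ B₀ ≤ X := by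
    have h1 := (Real.isLittleO_pow_log_id_atTop (n := B₀)).bound (one_pos)
    have h2 := (tendsto_natCast_atTop_atTop (R := ℝ)).eventually h1
    filter_upwards [h2, eventually_ge_atTop 1] with X hX hX1
    have hl : 0 ≤ Real.log (X : ℝ) ^ B₀ := pow_nonneg (Real.log_nonneg (by exact_mod_cast hX1)) _
    rw [Real.norm_of_nonneg hl, one_mul, id, Real.norm_of_nonneg (Nat.cast_nonneg X)] at hX
    exact hX
  obtain ⟨X₃, hX₃⟩ := eventually_atTop.1 t1
  obtain ⟨c, hc⟩ : ∃ c : ℝ, c = δ ^ (k + 1) / (2 * ((D₀ : ℝ) + 1) ^ k) := ⟨_, rfl⟩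
  have hD0 : (0 : ℝ) < (D₀ : ℝ) + 1 := by positivity
  have hc0 : 0 < c := by rw [hc]; positivity
  refine ⟨c, c ^ 2 / (C ^ 2 * C₃), hc0, by positivity, max (max X₁ X₂) (max X₃ 1), fun X hX Z hZ A Q hQ hQc d hd => ?_⟩
  have hX₁ : X₁ ≤ X := (le_max_left _ _).trans ((le_max_left _ _).trans hX)
  have hX₂ : X₂ ≤ X := (le_max_right _ _).trans ((le_max_left _ _).trans hX)
  have hX₃' := hX₃ X ((le_max_left _ _).trans ((le_max_right _ _).trans hX))
  have hX1 : 1 ≤ X := (le_max_right _ _).trans ((le_max_right _ _).trans hX)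
  have hX1R : (1 : ℝ) ≤ X := by exact_mod_cast hX1
  obtain ⟨R, hR⟩ : ∃ R : ℕ, R = ⌊(X : ℝ) ^ κ⌋₊ := ⟨_, rfl⟩
  have hRX : R ≤ X := by
    have h3 : ((⌊(X : ℝ) ^ κ⌋₊ : ℕ) : ℝ) ≤ X := by
      refine (Nat.floor_le (by positivity)).trans ?_
      calc (X : ℝ) ^ κ ≤ (X : ℝ) ^ (1 : ℝ) := Real.rpow_le_rpow_of_exponent_le hX1R hκ1
        _ = X := Real.rpow_one _
    rw [hR]
    exact_mod_cast h3
  rw [← hR] at hQc ⊢
  obtain ⟨W, hW⟩ : ∃ W : ℝ, W = ∏ a, VV (Z a) 0 R := ⟨_, rfl⟩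
  have hW0 : 0 < W := by
    rw [hW]
    exact prod_pos fun a _ => VV_pos (hZ a) 0 R
  rw [← hW]
  have hcardI : ((bx k 0 ((D₀ + 1) * X)).card : ℝ) ≤ (((D₀ + 1) * X : ℕ) : ℝ) ^ k := by
    exact_mod_cast bx_card k 0 ((D₀ + 1) * X)
  have hsub : ∀ a, Q a ⊆ Ioc (A a) (A a + X) := by
    intro a n hn
    have h2 := hQ a hn
    unfold Sift at h2
    exact (mem_filter.1 h2).1
  have hYX : X ≤ (D₀ + 1) * X := Nat.le_mul_of_pos_left X (by omega)
  refine Pool.Agent.U455.GVV.pz (bx k 0 ((D₀ + 1) * X)) (fun g => ((rep Q d (fun i => BB A X d i + (g i : ℤ))).card : ℝ))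
    (fun g => ∏ x ∈ J k, wt K (Z x.1) (Z x.2.succ)
        (th d (fun i => BB A X d i + (g i : ℤ)) x.1 x.2) s R (BB A X d x.2 + (g x.2 : ℤ)))
    ((((D₀ + 1) * X : ℕ) : ℝ) ^ k) (X * W) C C₃ c (by positivity) (by positivity) hC hC₃ hc0 (fun g _ => ?_) ?_ hcardI ?_
  · have h1 := hup' X hX₂ Z hZ A Q hQ d hd (fun i => BB A X d i + (g i : ℤ))
    rw [← hR, ← hW] at h1
    exact h1
  · exact hmom s R X ((D₀ + 1) * X) (by rw [hs]; exact le_max_right _ _) hX₁ hRX (by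
      refine hX₃'.trans ?_
      exact_mod_cast hYX) (by omega) Z hZ d (BB A X d)
  · refine le_trans ?_ (total D₀ Q A X hsub d hd)
    calc 2 * c * (X * W) * (((D₀ + 1) * X : ℕ) : ℝ) ^ k = ∏ a, (δ * (X * VV (Z a) 0 R)) := by
          rw [prod_mul_distrib, prod_mul_distrib, prod_const, prod_const, card_univ, Fintype.card_fin, ← hW, hc]
          push_cast
          rw [mul_pow]
          field_simp
          ring
      _ ≤ ∏ a, ((Q a).card : ℝ) := by
          apply Finset.prod_le_prod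
          · intro a _
            have := VV_pos (hZ a) 0 R
            positivity
          · intro a _
            exact hQc a

/-- sums of exactly `h` vectors -/
def RE {k : ℕ} (P : (Fin k → ℕ) → Prop) (h : ℕ) (t : Fin k → ℕ) : Prop :=
  ∃ l : List (Fin k → ℕ), l.length = h ∧ l.sum = t ∧ ∀ N ∈ l, P N

lemma RE_add {k : ℕ} {P : (Fin k → ℕ) → Prop} {h h' : ℕ} {t t' : Fin k → ℕ} (H : RE P h t) (H' : RE P h' t') :
    RE P (h + h') (t + t') := by
  obtain ⟨l, h1, h2, h3⟩ := H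
  obtain ⟨l', h1', h2', h3'⟩ := H'
  refine ⟨l ++ l', ?_, ?_, fun d hd => ?_⟩
  · rw [List.length_append]; omega
  · rw [List.sum_append, h2, h2']
  · rcases List.mem_append.1 hd with hd | hd
    · exact h3 d hd
    · exact h3' d hd

lemma RE_sum {k : ℕ} {P : (Fin k → ℕ) → Prop} {h : ℕ} {ι : Type} (s : Finset ι) (f : ι → Fin k → ℕ)
    (H : ∀ i ∈ s, RE P h (f i)) : RE P (s.card * h) (∑ i ∈ s, f i) := by
  classical
  induction s using Finset.induction_on with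
  | empty => exact ⟨[], by simp, by simp, by simp⟩
  | insert a s ha ih =>
    rw [sum_insert ha, card_insert_of_notMem ha, add_mul, one_mul, add_comm (s.card * h)]
    exact RE_add (H a (mem_insert_self _ _)) (ih fun i hi => H i (mem_insert_of_mem hi))

lemma map_update' {k : ℕ} (b : Fin k → ℕ) (i : Fin k) (l : List ℕ) :
    (l.map (fun v => Function.update b i v)).sum = fun i' => if i' = i then l.sum else l.length * b i' := by
  induction l with
  | nil =>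
    funext i'
    simp
  | cons v l ih =>
    rw [List.map_cons, List.sum_cons, ih]
    funext i'
    rw [Pi.add_apply]
    by_cases h : i' = i
    · subst h
      rw [if_pos rfl, if_pos rfl, Function.update_self, List.sum_cons]
    · rw [if_neg h, if_neg h, Function.update_of_ne h, List.length_cons]
      ring

lemma map_add' {k : ℕ} (B : Fin k → ℤ) (l : List (Fin k → ℕ)) :
    (l.map (fun g => fun i => B i + (g i : ℤ))).sum = fun i => (l.length : ℤ) * B i + ((l.sum i : ℕ) : ℤ) := by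
  induction l with
  | nil =>
    funext i
    simp
  | cons v l ih =>
    rw [List.map_cons, List.sum_cons, ih]
    funext i
    rw [Pi.add_apply, List.sum_cons, Pi.add_apply, List.length_cons]
    push_cast
    ring

/-- the box of the sums of exactly `h` popular vectors -/
theorem boxes (k : ℕ) (ρ : ℝ) (hρ : 0 < ρ) : ∃ h D₁ N₀ : ℕ, 1 ≤ D₁ ∧ ∀ (L : ℕ), N₀ ≤ L → 1 ≤ L →
    ∀ G : Finset (Fin k → ℕ), G ⊆ bx k 0 L → ρ * (L : ℝ) ^ k ≤ G.card → ∃ C : Fin k → ℕ, ∀ t : Fin k → ℕ,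
      (∀ i, D₁.factorial ∣ t i) → (∀ i, t i ≤ L) → RE (fun g => g ∈ G) h (C + t) := by
  classical
  obtain ⟨h, D₁, N₀, hD₁, hloc⟩ := VEC.local_exact ρ hρ
  refine ⟨k * h, D₁, N₀, hD₁, fun L hL hL1 G hG hGc => ?_⟩
  have hone : ∀ i : Fin k, ∃ f : Fin k → ℕ, ∀ n : ℕ, D₁.factorial ∣ n → n ≤ L → RE (fun g => g ∈ G) h (f + Pi.single i n) := by
    intro i
    obtain ⟨b, V, hVL, hVc, hV⟩ := fibreV hL1 i G hG ρ hρ hGc
    obtain ⟨d, c, hd1, hdD, hap⟩ := hloc L V hL hVL hVc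
    refine ⟨fun i' => if i' = i then c else h * b i', fun n hn hnL => ?_⟩
    have hdn : d ∣ n := dvd_trans (Nat.dvd_factorial (by omega) hdD) hn
    obtain ⟨m, rfl⟩ := hdn
    have hm : m ≤ L := le_trans (Nat.le_mul_of_pos_left m hd1) hnL
    obtain ⟨l, l1, l2, l3⟩ := hap m hm
    refine ⟨l.map (fun v => Function.update b i v), ?_, ?_, ?_⟩
    · rw [List.length_map, l1]
    · rw [map_update', l1, l3]
      funext i'
      rw [Pi.add_apply]
      by_cases h3 : i' = i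
      · subst h3
        rw [if_pos rfl, if_pos rfl, Pi.single_eq_same]
      · rw [if_neg h3, if_neg h3, Pi.single_eq_of_ne h3, add_zero]
    · intro g hg
      obtain ⟨v, hv, rfl⟩ := List.mem_map.1 hg
      exact hV v (l2 v hv)
  choose f hf using hone
  refine ⟨∑ i, f i, fun t hMt htL => ?_⟩
  have h1 := RE_sum (univ : Finset (Fin k)) (fun i => f i + Pi.single i (t i)) (fun i _ => hf i (t i) (hMt i) (htL i))
  rw [card_univ, Fintype.card_fin, sum_add_distrib, Finset.univ_sum_single] at h1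
  exact h1

/-- **Vectors of constants of linear forms with values in dense subsets of sifted sets** -/
theorem main (l k D₀ : ℕ) (hk : 1 ≤ k) (κ δ : ℝ) (hκ : 0 < κ) (hκ1 : κ ≤ 1) (hδ : 0 < δ) :
    ∃ h M : ℕ, 1 ≤ M ∧ ∃ c ρ : ℝ, 0 < c ∧ 0 < ρ ∧ ∃ X₀ : ℕ, ∀ X : ℕ, X₀ ≤ X →
      ∀ Z : Fin (k + 1) → ℕ → Finset ℕ, (∀ a, Adm l (Z a)) →
      ∀ (A : Fin (k + 1) → ℕ) (Q : Fin (k + 1) → Finset ℕ), (∀ a, Q a ⊆ Sift (Z a) κ (A a) X) →
      (∀ a, δ * (X * VV (Z a) 0 X) ≤ (Q a).card) → ∀ d : Fin k → ℕ, (∀ i, 1 ≤ d i ∧ d i ≤ D₀) →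
      (∃ P : Finset (Fin k → ℤ), ρ * (X : ℝ) ^ k ≤ (P.card : ℝ) ∧ ∀ N ∈ P,
          c * (X * ∏ a, VV (Z a) 0 X) ≤ ((rep Q d N).card : ℝ)) ∧
      ∃ C : Fin k → ℤ, ∀ t : Fin k → ℕ, (∀ i, M ∣ t i) → (∀ i, t i ≤ X) →
        ∃ l : List (Fin k → ℤ), l.length = h ∧ l.sum = (fun i => C i + (t i : ℤ)) ∧ ∀ N ∈ l,
            c * (X * ∏ a, VV (Z a) 0 X) ≤ ((rep Q d N).card : ℝ) := by
  classical
  obtain ⟨c₁, hc₁, N₁, hcomp⟩ := Pool.Agent.X58.IV.VV_comp_pow l κ 1 hκ one_pos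
  obtain ⟨c, ρ, hc, hρ, X₁, hpop⟩ := popN l k D₀ hk κ (δ * c₁) hκ hκ1 (by positivity)
  obtain ⟨h, D, N₀, hD, hbox⟩ := boxes k ρ hρ
  refine ⟨h, D.factorial, Nat.factorial_pos _, c, ρ, hc, hρ, max (max N₁ X₁) (max N₀ 1),
    fun X hX Z hZ A Q hQ hQc d hd => ?_⟩
  have hN₁ : N₁ ≤ X := (le_max_left _ _).trans ((le_max_left _ _).trans hX)
  have hX₁ : X₁ ≤ X := (le_max_right _ _).trans ((le_max_left _ _).trans hX)
  have hN₀ : N₀ ≤ X := (le_max_left _ _).trans ((le_max_right _ _).trans hX)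
  have hX1 : 1 ≤ X := (le_max_right _ _).trans ((le_max_right _ _).trans hX)
  have hX1R : (1 : ℝ) ≤ X := by exact_mod_cast hX1
  have hYX : X ≤ (D₀ + 1) * X := Nat.le_mul_of_pos_left X (by omega)
  have h1 : ∀ a, c₁ * VV (Z a) 0 ⌊(X : ℝ) ^ κ⌋₊ ≤ VV (Z a) 0 X := fun a => hcomp (Z a) (hZ a) X X hN₁ (by rw [Real.rpow_one])
  have h2 : ∀ a, VV (Z a) 0 X ≤ VV (Z a) 0 ⌊(X : ℝ) ^ κ⌋₊ := by
    intro a
    apply Pool.Agent.X58.IV.VV_anti (hZ a)
    have h3 : ((⌊(X : ℝ) ^ κ⌋₊ : ℕ) : ℝ) ≤ X := by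
      refine (Nat.floor_le (by positivity)).trans ?_
      calc (X : ℝ) ^ κ ≤ (X : ℝ) ^ (1 : ℝ) := Real.rpow_le_rpow_of_exponent_le hX1R hκ1
        _ = X := Real.rpow_one _
    exact_mod_cast h3
  obtain ⟨G, hGs, hGc, hG⟩ := hpop X hX₁ Z hZ A Q hQ (fun a => by
    refine le_trans ?_ (hQc a)
    calc δ * c₁ * (X * VV (Z a) 0 ⌊(X : ℝ) ^ κ⌋₊) = δ * (X * (c₁ * VV (Z a) 0 ⌊(X : ℝ) ^ κ⌋₊)) := by ring
      _ ≤ δ * (X * VV (Z a) 0 X) := by
        have := h1 a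
        gcongr) d hd
  have hprod : ∏ a, VV (Z a) 0 X ≤ ∏ a, VV (Z a) 0 ⌊(X : ℝ) ^ κ⌋₊ :=
    Finset.prod_le_prod (fun a _ => (VV_pos (hZ a) 0 X).le) (fun a _ => h2 a)
  have hG' : ∀ g ∈ G, c * (X * ∏ a, VV (Z a) 0 X) ≤ ((rep Q d (fun i => BB A X d i + (g i : ℤ))).card : ℝ) := by
    intro g hg
    refine le_trans ?_ (hG g hg)
    gcongr
  refine ⟨⟨G.image (fun g i => BB A X d i + (g i : ℤ)), ?_, ?_⟩, ?_⟩
  · rw [card_image_of_injective _ (fun g g' hgg => by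
      funext i
      have h3 := congrFun hgg i
      have h4 : BB A X d i + (g i : ℤ) = BB A X d i + (g' i : ℤ) := h3
      have h5 : (g i : ℤ) = g' i := by linarith
      exact_mod_cast h5)]
    refine le_trans ?_ hGc
    apply mul_le_mul_of_nonneg_left _ hρ.le
    apply pow_le_pow_left₀ (Nat.cast_nonneg _)
    exact_mod_cast hYX
  · intro N hN
    rw [mem_image] at hN
    obtain ⟨g, hg, rfl⟩ := hN
    exact hG' g hg
  · obtain ⟨C, hC⟩ := hbox ((D₀ + 1) * X) (by omega) (by omega) G hGs hGc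
    refine ⟨fun i => h * BB A X d i + C i, fun t hMt htX => ?_⟩
    obtain ⟨l, l1, l2, l3⟩ := hC t hMt (fun i => (htX i).trans hYX)
    refine ⟨l.map (fun g => fun i => BB A X d i + (g i : ℤ)), ?_, ?_, ?_⟩
    · rw [List.length_map, l1]
    · rw [map_add' (BB A X d) l, l1, l2]
      funext i
      rw [Pi.add_apply]
      push_cast
      ring
    · intro N hN
      obtain ⟨g, hg, rfl⟩ := List.mem_map.1 hN
      exact hG' g (l3 g hg)

end Pool.Agent.U455.GBD
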