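import Pool.Agent.U455.JF
import Pool.Agent.R473.JC.Pairs

/-!
# Pairs of real numbers with a joint measure: monomials and affine families
-/

set_option autoImplicit false

namespace Pool.Agent.U455.JA

open Finset Polynomial
open Pool.Agent.R356 (JointR)
open Pool.Agent.TH456.TM
open Pool.Agent.R473.JC

/-- `w₁ x^m = w₂` with `w₁ ≠ 0` -/
theorem alg_of_quot (x u v w₁ w₂ : ℝ) (m : ℕ) (hm : m ≠ 0) (h1 : w₁ ∈ Algebra.adjoin ℤ ({u, v} : Set ℝ))
    (h2 : w₂ ∈ Algebra.adjoin ℤ ({u, v} : Set ℝ)) (h0 : w₁ ≠ 0) (h : w₁ * x ^ m = w₂) :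
    IsAlgebraic (Algebra.adjoin ℤ ({u, v} : Set ℝ)) x := by
  refine alg_of_eq _ _ x (C (⟨w₁, h1⟩ : Algebra.adjoin ℤ ({u, v} : Set ℝ)) * X ^ m) ?_ w₂ h2 ?_
  · rw [natDegree_C_mul_X_pow]
    · exact hm
    · intro h3
      exact h0 (congrArg (fun w : Algebra.adjoin ℤ ({u, v} : Set ℝ) => (w : ℝ)) h3)
  · simp only [map_mul, aeval_C, map_pow, aeval_X]
    exact h

theorem x_ne (x : ℝ) (hx : MeasT (x : ℂ)) : x ≠ 0 := by
  intro h0
  have h1 := transcendental_of_measT hx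
  apply h1
  rw [h0]
  exact ⟨X, X_ne_zero, by simp⟩

/-- the powers `z^p`, `p` an integer, as quotients -/
theorem zpow_quot (z : ℝ) (hz : z ≠ 0) (p : ℤ) : z ^ p * z ^ (-p).toNat = z ^ p.toNat := by
  rw [← zpow_natCast z (-p).toNat, ← zpow_natCast z p.toNat, ← zpow_add₀ hz]
  congr 1
  omega

/-- **Monomials.** -/
theorem joint_mono (x : ℝ) (hx : MeasT (x : ℂ)) (t : ℝ) (ht : t ≠ 0) (a b c d : ℤ)
    (h : a * d - b * c ≠ 0) : JointR (t ^ a * x ^ b) (t ^ c * x ^ d) := by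
  have hx0 := x_ne x hx
  have key : ∀ a b c d : ℤ, 0 < a * d - b * c → JointR (t ^ a * x ^ b) (t ^ c * x ^ d) := by
    intro a b c d h
    obtain ⟨u, hu⟩ : ∃ u, u = t ^ a * x ^ b := ⟨_, rfl⟩
    obtain ⟨v, hv⟩ : ∃ v, v = t ^ c * x ^ d := ⟨_, rfl⟩
    have hu0 : u ≠ 0 := by rw [hu]; exact mul_ne_zero (zpow_ne_zero _ ht) (zpow_ne_zero _ hx0)
    have hv0 : v ≠ 0 := by rw [hv]; exact mul_ne_zero (zpow_ne_zero _ ht) (zpow_ne_zero _ hx0)
    rw [← hu, ← hv]
    have hrel : u ^ c * x ^ (a * d - b * c) = v ^ a := by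
      rw [hu, hv, mul_zpow, mul_zpow, ← zpow_mul, ← zpow_mul, ← zpow_mul, ← zpow_mul, mul_assoc,
        ← zpow_add₀ hx0]
      congr 2 <;> ring
    have hmem : ∀ w ∈ ({u, v} : Set ℝ), ∀ n : ℕ, w ^ n ∈ Algebra.adjoin ℤ ({u, v} : Set ℝ) :=
      fun w hw n => pow_mem (Algebra.subset_adjoin hw) n
    refine jointR_of_alg x hx u v (alg_of_quot x u v (u ^ c.toNat * v ^ (-a).toNat)
      (v ^ a.toNat * u ^ (-c).toNat) (a * d - b * c).toNat (by omega)
      (mul_mem (hmem u (by simp) _) (hmem v (by simp) _))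
      (mul_mem (hmem v (by simp) _) (hmem u (by simp) _))
      (mul_ne_zero (pow_ne_zero _ hu0) (pow_ne_zero _ hv0)) ?_)
    rw [← zpow_natCast x (a * d - b * c).toNat, Int.toNat_of_nonneg h.le]
    have e1 := zpow_quot u hu0 c
    have e2 := zpow_quot v hv0 a
    rw [← e1, ← e2]
    linear_combination (u ^ (-c).toNat * v ^ (-a).toNat) * hrel
  rcases lt_or_gt_of_ne h with h | h
  · exact (key c d a b (by linarith)).symm
  · exact key a b c d h

/-- **Affine functions of `t` with coefficients in `ℤ[x]`.** -/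
theorem joint_aff (x : ℝ) (hx : MeasT (x : ℂ)) (t : ℝ) (A B A' B' : ℤ[X])
    (h : max A.natDegree A'.natDegree < (A' * B - A * B').natDegree) :
    JointR (aeval x A * t + aeval x B) (aeval x A' * t + aeval x B') := by
  obtain ⟨u, hu⟩ : ∃ u, u = aeval x A * t + aeval x B := ⟨_, rfl⟩
  obtain ⟨v, hv⟩ : ∃ v, v = aeval x A' * t + aeval x B' := ⟨_, rfl⟩
  rw [← hu, ← hv]
  obtain ⟨S, hS⟩ : ∃ S : Subalgebra ℤ ℝ, S = Algebra.adjoin ℤ ({u, v} : Set ℝ) := ⟨_, rfl⟩
  have hcast : (Int.castRingHom (Algebra.adjoin ℤ ({u, v} : Set ℝ))) =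
    algebraMap ℤ (Algebra.adjoin ℤ ({u, v} : Set ℝ)) := RingHom.ext_int _ _
  have hinj : Function.Injective (Int.castRingHom (Algebra.adjoin ℤ ({u, v} : Set ℝ))) :=
    RingHom.injective_int _
  have hval : ∀ f : ℤ[X], aeval x (f.map (Int.castRingHom (Algebra.adjoin ℤ ({u, v} : Set ℝ)))) =
      aeval x f := by
    intro f
    rw [aeval_def, eval₂_map]
    have h1 : (algebraMap (Algebra.adjoin ℤ ({u, v} : Set ℝ)) ℝ).comp
        (Int.castRingHom _) = algebraMap ℤ ℝ := RingHom.ext_int _ _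
    rw [h1, ← aeval_def]
  have hdeg : ∀ f : ℤ[X], (f.map (Int.castRingHom (Algebra.adjoin ℤ ({u, v} : Set ℝ)))).natDegree =
      f.natDegree := fun f => natDegree_map_eq_of_injective hinj f
  obtain ⟨R, hR⟩ : ∃ R : (Algebra.adjoin ℤ ({u, v} : Set ℝ))[X],
      R = C (⟨u, mem_u u v⟩ : Algebra.adjoin ℤ ({u, v} : Set ℝ)) * A'.map (Int.castRingHom _) -
        C (⟨v, mem_v u v⟩ : Algebra.adjoin ℤ ({u, v} : Set ℝ)) * A.map (Int.castRingHom _) := ⟨_, rfl⟩
  have hRd : R.natDegree ≤ max A.natDegree A'.natDegree := by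
    rw [hR]
    refine (natDegree_sub_le _ _).trans ?_
    refine max_le ?_ ?_
    · refine (natDegree_C_mul_le _ _).trans ?_
      rw [hdeg]; exact le_max_right _ _
    · refine (natDegree_C_mul_le _ _).trans ?_
      rw [hdeg]; exact le_max_left _ _
  refine jointR_of_alg x hx u v (alg_of_eq u v x
    (R - (A' * B - A * B').map (Int.castRingHom _)) ?_ 0 (zero_mem _) ?_)
  · have h1 : (R - (A' * B - A * B').map (Int.castRingHom _)).natDegree =
        (A' * B - A * B').natDegree := by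
      rw [natDegree_sub_eq_right_of_natDegree_lt]
      · exact hdeg _
      · rw [hdeg]; exact lt_of_le_of_lt hRd h
    rw [h1]
    omega
  · rw [map_sub, hval, hR, map_sub, map_mul, map_mul, hval, hval, aeval_C, aeval_C, map_sub,
      map_mul, map_mul]
    change u * aeval x A' - v * aeval x A - _ = 0
    rw [hu, hv]
    ring

end Pool.Agent.U455.JA
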