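import Pool.Agent.U455.JX
import Pool.Agent.W472.AC.EMeas2

/-!
# Linear forms in `e` and an arbitrary real number: uniformity in the direction
-/

set_option autoImplicit false

namespace Pool.Agent.U455.JD

open Finset Polynomial
open Pool.Agent.H831R3.LC (dig)
open Pool.Agent.W47.JL (Meas err)
open Pool.Agent.N553.PC (Cut)
open Pool.Agent.R473.FP (run errors periodic_stretch)
open Pool.Agent.U455.JX

/-- linear forms in `e` and an arbitrary real number -/
theorem lin_meas_exp (η : ℝ) (hη : 0 < η) : ∃ c1 : ℝ, 0 < c1 ∧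
    ∀ (a b c d : ℤ), a * d - b * c ≠ 0 → ∀ M : ℝ,
      M = 3 * |((a * d - b * c : ℤ) : ℝ)| + |(b : ℝ)| + |(d : ℝ)| + 1 → ∀ t : ℝ, Meas 2
      ![a * Real.exp 1 + b * t, c * Real.exp 1 + d * t] (2 + η) (min 1 (c1 / (M ^ (1 + η) * M))) 0 := by
  obtain ⟨c1, hc1, hm⟩ := Pool.Agent.W472.AC.e_measP 1 η hη
  refine ⟨c1, hc1, fun a b c d h M hM => ?_⟩
  obtain ⟨D, hD⟩ : ∃ D : ℤ, D = a * d - b * c := ⟨_, rfl⟩
  rw [← hD] at h hM
  have hDR : (D : ℝ) = a * d - b * c := by rw [hD]; push_cast; ring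
  have hD0 := abs_nonneg (D : ℝ)
  have hb0 := abs_nonneg (b : ℝ)
  have hd0 := abs_nonneg (d : ℝ)
  have hM1 : 1 ≤ M := by rw [hM]; linarith
  have hM0 : 0 < M := by linarith
  have hMr : 0 < M ^ (1 + η) := Real.rpow_pos_of_pos hM0 _
  have he3 : Real.exp 1 < 3 := by linarith [Real.exp_one_lt_d9]
  have he0 := Real.exp_pos 1
  intro t q hq p
  obtain ⟨U, hU⟩ : ∃ U : ℝ, U = q * (a * Real.exp 1 + b * t) - p 0 := ⟨_, rfl⟩
  obtain ⟨V, hV⟩ : ∃ V : ℝ, V = q * (c * Real.exp 1 + d * t) - p 1 := ⟨_, rfl⟩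
  have hqR : (1 : ℝ) ≤ q := by exact_mod_cast hq
  have hq0 : (0 : ℝ) < q := by linarith
  have hqp : (1 : ℝ) ≤ (q : ℝ) ^ (2 + η - 1) := Real.one_le_rpow hqR (by linarith)
  suffices H : min 1 (c1 / (M ^ (1 + η) * M)) ≤ (q : ℝ) ^ (2 + η - 1) * max |U| |V| by
    rcases le_total |U| |V| with h1 | h1
    · rw [max_eq_right h1] at H
      refine ⟨1, ?_⟩
      rw [Real.rpow_zero, mul_one]
      rw [hV] at H
      exact H
    · rw [max_eq_left h1] at H
      refine ⟨0, ?_⟩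
      rw [Real.rpow_zero, mul_one]
      rw [hU] at H
      exact H
  by_cases hUV : |U| ≤ 1 ∧ |V| ≤ 1
  swap
  · refine (min_le_left _ _).trans ?_
    have h1 : 1 ≤ max |U| |V| := by
      by_contra h2
      push Not at h2
      exact hUV ⟨(le_max_left _ _).trans h2.le, (le_max_right _ _).trans h2.le⟩
    nlinarith
  refine (min_le_right _ _).trans ?_
  rw [div_le_iff₀ (by positivity)]
  obtain ⟨m, hm'⟩ : ∃ m : ℤ, m = d * p 0 - b * p 1 := ⟨_, rfl⟩
  have hmR : (m : ℝ) = d * p 0 - b * p 1 := by rw [hm']; push_cast; ring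
  have hid : (d : ℝ) * U - b * V = q * D * Real.exp 1 - m := by
    rw [hU, hV, hmR, hDR]; ring
  have hdU : |(d : ℝ) * U - b * V| ≤ (|(d : ℝ)| + |(b : ℝ)|) * max |U| |V| := by
    have h1 : |(d : ℝ) * U| ≤ |(d : ℝ)| * max |U| |V| := by
      rw [abs_mul]; exact mul_le_mul_of_nonneg_left (le_max_left _ _) hd0
    have h2 : |(b : ℝ) * V| ≤ |(b : ℝ)| * max |U| |V| := by
      rw [abs_mul]; exact mul_le_mul_of_nonneg_left (le_max_right _ _) hb0
    have h3 := abs_sub ((d : ℝ) * U) (b * V)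
    linarith
  have hmax0 : 0 ≤ max |U| |V| := (abs_nonneg U).trans (le_max_left _ _)
  have hmax1 : max |U| |V| ≤ 1 := max_le hUV.1 hUV.2
  have hmle : |(m : ℝ)| ≤ q * M := by
    have h1 : (m : ℝ) = q * D * Real.exp 1 - (d * U - b * V) := by rw [hid]; ring
    rw [h1]
    have h2 := abs_sub ((q : ℝ) * D * Real.exp 1) (d * U - b * V)
    have h3 : |(q : ℝ) * D * Real.exp 1| ≤ q * (3 * |(D : ℝ)|) := by
      rw [abs_mul, abs_mul, abs_of_pos hq0, abs_of_pos he0, mul_assoc]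
      refine mul_le_mul_of_nonneg_left ?_ hq0.le
      nlinarith
    have h4 : (|(d : ℝ)| + |(b : ℝ)|) * max |U| |V| ≤ q * (|(d : ℝ)| + |(b : ℝ)|) := by
      have h5 : (|(d : ℝ)| + |(b : ℝ)|) * max |U| |V| ≤ (|(d : ℝ)| + |(b : ℝ)|) * 1 :=
        mul_le_mul_of_nonneg_left hmax1 (by positivity)
      nlinarith
    rw [hM]
    nlinarith
  have h1 := hm (C ((q : ℤ) * D) * X - C m) (by
    intro h0
    have h2 := congrArg (fun f : ℤ[X] => f.coeff 1) h0
    simp only [coeff_sub, coeff_C_mul, coeff_X_one, mul_one, coeff_C, coeff_zero,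
      if_neg one_ne_zero, sub_zero] at h2
    rcases mul_eq_zero.1 h2 with h3 | h3
    · have : q = 0 := by exact_mod_cast h3
      omega
    · exact h h3) (by
    refine (natDegree_sub_le _ _).trans ?_
    rw [natDegree_C, max_eq_left (Nat.zero_le _)]
    exact (natDegree_C_mul_le _ _).trans (by rw [natDegree_X])) (q * M) (by nlinarith) (by
    intro j
    rcases j with _ | _ | j
    · simp only [coeff_sub, coeff_C_mul, coeff_X_zero, mul_zero, coeff_C_zero, zero_sub]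
      push_cast
      rw [abs_neg]
      exact hmle
    · simp only [zero_add, coeff_sub, coeff_C_mul, coeff_X_one, mul_one, coeff_C,
        if_neg one_ne_zero, sub_zero]
      push_cast
      rw [abs_mul, abs_of_pos hq0]
      refine mul_le_mul_of_nonneg_left ?_ hq0.le
      rw [hM]
      linarith
    · have h2 : (C ((q : ℤ) * D) * X - C m).coeff (j + 1 + 1) = 0 := by
        apply coeff_eq_zero_of_natDegree_lt
        refine lt_of_le_of_lt (natDegree_sub_le _ _) ?_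
        rw [natDegree_C, max_eq_left (Nat.zero_le _)]
        refine lt_of_le_of_lt (natDegree_C_mul_le _ _) ?_
        rw [natDegree_X]
        omega
      rw [h2]
      simp only [Int.cast_zero, abs_zero]
      positivity)
  have e1 : (aeval (Real.exp 1) (C ((q : ℤ) * D) * X - C m) : ℝ) = d * U - b * V := by
    rw [hid, map_sub, map_mul, aeval_X, aeval_C, aeval_C]
    simp
  rw [e1, Real.mul_rpow hq0.le hM0.le] at h1
  have e2 : (q : ℝ) ^ (2 + η - 1) = (q : ℝ) ^ ((1 : ℕ) + η) := by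
    congr 1
    push_cast
    ring
  have e3 : M ^ ((1 : ℕ) + η) = M ^ (1 + η) := by
    congr 1
    push_cast
    ring
  rw [e2]
  rw [e3] at h1
  have hqp0 : 0 < (q : ℝ) ^ ((1 : ℕ) + η) := Real.rpow_pos_of_pos hq0 _
  have h2 : |(d : ℝ) * U - b * V| ≤ M * max |U| |V| := by
    refine hdU.trans (mul_le_mul_of_nonneg_right ?_ hmax0)
    rw [hM]
    linarith
  calc c1 ≤ (q : ℝ) ^ ((1 : ℕ) + η) * M ^ (1 + η) * |(d : ℝ) * U - b * V| := h1
    _ ≤ (q : ℝ) ^ ((1 : ℕ) + η) * M ^ (1 + η) * (M * max |U| |V|) :=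
        mul_le_mul_of_nonneg_left h2 (by positivity)
    _ = _ := by ring


theorem log_min (c1 M η H : ℝ) (hc1 : 0 < c1) (hη : 0 < η) (hM1 : 1 ≤ M) (hH : 1 ≤ H)
    (hMH : M ≤ 9 * H ^ 2) : |Real.log (min 1 (c1 / (M ^ (1 + η) * M)))| ≤
      |Real.log c1| + (2 + η) * (Real.log 9 + 2 * Real.log H) := by
  have hM0 : 0 < M := by linarith
  have hH0 : 0 < H := by linarith
  have hMr : 0 < M ^ (1 + η) := Real.rpow_pos_of_pos hM0 _
  have hpos : 0 < min 1 (c1 / (M ^ (1 + η) * M)) := lt_min one_pos (by positivity)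
  have hlM : Real.log M ≤ Real.log 9 + 2 * Real.log H := by
    have h1 := Real.log_le_log hM0 hMH
    rw [Real.log_mul (by norm_num) (by positivity), Real.log_pow] at h1
    push_cast at h1
    exact h1
  have hlM0 : 0 ≤ Real.log M := Real.log_nonneg hM1
  have h0 : Real.log (min 1 (c1 / (M ^ (1 + η) * M))) ≤ 0 :=
    Real.log_nonpos hpos.le (min_le_left _ _)
  rw [abs_of_nonpos h0]
  have h1 : Real.log (c1 / (M ^ (1 + η) * M)) = Real.log c1 - (2 + η) * Real.log M := by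
    rw [Real.log_div hc1.ne' (by positivity), Real.log_mul hMr.ne' hM0.ne', Real.log_rpow hM0]
    ring
  have h2 := neg_abs_le (Real.log c1)
  have h3 : (2 + η) * Real.log M ≤ (2 + η) * (Real.log 9 + 2 * Real.log H) :=
    mul_le_mul_of_nonneg_left hlM (by linarith)
  have h4 : 0 ≤ |Real.log c1| := abs_nonneg _
  rcases min_choice 1 (c1 / (M ^ (1 + η) * M)) with h5 | h5
  · rw [h5, Real.log_one, neg_zero]
    have : 0 ≤ (2 + η) * Real.log M := by positivity
    linarith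
  · rw [h5, h1]
    linarith

/-- **All directions.** -/
theorem dirs (η : ℝ) (hη : 0 < η) : ∃ C : ℝ, 0 < C ∧ ∀ (t H : ℝ), 1 ≤ H → ∀ (a b c d : ℤ),
    a * d - b * c ≠ 0 → |(a : ℝ)| ≤ H → |(b : ℝ)| ≤ H → |(c : ℝ)| ≤ H → |(d : ℝ)| ≤ H →
    ∀ β : ℕ, 2 ≤ β → ∀ (N m n : ℕ) (E F : Finset ℕ), Cut β (a * Real.exp 1 + b * t) N m E →
      Cut β (c * Real.exp 1 + d * t) N n F →
      (N : ℝ) ≤ (∑ i ∈ range (E.card + F.card + 1), (2 + η) ^ (i + 1)) *
        (((m + n : ℕ) : ℝ) + C * err (m + n) + (12 + 6 * η) * Real.log H) := by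
  obtain ⟨c1, hc1, HM⟩ := lin_meas_exp η hη
  obtain ⟨K, hK⟩ : ∃ K : ℝ, K = 3 * (|Real.log c1| + (2 + η) * Real.log 9) + 3 := ⟨_, rfl⟩
  have hl9 : 0 ≤ Real.log 9 := Real.log_nonneg (by norm_num)
  have hK0 : 0 ≤ K := by rw [hK]; positivity
  refine ⟨15 + 2 * K, by positivity, ?_⟩
  intro t H hH a b c d h ha hb hc hd β hβ N m n E F hE hF
  obtain ⟨M, hM⟩ : ∃ M : ℝ, M = 3 * |((a * d - b * c : ℤ) : ℝ)| + |(b : ℝ)| + |(d : ℝ)| + 1 := ⟨_, rfl⟩
  have hM1 : 1 ≤ M := by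
    rw [hM]
    linarith [abs_nonneg ((a * d - b * c : ℤ) : ℝ), abs_nonneg (b : ℝ), abs_nonneg (d : ℝ)]
  have hD : |((a * d - b * c : ℤ) : ℝ)| ≤ 2 * H ^ 2 := by
    push_cast
    refine (abs_sub _ _).trans ?_
    rw [abs_mul, abs_mul]
    have h1 : |(a : ℝ)| * |(d : ℝ)| ≤ H * H := mul_le_mul ha hd (abs_nonneg _) (by linarith)
    have h2 : |(b : ℝ)| * |(c : ℝ)| ≤ H * H := mul_le_mul hb hc (abs_nonneg _) (by linarith)
    nlinarith
  have hMH : M ≤ 9 * H ^ 2 := by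
    rw [hM]
    nlinarith
  have hc0 : 0 < min 1 (c1 / (M ^ (1 + η) * M)) := by
    have : 0 < M := by linarith
    have h2 : 0 < M ^ (1 + η) := Real.rpow_pos_of_pos this _
    exact lt_min one_pos (by positivity)
  have h1 := cut2_exp (2 + η) _ (by linarith) hc0 _ _ (HM a b c d h M hM t) β hβ N m n E F hE hF
  refine h1.trans (mul_le_mul_of_nonneg_left ?_ (Finset.sum_nonneg fun i _ => by positivity))
  have h2 := log_min c1 M η H hc1 hη hM1 hH hMH
  have h3 := Pool.Agent.W47.JL.err_ge (m + n)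
  have h4 : K ≤ 2 * K * err (m + n) := by nlinarith
  have h5 : 3 * |Real.log (min 1 (c1 / (M ^ (1 + η) * M)))| + 3 ≤ K + (12 + 6 * η) * Real.log H := by
    rw [hK]
    linarith
  linarith

end Pool.Agent.U455.JD
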