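import Pool.Agent.U455.JB

/-!
# Families of numbers with joint measures: blocks of digits and automata, at all scales
-/

set_option autoImplicit false

namespace Pool.Agent.U455.JF

open Finset Polynomial Filter
open Pool.Agent.R356 (JointR)
open Pool.Agent.W472.AC (digit)
open Pool.Agent.R473.FP (errors)
open Pool.Agent.U455.JB (BRel blocks2 predictors2)

/-- `s` blocks cover the first `N` digits -/
def Blk (b : ℕ) (x : ℝ) (r k s N : ℕ) : Prop :=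
  ∃ u v : ℕ → ℕ, u 0 = 0 ∧ u s = N ∧
    ∀ i < s, u i ≤ v i ∧ u (i + 1) ≤ v i + 1 ∧ BRel b x r (u i) (v i) k

theorem const_fam {n : ℕ} (P : Fin n → Fin n → ℝ → Prop)
    (mono : ∀ i j A A', 1 ≤ A → A ≤ A' → P i j A → P i j A')
    (h : ∀ i j, i ≠ j → ∃ A : ℝ, 1 ≤ A ∧ P i j A) : ∃ A : ℝ, 1 ≤ A ∧ ∀ i j, i ≠ j → P i j A := by
  classical
  have h' : ∀ i j, ∃ A : ℝ, 1 ≤ A ∧ (i ≠ j → P i j A) := by
    intro i j
    by_cases hij : i = j
    · exact ⟨1, le_rfl, fun h => absurd hij h⟩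
    · obtain ⟨A, hA, hP⟩ := h i j hij
      exact ⟨A, hA, fun _ => hP⟩
  choose f hf1 hf using h'
  refine ⟨1 + ∑ i, ∑ j, f i j, ?_, fun i j hij => ?_⟩
  · have : 0 ≤ ∑ i, ∑ j, f i j := Finset.sum_nonneg fun i _ => Finset.sum_nonneg fun j _ => by
      have := hf1 i j; linarith
    linarith
  · refine mono i j (f i j) _ (hf1 i j) ?_ (hf i j hij)
    have h1 : f i j ≤ ∑ j', f i j' := Finset.single_le_sum (f := fun j' => f i j')
      (fun j' _ => by have := hf1 i j'; linarith) (Finset.mem_univ j)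
    have h2 : ∑ j', f i j' ≤ ∑ i', ∑ j', f i' j' := Finset.single_le_sum
      (f := fun i' => ∑ j', f i' j') (fun i' _ => Finset.sum_nonneg fun j' _ => by
        have := hf1 i' j'; linarith) (Finset.mem_univ i)
    linarith

/-- (1) -/
theorem blocks_fam {n : ℕ} (x : Fin n → ℝ) (h : ∀ i j, i ≠ j → JointR (x i) (x j)) (r : ℕ) :
    ∃ A : ℝ, 1 ≤ A ∧ ∀ i j, i ≠ j → ∀ β β' : ℕ, 2 ≤ β → 2 ≤ β' → ∀ k k' s s' N N' : ℕ,
      Blk β (x i) r k s N → Blk β' (x j) r k' s' N' →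
      min (N * Real.log β) (N' * Real.log β') ≤
        A ^ (s + s') * ((k + 1) * Real.log β + (k' + 1) * Real.log β') := by
  refine const_fam (fun i j A => ∀ β β' : ℕ, 2 ≤ β → 2 ≤ β' → ∀ k k' s s' N N' : ℕ,
      Blk β (x i) r k s N → Blk β' (x j) r k' s' N' →
      min (N * Real.log β) (N' * Real.log β') ≤
        A ^ (s + s') * ((k + 1) * Real.log β + (k' + 1) * Real.log β')) ?_ ?_
  · intro i j A A' hA hAA' hP β β' hβ hβ' k k' s s' N N' hN hN'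
    refine (hP β β' hβ hβ' k k' s s' N N' hN hN').trans ?_
    have h1 : 0 ≤ Real.log β := Real.log_natCast_nonneg β
    have h2 : 0 ≤ Real.log β' := Real.log_natCast_nonneg β'
    exact mul_le_mul_of_nonneg_right (pow_le_pow_left₀ (by linarith) hAA' _) (by positivity)
  · intro i j hij
    obtain ⟨A, hA, hb⟩ := blocks2 (x i) (x j) (h i j hij) r
    refine ⟨A, hA, fun β β' hβ hβ' k k' s s' N N' hN hN' => ?_⟩
    obtain ⟨u, v, hu0, hus, hb1⟩ := hN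
    obtain ⟨u', v', hu0', hus', hb1'⟩ := hN'
    have h1 := hb β β' hβ hβ' k k' u v u' v' hu0 hu0' s s' hb1 hb1'
    rw [hus, hus'] at h1
    exact h1

/-- (2) -/
theorem fs_fam {n : ℕ} (x : Fin n → ℝ) (h : ∀ i j, i ≠ j → JointR (x i) (x j)) :
    ∃ A : ℝ, 1 ≤ A ∧ ∀ i j, i ≠ j → ∀ β β' : ℕ, 2 ≤ β → 2 ≤ β' → ∀ (Q Q' : ℕ)
      (δ : Fin Q → ℤ → Fin Q) (q₀ : Fin Q) (out : Fin Q → ℤ) (δ' : Fin Q' → ℤ → Fin Q')
      (q₀' : Fin Q') (out' : Fin Q' → ℤ) (N N' : ℕ),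
      min (N * Real.log β) (N' * Real.log β') ≤
        A ^ (errors δ q₀ out (digit β (x i)) N + errors δ' q₀' out' (digit β' (x j)) N' + 2) *
          ((Q + 1) * Real.log β + (Q' + 1) * Real.log β') := by
  refine const_fam (fun i j A => ∀ β β' : ℕ, 2 ≤ β → 2 ≤ β' → ∀ (Q Q' : ℕ)
      (δ : Fin Q → ℤ → Fin Q) (q₀ : Fin Q) (out : Fin Q → ℤ) (δ' : Fin Q' → ℤ → Fin Q')
      (q₀' : Fin Q') (out' : Fin Q' → ℤ) (N N' : ℕ),
      min (N * Real.log β) (N' * Real.log β') ≤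
        A ^ (errors δ q₀ out (digit β (x i)) N + errors δ' q₀' out' (digit β' (x j)) N' + 2) *
          ((Q + 1) * Real.log β + (Q' + 1) * Real.log β')) ?_ ?_
  · intro i j A A' hA hAA' hP β β' hβ hβ' Q Q' δ q₀ out δ' q₀' out' N N'
    refine (hP β β' hβ hβ' Q Q' δ q₀ out δ' q₀' out' N N').trans ?_
    have h1 : 0 ≤ Real.log β := Real.log_natCast_nonneg β
    have h2 : 0 ≤ Real.log β' := Real.log_natCast_nonneg β'
    exact mul_le_mul_of_nonneg_right (pow_le_pow_left₀ (by linarith) hAA' _) (by positivity)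
  · intro i j hij
    exact predictors2 (x i) (x j) (h i j hij)

theorem large (A θ : ℝ) (hA : 1 ≤ A) (hθ : θ < 1) : ∃ c Z₀ : ℝ, 0 < c ∧ 1 ≤ Z₀ ∧
    ∀ Z : ℝ, Z₀ ≤ Z → ∀ s s' : ℕ, (s : ℝ) ≤ c * Real.log Z → (s' : ℝ) ≤ c * Real.log Z →
      ∀ m : ℝ, 0 ≤ m → m ≤ 2 * Z ^ θ → ¬ Z ≤ A ^ (s + s' + 2) * m := by
  obtain ⟨B, hB⟩ : ∃ B : ℝ, B = A + 1 := ⟨_, rfl⟩
  have hB1 : 1 < B := by rw [hB]; linarith
  have hlB : 0 < Real.log B := Real.log_pos hB1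
  obtain ⟨c, hc⟩ : ∃ c : ℝ, c = (1 - θ) / (4 * Real.log B) := ⟨_, rfl⟩
  have hc0 : 0 < c := by rw [hc]; exact div_pos (by linarith) (by positivity)
  have ht : Tendsto (fun Z : ℝ => Z ^ ((1 - θ) / 2)) atTop atTop :=
    tendsto_rpow_atTop (by linarith)
  obtain ⟨Z₁, hZ₁⟩ := eventually_atTop.1 (ht.eventually_gt_atTop (2 * B ^ 2))
  refine ⟨c, max Z₁ 1, hc0, le_max_right _ _, fun Z hZ s s' hs hs' m hm0 hm hcon => ?_⟩
  have hZ1 : 1 ≤ Z := (le_max_right _ _).trans hZ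
  have hZ0 : 0 < Z := by linarith
  have h1 := hZ₁ Z ((le_max_left _ _).trans hZ)
  have h2 : A ^ (s + s' + 2) ≤ B ^ (s + s' + 2) := pow_le_pow_left₀ (by linarith) (by rw [hB]; linarith) _
  have h3 : B ^ (s + s' + 2) ≤ B ^ 2 * Z ^ ((1 - θ) / 2) := by
    rw [pow_add, mul_comm]
    refine mul_le_mul_of_nonneg_left ?_ (by positivity)
    rw [← Real.rpow_natCast B (s + s'), Real.rpow_def_of_pos (by linarith), Real.rpow_def_of_pos hZ0]
    refine Real.exp_le_exp.2 ?_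
    push_cast
    have h4 : (s : ℝ) + s' ≤ 2 * (c * Real.log Z) := by linarith
    have h5 : Real.log B * ((s : ℝ) + s') ≤ Real.log B * (2 * (c * Real.log Z)) :=
      mul_le_mul_of_nonneg_left h4 hlB.le
    have h6 : Real.log B * (2 * (c * Real.log Z)) = Real.log Z * ((1 - θ) / 2) := by
      rw [hc]; field_simp; ring
    linarith
  have h7 : A ^ (s + s' + 2) * m ≤ (B ^ 2 * Z ^ ((1 - θ) / 2)) * (2 * Z ^ θ) :=
    mul_le_mul (h2.trans h3) hm hm0 (by positivity)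
  have h8 : Z ^ ((1 - θ) / 2) * Z ^ ((1 - θ) / 2) * Z ^ θ = Z := by
    rw [← Real.rpow_add hZ0, ← Real.rpow_add hZ0]
    have : (1 - θ) / 2 + (1 - θ) / 2 + θ = 1 := by ring
    rw [this, Real.rpow_one]
  have h9 : 0 < Z ^ ((1 - θ) / 2) := Real.rpow_pos_of_pos hZ0 _
  have h10 : 0 < Z ^ θ := Real.rpow_pos_of_pos hZ0 _
  have h11 : (B ^ 2 * Z ^ ((1 - θ) / 2)) * (2 * Z ^ θ) < Z := by
    calc (B ^ 2 * Z ^ ((1 - θ) / 2)) * (2 * Z ^ θ) = (2 * B ^ 2) * (Z ^ ((1 - θ) / 2) * Z ^ θ) := by ring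
      _ < Z ^ ((1 - θ) / 2) * (Z ^ ((1 - θ) / 2) * Z ^ θ) :=
          mul_lt_mul_of_pos_right h1 (by positivity)
      _ = Z := by rw [← mul_assoc]; exact h8
  linarith

/-- the digits are simple at the scale `Z` -/
def Smp (r : ℕ) (θ c Z x : ℝ) : Prop :=
  ∃ b N k s : ℕ, 2 ≤ b ∧ Z ≤ N * Real.log b ∧ (k + 1) * Real.log b ≤ Z ^ θ ∧
    (s : ℝ) ≤ c * Real.log Z ∧ Blk b x r k s N

/-- the digits are predicted at the scale `Z` -/
def Prd (θ c Z x : ℝ) : Prop :=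
  ∃ b N Q : ℕ, 2 ≤ b ∧ Z ≤ N * Real.log b ∧ (Q + 1) * Real.log b ≤ Z ^ θ ∧
    ∃ (δ : Fin Q → ℤ → Fin Q) (q₀ : Fin Q) (out : Fin Q → ℤ),
      (errors δ q₀ out (digit b x) N : ℝ) ≤ c * Real.log Z

/-- (3) -/
theorem large_fam {n : ℕ} (x : Fin n → ℝ) (h : ∀ i j, i ≠ j → JointR (x i) (x j)) (r : ℕ) (θ : ℝ)
    (hθ : θ < 1) : ∃ c Z₀ : ℝ, 0 < c ∧ 1 ≤ Z₀ ∧ ∀ Z : ℝ, Z₀ ≤ Z →
      (∀ i j, Smp r θ c Z (x i) → Smp r θ c Z (x j) → i = j) ∧
      (∀ i j, Prd θ c Z (x i) → Prd θ c Z (x j) → i = j) := by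
  obtain ⟨A₁, hA₁, H₁⟩ := blocks_fam x h r
  obtain ⟨A₂, hA₂, H₂⟩ := fs_fam x h
  obtain ⟨c₁, Z₁, hc₁, hZ₁, L₁⟩ := large A₁ θ hA₁ hθ
  obtain ⟨c₂, Z₂, hc₂, hZ₂, L₂⟩ := large A₂ θ hA₂ hθ
  refine ⟨min c₁ c₂, max Z₁ Z₂, lt_min hc₁ hc₂, hZ₁.trans (le_max_left _ _), fun Z hZ => ⟨?_, ?_⟩⟩
  · intro i j hi hj
    by_contra hij
    obtain ⟨b, N, k, s, hb, hN, hk, hs, hB⟩ := hi
    obtain ⟨b', N', k', s', hb', hN', hk', hs', hB'⟩ := hj
    have hZ1 : 1 ≤ Z := (hZ₁.trans (le_max_left _ _)).trans hZ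
    have hlZ : 0 ≤ Real.log Z := Real.log_nonneg hZ1
    have hcc : min c₁ c₂ * Real.log Z ≤ c₁ * Real.log Z :=
      mul_le_mul_of_nonneg_right (min_le_left _ _) hlZ
    have h1 := H₁ i j hij b b' hb hb' k k' s s' N N' hB hB'
    have h2 : Z ≤ min (N * Real.log b) (N' * Real.log b') := le_min hN hN'
    have h3 : (0 : ℝ) ≤ (k + 1) * Real.log b + (k' + 1) * Real.log b' := by
      have := Real.log_natCast_nonneg b
      have := Real.log_natCast_nonneg b'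
      positivity
    refine L₁ Z ((le_max_left _ _).trans hZ) s s' (hs.trans hcc) (hs'.trans hcc)
      ((k + 1) * Real.log b + (k' + 1) * Real.log b') h3 (by linarith) ((h2.trans h1).trans ?_)
    exact mul_le_mul_of_nonneg_right (pow_le_pow_right₀ hA₁ (by omega)) h3
  · intro i j hi hj
    by_contra hij
    obtain ⟨b, N, Q, hb, hN, hk, δ, q₀, out, hE⟩ := hi
    obtain ⟨b', N', Q', hb', hN', hk', δ', q₀', out', hE'⟩ := hj
    have hZ1 : 1 ≤ Z := (hZ₁.trans (le_max_left _ _)).trans hZ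
    have hlZ : 0 ≤ Real.log Z := Real.log_nonneg hZ1
    have hcc : min c₁ c₂ * Real.log Z ≤ c₂ * Real.log Z :=
      mul_le_mul_of_nonneg_right (min_le_right _ _) hlZ
    have h1 := H₂ i j hij b b' hb hb' Q Q' δ q₀ out δ' q₀' out' N N'
    have h2 : Z ≤ min (N * Real.log b) (N' * Real.log b') := le_min hN hN'
    have h3 : (0 : ℝ) ≤ (Q + 1) * Real.log b + (Q' + 1) * Real.log b' := by
      have := Real.log_natCast_nonneg b
      have := Real.log_natCast_nonneg b'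
      positivity
    exact L₂ Z ((le_max_right _ _).trans hZ) _ _ (hE.trans hcc) (hE'.trans hcc)
      ((Q + 1) * Real.log b + (Q' + 1) * Real.log b') h3 (by linarith) (h2.trans h1)

end Pool.Agent.U455.JF
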