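import Pool.Agent.N553.PC.Cut
import Pool.Agent.R473.FP.FS
import Pool.Agent.W472.AC.EMeas2

/-!
# Pairs of numbers with a joint measure: cuts and automata, same base
-/

set_option autoImplicit false

namespace Pool.Agent.U455.JM

open Finset Polynomial
open Pool.Agent.H831R3.LC (dig)
open Pool.Agent.W47.JL (Meas err)
open Pool.Agent.N553.PC (Cut)
open Pool.Agent.R473.FP (run errors periodic_stretch)

/-- linear forms in `e` and an arbitrary real number -/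
theorem lin_meas (a b c d : ℤ) (h : a * d - b * c ≠ 0) (η : ℝ) (hη : 0 < η) :
    ∃ c0 : ℝ, 0 < c0 ∧ ∀ t : ℝ, Meas 2
      ![a * Real.exp 1 + b * t, c * Real.exp 1 + d * t] (2 + η) c0 0 := by
  obtain ⟨c1, hc1, hm⟩ := Pool.Agent.W472.AC.e_measP 1 η hη
  obtain ⟨D, hD⟩ : ∃ D : ℤ, D = a * d - b * c := ⟨_, rfl⟩
  rw [← hD] at h
  have hDR : (D : ℝ) = a * d - b * c := by rw [hD]; push_cast; ring
  obtain ⟨M, hM⟩ : ∃ M : ℝ, M = 3 * |(D : ℝ)| + |(b : ℝ)| + |(d : ℝ)| + 1 := ⟨_, rfl⟩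
  have hD0 := abs_nonneg (D : ℝ)
  have hb0 := abs_nonneg (b : ℝ)
  have hd0 := abs_nonneg (d : ℝ)
  have hM1 : 1 ≤ M := by rw [hM]; linarith
  have hM0 : 0 < M := by linarith
  have hMr : 0 < M ^ (1 + η) := Real.rpow_pos_of_pos hM0 _
  have he3 : Real.exp 1 < 3 := by linarith [Real.exp_one_lt_d9]
  have he0 := Real.exp_pos 1
  refine ⟨min 1 (c1 / (M ^ (1 + η) * M)), lt_min one_pos (by positivity), fun t q hq p => ?_⟩
  obtain ⟨U, hU⟩ : ∃ U : ℝ, U = q * (a * Real.exp 1 + b * t) - p 0 := ⟨_, rfl⟩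
  obtain ⟨V, hV⟩ : ∃ V : ℝ, V = q * (c * Real.exp 1 + d * t) - p 1 := ⟨_, rfl⟩
  have hqR : (1 : ℝ) ≤ q := by exact_mod_cast hq
  have hq0 : (0 : ℝ) < q := by linarith
  have hqp : (1 : ℝ) ≤ (q : ℝ) ^ (2 + η - 1) := Real.one_le_rpow hqR (by linarith)
  suffices H : min 1 (c1 / (M ^ (1 + η) * M)) ≤ (q : ℝ) ^ (2 + η - 1) * max |U| |V| by
    rcases le_total |U| |V| with h1 | h1
    · rw [max_eq_right h1] at H
      refine ⟨1, ?_⟩
      rw [Real.rpow_zero, mul_one]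
      rw [hV] at H
      exact H
    · rw [max_eq_left h1] at H
      refine ⟨0, ?_⟩
      rw [Real.rpow_zero, mul_one]
      rw [hU] at H
      exact H
  by_cases hUV : |U| ≤ 1 ∧ |V| ≤ 1
  swap
  · refine (min_le_left _ _).trans ?_
    have h1 : 1 ≤ max |U| |V| := by
      by_contra h2
      push Not at h2
      exact hUV ⟨(le_max_left _ _).trans h2.le, (le_max_right _ _).trans h2.le⟩
    nlinarith
  refine (min_le_right _ _).trans ?_
  rw [div_le_iff₀ (by positivity)]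
  obtain ⟨m, hm'⟩ : ∃ m : ℤ, m = d * p 0 - b * p 1 := ⟨_, rfl⟩
  have hmR : (m : ℝ) = d * p 0 - b * p 1 := by rw [hm']; push_cast; ring
  have hid : (d : ℝ) * U - b * V = q * D * Real.exp 1 - m := by
    rw [hU, hV, hmR, hDR]; ring
  have hdU : |(d : ℝ) * U - b * V| ≤ (|(d : ℝ)| + |(b : ℝ)|) * max |U| |V| := by
    have h1 : |(d : ℝ) * U| ≤ |(d : ℝ)| * max |U| |V| := by
      rw [abs_mul]; exact mul_le_mul_of_nonneg_left (le_max_left _ _) hd0
    have h2 : |(b : ℝ) * V| ≤ |(b : ℝ)| * max |U| |V| := by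
      rw [abs_mul]; exact mul_le_mul_of_nonneg_left (le_max_right _ _) hb0
    have h3 := abs_sub ((d : ℝ) * U) (b * V)
    linarith
  have hmax0 : 0 ≤ max |U| |V| := (abs_nonneg U).trans (le_max_left _ _)
  have hmax1 : max |U| |V| ≤ 1 := max_le hUV.1 hUV.2
  have hmle : |(m : ℝ)| ≤ q * M := by
    have h1 : (m : ℝ) = q * D * Real.exp 1 - (d * U - b * V) := by rw [hid]; ring
    rw [h1]
    have h2 := abs_sub ((q : ℝ) * D * Real.exp 1) (d * U - b * V)
    have h3 : |(q : ℝ) * D * Real.exp 1| ≤ q * (3 * |(D : ℝ)|) := by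
      rw [abs_mul, abs_mul, abs_of_pos hq0, abs_of_pos he0, mul_assoc]
      refine mul_le_mul_of_nonneg_left ?_ hq0.le
      nlinarith
    have h4 : (|(d : ℝ)| + |(b : ℝ)|) * max |U| |V| ≤ q * (|(d : ℝ)| + |(b : ℝ)|) := by
      have h5 : (|(d : ℝ)| + |(b : ℝ)|) * max |U| |V| ≤ (|(d : ℝ)| + |(b : ℝ)|) * 1 :=
        mul_le_mul_of_nonneg_left hmax1 (by positivity)
      nlinarith
    rw [hM]
    nlinarith
  have h1 := hm (C ((q : ℤ) * D) * X - C m) (by
    intro h0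
    have h2 := congrArg (fun f : ℤ[X] => f.coeff 1) h0
    simp only [coeff_sub, coeff_C_mul, coeff_X_one, mul_one, coeff_C, coeff_zero,
      if_neg one_ne_zero, sub_zero] at h2
    rcases mul_eq_zero.1 h2 with h3 | h3
    · have : q = 0 := by exact_mod_cast h3
      omega
    · exact h h3) (by
    refine (natDegree_sub_le _ _).trans ?_
    rw [natDegree_C, max_eq_left (Nat.zero_le _)]
    exact (natDegree_C_mul_le _ _).trans (by rw [natDegree_X])) (q * M) (by nlinarith) (by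
    intro j
    rcases j with _ | _ | j
    · simp only [coeff_sub, coeff_C_mul, coeff_X_zero, mul_zero, coeff_C_zero, zero_sub]
      push_cast
      rw [abs_neg]
      exact hmle
    · simp only [zero_add, coeff_sub, coeff_C_mul, coeff_X_one, mul_one, coeff_C,
        if_neg one_ne_zero, sub_zero]
      push_cast
      rw [abs_mul, abs_of_pos hq0]
      refine mul_le_mul_of_nonneg_left ?_ hq0.le
      rw [hM]
      linarith
    · have h2 : (C ((q : ℤ) * D) * X - C m).coeff (j + 1 + 1) = 0 := by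
        apply coeff_eq_zero_of_natDegree_lt
        refine lt_of_le_of_lt (natDegree_sub_le _ _) ?_
        rw [natDegree_C, max_eq_left (Nat.zero_le _)]
        refine lt_of_le_of_lt (natDegree_C_mul_le _ _) ?_
        rw [natDegree_X]
        omega
      rw [h2]
      simp only [Int.cast_zero, abs_zero]
      positivity)
  have e1 : (aeval (Real.exp 1) (C ((q : ℤ) * D) * X - C m) : ℝ) = d * U - b * V := by
    rw [hid, map_sub, map_mul, aeval_X, aeval_C, aeval_C]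
    simp
  rw [e1, Real.mul_rpow hq0.le hM0.le] at h1
  have e2 : (q : ℝ) ^ (2 + η - 1) = (q : ℝ) ^ ((1 : ℕ) + η) := by
    congr 1
    push_cast
    ring
  have e3 : M ^ ((1 : ℕ) + η) = M ^ (1 + η) := by
    congr 1
    push_cast
    ring
  rw [e2]
  rw [e3] at h1
  have hqp0 : 0 < (q : ℝ) ^ ((1 : ℕ) + η) := Real.rpow_pos_of_pos hq0 _
  have h2 : |(d : ℝ) * U - b * V| ≤ M * max |U| |V| := by
    refine hdU.trans (mul_le_mul_of_nonneg_right ?_ hmax0)
    rw [hM]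
    linarith
  calc c1 ≤ (q : ℝ) ^ ((1 : ℕ) + η) * M ^ (1 + η) * |(d : ℝ) * U - b * V| := h1
    _ ≤ (q : ℝ) ^ ((1 : ℕ) + η) * M ^ (1 + η) * (M * max |U| |V|) :=
        mul_le_mul_of_nonneg_left h2 (by positivity)
    _ = _ := by ring

/-- `Pool.Agent.R473.FP.pieces` with a constant which does not depend on the numbers -/
theorem pieces_unif (J : ℕ) (μ c0 A : ℝ) (hμ : 1 < μ) (hc0 : 0 < c0) (hA0 : 0 ≤ A) :
    ∃ C : ℝ, 0 < C ∧ ∀ x : Fin J → ℝ, Meas J x μ c0 A → ∀ b : ℕ, 2 ≤ b →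
      ∀ (N m r : ℕ) (E : Finset ℕ), E.card ≤ r →
      (∀ u v, u ≤ v → v ≤ N → (∀ i ∈ E, i < u ∨ v ≤ i) → ∃ c : ℕ → ℚ, ∀ j i, u ≤ i → i + m < v →
        (dig (x j) b (i + m + 1) : ℚ) = ∑ l ∈ range m, c l * (dig (x j) b (i + l + 1) : ℚ)) →
      (N : ℝ) ≤ (∑ i ∈ range (r + 1), μ ^ (i + 1)) * (m + C * err m) := by
  obtain ⟨α, hα⟩ : ∃ α : ℝ, α = 3 / 2 * A := ⟨_, rfl⟩
  obtain ⟨β, hβ⟩ : ∃ β : ℝ, β = A + 3 / 2 * |Real.log c0| + 1 := ⟨_, rfl⟩
  obtain ⟨B, hB⟩ : ∃ B : ℝ, B = α / (μ - 1) := ⟨_, rfl⟩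
  have hα0 : 0 ≤ α := by rw [hα]; positivity
  have hβ0 : 0 ≤ β := by rw [hβ]; positivity
  have hμ1 : 0 < μ - 1 := by linarith
  have hB0 : 0 ≤ B := by rw [hB]; positivity
  have hB1 : α ≤ B * (μ - 1) := by
    rw [hB, div_mul_cancel₀ _ hμ1.ne']
  obtain ⟨C, hC0, hC⟩ := Pool.Agent.W47.JL.M2_le μ α β B hμ hα0 hβ0 hB0
  refine ⟨C, hC0, ?_⟩
  intro x hM b hb N m r E hE hrec
  obtain ⟨k, K, hk, hK, hpar⟩ := Pool.Agent.W47.JL.params m
  have hbR : (2 : ℝ) ≤ b := by exact_mod_cast hb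
  have hpar1 : Pool.Agent.W47.JL.M1 b m k K ≤ m + 15 * err m := hpar b hbR
  have hM1 := Pool.Agent.W47.JL.M1_ge b m k K hb
  have hm0 : (0 : ℝ) ≤ m := Nat.cast_nonneg m
  have hk0 : (0 : ℝ) ≤ k := Nat.cast_nonneg k
  have hM10 : 0 ≤ Pool.Agent.W47.JL.M1 b m k K := by linarith
  have hfin := hC m (Pool.Agent.W47.JL.M1 b m k K) hM10 hpar1
  have hmain := Pool.Agent.W47.JL.rec_final μ α β (Pool.Agent.W47.JL.M1 b m k K) B hμ hα0 hβ0 hM10
    hB1 hB0 E N r hE
    (fun u v huv hvN hE' => by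
      obtain ⟨c, hc⟩ := hrec u v huv hvN hE'
      have h := Pool.Agent.R473.FP.piece J x μ c0 A hμ hc0 hA0 hM b hb m k K hk hK u v huv c hc
      rw [← hα, ← hβ] at h
      exact h)
  refine hmain.trans (mul_le_mul_of_nonneg_left hfin ?_)
  exact Finset.sum_nonneg fun i _ => by positivity

/-- two numbers, separate cuts; the constant does not depend on the numbers -/
theorem cut2_unif (μ c0 : ℝ) (hμ : 1 < μ) (hc0 : 0 < c0) :
    ∃ C : ℝ, 0 < C ∧ ∀ x y : ℝ, Meas 2 ![x, y] μ c0 0 → ∀ b : ℕ, 2 ≤ b →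
      ∀ (N m n : ℕ) (E F : Finset ℕ), Cut b x N m E → Cut b y N n F →
      (N : ℝ) ≤ (∑ i ∈ range (E.card + F.card + 1), μ ^ (i + 1)) *
        (((m + n : ℕ) : ℝ) + C * err (m + n)) := by
  classical
  obtain ⟨C, hC0, hC⟩ := pieces_unif 2 μ c0 0 hμ hc0 le_rfl
  refine ⟨C, hC0, fun x y hM b hb N m n E F hE hF => ?_⟩
  refine hC ![x, y] hM b hb N (m + n) (E.card + F.card) (E ∪ F) (card_union_le _ _) ?_
  intro u v huv hvN hE'
  obtain ⟨c, hc⟩ := Pool.Agent.N553.PC.common 2 (fun j i => (dig (![x, y] j) b (i + 1) : ℚ)) ![m, n]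
    u v fun j => by
      fin_cases j
      · obtain ⟨c, hc⟩ := hE u v huv hvN fun i hi => hE' i (mem_union_left _ hi)
        exact ⟨c, hc⟩
      · obtain ⟨c, hc⟩ := hF u v huv hvN fun i hi => hE' i (mem_union_right _ hi)
        exact ⟨c, hc⟩
  rw [Fin.sum_univ_two] at hc
  exact ⟨c, fun j i h1 h2 => hc j i h1 h2⟩

/-- an automaton cuts the digits at its errors -/
theorem cut_of_fs (b : ℕ) (x : ℝ) {Q : ℕ} (δ : Fin Q → ℤ → Fin Q) (q₀ : Fin Q) (out : Fin Q → ℤ)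
    (N : ℕ) : Cut b x N Q
      ((range N).filter fun n => out (run δ q₀ (dig x b) n) ≠ dig x b (n + 1)) := by
  intro u v huv hvN hE
  have hno : ∀ i, u ≤ i → i < v → out (run δ q₀ (dig x b) i) = dig x b (i + 1) := by
    intro i hui hiv
    by_contra hne
    rcases hE i (Finset.mem_filter.2 ⟨Finset.mem_range.2 (by omega), hne⟩) with h | h <;> omega
  obtain ⟨a, p, hp, hap, hper⟩ := periodic_stretch δ q₀ out (dig x b) u v hno
  refine ⟨fun l => if l = Q - p then 1 else 0, fun i hi hiv => ?_⟩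
  rw [Finset.sum_eq_single (Q - p)]
  · change (dig x b (i + Q + 1) : ℚ) = (if Q - p = Q - p then (1 : ℚ) else 0) * _
    rw [if_pos rfl, one_mul]
    have h1 := hper (i - u + (Q - p)) (by omega) (by omega)
    rw [show u + (i - u + (Q - p)) + p + 1 = i + Q + 1 by omega,
      show u + (i - u + (Q - p)) + 1 = i + (Q - p) + 1 by omega] at h1
    rw [h1]
  · intro l _ hl
    change (if l = Q - p then (1 : ℚ) else 0) * _ = 0
    rw [if_neg hl, zero_mul]
  · intro h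
    exact absurd (mem_range.2 (by omega)) h

end Pool.Agent.U455.JM
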