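import Pool.Agent.U455.JM

/-!
# Joint measures from a quadratic relation for `e` with affine coefficients
-/

set_option autoImplicit false

namespace Pool.Agent.U455.JQ

open Finset Polynomial
open Pool.Agent.W47.JL (Meas)

/-- If `e` satisfies an equation of degree at most two whose coefficients are affine forms in `x`, `y`
with integral coefficients, not all zero at `x`, `y`, then `x`, `y` have the joint measure `3 + η`. -/
theorem meas_rel (a : Fin 3 → Fin 3 → ℤ) (x y : ℝ)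
    (h0 : ∑ i : Fin 3, ((a i 0 : ℝ) + a i 1 * x + a i 2 * y) * Real.exp 1 ^ (i : ℕ) = 0)
    (i₀ : Fin 3) (hne : (a i₀ 0 : ℝ) + a i₀ 1 * x + a i₀ 2 * y ≠ 0) (η : ℝ) (hη : 0 < η) :
    ∃ c0 : ℝ, 0 < c0 ∧ Meas 2 ![x, y] (3 + η) c0 0 := by
  obtain ⟨c1, hc1, hm⟩ := Pool.Agent.W472.AC.e_measP 2 η hη
  obtain ⟨S, hS⟩ : ∃ S : ℝ, S = ∑ i : Fin 3, ∑ j : Fin 3, |(a i j : ℝ)| := ⟨_, rfl⟩
  have hS0 : 0 ≤ S := by rw [hS]; positivity
  have hrow : ∀ i, |(a i 0 : ℝ)| + |(a i 1 : ℝ)| + |(a i 2 : ℝ)| ≤ S := by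
    intro i
    have h1 := Finset.single_le_sum (f := fun i : Fin 3 => ∑ j : Fin 3, |(a i j : ℝ)|)
      (fun i _ => by positivity) (mem_univ i)
    rw [← hS] at h1
    rw [Fin.sum_univ_three] at h1
    exact h1
  obtain ⟨s, hs⟩ : ∃ s : ℝ, s = |(a i₀ 0 : ℝ) + a i₀ 1 * x + a i₀ 2 * y| := ⟨_, rfl⟩
  have hs0 : 0 < s := by rw [hs]; exact abs_pos.2 hne
  obtain ⟨M, hM⟩ : ∃ M : ℝ, M = S * (|x| + |y| + 2) + 1 := ⟨_, rfl⟩
  have hx0 := abs_nonneg x
  have hy0 := abs_nonneg y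
  have hM1 : 1 ≤ M := by
    rw [hM]
    have : 0 ≤ S * (|x| + |y| + 2) := by positivity
    linarith
  have hM0 : 0 < M := by linarith
  have he3 : Real.exp 1 < 3 := by linarith [Real.exp_one_lt_d9]
  have he0 := Real.exp_pos 1
  have he1 : 1 ≤ Real.exp 1 := Real.one_le_exp zero_le_one
  have hMr : 0 < M ^ (((2 : ℕ) : ℝ) + η) := Real.rpow_pos_of_pos hM0 _
  obtain ⟨K, hK⟩ : ∃ K : ℝ, K = M ^ (((2 : ℕ) : ℝ) + η) * (9 * S + 1) := ⟨_, rfl⟩
  have hK0 : 0 < K := by rw [hK]; positivity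
  refine ⟨min 1 (min (s / (S + 1)) (c1 / K)), lt_min one_pos (lt_min (by positivity)
    (by positivity)), fun q hq p => ?_⟩
  obtain ⟨U, hU⟩ : ∃ U : ℝ, U = q * x - p 0 := ⟨_, rfl⟩
  obtain ⟨V, hV⟩ : ∃ V : ℝ, V = q * y - p 1 := ⟨_, rfl⟩
  obtain ⟨m, hm'⟩ : ∃ m : ℝ, m = max |U| |V| := ⟨_, rfl⟩
  have hUm : |U| ≤ m := by rw [hm']; exact le_max_left _ _
  have hVm : |V| ≤ m := by rw [hm']; exact le_max_right _ _
  have hm0 : 0 ≤ m := (abs_nonneg U).trans hUm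
  have hqR : (1 : ℝ) ≤ q := by exact_mod_cast hq
  have hq0 : (0 : ℝ) < q := by linarith
  have hqp : (1 : ℝ) ≤ (q : ℝ) ^ (3 + η - 1) := Real.one_le_rpow hqR (by linarith)
  suffices H : min 1 (min (s / (S + 1)) (c1 / K)) ≤ (q : ℝ) ^ (3 + η - 1) * m by
    rcases le_total |U| |V| with h1 | h1
    · rw [hm', max_eq_right h1] at H
      refine ⟨1, ?_⟩
      rw [Real.rpow_zero, mul_one]
      rw [hV] at H
      exact H
    · rw [hm', max_eq_left h1] at H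
      refine ⟨0, ?_⟩
      rw [Real.rpow_zero, mul_one]
      rw [hU] at H
      exact H
  rcases lt_or_ge 1 m with hm1 | hm1
  · refine (min_le_left _ _).trans ?_
    nlinarith
  refine (min_le_right _ _).trans ?_
  -- the integral coefficients
  obtain ⟨n, hn⟩ : ∃ n : Fin 3 → ℤ, n = fun i => a i 0 * q + a i 1 * p 0 + a i 2 * p 1 := ⟨_, rfl⟩
  have hnR : ∀ i, (n i : ℝ) = q * ((a i 0 : ℝ) + a i 1 * x + a i 2 * y) - (a i 1 * U + a i 2 * V) := by
    intro i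
    rw [hn, hU, hV]
    push_cast
    ring
  have herr : ∀ i, |(a i 1 : ℝ) * U + a i 2 * V| ≤ S * m := by
    intro i
    have h1 := abs_add_le ((a i 1 : ℝ) * U) (a i 2 * V)
    rw [abs_mul, abs_mul] at h1
    have h2 := mul_le_mul_of_nonneg_left hUm (abs_nonneg (a i 1 : ℝ))
    have h3 := mul_le_mul_of_nonneg_left hVm (abs_nonneg (a i 2 : ℝ))
    have h4 : (|(a i 1 : ℝ)| + |(a i 2 : ℝ)|) * m ≤ S * m := by
      refine mul_le_mul_of_nonneg_right ?_ hm0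
      have := hrow i
      have h5 := abs_nonneg (a i 0 : ℝ)
      linarith
    linarith
  have hSm : S * m ≤ S := by nlinarith
  have hnle : ∀ i, |(n i : ℝ)| ≤ q * M := by
    intro i
    rw [hnR i]
    have h1 := abs_sub ((q : ℝ) * ((a i 0 : ℝ) + a i 1 * x + a i 2 * y)) (a i 1 * U + a i 2 * V)
    have h2 : |(q : ℝ) * ((a i 0 : ℝ) + a i 1 * x + a i 2 * y)| ≤ q * (S * (|x| + |y| + 1)) := by
      rw [abs_mul, abs_of_pos hq0]
      refine mul_le_mul_of_nonneg_left ?_ hq0.le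
      have h3 := abs_add_le ((a i 0 : ℝ) + a i 1 * x) (a i 2 * y)
      have h4 := abs_add_le (a i 0 : ℝ) (a i 1 * x)
      rw [abs_mul] at h3 h4
      have h5 := hrow i
      have h6 := abs_nonneg (a i 0 : ℝ)
      have h7 := abs_nonneg (a i 1 : ℝ)
      have h8 := abs_nonneg (a i 2 : ℝ)
      have h9 : |(a i 0 : ℝ)| ≤ S := by linarith
      have h10 : |(a i 1 : ℝ)| ≤ S := by linarith
      have h11 : |(a i 2 : ℝ)| ≤ S := by linarith
      have h12 := mul_le_mul_of_nonneg_right h10 hx0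
      have h13 := mul_le_mul_of_nonneg_right h11 hy0
      nlinarith
    have h3 := herr i
    have h4 : S ≤ q * S := by nlinarith
    rw [hM]
    nlinarith
  obtain ⟨P, hP⟩ : ∃ P : ℤ[X], P = ∑ i : Fin 3, C (n i) * X ^ (i : ℕ) := ⟨_, rfl⟩
  have hPc : ∀ j : ℕ, P.coeff j = if h : j < 3 then n ⟨j, h⟩ else 0 := by
    intro j
    rw [hP, finsetSum_coeff]
    simp only [coeff_C_mul_X_pow]
    by_cases hj : j < 3
    · rw [dif_pos hj, Finset.sum_eq_single ⟨j, hj⟩]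
      · simp
      · intro i _ hi
        rw [if_neg]
        intro h
        exact hi (Fin.ext h.symm)
      · intro h; exact absurd (mem_univ _) h
    · rw [dif_neg hj]
      refine Finset.sum_eq_zero fun i _ => ?_
      rw [if_neg]
      have := i.2
      omega
  have hPe : (aeval (Real.exp 1) P : ℝ) =
      - ∑ i : Fin 3, ((a i 1 : ℝ) * U + a i 2 * V) * Real.exp 1 ^ (i : ℕ) := by
    rw [hP, map_sum]
    have h1 : ∀ i : Fin 3, (aeval (Real.exp 1) (C (n i) * X ^ (i : ℕ)) : ℝ) =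
        q * (((a i 0 : ℝ) + a i 1 * x + a i 2 * y) * Real.exp 1 ^ (i : ℕ)) -
          (a i 1 * U + a i 2 * V) * Real.exp 1 ^ (i : ℕ) := by
      intro i
      rw [map_mul, map_pow, aeval_X, aeval_C]
      change ((n i : ℤ) : ℝ) * _ = _
      rw [hnR i]
      ring
    rw [Finset.sum_congr rfl fun i _ => h1 i, Finset.sum_sub_distrib, ← Finset.mul_sum, h0]
    ring
  have hPle : |(aeval (Real.exp 1) P : ℝ)| ≤ (9 * S + 1) * m := by
    rw [hPe, abs_neg]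
    refine (Finset.abs_sum_le_sum_abs _ _).trans ?_
    rw [Fin.sum_univ_three]
    simp only [Fin.val_zero, Fin.val_one, Fin.val_two, pow_zero, mul_one, pow_one]
    have h1 : ∀ i : Fin 3, |((a i 1 : ℝ) * U + a i 2 * V)| ≤ (|(a i 1 : ℝ)| + |(a i 2 : ℝ)|) * m := by
      intro i
      have h1 := abs_add_le ((a i 1 : ℝ) * U) (a i 2 * V)
      rw [abs_mul, abs_mul] at h1
      have h2 := mul_le_mul_of_nonneg_left hUm (abs_nonneg (a i 1 : ℝ))
      have h3 := mul_le_mul_of_nonneg_left hVm (abs_nonneg (a i 2 : ℝ))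
      linarith
    have hsum : (|(a 0 1 : ℝ)| + |(a 0 2 : ℝ)|) + (|(a 1 1 : ℝ)| + |(a 1 2 : ℝ)|) +
        (|(a 2 1 : ℝ)| + |(a 2 2 : ℝ)|) ≤ S := by
      rw [hS, Fin.sum_univ_three, Fin.sum_univ_three, Fin.sum_univ_three, Fin.sum_univ_three]
      have h5 := abs_nonneg (a 0 0 : ℝ)
      have h6 := abs_nonneg (a 1 0 : ℝ)
      have h7 := abs_nonneg (a 2 0 : ℝ)
      linarith
    have g0 := h1 0
    have g1 : |((a 1 1 : ℝ) * U + a 1 2 * V) * Real.exp 1| ≤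
        9 * ((|(a 1 1 : ℝ)| + |(a 1 2 : ℝ)|) * m) := by
      rw [abs_mul, abs_of_pos he0]
      have g2 := h1 1
      have g3 : 0 ≤ |(a 1 1 : ℝ) * U + a 1 2 * V| := abs_nonneg _
      nlinarith
    have g2 : |((a 2 1 : ℝ) * U + a 2 2 * V) * Real.exp 1 ^ 2| ≤
        9 * ((|(a 2 1 : ℝ)| + |(a 2 2 : ℝ)|) * m) := by
      rw [abs_mul, abs_of_pos (pow_pos he0 2)]
      have g2 := h1 2
      have g3 : 0 ≤ |(a 2 1 : ℝ) * U + a 2 2 * V| := abs_nonneg _
      have g4 : Real.exp 1 ^ 2 ≤ 9 := by nlinarith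
      have g5 : 0 ≤ (|(a 2 1 : ℝ)| + |(a 2 2 : ℝ)|) * m := g3.trans g2
      calc _ ≤ ((|(a 2 1 : ℝ)| + |(a 2 2 : ℝ)|) * m) * Real.exp 1 ^ 2 :=
            mul_le_mul_of_nonneg_right g2 (by positivity)
        _ ≤ ((|(a 2 1 : ℝ)| + |(a 2 2 : ℝ)|) * m) * 9 := mul_le_mul_of_nonneg_left g4 g5
        _ = _ := by ring
    have g3 : 0 ≤ (|(a 0 1 : ℝ)| + |(a 0 2 : ℝ)|) * m := by positivity
    have g4 := mul_le_mul_of_nonneg_right hsum hm0
    nlinarith
  by_cases hP0 : P = 0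
  · refine (min_le_left _ _).trans ?_
    have h1 : n i₀ = 0 := by
      have h2 := hPc i₀
      rw [hP0, coeff_zero, dif_pos i₀.2] at h2
      exact h2.symm
    have h2 := hnR i₀
    rw [h1, Int.cast_zero] at h2
    have h3 : (q : ℝ) * s ≤ S * m := by
      have h5 : (q : ℝ) * s = |(q : ℝ) * ((a i₀ 0 : ℝ) + a i₀ 1 * x + a i₀ 2 * y)| := by
        rw [abs_mul, abs_of_pos hq0, hs]
      rw [h5]
      have h4 : (q : ℝ) * ((a i₀ 0 : ℝ) + a i₀ 1 * x + a i₀ 2 * y) = a i₀ 1 * U + a i₀ 2 * V := by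
        linarith
      rw [h4]
      exact herr i₀
    rw [div_le_iff₀ (by linarith)]
    have h4 : s ≤ q * s := by nlinarith
    have h5 : S * m ≤ (q : ℝ) ^ (3 + η - 1) * m * (S + 1) := by
      have h6 : S * m ≤ 1 * (m * (S + 1)) := by nlinarith
      have h7 : 1 * (m * (S + 1)) ≤ (q : ℝ) ^ (3 + η - 1) * (m * (S + 1)) :=
        mul_le_mul_of_nonneg_right hqp (by positivity)
      linarith
    linarith
  · refine (min_le_right _ _).trans ?_
    rw [div_le_iff₀ hK0]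
    have h1 := hm P hP0 (by
      rw [natDegree_le_iff_coeff_eq_zero]
      intro j hj
      rw [hPc, dif_neg (by omega)]) (q * M) (by nlinarith) (by
      intro j
      rw [hPc]
      split_ifs with hj
      · exact hnle _
      · simp only [Int.cast_zero, abs_zero]; positivity)
    rw [Real.mul_rpow hq0.le hM0.le] at h1
    have e2 : (q : ℝ) ^ (3 + η - 1) = (q : ℝ) ^ (((2 : ℕ) : ℝ) + η) := by
      congr 1
      push_cast
      ring
    rw [e2]
    have hqp0 : 0 < (q : ℝ) ^ (((2 : ℕ) : ℝ) + η) := Real.rpow_pos_of_pos hq0 _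
    calc c1 ≤ (q : ℝ) ^ (((2 : ℕ) : ℝ) + η) * M ^ (((2 : ℕ) : ℝ) + η) *
          |(aeval (Real.exp 1) P : ℝ)| := h1
      _ ≤ (q : ℝ) ^ (((2 : ℕ) : ℝ) + η) * M ^ (((2 : ℕ) : ℝ) + η) * ((9 * S + 1) * m) :=
          mul_le_mul_of_nonneg_left hPle (by positivity)
      _ = _ := by rw [hK]; ring

/-- the six pairs -/
theorem meas_four (t : ℝ) (h0 : t ≠ 0) (h1 : t ≠ Real.exp 1) (h2 : t ≠ - Real.exp 1) (i j : Fin 4)
    (hij : i < j) (η : ℝ) (hη : 0 < η) : ∃ c0 : ℝ, 0 < c0 ∧ Meas 2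
      ![(![t + Real.exp 1, t - Real.exp 1, t * Real.exp 1, t / Real.exp 1] : Fin 4 → ℝ) i,
        (![t + Real.exp 1, t - Real.exp 1, t * Real.exp 1, t / Real.exp 1] : Fin 4 → ℝ) j]
      (3 + η) c0 0 := by
  have he0 : Real.exp 1 ≠ 0 := (Real.exp_pos 1).ne'
  have key : ∀ (a b c : Fin 3 → ℤ) (x y : ℝ),
      ((a 0 : ℝ) + a 1 * x + a 2 * y) + ((b 0 : ℝ) + b 1 * x + b 2 * y) * Real.exp 1 +
        ((c 0 : ℝ) + c 1 * x + c 2 * y) * Real.exp 1 ^ 2 = 0 →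
      ((b 0 : ℝ) + b 1 * x + b 2 * y ≠ 0 ∨ (c 0 : ℝ) + c 1 * x + c 2 * y ≠ 0) →
      ∃ c0 : ℝ, 0 < c0 ∧ Meas 2 ![x, y] (3 + η) c0 0 := by
    intro a b c x y hr hne
    have hs : ∑ i : Fin 3, (((![a, b, c] : Fin 3 → Fin 3 → ℤ) i 0 : ℝ) +
        (![a, b, c] : Fin 3 → Fin 3 → ℤ) i 1 * x + (![a, b, c] : Fin 3 → Fin 3 → ℤ) i 2 * y) *
        Real.exp 1 ^ (i : ℕ) = 0 := by
      rw [Fin.sum_univ_three]
      change ((a 0 : ℝ) + a 1 * x + a 2 * y) * Real.exp 1 ^ 0 +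
        ((b 0 : ℝ) + b 1 * x + b 2 * y) * Real.exp 1 ^ 1 +
        ((c 0 : ℝ) + c 1 * x + c 2 * y) * Real.exp 1 ^ 2 = 0
      rw [pow_zero, pow_one, mul_one]
      exact hr
    rcases hne with h | h
    · exact meas_rel ![a, b, c] x y hs 1 h η hη
    · exact meas_rel ![a, b, c] x y hs 2 h η hη
  have hv : ∀ a b c : ℤ, (![a, b, c] : Fin 3 → ℤ) 0 = a ∧ (![a, b, c] : Fin 3 → ℤ) 1 = b ∧
      (![a, b, c] : Fin 3 → ℤ) 2 = c := fun a b c => ⟨rfl, rfl, rfl⟩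
  obtain ⟨e, he⟩ : ∃ e : ℝ, e = Real.exp 1 := ⟨_, rfl⟩
  simp only [← he] at key he0 h1 h2 ⊢
  fin_cases i <;> fin_cases j <;> first | exact absurd hij (by decide) | skip
  · refine key ![0, -1, 1] ![2, 0, 0] ![0, 0, 0] (t + e) (t - e) ?_ (Or.inl ?_)
    · simp only [(hv _ _ _).1, (hv _ _ _).2.1, (hv _ _ _).2.2]
      push_cast
      ring
    · simp only [(hv _ _ _).1, (hv _ _ _).2.1, (hv _ _ _).2.2]
      push_cast
      norm_num
  · refine key ![0, 0, 1] ![0, -1, 0] ![1, 0, 0] (t + e) (t * e) ?_ (Or.inr ?_)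
    · simp only [(hv _ _ _).1, (hv _ _ _).2.1, (hv _ _ _).2.2]
      push_cast
      ring
    · simp only [(hv _ _ _).1, (hv _ _ _).2.1, (hv _ _ _).2.2]
      push_cast
      norm_num
  · refine key ![0, -1, 0] ![1, 0, 1] ![0, 0, 0] (t + e) (t / e) ?_ (Or.inl ?_)
    · simp only [(hv _ _ _).1, (hv _ _ _).2.1, (hv _ _ _).2.2]
      push_cast
      field_simp
      ring
    · simp only [(hv _ _ _).1, (hv _ _ _).2.1, (hv _ _ _).2.2]
      push_cast
      intro h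
      apply h2
      field_simp at h
      linarith
  · refine key ![0, 0, -1] ![0, 1, 0] ![1, 0, 0] (t - e) (t * e) ?_ (Or.inr ?_)
    · simp only [(hv _ _ _).1, (hv _ _ _).2.1, (hv _ _ _).2.2]
      push_cast
      ring
    · simp only [(hv _ _ _).1, (hv _ _ _).2.1, (hv _ _ _).2.2]
      push_cast
      norm_num
  · refine key ![0, -1, 0] ![-1, 0, 1] ![0, 0, 0] (t - e) (t / e) ?_ (Or.inl ?_)
    · simp only [(hv _ _ _).1, (hv _ _ _).2.1, (hv _ _ _).2.2]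
      push_cast
      field_simp
      ring
    · simp only [(hv _ _ _).1, (hv _ _ _).2.1, (hv _ _ _).2.2]
      push_cast
      intro h
      apply h1
      field_simp at h
      linarith
  · refine key ![0, -1, 0] ![0, 0, 0] ![0, 0, 1] (t * e) (t / e) ?_ (Or.inr ?_)
    · simp only [(hv _ _ _).1, (hv _ _ _).2.1, (hv _ _ _).2.2]
      push_cast
      field_simp
      ring
    · simp only [(hv _ _ _).1, (hv _ _ _).2.1, (hv _ _ _).2.2]
      push_cast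
      intro h
      apply h0
      field_simp at h
      linarith

end Pool.Agent.U455.JQ
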