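import Pool.Agent.U455.JM

/-!
# Explicit dependence on the constant of the measure
-/

set_option autoImplicit false

namespace Pool.Agent.U455.JX

open Finset Polynomial
open Pool.Agent.H831R3.LC (dig)
open Pool.Agent.W47.JL (Meas err)
open Pool.Agent.N553.PC (Cut)
open Pool.Agent.R473.FP (run errors periodic_stretch)

/-- pieces with a linear recurrence: explicit constants -/
theorem pieces_exp (J : ℕ) (μ c0 : ℝ) (hμ : 1 < μ) (hc0 : 0 < c0) (x : Fin J → ℝ)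
    (hM : Meas J x μ c0 0) (b : ℕ) (hb : 2 ≤ b) (N m r : ℕ) (E : Finset ℕ) (hE : E.card ≤ r)
    (hrec : ∀ u v, u ≤ v → v ≤ N → (∀ i ∈ E, i < u ∨ v ≤ i) → ∃ c : ℕ → ℚ, ∀ j i, u ≤ i → i + m < v →
        (dig (x j) b (i + m + 1) : ℚ) = ∑ l ∈ range m, c l * (dig (x j) b (i + l + 1) : ℚ)) :
    (N : ℝ) ≤ (∑ i ∈ range (r + 1), μ ^ (i + 1)) * (m + 15 * err m + 3 * |Real.log c0| + 3) := by
  obtain ⟨β, hβ⟩ : ∃ β : ℝ, β = 3 / 2 * |Real.log c0| + 1 := ⟨_, rfl⟩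
  have hβ0 : 0 ≤ β := by rw [hβ]; positivity
  obtain ⟨k, K, hk, hK, hpar⟩ := Pool.Agent.W47.JL.params m
  have hbR : (2 : ℝ) ≤ b := by exact_mod_cast hb
  have hpar1 : Pool.Agent.W47.JL.M1 b m k K ≤ m + 15 * err m := hpar b hbR
  have hM1 := Pool.Agent.W47.JL.M1_ge b m k K hb
  have hm0 : (0 : ℝ) ≤ m := Nat.cast_nonneg m
  have hk0 : (0 : ℝ) ≤ k := Nat.cast_nonneg k
  have hM10 : 0 ≤ Pool.Agent.W47.JL.M1 b m k K := by linarith
  have hmain := Pool.Agent.W47.JL.rec_final μ 0 β (Pool.Agent.W47.JL.M1 b m k K) 0 hμ le_rfl hβ0 hM10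
    (by simp) le_rfl E N r hE
    (fun u v huv hvN hE' => by
      obtain ⟨c, hc⟩ := hrec u v huv hvN hE'
      have h := Pool.Agent.R473.FP.piece J x μ c0 0 hμ hc0 le_rfl hM b hb m k K hk hK u v huv c hc
      rw [hβ]
      linarith)
  refine hmain.trans (mul_le_mul_of_nonneg_left ?_ (Finset.sum_nonneg fun i _ => by positivity))
  unfold Pool.Agent.W47.JL.M2
  rw [hβ]
  linarith

/-- two numbers, separate cuts: explicit constants -/
theorem cut2_exp (μ c0 : ℝ) (hμ : 1 < μ) (hc0 : 0 < c0) (x y : ℝ) (hM : Meas 2 ![x, y] μ c0 0)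
    (b : ℕ) (hb : 2 ≤ b) (N m n : ℕ) (E F : Finset ℕ) (hE : Cut b x N m E) (hF : Cut b y N n F) :
    (N : ℝ) ≤ (∑ i ∈ range (E.card + F.card + 1), μ ^ (i + 1)) *
        (((m + n : ℕ) : ℝ) + 15 * err (m + n) + 3 * |Real.log c0| + 3) := by
  classical
  refine pieces_exp 2 μ c0 hμ hc0 ![x, y] hM b hb N (m + n) (E.card + F.card) (E ∪ F)
    (card_union_le _ _) ?_
  intro u v huv hvN hE'
  obtain ⟨c, hc⟩ := Pool.Agent.N553.PC.common 2 (fun j i => (dig (![x, y] j) b (i + 1) : ℚ)) ![m, n]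
    u v fun j => by
      fin_cases j
      · obtain ⟨c, hc⟩ := hE u v huv hvN fun i hi => hE' i (mem_union_left _ hi)
        exact ⟨c, hc⟩
      · obtain ⟨c, hc⟩ := hF u v huv hvN fun i hi => hE' i (mem_union_right _ hi)
        exact ⟨c, hc⟩
  rw [Fin.sum_univ_two] at hc
  exact ⟨c, fun j i h1 h2 => hc j i h1 h2⟩

/-- one number, cuts: explicit constants -/
theorem cut1_exp (μ c0 : ℝ) (hμ : 1 < μ) (hc0 : 0 < c0) (x : ℝ)
    (hM : ∀ q : ℕ, 1 ≤ q → ∀ p : ℤ, c0 ≤ (q : ℝ) ^ (μ - 1) * |q * x - p|)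
    (b : ℕ) (hb : 2 ≤ b) (N m : ℕ) (E : Finset ℕ) (hE : Cut b x N m E) :
    (N : ℝ) ≤ (∑ i ∈ range (E.card + 1), μ ^ (i + 1)) *
        ((m : ℝ) + 15 * err m + 3 * |Real.log c0| + 3) := by
  refine pieces_exp 1 μ c0 hμ hc0 (fun _ => x) (fun q hq p => ⟨0, ?_⟩) b hb N m E.card E le_rfl ?_
  · rw [Real.rpow_zero, mul_one]
    exact hM q hq (p 0)
  · intro u v huv hvN hE'
    obtain ⟨c, hc⟩ := hE u v huv hvN hE'
    exact ⟨c, fun _ i h1 h2 => hc i h1 h2⟩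

/-- one number, automata: explicit constants -/
theorem fs_exp (x μ c0 : ℝ) (hμ : 1 < μ) (hc0 : 0 < c0)
    (hM : ∀ q : ℕ, 1 ≤ q → ∀ p : ℤ, c0 ≤ (q : ℝ) ^ (μ - 1) * |q * x - p|)
    (b : ℕ) (hb : 2 ≤ b) (Q : ℕ) (δ : Fin Q → ℤ → Fin Q) (q₀ : Fin Q) (out : Fin Q → ℤ) (N : ℕ) :
    (N : ℝ) ≤ (∑ i ∈ range (errors δ q₀ out (dig x b) N + 1), μ ^ (i + 1)) *
        (Q + 3 * |Real.log c0| + 1) := by
  obtain ⟨β, hβ⟩ : ∃ β : ℝ, β = 3 / 2 * |Real.log c0| := ⟨_, rfl⟩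
  have hβ0 : 0 ≤ β := by rw [hβ]; positivity
  have hM' : ∀ q : ℕ, 1 ≤ q → ∀ p : ℤ,
      c0 ≤ (q : ℝ) ^ (μ - 1) * (1 + Real.log q) ^ (0 : ℝ) * |q * x - p| := by
    intro q hq p
    rw [Real.rpow_zero, mul_one]
    exact hM q hq p
  have hmain := Pool.Agent.W47.JL.rec_final μ 0 β (Q : ℝ) 0 hμ le_rfl hβ0 (Nat.cast_nonneg Q)
    (by simp) le_rfl
    ((range N).filter fun n => out (run δ q₀ (dig x b) n) ≠ dig x b (n + 1)) N
    (errors δ q₀ out (dig x b) N) le_rfl (fun u v huv hvN hE => by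
      have hno : ∀ i, u ≤ i → i < v → out (run δ q₀ (dig x b) i) = dig x b (i + 1) := by
        intro i hui hiv
        by_contra hne
        rcases hE i (Finset.mem_filter.2 ⟨Finset.mem_range.2 (by omega), hne⟩) with h | h <;> omega
      obtain ⟨a, p, hp, hap, hper⟩ := periodic_stretch δ q₀ out (dig x b) u v hno
      have h := Pool.Agent.R473.FP.gap_fs x μ c0 0 hμ hc0 le_rfl hM' b hb Q u v a p hp hap hper
      rw [hβ]
      linarith)
  refine hmain.trans (mul_le_mul_of_nonneg_left ?_ (Finset.sum_nonneg fun i _ => by positivity))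
  unfold Pool.Agent.W47.JL.M2
  rw [hβ]
  linarith

/-- **Large scales.** A bound `N ≤ (μ + ⋯ + μ^(R+1)) (K N^θ + K)` with `R ≤ a log N` fails for large
`N`, if `a log μ + θ < 1`. -/
theorem large (μ θ a K : ℝ) (hμ : 1 < μ) (ha : 0 ≤ a) (hK : 0 ≤ K)
    (h : a * Real.log μ + θ < 1) : ∃ N₀ : ℕ, 1 ≤ N₀ ∧ ∀ N : ℕ, N₀ ≤ N → ∀ R : ℕ,
      (R : ℝ) ≤ a * Real.log N →
      ¬ (N : ℝ) ≤ (∑ i ∈ range (R + 1), μ ^ (i + 1)) * (K * (N : ℝ) ^ θ) := by
  have hlμ : 0 < Real.log μ := Real.log_pos hμ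
  obtain ⟨N₀, hN₀, H⟩ := Pool.Agent.N553.PC.eventually_lt (K * μ) a (a * Real.log μ + θ)
    (by positivity) ha h
  refine ⟨N₀, hN₀, fun N hN R hR hcon => ?_⟩
  have hN1 : 1 ≤ N := by omega
  have hNR : (1 : ℝ) ≤ N := by exact_mod_cast hN1
  have hN0 : (0 : ℝ) < N := by linarith
  have h1 := Pool.Agent.N553.PC.geom_le μ hμ.le R
  have h2 : μ ^ (R + 1) ≤ μ * (N : ℝ) ^ (a * Real.log μ) := by
    rw [pow_succ, mul_comm]
    refine mul_le_mul_of_nonneg_left ?_ (by linarith)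
    rw [← Real.rpow_natCast μ R, Real.rpow_def_of_pos (by linarith), Real.rpow_def_of_pos hN0]
    refine Real.exp_le_exp.2 ?_
    have := mul_le_mul_of_nonneg_left hR hlμ.le
    linarith
  have h3 : (0 : ℝ) < (N : ℝ) ^ θ := Real.rpow_pos_of_pos hN0 _
  have h4 : (0 : ℝ) < (N : ℝ) ^ (a * Real.log μ) := Real.rpow_pos_of_pos hN0 _
  have h5 : (R : ℝ) + 1 ≤ a * Real.log N + 1 := by linarith
  have h6 : ∑ i ∈ range (R + 1), μ ^ (i + 1) ≤
      (a * Real.log N + 1) * (μ * (N : ℝ) ^ (a * Real.log μ)) :=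
    h1.trans (mul_le_mul h5 h2 (by positivity) (by
      have := Real.log_nonneg hNR
      positivity))
  have h7 := mul_le_mul_of_nonneg_right h6 (show 0 ≤ K * (N : ℝ) ^ θ by positivity)
  have h8 : (a * Real.log N + 1) * (μ * (N : ℝ) ^ (a * Real.log μ)) * (K * (N : ℝ) ^ θ) =
      K * μ * (a * Real.log N + 1) * (N : ℝ) ^ (a * Real.log μ + θ) := by
    rw [Real.rpow_add hN0]
    ring
  have h9 := H N hN
  linarith

end Pool.Agent.U455.JX
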