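import Mathlib
import Pool.Agent.U455.KTW

/-!
# Bounded sums of diameters of popular shapes in sets of primes of positive relative density in intervals
-/

set_option autoImplicit false

namespace Pool.Agent.U455.KTX

open Finset Filter
open Pool.Agent.U455.KTW (shp pos diam)

open Classical in
/-- the predicate -/
def Dm (Q : Finset ℕ) (j : ℕ) (κ V : ℝ) (k : ℕ) : Prop :=
  κ * (k : ℝ) ^ j ≤ (((shp j (2 * k)).filter (fun T => κ * V ≤ ((pos Q T).card : ℝ))).card : ℝ)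

lemma Dm_mono {Q : Finset ℕ} {j : ℕ} {κ κ' V : ℝ} (h : κ ≤ κ') (hV : 0 ≤ V) {k : ℕ} (hk : Dm Q j κ' V k) :
    Dm Q j κ V k := by
  classical
  unfold Dm at hk ⊢
  refine (mul_le_mul_of_nonneg_right h (by positivity)).trans (hk.trans (Nat.cast_le.2 (card_le_card fun T hT => ?_)))
  rw [mem_filter] at hT ⊢
  exact ⟨hT.1, (mul_le_mul_of_nonneg_right h hV).trans hT.2⟩

open Classical in
theorem diam' (j : ℕ) (δ : ℝ) (hδ : 0 < δ) (b : ℕ) (hb : 1 ≤ b) : ∃ κ ρ K : ℝ, 0 < κ ∧ 0 < ρ ∧ 0 < K ∧ ∃ X₀ : ℕ,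
    ∀ a H : ℕ, X₀ ≤ H → H ≤ a → ∀ Q : Finset ℕ, Q ⊆ Ioc a (a + H) → (∀ p ∈ Q, p.Prime) →
      δ * (H / Real.log H) ≤ Q.card → ∀ L : ℕ, K * Real.log H ≤ L → 2 * b * L ≤ H →
      ρ * L ≤ (((Icc 1 L).filter (fun k => Dm Q j κ (H / Real.log H ^ (j + 2)) (b * k))).card : ℝ) := by
  obtain ⟨κ, ρ, K, hκ, hρ, hK, X₀, h⟩ := diam j δ hδ b hb
  refine ⟨κ, ρ, K, hκ, hρ, hK, X₀, fun a H hH hHa Q hQ hQp hQc L hL hLH => ?_⟩
  refine (h a H hH hHa Q hQ hQp hQc L hL hLH).trans (Nat.cast_le.2 (card_le_card fun k hk => ?_))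
  rw [mem_filter] at hk ⊢
  refine ⟨hk.1, ?_⟩
  unfold Dm
  rw [← mul_assoc]
  exact hk.2

open Classical in
theorem diams (j : ℕ) (δ : ℝ) (hδ : 0 < δ) (D : ℕ) : ∃ κ ρ K : ℝ, 0 < κ ∧ 0 < ρ ∧ 0 < K ∧ ∃ X₀ : ℕ,
    ∀ b : ℕ, 1 ≤ b → b ≤ D → ∀ a H : ℕ, X₀ ≤ H → H ≤ a → ∀ Q : Finset ℕ, Q ⊆ Ioc a (a + H) → (∀ p ∈ Q, p.Prime) →
      δ * (H / Real.log H) ≤ Q.card → ∀ L : ℕ, K * Real.log H ≤ L → 2 * b * L ≤ H →
      ρ * L ≤ (((Icc 1 L).filter (fun k => Dm Q j κ (H / Real.log H ^ (j + 2)) (b * k))).card : ℝ) := by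
  induction D with
  | zero =>
    refine ⟨1, 1, 1, one_pos, one_pos, one_pos, 0, fun b h1 h2 => ?_⟩
    omega
  | succ D ih =>
    obtain ⟨κ₁, ρ₁, K₁, hκ₁, hρ₁, hK₁, X₁, h₁⟩ := ih
    obtain ⟨κ₂, ρ₂, K₂, hκ₂, hρ₂, hK₂, X₂, h₂⟩ := diam' j δ hδ (D + 1) (by omega)
    refine ⟨min κ₁ κ₂, min ρ₁ ρ₂, max K₁ K₂, lt_min hκ₁ hκ₂, lt_min hρ₁ hρ₂, lt_max_of_lt_left hK₁,
      max X₁ X₂, fun b hb1 hb2 a H hH hHa Q hQ hQp hQc L hL hLH => ?_⟩
    have hlog : 0 ≤ Real.log (H : ℝ) := Real.log_natCast_nonneg H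
    have hL0 : (0 : ℝ) ≤ L := Nat.cast_nonneg _
    have hV : 0 ≤ (H : ℝ) / Real.log H ^ (j + 2) := by positivity
    have key : ∀ κ' ρ' : ℝ, min κ₁ κ₂ ≤ κ' → min ρ₁ ρ₂ ≤ ρ' →
        ρ' * L ≤ (((Icc 1 L).filter (fun k => Dm Q j κ' (H / Real.log H ^ (j + 2)) (b * k))).card : ℝ) →
        min ρ₁ ρ₂ * L ≤ (((Icc 1 L).filter (fun k =>
          Dm Q j (min κ₁ κ₂) (H / Real.log H ^ (j + 2)) (b * k))).card : ℝ) := by
      intro κ' ρ' h3 h4 h5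
      refine (mul_le_mul_of_nonneg_right h4 hL0).trans (h5.trans (Nat.cast_le.2 (card_le_card fun k hk => ?_)))
      rw [mem_filter] at hk ⊢
      exact ⟨hk.1, Dm_mono h3 hV hk.2⟩
    rcases Nat.lt_or_ge D b with h3 | h3
    · have hb : b = D + 1 := by omega
      subst hb
      exact key κ₂ ρ₂ (min_le_right _ _) (min_le_right _ _) (h₂ a H ((le_max_right _ _).trans hH) hHa Q hQ hQp hQc L
        ((mul_le_mul_of_nonneg_right (le_max_right _ _) hlog).trans hL) hLH)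
    · exact key κ₁ ρ₁ (min_le_left _ _) (min_le_left _ _) (h₁ b hb1 h3 a H ((le_max_left _ _).trans hH) hHa Q hQ
        hQp hQc L ((mul_le_mul_of_nonneg_right (le_max_left _ _) hlog).trans hL) hLH)

open Classical in
/-- **Bounded sums of the diameters of popular shapes.** -/
theorem main (j : ℕ) (δ : ℝ) (hδ : 0 < δ) : ∃ h M : ℕ, 1 ≤ M ∧ ∃ κ K : ℝ, 0 < κ ∧ 0 < K ∧ ∃ X₀ : ℕ,
    ∀ a H : ℕ, X₀ ≤ H → H ≤ a → ∀ Q : Finset ℕ, Q ⊆ Ioc a (a + H) → (∀ p ∈ Q, p.Prime) →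
      δ * (H / Real.log H) ≤ Q.card → ∀ t : ℕ, M ∣ t → K * Real.log H ≤ t → t ≤ H →
      ∃ l : List ℕ, l.length ≤ h ∧ l.sum = t ∧ ∀ d ∈ l, 1 ≤ d ∧
        κ * (d : ℝ) ^ j ≤ (((shp j d).filter (fun T =>
          κ * (H / Real.log H ^ (j + 2)) ≤ ((pos Q T).card : ℝ))).card : ℝ) := by
  obtain ⟨κ₁, ρ₁, K₁, hκ₁, hρ₁, hK₁, X₁, h₁⟩ := diam' j δ hδ 1 le_rfl
  obtain ⟨D, hD⟩ : ∃ D : ℕ, 1 / ((D : ℝ) + 1) < ρ₁ := exists_nat_one_div_lt hρ₁
  obtain ⟨D', hD'⟩ : ∃ D', D' = max D 1 := ⟨_, rfl⟩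
  have hD1 : 1 ≤ D' := by rw [hD']; exact le_max_right _ _
  have hDρ : 1 / ((D' : ℝ) + 1) < ρ₁ := by
    refine lt_of_le_of_lt ?_ hD
    apply one_div_le_one_div_of_le (by positivity)
    have : (D : ℝ) ≤ D' := by rw [hD']; exact_mod_cast le_max_left _ _
    linarith
  obtain ⟨κ₂, σ, K₂, hκ₂, hσ, hK₂, X₂, h₂⟩ := diams j δ hδ D'
  obtain ⟨h, C, N₀, hmain⟩ := BTG.main D' hD1 ρ₁ σ hDρ hσ
  obtain ⟨κ, hκ⟩ : ∃ κ, κ = min κ₁ κ₂ := ⟨_, rfl⟩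
  obtain ⟨K, hK⟩ : ∃ K, K = max K₁ K₂ := ⟨_, rfl⟩
  have hκ0 : 0 < κ := by rw [hκ]; exact lt_min hκ₁ hκ₂
  have hK0 : 0 < K := by rw [hK]; exact lt_max_of_lt_left hK₁
  have hlim : Tendsto (fun H : ℕ => K * Real.log (H : ℝ)) atTop atTop :=
    (Real.tendsto_log_atTop.comp tendsto_natCast_atTop_atTop).const_mul_atTop hK0
  obtain ⟨X₃, hX₃⟩ := eventually_atTop.1 (hlim.eventually_ge_atTop (max (N₀ : ℝ) 1))
  refine ⟨h, 2 * D'.factorial, Nat.mul_pos (by norm_num) (Nat.factorial_pos _), κ / 2 ^ j, 4 * C * K + 1,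
    by positivity, by positivity, max X₁ (max X₂ X₃), fun a H hH hHa Q hQ hQp hQc t hMt htK htH => ?_⟩
  have hX₁ : X₁ ≤ H := (le_max_left _ _).trans hH
  have hX₂ : X₂ ≤ H := (le_max_left _ _).trans ((le_max_right _ _).trans hH)
  have hX₃' : X₃ ≤ H := (le_max_right _ _).trans ((le_max_right _ _).trans hH)
  have hKl := hX₃ H hX₃'
  have hKl1 : (N₀ : ℝ) ≤ K * Real.log H := (le_max_left _ _).trans hKl
  have hKl2 : 1 ≤ K * Real.log H := (le_max_right _ _).trans hKl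
  have hlog : 0 ≤ Real.log (H : ℝ) := Real.log_natCast_nonneg H
  obtain ⟨V, hVd⟩ : ∃ V : ℝ, V = H / Real.log H ^ (j + 2) := ⟨_, rfl⟩
  have hV : 0 ≤ V := by rw [hVd]; positivity
  obtain ⟨N, hN⟩ : ∃ N, N = ⌈K * Real.log H⌉₊ := ⟨_, rfl⟩
  have hN1 : K * Real.log H ≤ N := by rw [hN]; exact Nat.le_ceil _
  have hN2 : (N : ℝ) ≤ 2 * (K * Real.log H) := by
    have : (N : ℝ) < K * Real.log H + 1 := by rw [hN]; exact Nat.ceil_lt_add_one (by linarith)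
    linarith
  have hN0 : N₀ ≤ N := by
    have : (N₀ : ℝ) ≤ N := hKl1.trans hN1
    exact_mod_cast this
  obtain ⟨u, hu⟩ := hMt
  have htu : t = 2 * (D'.factorial * u) := by rw [hu]; ring
  have hCN : C * N ≤ D'.factorial * u := by
    have h1 : (t : ℝ) = 2 * ((D'.factorial * u : ℕ) : ℝ) := by rw [htu]; push_cast; ring
    have h2 : ((C * N : ℕ) : ℝ) ≤ ((D'.factorial * u : ℕ) : ℝ) := by
      have hC : (0 : ℝ) ≤ C := Nat.cast_nonneg _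
      have h3 : (C : ℝ) * N ≤ C * (2 * (K * Real.log H)) := mul_le_mul_of_nonneg_left hN2 hC
      rw [h1] at htK
      rw [Nat.cast_mul]
      nlinarith
    exact_mod_cast h2
  obtain ⟨l, hl, hl', hl''⟩ := hmain (Dm Q j κ V) N (H / 2) hN0 (by
      intro H' hNH hH2
      have h3 := h₁ a H hX₁ hHa Q hQ hQp hQc H' (by
        have h4 : (N : ℝ) ≤ H' := by exact_mod_cast hNH
        refine le_trans ?_ (hN1.trans h4)
        exact mul_le_mul_of_nonneg_right (by rw [hK]; exact le_max_left _ _) hlog) (by omega)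
      refine h3.trans (Nat.cast_le.2 (card_le_card fun k hk => ?_))
      rw [mem_filter] at hk ⊢
      refine ⟨hk.1, ?_⟩
      have h5 := hk.2
      rw [one_mul, ← hVd] at h5
      exact Dm_mono (by rw [hκ]; exact min_le_left _ _) hV h5) (by
      intro d H' hd1 hd2 hNH hH2
      have h3 := h₂ d hd1 hd2 a H hX₂ hHa Q hQ hQp hQc H' (by
        have h4 : (N : ℝ) ≤ H' := by exact_mod_cast hNH
        refine le_trans ?_ (hN1.trans h4)
        exact mul_le_mul_of_nonneg_right (by rw [hK]; exact le_max_right _ _) hlog) (by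
          rw [mul_assoc]
          omega)
      refine h3.trans (Nat.cast_le.2 (card_le_card fun k hk => ?_))
      rw [mem_filter] at hk ⊢
      refine ⟨hk.1, ?_⟩
      have h5 := hk.2
      rw [← hVd] at h5
      exact Dm_mono (by rw [hκ]; exact min_le_right _ _) hV h5)
    (D'.factorial * u) (dvd_mul_right _ _) hCN (by omega)
  have key : ∀ l : List ℕ, (l.map (fun y => 2 * y)).sum = 2 * l.sum := by
    intro l
    induction l with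
    | nil => simp
    | cons b l ih =>
      rw [List.map_cons, List.sum_cons, ih, List.sum_cons]
      ring
  refine ⟨l.map (fun y => 2 * y), by rwa [List.length_map], by rw [key, hl'', htu], fun d hd => ?_⟩
  obtain ⟨k, hk, rfl⟩ := List.mem_map.1 hd
  obtain ⟨h6, h7⟩ := hl' k hk
  refine ⟨by omega, ?_⟩
  unfold Dm at h6
  have hκκ : κ / 2 ^ j ≤ κ := div_le_self hκ0.le (one_le_pow₀ (by norm_num))
  have h8 : κ / 2 ^ j * ((2 * k : ℕ) : ℝ) ^ j = κ * (k : ℝ) ^ j := by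
    push_cast
    rw [mul_pow]
    field_simp
  rw [h8, ← hVd]
  refine h6.trans (Nat.cast_le.2 (card_le_card fun T hT => ?_))
  rw [mem_filter] at hT ⊢
  exact ⟨hT.1, (mul_le_mul_of_nonneg_right hκκ hV).trans hT.2⟩

end Pool.Agent.U455.KTX
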