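import Mathlib

/-!
# Closed sets of reals which meet the differences of any five points: three elements reach every real

A closed set `T` of reals such that any five reals have a difference in `T`: every `x ≥ 0` is a sum of three reals `s` with
`|s| ∈ T`, `|s| ≤ 2 x`. (For `T = {t | dist(t, ℤ) ≤ 1 / 5}` two such numbers do not suffice.)
-/

set_option autoImplicit false

namespace Pool.Agent.U455.LPT

open Set Filter Topology Pointwise

theorem unordered {T : Set ℝ} (h5 : ∀ β : Fin 5 → ℝ, StrictMono β → ∃ i j : Fin 5, i < j ∧ β j - β i ∈ T)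
    (s : Finset ℝ) (hs : s.card = 5) : ∃ a ∈ s, ∃ b ∈ s, a < b ∧ b - a ∈ T := by
  obtain ⟨i, j, hij, h⟩ := h5 (s.orderEmbOfFin hs) (s.orderEmbOfFin hs).strictMono
  exact ⟨_, s.orderEmbOfFin_mem hs i, _, s.orderEmbOfFin_mem hs j, (s.orderEmbOfFin hs).strictMono hij, h⟩

theorem zero_mem {T : Set ℝ} (hT : IsClosed T)
    (h5 : ∀ β : Fin 5 → ℝ, StrictMono β → ∃ i j : Fin 5, i < j ∧ β j - β i ∈ T) : (0 : ℝ) ∈ T := by
  rw [← hT.closure_eq, Metric.mem_closure_iff]
  intro ε hε
  obtain ⟨i, j, hij, h⟩ := h5 (fun i => (i : ℝ) * (ε / 5)) (by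
    intro i j hij
    have : (i : ℝ) < j := by exact_mod_cast hij
    show (i : ℝ) * (ε / 5) < j * (ε / 5)
    exact mul_lt_mul_of_pos_right this (by linarith))
  refine ⟨_, h, ?_⟩
  rw [Real.dist_eq, zero_sub, abs_neg]
  have h1 : (i : ℝ) < j := by exact_mod_cast hij
  have h2 : (j : ℝ) < 5 := by exact_mod_cast j.2
  have h3 : (0 : ℝ) ≤ i := by positivity
  have e : (j : ℝ) * (ε / 5) - i * (ε / 5) = (j - i) * (ε / 5) := by ring
  rw [e, abs_of_pos (mul_pos (by linarith) (by linarith))]
  nlinarith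

/-- **three elements reach every real** -/
theorem three {T : Set ℝ} (hT : IsClosed T)
    (h5 : ∀ β : Fin 5 → ℝ, StrictMono β → ∃ i j : Fin 5, i < j ∧ β j - β i ∈ T) (x : ℝ) (hx : 0 ≤ x) :
    ∃ s₁ s₂ s₃ : ℝ, x = s₁ + s₂ + s₃ ∧ (|s₁| ∈ T ∧ |s₁| ≤ 2 * x) ∧ (|s₂| ∈ T ∧ |s₂| ≤ 2 * x) ∧
      (|s₃| ∈ T ∧ |s₃| ≤ 2 * x) := by
  have h0 := zero_mem hT h5
  rcases hx.eq_or_lt with rfl | hx
  · exact ⟨0, 0, 0, by ring, by simp [h0], by simp [h0], by simp [h0]⟩
  by_contra hcon
  -- the compact set of the elements of size at most `2 x`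
  obtain ⟨K, hK⟩ : ∃ K : Set ℝ, K = {s | |s| ∈ T ∧ |s| ≤ 2 * x} := ⟨_, rfl⟩
  have hmK : ∀ s, s ∈ K ↔ |s| ∈ T ∧ |s| ≤ 2 * x := fun s => by rw [hK]; rfl
  have hKc : IsCompact K := by
    have h1 : IsClosed K := by
      rw [hK]
      exact (hT.preimage continuous_abs).inter (isClosed_le continuous_abs continuous_const)
    refine (isCompact_Icc (a := -(2 * x)) (b := 2 * x)).of_isClosed_subset h1 ?_
    intro s hs
    exact abs_le.1 ((hmK s).1 hs).2
  have hK3 : IsClosed (K + K + K) := ((hKc.add hKc).add hKc).isClosed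
  have h0K : (0 : ℝ) ∈ K := (hmK 0).2 (by rw [abs_zero]; exact ⟨h0, by linarith⟩)
  have hneg : ∀ s, s ∈ K → -s ∈ K := fun s hs => by rw [hmK, abs_neg]; exact (hmK s).1 hs
  have hsum : ∀ a b c, a ∈ K → b ∈ K → c ∈ K → a + b + c ∈ K + K + K := fun a b c ha hb hc =>
    add_mem_add (add_mem_add ha hb) hc
  have hxK : x ∉ K + K + K := by
    intro h
    obtain ⟨ab, ⟨a, ha, b, hb, rfl⟩, c, hc, h⟩ := h
    exact hcon ⟨a, b, c, h.symm, (hmK a).1 ha, (hmK b).1 hb, (hmK c).1 hc⟩
  obtain ⟨δ, hδ, hball⟩ := Metric.isOpen_iff.1 hK3.isOpen_compl x hxK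
  have hnear : ∀ y ∈ K + K + K, δ ≤ |y - x| := by
    intro y hy
    by_contra h
    exact hball (by rw [Metric.mem_ball, Real.dist_eq]; exact not_le.1 h) hy
  have hpos : ∀ y, 0 ≤ y → y ≤ 2 * x → (y ∈ K ↔ y ∈ T) := by
    intro y h1 h2
    rw [hmK, abs_of_nonneg h1]
    exact ⟨fun h => h.1, fun h => ⟨h, h2⟩⟩
  have hxT : x ∉ T := by
    intro h
    have h1 := hsum x 0 0 ((hpos x hx.le (by linarith)).2 h) h0K h0K
    rw [add_zero, add_zero] at h1
    exact hxK h1
  -- the largest element of `T` below `x`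
  obtain ⟨M, ⟨hMT, hM0, hMx⟩, hM⟩ := (isCompact_Icc.inter_left hT : IsCompact (T ∩ Icc 0 x)).exists_isGreatest
    ⟨0, h0, le_rfl, hx.le⟩
  have hMx' : M < x := lt_of_le_of_ne hMx fun h => hxT (h ▸ hMT)
  have hMK : M ∈ K := (hpos M hM0 (by linarith)).2 hMT
  obtain ⟨u, hu1, hu2, hu3⟩ : ∃ u, M < u ∧ u < x ∧ u < M + δ :=
    ⟨M + min (x - M) δ / 2, by have := lt_min (sub_pos.2 hMx') hδ; linarith,
      by have := lt_min (sub_pos.2 hMx') hδ; have := min_le_left (x - M) δ; linarith,
      by have := lt_min (sub_pos.2 hMx') hδ; have := min_le_right (x - M) δ; linarith⟩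
  have hu0 : 0 < u := lt_of_le_of_lt hM0 hu1
  have huT : u ∉ T := fun h => not_le.2 hu1 (hM ⟨h, hu0.le, hu2.le⟩)
  have hclose : |u - M| < δ := by rw [abs_of_pos (by linarith)]; linarith
  have hclose' : |M - u| < δ := by rw [abs_sub_comm]; exact hclose
  have hxuT : x + u ∉ T := by
    intro h
    have h1 := hnear _ (hsum (x + u) (-M) 0 ((hpos _ (by linarith) (by linarith)).2 h) (hneg M hMK) h0K)
    have e : x + u + -M + 0 - x = u - M := by ring
    rw [e] at h1
    linarith
  have hxuT' : x - u ∉ T := by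
    intro h
    have h1 := hnear _ (hsum (x - u) M 0 ((hpos _ (by linarith) (by linarith)).2 h) hMK h0K)
    have e : x - u + M + 0 - x = M - u := by ring
    rw [e] at h1
    linarith
  -- the fifth point
  obtain ⟨y, ⟨hy0, hyx⟩, hy1, hy2, hy3, hy4⟩ : ∃ y ∈ Icc (0 : ℝ) x, |y| ∉ T ∧ |y - u| ∉ T ∧ |y - x| ∉ T ∧
      |y - x - u| ∉ T := by
    by_contra hno
    push Not at hno
    have hcl : ∀ c : ℝ, IsClosed {y : ℝ | |y - c| ∈ T} := fun c =>
      hT.preimage ((continuous_id.sub continuous_const).abs)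
    have hA : IsClosed ({y : ℝ | |y - 0| ∈ T} ∪ {y : ℝ | |y - u| ∈ T}) := (hcl 0).union (hcl u)
    have hB : IsClosed ({y : ℝ | |y - x| ∈ T} ∪ {y : ℝ | |y - (x + u)| ∈ T}) := (hcl x).union (hcl (x + u))
    obtain ⟨y, ⟨hy0, hyx⟩, hyA, hyB⟩ := (isPreconnected_closed_iff.1 (isPreconnected_Icc (a := 0) (b := x))) _ _
      hA hB (by
        intro y hy
        by_cases h1 : |y| ∈ T
        · left; left
          show |y - 0| ∈ T
          rw [sub_zero]; exact h1
        by_cases h2 : |y - u| ∈ T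
        · left; right; exact h2
        by_cases h3 : |y - x| ∈ T
        · right; left; exact h3
        right; right
        show |y - (x + u)| ∈ T
        rw [← sub_sub]
        exact hno y hy h1 h2 h3)
      ⟨0, ⟨le_rfl, hx.le⟩, Or.inl (by show |(0 : ℝ) - 0| ∈ T; rw [sub_zero, abs_zero]; exact h0)⟩
      ⟨x, ⟨hx.le, le_rfl⟩, Or.inl (by show |x - x| ∈ T; rw [sub_self, abs_zero]; exact h0)⟩
    have hk : ∀ c, 0 ≤ c → c ≤ 2 * x → |y - c| ∈ T → y - c ∈ K := by
      intro c hc0 hc h
      refine (hmK _).2 ⟨h, ?_⟩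
      rw [abs_le]
      constructor <;> linarith
    have hA' : y - 0 ∈ K ∨ y - u ∈ K := by
      rcases hyA with h | h
      · exact Or.inl (hk 0 le_rfl (by linarith) h)
      · exact Or.inr (hk u hu0.le (by linarith) h)
    have hB' : y - x ∈ K ∨ y - (x + u) ∈ K := by
      rcases hyB with h | h
      · exact Or.inl (hk x hx.le (by linarith) h)
      · exact Or.inr (hk (x + u) (by linarith) (by linarith) h)
    rcases hA' with h1 | h1 <;> rcases hB' with h2 | h2
    · have h3 := hnear _ (hsum _ _ _ h1 (hneg _ h2) h0K)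
      have e : y - 0 + -(y - x) + 0 - x = 0 := by ring
      rw [e, abs_zero] at h3
      linarith
    · have h3 := hnear _ (hsum _ _ _ h1 (hneg _ h2) (hneg _ hMK))
      have e : y - 0 + -(y - (x + u)) + -M - x = u - M := by ring
      rw [e] at h3
      linarith
    · have h3 := hnear _ (hsum _ _ _ h1 (hneg _ h2) hMK)
      have e : y - u + -(y - x) + M - x = M - u := by ring
      rw [e] at h3
      linarith
    · have h3 := hnear _ (hsum _ _ _ h1 (hneg _ h2) h0K)
      have e : y - u + -(y - (x + u)) + 0 - x = 0 := by ring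
      rw [e, abs_zero] at h3
      linarith
  -- five points without differences in `T`
  have hn0 : y ≠ 0 := fun h => hy1 (by rw [h, abs_zero]; exact h0)
  have hnu : y ≠ u := fun h => hy2 (by rw [h, sub_self, abs_zero]; exact h0)
  have hnx : y ≠ x := fun h => hy3 (by rw [h, sub_self, abs_zero]; exact h0)
  have hnxu : y ≠ x + u := fun h => hy4 (by rw [h]; simp [h0])
  have hkey : ∀ a ∈ ({0, u, x, x + u, y} : Finset ℝ), ∀ b ∈ ({0, u, x, x + u, y} : Finset ℝ), a < b →
      b - a ∉ T := by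
    have habs : ∀ a b, a < b → |a - b| ∉ T → b - a ∉ T := by
      intro a b hab h
      rwa [abs_sub_comm, abs_of_pos (sub_pos.2 hab)] at h
    have habs' : ∀ a b, a < b → |b - a| ∉ T → b - a ∉ T := by
      intro a b hab h
      rwa [abs_of_pos (sub_pos.2 hab)] at h
    have hy1' : |y - 0| ∉ T := by rwa [sub_zero]
    have hy4' : |y - (x + u)| ∉ T := by rwa [← sub_sub]
    intro a ha b hb hab
    simp only [Finset.mem_insert, Finset.mem_singleton] at ha hb
    rcases ha with rfl | rfl | rfl | rfl | rfl <;> rcases hb with rfl | rfl | rfl | rfl | rfl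
    all_goals first
      | exact absurd hab (lt_irrefl _)
      | exact absurd hab (by linarith)
      | exact habs _ _ hab (by assumption)
      | exact habs' _ _ hab (by assumption)
      | (rw [sub_zero]; assumption)
      | (rw [add_sub_cancel_left]; assumption)
      | (rw [add_sub_cancel_right]; assumption)
      | assumption
  have hcard : ({0, u, x, x + u, y} : Finset ℝ).card = 5 := by
    rw [Finset.card_insert_of_notMem, Finset.card_insert_of_notMem, Finset.card_insert_of_notMem,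
      Finset.card_insert_of_notMem, Finset.card_singleton]
    · rw [Finset.mem_singleton]
      exact hnxu.symm
    · simp only [Finset.mem_insert, Finset.mem_singleton]
      rintro (h | h)
      · linarith
      · exact hnx h.symm
    · simp only [Finset.mem_insert, Finset.mem_singleton]
      rintro (h | h | h)
      · linarith
      · linarith
      · exact hnu h.symm
    · simp only [Finset.mem_insert, Finset.mem_singleton]
      rintro (h | h | h | h)
      · linarith
      · linarith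
      · linarith
      · exact hn0 h.symm
  obtain ⟨a, ha, b, hb, hab, h⟩ := unordered h5 _ hcard
  exact hkey a ha b hb hab h

end Pool.Agent.U455.LPT
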