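import Pool.Agent.H361R2.PP.Cor7
import Pool.Agent.U455.LPT

/-!
# Limit points of normalised prime gaps along an ultrafilter of scales
-/

set_option autoImplicit false

namespace Pool.Agent.U455.LPU

open Finset MeasureTheory Filter Topology Pool.Agent.H361R2.PP

/-- the number of indices `n ≤ N` with `|g n - x| < ε` -/
noncomputable def cnt (x ε : ℝ) (N : ℕ) : ℕ := {n : ℕ | n ∈ Icc 2 N ∧ |gp n - x| < ε}.ncard

/-- the values which are approximated with positive frequency along the ultrafilter `U` -/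
def TU (U : Ultrafilter ℕ) : Set ℝ := {x : ℝ | 0 ≤ x ∧ ∀ ε : ℝ, 0 < ε → ∃ c : ℝ, 0 < c ∧
  ∀ᶠ N : ℕ in (U : Filter ℕ), c * N ≤ (cnt x ε N : ℝ)}

theorem cnt_mono {x x' ε ε' : ℝ} (h : |x' - x| + ε ≤ ε') (N : ℕ) : cnt x ε N ≤ cnt x' ε' N := by
  refine Set.ncard_le_ncard ?_ ((Finset.finite_toSet (Finset.Icc 2 N)).subset fun n hn => hn.1)
  rintro n ⟨hn1, hn2⟩
  refine ⟨hn1, ?_⟩
  calc |gp n - x'| = |(gp n - x) + (x - x')| := by ring_nf
    _ ≤ |gp n - x| + |x - x'| := abs_add_le _ _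
    _ < ε' := by rw [abs_sub_comm x x']; linarith

theorem closed_TU (U : Ultrafilter ℕ) : IsClosed (TU U) := by
  rw [← isSeqClosed_iff_isClosed]
  intro u x hu hx
  refine ⟨ge_of_tendsto' hx fun k => (hu k).1, fun ε hε => ?_⟩
  have h1 : ∀ᶠ k in atTop, |u k - x| < ε / 2 := by
    have := (Metric.tendsto_nhds.1 hx) (ε / 2) (by linarith)
    simpa [Real.dist_eq] using this
  obtain ⟨k, hk⟩ := h1.exists
  obtain ⟨c, hc, h⟩ := (hu k).2 (ε / 2) (by linarith)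
  refine ⟨c, hc, h.mono fun N hN => hN.trans ?_⟩
  rw [Nat.cast_le]
  refine cnt_mono ?_ N
  rw [abs_sub_comm]
  linarith

/-- from the logarithm of the prime to the logarithm of the index -/
theorem near_cnt (x : ℝ) (hx0 : 0 ≤ x) (ε : ℝ) (hε : 0 < ε) (c : ℝ) (hc : 0 < c) : ∃ M : ℕ, ∀ N : ℕ, M ≤ N →
    Near x (ε / 2) c N → c / 2 * N ≤ (cnt x ε N : ℝ) := by
  classical
  obtain ⟨η, hη⟩ : ∃ η : ℝ, η = ε / (4 * (x + 1 + ε)) := ⟨_, rfl⟩
  have hη0 : 0 < η := by rw [hη]; positivity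
  have hη1 : η * (x + 1 + ε) = ε / 4 := by rw [hη]; field_simp
  obtain ⟨J, hJ0, hJ⟩ := ratio_ev η hη0
  obtain ⟨M, hM⟩ := exists_nat_ge (2 * ((J : ℝ) + 1) / c)
  refine ⟨M, fun N hN hN2 => ?_⟩
  unfold Near at hN2
  have h1 := count_transfer _ (fun n => |gp n - x| < ε) J (by
    intro j hj hA
    obtain ⟨h2, h3, h4⟩ := hJ j hj
    unfold gp
    rw [Nat.add_sub_cancel]
    push_cast
    obtain ⟨g, hg⟩ : ∃ g : ℝ, g = ((P (j + 1) : ℝ) - P j) / Real.log (P j) := ⟨_, rfl⟩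
    obtain ⟨ρ, hρ⟩ : ∃ ρ : ℝ, ρ = Real.log (P j) / Real.log ((j : ℝ) + 1) := ⟨_, rfl⟩
    have h5 : ((P (j + 1) : ℝ) - P j) / Real.log ((j : ℝ) + 1) = g * ρ := by
      rw [hg, hρ]; field_simp
    rw [h5]
    rw [← hg] at hA
    rw [← hρ] at h2
    have h6 : g * ρ - x = (g - x) + g * (ρ - 1) := by ring
    rw [h6]
    have h7 : |g| ≤ x + ε := by
      have := abs_lt.1 hA
      rw [abs_le]
      constructor <;> linarith
    calc |(g - x) + g * (ρ - 1)| ≤ |g - x| + |g * (ρ - 1)| := abs_add_le _ _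
      _ ≤ |g - x| + (x + ε) * η := by
          rw [abs_mul]
          have := mul_le_mul h7 h2 (abs_nonneg _) (by linarith)
          linarith
      _ < ε / 2 + ε / 4 + ε / 4 := by nlinarith
      _ = ε := by ring) c hc N (hM.trans (by exact_mod_cast hN)) hN2
  refine h1.trans (Nat.cast_le.2 ?_)
  rw [← Set.ncard_coe_finset]
  apply Set.ncard_le_ncard
  · intro n hn
    rw [coe_filter] at hn
    exact hn
  · exact (finite_toSet (Icc 2 N)).subset fun n hn => hn.1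

/-- among five reals some difference is approximated along the ultrafilter -/
theorem five_TU (U : Ultrafilter ℕ) (hU : (U : Filter ℕ) ≤ atTop) (β : Fin 5 → ℝ) (hβ : StrictMono β) :
    ∃ i j : Fin 5, i < j ∧ β j - β i ∈ TU U := by
  by_contra hcon
  push Not at hcon
  have h1 : ∀ z : Fin 5 × Fin 5, ∃ ε : ℝ, 0 < ε ∧ (z.1 < z.2 → ∀ c : ℝ, 0 < c →
      ¬ ∀ᶠ N : ℕ in (U : Filter ℕ), c * N ≤ (cnt (β z.2 - β z.1) ε N : ℝ)) := by
    rintro ⟨i, j⟩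
    by_cases hij : i < j
    · have h2 := hcon i j hij
      have h3 : 0 ≤ β j - β i := sub_nonneg.mpr (hβ hij).le
      by_contra h5
      push Not at h5
      refine h2 ⟨h3, fun ε hε => ?_⟩
      obtain ⟨-, c, hc, h6⟩ := h5 ε hε
      exact ⟨c, hc, h6⟩
    · exact ⟨1, one_pos, fun h => absurd h hij⟩
  choose e he hne using h1
  obtain ⟨z₀, -, hz₀⟩ := Finset.exists_min_image (Finset.univ : Finset (Fin 5 × Fin 5)) e
    ⟨(0, 0), Finset.mem_univ _⟩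
  obtain ⟨c, hc, N₀, hN₀⟩ := fiv β hβ (e z₀ / 2) (by have := he z₀; linarith)
  have h2 : ∀ᶠ N : ℕ in (U : Filter ℕ), ∃ i : Fin 5, ∃ j : Fin 5, i < j ∧ Near (β j - β i) (e z₀ / 2) c N :=
    ((eventually_ge_atTop N₀).mono fun N hN => hN₀ N hN).filter_mono hU
  obtain ⟨i, h3⟩ := Ultrafilter.eventually_exists_iff.1 h2
  obtain ⟨j, h3⟩ := Ultrafilter.eventually_exists_iff.1 h3
  obtain ⟨N, hN⟩ := h3.exists
  have hij : i < j := hN.1
  obtain ⟨M, hM⟩ := near_cnt (β j - β i) (sub_nonneg.mpr (hβ hij).le) (e z₀) (he z₀) c hc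
  refine hne (i, j) hij (c / 2) (by linarith) ?_
  filter_upwards [h3, (eventually_ge_atTop M).filter_mono hU] with N h4 h5
  refine (hM N h5 h4.2).trans ?_
  rw [Nat.cast_le]
  refine cnt_mono ?_ N
  rw [sub_self, abs_zero, zero_add]
  exact hz₀ (i, j) (Finset.mem_univ _)

/-- **the theorem** -/
theorem main (S : Set ℕ) (hS : S.Infinite) (x : ℝ) (hx : 0 ≤ x) : ∃ s₁ s₂ s₃ : ℝ, x = s₁ + s₂ + s₃ ∧
    |s₁| ≤ 2 * x ∧ |s₂| ≤ 2 * x ∧ |s₃| ≤ 2 * x ∧ ∀ ε : ℝ, 0 < ε → ∃ c : ℝ, 0 < c ∧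
      {N ∈ S | c * N ≤ (cnt |s₁| ε N : ℝ) ∧ c * N ≤ (cnt |s₂| ε N : ℝ) ∧ c * N ≤ (cnt |s₃| ε N : ℝ)}.Infinite := by
  have hne : NeBot (atTop ⊓ 𝓟 S) :=
    frequently_iff_neBot.1 (Nat.frequently_atTop_iff_infinite.2 hS : ∃ᶠ N in atTop, N ∈ S)
  obtain ⟨U, hU⟩ : ∃ U : Ultrafilter ℕ, (U : Filter ℕ) ≤ atTop ⊓ 𝓟 S := ⟨Ultrafilter.of _, Ultrafilter.of_le _⟩
  have hU1 : (U : Filter ℕ) ≤ atTop := hU.trans inf_le_left
  have hU2 : ∀ᶠ N in (U : Filter ℕ), N ∈ S := (hU.trans inf_le_right) (mem_principal_self S)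
  obtain ⟨s₁, s₂, s₃, h0, ⟨h1, b1⟩, ⟨h2, b2⟩, ⟨h3, b3⟩⟩ := LPT.three (closed_TU U) (five_TU U hU1) x hx
  refine ⟨s₁, s₂, s₃, h0, b1, b2, b3, fun ε hε => ?_⟩
  obtain ⟨c₁, hc₁, f1⟩ := h1.2 ε hε
  obtain ⟨c₂, hc₂, f2⟩ := h2.2 ε hε
  obtain ⟨c₃, hc₃, f3⟩ := h3.2 ε hε
  refine ⟨min c₁ (min c₂ c₃), lt_min hc₁ (lt_min hc₂ hc₃), ?_⟩
  have hev : ∀ᶠ N in (U : Filter ℕ), N ∈ {N ∈ S | min c₁ (min c₂ c₃) * N ≤ (cnt |s₁| ε N : ℝ) ∧
      min c₁ (min c₂ c₃) * N ≤ (cnt |s₂| ε N : ℝ) ∧ min c₁ (min c₂ c₃) * N ≤ (cnt |s₃| ε N : ℝ)} := by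
    filter_upwards [hU2, f1, f2, f3] with N g0 g1 g2 g3
    have hN : (0 : ℝ) ≤ N := Nat.cast_nonneg _
    exact ⟨g0, (mul_le_mul_of_nonneg_right (min_le_left _ _) hN).trans g1,
      (mul_le_mul_of_nonneg_right ((min_le_right _ _).trans (min_le_left _ _)) hN).trans g2,
      (mul_le_mul_of_nonneg_right ((min_le_right _ _).trans (min_le_right _ _)) hN).trans g3⟩
  rw [← Nat.frequently_atTop_iff_infinite]
  exact hev.frequently.filter_mono hU1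

end Pool.Agent.U455.LPU
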