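import Pool.Agent.Y862.Ev
import Pool.Agent.U455.UF

/-!
# Consecutive isolated primes of orbits below every large `x`, with an absolute number of times

The proofs of `orbit_ev`, `consecEv` are those of `Pool.Agent.Y862.Ev`; here the number `K` of the times in a class does
not depend on the orbit.
-/

set_option autoImplicit false

namespace Pool.Agent.U455.ORB

open Finset Filter Pool.Agent.H447R3.IT Pool.Agent.H732R3.BigQ Pool.Agent.W59.GB
open Pool.Agent.W218.OG (Pr S_iter_add B_eq B_ne_zero dvd_B big_primes exists_zero block not_Pr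
  to_prime pr_nat big_count)
open Pool.Agent.TH899.UG Pool.Agent.TH899.UG.OG
open Pool.Agent.Y862 (PS pick)

/-- the coloured Maynard-Tao theorem for the values of an orbit at prescribed times, below every
large number -/
theorem orbit_ev : ∃ K : ℕ, 1 ≤ K ∧ ∀ (D : ℕ) (e : ℤ) (m : ℕ), 2 ≤ D → e ≠ 0 → IsCoprime e (D : ℤ) →
    0 < m → (∀ p : ℕ, p.Prime → p ∣ D - 1 → (p : ℤ) ∣ e * m) →
    ∀ (W₀ : ℕ) (H : Fin 4 → Fin K → ℕ),
      Function.Injective (fun x : Fin 4 × Fin K => H x.1 x.2) →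
      ∃ W Q r : ℕ, 0 < Q ∧ W₀ ≤ W ∧ (∀ g i, m * H g i ≤ W) ∧
        ∀ η : ℝ, 0 < η → ∀ᶠ N : ℕ in atTop, ∃ X : Finset ℕ, X ⊆ Icc 1 N ∧
          (N : ℝ) ^ (1 - η) ≤ (X.card : ℝ) ∧ ∀ n ∈ X,
          (∃ g₁ g₂ i₁ i₂, g₁ ≠ g₂ ∧ Pr ((S D e)^[m * H g₁ i₁] ((Q * n + r : ℕ) : ℤ)) ∧
            Pr ((S D e)^[m * H g₂ i₂] ((Q * n + r : ℕ) : ℤ))) ∧
          ∀ t ≤ W, (∀ g i, m * H g i ≠ t) → ¬ Pr ((S D e)^[t] ((Q * n + r : ℕ) : ℤ)) := by
  classical
  obtain ⟨c₀, hc₀, hc₁, hE⟩ := NW.exactW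
  obtain ⟨K, hK, hE⟩ := hE (1 / 8) (1 / 4) le_rfl (by norm_num) le_rfl 4 1 (by norm_num)
    (by push_cast; linarith)
  refine ⟨K, hK, fun D e m hD he hcop hm0 hm W₀ H hinj => ?_⟩
  obtain ⟨W, hW0, hW⟩ : ∃ W, W₀ ≤ W ∧ ∀ g i, m * H g i ≤ W :=
    ⟨max W₀ (univ.sup fun x : Fin 4 × Fin K => m * H x.1 x.2), le_max_left _ _, fun g i =>
      (le_sup (f := fun x : Fin 4 × Fin K => m * H x.1 x.2) (mem_univ (g, i))).trans
        (le_max_right _ _)⟩
  obtain ⟨E, hE'⟩ : ∃ E : Finset ℕ, E = univ.image fun x : Fin 4 × Fin K => m * H x.1 x.2 :=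
    ⟨_, rfl⟩
  have hmemE : ∀ g i, m * H g i ∈ E := fun g i => by
    rw [hE']; exact mem_image.2 ⟨(g, i), mem_univ _, rfl⟩
  obtain ⟨Q, r, hQ0, hb1, hb2⟩ := block D e hD he W E (by
    intro t ht
    rw [hE'] at ht
    obtain ⟨x, -, rfl⟩ := mem_image.1 ht
    exact hW _ _)
  refine ⟨W, Q, r, hQ0, hW0, hW, fun η hη => ?_⟩
  have hDpos : ∀ j : ℕ, (0 : ℤ) < (D : ℤ) ^ j := fun j => by positivity
  have hQpos : (0 : ℤ) < Q := by exact_mod_cast hQ0
  have hD1 : ∀ j, j ≤ W → D ^ j ≤ D ^ W := fun j hj => Nat.pow_le_pow_right (by omega) hj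
  obtain ⟨b, hb⟩ : ∃ b : Fin 4 → Fin K → ℤ, ∀ g i, b g i =
      (D : ℤ) ^ (m * H g i) * r + B D e (m * H g i) := ⟨_, fun _ _ => rfl⟩
  obtain ⟨M₀, hM₀⟩ : ∃ M₀ : ℕ, M₀ = ∑ g, ∑ i, (b g i).natAbs := ⟨_, rfl⟩
  have hbM : ∀ g i, |b g i| ≤ (M₀ : ℤ) := by
    intro g i
    have h1 : (b g i).natAbs ≤ ∑ i, (b g i).natAbs :=
      single_le_sum (f := fun i => (b g i).natAbs) (fun _ _ => Nat.zero_le _) (mem_univ i)
    have h2 : (∑ i, (b g i).natAbs) ≤ M₀ := by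
      rw [hM₀]
      exact single_le_sum (f := fun g => ∑ i, (b g i).natAbs) (fun _ _ => Nat.zero_le _) (mem_univ g)
    rw [Int.abs_eq_natAbs]
    exact_mod_cast h1.trans h2
  obtain ⟨n₁, hn₁⟩ : ∃ n₁ : ℕ, n₁ = Q + (∑ d ∈ range (W + 1), (B D e d).natAbs) + 1 := ⟨_, rfl⟩
  filter_upwards [hE (D ^ W * Q) η hη, eventually_ge_atTop (40 * M₀ + 8 * (n₁ + 1) + 10)]
    with N hN hNl
  obtain ⟨F, c, hF, hcnt⟩ := hN (fun g i => (D : ℤ) ^ (m * H g i) * Q) b
    (fun g i => (mul_pos (hDpos _) hQpos).ne')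
    (fun g i => by
      rw [abs_of_pos (mul_pos (hDpos _) hQpos)]
      push_cast
      exact mul_le_mul_of_nonneg_right (by exact_mod_cast hD1 _ (hW g i)) hQpos.le)
    (fun g i => by
      have h1 := hbM g i
      have h2 : (40 * M₀ + 8 * (n₁ + 1) + 10 : ℤ) ≤ N := by exact_mod_cast hNl
      have h3 : (0 : ℤ) ≤ n₁ := Int.natCast_nonneg _
      have h4 : (0 : ℤ) ≤ M₀ := Int.natCast_nonneg _
      linarith)
    (fun g i y hy1 _ => by
      have h1 : (1 : ℝ) ≤ (((D : ℤ) ^ (m * H g i) * Q : ℤ) : ℝ) := by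
        have : (1 : ℤ) ≤ (D : ℤ) ^ (m * H g i) * Q := mul_pos (hDpos _) hQpos
        exact_mod_cast this
      have h2 : (-(M₀ : ℝ)) ≤ (b g i : ℝ) := by
        have h3 := (abs_le.1 (hbM g i)).1
        exact_mod_cast h3
      have h3 : ((40 * M₀ + 8 * (n₁ + 1) + 10 : ℕ) : ℝ) ≤ N := by exact_mod_cast hNl
      push_cast at h3
      have h4 : (0 : ℝ) ≤ n₁ := Nat.cast_nonneg _
      have h5 : (0 : ℝ) ≤ M₀ := Nat.cast_nonneg _
      have h6 : 0 ≤ y := by linarith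
      have h7 : y ≤ (((D : ℤ) ^ (m * H g i) * Q : ℤ) : ℝ) * y := le_mul_of_one_le_left h6 h1
      linarith)
    (by
      intro x y hxy
      simp only [Prod.mk.injEq] at hxy
      have h1 := mul_right_cancel₀ hQpos.ne' hxy.1
      have h2 : D ^ (m * H x.1 x.2) = D ^ (m * H y.1 y.2) := by exact_mod_cast h1
      have h3 := Nat.pow_right_injective hD h2
      exact hinj (Nat.eq_of_mul_eq_mul_left hm0 h3))
    (by
      intro p hp
      by_cases hpQ : p ∣ Q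
      · refine ⟨0, fun g i hd => hb2 p hp hpQ _ (hmemE g i) ?_⟩
        rw [iter]
        rw [hb] at hd
        simpa using hd
      · obtain ⟨n₀, hn₀⟩ := adm (m := m) hD hcop hm hp
        have hc : IsCoprime (Q : ℤ) (p : ℤ) := by
          rw [Nat.isCoprime_iff_coprime]
          exact ((Nat.Prime.coprime_iff_not_dvd hp).2 hpQ).symm
        obtain ⟨u, v, huv⟩ := hc
        refine ⟨u * (n₀ - r), fun g i hd => hn₀ (H g i) ?_⟩
        rw [hb] at hd
        have e1 : (D : ℤ) ^ (m * H g i) * n₀ + B D e (m * H g i) =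
            ((D : ℤ) ^ (m * H g i) * Q * (u * (n₀ - r)) +
              ((D : ℤ) ^ (m * H g i) * r + B D e (m * H g i))) +
            p * ((D : ℤ) ^ (m * H g i) * (v * (n₀ - r))) := by
          linear_combination (-((D : ℤ) ^ (m * H g i) * (n₀ - r))) * huv
        rw [e1]
        exact dvd_add hd (dvd_mul_right _ _))
  refine ⟨_, filter_subset _ _, hcnt, fun n hn => ?_⟩
  obtain ⟨hn1, hn2, -, hn3⟩ := mem_filter.1 hn
  have hpr : ∀ g ∈ F, Pr ((S D e)^[m * H g (c g)] ((Q * n + r : ℕ) : ℤ)) := by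
    intro g hg
    have h1 := hn3 g hg
    have e1 : (S D e)^[m * H g (c g)] ((Q * n + r : ℕ) : ℤ) =
        (D : ℤ) ^ (m * H g (c g)) * Q * (n : ℤ) + b g (c g) := by
      rw [iter, hb]; push_cast; ring
    rw [e1]
    have h2 : 0 < (D : ℤ) ^ (m * H g (c g)) * Q * (n : ℤ) + b g (c g) := by
      by_contra h3
      rw [Int.toNat_of_nonpos (not_lt.1 h3)] at h1
      exact Nat.not_prime_zero h1
    refine ⟨h2, ?_⟩
    have h3 := Nat.prime_iff_prime_int.1 h1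
    rwa [Int.toNat_of_nonneg h2.le] at h3
  refine ⟨?_, fun t ht hne => ?_⟩
  · obtain ⟨g₁, hg₁, g₂, hg₂, hg12⟩ := one_lt_card.1 (by omega : 1 < F.card)
    exact ⟨g₁, g₂, c g₁, c g₂, hg12, hpr g₁ hg₁, hpr g₂ hg₂⟩
  · obtain ⟨q, hqp, hqQ, hqr⟩ := hb1 t ht (by
      intro h
      rw [hE'] at h
      obtain ⟨x, -, hx⟩ := mem_image.1 h
      exact hne _ _ hx)
    refine not_Pr hD hQ0 ht (fun d hd => ?_) hqp hqQ hqr
    have h2 : (B D e d).natAbs ≤ ∑ d ∈ range (W + 1), (B D e d).natAbs :=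
      single_le_sum (f := fun d => (B D e d).natAbs) (fun _ _ => Nat.zero_le _)
        (mem_range.2 (by omega))
    have h3 : |B D e d| = ((B D e d).natAbs : ℤ) := (Int.natCast_natAbs _).symm
    rw [h3]
    have h5 : n₁ ≤ n := by
      have h6 : ((40 * M₀ + 8 * (n₁ + 1) + 10 : ℕ) : ℝ) ≤ N := by exact_mod_cast hNl
      push_cast at h6
      have h7 : (0 : ℝ) ≤ M₀ := Nat.cast_nonneg _
      have h8 : (n₁ : ℝ) ≤ n := by linarith
      exact_mod_cast h8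
    have h4 : Q + (B D e d).natAbs < n := by omega
    exact_mod_cast h4

/-- **two of four classes contain the times of consecutive isolated primes of at least
`x ^ (1 - η)` orbits below every large `x`** -/
theorem consecEv : ∃ K : ℕ, 1 ≤ K ∧ ∀ (D : ℕ) (e : ℤ) (m : ℕ), 2 ≤ D → e ≠ 0 → IsCoprime e (D : ℤ) →
    0 < m → (∀ p : ℕ, p.Prime → p ∣ D - 1 → (p : ℤ) ∣ e * m) → ∀ R : ℕ, ∀ H₀ : Fin 4 → Fin K → ℕ,
      (∀ x y : Fin 4 × Fin K, x ≠ y → H₀ x.1 x.2 + R < H₀ y.1 y.2 ∨ H₀ y.1 y.2 + R < H₀ x.1 x.2) →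
      ∀ η : ℝ, 0 < η → ∀ᶠ x : ℝ in atTop, ∃ g g' i i', g ≠ g' ∧ H₀ g i < H₀ g' i' ∧
        x ^ (1 - η) ≤
          ({p : ℕ | (p : ℝ) ≤ x ∧ p ∈ PS D e m R (H₀ g' i' - H₀ g i)}.ncard : ℝ) := by
  classical
  obtain ⟨K, hK, hQ'⟩ := orbit_ev
  refine ⟨K, hK, fun D e m hD he hcop hm0 hm R H₀ hsp η₀ hη₀ => ?_⟩
  have hQ := hQ' D e m hD he hcop hm0 hm
  obtain ⟨H, hH⟩ : ∃ H : Fin 4 → Fin K → ℕ, ∀ g i, H g i = H₀ g i + (R + 1) := ⟨_, fun _ _ => rfl⟩
  have hsp' : ∀ x y : Fin 4 × Fin K, x ≠ y → m * H x.1 x.2 + R < m * H y.1 y.2 ∨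
      m * H y.1 y.2 + R < m * H x.1 x.2 := by
    intro x y hxy
    have h1 := hH x.1 x.2
    have h2 := hH y.1 y.2
    rcases hsp x y hxy with h | h
    · left
      have h3 : H x.1 x.2 + (R + 1) ≤ H y.1 y.2 := by omega
      have h4 := Nat.mul_le_mul_left m h3
      rw [mul_add] at h4
      have h5 : R + 1 ≤ m * (R + 1) := Nat.le_mul_of_pos_left _ hm0
      omega
    · right
      have h3 : H y.1 y.2 + (R + 1) ≤ H x.1 x.2 := by omega
      have h4 := Nat.mul_le_mul_left m h3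
      rw [mul_add] at h4
      have h5 : R + 1 ≤ m * (R + 1) := Nat.le_mul_of_pos_left _ hm0
      omega
  have hinj : Function.Injective (fun x : Fin 4 × Fin K => H x.1 x.2) := by
    intro x y h
    have h' : H x.1 x.2 = H y.1 y.2 := h
    by_contra hxy
    rcases hsp' x y hxy with h1 | h1
    · rw [h'] at h1; omega
    · rw [h'] at h1; omega
  obtain ⟨U₀, hU₀⟩ : ∃ U₀ : ℕ, U₀ = univ.sup fun x : Fin 4 × Fin K => m * H x.1 x.2 := ⟨_, rfl⟩
  have hsup : ∀ g i, m * H g i ≤ U₀ := fun g i => by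
    rw [hU₀]
    exact le_sup (f := fun x : Fin 4 × Fin K => m * H x.1 x.2) (mem_univ (g, i))
  obtain ⟨W, Q, r, hQ0, hW0, hW, hB⟩ := hQ (U₀ + R) H hinj
  have hRi : ∀ g i, R < m * H g i := by
    intro g i
    have h1 := hH g i
    have h2 : H g i ≤ m * H g i := Nat.le_mul_of_pos_left _ hm0
    omega
  -- the primes for a given pair of times
  obtain ⟨Z, hZ⟩ : ∃ Z : (Fin 4 × Fin K) × (Fin 4 × Fin K) → ℕ → Prop, ∀ x n, Z x n ↔
      (x.1.1 ≠ x.2.1 ∧ H x.1.1 x.1.2 < H x.2.1 x.2.2 ∧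
      Pr ((S D e)^[m * H x.1.1 x.1.2] ((Q * n + r : ℕ) : ℤ)) ∧
      Pr ((S D e)^[m * H x.2.1 x.2.2] ((Q * n + r : ℕ) : ℤ)) ∧
      (∀ t, m * H x.1.1 x.1.2 < t → t < m * H x.2.1 x.2.2 →
        ¬ Pr ((S D e)^[t] ((Q * n + r : ℕ) : ℤ))) ∧
      ∀ l, 0 < l → l ≤ R → ¬ Pr ((S D e)^[m * H x.2.1 x.2.2 + l] ((Q * n + r : ℕ) : ℤ)) ∧
        ¬ Pr ((S D e)^[m * H x.1.1 x.1.2 - l] ((Q * n + r : ℕ) : ℤ))) := ⟨_, fun _ _ => Iff.rfl⟩
  have hcover : ∀ n : ℕ, (∃ g₁ g₂ i₁ i₂, g₁ ≠ g₂ ∧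
      Pr ((S D e)^[m * H g₁ i₁] ((Q * n + r : ℕ) : ℤ)) ∧
      Pr ((S D e)^[m * H g₂ i₂] ((Q * n + r : ℕ) : ℤ))) →
      (∀ t ≤ W, (∀ g i, m * H g i ≠ t) → ¬ Pr ((S D e)^[t] ((Q * n + r : ℕ) : ℤ))) →
      ∃ x, Z x n := by
    intro n hn hcomp
    obtain ⟨g, g', i, i', hne, hlt, hp1, hp2, hmid⟩ := pick H hinj
      (fun g i => Pr ((S D e)^[m * H g i] ((Q * n + r : ℕ) : ℤ))) hn
    refine ⟨((g, i), (g', i')), (hZ _ _).2 ⟨hne, hlt, hp1, hp2, ?_, ?_⟩⟩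
    · intro t ht1 ht2 htp
      have ht1' : m * H g i < t := ht1
      have ht2' : t < m * H g' i' := ht2
      have htW : t ≤ W := by have := hW g' i'; omega
      by_cases hex : ∃ g₀ i₀, m * H g₀ i₀ = t
      · obtain ⟨g₀, i₀, rfl⟩ := hex
        exact hmid g₀ i₀ (Nat.lt_of_mul_lt_mul_left ht1') (Nat.lt_of_mul_lt_mul_left ht2') htp
      · push Not at hex
        exact hcomp t htW hex htp
    · intro l hl0 hl1
      refine ⟨hcomp _ ?_ ?_, hcomp _ ?_ ?_⟩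
      · have := hsup g' i'
        show m * H g' i' + l ≤ W
        omega
      · intro g₀ i₀ h
        have h' : m * H g₀ i₀ = m * H g' i' + l := h
        have hne' : ((g₀, i₀) : Fin 4 × Fin K) ≠ (g', i') := by
          intro h0
          have h1 : g₀ = g' := (Prod.mk.inj h0).1
          have h2 : i₀ = i' := (Prod.mk.inj h0).2
          rw [h1, h2] at h'
          omega
        have := hsp' _ _ hne'
        simp only at this
        omega
      · have := hW g i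
        show m * H g i - l ≤ W
        omega
      · intro g₀ i₀ h
        have h' : m * H g₀ i₀ = m * H g i - l := h
        have hr := hRi g i
        have hne' : ((g₀, i₀) : Fin 4 × Fin K) ≠ (g, i) := by
          intro h0
          have h1 : g₀ = g := (Prod.mk.inj h0).1
          have h2 : i₀ = i := (Prod.mk.inj h0).2
          rw [h1, h2] at h'
          omega
        have := hsp' _ _ hne'
        simp only at this
        omega
  -- the map to primes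
  obtain ⟨φ, hφ⟩ : ∃ φ : (Fin 4 × Fin K) × (Fin 4 × Fin K) → ℕ → ℕ, ∀ x n, φ x n =
      ((S D e)^[m * H x.1.1 x.1.2] ((Q * n + r : ℕ) : ℤ)).toNat := ⟨_, fun _ _ => rfl⟩
  have hφZ : ∀ x n, Z x n → ((φ x n : ℕ) : ℤ) = (S D e)^[m * H x.1.1 x.1.2] ((Q * n + r : ℕ) : ℤ) := by
    intro x n h
    rw [hφ]
    exact Int.toNat_of_nonneg ((hZ x n).1 h).2.2.1.1.le
  have hφPS : ∀ x n, Z x n → φ x n ∈ PS D e m R (H₀ x.2.1 x.2.2 - H₀ x.1.1 x.1.2) := by
    intro x n h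
    have hp := hφZ x n h
    obtain ⟨z1, z2, z3, z4, z5, z6⟩ := (hZ x n).1 h
    have hsub : H₀ x.2.1 x.2.2 - H₀ x.1.1 x.1.2 = H x.2.1 x.2.2 - H x.1.1 x.1.2 := by
      rw [hH, hH]; omega
    rw [hsub]
    have key : ∀ l : ℕ, (S D e)^[l] ((φ x n : ℕ) : ℤ) =
        (S D e)^[m * H x.1.1 x.1.2 + l] ((Q * n + r : ℕ) : ℤ) := by
      intro l
      rw [hp, ← S_iter_add]
    have e1 : m * H x.1.1 x.1.2 + m * (H x.2.1 x.2.2 - H x.1.1 x.1.2) = m * H x.2.1 x.2.2 := by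
      rw [← mul_add]; congr 1; omega
    refine ⟨?_, ?_, ?_, ?_⟩
    · rw [Nat.prime_iff_prime_int, hp]
      exact z3.2
    · rw [key, e1]
      exact z4
    · intro l hl1 hl2
      rw [key]
      refine z5 _ (by omega) ?_
      omega
    · intro l hl0 hl1
      have hr := hRi x.1.1 x.1.2
      refine ⟨?_, ?_⟩
      · rw [key]
        have e2 : m * H x.1.1 x.1.2 + (m * (H x.2.1 x.2.2 - H x.1.1 x.1.2) + l) =
            m * H x.2.1 x.2.2 + l := by omega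
        rw [e2]
        exact (z6 l hl0 hl1).1
      · intro z hz hzp
        have h1 : (S D e)^[l] z =
            (S D e)^[l] ((S D e)^[m * H x.1.1 x.1.2 - l] ((Q * n + r : ℕ) : ℤ)) := by
          rw [hzp, ← S_iter_add, hp]
          congr 1
          omega
        have h2 := S_inj hD h1
        rw [h2] at hz
        exact (z6 l hl0 hl1).2 hz
  have hφinj : ∀ x n n', Z x n → Z x n' → φ x n = φ x n' → n = n' := by
    intro x n n' h h' hnn
    have h1 := hφZ x n h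
    have h2 := hφZ x n' h'
    rw [hnn, h2] at h1
    have h3 := S_inj hD h1
    have h4 : Q * n' + r = Q * n + r := by exact_mod_cast h3
    have h5 : Q * n' = Q * n := by omega
    exact (Nat.eq_of_mul_eq_mul_left hQ0 h5).symm
  -- the size of the primes
  obtain ⟨κ, hκ⟩ : ∃ κ : ℕ, κ = D ^ W * (Q + r) + (∑ d ∈ range (W + 1), (B D e d).natAbs) + 1 :=
    ⟨_, rfl⟩
  have hφle : ∀ x n, 1 ≤ n → Z x n → φ x n ≤ κ * n := by
    intro x n hn h
    have h1 := hφZ x n h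
    rw [iter] at h1
    have hxW := hW x.1.1 x.1.2
    have h2 : (B D e (m * H x.1.1 x.1.2)).natAbs ≤ ∑ d ∈ range (W + 1), (B D e d).natAbs :=
      single_le_sum (f := fun d => (B D e d).natAbs) (fun _ _ => Nat.zero_le _)
        (mem_range.2 (by omega))
    have h3 : B D e (m * H x.1.1 x.1.2) ≤ ((B D e (m * H x.1.1 x.1.2)).natAbs : ℤ) := Int.le_natAbs
    have h4 : D ^ (m * H x.1.1 x.1.2) ≤ D ^ W := Nat.pow_le_pow_right (by omega) hxW
    have h5 : ((φ x n : ℕ) : ℤ) ≤ ((D ^ W * (Q * n + r) +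
        (∑ d ∈ range (W + 1), (B D e d).natAbs) : ℕ) : ℤ) := by
      rw [h1]
      have h6 : ((D : ℤ) ^ (m * H x.1.1 x.1.2)) * ((Q * n + r : ℕ) : ℤ) ≤
          ((D ^ W * (Q * n + r) : ℕ) : ℤ) := by
        exact_mod_cast Nat.mul_le_mul_right _ h4
      have h7 : ((B D e (m * H x.1.1 x.1.2)).natAbs : ℤ) ≤
          ((∑ d ∈ range (W + 1), (B D e d).natAbs : ℕ) : ℤ) := by exact_mod_cast h2
      push_cast at h6 h7 ⊢
      have h8 := le_abs_self (B D e (m * H x.1.1 x.1.2))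
      linarith
    have h6 : φ x n ≤ D ^ W * (Q * n + r) + (∑ d ∈ range (W + 1), (B D e d).natAbs) := by
      exact_mod_cast h5
    refine h6.trans ?_
    rw [hκ]
    have h7 : D ^ W * (Q * n + r) ≤ D ^ W * (Q + r) * n := by
      rw [mul_assoc]
      refine Nat.mul_le_mul_left _ ?_
      nlinarith
    have h8 : (∑ d ∈ range (W + 1), (B D e d).natAbs) ≤
        (∑ d ∈ range (W + 1), (B D e d).natAbs) * n := Nat.le_mul_of_pos_right _ hn
    nlinarith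
  have hκ1 : 1 ≤ κ := by omega
  -- numbers
  obtain ⟨η, hη⟩ : ∃ η : ℝ, η = min η₀ 1 := ⟨_, rfl⟩
  have hη0 : 0 < η := by rw [hη]; positivity
  have hη1 : η ≤ 1 := by rw [hη]; exact min_le_right _ _
  have hηη : η ≤ η₀ := by rw [hη]; exact min_le_left _ _
  obtain ⟨I, hI⟩ : ∃ I : ℕ, I = Fintype.card ((Fin 4 × Fin K) × (Fin 4 × Fin K)) := ⟨_, rfl⟩
  have hI0 : 0 < I := by
    rw [hI]
    haveI : Nonempty (Fin K) := ⟨⟨0, by omega⟩⟩
    exact Fintype.card_pos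
  have hκr : (1 : ℝ) ≤ κ := by exact_mod_cast hκ1
  have hIr : (0 : ℝ) < I := by exact_mod_cast hI0
  have hfl : Tendsto (fun x : ℝ => ⌊x / κ⌋₊) atTop atTop :=
    tendsto_nat_floor_atTop.comp (tendsto_id.atTop_div_const (by linarith))
  filter_upwards [hfl.eventually (hB (η / 3) (by positivity)), eventually_ge_atTop (2 * (κ : ℝ)),
    (tendsto_rpow_atTop (show 0 < 2 * η / 3 by positivity)).eventually_ge_atTop (I * (2 * (κ : ℝ)))]
    with x hx hx1 hx2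
  obtain ⟨X, hX1, hX2, hX3⟩ := hx
  have hx0 : 0 < x := by linarith
  obtain ⟨N, hN⟩ : ∃ N : ℕ, N = ⌊x / κ⌋₊ := ⟨_, rfl⟩
  rw [← hN] at hX1 hX2
  have hNle : (κ : ℝ) * N ≤ x := by
    have h1 : (N : ℝ) ≤ x / κ := by rw [hN]; exact Nat.floor_le (by positivity)
    rw [le_div_iff₀ (by linarith)] at h1
    linarith
  have hNge : x / (2 * κ) ≤ N := by
    have h1 : x / κ < N + 1 := by rw [hN]; exact Nat.lt_floor_add_one _
    have h2 : 1 ≤ x / (2 * κ) := by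
      rw [le_div_iff₀ (by linarith)]
      linarith
    have h3 : x / κ = x / (2 * κ) + x / (2 * κ) := by
      field_simp
      ring
    linarith
  -- a pair of times
  obtain ⟨y, hy⟩ : ∃ y, (X.card : ℝ) ≤ I * ((X.filter fun n => Z y n).card : ℝ) := by
    by_contra hcon
    push Not at hcon
    have h1 : X ⊆ univ.biUnion fun y => X.filter fun n => Z y n := by
      intro n hn
      obtain ⟨h2, h3⟩ := hX3 n hn
      obtain ⟨y, hy⟩ := hcover n h2 h3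
      exact mem_biUnion.2 ⟨y, mem_univ _, mem_filter.2 ⟨hn, hy⟩⟩
    have h2 : (X.card : ℝ) ≤ ∑ y, ((X.filter fun n => Z y n).card : ℝ) := by
      exact_mod_cast (card_le_card h1).trans card_biUnion_le
    haveI : Nonempty (Fin K) := ⟨⟨0, by omega⟩⟩
    have h3 : ∑ y : (Fin 4 × Fin K) × (Fin 4 × Fin K), (I : ℝ) * ((X.filter fun n => Z y n).card : ℝ) <
        ∑ _y : (Fin 4 × Fin K) × (Fin 4 × Fin K), (X.card : ℝ) :=
      sum_lt_sum_of_nonempty univ_nonempty fun y _ => hcon y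
    rw [← mul_sum, sum_const, card_univ, ← hI, nsmul_eq_mul] at h3
    have h4 := lt_of_mul_lt_mul_left h3 hIr.le
    linarith
  have hcard : x ^ (1 - η) ≤ ((X.filter fun n => Z y n).card : ℝ) := by
    have h1 : (x / (2 * κ)) ^ (1 - η / 3) ≤ (N : ℝ) ^ (1 - η / 3) :=
      Real.rpow_le_rpow (by positivity) hNge (by linarith)
    have h2 : x ^ (1 - η / 3) / (2 * κ) ≤ (x / (2 * κ)) ^ (1 - η / 3) := by
      rw [Real.div_rpow hx0.le (by positivity)]
      refine div_le_div_of_nonneg_left (by positivity) (by positivity) ?_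
      calc (2 * (κ : ℝ)) ^ (1 - η / 3) ≤ (2 * (κ : ℝ)) ^ (1 : ℝ) :=
            Real.rpow_le_rpow_of_exponent_le (by linarith) (by linarith)
        _ = 2 * κ := Real.rpow_one _
    have h3 : I * x ^ (1 - η) ≤ x ^ (1 - η / 3) / (2 * κ) := by
      rw [le_div_iff₀ (by linarith)]
      have h4 : x ^ (1 - η / 3) = x ^ (2 * η / 3) * x ^ (1 - η) := by
        rw [← Real.rpow_add hx0]
        congr 1
        ring
      rw [h4]
      have h5 : 0 ≤ x ^ (1 - η) := by positivity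
      nlinarith
    have h4 : I * x ^ (1 - η) ≤ I * ((X.filter fun n => Z y n).card : ℝ) := by linarith
    exact le_of_mul_le_mul_left h4 hIr
  have hne : (X.filter fun n => Z y n).Nonempty := by
    rw [← card_pos]
    have h1 : 0 < x ^ (1 - η) := by positivity
    exact_mod_cast h1.trans_le hcard
  obtain ⟨n₀, hn₀⟩ := hne
  obtain ⟨z1, z2, -⟩ := (hZ y n₀).1 (mem_filter.1 hn₀).2
  refine ⟨y.1.1, y.2.1, y.1.2, y.2.2, z1, ?_, ?_⟩
  · have h1 := hH y.2.1 y.2.2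
    have h2 := hH y.1.1 y.1.2
    omega
  have h1 : x ^ (1 - η₀) ≤ x ^ (1 - η) :=
    Real.rpow_le_rpow_of_exponent_le (by linarith) (by linarith)
  refine (h1.trans hcard).trans ?_
  have h2 : ((X.filter fun n => Z y n).image (φ y)).card = (X.filter fun n => Z y n).card := by
    refine card_image_of_injOn ?_
    intro n hn n' hn' h
    exact hφinj y n n' (mem_filter.1 (mem_coe.1 hn)).2 (mem_filter.1 (mem_coe.1 hn')).2 h
  rw [← h2, Nat.cast_le, ← Set.ncard_coe_finset]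
  have hfin : {p : ℕ | (p : ℝ) ≤ x ∧ p ∈ PS D e m R (H₀ y.2.1 y.2.2 - H₀ y.1.1 y.1.2)}.Finite := by
    refine (Set.finite_le_nat ⌊x⌋₊).subset ?_
    intro p hp
    exact Nat.le_floor hp.1
  refine Set.ncard_le_ncard ?_ hfin
  intro p hp
  obtain ⟨n, hn, rfl⟩ := mem_image.1 (mem_coe.1 hp)
  obtain ⟨hn1, hn2⟩ := mem_filter.1 hn
  have hn3 := mem_Icc.1 (hX1 hn1)
  refine ⟨?_, hφPS y n hn2⟩
  have h3 : ((φ y n : ℕ) : ℝ) ≤ ((κ * n : ℕ) : ℝ) := by exact_mod_cast hφle y n hn3.1 hn2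
  refine h3.trans (le_trans ?_ hNle)
  push_cast
  have h4 : (n : ℝ) ≤ N := by exact_mod_cast hn3.2
  exact mul_le_mul_of_nonneg_left h4 (by linarith)

open Pool.Agent.H947R3.GM Pool.Agent.U455.EVS

/-- four classes of widely spaced shifts, eventually -/
def EvC4s {α : Type*} (l : Filter α) (G : α → Set ℕ) (K S : ℕ) : Prop := ∀ H : Fin 4 → Fin K → ℕ,
  (∀ x y : Fin 4 × Fin K, x ≠ y → H x.1 x.2 + S < H y.1 y.2 ∨ H y.1 y.2 + S < H x.1 x.2) →
  ∀ᶠ x in l, ∃ g g' i i', g ≠ g' ∧ H g i < H g' i' ∧ H g' i' - H g i ∈ G x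

/-- all four classes -/
theorem ev_of_spaced {α : Type*} {l : Filter α} {G : α → Set ℕ} {K S : ℕ} (N : ℕ) (hG : EvC4s l G K S) :
    EvC4 l (fun x => G x ∪ {d | d ≤ S}) N (K * (S + 1)) := by
  intro H hadm
  by_cases hcl : ∃ g g' i i', g ≠ g' ∧ H g i < H g' i' ∧ H g' i' ≤ H g i + S
  · obtain ⟨g, g', i, i', h1, h2, h3⟩ := hcl
    refine Eventually.of_forall fun x => ⟨g, g', i, i', h1, h2, Or.inr ?_⟩
    show H g' i' - H g i ≤ S
    omega
  · push Not at hcl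
    have hinj : ∀ g, Function.Injective (H g) := by
      intro g i j h
      have := hadm.1 (a₁ := (g, i)) (a₂ := (g, j)) h
      exact (Prod.mk.inj this).2
    choose σ hσ using fun g => Pool.Agent.U455.TJ.spaced K S (H g) (hinj g)
    have hsp : ∀ x y : Fin 4 × Fin K, x ≠ y →
        H x.1 (σ x.1 x.2) + S < H y.1 (σ y.1 y.2) ∨ H y.1 (σ y.1 y.2) + S < H x.1 (σ x.1 x.2) := by
      rintro ⟨g, i⟩ ⟨g', i'⟩ hxy
      by_cases hg : g = g'
      · subst hg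
        exact hσ g i i' (fun h => hxy (by rw [h]))
      · rcases lt_trichotomy (H g (σ g i)) (H g' (σ g' i')) with h | h | h
        · exact Or.inl (hcl g g' _ _ hg h)
        · exact absurd (Prod.mk.inj (hadm.1 (a₁ := (g, σ g i)) (a₂ := (g', σ g' i')) h)).1 hg
        · exact Or.inr (hcl g' g _ _ (Ne.symm hg) h)
    refine (hG (fun g i => H g (σ g i)) hsp).mono fun x hx => ?_
    obtain ⟨g, g', i, i', h1, h2, h3⟩ := hx
    exact ⟨g, g', _, _, h1, h2, Or.inl h3⟩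

/-- **every multiple of `6` is a combination of three elements, widely spaced classes** -/
theorem linear_spaced (K S R : ℕ) : ∃ C : ℕ, ∀ {α : Type} (l : Filter α) (G : α → Set ℕ), EvC4s l G K S →
    ∀ t : ℕ, 6 ∣ t → 1 ≤ t → ∀ᶠ x in l, ∃ g₁ g₂ g₃, g₁ ∈ G x ∧ g₂ ∈ G x ∧ g₃ ∈ G x ∧
      (R * t < g₁ ∧ g₁ ≤ C * t) ∧ (R * t < g₂ ∧ g₂ ≤ C * t) ∧ (R * t < g₃ ∧ g₃ ≤ C * t) ∧
      t + g₃ = g₁ + g₂ := by
  obtain ⟨C, hC⟩ := UF.linear (K * (S + 1)) (R + S)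
  refine ⟨C, fun l G hG t h6 ht => ?_⟩
  filter_upwards [hC l _ 2 dvd_rfl (ev_of_spaced 2 hG) t h6 ht] with x hx
  obtain ⟨g₁, g₂, g₃, a1, a2, a3, ⟨b1, b1'⟩, ⟨b2, b2'⟩, ⟨b3, b3'⟩, hs⟩ := hx
  have e : (R + S) * t = R * t + S * t := by ring
  have e2 : S ≤ S * t := Nat.le_mul_of_pos_right _ ht
  have hmem : ∀ d, d ∈ G x ∪ {d | d ≤ S} → (R + S) * t < d → d ∈ G x ∧ R * t < d := by
    rintro d (h | h) hd
    · exact ⟨h, by omega⟩
    · exfalso
      have : d ≤ S := h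
      omega
  obtain ⟨c1, c1'⟩ := hmem _ a1 b1
  obtain ⟨c2, c2'⟩ := hmem _ a2 b2
  obtain ⟨c3, c3'⟩ := hmem _ a3 b3
  exact ⟨g₁, g₂, g₃, c1, c2, c3, ⟨c1', b1'⟩, ⟨c2', b2'⟩, ⟨c3', b3'⟩, hs⟩

end Pool.Agent.U455.ORB
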