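import Mathlib
import Pool.Agent.U455.PAR

/-!
# Bounded sums of sides of popular parallelograms
-/

set_option autoImplicit false

namespace Pool.Agent.U455.PAS

open Finset Filter
open Pool.Agent.U455.PAR (SS Par popular)

open Classical in
/-- `2 k` is a side of many popular parallelograms -/
def Sd (Q : Finset ℕ) (C : ℕ) (κ W : ℝ) (k : ℕ) : Prop :=
  κ * (k : ℝ) ≤ (((Icc 1 (C * k)).filter (fun l => k ≠ l ∧ κ * W ≤ ((Par Q (2 * k) (2 * l)).card : ℝ))).card : ℝ)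

open Classical in
theorem dens (δ : ℝ) (hδ : 0 < δ) : ∃ κ ρ K : ℝ, 0 < κ ∧ 0 < ρ ∧ 0 < K ∧ ∃ C X₀ : ℕ,
    ∀ a H : ℕ, X₀ ≤ H → H ≤ a → ∀ Q : Finset ℕ, Q ⊆ Ioc a (a + H) → (∀ p ∈ Q, p.Prime) →
      δ * (H / Real.log H) ≤ Q.card → ∀ L : ℕ, K * Real.log H ^ 2 ≤ L → 2 * L ≤ H →
      ρ * L ≤ (((Icc 1 L).filter (Sd Q C κ (H / Real.log H ^ 4))).card : ℝ) := by
  obtain ⟨κ₀, ρ₀, K, hκ₀, hρ₀, hK, X₀, hpop⟩ := popular δ hδ
  obtain ⟨C, hC⟩ := exists_nat_ge (4 / ρ₀)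
  have hCρ : 1 ≤ ρ₀ / 4 * C := by
    rw [div_le_iff₀ hρ₀] at hC
    linarith
  obtain ⟨κ, hκ⟩ : ∃ κ, κ = min κ₀ (ρ₀ / 4) := ⟨_, rfl⟩
  have hκ0 : 0 < κ := by rw [hκ]; exact lt_min hκ₀ (by positivity)
  refine ⟨κ, ρ₀ / 2, K, hκ0, by positivity, hK, C, max X₀ 3, fun a H hH hHa Q hQ hQp hQc L hL hLH => ?_⟩
  have hX₀ : X₀ ≤ H := (le_max_left _ _).trans hH
  have hH3 : 3 ≤ H := (le_max_right _ _).trans hH
  have hHR : (3 : ℝ) ≤ H := by exact_mod_cast hH3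
  have hlog1 : 1 < Real.log H := by
    rw [Real.lt_log_iff_exp_lt (by linarith)]
    have := Real.exp_one_lt_d9
    linarith
  have hL0 : (0 : ℝ) < L := lt_of_lt_of_le (by positivity) hL
  have hp := hpop a H hX₀ hHa Q hQ hQp hQc L hL hLH
  obtain ⟨W, hW⟩ : ∃ W : ℝ, W = H / Real.log H ^ 4 := ⟨_, rfl⟩
  have hW0 : 0 ≤ W := by rw [hW]; positivity
  rw [← hW] at hp ⊢
  obtain ⟨g, hg⟩ : ∃ g : ℕ → Finset ℕ, g = fun k => (Icc 1 L).filter (fun l => k ≠ l ∧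
    κ₀ * W ≤ ((Par Q (2 * k) (2 * l)).card : ℝ)) := ⟨_, rfl⟩
  have hsum : (((SS L).filter (fun x => κ₀ * W ≤ ((Par Q (2 * x.1) (2 * x.2)).card : ℝ))).card : ℝ) =
      ∑ k ∈ Icc 1 L, ((g k).card : ℝ) := by
    have h1 : ((SS L).filter (fun x => κ₀ * W ≤ ((Par Q (2 * x.1) (2 * x.2)).card : ℝ))).card =
        ((Icc 1 L).sigma g).card := by
      apply card_bij' (fun x _ => (⟨x.1, x.2⟩ : (_ : ℕ) × ℕ)) (fun x _ => (x.1, x.2))
      · intro x hx
        unfold SS at hx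
        rw [mem_filter, mem_filter, mem_product] at hx
        rw [mem_sigma, hg]
        exact ⟨hx.1.1.1, mem_filter.2 ⟨hx.1.1.2, hx.1.2, hx.2⟩⟩
      · intro x hx
        rw [mem_sigma, hg] at hx
        obtain ⟨h2, h3⟩ := hx
        have h3' := mem_filter.1 h3
        unfold SS
        rw [mem_filter, mem_filter, mem_product]
        exact ⟨⟨⟨h2, h3'.1⟩, h3'.2.1⟩, h3'.2.2⟩
      · intro x _; rfl
      · intro x _; rfl
    rw [h1, card_sigma]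
    push_cast
    rfl
  rw [hsum] at hp
  obtain ⟨B, hB⟩ : ∃ B, B = (Icc 1 L).filter (fun k : ℕ => ρ₀ / 4 * L ≤ ((g k).card : ℝ) ∧ ρ₀ / 4 * L ≤ (k : ℝ)) :=
    ⟨_, rfl⟩
  have hgL : ∀ k, ((g k).card : ℝ) ≤ L := by
    intro k
    have h1 : (g k).card ≤ L := by
      rw [hg]
      refine (card_filter_le _ _).trans ?_
      rw [Nat.card_Icc, Nat.add_sub_cancel]
    exact_mod_cast h1
  have hBc : ρ₀ / 2 * L ≤ (B.card : ℝ) := by
    -- the two exceptional sets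
    have h1 : ∑ k ∈ Icc 1 L, ((g k).card : ℝ) ≤ ∑ k ∈ B, (L : ℝ) + ∑ k ∈ Icc 1 L, ρ₀ / 4 * L +
        ∑ k ∈ (Icc 1 L).filter (fun k : ℕ => (k : ℝ) < ρ₀ / 4 * L), (L : ℝ) := by
      have h2 : ∀ k ∈ Icc 1 L, ((g k).card : ℝ) ≤ (if k ∈ B then (L : ℝ) else 0) + ρ₀ / 4 * L +
          (if (k : ℝ) < ρ₀ / 4 * L then (L : ℝ) else 0) := by
        intro k hk
        have h3 := hgL k
        have h4 : 0 ≤ ρ₀ / 4 * (L : ℝ) := by positivity
        by_cases h5 : k ∈ B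
        · rw [if_pos h5]
          split_ifs <;> linarith
        · rw [if_neg h5]
          by_cases h6 : (k : ℝ) < ρ₀ / 4 * L
          · rw [if_pos h6]; linarith
          · rw [if_neg h6]
            rw [hB, mem_filter] at h5
            push Not at h5
            have h7 : ¬ ρ₀ / 4 * L ≤ ((g k).card : ℝ) := fun h => absurd (h5 hk h) (not_lt.2 (not_lt.1 h6))
            linarith [not_le.1 h7]
      refine (sum_le_sum h2).trans ?_
      rw [sum_add_distrib, sum_add_distrib]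
      have h8 : ∑ k ∈ Icc 1 L, (if k ∈ B then (L : ℝ) else 0) = ∑ k ∈ B, (L : ℝ) := by
        rw [← sum_filter]
        congr 1
        ext k
        rw [mem_filter]
        constructor
        · exact fun h => h.2
        · intro h
          exact ⟨by rw [hB] at h; exact (mem_filter.1 h).1, h⟩
      rw [h8, ← sum_filter]
    rw [sum_const, sum_const, sum_const, nsmul_eq_mul, nsmul_eq_mul, nsmul_eq_mul, Nat.card_Icc,
      Nat.add_sub_cancel] at h1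
    have h9 : (((Icc 1 L).filter (fun k : ℕ => (k : ℝ) < ρ₀ / 4 * L)).card : ℝ) ≤ ρ₀ / 4 * L := by
      have h10 : (Icc 1 L).filter (fun k : ℕ => (k : ℝ) < ρ₀ / 4 * L) ⊆ Icc 1 ⌊ρ₀ / 4 * (L : ℝ)⌋₊ := by
        intro k hk
        rw [mem_filter, mem_Icc] at hk
        rw [mem_Icc]
        exact ⟨hk.1.1, Nat.le_floor hk.2.le⟩
      have h11 := card_le_card h10
      rw [Nat.card_Icc, Nat.add_sub_cancel] at h11
      exact (Nat.cast_le.2 h11).trans (Nat.floor_le (by positivity))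
    have h12 : ρ₀ * (L : ℝ) ^ 2 ≤ B.card * L + L * (ρ₀ / 4 * L) + ρ₀ / 4 * L * L := by
      refine hp.trans (h1.trans ?_)
      gcongr
    have h13 : ρ₀ / 2 * L * L ≤ B.card * (L : ℝ) := by nlinarith
    exact le_of_mul_le_mul_right h13 hL0
  refine hBc.trans (Nat.cast_le.2 (card_le_card fun k hk => ?_))
  rw [hB, mem_filter] at hk
  obtain ⟨hk1, hk2, hk3⟩ := hk
  rw [mem_filter]
  refine ⟨hk1, ?_⟩
  have hkL := (mem_Icc.1 hk1).2
  have hkLR : (k : ℝ) ≤ L := by exact_mod_cast hkL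
  have hLC : L ≤ C * k := by
    have h1 : (L : ℝ) ≤ C * k := by
      calc (L : ℝ) ≤ (ρ₀ / 4 * C) * L := le_mul_of_one_le_left hL0.le hCρ
        _ = C * (ρ₀ / 4 * L) := by ring
        _ ≤ C * k := by gcongr
    exact_mod_cast h1
  unfold Sd
  calc κ * (k : ℝ) ≤ ρ₀ / 4 * L := by
        apply mul_le_mul _ hkLR (Nat.cast_nonneg _) (by positivity)
        rw [hκ]; exact min_le_right _ _
    _ ≤ ((g k).card : ℝ) := hk2
    _ ≤ _ := by
        refine Nat.cast_le.2 (card_le_card fun l hl => ?_)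
        rw [hg] at hl
        have hl' : l ∈ (Icc 1 L).filter (fun l => k ≠ l ∧ κ₀ * W ≤ ((Par Q (2 * k) (2 * l)).card : ℝ)) := hl
        rw [mem_filter, mem_Icc] at hl'
        rw [mem_filter, mem_Icc]
        refine ⟨⟨hl'.1.1, by omega⟩, hl'.2.1, le_trans ?_ hl'.2.2⟩
        apply mul_le_mul_of_nonneg_right _ hW0
        rw [hκ]; exact min_le_left _ _

open Classical in
/-- **Bounded sums of sides of popular parallelograms.** -/
theorem main (δ : ℝ) (hδ : 0 < δ) : ∃ h M C : ℕ, 1 ≤ M ∧ ∃ κ K : ℝ, 0 < κ ∧ 0 < K ∧ ∃ X₀ : ℕ,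
    ∀ a H : ℕ, X₀ ≤ H → H ≤ a → ∀ Q : Finset ℕ, Q ⊆ Ioc a (a + H) → (∀ p ∈ Q, p.Prime) →
      δ * (H / Real.log H) ≤ Q.card → ∀ t : ℕ, M ∣ t → K * Real.log H ^ 2 ≤ t → t ≤ H →
      ∃ l : List ℕ, l.length ≤ h ∧ l.sum = t ∧ ∀ d ∈ l, 1 ≤ d ∧
        κ * (d : ℝ) ≤ (((Icc 1 (C * d)).filter (fun e => d ≠ e ∧
          κ * (H / Real.log H ^ 4) ≤ ((Par Q d e).card : ℝ))).card : ℝ) := by
  obtain ⟨κ, ρ, K, hκ, hρ, hK, C, X₁, hdens⟩ := dens δ hδ
  obtain ⟨D, hD⟩ : ∃ D : ℕ, 1 / ((D : ℝ) + 1) < ρ := exists_nat_one_div_lt hρ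
  obtain ⟨D', hD'⟩ : ∃ D', D' = max D 1 := ⟨_, rfl⟩
  have hD1 : 1 ≤ D' := by rw [hD']; exact le_max_right _ _
  have hDρ : 1 / ((D' : ℝ) + 1) < ρ := by
    refine lt_of_le_of_lt ?_ hD
    apply one_div_le_one_div_of_le (by positivity)
    have : (D : ℝ) ≤ D' := by rw [hD']; exact_mod_cast le_max_left _ _
    linarith
  obtain ⟨h, C₁, N₀, hmain⟩ := BTH.main D' hD1 ρ hDρ
  have hlim : Tendsto (fun H : ℕ => K * Real.log (H : ℝ) ^ 2) atTop atTop :=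
    ((tendsto_pow_atTop (by norm_num)).comp (Real.tendsto_log_atTop.comp tendsto_natCast_atTop_atTop)).const_mul_atTop hK
  obtain ⟨X₃, hX₃⟩ := eventually_atTop.1 (hlim.eventually_ge_atTop (max (N₀ : ℝ) 1))
  refine ⟨h, 2 * D'.factorial, C, Nat.mul_pos (by norm_num) (Nat.factorial_pos _), κ / 2, 4 * C₁ * K + 1,
    by positivity, by positivity, max X₁ X₃, fun a H hH hHa Q hQ hQp hQc t hMt htK htH => ?_⟩
  have hX₁ : X₁ ≤ H := (le_max_left _ _).trans hH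
  have hX₃' : X₃ ≤ H := (le_max_right _ _).trans hH
  have hKl := hX₃ H hX₃'
  obtain ⟨lm, hlm⟩ : ∃ lm : ℝ, lm = Real.log (H : ℝ) ^ 2 := ⟨_, rfl⟩
  have hd' := hdens a H hX₁ hHa Q hQ hQp hQc
  rw [← hlm] at hKl htK hd'
  have hKl1 : (N₀ : ℝ) ≤ K * lm := (le_max_left _ _).trans hKl
  have hKl2 : 1 ≤ K * lm := (le_max_right _ _).trans hKl
  have hlog : 0 ≤ lm := by rw [hlm]; positivity
  obtain ⟨W, hW⟩ : ∃ W : ℝ, W = H / Real.log H ^ 4 := ⟨_, rfl⟩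
  have hW0 : 0 ≤ W := by rw [hW]; positivity
  rw [← hW] at hd' ⊢
  obtain ⟨N, hN⟩ : ∃ N, N = ⌈K * lm⌉₊ := ⟨_, rfl⟩
  have hN1 : K * lm ≤ N := by rw [hN]; exact Nat.le_ceil _
  have hN2 : (N : ℝ) ≤ 2 * (K * lm) := by
    have : (N : ℝ) < K * lm + 1 := by rw [hN]; exact Nat.ceil_lt_add_one (by linarith)
    linarith
  have hN0 : N₀ ≤ N := by
    have : (N₀ : ℝ) ≤ N := hKl1.trans hN1
    exact_mod_cast this
  obtain ⟨u, hu⟩ := hMt
  have htu : t = 2 * (D'.factorial * u) := by rw [hu]; ring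
  have hCN : C₁ * N ≤ D'.factorial * u := by
    have h1 : (t : ℝ) = 2 * ((D'.factorial * u : ℕ) : ℝ) := by rw [htu]; push_cast; ring
    have h2 : ((C₁ * N : ℕ) : ℝ) ≤ ((D'.factorial * u : ℕ) : ℝ) := by
      have hC : (0 : ℝ) ≤ C₁ := Nat.cast_nonneg _
      have h3 : (C₁ : ℝ) * N ≤ C₁ * (2 * (K * lm)) := mul_le_mul_of_nonneg_left hN2 hC
      rw [h1] at htK
      rw [Nat.cast_mul]
      nlinarith
    exact_mod_cast h2
  obtain ⟨l, hl, hl', hl''⟩ := hmain (Sd Q C κ W) N (H / 2) hN0 (by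
      intro H' hNH hH2
      have h4 : (N : ℝ) ≤ H' := by exact_mod_cast hNH
      exact hd' H' (hN1.trans h4) (by omega))
    (D'.factorial * u) (dvd_mul_right _ _) hCN (by omega)
  have key : ∀ l : List ℕ, (l.map (fun y => 2 * y)).sum = 2 * l.sum := by
    intro l
    induction l with
    | nil => simp
    | cons b l ih =>
      rw [List.map_cons, List.sum_cons, ih, List.sum_cons]
      ring
  refine ⟨l.map (fun y => 2 * y), by rwa [List.length_map], by rw [key, hl'', htu], fun d hd => ?_⟩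
  obtain ⟨k, hk, rfl⟩ := List.mem_map.1 hd
  obtain ⟨h6, h7⟩ := hl' k hk
  refine ⟨by omega, ?_⟩
  unfold Sd at h6
  have h8 : κ / 2 * ((2 * k : ℕ) : ℝ) = κ * (k : ℝ) := by
    push_cast
    ring
  rw [h8]
  refine h6.trans (Nat.cast_le.2 ?_)
  apply card_le_card_of_injOn (fun l => 2 * l)
  · intro l hl
    rw [mem_coe, mem_filter, mem_Icc] at hl ⊢
    have h9 : C * (2 * k) = 2 * (C * k) := by ring
    refine ⟨⟨?_, ?_⟩, ?_, ?_⟩
    · show 1 ≤ 2 * l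
      omega
    · show 2 * l ≤ C * (2 * k)
      omega
    · show 2 * k ≠ 2 * l
      have := hl.2.1
      omega
    · refine le_trans ?_ hl.2.2
      apply mul_le_mul_of_nonneg_right _ hW0
      linarith
  · intro x _ y _ hxy
    have : 2 * x = 2 * y := hxy
    omega

end Pool.Agent.U455.PAS
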