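import Mathlib
import Pool.Agent.N646.TT.Tup
import Pool.Agent.U455.BT

/-!
# Bounded sums of differences with a positive proportion of companions
-/

set_option autoImplicit false

namespace Pool.Agent.U455.PPC

open Finset Filter
open Pool.Agent.N646.TT

theorem tpc_mul {k : ℕ} (b d g : ℕ) (τ : Fin k → ℤ) (l D R x : ℕ) :
    tpc (b * d) g τ l D R x ≤ tpc b (d * g) (fun i => (d : ℤ) * τ i) l D R x := by
  classical
  unfold tpc
  apply card_le_card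
  intro m hm
  rw [mem_filter] at hm ⊢
  obtain ⟨h1, h2⟩ := hm
  refine ⟨h1, fun j hj => ?_⟩
  obtain ⟨h3, h4, h5, h6⟩ := h2 j hj
  refine ⟨h3, ?_, fun i => ?_, fun q hq hqR => ?_⟩
  · have e : m + j * D + 2 * b * (d * g) = m + j * D + 2 * (b * d) * g := by ring
    rw [e]; exact h4
  · have h7 := h5 i
    have e : ((m + j * D : ℕ) : ℤ) + 2 * (b : ℤ) * ((d : ℤ) * τ i) =
        ((m + j * D : ℕ) : ℤ) + 2 * ((b * d : ℕ) : ℤ) * τ i := by push_cast; ring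
    rw [e]; exact h7
  · refine dvd_trans ?_ (h6 q hq hqR)
    have : 2 * b ∣ 2 * (b * d) := ⟨d, by ring⟩
    exact_mod_cast this

theorem good_mul {k : ℕ} {b d g : ℕ} {τ : Fin k → ℤ} (h : GoodT (b * d) g τ) :
    GoodT b (d * g) (fun i => (d : ℤ) * τ i) := by
  intro l R
  obtain ⟨C, hC⟩ := h l R
  refine ⟨C, hC.mono fun x hx => ?_⟩
  obtain ⟨D, h1, h2, h3⟩ := hx
  exact ⟨D, h1, h2, h3.trans (by exact_mod_cast tpc_mul b d g τ l D R x)⟩

theorem extQ_mul {k : ℕ} (b d g H M : ℕ) (hd : 1 ≤ d) (hHM : d * H ≤ M) :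
    (extQ k (GoodT (b * d)) H g).card ≤ (extQ k (GoodT b) M (d * g)).card := by
  classical
  have hd0 : (d : ℤ) ≠ 0 := by exact_mod_cast (by omega : d ≠ 0)
  refine card_le_card_of_injOn (fun τ i => (d : ℤ) * τ i) ?_ ?_
  · intro τ hτ
    unfold extQ at hτ ⊢
    rw [mem_coe, mem_filter] at hτ ⊢
    obtain ⟨h1, h2, h3, h4⟩ := hτ
    rw [Fintype.mem_piFinset] at h1 ⊢
    refine ⟨fun i => ?_, fun i j hij => h2 (mul_left_cancel₀ hd0 hij), fun i => ⟨?_, ?_⟩, good_mul h4⟩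
    · have h5 := mem_Icc.1 (h1 i)
      have h6 : (d : ℤ) * H ≤ M := by exact_mod_cast hHM
      have h7 : (0 : ℤ) ≤ d := Int.natCast_nonneg _
      refine mem_Icc.2 ⟨?_, ?_⟩
      · show -(M : ℤ) ≤ d * τ i
        nlinarith [h5.1]
      · show (d : ℤ) * τ i ≤ M
        nlinarith [h5.2]
    · exact mul_ne_zero hd0 (h3 i).1
    · intro h5
      have h6 : (d : ℤ) * τ i = d * g := by
        have h7 : (d : ℤ) * τ i = ((d * g : ℕ) : ℤ) := h5
        rw [h7]; push_cast; ring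
      exact (h3 i).2 (mul_left_cancel₀ hd0 h6)
  · intro τ _ τ' _ h
    funext i
    exact mul_left_cancel₀ hd0 (congrFun h i)

/-- **bounded sums of differences with a positive proportion of companions** -/
theorem main : ∃ h : ℕ, ∀ k : ℕ, ∃ c : ℝ, 0 < c ∧ ∃ T : ℕ, ∀ b : ℕ, 1 ≤ b → ∀ t : ℕ, T ≤ t → 6 ∣ t →
    ∃ l : List ℕ, l.length ≤ h ∧ l.sum = t ∧ ∀ g ∈ l, 1 ≤ g ∧
      c * (t : ℝ) ^ k ≤ ((extQ k (GoodT b) t g).card : ℝ) := by
  classical
  obtain ⟨h, C, N₀, hmain⟩ := Pool.Agent.U455.BT.main (1 / 3 - 1 / 24) (by norm_num)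
  refine ⟨h, fun k => ?_⟩
  obtain ⟨c, hc, L, hL⟩ := third_tup k (1 / 24) (by norm_num)
  refine ⟨c * (1 / (2 * ((C : ℝ) + 1))) ^ k, by positivity, (C + 1) * (N₀ + L + 1), fun b hb t hT h6 => ?_⟩
  obtain ⟨N, hN⟩ : ∃ N, N = t / (C + 1) := ⟨_, rfl⟩
  have hN1 : N₀ + L + 1 ≤ N := by
    rw [hN, Nat.le_div_iff_mul_le (by omega), mul_comm]
    exact hT
  have hNt : (C + 1) * N ≤ t := by rw [hN]; exact Nat.mul_div_le t (C + 1)
  have hNt2 : t < (C + 1) * (N + 1) := by rw [hN]; exact Nat.lt_mul_div_succ t (by omega)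
  have hCN : C * N ≤ t := le_trans (Nat.mul_le_mul_right _ (by omega)) hNt
  have hNr : (t : ℝ) / (2 * ((C : ℝ) + 1)) ≤ N := by
    rw [div_le_iff₀ (by positivity)]
    have h1 : (C + 1) * (N + 1) ≤ N * (2 * (C + 1)) := by
      have : N + 1 ≤ 2 * N := by omega
      calc (C + 1) * (N + 1) ≤ (C + 1) * (2 * N) := Nat.mul_le_mul_left _ this
        _ = N * (2 * (C + 1)) := by ring
    have h2 : t ≤ N * (2 * (C + 1)) := hNt2.le.trans h1
    exact_mod_cast h2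
  obtain ⟨l, hl1, hl2, hl3⟩ := hmain (fun g => c * (N : ℝ) ^ k ≤ ((extQ k (GoodT b) t g).card : ℝ)) N t
    (by omega) (by
    intro d H hd1 hd3 hNH hdH
    refine (hL (b * d) (Nat.mul_pos hb hd1) H (by omega)).trans ?_
    rw [Nat.cast_le]
    apply card_le_card
    intro g hg
    rw [mem_filter] at hg ⊢
    refine ⟨hg.1, ?_⟩
    have h1 : c * (N : ℝ) ^ k ≤ c * (H : ℝ) ^ k := by
      have : (N : ℝ) ≤ H := by exact_mod_cast hNH
      gcongr
    refine h1.trans (hg.2.trans ?_)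
    exact_mod_cast extQ_mul b d g H t hd1 hdH) t h6 hCN le_rfl
  refine ⟨l, hl1, hl3, fun g hg => ⟨(hl2 g hg).2, le_trans ?_ (hl2 g hg).1⟩⟩
  have h1 : (t : ℝ) ^ k * (1 / (2 * ((C : ℝ) + 1))) ^ k = ((t : ℝ) / (2 * ((C : ℝ) + 1))) ^ k := by
    rw [← mul_pow]
    congr 1
    ring
  calc c * (1 / (2 * ((C : ℝ) + 1))) ^ k * (t : ℝ) ^ k = c * ((t : ℝ) ^ k * (1 / (2 * ((C : ℝ) + 1))) ^ k) := by
        ring
    _ = c * ((t : ℝ) / (2 * ((C : ℝ) + 1))) ^ k := by rw [h1]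
    _ ≤ c * (N : ℝ) ^ k := by gcongr

end Pool.Agent.U455.PPC
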