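import Mathlib
import Pool.Agent.H378R2.RGT
import Pool.Agent.H312R2.RG.Fin
import Pool.Agent.W851.Had.Schn

/-!
# Sums of boundedly many of the first `N` gaps between primes

`gap_of` and `main` repeat the statements and proofs of the starting file
`Pool/Agent/Results/MP_6336a7_nt/GapRecord.lean` (Team RG).
-/

set_option autoImplicit false

namespace Pool.Agent.U455.RG

/-- `t` is one of the first `N` gaps between consecutive primes -/
def IsGap (N t : ℕ) : Prop := ∃ n : ℕ, n < N ∧ Nat.nth Nat.Prime (n + 1) - Nat.nth Nat.Prime n = t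

theorem IsGap.mono {N N' t : ℕ} (h : N ≤ N') (hg : IsGap N t) : IsGap N' t := by
  obtain ⟨n, hn, e⟩ := hg
  exact ⟨n, by omega, e⟩

/-- two consecutive primes `a < b` : the gap after the prime with index `π(a)` is `b - a` -/
theorem gap_of {a t : ℕ} (ha : a.Prime) (hb : (a + t).Prime) (ht : 0 < t)
    (h : ∀ y : ℕ, (a + y).Prime → y ≤ t → y = 0 ∨ y = t) :
    Nat.nth Nat.Prime (Nat.count Nat.Prime a + 1) - Nat.nth Nat.Prime (Nat.count Nat.Prime a) = t := by
  have h1 : Nat.nth Nat.Prime (Nat.count Nat.Prime a) = a := Nat.nth_count ha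
  have h2 : Nat.count Nat.Prime (a + t) = Nat.count Nat.Prime a + 1 := by
    have h3 : Nat.count Nat.Prime (a + 1) = Nat.count Nat.Prime a + 1 := by
      rw [Nat.count_succ, if_pos ha]
    rw [← h3]
    have hle : a + 1 ≤ a + t := by omega
    rcases Nat.lt_or_ge (Nat.count Nat.Prime (a + 1)) (Nat.count Nat.Prime (a + t)) with h4 | h4
    · exfalso
      have h5 : Nat.nth Nat.Prime (Nat.count Nat.Prime (a + 1)) < a + t :=
        Nat.nth_lt_of_lt_count h4
      have h6 : a + 1 ≤ Nat.nth Nat.Prime (Nat.count Nat.Prime (a + 1)) := by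
        by_contra h7
        push Not at h7
        have h8 : Nat.nth Nat.Prime (Nat.count Nat.Prime (a + 1)) < a + 1 := h7
        have h10 : Nat.nth Nat.Prime (Nat.count Nat.Prime (a + 1)) ≤ a := by omega
        have h11 := Nat.count_monotone Nat.Prime h10
        have h12 : Nat.count Nat.Prime (Nat.nth Nat.Prime (Nat.count Nat.Prime (a + 1))) =
            Nat.count Nat.Prime (a + 1) :=
          Nat.count_nth_of_infinite Nat.infinite_setOfPred_prime _
        rw [h12, h3] at h11
        omega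
      have h13 : (Nat.nth Nat.Prime (Nat.count Nat.Prime (a + 1))).Prime :=
        Nat.prime_nth_prime _
      have h14 := h (Nat.nth Nat.Prime (Nat.count Nat.Prime (a + 1)) - a)
        (by rw [Nat.add_sub_cancel' (by omega)]; exact h13) (by omega)
      omega
    · exact le_antisymm h4 (Nat.count_monotone Nat.Prime hle)
  have h3 : Nat.nth Nat.Prime (Nat.count Nat.Prime a + 1) = a + t := by
    rw [← h2]; exact Nat.nth_count hb
  rw [h3, h1]; omega

/-- the record function `log x (log log x)^2 (log log log log x) / (log log log x)^2` -/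
noncomputable def record (x : ℝ) : ℝ :=
  Real.log x * (Real.log (Real.log x)) ^ 2 * Real.log (Real.log (Real.log (Real.log x))) /
    (Real.log (Real.log (Real.log x))) ^ 2

theorem main : ∃ c : ℝ, 0 < c ∧ ∃ N₀ : ℕ, ∀ N : ℕ, N₀ ≤ N →
    ∀ Y : ℝ, Real.log N ≤ Y → Y ≤ c * record N →
    ∃ F : Finset ℕ, c * Y ≤ F.card ∧
      ∀ t ∈ F, 0 < t ∧ Even t ∧ (t : ℝ) ≤ Y ∧ IsGap N t := by
  classical
  obtain ⟨c, hc, x0, hx0⟩ := Pool.Agent.H378R2.RGT.T3R_of Pool.Agent.H312R2.RG.mtrg 2 le_rfl
  refine ⟨c, hc, max x0 3, fun N hN Y hY1 hY2 => ?_⟩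
  have hN3 : 3 ≤ N := (le_max_right _ _).trans hN
  have h1 := hx0 N ((le_max_left _ _).trans hN) Y hY1 hY2
  -- the largest element of a pattern
  refine ⟨(Pool.Agent.H378R2.RGT.FreqY 2 Y N).image (fun H => H.sup id), ?_, ?_⟩
  · have hinj : Set.InjOn (fun H : Finset ℕ => H.sup id)
        (Pool.Agent.H378R2.RGT.FreqY 2 Y N : Set (Finset ℕ)) := by
      intro H hH H' hH' hsup
      have key : ∀ H : Finset ℕ, H ∈ Pool.Agent.H378R2.RGT.FreqY 2 Y N → H = {0, H.sup id} := by
        intro H hH
        unfold Pool.Agent.H378R2.RGT.FreqY at hH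
        rw [Finset.mem_filter, Pool.Agent.H312R2.mem_base] at hH
        obtain ⟨⟨⟨h1, h2⟩, h3⟩, h4, h5⟩ := hH
        obtain ⟨a, b, hab, rfl⟩ := Finset.card_eq_two.1 h2
        rcases Finset.mem_insert.1 h3 with h6 | h6
        · subst h6; simp
        · rw [Finset.mem_singleton] at h6
          subst h6; simp [Finset.pair_comm]
      rw [key H hH, key H' hH']
      simp only at hsup
      rw [hsup]
    rw [Finset.card_image_of_injOn hinj]
    simpa using h1
  · intro t ht
    rw [Finset.mem_image] at ht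
    obtain ⟨H, hH, rfl⟩ := ht
    unfold Pool.Agent.H378R2.RGT.FreqY at hH
    rw [Finset.mem_filter, Pool.Agent.H312R2.mem_base] at hH
    obtain ⟨⟨⟨h1, h2⟩, h3⟩, h4, h5⟩ := hH
    obtain ⟨t, ht0, rfl⟩ : ∃ t : ℕ, 0 < t ∧ H = {0, t} := by
      obtain ⟨a, b, hab, rfl⟩ := Finset.card_eq_two.1 h2
      rcases Finset.mem_insert.1 h3 with h6 | h6
      · subst h6; exact ⟨b, by omega, rfl⟩
      · rw [Finset.mem_singleton] at h6
        subst h6; exact ⟨a, by omega, Finset.pair_comm _ _⟩
    have hsup : ({0, t} : Finset ℕ).sup id = t := by simp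
    rw [hsup]
    refine ⟨ht0, ?_, ?_, ?_⟩
    · obtain ⟨r, hr, hr'⟩ := h4 2 Nat.prime_two
      have e0 := hr' 0 (by simp)
      have e1 := hr' t (by simp)
      rw [Nat.even_iff]; omega
    · have h6 := Finset.mem_range.1 (h1 (show t ∈ ({0, t} : Finset ℕ) by simp))
      have h7 : t ≤ ⌊Y⌋₊ := by omega
      have h8 : 0 ≤ Y := by
        refine le_trans ?_ hY1
        exact Real.log_nonneg (by exact_mod_cast (by omega : 1 ≤ N))
      exact (Nat.le_floor_iff h8).1 h7
    · have h6 : (0 : ℝ) < ((Finset.filter (fun n => Pool.Agent.H312R2.Realises {0, t} n)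
          (Finset.Icc 1 N)).card : ℝ) := by
        refine lt_of_lt_of_le ?_ h5
        have : (0 : ℝ) < N := by exact_mod_cast (by omega : 0 < N)
        positivity
      have h7 : 0 < (Finset.filter (fun n => Pool.Agent.H312R2.Realises {0, t} n)
          (Finset.Icc 1 N)).card := by exact_mod_cast h6
      obtain ⟨n, hn⟩ := Finset.card_pos.1 h7
      rw [Finset.mem_filter, Finset.mem_Icc] at hn
      obtain ⟨⟨hn1, hn2⟩, hn3, hn4⟩ := hn
      have g1 : n.Prime := by simpa using hn3 0 (by simp)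
      have g2 : (n + t).Prime := hn3 t (by simp)
      have g3 := gap_of g1 g2 ht0 (fun y hy hyt => by
        have := hn4 y hy ⟨t, by simp, hyt⟩
        simpa using this)
      have g4 : Nat.count Nat.Prime n < n := by
        have g5 : ∀ k : ℕ, 1 ≤ k → Nat.count Nat.Prime k < k := by
          intro k hk
          induction k, hk using Nat.le_induction with
          | base => decide
          | succ k hk ih =>
            rw [Nat.count_succ]; split_ifs <;> omega
        exact g5 n hn1
      exact ⟨_, lt_of_lt_of_le g4 hn2, g3⟩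

/-- the record function is larger than every multiple of the logarithm -/
theorem record_large (C : ℝ) : ∀ᶠ x : ℝ in Filter.atTop, C * Real.log x ≤ record x ∧ 0 < Real.log x := by
  have t1 := Real.tendsto_log_atTop
  have t2 := t1.comp t1
  have t3 := t1.comp t2
  have t4 := t1.comp t3
  filter_upwards [t1.eventually_gt_atTop 0, t2.eventually_gt_atTop 1, t3.eventually_gt_atTop 1,
    t4.eventually_gt_atTop (max C 0)] with x h1 h2 h3 h4
  simp only [Function.comp] at h2 h3 h4
  refine ⟨?_, h1⟩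
  unfold record
  have hC : C ≤ Real.log (Real.log (Real.log (Real.log x))) := (le_max_left _ _).trans h4.le
  have h0 : 0 < Real.log (Real.log (Real.log (Real.log x))) := lt_of_le_of_lt (le_max_right _ _) h4
  have h32 : Real.log (Real.log (Real.log x)) ≤ Real.log (Real.log x) := by
    have := Real.log_le_sub_one_of_pos (lt_trans one_pos h2)
    linarith
  rw [le_div_iff₀ (by positivity)]
  have h5 : (Real.log (Real.log (Real.log x))) ^ 2 ≤ (Real.log (Real.log x)) ^ 2 :=
    pow_le_pow_left₀ (by linarith) h32 2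
  calc C * Real.log x * Real.log (Real.log (Real.log x)) ^ 2
      ≤ Real.log (Real.log (Real.log (Real.log x))) * Real.log x *
        Real.log (Real.log (Real.log x)) ^ 2 := by gcongr
    _ ≤ Real.log (Real.log (Real.log (Real.log x))) * Real.log x * Real.log (Real.log x) ^ 2 := by
        gcongr
    _ = _ := by ring

/-- `0` and the halves of the gaps -/
def Gp (N k : ℕ) : Prop := k = 0 ∨ IsGap N (2 * k)

open Classical in
/-- positive density at all scales up to the record scale -/
theorem dens : ∃ δ c : ℝ, 0 < δ ∧ δ ≤ 1 ∧ 0 < c ∧ ∃ N₀ : ℕ, ∀ N : ℕ, N₀ ≤ N → ∀ n : ℕ,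
    (2 * n : ℝ) ≤ c * record N →
    δ * n ≤ (W851.Had.cnt (Gp N) n : ℝ) := by
  obtain ⟨c, hc, N₁, H⟩ := main
  -- large `y`: `⌊exp y⌋` may be used
  obtain ⟨X₀, hX₀⟩ := Filter.eventually_atTop.1 (record_large (2 / c))
  obtain ⟨Y₀, hY₀⟩ : ∃ Y₀ : ℝ, 2 ≤ Y₀ ∧ ∀ y : ℝ, Y₀ ≤ y → (N₁ : ℝ) + 1 ≤ Real.exp y ∧ X₀ + 1 ≤ Real.exp y := by
    obtain ⟨Y₁, hY₁⟩ := Filter.eventually_atTop.1
      ((Real.tendsto_exp_atTop.eventually_ge_atTop ((N₁ : ℝ) + 1)).and
        (Real.tendsto_exp_atTop.eventually_ge_atTop (X₀ + 1)))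
    exact ⟨max Y₁ 2, le_max_right _ _, fun y hy => hY₁ y ((le_max_left _ _).trans hy)⟩
  obtain ⟨hY2, hY₀⟩ := hY₀
  -- many elements below `2 n`
  have hF : ∀ (N n : ℕ) (F : Finset ℕ), (∀ t ∈ F, 0 < t ∧ Even t ∧ (t : ℝ) ≤ (2 * n : ℝ) ∧ IsGap N t) →
      F.card ≤ W851.Had.cnt (Gp N) n := by
    intro N n F hF
    unfold W851.Had.cnt
    refine Finset.card_le_card_of_injOn (fun t => t / 2) ?_ ?_
    · intro t ht
      obtain ⟨h1, h2, h3, h4⟩ := hF t (Finset.mem_coe.1 ht)
      obtain ⟨k, rfl⟩ := h2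
      have h5 : k + k ≤ 2 * n := by exact_mod_cast h3
      rw [Finset.mem_coe, Finset.mem_filter, Finset.mem_Icc]
      refine ⟨⟨by simp only; omega, by simp only; omega⟩, Or.inr ?_⟩
      have e : 2 * ((k + k) / 2) = k + k := by omega
      simp only
      rw [e]
      exact h4
    · intro t ht t' ht' e
      obtain ⟨-, ⟨k, rfl⟩, -, -⟩ := hF t (Finset.mem_coe.1 ht)
      obtain ⟨-, ⟨k', rfl⟩, -, -⟩ := hF t' (Finset.mem_coe.1 ht')
      simp only at e
      omega
  set δ : ℝ := min (min (c / 2) (1 / (Y₀ + 1))) 1 with hδ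
  have hδ0 : 0 < δ := by
    rw [hδ]
    exact lt_min (lt_min (by positivity) (by positivity)) one_pos
  refine ⟨δ, c, hδ0, min_le_right _ _, hc, max N₁ 2, fun N hN n hn => ?_⟩
  have hN1 : N₁ ≤ N := (le_max_left _ _).trans hN
  have hN2 : 2 ≤ N := (le_max_right _ _).trans hN
  rcases Nat.eq_zero_or_pos n with h0 | h0
  · subst h0
    simp
  have hδc : δ ≤ c / 2 := (min_le_left _ _).trans (min_le_left _ _)
  have hn0 : (0 : ℝ) < n := by exact_mod_cast h0
  have hfin : ∀ F : Finset ℕ, c * (2 * n : ℝ) / 4 ≤ F.card →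
      (∀ t ∈ F, 0 < t ∧ Even t ∧ (t : ℝ) ≤ (2 * n : ℝ) ∧ IsGap N t) →
      δ * n ≤ (W851.Had.cnt (Gp N) n : ℝ) := by
    intro F h1 h2
    have h3 : (F.card : ℝ) ≤ (W851.Had.cnt (Gp N) n : ℝ) := by
      exact_mod_cast hF N n F h2
    refine le_trans ?_ (h1.trans h3)
    nlinarith
  rcases le_or_gt (Real.log N) (2 * n : ℝ) with h1 | h1
  · obtain ⟨F, hF1, hF2⟩ := H N hN1 (2 * n) h1 hn
    refine hfin F ?_ hF2
    have : 0 ≤ c * (2 * n : ℝ) := by positivity
    linarith
  · rcases le_or_gt Y₀ (2 * n : ℝ) with h2 | h2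
    · obtain ⟨h3, h4⟩ := hY₀ (2 * n) h2
      set N' : ℕ := ⌊Real.exp (2 * n)⌋₊ with hN'
      have h5 : Real.exp (2 * n) - 1 < (N' : ℝ) := by
        have := Nat.lt_floor_add_one (Real.exp (2 * (n : ℝ)))
        rw [hN']
        linarith
      have h6 : (N' : ℝ) ≤ Real.exp (2 * n) := Nat.floor_le (Real.exp_pos _).le
      have h7 : N₁ ≤ N' := by
        have : (N₁ : ℝ) < (N' : ℝ) + 1 := by linarith
        have : N₁ < N' + 1 := by exact_mod_cast this
        omega
      have h8 : N' ≤ N := by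
        have h9 : Real.exp (2 * n) < N := by
          rw [← Real.lt_log_iff_exp_lt (by exact_mod_cast (by omega : 0 < N))]
          exact h1
        have : (N' : ℝ) < N := lt_of_le_of_lt h6 h9
        exact_mod_cast this.le
      have hpos : (0 : ℝ) < N' := by
        have : (7 : ℝ) < Real.exp (2 * n) := by
          have e1 : Real.exp 2 ≤ Real.exp (2 * n) := Real.exp_le_exp.2 (by linarith)
          have e2 : Real.exp 2 = Real.exp 1 * Real.exp 1 := by rw [← Real.exp_add]; norm_num
          have e3 := Real.exp_one_gt_d9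
          nlinarith
        linarith
      have h10 : Real.log N' ≤ 2 * n := by
        rw [Real.log_le_iff_le_exp hpos]
        exact h6
      have h11 : (2 * n : ℝ) / 2 ≤ Real.log N' := by
        have e1 : Real.exp (2 * n) / 2 ≤ (N' : ℝ) := by
          have : (2 : ℝ) ≤ Real.exp (2 * n) := by
            have := Real.add_one_le_exp (2 * (n : ℝ))
            linarith
          linarith
        have e2 : Real.exp ((2 * n : ℝ) / 2) ≤ Real.exp (2 * n) / 2 := by
          have e3 : Real.exp (2 * n) = Real.exp ((2 * n : ℝ) / 2) * Real.exp ((2 * n : ℝ) / 2) := by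
            rw [← Real.exp_add]
            congr 1
            ring
          have e4 : 2 ≤ Real.exp ((2 * n : ℝ) / 2) := by
            have := Real.add_one_le_exp ((2 * (n : ℝ)) / 2)
            linarith
          rw [e3]
          nlinarith [Real.exp_pos ((2 * n : ℝ) / 2)]
        rw [Real.le_log_iff_exp_le hpos]
        exact e2.trans e1
      have h12 : (2 * n : ℝ) ≤ c * record N' := by
        obtain ⟨e1, e2⟩ := hX₀ N' (by linarith)
        have e3 : c * (2 / c * Real.log N') ≤ c * record N' := mul_le_mul_of_nonneg_left e1 hc.le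
        have e4 : c * (2 / c * Real.log N') = 2 * Real.log N' := by field_simp
        rw [e4] at e3
        linarith
      obtain ⟨F, hF1, hF2⟩ := H N' h7 (2 * n) h10 h12
      refine hfin F ?_ fun t ht => ?_
      · have : 0 ≤ c * (2 * n : ℝ) := by positivity
        linarith
      · obtain ⟨a1, a2, a3, a4⟩ := hF2 t ht
        exact ⟨a1, a2, a3, a4.mono h8⟩
    · -- small `n`: the gap `2`
      have h3 : 1 ≤ W851.Had.cnt (Gp N) n := by
        unfold W851.Had.cnt
        rw [Nat.one_le_iff_ne_zero, ← Nat.pos_iff_ne_zero, Finset.card_pos]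
        refine ⟨1, ?_⟩
        rw [Finset.mem_filter, Finset.mem_Icc]
        refine ⟨⟨le_rfl, h0⟩, Or.inr ⟨1, by omega, ?_⟩⟩
        rw [Nat.nth_prime_one_eq_three, Nat.nth_prime_two_eq_five]
      have h4 : δ ≤ 1 / (Y₀ + 1) := (min_le_left _ _).trans (min_le_right _ _)
      have h5 : (n : ℝ) ≤ Y₀ + 1 := by linarith
      calc δ * n ≤ 1 / (Y₀ + 1) * (Y₀ + 1) := by gcongr
        _ = 1 := by field_simp
        _ ≤ _ := by exact_mod_cast h3

/-- every even number up to the record scale is a sum of boundedly many gaps -/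
theorem sums : ∃ (h : ℕ) (c : ℝ), 0 < c ∧ ∃ N₀ : ℕ, ∀ N : ℕ, N₀ ≤ N → ∀ t : ℕ, Even t →
    (t : ℝ) ≤ c * record N → ∃ l : List ℕ, l.length ≤ h ∧ (∀ d ∈ l, IsGap N d) ∧ l.sum = t := by
  classical
  obtain ⟨δ, c, hδ0, hδ1, hc, N₀, H⟩ := dens
  obtain ⟨h, hh⟩ := exists_nat_ge (1 / δ)
  have hδh : 1 ≤ δ * h := by
    rw [div_le_iff₀ hδ0] at hh
    linarith
  refine ⟨h + h, c, hc, N₀, fun N hN t ht htc => ?_⟩
  obtain ⟨k, rfl⟩ := ht
  have hk : (2 * k : ℝ) ≤ c * record N := by
    push_cast at htc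
    linarith
  obtain ⟨l, hl1, hl2, hl3⟩ := W851.Had.schn (Gp N) k h δ hδ1 hδh (Or.inl rfl)
    (fun n hn => H N hN n (le_trans (by
      have : (n : ℝ) ≤ k := by exact_mod_cast hn
      linarith) hk)) k le_rfl
  refine ⟨(l.filter (fun y => decide (y ≠ 0))).map (fun y => 2 * y), ?_, ?_, ?_⟩
  · rw [List.length_map]
    exact (List.length_filter_le _ _).trans hl1.le
  · intro d hd
    rw [List.mem_map] at hd
    obtain ⟨y, hy, rfl⟩ := hd
    rw [List.mem_filter] at hy
    rcases hl2 y hy.1 with h1 | h1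
    · exact absurd h1 (by simpa using hy.2)
    · exact h1
  · have key : ∀ l : List ℕ, ((l.filter (fun y => decide (y ≠ 0))).map (fun y => 2 * y)).sum = 2 * l.sum := by
      intro l
      induction l with
      | nil => rfl
      | cons a l ih =>
        by_cases ha : a = 0
        · subst ha
          simpa using ih
        · rw [List.filter_cons_of_pos (by simpa using ha), List.map_cons, List.sum_cons, ih, List.sum_cons]
          ring
    rw [key, hl3]
    ring

end Pool.Agent.U455.RG
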