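import Mathlib
import Pool.Agent.U455.RTG
import Pool.Agent.U455.BTH
import Pool.Agent.U766.OP.Sq

/-!
# Sums of two primes between consecutive squares, near misses
-/

set_option autoImplicit false
set_option maxHeartbeats 4000000

namespace Pool.Agent.U455.SQS

open Finset Filter Topology
open Pool.Agent.H387R2.Uni (CT nuT locT CT_nonneg CT_hasProd)
open Pool.Agent.U766.OP (Rich primesIn)
open Pool.Agent.Y840.PT (sh prim_sh SL_sh w_sh)

/-- `∏ p / (p - 1)` over the primes dividing `s` -/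
noncomputable def ff (s : ℕ) : ℝ := ∏ p ∈ s.primeFactors, (p : ℝ) / (p - 1)

/-- `∏ p / (p - 1)` over the primes up to `y` dividing `s` -/
noncomputable def fy (y s : ℕ) : ℝ := ∏ p ∈ s.primeFactors.filter (· ≤ y), (p : ℝ) / (p - 1)

lemma one_le_fac {p : ℕ} (hp : p.Prime) : (1 : ℝ) ≤ (p : ℝ) / (p - 1) := by
  have h2 : (2 : ℝ) ≤ p := by exact_mod_cast hp.two_le
  rw [le_div_iff₀ (by linarith)]
  linarith

lemma nu_pair (s p : ℕ) : nuT {0, s} p = if p ∣ s then 1 else 2 := by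
  unfold nuT
  rw [image_insert, image_singleton]
  split_ifs with h
  · rw [Nat.zero_mod, Nat.mod_eq_zero_of_dvd h, insert_eq_of_mem (mem_singleton_self _), card_singleton]
  · rw [card_insert_of_notMem, card_singleton]
    rw [mem_singleton, Nat.zero_mod]
    intro h'
    exact h (Nat.dvd_of_mod_eq_zero h'.symm)

theorem CT_pair_le (s : ℕ) (hs : 1 ≤ s) : CT {0, s} ≤ ff s := by
  have hc : ({0, s} : Finset ℕ).card = 2 := by
    rw [card_insert_of_notMem, card_singleton]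
    rw [mem_singleton]
    omega
  have hloc : ∀ p : Nat.Primes, locT {0, s} p ≤ (if (p : ℕ) ∣ s then ((p : ℕ) : ℝ) / (((p : ℕ) : ℝ) - 1) else 1) ∧
      0 ≤ locT {0, s} p := by
    intro p
    have hp := p.2
    have h2 : (2 : ℝ) ≤ ((p : ℕ) : ℝ) := by exact_mod_cast hp.two_le
    unfold locT
    rw [nu_pair s p, hc]
    have h3 : (0 : ℝ) < 1 - 1 / ((p : ℕ) : ℝ) := by
      rw [sub_pos, div_lt_one (by linarith)]
      linarith
    split_ifs with h
    · constructor
      · apply le_of_eq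
        have h4 : ((p : ℕ) : ℝ) - 1 ≠ 0 := by linarith
        have h5 : ((p : ℕ) : ℝ) ≠ 0 := by linarith
        have h6 : 1 - 1 / ((p : ℕ) : ℝ) = (((p : ℕ) : ℝ) - 1) / ((p : ℕ) : ℝ) := by field_simp
        rw [Nat.cast_one, h6]
        field_simp
      · apply div_nonneg _ (by positivity)
        rw [Nat.cast_one]
        exact h3.le
    · constructor
      · rw [div_le_one (by positivity)]
        have h5 : ((p : ℕ) : ℝ) ≠ 0 := by linarith
        have h7 : (1 - 1 / ((p : ℕ) : ℝ)) ^ 2 = 1 - 2 / ((p : ℕ) : ℝ) + (1 / ((p : ℕ) : ℝ)) ^ 2 := by ring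
        rw [h7]
        have : 0 ≤ (1 / ((p : ℕ) : ℝ)) ^ 2 := sq_nonneg _
        push_cast
        linarith
      · apply div_nonneg _ (by positivity)
        push_cast
        rw [sub_nonneg, div_le_one (by linarith)]
        exact h2
  have hprod := CT_hasProd {0, s}
  refine le_of_tendsto' hprod fun A => ?_
  calc ∏ p ∈ A, locT {0, s} p ≤ ∏ p ∈ A, (if (p : ℕ) ∣ s then ((p : ℕ) : ℝ) / (((p : ℕ) : ℝ) - 1) else 1) :=
        Finset.prod_le_prod (fun p _ => (hloc p).2) (fun p _ => (hloc p).1)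
    _ = ∏ p ∈ A.filter (fun p : Nat.Primes => (p : ℕ) ∣ s), ((p : ℕ) : ℝ) / (((p : ℕ) : ℝ) - 1) := by
        rw [prod_filter]
    _ = ∏ p ∈ (A.filter (fun p : Nat.Primes => (p : ℕ) ∣ s)).image (fun p : Nat.Primes => (p : ℕ)),
          (p : ℝ) / ((p : ℝ) - 1) := by
        rw [prod_image]
        intro x _ y _ h
        exact Subtype.ext h
    _ ≤ ff s := by
        unfold ff
        apply prod_le_prod_of_subset_of_one_le
        · intro p hp
          obtain ⟨q, hq, rfl⟩ := mem_image.1 hp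
          rw [mem_filter] at hq
          rw [Nat.mem_primeFactors]
          exact ⟨q.2, hq.2, by omega⟩
        · intro p hp
          obtain ⟨q, hq, rfl⟩ := mem_image.1 hp
          exact zero_le_one.trans (one_le_fac q.2)
        · intro p hp _
          exact one_le_fac (Nat.mem_primeFactors.1 hp).1

theorem ff_le (s y : ℕ) (hs : 1 ≤ s) (hy : 1 ≤ y) (hys : Nat.log 2 s ≤ y) : ff s ≤ 3 * fy y s := by
  have hyR : (1 : ℝ) ≤ y := by exact_mod_cast hy
  have hsplit : fy y s * ∏ p ∈ s.primeFactors.filter (fun p => ¬ p ≤ y), (p : ℝ) / (p - 1) = ff s :=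
    prod_filter_mul_prod_filter_not _ _ _
  have hfy0 : 0 ≤ fy y s := prod_nonneg fun p hp =>
    zero_le_one.trans (one_le_fac (Nat.mem_primeFactors.1 (mem_filter.1 hp).1).1)
  have hc : (s.primeFactors.filter (fun p => ¬ p ≤ y)).card ≤ y := by
    refine (card_filter_le _ _).trans (le_trans ?_ hys)
    apply Nat.le_log_of_pow_le (by norm_num)
    calc 2 ^ s.primeFactors.card = ∏ p ∈ s.primeFactors, 2 := by rw [prod_const]
      _ ≤ ∏ p ∈ s.primeFactors, p := Finset.prod_le_prod (fun _ _ => by omega)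
          (fun p hp => (Nat.mem_primeFactors.1 hp).1.two_le)
      _ ≤ s := Nat.le_of_dvd (by omega) (Nat.prod_primeFactors_dvd s)
  have hbig : ∏ p ∈ s.primeFactors.filter (fun p => ¬ p ≤ y), (p : ℝ) / (p - 1) ≤ 3 := by
    have h1 : ∀ p ∈ s.primeFactors.filter (fun p => ¬ p ≤ y), (p : ℝ) / (p - 1) ≤ 1 + 1 / (y : ℝ) := by
      intro p hp
      rw [mem_filter, not_le] at hp
      have h2 : (y : ℝ) + 1 ≤ p := by exact_mod_cast hp.2
      have h3 : 0 < (p : ℝ) - 1 := by linarith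
      have h4 : (p : ℝ) / (p - 1) = 1 + 1 / ((p : ℝ) - 1) := by field_simp; ring
      rw [h4]
      have : 1 / ((p : ℝ) - 1) ≤ 1 / y := by
        apply one_div_le_one_div_of_le <;> linarith
      linarith
    calc ∏ p ∈ s.primeFactors.filter (fun p => ¬ p ≤ y), (p : ℝ) / (p - 1)
        ≤ ∏ p ∈ s.primeFactors.filter (fun p => ¬ p ≤ y), (1 + 1 / (y : ℝ)) := by
          apply Finset.prod_le_prod _ h1
          intro p hp
          exact zero_le_one.trans (one_le_fac (Nat.mem_primeFactors.1 (mem_filter.1 hp).1).1)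
      _ = (1 + 1 / (y : ℝ)) ^ (s.primeFactors.filter (fun p => ¬ p ≤ y)).card := by rw [prod_const]
      _ ≤ (1 + 1 / (y : ℝ)) ^ y := by
          apply pow_le_pow_right₀ _ hc
          have : 0 ≤ 1 / (y : ℝ) := by positivity
          linarith
      _ ≤ Real.exp (1 / y) ^ y := by
          apply pow_le_pow_left₀ (by positivity)
          have := Real.add_one_le_exp (1 / (y : ℝ))
          linarith
      _ = Real.exp 1 := by
          rw [← Real.exp_nat_mul]
          congr 1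
          field_simp
      _ ≤ 3 := by
          have := Real.exp_one_lt_d9
          linarith
  rw [← hsplit, mul_comm]
  exact mul_le_mul_of_nonneg_right hbig hfy0

/-- the odd primes up to `y` -/
def PP (y : ℕ) : Finset ℕ := (Icc 1 y).filter (fun p => p.Prime ∧ p ≠ 2)

theorem fy_sq (y s : ℕ) : fy y s ^ 2 ≤ 4 * ∏ p ∈ PP y, (1 + (if p ∣ s then 5 / (p : ℝ) else 0)) := by
  have h1 : fy y s ^ 2 = ∏ p ∈ s.primeFactors.filter (· ≤ y), ((p : ℝ) / (p - 1)) ^ 2 := by
    unfold fy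
    rw [prod_pow]
  have hp2 : ∀ p ∈ s.primeFactors.filter (· ≤ y), (1 : ℝ) ≤ ((p : ℝ) / (p - 1)) ^ 2 := fun p hp =>
    one_le_pow₀ (one_le_fac (Nat.mem_primeFactors.1 (mem_filter.1 hp).1).1)
  have hodd : ∀ p : ℕ, 3 ≤ p → ((p : ℝ) / (p - 1)) ^ 2 ≤ 1 + 5 / p := by
    intro p hp
    have h3 : (3 : ℝ) ≤ p := by exact_mod_cast hp
    have h4 : 0 < (p : ℝ) - 1 := by linarith
    have h5 : (0 : ℝ) < p := by linarith
    rw [div_pow, div_le_iff₀ (by positivity)]
    have h6 : (1 + 5 / (p : ℝ)) * ((p : ℝ) - 1) ^ 2 = ((p : ℝ) + 5) * ((p : ℝ) - 1) ^ 2 / p := by field_simp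
    rw [h6, le_div_iff₀ h5]
    nlinarith
  obtain ⟨B, hB⟩ : ∃ B, B = (s.primeFactors.filter (· ≤ y)).filter (fun p => p ≠ 2) := ⟨_, rfl⟩
  have h2 : ∏ p ∈ s.primeFactors.filter (· ≤ y), ((p : ℝ) / (p - 1)) ^ 2 ≤ 4 * ∏ p ∈ B, ((p : ℝ) / (p - 1)) ^ 2 := by
    rw [← prod_filter_mul_prod_filter_not (s.primeFactors.filter (· ≤ y)) (fun p => p ≠ 2), ← hB, mul_comm]
    apply mul_le_mul_of_nonneg_right _ (prod_nonneg fun _ _ => sq_nonneg _)
    have hsub : (s.primeFactors.filter (· ≤ y)).filter (fun p => ¬ p ≠ 2) ⊆ {2} := by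
      intro p hp
      rw [mem_filter, not_not] at hp
      rw [mem_singleton]
      exact hp.2
    calc ∏ p ∈ (s.primeFactors.filter (· ≤ y)).filter (fun p => ¬ p ≠ 2), ((p : ℝ) / (p - 1)) ^ 2
        ≤ ∏ p ∈ ({2} : Finset ℕ), ((p : ℝ) / (p - 1)) ^ 2 := by
          apply prod_le_prod_of_subset_of_one_le hsub
          · intro p _; positivity
          · intro p hp _
            rw [mem_singleton] at hp
            subst hp
            norm_num
      _ = 4 := by rw [prod_singleton]; norm_num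
  rw [h1]
  refine h2.trans ?_
  apply mul_le_mul_of_nonneg_left _ (by norm_num)
  have hBP : B ⊆ PP y := by
    intro p hp
    rw [hB, mem_filter, mem_filter, Nat.mem_primeFactors] at hp
    unfold PP
    rw [mem_filter, mem_Icc]
    exact ⟨⟨hp.1.1.1.pos, hp.1.2⟩, hp.1.1.1, hp.2⟩
  calc ∏ p ∈ B, ((p : ℝ) / (p - 1)) ^ 2 ≤ ∏ p ∈ B, (1 + (if p ∣ s then 5 / (p : ℝ) else 0)) := by
        apply Finset.prod_le_prod
        · intro p _; positivity
        · intro p hp
          rw [hB, mem_filter, mem_filter, Nat.mem_primeFactors] at hp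
          rw [if_pos hp.1.1.2.1]
          apply hodd
          have := hp.1.1.1.two_le
          have := hp.2
          omega
    _ ≤ _ := by
        apply prod_le_prod_of_subset_of_one_le hBP
        · intro p _
          split_ifs <;> positivity
        · intro p _ _
          split_ifs
          · have : 0 ≤ 5 / (p : ℝ) := by positivity
            linarith
          · linarith

/-- second moment in short intervals -/
theorem short_mom (y L W : ℕ) (hL : 1 ≤ L) (hy : (y + 1) ^ 5 ≤ L) :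
    ∑ j ∈ Icc 1 L, fy y (W + 2 * j) ^ 2 ≤ 4 * (Real.exp 5 + 1) * L := by
  have hL0 : (0 : ℝ) < L := by exact_mod_cast hL
  have hPmem : ∀ p ∈ PP y, p.Prime ∧ p ≠ 2 ∧ p ≤ y := by
    intro p hp
    unfold PP at hp
    rw [mem_filter, mem_Icc] at hp
    exact ⟨hp.2.1, hp.2.2, hp.1.2⟩
  have h1 : ∑ j ∈ Icc 1 L, fy y (W + 2 * j) ^ 2 ≤
      ∑ j ∈ Icc 1 L, 4 * ∏ p ∈ PP y, (1 + (if p ∣ W + 2 * j then 5 / (p : ℝ) else 0)) :=
    sum_le_sum fun j _ => fy_sq y (W + 2 * j)
  refine h1.trans ?_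
  rw [← mul_sum, mul_assoc]
  apply mul_le_mul_of_nonneg_left _ (by norm_num)
  have h2 : ∀ j ∈ Icc 1 L, ∏ p ∈ PP y, (1 + (if p ∣ W + 2 * j then 5 / (p : ℝ) else 0)) =
      ∑ D ∈ (PP y).powerset, (∏ p ∈ D, (5 / (p : ℝ))) * (if ∀ p ∈ D, p ∣ W + 2 * j then 1 else 0) := by
    intro j _
    rw [prod_one_add]
    apply sum_congr rfl
    intro D _
    rw [prod_ite_zero]
    split_ifs <;> simp
  rw [sum_congr rfl h2, sum_comm]
  have hcount : ∀ D ∈ (PP y).powerset, ∑ j ∈ Icc 1 L, (∏ p ∈ D, (5 / (p : ℝ))) *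
      (if ∀ p ∈ D, p ∣ W + 2 * j then 1 else 0) ≤ (∏ p ∈ D, (5 / (p : ℝ))) * (L / ∏ p ∈ D, (p : ℝ) + 1) := by
    intro D hD
    rw [mem_powerset] at hD
    rw [← mul_sum]
    apply mul_le_mul_of_nonneg_left _ (prod_nonneg fun p _ => by positivity)
    have hcf : (∑ j ∈ Icc 1 L, (if ∀ p ∈ D, p ∣ W + 2 * j then (1 : ℝ) else 0)) =
        (((Icc 1 L).filter (fun j => ∀ p ∈ D, p ∣ W + 2 * j)).card : ℝ) := by
      rw [Finset.natCast_card_filter]
    rw [hcf]
    obtain ⟨d, hd⟩ : ∃ d, d = ∏ p ∈ D, p := ⟨_, rfl⟩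
    have hd0 : 0 < d := by
      rw [hd]
      exact prod_pos fun p hp => (hPmem p (hD hp)).1.pos
    have hdR : (∏ p ∈ D, (p : ℝ)) = d := by rw [hd]; push_cast; rfl
    rw [hdR]
    have hcop : Nat.Coprime d 2 := by
      rw [hd]
      apply Nat.Coprime.prod_left
      intro p hp
      obtain ⟨a1, a2, _⟩ := hPmem p (hD hp)
      exact (Nat.coprime_primes a1 Nat.prime_two).2 a2
    have h3 : ((Icc 1 L).filter (fun j => ∀ p ∈ D, p ∣ W + 2 * j)).card ≤ L / d + 1 := by
      rw [← card_range (L / d + 1)]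
      apply card_le_card_of_injOn (fun j => j / d)
      · intro j hj
        rw [mem_coe, mem_filter, mem_Icc] at hj
        rw [mem_coe, mem_range]
        have := Nat.div_le_div_right (c := d) hj.1.2
        show j / d < L / d + 1
        omega
      · have hmod : ∀ j ∈ (Icc 1 L).filter (fun j => ∀ p ∈ D, p ∣ W + 2 * j), d ∣ W + 2 * j := by
          intro j hj
          rw [mem_filter] at hj
          rw [hd]
          exact Finset.prod_primes_dvd _ (fun p hp => (hPmem p (hD hp)).1.prime) hj.2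
        intro j hj j' hj' hjj
        rw [mem_coe] at hj hj'
        have e1 := hmod j hj
        have e2 := hmod j' hj'
        have hjj' : j / d = j' / d := hjj
        have h4 : j ≡ j' [MOD d] := by
          have h5 : W + 2 * j ≡ W + 2 * j' [MOD d] :=
            ((Nat.modEq_zero_iff_dvd.2 e1)).trans (Nat.modEq_zero_iff_dvd.2 e2).symm
          have h6 : 2 * j ≡ 2 * j' [MOD d] := Nat.ModEq.add_left_cancel' W h5
          exact Nat.ModEq.cancel_left_of_coprime hcop h6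
        have h5 := Nat.div_add_mod j d
        have h6 := Nat.div_add_mod j' d
        rw [hjj', show j % d = j' % d from h4] at h5
        omega
    calc (((Icc 1 L).filter (fun j => ∀ p ∈ D, p ∣ W + 2 * j)).card : ℝ) ≤ ((L / d + 1 : ℕ) : ℝ) := by exact_mod_cast h3
      _ ≤ L / d + 1 := by
          push_cast
          have : ((L / d : ℕ) : ℝ) ≤ (L : ℝ) / d := Nat.cast_div_le
          linarith
  refine (sum_le_sum hcount).trans ?_
  have h3 : ∑ D ∈ (PP y).powerset, (∏ p ∈ D, (5 / (p : ℝ))) * (L / ∏ p ∈ D, (p : ℝ) + 1) =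
      L * ∏ p ∈ PP y, (1 + 5 / (p : ℝ) ^ 2) + ∏ p ∈ PP y, (1 + 5 / (p : ℝ)) := by
    rw [prod_one_add, prod_one_add, mul_sum, ← sum_add_distrib]
    apply sum_congr rfl
    intro D hD
    rw [mul_add, mul_one]
    congr 1
    have e : ∏ p ∈ D, (5 / (p : ℝ) ^ 2) = (∏ p ∈ D, (5 / (p : ℝ))) / ∏ p ∈ D, (p : ℝ) := by
      rw [← prod_div_distrib]
      apply prod_congr rfl
      intro p _
      rw [sq, div_div]
    rw [e]
    ring
  rw [h3]
  have h4 : ∏ p ∈ PP y, (1 + 5 / (p : ℝ) ^ 2) ≤ Real.exp 5 := by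
    calc ∏ p ∈ PP y, (1 + 5 / (p : ℝ) ^ 2) ≤ ∏ p ∈ PP y, Real.exp (5 / (p : ℝ) ^ 2) := by
          apply Finset.prod_le_prod
          · intro p _; positivity
          · intro p _
            have := Real.add_one_le_exp (5 / (p : ℝ) ^ 2)
            linarith
      _ = Real.exp (∑ p ∈ PP y, 5 / (p : ℝ) ^ 2) := by rw [Real.exp_sum]
      _ ≤ Real.exp 5 := by
          rw [Real.exp_le_exp]
          have h5 : PP y ⊆ Ioc 1 (y + 1) := by
            intro p hp
            have := hPmem p hp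
            rw [mem_Ioc]
            exact ⟨this.1.one_lt, by omega⟩
          have h6 := sum_Ioc_inv_sq_le_sub (α := ℝ) (k := 1) (n := y + 1) (by norm_num) (by omega)
          calc ∑ p ∈ PP y, 5 / (p : ℝ) ^ 2 = 5 * ∑ p ∈ PP y, ((p : ℝ) ^ 2)⁻¹ := by
                rw [mul_sum]
                apply sum_congr rfl
                intro p _
                rw [div_eq_mul_inv]
            _ ≤ 5 * ∑ p ∈ Ioc 1 (y + 1), ((p : ℝ) ^ 2)⁻¹ := by
                apply mul_le_mul_of_nonneg_left _ (by norm_num)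
                apply sum_le_sum_of_subset_of_nonneg h5
                intro p _ _
                positivity
            _ ≤ 5 * 1 := by
                apply mul_le_mul_of_nonneg_left _ (by norm_num)
                refine h6.trans ?_
                have : 0 ≤ (((y + 1 : ℕ) : ℝ))⁻¹ := by positivity
                push_cast at this ⊢
                linarith
            _ = 5 := by norm_num
  have h5 : ∏ p ∈ PP y, (1 + 5 / (p : ℝ)) ≤ L := by
    calc ∏ p ∈ PP y, (1 + 5 / (p : ℝ)) ≤ ∏ p ∈ Icc 1 y, (1 + 5 / (p : ℝ)) := by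
          apply prod_le_prod_of_subset_of_one_le
          · unfold PP; exact filter_subset _ _
          · intro p _; positivity
          · intro p _ _
            have : 0 ≤ 5 / (p : ℝ) := by positivity
            linarith
      _ ≤ ∏ p ∈ Icc 1 y, (1 + 1 / (p : ℝ)) ^ 5 := by
          apply Finset.prod_le_prod
          · intro p _; positivity
          · intro p _
            have h6 : 0 ≤ 1 / (p : ℝ) := by positivity
            have := one_add_mul_le_pow (a := 1 / (p : ℝ)) (by linarith) 5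
            calc 1 + 5 / (p : ℝ) = 1 + ((5 : ℕ) : ℝ) * (1 / (p : ℝ)) := by push_cast; ring
              _ ≤ _ := this
      _ = ((y : ℝ) + 1) ^ 5 := by
          rw [prod_pow]
          congr 1
          clear h1 h2 hcount h3 h4 hPmem hy
          induction y with
          | zero => simp
          | succ y ih =>
            rw [prod_Icc_succ_top (by omega), ih]
            push_cast
            field_simp
      _ ≤ L := by exact_mod_cast hy
  calc (L : ℝ) * ∏ p ∈ PP y, (1 + 5 / (p : ℝ) ^ 2) + ∏ p ∈ PP y, (1 + 5 / (p : ℝ)) ≤ L * Real.exp 5 + L := by gcongr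
    _ = _ := by ring

/-- the open interval between the squares -/
def II (N : ℕ) : Finset ℕ := Ioo (N ^ 2) ((N + 1) ^ 2)

/-- the number of the representations of `s` by two primes between the squares -/
def rr (N s : ℕ) : ℕ := ((II N ×ˢ II N).filter (fun x => x.1.Prime ∧ x.2.Prime ∧ x.1 + x.2 = s)).card

open Classical in
/-- the excluded classes -/
lemma nu_sum (a s p : ℕ) (hp : p.Prime) :
    Pool.Agent.Y959.Sv.nu (fun p n => p ∣ n + a ∨ (n + a) % p = s % p) p = nuT {0, s} p := by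
  unfold Pool.Agent.Y959.Sv.nu nuT
  have hinj : Set.InjOn (fun c => (c + (p - a % p)) % p) ((({0, s} : Finset ℕ).image (· % p) : Finset ℕ) : Set ℕ) := by
    intro c hc c' hc' h
    rw [mem_coe, mem_image] at hc hc'
    obtain ⟨x, _, rfl⟩ := hc
    obtain ⟨x', _, rfl⟩ := hc'
    have h1 : x % p + (p - a % p) ≡ x' % p + (p - a % p) [MOD p] := h
    have h2 := Nat.ModEq.add_right_cancel' _ h1
    have h3 : x % p % p = x' % p % p := h2
    rwa [Nat.mod_mod, Nat.mod_mod] at h3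
  rw [← card_image_of_injOn hinj]
  congr 1
  ext n
  simp only [mem_filter, mem_range, mem_image]
  have hap : a % p < p := Nat.mod_lt _ hp.pos
  have key : ∀ c : ℕ, c < p → ((n + a) % p = c ∧ n < p ↔ (c + (p - a % p)) % p = n) := by
    intro c hc
    constructor
    · rintro ⟨h1, h2⟩
      have h3 : c + (p - a % p) ≡ n [MOD p] := by
        have h4 : c ≡ n + a [MOD p] := by
          show c % p = (n + a) % p
          rw [h1, Nat.mod_eq_of_lt hc]
        have h5 : (p - a % p) + a ≡ 0 [MOD p] := by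
          have h6 : (p - a % p) + a ≡ (p - a % p) + a % p [MOD p] := (Nat.mod_modEq a p).symm.add_left _
          rw [Nat.sub_add_cancel hap.le] at h6
          exact h6.trans (Nat.modEq_zero_iff_dvd.2 dvd_rfl)
        have h7 : c + (p - a % p) ≡ n + a + (p - a % p) [MOD p] := h4.add_right _
        have h8 : n + a + (p - a % p) = n + ((p - a % p) + a) := by ring
        rw [h8] at h7
        exact h7.trans (h5.add_left n)
      have h9 : (c + (p - a % p)) % p = n % p := h3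
      rw [h9, Nat.mod_eq_of_lt h2]
    · intro h
      have hn : n < p := by rw [← h]; exact Nat.mod_lt _ hp.pos
      refine ⟨?_, hn⟩
      have h4 : n + a ≡ c [MOD p] := by
        rw [← h]
        have h5 : (c + (p - a % p)) % p + a ≡ c + (p - a % p) + a % p [MOD p] :=
          Nat.ModEq.add (Nat.mod_modEq _ _) (Nat.mod_modEq _ _).symm
        have h6 : c + (p - a % p) + a % p = c + p := by omega
        rw [h6] at h5
        refine h5.trans ?_
        show (c + p) % p = c % p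
        rw [Nat.add_mod_right]
      have h9 : (n + a) % p = c % p := h4
      rw [h9, Nat.mod_eq_of_lt hc]
  constructor
  · rintro ⟨h1, h2⟩
    rcases h2 with h2 | h2
    · refine ⟨0, ?_, (key 0 hp.pos).1 ⟨Nat.mod_eq_zero_of_dvd h2, h1⟩⟩
      exact ⟨0, by simp, Nat.zero_mod p⟩
    · refine ⟨s % p, ?_, (key (s % p) (Nat.mod_lt _ hp.pos)).1 ⟨h2, h1⟩⟩
      exact ⟨s, by simp, rfl⟩
  · rintro ⟨c, hc, h⟩
    obtain ⟨x, hx, rfl⟩ := hc
    have h1 := (key (x % p) (Nat.mod_lt _ hp.pos)).2 h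
    refine ⟨h1.2, ?_⟩
    rw [mem_insert, mem_singleton] at hx
    rcases hx with rfl | rfl
    · refine Or.inl (Nat.dvd_of_mod_eq_zero ?_)
      rw [h1.1, Nat.zero_mod]
    · exact Or.inr h1.1

open Classical in
/-- the upper bound for the number of representations -/
theorem up_rep : ∃ C : ℝ, 0 < C ∧ ∃ X₀ : ℕ, ∀ N : ℕ, X₀ ≤ N → ∀ s : ℕ, 1 ≤ s → 2 ∣ s →
    (rr N s : ℝ) ≤ C * (CT {0, s} * (N / Real.log N ^ 2)) := by
  obtain ⟨C, hC, X₁, h⟩ := UPG.up_gen 2 1 one_pos
  refine ⟨C * 2, by positivity, max X₁ 4, fun N hN s hs hs2 => ?_⟩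
  have hN1 : X₁ ≤ 2 * N := by
    have := (le_max_left _ _).trans hN
    omega
  have hN4 : 4 ≤ N := (le_max_right _ _).trans hN
  have hNR : (4 : ℝ) ≤ N := by exact_mod_cast hN4
  have hc : ({0, s} : Finset ℕ).card = 2 := by
    rw [card_insert_of_notMem, card_singleton]
    rw [mem_singleton]
    omega
  have hTc : ((({0, s} : Finset ℕ)).map sh).card = 2 := by rw [card_map, hc]
  have hnu2 : ∀ p : ℕ, nuT {0, s} p ≤ 2 := by
    intro p
    unfold nuT
    exact card_image_le.trans hc.le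
  have h1 := h (2 * N) hN1 (({0, s} : Finset ℕ).map sh) (prim_sh _) hTc (by
      intro p hp
      rw [w_sh _ hp.pos]
      rcases Nat.lt_or_ge 2 p with h3 | h3
      · exact lt_of_le_of_lt (hnu2 p) h3
      · have h4 : p = 2 := le_antisymm h3 hp.two_le
        subst h4
        rw [nu_pair, if_pos hs2]
        norm_num)
    (fun p n => p ∣ n + N ^ 2 ∨ (n + N ^ 2) % p = s % p) (by
      intro p n
      have e1 : p ∣ n + N ^ 2 ↔ p ∣ n % p + N ^ 2 := by
        rw [Nat.dvd_iff_mod_eq_zero, Nat.dvd_iff_mod_eq_zero, Nat.mod_add_mod]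
      have e2 : (n % p + N ^ 2) % p = (n + N ^ 2) % p := Nat.mod_add_mod _ _ _
      show (p ∣ n + N ^ 2 ∨ (n + N ^ 2) % p = s % p) ↔ (p ∣ n % p + N ^ 2 ∨ (n % p + N ^ 2) % p = s % p)
      rw [← e1, e2]) (by
      intro p hp
      rw [nu_sum _ _ _ hp, w_sh _ hp.pos]
      exact ⟨le_rfl, hnu2 p⟩)
  rw [SL_sh] at h1
  have hCT := CT_nonneg ({0, s} : Finset ℕ)
  have hlog : 0 < Real.log (N : ℝ) := Real.log_pos (by linarith)
  have h2 : (rr N s : ℝ) ≤ (((Icc 1 (2 * N)).filter (fun n => ∀ p : ℕ, p.Prime → (p : ℝ) ≤ ((2 * N : ℕ) : ℝ) ^ (1 : ℝ) →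
      ¬ (p ∣ n + N ^ 2 ∨ (n + N ^ 2) % p = s % p))).card : ℝ) := by
    unfold rr
    rw [Nat.cast_le]
    apply card_le_card_of_injOn (fun x => x.1 - N ^ 2)
    · intro x hx
      rw [mem_coe, mem_filter, mem_product] at hx
      obtain ⟨⟨x1, x2⟩, x3, x4, x5⟩ := hx
      unfold II at x1 x2
      rw [mem_Ioo] at x1 x2
      have e : (N + 1) ^ 2 = N ^ 2 + 2 * N + 1 := by ring
      rw [e] at x1 x2
      rw [mem_coe, mem_filter, mem_Icc]
      refine ⟨⟨by simp only; omega, by simp only; omega⟩, fun p hp hpN hbad => ?_⟩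
      have hpN' : p ≤ 2 * N := by
        rw [Real.rpow_one] at hpN
        exact_mod_cast hpN
      have hN2 : 2 * N ≤ N ^ 2 := by nlinarith
      have e3 : x.1 - N ^ 2 + N ^ 2 = x.1 := Nat.sub_add_cancel x1.1.le
      have hbad' : p ∣ x.1 ∨ x.1 % p = s % p := by
        rcases hbad with hb | hb
        · left
          have hb' : p ∣ x.1 - N ^ 2 + N ^ 2 := hb
          rwa [e3] at hb'
        · right
          have hb' : (x.1 - N ^ 2 + N ^ 2) % p = s % p := hb
          rwa [e3] at hb'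
      rcases hbad' with hb | hb
      · have := (Nat.prime_dvd_prime_iff_eq hp x3).1 hb
        omega
      · have h5 : p ∣ s - x.1 := (Nat.modEq_iff_dvd' (by omega)).1 (show x.1 ≡ s [MOD p] from hb)
        have h6 : s - x.1 = x.2 := by omega
        rw [h6] at h5
        have := (Nat.prime_dvd_prime_iff_eq hp x4).1 h5
        omega
    · intro x hx z hz hxz
      rw [mem_coe, mem_filter, mem_product] at hx hz
      obtain ⟨⟨x1, x2⟩, x3, x4, x5⟩ := hx
      obtain ⟨⟨z1, z2⟩, z3, z4, z5⟩ := hz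
      unfold II at x1 z1
      rw [mem_Ioo] at x1 z1
      have h3 : x.1 - N ^ 2 = z.1 - N ^ 2 := hxz
      have h4 : x.1 = z.1 := by omega
      exact Prod.ext h4 (by omega)
  refine h2.trans (le_trans (le_of_eq ?_) (h1.trans ?_))
  · congr!
  · have hlog2 : Real.log (N : ℝ) ≤ Real.log ((2 * N : ℕ) : ℝ) := by
      apply Real.log_le_log (by linarith)
      push_cast
      linarith
    calc C * (CT {0, s} * (((2 * N : ℕ) : ℝ) / Real.log ((2 * N : ℕ) : ℝ) ^ 2))
        ≤ C * (CT {0, s} * (((2 * N : ℕ) : ℝ) / Real.log (N : ℝ) ^ 2)) := by gcongr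
      _ = C * 2 * (CT {0, s} * (N / Real.log N ^ 2)) := by
          push_cast
          ring

/-- the lower bound for the number of representations on average -/
theorem low_rep (c δ : ℝ) (hc : 0 < c) (N L W : ℕ) (hN : 4 ≤ N) (h1 : Rich c δ N) (h2 : Rich c δ (N + 1))
    (hL2 : 2 ≤ L) (hL : ((N + 1 : ℕ) : ℝ) ^ (1 - δ) ≤ L) (hδ : δ ≤ 1) (hLN : 8 * L ≤ N) (hW2 : 2 ∣ W)
    (hW : W ≤ 2 * N ^ 2 + 2 * N + 2) (hWL : 2 * N ^ 2 + 2 * N + 2 ≤ W + 3 * L) :
    c ^ 2 / 8 * (N / Real.log N ^ 2) * L ≤ ∑ j ∈ Icc 1 L, (rr N (W + 2 * j) : ℝ) := by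
  obtain ⟨m, hm⟩ : ∃ m, m = N / L - 3 := ⟨_, rfl⟩
  have hNR : (4 : ℝ) ≤ N := by exact_mod_cast hN
  have hL0 : (0 : ℝ) < L := by exact_mod_cast (by omega : 0 < L)
  have h8 : 8 ≤ N / L := by
    rw [Nat.le_div_iff_mul_le (by omega)]
    exact hLN
  have hmL : (m + 3) * L ≤ N := by
    have : m + 3 = N / L := by omega
    rw [this]
    exact Nat.div_mul_le_self N L
  have hiL : ∀ i ∈ Icc 2 m, i * L + 3 * L ≤ N ∧ 2 * L ≤ i * L := by
    intro i hi
    rw [mem_Icc] at hi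
    constructor
    · calc i * L + 3 * L = (i + 3) * L := by ring
        _ ≤ (m + 3) * L := Nat.mul_le_mul_right _ (by omega)
        _ ≤ N := hmL
    · exact Nat.mul_le_mul_right _ hi.1
  have hlog : 0 < Real.log (N : ℝ) := Real.log_pos (by linarith)
  have hlog1 : Real.log ((N + 1 : ℕ) : ℝ) ≤ 2 * Real.log N := by
    have : ((N + 1 : ℕ) : ℝ) ≤ (N : ℝ) ^ 2 := by push_cast; nlinarith
    calc Real.log ((N + 1 : ℕ) : ℝ) ≤ Real.log ((N : ℝ) ^ 2) := Real.log_le_log (by positivity) this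
      _ = 2 * Real.log N := by rw [Real.log_pow]; push_cast; ring
  have hlog10 : 0 < Real.log ((N + 1 : ℕ) : ℝ) := Real.log_pos (by push_cast; linarith)
  have hLN' : (N : ℝ) ^ (1 - δ) ≤ L := by
    refine le_trans ?_ hL
    apply Real.rpow_le_rpow (by positivity) _ (by linarith)
    push_cast
    linarith
  obtain ⟨A, hA⟩ : ∃ A : ℕ → Finset ℕ, A = fun i => primesIn (N ^ 2 + i * L) L := ⟨_, rfl⟩
  obtain ⟨B, hB⟩ : ∃ B : ℕ → Finset ℕ, B = fun i => primesIn (W - (N ^ 2 + i * L)) L := ⟨_, rfl⟩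
  have hAi : ∀ i ∈ Icc 2 m, c * L / Real.log N ≤ (A i).card := by
    intro i hi
    obtain ⟨e1, e2⟩ := hiL i hi
    rw [hA]
    exact h1 (N ^ 2 + i * L) L (by omega) (by omega) hLN'
  have hBi : ∀ i ∈ Icc 2 m, c * L / (2 * Real.log N) ≤ (B i).card := by
    intro i hi
    obtain ⟨e1, e2⟩ := hiL i hi
    have e : (N + 1) ^ 2 = N ^ 2 + 2 * N + 1 := by ring
    have h3 := h2 (W - (N ^ 2 + i * L)) L (by rw [e]; omega) (by rw [e]; omega) hL
    rw [hB]
    refine le_trans ?_ h3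
    gcongr
  -- the pairs
  have hpairs : ∑ i ∈ Icc 2 m, (A i).card * (B i).card ≤ ∑ j ∈ Icc 1 L, rr N (W + 2 * j) := by
    obtain ⟨S, hS⟩ : ∃ S : ℕ → Finset (ℕ × ℕ), S = fun s =>
      (II N ×ˢ II N).filter (fun x => x.1.Prime ∧ x.2.Prime ∧ x.1 + x.2 = s) := ⟨_, rfl⟩
    have h3 : ∑ i ∈ Icc 2 m, (A i).card * (B i).card = ((Icc 2 m).sigma (fun i => A i ×ˢ B i)).card := by
      rw [card_sigma]
      exact sum_congr rfl fun i _ => (card_product _ _).symm
    have h4 : ∑ j ∈ Icc 1 L, rr N (W + 2 * j) = ((Icc 1 L).sigma (fun j => S (W + 2 * j))).card := by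
      rw [card_sigma, hS]
      rfl
    rw [h3, h4]
    apply card_le_card_of_injOn (fun x => ⟨(x.2.1 + x.2.2 - W) / 2, x.2⟩)
    · rintro ⟨i, p, q⟩ hx
      rw [mem_coe, mem_sigma, mem_product] at hx
      obtain ⟨hi, hp, hq⟩ := hx
      simp only at hi hp hq
      obtain ⟨e1, e2⟩ := hiL i hi
      rw [hA] at hp
      rw [hB] at hq
      simp only [primesIn] at hp hq
      rw [mem_filter, mem_Ioc] at hp hq
      have e : (N + 1) ^ 2 = N ^ 2 + 2 * N + 1 := by ring
      have hN2 : 16 ≤ N ^ 2 := by nlinarith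
      have hp2 : p % 2 = 1 := by
        rcases hp.2.eq_two_or_odd with h | h
        · omega
        · exact h
      have hq2 : q % 2 = 1 := by
        rcases hq.2.eq_two_or_odd with h | h
        · omega
        · exact h
      have hWe : W % 2 = 0 := Nat.mod_eq_zero_of_dvd hW2
      rw [mem_coe, mem_sigma]
      simp only
      have h5 : W + 2 * ((p + q - W) / 2) = p + q := by omega
      refine ⟨mem_Icc.2 ⟨by omega, by omega⟩, ?_⟩
      rw [hS, h5]
      simp only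
      rw [mem_filter, mem_product]
      unfold II
      rw [mem_Ioo, mem_Ioo, e]
      refine ⟨⟨⟨?_, ?_⟩, ?_, ?_⟩, hp.2, hq.2, rfl⟩ <;> simp only <;> omega
    · rintro ⟨i, p, q⟩ hx ⟨i', p', q'⟩ hx' heq
      rw [mem_coe, mem_sigma, mem_product] at hx hx'
      obtain ⟨hi, hp, hq⟩ := hx
      obtain ⟨hi', hp', hq'⟩ := hx'
      simp only at hi hp hq hi' hp' hq'
      have h5 := Sigma.mk.inj_iff.1 heq
      have h6 : ((p, q) : ℕ × ℕ) = (p', q') := eq_of_heq h5.2
      have h7 := Prod.mk.inj h6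
      obtain ⟨h8, h9⟩ := h7
      subst h8
      subst h9
      rw [hA] at hp hp'
      simp only [primesIn] at hp hp'
      rw [mem_filter, mem_Ioc] at hp hp'
      have h10 : i = i' := by
        rcases lt_trichotomy i i' with h | h | h
        · have h11 : (i + 1) * L ≤ i' * L := Nat.mul_le_mul_right _ h
          rw [add_mul, one_mul] at h11
          omega
        · exact h
        · have h11 : (i' + 1) * L ≤ i * L := Nat.mul_le_mul_right _ h
          rw [add_mul, one_mul] at h11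
          omega
      subst h10
      rfl
  have hsum : ((Icc 2 m).card : ℝ) * ((c * L / Real.log N) * (c * L / (2 * Real.log N))) ≤
      ∑ j ∈ Icc 1 L, (rr N (W + 2 * j) : ℝ) := by
    have h3 : ((∑ i ∈ Icc 2 m, (A i).card * (B i).card : ℕ) : ℝ) ≤ ((∑ j ∈ Icc 1 L, rr N (W + 2 * j) : ℕ) : ℝ) := by
      exact_mod_cast hpairs
    push_cast at h3
    refine le_trans ?_ h3
    rw [← nsmul_eq_mul, ← sum_const]
    apply sum_le_sum
    intro i hi
    exact mul_le_mul (hAi i hi) (hBi i hi) (by positivity) (Nat.cast_nonneg _)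
  refine le_trans ?_ hsum
  have hcard : (N : ℝ) / (4 * L) ≤ ((Icc 2 m).card : ℝ) := by
    rw [Nat.card_Icc]
    have h3 : (N : ℝ) / L < ((N / L : ℕ) : ℝ) + 1 := by
      rw [div_lt_iff₀ hL0]
      exact_mod_cast (by
        have := Nat.lt_div_mul_add (a := N) (b := L) (by omega)
        calc N < N / L * L + L := this
          _ = (N / L + 1) * L := by ring)
    have h4 : ((m + 1 - 2 : ℕ) : ℝ) = ((N / L : ℕ) : ℝ) - 4 := by
      have h5 : m + 1 - 2 = N / L - 4 := by omega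
      rw [h5, Nat.cast_sub (by omega)]
      norm_num
    rw [h4]
    have h5 : (8 : ℝ) ≤ (N : ℝ) / L := by
      rw [le_div_iff₀ hL0]
      exact_mod_cast hLN
    have h6 : (N : ℝ) / (4 * L) = (N : ℝ) / L / 4 := by field_simp
    rw [h6]
    linarith
  calc c ^ 2 / 8 * (N / Real.log N ^ 2) * L = N / (4 * L) * ((c * L / Real.log N) * (c * L / (2 * Real.log N))) := by
        field_simp
        norm_num
    _ ≤ _ := by gcongr

open Classical in
/-- positive density of the offsets -/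
theorem dens (c δ : ℝ) (hc : 0 < c) (hδ : δ ≤ 0.01) : ∃ κ ρ : ℝ, 0 < κ ∧ 0 < ρ ∧ ∃ N₀ : ℕ,
    ∀ N : ℕ, N₀ ≤ N → Rich c δ N → Rich c δ (N + 1) → ∀ L W : ℕ, ((N + 1 : ℕ) : ℝ) ^ (1 - δ) ≤ L → 8 * L ≤ N →
      2 ∣ W → W ≤ 2 * N ^ 2 + 2 * N + 2 → 2 * N ^ 2 + 2 * N + 2 ≤ W + 3 * L →
      ρ * L ≤ (((Icc 1 L).filter (fun j => κ * (N / Real.log N ^ 2) ≤ (rr N (W + 2 * j) : ℝ))).card : ℝ) := by
  obtain ⟨C, hC, X₁, hup⟩ := up_rep
  obtain ⟨κ, hκ⟩ : ∃ κ : ℝ, κ = c ^ 2 / 16 := ⟨_, rfl⟩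
  have hκ0 : 0 < κ := by rw [hκ]; positivity
  obtain ⟨C₃, hC₃⟩ : ∃ C₃ : ℝ, C₃ = 9 * (4 * (Real.exp 5 + 1)) := ⟨_, rfl⟩
  have hC₃0 : 0 < C₃ := by rw [hC₃]; positivity
  -- powers of the logarithm
  have tn : Tendsto (fun N : ℕ => ((N + 1 : ℕ) : ℝ)) atTop atTop :=
    tendsto_natCast_atTop_atTop.comp (tendsto_add_atTop_nat 1)
  have hev : ∀ᶠ N : ℕ in atTop, (6 * Real.log ((N + 1 : ℕ) : ℝ)) ^ 5 ≤ ((N + 1 : ℕ) : ℝ) ^ (1 / 2 : ℝ) := by
    have h1 : (fun x : ℝ => Real.log x ^ (5 : ℝ)) =o[atTop] (fun x : ℝ => x ^ (1 / 2 : ℝ)) :=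
      isLittleO_log_rpow_rpow_atTop 5 (show (0 : ℝ) < 1 / 2 by norm_num)
    have h2 := h1.bound (show (0 : ℝ) < 1 / 6 ^ 5 by positivity)
    filter_upwards [tn.eventually h2] with N hN
    have hN0 : (0 : ℝ) ≤ ((N + 1 : ℕ) : ℝ) := Nat.cast_nonneg _
    have hlog : 0 ≤ Real.log ((N + 1 : ℕ) : ℝ) := Real.log_natCast_nonneg _
    rw [Real.norm_of_nonneg (by positivity), Real.norm_of_nonneg (by positivity),
      show (5 : ℝ) = ((5 : ℕ) : ℝ) by norm_num, Real.rpow_natCast] at hN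
    rw [mul_pow]
    calc (6 : ℝ) ^ 5 * Real.log ((N + 1 : ℕ) : ℝ) ^ 5 ≤ 6 ^ 5 * (1 / 6 ^ 5 * ((N + 1 : ℕ) : ℝ) ^ (1 / 2 : ℝ)) := by
          gcongr
      _ = _ := by ring
  have hev2 : ∀ᶠ N : ℕ in atTop, 2 ≤ Real.log ((N + 1 : ℕ) : ℝ) :=
    (Real.tendsto_log_atTop.comp tn).eventually_ge_atTop 2
  obtain ⟨X₂, hX₂⟩ := eventually_atTop.1 (hev.and hev2)
  refine ⟨κ, κ ^ 2 / (C ^ 2 * C₃), hκ0, by positivity, max X₁ (max X₂ 4),
    fun N hN h1 h2 L W hL hLN hW2 hW hWL => ?_⟩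
  have hX₁ : X₁ ≤ N := (le_max_left _ _).trans hN
  obtain ⟨hb1, hb2⟩ := hX₂ N ((le_max_left _ _).trans ((le_max_right _ _).trans hN))
  have hN4 : 4 ≤ N := (le_max_right _ _).trans ((le_max_right _ _).trans hN)
  have hNR : (4 : ℝ) ≤ N := by exact_mod_cast hN4
  have hN1R : (1 : ℝ) ≤ ((N + 1 : ℕ) : ℝ) := by push_cast; linarith
  have hLpos : (1 : ℝ) ≤ L := le_trans (Real.one_le_rpow hN1R (by linarith)) hL
  have hhalf : ((N + 1 : ℕ) : ℝ) ^ (1 / 2 : ℝ) ≤ L := by
    refine le_trans ?_ hL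
    exact Real.rpow_le_rpow_of_exponent_le hN1R (by linarith)
  obtain ⟨y, hy⟩ : ∃ y, y = Nat.log 2 ((N + 1) ^ 3) := ⟨_, rfl⟩
  have hy1 : 1 ≤ y := by
    rw [hy]
    apply Nat.le_log_of_pow_le (by norm_num)
    calc 2 ^ 1 ≤ N + 1 := by omega
      _ ≤ (N + 1) ^ 3 := Nat.le_self_pow (by norm_num) _
  have hy5 : (y + 1) ^ 5 ≤ L := by
    have h3 : (y : ℝ) ≤ 5 * Real.log ((N + 1 : ℕ) : ℝ) := by
      have h4 : (y : ℝ) ≤ Real.logb 2 (((N + 1) ^ 3 : ℕ) : ℝ) := by
        rw [hy]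
        have := Real.natLog_le_logb ((N + 1) ^ 3) 2
        exact_mod_cast this
      have h5 : Real.logb 2 (((N + 1) ^ 3 : ℕ) : ℝ) = 3 * Real.log ((N + 1 : ℕ) : ℝ) / Real.log 2 := by
        rw [Real.logb, Nat.cast_pow, Real.log_pow]
        push_cast
        rfl
      rw [h5] at h4
      refine h4.trans ?_
      have h6 : 0.6 < Real.log 2 := by
        have := Real.log_two_gt_d9
        linarith
      rw [div_le_iff₀ (by linarith)]
      nlinarith
    have h4 : ((y : ℝ) + 1) ^ 5 ≤ L := by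
      calc ((y : ℝ) + 1) ^ 5 ≤ (6 * Real.log ((N + 1 : ℕ) : ℝ)) ^ 5 := by
            apply pow_le_pow_left₀ (by positivity)
            linarith
        _ ≤ _ := hb1
        _ ≤ L := hhalf
    exact_mod_cast h4
  have hL2 : 2 ≤ L := by
    have h3 : (2 : ℕ) ^ 5 ≤ (y + 1) ^ 5 := Nat.pow_le_pow_left (by omega) 5
    omega
  have hL1 : 1 ≤ L := by omega
  have hlog : 0 < Real.log (N : ℝ) := Real.log_pos (by linarith)
  have hV0 : 0 < (N : ℝ) / Real.log N ^ 2 := by positivity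
  have hlow := low_rep c δ hc N L W hN4 h1 h2 hL2 hL (by linarith) hLN hW2 hW hWL
  have hkey := RTG.pz (Icc 1 L) (fun j => (rr N (W + 2 * j) : ℝ)) (fun j => 3 * fy y (W + 2 * j)) L
    (N / Real.log N ^ 2) C C₃ κ (by linarith) hV0 hC hC₃0 hκ0 (by
      intro j hj
      rw [mem_Icc] at hj
      have h3 := hup N hX₁ (W + 2 * j) (by omega) (by omega)
      have h4 := CT_pair_le (W + 2 * j) (by omega)
      have h5 := ff_le (W + 2 * j) y (by omega) hy1 (by
        rw [hy]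
        apply Nat.log_mono_right
        have h6 : (N + 1) ^ 3 = N ^ 3 + 3 * N ^ 2 + 3 * N + 1 := by ring
        rw [h6]
        have h7 : 16 ≤ N ^ 2 := by nlinarith
        have h8 : 1 ≤ N ^ 3 := Nat.one_le_pow _ _ (by omega)
        omega)
      calc (rr N (W + 2 * j) : ℝ) ≤ C * (CT {0, W + 2 * j} * (N / Real.log N ^ 2)) := h3
        _ ≤ C * ((3 * fy y (W + 2 * j)) * (N / Real.log N ^ 2)) := by
            gcongr
            exact h4.trans h5
        _ = _ := by ring) (by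
      have h3 := short_mom y L W hL1 hy5
      calc ∑ j ∈ Icc 1 L, (3 * fy y (W + 2 * j)) ^ 2 = 9 * ∑ j ∈ Icc 1 L, fy y (W + 2 * j) ^ 2 := by
            rw [mul_sum]
            apply sum_congr rfl
            intro j _
            ring
        _ ≤ 9 * (4 * (Real.exp 5 + 1) * L) := by gcongr
        _ = C₃ * L := by rw [hC₃]; ring) (by
      rw [Nat.card_Icc, Nat.add_sub_cancel]) (by
      refine le_trans (le_of_eq ?_) hlow
      rw [hκ]
      ring)
  exact hkey

/-- many representations of `2 N² + 2 N + 2 + 2 j` -/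
def plus (κ : ℝ) (N j : ℕ) : Prop := κ * (N / Real.log N ^ 2) ≤ (rr N (2 * N ^ 2 + 2 * N + 2 + 2 * j) : ℝ)

/-- many representations of `2 N² + 2 N + 2 - 2 j` -/
def minus (κ : ℝ) (N j : ℕ) : Prop := κ * (N / Real.log N ^ 2) ≤ (rr N (2 * N ^ 2 + 2 * N + 2 - 2 * j) : ℝ)

open Classical in
/-- **Offsets on both sides** -/
theorem final (c δ : ℝ) (hc : 0 < c) (hδ0 : 0 < δ) (hδ : δ ≤ 0.01) : ∃ κ ρ : ℝ, ∃ h M N₀ : ℕ, 0 < κ ∧ 0 < ρ ∧ 1 ≤ M ∧
    ∀ N : ℕ, N₀ ≤ N → Rich c δ N → Rich c δ (N + 1) →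
      (∀ L : ℕ, (N : ℝ) ^ (1 - δ / 2) ≤ L → 8 * L ≤ N →
        ρ * L ≤ (((Icc 1 L).filter (plus κ N)).card : ℝ) ∧ ρ * L ≤ (((Icc 1 L).filter (minus κ N)).card : ℝ)) ∧
      (∀ t : ℕ, M ∣ t → (N : ℝ) ^ (1 - δ / 2) ≤ t → 8 * t ≤ N →
        (∃ l : List ℕ, l.length ≤ h ∧ l.sum = t ∧ ∀ j ∈ l, 1 ≤ j ∧ plus κ N j) ∧
        (∃ l : List ℕ, l.length ≤ h ∧ l.sum = t ∧ ∀ j ∈ l, 1 ≤ j ∧ minus κ N j)) ∧
      ∃ t₀ : ℕ, M ∣ t₀ ∧ (N : ℝ) ^ (1 - δ / 2) ≤ t₀ ∧ 16 * t₀ ≤ N := by
  obtain ⟨κ, ρ, hκ, hρ, N₁, hdens⟩ := dens c δ hc hδ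
  obtain ⟨D, hD⟩ : ∃ D : ℕ, 1 / ((D : ℝ) + 1) < ρ := exists_nat_one_div_lt hρ
  obtain ⟨D', hD'⟩ : ∃ D', D' = max D 1 := ⟨_, rfl⟩
  have hD1 : 1 ≤ D' := by rw [hD']; exact le_max_right _ _
  have hDρ : 1 / ((D' : ℝ) + 1) < ρ := by
    refine lt_of_le_of_lt ?_ hD
    apply one_div_le_one_div_of_le (by positivity)
    have : (D : ℝ) ≤ D' := by rw [hD']; exact_mod_cast le_max_left _ _
    linarith
  obtain ⟨h, C, N₂, hBTH⟩ := BTH.main D' hD1 ρ hDρ
  obtain ⟨M, hM⟩ : ∃ M, M = D'.factorial := ⟨_, rfl⟩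
  have hM1 : 1 ≤ M := by rw [hM]; exact Nat.factorial_pos _
  rw [← hM] at hBTH
  have tn : Tendsto (fun N : ℕ => (N : ℝ)) atTop atTop := tendsto_natCast_atTop_atTop
  have t1 : Tendsto (fun N : ℕ => (N : ℝ) ^ (δ / 2)) atTop atTop := (tendsto_rpow_atTop (by positivity)).comp tn
  have t2 : Tendsto (fun N : ℕ => (N : ℝ) ^ (1 - δ)) atTop atTop := (tendsto_rpow_atTop (by linarith)).comp tn
  obtain ⟨X₂, hX₂⟩ := eventually_atTop.1 ((t1.eventually_ge_atTop (max (4 * (C + 1)) (64 * M))).and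
    ((t2.eventually_ge_atTop (max (N₂ : ℝ) 2))))
  refine ⟨κ, ρ, h, M, max (max N₁ X₂) 64, hκ, hρ, hM1, fun N hN h1 h2 => ?_⟩
  have hN₁ : N₁ ≤ N := (le_max_left _ _).trans ((le_max_left _ _).trans hN)
  obtain ⟨hb1, hb2⟩ := hX₂ N ((le_max_right _ _).trans ((le_max_left _ _).trans hN))
  have hN64 : 64 ≤ N := (le_max_right _ _).trans hN
  have hNR : (64 : ℝ) ≤ N := by exact_mod_cast hN64
  have hN0 : (0 : ℝ) < N := by linarith
  obtain ⟨u, hu⟩ : ∃ u : ℝ, u = (N : ℝ) ^ (δ / 2) := ⟨_, rfl⟩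
  obtain ⟨v, hv⟩ : ∃ v : ℝ, v = (N : ℝ) ^ (1 - δ) := ⟨_, rfl⟩
  rw [← hu] at hb1
  rw [← hv] at hb2
  have hu1 : 4 * ((C : ℝ) + 1) ≤ u := (le_max_left _ _).trans hb1
  have hu2 : 64 * (M : ℝ) ≤ u := (le_max_right _ _).trans hb1
  have hv1 : (N₂ : ℝ) ≤ v := (le_max_left _ _).trans hb2
  have hv2 : 2 ≤ v := (le_max_right _ _).trans hb2
  have huv : (N : ℝ) ^ (1 - δ / 2) = u * v := by
    rw [hu, hv, ← Real.rpow_add hN0]
    congr 1
    ring
  have huuv : (N : ℝ) = u * u * v := by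
    rw [hu, hv, ← Real.rpow_add hN0, ← Real.rpow_add hN0]
    have e : δ / 2 + δ / 2 + (1 - δ) = 1 := by ring
    rw [e, Real.rpow_one]
  have hN1v : ((N + 1 : ℕ) : ℝ) ^ (1 - δ) ≤ 2 * v := by
    calc ((N + 1 : ℕ) : ℝ) ^ (1 - δ) ≤ (2 * (N : ℝ)) ^ (1 - δ) := by
          apply Real.rpow_le_rpow (by positivity) _ (by linarith)
          push_cast
          linarith
      _ = 2 ^ (1 - δ) * v := by rw [Real.mul_rpow (by norm_num) hN0.le, hv]
      _ ≤ 2 * v := by
          apply mul_le_mul_of_nonneg_right _ (by linarith)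
          calc (2 : ℝ) ^ (1 - δ) ≤ 2 ^ (1 : ℝ) := Real.rpow_le_rpow_of_exponent_le (by norm_num) (by linarith)
            _ = 2 := Real.rpow_one 2
  obtain ⟨B, hB⟩ : ∃ B, B = ⌈2 * v⌉₊ := ⟨_, rfl⟩
  have hB1 : 2 * v ≤ B := by rw [hB]; exact Nat.le_ceil _
  have hB2 : (B : ℝ) < 2 * v + 1 := by rw [hB]; exact Nat.ceil_lt_add_one (by linarith)
  have hBN₂ : N₂ ≤ B := by
    have : (N₂ : ℝ) ≤ B := by linarith
    exact_mod_cast this
  have hB4 : 2 ≤ B := by
    have : (2 : ℝ) ≤ B := by linarith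
    exact_mod_cast this
  -- the two sides
  have hplus : ∀ L : ℕ, B ≤ L → 8 * L ≤ N → ρ * L ≤ (((Icc 1 L).filter (plus κ N)).card : ℝ) := by
    intro L hL hLN
    have hLB : (B : ℝ) ≤ L := by exact_mod_cast hL
    have h3 := hdens N hN₁ h1 h2 L (2 * N ^ 2 + 2 * N + 2) (by linarith) hLN ⟨N ^ 2 + N + 1, by ring⟩ le_rfl (by omega)
    exact h3
  have hminus : ∀ L : ℕ, B ≤ L → 8 * L ≤ N → ρ * L ≤ (((Icc 1 L).filter (minus κ N)).card : ℝ) := by
    intro L hL hLN
    have hLB : (B : ℝ) ≤ L := by exact_mod_cast hL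
    have hN2 : N ≤ N ^ 2 := by nlinarith
    have h3 := hdens N hN₁ h1 h2 L (2 * N ^ 2 + 2 * N + 2 - 2 * (L + 1)) (by linarith) hLN (by omega) (by omega)
      (by omega)
    refine h3.trans ?_
    rw [Nat.cast_le]
    apply card_le_card_of_injOn (fun j => L + 1 - j)
    · intro j hj
      rw [mem_coe, mem_filter, mem_Icc] at hj
      rw [mem_coe, mem_filter, mem_Icc]
      refine ⟨⟨by simp only; omega, by simp only; omega⟩, ?_⟩
      have e : 2 * N ^ 2 + 2 * N + 2 - 2 * (L + 1) + 2 * j = 2 * N ^ 2 + 2 * N + 2 - 2 * (L + 1 - j) := by omega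
      have h4 := hj.2
      rw [e] at h4
      exact h4
    · intro j hj j' hj' hjj
      rw [mem_coe, mem_filter, mem_Icc] at hj hj'
      have : L + 1 - j = L + 1 - j' := hjj
      omega
  have hBle : (B : ℝ) ≤ u * v := by
    have : 4 * v ≤ u * v := by
      apply mul_le_mul_of_nonneg_right _ (by linarith)
      have : (0 : ℝ) ≤ C := Nat.cast_nonneg _
      linarith
    linarith
  have hCB : ((C * B : ℕ) : ℝ) ≤ u * v := by
    push_cast
    have hC0 : (0 : ℝ) ≤ C := Nat.cast_nonneg _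
    calc (C : ℝ) * B ≤ C * (4 * v) := by
          apply mul_le_mul_of_nonneg_left _ hC0
          linarith
      _ ≤ u * v := by nlinarith
  refine ⟨fun L hL hLN => ?_, fun t hMt ht htN => ⟨?_, ?_⟩, ?_⟩
  · rw [huv] at hL
    have hBL : B ≤ L := by
      have : (B : ℝ) ≤ L := hBle.trans hL
      exact_mod_cast this
    exact ⟨hplus L hBL hLN, hminus L hBL hLN⟩
  · rw [huv] at ht
    have hCt : C * B ≤ t := by
      have : ((C * B : ℕ) : ℝ) ≤ t := hCB.trans ht
      exact_mod_cast this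
    obtain ⟨l, h3, h4, h5⟩ := hBTH (plus κ N) B (N / 8) hBN₂ (fun H hH1 hH2 => hplus H hH1 (by omega)) t hMt hCt
      (by omega)
    exact ⟨l, h3, h5, fun j hj => ⟨(h4 j hj).2, (h4 j hj).1⟩⟩
  · rw [huv] at ht
    have hCt : C * B ≤ t := by
      have : ((C * B : ℕ) : ℝ) ≤ t := hCB.trans ht
      exact_mod_cast this
    obtain ⟨l, h3, h4, h5⟩ := hBTH (minus κ N) B (N / 8) hBN₂ (fun H hH1 hH2 => hminus H hH1 (by omega)) t hMt hCt
      (by omega)
    exact ⟨l, h3, h5, fun j hj => ⟨(h4 j hj).2, (h4 j hj).1⟩⟩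
  · rw [huv]
    obtain ⟨w, hw⟩ : ∃ w, w = ⌈u * v⌉₊ := ⟨_, rfl⟩
    have hw1 : u * v ≤ w := by rw [hw]; exact Nat.le_ceil _
    have hM1R : (1 : ℝ) ≤ M := by exact_mod_cast hM1
    have hu0 : 64 ≤ u := by linarith
    have huv0 : 1 ≤ u * v := by nlinarith
    have hw2 : (w : ℝ) < u * v + 1 := by rw [hw]; exact Nat.ceil_lt_add_one (by linarith)
    refine ⟨M * w, dvd_mul_right _ _, ?_, ?_⟩
    · push_cast
      nlinarith
    · have h3 : ((16 * (M * w) : ℕ) : ℝ) ≤ N := by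
        push_cast
        rw [huuv]
        calc 16 * ((M : ℝ) * w) ≤ 16 * (M * (2 * (u * v))) := by
              have : (w : ℝ) ≤ 2 * (u * v) := by linarith
              gcongr
          _ = (32 * M) * (u * v) := by ring
          _ ≤ u * (u * v) := by
              apply mul_le_mul_of_nonneg_right _ (by linarith)
              linarith
          _ = u * u * v := by ring
      exact_mod_cast h3

end Pool.Agent.U455.SQS
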