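import Mathlib
import Pool.Agent.U455.SQS

/-!
# Sums of exactly `h` offsets on both sides
-/

set_option autoImplicit false
set_option maxHeartbeats 4000000

namespace Pool.Agent.U455.SQT

open Finset Filter Topology
open Pool.Agent.U766.OP (Rich)
open Pool.Agent.U455.SQS (plus minus dens rr)

open Classical in
/-- Sums of exactly `m` elements, for every `m ≥ h`, from the density on a range of scales -/
theorem exact (ρ : ℝ) (hρ : 0 < ρ) : ∃ h M C N₀ : ℕ, 1 ≤ h ∧ 1 ≤ M ∧ ∀ (A : ℕ → Prop) (B Y : ℕ), N₀ ≤ B → B ≤ Y →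
    (∀ L : ℕ, B ≤ L → L ≤ Y → ρ * L ≤ (((Icc 1 L).filter A).card : ℝ)) →
    ∃ j : ℕ, 1 ≤ j ∧ j ≤ B ∧ ∀ m : ℕ, h ≤ m → ∀ t : ℕ, M ∣ t → C * B ≤ t → t + B ≤ Y →
      ∃ l : List ℕ, l.length = m ∧ l.sum = m * j + t ∧ ∀ i ∈ l, 1 ≤ i ∧ i ≤ Y ∧ A i := by
  obtain ⟨ρ', hρ'⟩ : ∃ ρ' : ℝ, ρ' = ρ / 2 := ⟨_, rfl⟩
  have hρ'0 : 0 < ρ' := by rw [hρ']; positivity
  obtain ⟨D, hD⟩ : ∃ D : ℕ, 1 / ((D : ℝ) + 1) < ρ' := exists_nat_one_div_lt hρ'0
  obtain ⟨D', hD'⟩ : ∃ D', D' = max D 1 := ⟨_, rfl⟩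
  have hD1 : 1 ≤ D' := by rw [hD']; exact le_max_right _ _
  have hDρ : 1 / ((D' : ℝ) + 1) < ρ' := by
    refine lt_of_le_of_lt ?_ hD
    apply one_div_le_one_div_of_le (by positivity)
    have : (D : ℝ) ≤ D' := by rw [hD']; exact_mod_cast le_max_left _ _
    linarith
  obtain ⟨h, C, N₂, hBTH⟩ := BTH.main D' hD1 ρ' hDρ
  obtain ⟨E, hE⟩ := exists_nat_ge (2 / ρ)
  obtain ⟨N₃, hN₃⟩ := exists_nat_ge (1 / ρ)
  have hE1 : 1 ≤ E + 1 := by omega
  refine ⟨h + 1, D'.factorial, C * (E + 1), max N₂ (N₃ + 1), by omega, Nat.factorial_pos _,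
    fun A B Y hB hBY hdens => ?_⟩
  have hB2 : N₂ ≤ B := (le_max_left _ _).trans hB
  have hB3 : N₃ + 1 ≤ B := (le_max_right _ _).trans hB
  -- the least element
  obtain ⟨j, hj1, hj2, hj3⟩ : ∃ j, 1 ≤ j ∧ j ≤ B ∧ A j := by
    have h1 := hdens B le_rfl hBY
    have h2 : (0 : ℝ) < (((Icc 1 B).filter A).card : ℝ) := by
      refine lt_of_lt_of_le ?_ h1
      have : (1 : ℝ) ≤ B := by exact_mod_cast (by omega : 1 ≤ B)
      positivity
    have h3 : 0 < ((Icc 1 B).filter A).card := by exact_mod_cast h2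
    obtain ⟨j, hj⟩ := card_pos.1 h3
    rw [mem_filter, mem_Icc] at hj
    exact ⟨j, hj.1.1, hj.1.2, hj.2⟩
  refine ⟨j, hj1, hj2, fun m hm t hMt htC htY => ?_⟩
  have hkey := hBTH (fun i => A (i + j) ∧ i + j ≤ Y) ((E + 1) * B) (Y - B) (hB2.trans (Nat.le_mul_of_pos_left _ (by omega)))
    (by
      intro L hL1 hL2
      have hBL : B ≤ L := le_trans (Nat.le_mul_of_pos_left _ (by omega)) hL1
      have h1 := hdens L hBL (by omega)
      have h2 : ((Icc 1 L).filter A).card ≤ j + ((Icc 1 L).filter (fun i => A (i + j) ∧ i + j ≤ Y)).card := by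
        have h3 : (Icc 1 L).filter A ⊆ Icc 1 j ∪ ((Icc 1 L).filter (fun i => A (i + j) ∧ i + j ≤ Y)).image (fun i => i + j) := by
          intro i hi
          rw [mem_filter, mem_Icc] at hi
          rw [mem_union, mem_Icc, mem_image]
          by_cases h4 : i ≤ j
          · exact Or.inl ⟨hi.1.1, h4⟩
          · refine Or.inr ⟨i - j, ?_, by omega⟩
            rw [mem_filter, mem_Icc, Nat.sub_add_cancel (by omega)]
            exact ⟨⟨by omega, by omega⟩, hi.2, by omega⟩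
        have h4 := card_le_card h3
        have h5 := card_union_le (Icc 1 j) (((Icc 1 L).filter (fun i => A (i + j) ∧ i + j ≤ Y)).image (fun i => i + j))
        have h6 : (((Icc 1 L).filter (fun i => A (i + j) ∧ i + j ≤ Y)).image (fun i => i + j)).card ≤
            ((Icc 1 L).filter (fun i => A (i + j) ∧ i + j ≤ Y)).card := card_image_le
        have h7 : (Icc 1 j).card = j := by rw [Nat.card_Icc, Nat.add_sub_cancel]
        omega
      have h3 : ρ * L ≤ j + (((Icc 1 L).filter (fun i => A (i + j) ∧ i + j ≤ Y)).card : ℝ) := by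
        refine h1.trans ?_
        exact_mod_cast h2
      have h4 : (j : ℝ) ≤ ρ / 2 * L := by
        have h5 : (j : ℝ) ≤ B := by exact_mod_cast hj2
        have h6 : ((E : ℝ) + 1) * B ≤ L := by exact_mod_cast hL1
        have h7 : 2 ≤ ρ * E := by
          rw [div_le_iff₀ hρ] at hE
          linarith
        have hB0 : (0 : ℝ) ≤ B := Nat.cast_nonneg _
        nlinarith
      rw [hρ']
      have h5 : ρ / 2 * L ≤ (((Icc 1 L).filter (fun i => A (i + j) ∧ i + j ≤ Y)).card : ℝ) := by linarith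
      refine h5.trans (le_of_eq ?_)
      congr!) t hMt (by rw [← mul_assoc]; exact htC) (by omega)
  obtain ⟨l, h1, h2, h3⟩ := hkey
  refine ⟨l.map (fun i => i + j) ++ List.replicate (m - l.length) j, ?_, ?_, fun i hi => ?_⟩
  · rw [List.length_append, List.length_map, List.length_replicate]
    omega
  · have key : ∀ l : List ℕ, (l.map (fun i => i + j)).sum = l.sum + l.length * j := by
      intro l
      induction l with
      | nil => simp
      | cons b l ih =>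
        rw [List.map_cons, List.sum_cons, ih, List.sum_cons, List.length_cons]
        ring
    rw [List.sum_append, key, List.sum_replicate, smul_eq_mul, h3]
    have h4 : l.length ≤ m := by omega
    obtain ⟨e, he⟩ : ∃ e, m = l.length + e := ⟨m - l.length, by omega⟩
    rw [he, Nat.add_sub_cancel_left]
    ring
  · rcases List.mem_append.1 hi with hi | hi
    · obtain ⟨k, hk, rfl⟩ := List.mem_map.1 hi
      obtain ⟨⟨h4, h5⟩, h6⟩ := h2 k hk
      exact ⟨by omega, h5, h4⟩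
    · rw [List.mem_replicate] at hi
      obtain ⟨_, rfl⟩ := hi
      exact ⟨hj1, by omega, hj3⟩

open Classical in
/-- **Sums of exactly `h` offsets on both sides** -/
theorem final (c δ : ℝ) (hc : 0 < c) (hδ0 : 0 < δ) (hδ : δ ≤ 0.01) : ∃ κ : ℝ, ∃ h M N₀ : ℕ, 0 < κ ∧ 1 ≤ h ∧ 1 ≤ M ∧
    ∀ N : ℕ, N₀ ≤ N → Rich c δ N → Rich c δ (N + 1) → ∀ t : ℤ, (M : ℤ) ∣ t → 32 * |t| ≤ N →
      ∃ l l' : List ℕ, l.length = h ∧ l'.length = h ∧ (l.sum : ℤ) - l'.sum = t ∧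
        (∀ j ∈ l, 1 ≤ j ∧ j ≤ N ∧ plus κ N j) ∧ ∀ j ∈ l', 1 ≤ j ∧ j ≤ N ∧ minus κ N j := by
  obtain ⟨κ, ρ, hκ, hρ, N₁, hdens⟩ := dens c δ hc hδ
  obtain ⟨h, M, C, N₂, hh, hM, hex⟩ := exact ρ hρ
  have tn : Tendsto (fun N : ℕ => (N : ℝ)) atTop atTop := tendsto_natCast_atTop_atTop
  have t1 : Tendsto (fun N : ℕ => (N : ℝ) ^ δ) atTop atTop := (tendsto_rpow_atTop hδ0).comp tn
  have t2 : Tendsto (fun N : ℕ => (N : ℝ) ^ (1 - δ)) atTop atTop := (tendsto_rpow_atTop (by linarith)).comp tn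
  obtain ⟨Z, hZ⟩ : ∃ Z : ℕ, Z = 16 * ((M * C + M * (h * M) + h * M + 1) * 3) := ⟨_, rfl⟩
  obtain ⟨X₂, hX₂⟩ := eventually_atTop.1 ((t1.eventually_ge_atTop (Z : ℝ)).and
    ((t2.eventually_ge_atTop (max (N₂ : ℝ) 2))))
  refine ⟨κ, h * M, M, max (max N₁ X₂) 64, hκ, Nat.mul_pos hh hM, hM, fun N hN h1 h2 t hMt ht => ?_⟩
  have hN₁ : N₁ ≤ N := (le_max_left _ _).trans ((le_max_left _ _).trans hN)
  obtain ⟨hb1, hb2⟩ := hX₂ N ((le_max_right _ _).trans ((le_max_left _ _).trans hN))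
  have hN64 : 64 ≤ N := (le_max_right _ _).trans hN
  have hNR : (64 : ℝ) ≤ N := by exact_mod_cast hN64
  have hN0 : (0 : ℝ) < N := by linarith
  obtain ⟨v, hv⟩ : ∃ v : ℝ, v = (N : ℝ) ^ (1 - δ) := ⟨_, rfl⟩
  rw [← hv] at hb2
  have hv1 : (N₂ : ℝ) ≤ v := (le_max_left _ _).trans hb2
  have hv2 : 2 ≤ v := (le_max_right _ _).trans hb2
  have huv : (N : ℝ) = (N : ℝ) ^ δ * v := by
    rw [hv, ← Real.rpow_add hN0]
    have e : δ + (1 - δ) = 1 := by ring
    rw [e, Real.rpow_one]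
  have hN1v : ((N + 1 : ℕ) : ℝ) ^ (1 - δ) ≤ 2 * v := by
    calc ((N + 1 : ℕ) : ℝ) ^ (1 - δ) ≤ (2 * (N : ℝ)) ^ (1 - δ) := by
          apply Real.rpow_le_rpow (by positivity) _ (by linarith)
          push_cast
          linarith
      _ = 2 ^ (1 - δ) * v := by rw [Real.mul_rpow (by norm_num) hN0.le, hv]
      _ ≤ 2 * v := by
          apply mul_le_mul_of_nonneg_right _ (by linarith)
          calc (2 : ℝ) ^ (1 - δ) ≤ 2 ^ (1 : ℝ) := Real.rpow_le_rpow_of_exponent_le (by norm_num) (by linarith)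
            _ = 2 := Real.rpow_one 2
  obtain ⟨B, hB⟩ : ∃ B, B = ⌈2 * v⌉₊ := ⟨_, rfl⟩
  have hB1 : 2 * v ≤ B := by rw [hB]; exact Nat.le_ceil _
  have hB2 : (B : ℝ) < 2 * v + 1 := by rw [hB]; exact Nat.ceil_lt_add_one (by linarith)
  have hBN₂ : N₂ ≤ B := by
    have : (N₂ : ℝ) ≤ B := by linarith
    exact_mod_cast this
  have hB4 : 2 ≤ B := by
    have : (2 : ℝ) ≤ B := by linarith
    exact_mod_cast this
  -- the two sides
  have hplus : ∀ L : ℕ, B ≤ L → L ≤ N / 8 → ρ * L ≤ (((Icc 1 L).filter (plus κ N)).card : ℝ) := by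
    intro L hL hLN
    have hLB : (B : ℝ) ≤ L := by exact_mod_cast hL
    exact hdens N hN₁ h1 h2 L (2 * N ^ 2 + 2 * N + 2) (by linarith) (by omega) ⟨N ^ 2 + N + 1, by ring⟩ le_rfl (by omega)
  have hminus : ∀ L : ℕ, B ≤ L → L ≤ N / 8 → ρ * L ≤ (((Icc 1 L).filter (minus κ N)).card : ℝ) := by
    intro L hL hLN
    have hLB : (B : ℝ) ≤ L := by exact_mod_cast hL
    have hN2 : N ≤ N ^ 2 := by nlinarith
    have h3 := hdens N hN₁ h1 h2 L (2 * N ^ 2 + 2 * N + 2 - 2 * (L + 1)) (by linarith) (by omega) (by omega) (by omega)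
      (by omega)
    refine h3.trans ?_
    rw [Nat.cast_le]
    apply card_le_card_of_injOn (fun j => L + 1 - j)
    · intro j hj
      rw [mem_coe, mem_filter, mem_Icc] at hj
      rw [mem_coe, mem_filter, mem_Icc]
      refine ⟨⟨by simp only; omega, by simp only; omega⟩, ?_⟩
      have e : 2 * N ^ 2 + 2 * N + 2 - 2 * (L + 1) + 2 * j = 2 * N ^ 2 + 2 * N + 2 - 2 * (L + 1 - j) := by omega
      have h4 := hj.2
      rw [e] at h4
      exact h4
    · intro j hj j' hj' hjj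
      rw [mem_coe, mem_filter, mem_Icc] at hj hj'
      have : L + 1 - j = L + 1 - j' := hjj
      omega
  -- the sizes
  have hsize : 16 * ((M * C + M * (h * M) + h * M + 1) * B) ≤ N := by
    have h3 : ((16 * ((M * C + M * (h * M) + h * M + 1) * B) : ℕ) : ℝ) ≤ N := by
      rw [huv]
      have h4 : (B : ℝ) ≤ 3 * v := by linarith
      calc ((16 * ((M * C + M * (h * M) + h * M + 1) * B) : ℕ) : ℝ)
          = 16 * ((M * C + M * (h * M) + h * M + 1 : ℕ) : ℝ) * B := by push_cast; ring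
        _ ≤ 16 * ((M * C + M * (h * M) + h * M + 1 : ℕ) : ℝ) * (3 * v) := by gcongr
        _ = (Z : ℝ) * v := by rw [hZ]; push_cast; ring
        _ ≤ (N : ℝ) ^ δ * v := by gcongr
    exact_mod_cast h3
  have hexp : (M * C + M * (h * M) + h * M + 1) * B = M * C * B + M * (h * M) * B + h * M * B + B := by ring
  rw [hexp] at hsize
  have hBN8 : B ≤ N / 8 := by omega
  obtain ⟨j₁, hj₁, hj₁B, hs₁⟩ := hex (plus κ N) B (N / 8) hBN₂ hBN8 hplus
  obtain ⟨j₂, hj₂, hj₂B, hs₂⟩ := hex (minus κ N) B (N / 8) hBN₂ hBN8 hminus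
  have hhM : h ≤ h * M := Nat.le_mul_of_pos_right _ hM
  obtain ⟨s, hs⟩ : ∃ s : ℕ, (s : ℤ) = |t| := ⟨t.natAbs, Int.natCast_natAbs t⟩
  rw [← hs] at ht
  have hMs : M ∣ s := by
    have h3 : (M : ℤ) ∣ |t| := (dvd_abs _ _).2 hMt
    rw [← hs] at h3
    exact_mod_cast h3
  have hsN : 32 * s ≤ N := by exact_mod_cast ht
  -- `t₂` and `t₁`
  obtain ⟨t₂, ht₂⟩ : ∃ t₂ : ℕ, t₂ = M * C * B + M * (h * M) * B + s := ⟨_, rfl⟩
  have hMt₂ : M ∣ t₂ := by
    rw [ht₂]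
    refine dvd_add (dvd_add ?_ ?_) hMs
    · rw [mul_assoc]; exact dvd_mul_right _ _
    · rw [mul_assoc]; exact dvd_mul_right _ _
  have hp1 : h * M * j₁ ≤ h * M * B := Nat.mul_le_mul_left _ hj₁B
  have hp2 : h * M * j₂ ≤ h * M * B := Nat.mul_le_mul_left _ hj₂B
  have hp3 : h * M * B ≤ M * (h * M) * B := by
    calc h * M * B ≤ M * (h * M * B) := Nat.le_mul_of_pos_left _ hM
      _ = M * (h * M) * B := by ring
  have hp4 : C * B ≤ M * C * B := by
    calc C * B ≤ M * (C * B) := Nat.le_mul_of_pos_left _ hM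
      _ = M * C * B := by ring
  obtain ⟨t₁, ht₁⟩ : ∃ t₁ : ℕ, (t₁ : ℤ) = t - (h * M * j₁ : ℕ) + (h * M * j₂ : ℕ) + t₂ := by
    have h3 : (0 : ℤ) ≤ t - (h * M * j₁ : ℕ) + (h * M * j₂ : ℕ) + t₂ := by
      have h4 := neg_abs_le t
      rw [← hs] at h4
      omega
    exact ⟨_, Int.toNat_of_nonneg h3⟩
  have htle : t ≤ s := by rw [hs]; exact le_abs_self t
  have htge : -(s : ℤ) ≤ t := by rw [hs]; exact neg_abs_le t
  have hMt₁ : M ∣ t₁ := by
    have h3 : (M : ℤ) ∣ t₁ := by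
      rw [ht₁]
      refine dvd_add (dvd_add (dvd_sub hMt ?_) ?_) (by exact_mod_cast hMt₂)
      · have : M ∣ h * M * j₁ := ⟨h * j₁, by ring⟩
        exact_mod_cast this
      · have : M ∣ h * M * j₂ := ⟨h * j₂, by ring⟩
        exact_mod_cast this
    exact_mod_cast h3
  obtain ⟨l, a1, a2, a3⟩ := hs₁ (h * M) hhM t₁ hMt₁ (by omega) (by omega)
  obtain ⟨l', b1, b2, b3⟩ := hs₂ (h * M) hhM t₂ hMt₂ (by omega) (by omega)
  refine ⟨l, l', a1, b1, ?_, fun j hj => ?_, fun j hj => ?_⟩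
  · rw [a2, b2]
    push_cast at ht₁ ⊢
    linarith
  · obtain ⟨e1, e2, e3⟩ := a3 j hj
    exact ⟨e1, by omega, e3⟩
  · obtain ⟨e1, e2, e3⟩ := b3 j hj
    exact ⟨e1, by omega, e3⟩

end Pool.Agent.U455.SQT
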