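import Mathlib
import Pool.Agent.Y862.OGI
import Pool.Agent.U455.TJ

/-!
# Orbits of `x ↦ D x + e`: every large multiple of `6 m` is a sum of three times between consecutive
isolated primes
-/

set_option autoImplicit false

namespace Pool.Agent.U455.TI

open Finset Filter Pool.Agent.H447R3.IT Pool.Agent.H732R3.BigQ Pool.Agent.W59.GB
open Pool.Agent.H947R3.GM
open Pool.Agent.W218.OG (Pr S_iter_add B_eq B_ne_zero dvd_B big_primes exists_zero block not_Pr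
  to_prime pr_nat big_count)
open Pool.Agent.TH899.UG Pool.Agent.TH899.UG.OG Pool.Agent.Y862

/-- every large multiple of `6` is a sum of three elements -/
theorem three (D : ℕ) (e : ℤ) (m : ℕ) (hD : 2 ≤ D) (he : e ≠ 0) (hcop : IsCoprime e (D : ℤ))
    (hm0 : 0 < m) (hm : ∀ p : ℕ, p.Prime → p ∣ D - 1 → (p : ℤ) ∣ e * m) (R : ℕ) :
    TJ.Concl (GapOI D e m R) := by
  obtain ⟨K, hK, h⟩ := consecI D e m hD he hcop hm0 hm R
  exact TJ.all_spaced (N := 6) (K := K) (S := R) (by norm_num) fun H _ hsp => h H hsp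

/-- the times `j` such that many primes are taken to primes in time `j`, with no primes in between, and the
`R` terms after the second prime are not prime, and the first prime is not among the `R` terms after another
prime -/
def Time (a : ℕ → ℕ → ℕ) (R j : ℕ) : Prop := ∀ η : ℝ, 0 < η → ∃ᶠ x : ℝ in atTop,
  x ^ (1 - η) ≤ ({p : ℕ | (p : ℝ) ≤ x ∧ p.Prime ∧ (a p j).Prime ∧
    (∀ l, 0 < l → l < j → ¬ (a p l).Prime) ∧
    ∀ l, 0 < l → l ≤ R → ¬ (a p (j + l)).Prime ∧ ∀ q : ℕ, q.Prime → a q l ≠ p}.ncard : ℝ)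

/-- the conclusion for an orbit `a` of natural numbers -/
theorem transfer (D : ℕ) (e : ℤ) (m : ℕ) (hD : 2 ≤ D) (he : e ≠ 0) (hcop : IsCoprime e (D : ℤ))
    (hm0 : 0 < m) (hm : ∀ p : ℕ, p.Prime → p ∣ D - 1 → (p : ℤ) ∣ e * m) (a : ℕ → ℕ → ℕ)
    (ha : ∀ p j : ℕ, p.Prime → ((a p j : ℕ) : ℤ) = (S D e)^[j] (p : ℤ)) (R : ℕ) :
    (∀ U : ℕ, ∃ B L : ℕ, ∀ k : ℕ, L ≤ k → 6 * m ∣ k → ∃ k₁ k₂ k₃ : ℕ,
      Time a R k₁ ∧ Time a R k₂ ∧ Time a R k₃ ∧ (U < k₁ ∧ k₁ ≤ B) ∧ (U < k₂ ∧ k₂ ≤ B) ∧ U < k₃ ∧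
      k = k₁ + k₂ + k₃) ∧
    (∀ k : ℕ, 6 * m ∣ k → ∀ U : ℕ, ∃ k₁ k₂ k₃ : ℕ,
      Time a R k₁ ∧ Time a R k₂ ∧ Time a R k₃ ∧ U < k₁ ∧ U < k₂ ∧ U < k₃ ∧ k + k₃ = k₁ + k₂) := by
  obtain ⟨hsum, hdif⟩ := three D e m hD he hcop hm0 hm R
  have hpr : ∀ p j : ℕ, p.Prime → (Pr ((S D e)^[j] (p : ℤ)) ↔ (a p j).Prime) := by
    intro p j hp
    rw [← ha p j hp, pr_nat]
  have hT : ∀ i ∈ GapOI D e m R, Time a R (m * i) := by
    intro i hi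
    refine big_count (Big.mono ?_ hi)
    rintro p ⟨hp, hp1, hp2, hp3⟩
    refine ⟨hp, (hpr p _ hp).1 hp1, fun l h0 h1 h2 => hp2 l h0 h1 ((hpr p _ hp).2 h2),
      fun l hl0 hl1 => ?_⟩
    obtain ⟨k1, k2⟩ := hp3 l hl0 hl1
    refine ⟨fun h => k1 ((hpr p _ hp).2 h), fun q hq h => ?_⟩
    refine k2 (q : ℤ) ?_ ?_
    · exact ⟨by exact_mod_cast hq.pos, Nat.prime_iff_prime_int.1 hq⟩
    · rw [← ha q l hq, h]
  have hmul : ∀ U i : ℕ, U < i → U < m * i := fun U i h =>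
    lt_of_lt_of_le h (Nat.le_mul_of_pos_left _ hm0)
  constructor
  · intro U
    obtain ⟨B, L, hL⟩ := hsum U
    refine ⟨m * B, m * L, fun k hk hd => ?_⟩
    obtain ⟨t, rfl⟩ := hd
    have e1 : 6 * m * t = m * (6 * t) := by ring
    rw [e1] at hk ⊢
    obtain ⟨g₁, g₂, g₃, h1, h2, h3, ⟨b1, b1'⟩, ⟨b2, b2'⟩, b3, h4⟩ :=
      hL (6 * t) (Nat.le_of_mul_le_mul_left hk hm0) (dvd_mul_right _ _)
    exact ⟨_, _, _, hT _ h1, hT _ h2, hT _ h3, ⟨hmul _ _ b1, Nat.mul_le_mul_left _ b1'⟩,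
      ⟨hmul _ _ b2, Nat.mul_le_mul_left _ b2'⟩, hmul _ _ b3, by rw [h4]; ring⟩
  · intro k hd U
    obtain ⟨t, rfl⟩ := hd
    have e1 : 6 * m * t = m * (6 * t) := by ring
    rw [e1]
    obtain ⟨g₁, g₂, g₃, h1, h2, h3, b1, b2, b3, h4⟩ := hdif (6 * t) (dvd_mul_right _ _) U
    refine ⟨_, _, _, hT _ h1, hT _ h2, hT _ h3, hmul _ _ b1, hmul _ _ b2, hmul _ _ b3, ?_⟩
    rw [← Nat.mul_add, h4, Nat.mul_add]

end Pool.Agent.U455.TI
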