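import Mathlib
import Pool.Agent.N646.TT.Tup
import Pool.Agent.U455.TJ

/-!
# Four classes of shifts and narrow progressions of prime tuples

Let `k ≥ 0`. Any four admissible classes of `(k + 1) K` shifts contain two shifts of different classes whose
difference `d` is such that for some `k` further shifts `t` there are arbitrarily long narrow arithmetic progressions of
`n` with `n`, `n + 2 b d` and all `n + 2 b t_i` prime.
-/

set_option autoImplicit false

namespace Pool.Agent.U455.TUP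

open Finset Filter Topology
open Pool.Agent.H947R3.GM (AdmN)
open Pool.Agent.N646.TT (GoodT tpc grp two_groups ext_tuple)

/-- `d` is a difference of a prime `(k+2)`-tuple -/
def GT (k b : ℕ) : Set ℕ := {d : ℕ | ∃ t : Fin k → ℤ, Function.Injective t ∧ (∀ i, t i ≠ 0 ∧ t i ≠ d) ∧
  GoodT b d t}

open Classical in
theorem c4 (k b : ℕ) (hb : 1 ≤ b) : ∃ K : ℕ, Pool.Agent.U455.TG.C4 (GT k b) (2 * b) K := by
  obtain ⟨K, hK, hpat⟩ := Pool.Agent.Y827.HN.patR (4 * (k + 1)) (k + 1) (by omega) (by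
    push_cast
    have : (0 : ℝ) ≤ k := Nat.cast_nonneg _
    linarith)
  refine ⟨(k + 1) * K, fun H hH => ?_⟩
  obtain ⟨hinj, hadm⟩ := hH
  by_contra hcon
  push Not at hcon
  obtain ⟨E, hE⟩ : ∃ E : Fin (4 * (k + 1)) × Fin K → Fin 4 × Fin ((k + 1) * K), E = fun z =>
    (grp z.1, finProdFinEquiv ((finProdFinEquiv.symm z.1).2, z.2)) := ⟨_, rfl⟩
  have hE1 : ∀ z, (E z).1 = grp z.1 := fun z => by rw [hE]
  have hEinj : Function.Injective E := by
    intro z z' h
    rw [hE] at h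
    have h1 := (Prod.mk.inj h).1
    have h2 := finProdFinEquiv.injective (Prod.mk.inj h).2
    have h3 := (Prod.mk.inj h2).1
    have h4 := (Prod.mk.inj h2).2
    exact Prod.ext (finProdFinEquiv.symm.injective (Prod.ext h1 h3)) h4
  obtain ⟨po, hpo⟩ : ∃ po : Fin (4 * (k + 1)) × Fin K → ℕ, po = fun z => H (E z).1 (E z).2 := ⟨_, rfl⟩
  have hpo' : ∀ z, po z = H (E z).1 (E z).2 := fun z => by rw [hpo]
  have hpoinj : Function.Injective po := by
    intro z z' h
    rw [hpo', hpo'] at h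
    exact hEinj (hinj h)
  have hcross : ∀ z z' : Fin (4 * (k + 1)) × Fin K, grp z.1 ≠ grp z'.1 → po z < po z' →
      po z' - po z ∉ GT k b := by
    intro z z' h h'
    rw [hpo', hpo'] at h' ⊢
    exact hcon (E z).1 (E z').1 (E z).2 (E z').2 (by rw [hE1, hE1]; exact h) h'
  -- the lengths and radii
  have hbad : ∀ w : (Fin (k + 2) → Fin (4 * (k + 1))) × (Fin (4 * (k + 1)) → Fin K), ∃ l R : ℕ,
      (Function.Injective w.1 ∧ grp (w.1 0) ≠ grp (w.1 1) ∧
        po (w.1 0, w.2 (w.1 0)) < po (w.1 1, w.2 (w.1 1))) → ∀ C : ℕ, ∀ᶠ x : ℕ in atTop, ∀ D : ℕ,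
      ¬ (1 ≤ D ∧ (D : ℝ) ≤ Real.log x ^ C ∧ (x : ℝ) / Real.log x ^ C ≤
        (tpc b (po (w.1 1, w.2 (w.1 1)) - po (w.1 0, w.2 (w.1 0)))
          (fun i : Fin k => (po (w.1 i.succ.succ, w.2 (w.1 i.succ.succ)) : ℤ) -
            po (w.1 0, w.2 (w.1 0))) l D R x : ℝ)) := by
    intro w
    by_cases hw : Function.Injective w.1 ∧ grp (w.1 0) ≠ grp (w.1 1) ∧
        po (w.1 0, w.2 (w.1 0)) < po (w.1 1, w.2 (w.1 1))
    · obtain ⟨hw1, hw2, hw3⟩ := hw
      have h2 := hcross _ _ hw2 hw3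
      have h2' : ¬ GoodT b (po (w.1 1, w.2 (w.1 1)) - po (w.1 0, w.2 (w.1 0)))
          (fun i : Fin k => (po (w.1 i.succ.succ, w.2 (w.1 i.succ.succ)) : ℤ) -
            po (w.1 0, w.2 (w.1 0))) := by
        intro hgood
        refine h2 ⟨_, ?_, ?_, hgood⟩
        · intro i j hij
          have h3 : (po (w.1 i.succ.succ, w.2 (w.1 i.succ.succ)) : ℤ) =
              po (w.1 j.succ.succ, w.2 (w.1 j.succ.succ)) := by
            have h4 : (po (w.1 i.succ.succ, w.2 (w.1 i.succ.succ)) : ℤ) - po (w.1 0, w.2 (w.1 0)) =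
              (po (w.1 j.succ.succ, w.2 (w.1 j.succ.succ)) : ℤ) - po (w.1 0, w.2 (w.1 0)) := hij
            linarith
          have h4 := hpoinj (by exact_mod_cast h3 : po (w.1 i.succ.succ, w.2 (w.1 i.succ.succ)) =
            po (w.1 j.succ.succ, w.2 (w.1 j.succ.succ)))
          have h5 := hw1 (Prod.mk.inj h4).1
          exact Fin.succ_injective _ (Fin.succ_injective _ h5)
        · intro i
          constructor
          · intro h3
            have h3' : (po (w.1 i.succ.succ, w.2 (w.1 i.succ.succ)) : ℤ) - po (w.1 0, w.2 (w.1 0)) = 0 := h3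
            have h4 : po (w.1 i.succ.succ, w.2 (w.1 i.succ.succ)) = po (w.1 0, w.2 (w.1 0)) := by
              have : (po (w.1 i.succ.succ, w.2 (w.1 i.succ.succ)) : ℤ) = po (w.1 0, w.2 (w.1 0)) := by
                linarith
              exact_mod_cast this
            have h5 := hw1 (Prod.mk.inj (hpoinj h4)).1
            exact Fin.succ_ne_zero _ h5
          · intro h3
            have h3' : (po (w.1 i.succ.succ, w.2 (w.1 i.succ.succ)) : ℤ) - po (w.1 0, w.2 (w.1 0)) =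
              ((po (w.1 1, w.2 (w.1 1)) - po (w.1 0, w.2 (w.1 0)) : ℕ) : ℤ) := h3
            rw [Nat.cast_sub hw3.le] at h3'
            have h4 : po (w.1 i.succ.succ, w.2 (w.1 i.succ.succ)) = po (w.1 1, w.2 (w.1 1)) := by
              have : (po (w.1 i.succ.succ, w.2 (w.1 i.succ.succ)) : ℤ) = po (w.1 1, w.2 (w.1 1)) := by
                linarith
              exact_mod_cast this
            have h5 := hw1 (Prod.mk.inj (hpoinj h4)).1
            rw [← Fin.succ_zero_eq_one] at h5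
            exact Fin.succ_ne_zero _ (Fin.succ_injective _ h5)
      unfold GoodT at h2'
      push Not at h2'
      obtain ⟨l, R, h3⟩ := h2'
      refine ⟨l, R, fun _ C => ?_⟩
      have h4 := h3 C
      filter_upwards [h4] with x hx D hD
      exact absurd hD.2.2 (not_le.2 (hx D hD.1 hD.2.1))
    · exact ⟨0, 0, fun h => absurd h hw⟩
  choose lf Rf hlR using hbad
  obtain ⟨l₀, hl₀⟩ : ∃ l₀, l₀ = ∑ w, lf w := ⟨_, rfl⟩
  obtain ⟨s, hs⟩ : ∃ s, s = ∑ w, Rf w + ∑ z, 2 * b * po z := ⟨_, rfl⟩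
  have hlle : ∀ w, lf w ≤ l₀ := fun w => by
    rw [hl₀]
    exact single_le_sum (f := lf) (fun _ _ => Nat.zero_le _) (mem_univ w)
  have hsle : ∀ w z, Rf w + 2 * b * po z ≤ s := fun w z => by
    rw [hs]
    exact Nat.add_le_add (single_le_sum (f := Rf) (fun _ _ => Nat.zero_le _) (mem_univ w))
      (single_le_sum (f := fun z => 2 * b * po z) (fun _ _ => Nat.zero_le _) (mem_univ z))
  obtain ⟨Hf, hHf⟩ : ∃ Hf : Fin (4 * (k + 1)) → Fin K → ℤ × ℤ,
      Hf = fun g i => ((1 : ℤ), ((2 * b * po (g, i) : ℕ) : ℤ)) := ⟨_, rfl⟩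
  obtain ⟨U, hU⟩ : ∃ U : Finset (ℤ × ℤ), U = ((Icc (-(s : ℤ)) s).filter
      (fun t => ¬ ((2 * b : ℕ) : ℤ) ∣ t)).image (fun t : ℤ => ((1 : ℤ), t)) := ⟨_, rfl⟩
  obtain ⟨C, hC⟩ := hpat Hf (by
    rintro ⟨g, i⟩ ⟨g', i'⟩ h
    have h1 : Hf g i = Hf g' i' := h
    rw [hHf] at h1
    have h2 : ((2 * b * po (g, i) : ℕ) : ℤ) = ((2 * b * po (g', i') : ℕ) : ℤ) := (Prod.mk.inj h1).2
    have h3 : 2 * b * po (g, i) = 2 * b * po (g', i') := by exact_mod_cast h2
    exact hpoinj (Nat.eq_of_mul_eq_mul_left (by omega) h3)) (fun g i => by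
    rw [hHf]
    exact ⟨one_pos, isCoprime_one_left⟩) (fun p hp hpK => by
    by_cases hpb : p ∣ 2 * b
    · refine ⟨1, fun g i hd => hp.one_lt.ne' ?_⟩
      rw [hHf] at hd
      have h1 : (p : ℤ) ∣ ((2 * b * po (g, i) : ℕ) : ℤ) := by
        exact_mod_cast hpb.mul_right _
      have h2 : (p : ℤ) ∣ 1 := by
        have h3 := dvd_sub hd h1
        simpa using h3
      have h4 : p ∣ 1 := by exact_mod_cast h2
      exact Nat.dvd_one.1 h4
    · obtain ⟨n, hn⟩ := hadm p hp hpb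
      refine ⟨2 * b * n, fun g i hd => hn (E (g, i)).1 (E (g, i)).2 ?_⟩
      rw [hHf] at hd
      have h1 : (p : ℤ) ∣ ((2 * b : ℕ) : ℤ) * (n + H (E (g, i)).1 (E (g, i)).2) := by
        have h2 : ((2 * b : ℕ) : ℤ) * (n + H (E (g, i)).1 (E (g, i)).2) =
            1 * (2 * b * n) + ((2 * b * po (g, i) : ℕ) : ℤ) := by
          rw [hpo']
          push_cast
          ring
        rw [h2]
        exact hd
      rcases (Nat.prime_iff_prime_int.1 hp).dvd_or_dvd h1 with h2 | h2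
      · exact absurd (by exact_mod_cast h2) hpb
      · exact h2) U (fun u hu => by
    rw [hU] at hu
    obtain ⟨t, ht, rfl⟩ := mem_image.1 hu
    refine ⟨one_pos, isCoprime_one_left, fun g i h => ?_⟩
    rw [hHf] at h
    have h2 : t = ((2 * b * po (g, i) : ℕ) : ℤ) := (Prod.mk.inj h).2
    apply (mem_filter.1 ht).2
    rw [h2]
    exact_mod_cast dvd_mul_right (2 * b) (po (g, i))) l₀
  have hall : ∀ᶠ x : ℕ in atTop, ∀ w : (Fin (k + 2) → Fin (4 * (k + 1))) ×
      (Fin (4 * (k + 1)) → Fin K), (Function.Injective w.1 ∧ grp (w.1 0) ≠ grp (w.1 1) ∧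
        po (w.1 0, w.2 (w.1 0)) < po (w.1 1, w.2 (w.1 1))) →
      ∀ D : ℕ, ¬ (1 ≤ D ∧ (D : ℝ) ≤ Real.log x ^ C ∧ (x : ℝ) / Real.log x ^ C ≤
        (tpc b (po (w.1 1, w.2 (w.1 1)) - po (w.1 0, w.2 (w.1 0)))
          (fun i : Fin k => (po (w.1 i.succ.succ, w.2 (w.1 i.succ.succ)) : ℤ) -
            po (w.1 0, w.2 (w.1 0))) (lf w) D (Rf w) x : ℝ)) := by
    rw [eventually_all]
    intro w
    by_cases hw : Function.Injective w.1 ∧ grp (w.1 0) ≠ grp (w.1 1) ∧
        po (w.1 0, w.2 (w.1 0)) < po (w.1 1, w.2 (w.1 1))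
    · filter_upwards [hlR w hw C] with x hx _
      exact hx
    · exact Eventually.of_forall fun x h => absurd h hw
  obtain ⟨N, hN1, hN2, hN3⟩ := (hC.and (hall.and (eventually_ge_atTop s))).exists
  obtain ⟨S, cc, hS, hP⟩ := hN1
  obtain ⟨γ₀', hγ₀', γ₁', hγ₁', hlt'⟩ := two_groups S hS
  obtain ⟨γ₀, hγ₀, γ₁, hγ₁, hne, hltpo⟩ : ∃ γ₀ ∈ S, ∃ γ₁ ∈ S, grp γ₀ ≠ grp γ₁ ∧
      po (γ₀, cc γ₀) < po (γ₁, cc γ₁) := by
    have h1 : po (γ₀', cc γ₀') ≠ po (γ₁', cc γ₁') := by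
      intro h
      have h2 := (Prod.mk.inj (hpoinj h)).1
      rw [h2] at hlt'
      exact lt_irrefl _ hlt'
    rcases lt_or_gt_of_ne h1 with h | h
    · exact ⟨γ₀', hγ₀', γ₁', hγ₁', hlt'.ne, h⟩
    · exact ⟨γ₁', hγ₁', γ₀', hγ₀', hlt'.ne', h⟩
  obtain ⟨g, hg1, hg2, hg3, hg4⟩ := ext_tuple k S hS γ₀ γ₁ hγ₀ hγ₁ (fun h => by
    rw [h] at hne
    exact hne rfl)
  have h01 : grp (g 0) ≠ grp (g 1) := by
    rw [hg3, hg4]
    exact hne
  obtain ⟨zz, hzz⟩ : ∃ zz : Fin (k + 2) → Fin (4 * (k + 1)) × Fin K, zz = fun i => (g i, cc (g i)) :=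
    ⟨_, rfl⟩
  have hzz' : ∀ i, (g i, cc (g i)) = zz i := fun i => by rw [hzz]
  obtain ⟨D, hD1, hD2, hD3⟩ := hP (univ.image (fun i => Hf (g i) (cc (g i)))) (by
    intro f hf
    obtain ⟨i, -, rfl⟩ := mem_image.1 hf
    exact mem_image.2 ⟨g i, hg2 i, rfl⟩)
  have hlt01 : po (zz 0) < po (zz 1) := by
    rw [← hzz', ← hzz', hg3, hg4]
    exact hltpo
  have hN2' := hN2 (g, cc) ⟨hg1, h01, by
    simp only [hzz']
    exact hlt01⟩ D
  apply hN2'
  refine ⟨hD1, hD2, hD3.trans ?_⟩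
  rw [Nat.cast_le]
  unfold Pool.Agent.Y827.HN.cntX tpc
  simp only [hzz']
  have hpz : 2 * b * po (zz 0) ≤ s := (Nat.le_add_left _ _).trans (hsle (g, cc) (zz 0))
  apply card_le_card_of_injOn (fun n : ℕ => n + 2 * b * po (zz 0))
  · intro n hn
    obtain ⟨hn1, hn2⟩ := mem_filter.1 (mem_coe.1 hn)
    rw [mem_Icc] at hn1
    refine mem_coe.2 (mem_filter.2 ⟨mem_Icc.2 ⟨by show 1 ≤ n + 2 * b * po (zz 0); omega,
      by show n + 2 * b * po (zz 0) ≤ 2 * N; omega⟩, fun j hj => ?_⟩)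
    obtain ⟨h1, h2⟩ := hn2 j (lt_of_lt_of_le hj (hlle (g, cc)))
    have h3 : ∀ i, (n + j * D + 2 * b * po (zz i)).Prime := by
      intro i
      have h4 := h1 (Hf (g i) (cc (g i))) (mem_image.2 ⟨i, mem_univ _, rfl⟩)
      rw [hHf] at h4
      have e3 : ((1 : ℤ) * ((n + j * D : ℕ) : ℤ) + ((2 * b * po (g i, cc (g i)) : ℕ) : ℤ)).toNat =
          n + j * D + 2 * b * po (zz i) := by
        rw [hzz', one_mul, ← Nat.cast_add, Int.toNat_natCast]
      rw [← e3]
      exact h4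
    have e0 : n + 2 * b * po (zz 0) + j * D = n + j * D + 2 * b * po (zz 0) := by ring
    refine ⟨?_, ?_, fun i => ?_, fun q hq hqR => ?_⟩
    · show (n + 2 * b * po (zz 0) + j * D).Prime
      rw [e0]
      exact h3 0
    · show (n + 2 * b * po (zz 0) + j * D + 2 * b * (po (zz 1) - po (zz 0))).Prime
      have e1 : n + 2 * b * po (zz 0) + j * D + 2 * b * (po (zz 1) - po (zz 0)) =
          n + j * D + 2 * b * po (zz 1) := by
        have h5 : 2 * b * po (zz 1) = 2 * b * po (zz 0) + 2 * b * (po (zz 1) - po (zz 0)) := by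
          rw [← Nat.mul_add, Nat.add_sub_cancel' hlt01.le]
        rw [h5]
        ring
      rw [e1]
      exact h3 1
    · show (((n + 2 * b * po (zz 0) + j * D : ℕ) : ℤ) +
        2 * b * ((po (zz i.succ.succ) : ℤ) - po (zz 0))).toNat.Prime
      have e1 : ((n + 2 * b * po (zz 0) + j * D : ℕ) : ℤ) +
          2 * b * ((po (zz i.succ.succ) : ℤ) - po (zz 0)) =
          ((n + j * D + 2 * b * po (zz i.succ.succ) : ℕ) : ℤ) := by
        push_cast
        ring
      rw [e1, Int.toNat_natCast]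
      exact h3 i.succ.succ
    · by_contra hnd
      have hqR' : |(q : ℤ) - ((n + 2 * b * po (zz 0) + j * D : ℕ) : ℤ)| ≤ (Rf (g, cc) : ℕ) := hqR
      have hnd' : ¬ ((2 * b : ℕ) : ℤ) ∣ (q : ℤ) - ((n + 2 * b * po (zz 0) + j * D : ℕ) : ℤ) := hnd
      obtain ⟨t, ht⟩ : ∃ t : ℤ, t = (q : ℤ) - ((n + j * D : ℕ) : ℤ) := ⟨_, rfl⟩
      have ht2 : t = ((q : ℤ) - ((n + 2 * b * po (zz 0) + j * D : ℕ) : ℤ)) +
          ((2 * b * po (zz 0) : ℕ) : ℤ) := by
        rw [ht]
        push_cast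
        ring
      have htU : ((1 : ℤ), t) ∈ U := by
        rw [hU]
        refine mem_image.2 ⟨t, mem_filter.2 ⟨?_, ?_⟩, rfl⟩
        · have h6 := hsle (g, cc) (zz 0)
          have h7 : ((Rf (g, cc) : ℕ) : ℤ) + ((2 * b * po (zz 0) : ℕ) : ℤ) ≤ s := by exact_mod_cast h6
          have h8 : (0 : ℤ) ≤ ((2 * b * po (zz 0) : ℕ) : ℤ) := Int.natCast_nonneg _
          rw [abs_le] at hqR'
          rw [mem_Icc, ht2]
          constructor
          · linarith [hqR'.1]
          · linarith [hqR'.2]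
        · intro h6
          apply hnd'
          have h7 : (q : ℤ) - ((n + 2 * b * po (zz 0) + j * D : ℕ) : ℤ) =
              t - ((2 * b * po (zz 0) : ℕ) : ℤ) := by
            rw [ht2]
            ring
          rw [h7]
          refine dvd_sub h6 ?_
          exact_mod_cast dvd_mul_right (2 * b) (po (zz 0))
      have h6 := h2 ((1 : ℤ), t) (mem_union_right _ htU)
      apply h6
      have e5 : ((1 : ℤ) * ((n + j * D : ℕ) : ℤ) + t).toNat = q := by
        rw [ht, one_mul]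
        have : ((n + j * D : ℕ) : ℤ) + ((q : ℤ) - ((n + j * D : ℕ) : ℤ)) = q := by ring
        rw [this, Int.toNat_natCast]
      rw [e5]
      exact hq
  · intro n _ n' _ he
    have he' : n + 2 * b * po (zz 0) = n' + 2 * b * po (zz 0) := he
    omega

/-- three summands -/
theorem three (k b : ℕ) (hb : 1 ≤ b) : Pool.Agent.U455.TJ.Concl (GT k b) := by
  obtain ⟨K, hK⟩ := c4 k b hb
  exact Pool.Agent.U455.TJ.all (dvd_mul_right 2 b) hK

end Pool.Agent.U455.TUP
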