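import Mathlib
import Pool.Agent.N646.TT.Cnt
import Pool.Agent.U455.ISO
import Pool.Agent.U455.UF

/-!
# Prime tuples: four classes at every scale, with bounds for all shifts
-/

set_option autoImplicit false

namespace Pool.Agent.U455.TUPE

open Finset Filter
open Pool.Agent.R493.ST (tracec avoid)
open Pool.Agent.Y876.HS (log_shift)
open Pool.Agent.H947R3.GM (AdmN)
open Pool.Agent.N646.TT (grp two_groups ext_tuple)
open Pool.Agent.U455.ISO (solve)

/-- `p`, `p + P d` and the `p + P t i` are primes, and there is no other prime at distance less than `P` from one of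
them; `p ≡ a (mod q)` -/
def Tup (k q a P d : ℕ) (t : Fin k → ℤ) (p : ℕ) : Prop :=
  p ≡ a [MOD q] ∧ p.Prime ∧ (p + P * d).Prime ∧ (∀ i, ((p : ℤ) + P * t i).toNat.Prime) ∧
    ∀ r : ℕ, r.Prime → ∀ s : ℤ, (s = 0 ∨ s = d ∨ ∃ i, s = t i) → |(r : ℤ) - (p + P * s)| < P →
      (r : ℤ) = p + P * s

/-- the differences of frequent tuples with shifts at most `L` -/
def GE (k B q a P L : ℕ) (x : ℝ) : Set ℕ := {d | ∃ t : Fin k → ℤ, Function.Injective t ∧
  (∀ i, t i ≠ 0 ∧ t i ≠ d ∧ |t i| ≤ L) ∧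
  x / Real.log x ^ B ≤ ({p : ℕ | (p : ℝ) ≤ x ∧ Tup k q a P d t p}.ncard : ℝ)}

theorem c4 (k : ℕ) : ∃ K B : ℕ, 1 ≤ K ∧ ∀ P q a : ℕ, 0 < P → 1 ≤ q → q ∣ P → a.Coprime q →
    ∀ (Y : ℕ) (H : Fin 4 → Fin ((k + 1) * K) → ℕ), AdmN P H → (∀ g i, H g i ≤ Y) →
    ∀ᶠ x : ℝ in atTop, ∃ g g' i i', g ≠ g' ∧ H g i < H g' i' ∧ H g' i' - H g i ∈ GE k B q a P Y x := by
  classical
  obtain ⟨K, C, hK, htr⟩ := tracec (4 * (k + 1))
  refine ⟨K, C + 1, hK, ?_⟩
  intro P q a hP hq hqP haq Y H hH hAY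
  obtain ⟨hinj, hAdm⟩ := hH
  obtain ⟨E, hE⟩ : ∃ E : Fin (4 * (k + 1)) × Fin K → Fin 4 × Fin ((k + 1) * K), E = fun z =>
    (grp z.1, finProdFinEquiv ((finProdFinEquiv.symm z.1).2, z.2)) := ⟨_, rfl⟩
  have hE1 : ∀ z, (E z).1 = grp z.1 := fun z => by rw [hE]
  have hEinj : Function.Injective E := by
    intro z z' h
    rw [hE] at h
    have h1 := (Prod.mk.inj h).1
    have h2 := finProdFinEquiv.injective (Prod.mk.inj h).2
    have h3 := (Prod.mk.inj h2).1
    have h4 := (Prod.mk.inj h2).2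
    exact Prod.ext (finProdFinEquiv.symm.injective (Prod.ext h1 h3)) h4
  obtain ⟨A, hA⟩ : ∃ A : Fin (4 * (k + 1)) → Fin K → ℕ, A = fun g i => H (E (g, i)).1 (E (g, i)).2 := ⟨_, rfl⟩
  have hA' : ∀ g i, A g i = H (E (g, i)).1 (E (g, i)).2 := fun g i => by rw [hA]
  have hAinj : Function.Injective (fun y : Fin (4 * (k + 1)) × Fin K => A y.1 y.2) := by
    intro z z' h
    have h1 : A z.1 z.2 = A z'.1 z'.2 := h
    rw [hA', hA'] at h1
    exact hEinj (hinj h1)
  have hAY : ∀ g i, A g i ≤ Y := fun g i => by rw [hA']; exact hAY _ _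
  set N : ℕ := P * Y + 2 * P with hN
  have hidx : ∀ g i, P + P * A g i < N := by
    intro g i
    have h1 := Nat.mul_le_mul_left P (hAY g i)
    omega
  set idx : Fin (4 * (k + 1)) → Fin K → Fin N := fun g i => ⟨P + P * A g i, hidx g i⟩ with hidxdef
  have hidxinj : Function.Injective (fun y : Fin (4 * (k + 1)) × Fin K => idx y.1 y.2) := by
    rintro ⟨g, i⟩ ⟨g', i'⟩ h
    have h1 : P + P * A g i = P + P * A g' i' := congrArg Fin.val h
    have h2 : A g i = A g' i' := Nat.eq_of_mul_eq_mul_left hP (by omega)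
    exact hAinj h2
  have hloc : ∀ p : ℕ, p.Prime → ∃ n : ℕ, ∀ g i, ¬ (p : ℤ) ∣
      (q : ℤ) * n + ((a + (q - 1) * P + (idx g i : ℕ) : ℕ) : ℤ) := by
    intro p hp
    have hform : ∀ (n : ℕ) g i, q * n + (a + (q - 1) * P + (idx g i : ℕ)) =
        (q * n + a) + P * (q + A g i) := by
      intro n g i
      show q * n + (a + (q - 1) * P + (P + P * A g i)) = _
      obtain ⟨q', rfl⟩ := Nat.exists_eq_add_of_le hq
      rw [Nat.add_sub_cancel_left]
      ring
    by_cases hpP : p ∣ P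
    · by_cases hpq : p ∣ q
      · refine ⟨0, fun g i hd => ?_⟩
        have h1 : p ∣ q * 0 + (a + (q - 1) * P + (idx g i : ℕ)) := by exact_mod_cast hd
        rw [hform, mul_zero, zero_add] at h1
        have h2 := (Nat.dvd_add_left (hpP.mul_right _)).1 h1
        have h3 := Nat.dvd_gcd h2 hpq
        rw [haq] at h3
        exact hp.one_lt.ne' (Nat.dvd_one.1 h3)
      · obtain ⟨n, hn⟩ := avoid hp hpq {0} (fun _ => a) (by simpa using hp.one_lt)
        refine ⟨n, fun g i hd => ?_⟩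
        have h1 : p ∣ q * n + (a + (q - 1) * P + (idx g i : ℕ)) := by exact_mod_cast hd
        rw [hform] at h1
        exact hn 0 (mem_singleton_self _) ((Nat.dvd_add_left (hpP.mul_right _)).1 h1)
    · have hpq : ¬ p ∣ q := fun h => hpP (h.trans hqP)
      obtain ⟨n₀, hn₀⟩ := hAdm p hp hpP
      obtain ⟨n, hn⟩ := solve hp hpq ((P : ℤ) * n₀ - (a + P * q))
      refine ⟨n, fun g i hd => hn₀ (E (g, i)).1 (E (g, i)).2 ?_⟩
      rw [← hA']
      have h1 : ((q : ℤ) * n + ((a + (q - 1) * P + (idx g i : ℕ) : ℕ) : ℤ)) =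
          ((q : ℤ) * n - ((P : ℤ) * n₀ - (a + P * q))) + (P : ℤ) * (n₀ + A g i) := by
        have h2 : (((q * n + (a + (q - 1) * P + (idx g i : ℕ)) : ℕ)) : ℤ) =
            (((q * n + a) + P * (q + A g i) : ℕ) : ℤ) := by rw [hform]
        push_cast at h2 ⊢
        linarith
      rw [h1] at hd
      have h2 := (dvd_add_right hn).1 hd
      rcases (Nat.prime_iff_prime_int.1 hp).dvd_or_dvd h2 with h3 | h3
      · exact absurd (by exact_mod_cast h3) hpP
      · exact h3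
  have hev := htr (ι := Fin N) (fun _ => (q : ℤ)) (fun i => ((a + (q - 1) * P + (i : ℕ) : ℕ) : ℤ))
    (fun _ => by exact_mod_cast hq) (by
      intro i j hij h
      have hq0 : (q : ℤ) ≠ 0 := by exact_mod_cast (by omega : q ≠ 0)
      have h1 := mul_left_cancel₀ hq0 h
      apply hij
      apply Fin.ext
      have h2 : a + (q - 1) * P + (j : ℕ) = a + (q - 1) * P + (i : ℕ) := by exact_mod_cast h1
      omega) (4 * (k + 1)) le_rfl idx hidxinj (by exact_mod_cast hloc)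
  set ν : ℕ := a + q * P + P * Y with hν
  have hq1 : (1 : ℝ) ≤ q := by exact_mod_cast hq
  have ht : Tendsto (fun x : ℝ => (x - ν) / q) atTop atTop :=
    (tendsto_atTop_add_const_right _ _ tendsto_id).atTop_div_const (by positivity)
  filter_upwards [ht.eventually hev, log_shift ν q (Nat.cast_nonneg _) hq1 C] with x hx hxs
  obtain ⟨S, c, T, hS, hST, hTA, hcnt⟩ := hx
  have hS2 : (k + 1) + 1 ≤ S.card := by omega
  obtain ⟨γ₀', hγ₀', γ₁', hγ₁', hlt'⟩ := two_groups S hS2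
  obtain ⟨γ₀, hγ₀, γ₁, hγ₁, hne, hltpo⟩ : ∃ γ₀ ∈ S, ∃ γ₁ ∈ S, grp γ₀ ≠ grp γ₁ ∧
      A γ₀ (c γ₀) < A γ₁ (c γ₁) := by
    have h1 : A γ₀' (c γ₀') ≠ A γ₁' (c γ₁') := by
      intro h
      have h2 := (Prod.mk.inj (hAinj (a₁ := (γ₀', c γ₀')) (a₂ := (γ₁', c γ₁')) h)).1
      rw [h2] at hlt'
      exact lt_irrefl _ hlt'
    rcases lt_or_gt_of_ne h1 with h | h
    · exact ⟨γ₀', hγ₀', γ₁', hγ₁', hlt'.ne, h⟩
    · exact ⟨γ₁', hγ₁', γ₀', hγ₀', hlt'.ne', h⟩
  obtain ⟨g, hg1, hg2, hg3, hg4⟩ := ext_tuple k S hS2 γ₀ γ₁ hγ₀ hγ₁ (fun h => by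
    rw [h] at hne
    exact hne rfl)
  obtain ⟨w, hw⟩ : ∃ w : Fin (k + 2) → ℕ, w = fun i => A (g i) (c (g i)) := ⟨_, rfl⟩
  have hw' : ∀ i, w i = A (g i) (c (g i)) := fun i => by rw [hw]
  have hwinj : Function.Injective w := by
    intro i j h
    rw [hw', hw'] at h
    exact hg1 (Prod.mk.inj (hAinj (a₁ := (g i, c (g i))) (a₂ := (g j, c (g j))) h)).1
  have hw0 : w 0 = A γ₀ (c γ₀) := by rw [hw', hg3]
  have hw1 : w 1 = A γ₁ (c γ₁) := by rw [hw', hg4]
  have hw01 : w 0 < w 1 := by rw [hw0, hw1]; exact hltpo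
  have hwY : ∀ i, w i ≤ Y := fun i => by rw [hw']; exact hAY _ _
  have hwT : ∀ i, idx (g i) (c (g i)) ∈ T := fun i => hST _ (hg2 i)
  refine ⟨grp γ₀, grp γ₁, (E (γ₀, c γ₀)).2, (E (γ₁, c γ₁)).2, hne, ?_, ?_⟩
  · rw [← hE1 (γ₀, c γ₀), ← hE1 (γ₁, c γ₁), ← hA', ← hA']
    exact hltpo
  rw [← hE1 (γ₀, c γ₀), ← hE1 (γ₁, c γ₁), ← hA', ← hA', ← hw0, ← hw1]
  refine ⟨fun i => (w i.succ.succ : ℤ) - w 0, ?_, ?_, ?_⟩
  · intro i j hij
    have h3 : (w i.succ.succ : ℤ) = w j.succ.succ := by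
      have h4 : (w i.succ.succ : ℤ) - w 0 = (w j.succ.succ : ℤ) - w 0 := hij
      linarith
    exact Fin.succ_injective _ (Fin.succ_injective _ (hwinj (by exact_mod_cast h3)))
  · intro i
    refine ⟨fun h3 => ?_, fun h3 => ?_, ?_⟩
    · have h3' : (w i.succ.succ : ℤ) - w 0 = 0 := h3
      have h4 : w i.succ.succ = w 0 := by
        have : (w i.succ.succ : ℤ) = w 0 := by linarith
        exact_mod_cast this
      exact Fin.succ_ne_zero _ (hwinj h4)
    · have h3' : (w i.succ.succ : ℤ) - w 0 = ((w 1 - w 0 : ℕ) : ℤ) := h3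
      rw [Nat.cast_sub hw01.le] at h3'
      have h4 : w i.succ.succ = w 1 := by
        have : (w i.succ.succ : ℤ) = w 1 := by linarith
        exact_mod_cast this
      have h5 := hwinj h4
      rw [← Fin.succ_zero_eq_one] at h5
      exact Fin.succ_ne_zero _ (Fin.succ_injective _ h5)
    · have h1 : (w i.succ.succ : ℤ) ≤ Y := by exact_mod_cast hwY _
      have h2 : (w 0 : ℤ) ≤ Y := by exact_mod_cast hwY _
      have h3 : (0 : ℤ) ≤ w i.succ.succ := Int.natCast_nonneg _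
      have h4 : (0 : ℤ) ≤ w 0 := Int.natCast_nonneg _
      show |(w i.succ.succ : ℤ) - w 0| ≤ Y
      rw [abs_le]
      constructor <;> linarith
  -- counting
  refine hxs.trans (hcnt.trans (Nat.cast_le.2 ?_))
  have hform : ∀ (n i : ℕ), ((q : ℤ) * (n : ℤ) + ((a + (q - 1) * P + i : ℕ) : ℤ)).natAbs =
      q * n + (a + (q - 1) * P + i) := by
    intro n i
    have : (q : ℤ) * (n : ℤ) + ((a + (q - 1) * P + i : ℕ) : ℤ) =
      ((q * n + (a + (q - 1) * P + i) : ℕ) : ℤ) := by push_cast; ring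
    rw [this, Int.natAbs_natCast]
  have hqP' : ∀ y, a + (q - 1) * P + (P + P * y) = a + q * P + P * y := by
    intro y
    obtain ⟨q', rfl⟩ := Nat.exists_eq_add_of_le hq
    rw [Nat.add_sub_cancel_left]
    ring
  refine Set.ncard_le_ncard_of_injOn (fun n => q * n + (a + (q - 1) * P + (P + P * w 0))) ?_ ?_
    ((Set.finite_le_nat ⌊x⌋₊).subset fun p hp => Nat.le_floor hp.1)
  · rintro n ⟨hn1, hn2⟩
    have hprime : ∀ i : Fin N, ((q * n + (a + (q - 1) * P + (i : ℕ))).Prime ↔ i ∈ T) := by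
      intro i
      have h1 := hn2 i
      rw [hform] at h1
      exact h1
    have hpw : ∀ j, (q * n + (a + (q - 1) * P + (P + P * w j))).Prime := by
      intro j
      have h1 := (hprime (idx (g j) (c (g j)))).2 (hwT j)
      rw [hw']
      exact h1
    have hval : ∀ j, ((q * n + (a + (q - 1) * P + (P + P * w j)) : ℕ) : ℤ) =
        ((q * n + (a + (q - 1) * P + (P + P * w 0)) : ℕ) : ℤ) + P * ((w j : ℤ) - w 0) := by
      intro j
      push_cast
      ring
    refine ⟨?_, ?_, hpw 0, ?_, ?_, ?_⟩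
    · show ((q * n + (a + (q - 1) * P + (P + P * w 0)) : ℕ) : ℝ) ≤ x
      rw [hqP']
      have h1 : (n : ℝ) ≤ (x - ν) / q := hn1
      rw [le_div_iff₀ (by linarith)] at h1
      have h2 : a + q * P + P * w 0 ≤ ν := by
        have := Nat.mul_le_mul_left P (hwY 0)
        omega
      have h3 : ((a + q * P + P * w 0 : ℕ) : ℝ) ≤ (ν : ℝ) := by exact_mod_cast h2
      push_cast at h3 ⊢
      nlinarith
    · show q * n + (a + (q - 1) * P + (P + P * w 0)) ≡ a [MOD q]
      rw [hqP']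
      have h1 : q * n + (a + q * P + P * w 0) = a + (q * (n + P) + P * w 0) := by ring
      rw [h1]
      have h2 : q ∣ q * (n + P) + P * w 0 := dvd_add (dvd_mul_right _ _) (hqP.mul_right _)
      have h3 := Nat.ModEq.add_left a ((Nat.modEq_zero_iff_dvd).2 h2)
      rwa [add_zero] at h3
    · have h1 := hpw 1
      have h2 : q * n + (a + (q - 1) * P + (P + P * w 0)) + P * (w 1 - w 0) =
          q * n + (a + (q - 1) * P + (P + P * w 1)) := by
        rw [Nat.mul_sub]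
        have : P * w 0 ≤ P * w 1 := Nat.mul_le_mul_left _ hw01.le
        omega
      show (q * n + (a + (q - 1) * P + (P + P * w 0)) + P * (w 1 - w 0)).Prime
      rw [h2]
      exact h1
    · intro i
      have h1 := hpw i.succ.succ
      have h2 := hval i.succ.succ
      show (((q * n + (a + (q - 1) * P + (P + P * w 0)) : ℕ) : ℤ) + P * ((w i.succ.succ : ℤ) - w 0)).toNat.Prime
      rw [← h2, Int.toNat_natCast]
      exact h1
    · intro r hr s hs hrs
      obtain ⟨j, hj⟩ : ∃ j, s = (w j : ℤ) - w 0 := by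
        rcases hs with h | h | ⟨i, h⟩
        · exact ⟨0, by rw [h]; ring⟩
        · refine ⟨1, ?_⟩
          rw [h, Nat.cast_sub hw01.le]
        · exact ⟨i.succ.succ, h⟩
      rw [hj, ← hval j] at hrs ⊢
      obtain ⟨b₀, hb₀⟩ : ∃ b₀, b₀ = q * n + (a + (q - 1) * P) := ⟨_, rfl⟩
      have e1 : q * n + (a + (q - 1) * P + (P + P * w j)) = b₀ + (P + P * w j) := by rw [hb₀]; ring
      rw [e1] at hrs ⊢
      have hb := abs_lt.1 hrs
      push_cast at hb
      have hwj := Nat.mul_le_mul_left P (hwY j)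
      obtain ⟨i, hi⟩ : ∃ i : ℕ, r = b₀ + i := by
        refine Nat.exists_eq_add_of_le ?_
        have h5 : (b₀ : ℤ) ≤ r := by
          have h6 : (0 : ℤ) ≤ P * w j := by positivity
          linarith [hb.1]
        exact_mod_cast h5
      rw [hi] at hb hr
      push_cast at hb
      have hi1 : (i : ℤ) < P + P * w j + P := by linarith [hb.2]
      have hi2 : (P : ℤ) * w j < i := by linarith [hb.1]
      have hi1' : i < P + P * w j + P := by exact_mod_cast hi1
      have hi2' : P * w j < i := by exact_mod_cast hi2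
      have hiN : i < N := by omega
      have hiT := (hprime ⟨i, hiN⟩).1 (by
        rw [hb₀] at hr
        show (q * n + (a + (q - 1) * P + i)).Prime
        have e2 : q * n + (a + (q - 1) * P) + i = q * n + (a + (q - 1) * P + i) := by ring
        rw [← e2]
        exact hr)
      obtain ⟨g₃, k₃, hi3⟩ := hTA _ hiT
      have hi4 : P + P * A g₃ k₃ = i := congrArg Fin.val hi3
      have h7 : A g₃ k₃ = w j := by
        have h8 : P * A g₃ k₃ < P * (w j + 1) := by rw [mul_add, mul_one]; omega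
        have h9 : P * w j < P * (A g₃ k₃ + 1) := by rw [mul_add, mul_one]; omega
        have h10 := lt_of_mul_lt_mul_left h8 (Nat.zero_le _)
        have h11 := lt_of_mul_lt_mul_left h9 (Nat.zero_le _)
        omega
      rw [hi, ← hi4, h7]
  · intro n _ n' _ h
    have h1 : q * n + (a + (q - 1) * P + (P + P * w 0)) = q * n' + (a + (q - 1) * P + (P + P * w 0)) := h
    exact Nat.eq_of_mul_eq_mul_left (by omega : 0 < q) (by omega)

/-- **every multiple of `6`, three extendable differences, at every scale** -/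
theorem linear (k : ℕ) : ∃ B : ℕ, ∀ R : ℕ, ∃ C : ℕ, ∀ P q a : ℕ, 0 < P → 2 ∣ P → 1 ≤ q → q ∣ P → a.Coprime q →
    ∀ t : ℕ, 6 ∣ t → 1 ≤ t → ∀ᶠ x : ℝ in atTop, ∃ g₁ g₂ g₃, g₁ ∈ GE k B q a P (C * t) x ∧
      g₂ ∈ GE k B q a P (C * t) x ∧ g₃ ∈ GE k B q a P (C * t) x ∧
      (R * t < g₁ ∧ g₁ ≤ C * t) ∧ (R * t < g₂ ∧ g₂ ≤ C * t) ∧ (R * t < g₃ ∧ g₃ ≤ C * t) ∧
      t + g₃ = g₁ + g₂ := by
  classical
  obtain ⟨K, B, hK, hc⟩ := c4 k
  refine ⟨B, fun R => ?_⟩
  obtain ⟨B', Y, hBY⟩ := UF.diff ((k + 1) * K) (6 * R)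
  refine ⟨max B' Y, fun P q a hP h2 hq hqP haq t h6 ht => ?_⟩
  obtain ⟨d, hd⟩ := h6
  have hd1 : 1 ≤ d := by omega
  have hdt : d ≤ t := by omega
  -- the classes, dilated by `d`
  have hev : ∀ᶠ x : ℝ in atTop, UF.F4 {g | d * g ∈ GE k B q a P (d * Y) x} ((k + 1) * K) Y := by
    have h3 : ∀ᶠ x : ℝ in atTop, ∀ H ∈ Fintype.piFinset (fun _ : Fin 4 => Fintype.piFinset
        (fun _ : Fin ((k + 1) * K) => Finset.range (Y + 1))), AdmN 2 H →
        ∃ g g' i i', g ≠ g' ∧ H g i < H g' i' ∧ H g' i' - H g i ∈ {g | d * g ∈ GE k B q a P (d * Y) x} := by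
      rw [eventually_all_finset]
      intro H hHm
      by_cases hH : AdmN 2 H
      · have hHY : ∀ g i, H g i ≤ Y := by
          intro g i
          rw [Fintype.mem_piFinset] at hHm
          have h4 := hHm g
          rw [Fintype.mem_piFinset] at h4
          exact Nat.le_of_lt_succ (Finset.mem_range.1 (h4 i))
        refine (hc P q a hP hq hqP haq (d * Y) (fun g i => d * H g i)
          (UF.adm_mul (UF.adm_two h2 hH) d hd1) (fun g i => Nat.mul_le_mul_left _ (hHY g i))).mono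
          fun x hx _ => ?_
        obtain ⟨g, g', i, i', h4, h5, h6⟩ := hx
        refine ⟨g, g', i, i', h4, lt_of_mul_lt_mul_left h5 (Nat.zero_le _), ?_⟩
        show d * (H g' i' - H g i) ∈ GE k B q a P (d * Y) x
        rw [Nat.mul_sub]
        exact h6
      · exact Eventually.of_forall fun x h' => absurd h' hH
    filter_upwards [h3] with x hx H hH hY
    refine hx H ?_ hH
    rw [Fintype.mem_piFinset]
    intro g
    rw [Fintype.mem_piFinset]
    intro i
    exact Finset.mem_range.2 (Nat.lt_succ_of_le (hY g i))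
  filter_upwards [hev] with x hx
  obtain ⟨g₁, g₂, g₃, h1, h2, h3, h4, h5, h6, h7⟩ := hBY _ hx
  have key : ∀ g, 6 * R < g → g ≤ B' → R * t < d * g ∧ d * g ≤ max B' Y * t := by
    intro g h8 h9
    constructor
    · have h10 := Nat.mul_lt_mul_of_pos_left h8 hd1
      have e : d * (6 * R) = R * t := by rw [hd]; ring
      rw [e] at h10
      exact h10
    · calc d * g ≤ d * B' := Nat.mul_le_mul_left _ h9
        _ = B' * d := mul_comm _ _
        _ ≤ max B' Y * t := Nat.mul_le_mul (le_max_left _ _) hdt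
  have hmem : ∀ g : ℕ, g ∈ {g : ℕ | d * g ∈ GE k B q a P (d * Y) x} →
      d * g ∈ GE k B q a P (max B' Y * t) x := by
    rintro g ⟨τ, hτ1, hτ2, hτ3⟩
    refine ⟨τ, hτ1, fun i => ⟨(hτ2 i).1, (hτ2 i).2.1, (hτ2 i).2.2.trans ?_⟩, hτ3⟩
    have : d * Y ≤ max B' Y * t := by
      rw [mul_comm]
      exact Nat.mul_le_mul (le_max_right _ _) hdt
    exact_mod_cast this
  refine ⟨d * g₁, d * g₂, d * g₃, hmem _ h1, hmem _ h2, hmem _ h3, key g₁ h4.1 h4.2, key g₂ h5.1 h5.2,
    key g₃ h6.1 h6.2, ?_⟩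
  rw [← Nat.mul_add, ← h7, hd]
  ring

end Pool.Agent.U455.TUPE
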