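import Mathlib
import Pool.Agent.U455.SQS
import Pool.Agent.U455.KTW

/-!
# Popular differences of dense sets of primes, uniformly in the modulus
-/

set_option autoImplicit false
set_option maxHeartbeats 4000000

namespace Pool.Agent.U455.UQM

open Finset Filter Topology
open Pool.Agent.H387R2.Uni (CT nuT CT_nonneg)
open Pool.Agent.U455.SQS (ff fy one_le_fac ff_le short_mom CT_pair_le)

lemma ff_totient (m : ℕ) : ff m * (Nat.totient m : ℝ) = m := by
  have h1 : (Nat.totient m : ℝ) = m * ∏ p ∈ m.primeFactors, (1 - ((p : ℝ))⁻¹) := by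
    have h := Nat.totient_eq_mul_prod_factors m
    have h' := congrArg (fun x : ℚ => (x : ℝ)) h
    push_cast at h'
    exact h'
  rw [h1]
  have h2 : ff m * ∏ p ∈ m.primeFactors, (1 - ((p : ℝ))⁻¹) = 1 := by
    unfold ff
    rw [← prod_mul_distrib]
    apply prod_eq_one
    intro p hp
    have hp2 : (2 : ℝ) ≤ p := by exact_mod_cast (Nat.mem_primeFactors.1 hp).1.two_le
    have h3 : (p : ℝ) - 1 ≠ 0 := by linarith
    have h4 : (p : ℝ) ≠ 0 := by linarith
    field_simp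
  calc ff m * (m * ∏ p ∈ m.primeFactors, (1 - ((p : ℝ))⁻¹)) =
        m * (ff m * ∏ p ∈ m.primeFactors, (1 - ((p : ℝ))⁻¹)) := by ring
    _ = m := by rw [h2, mul_one]

lemma one_le_prod (A : Finset ℕ) (hA : ∀ p ∈ A, p.Prime) : (1 : ℝ) ≤ ∏ p ∈ A, ((p : ℝ) / (p - 1)) := by
  have h := prod_le_prod_of_subset_of_one_le (f := fun p : ℕ => (p : ℝ) / (p - 1)) (empty_subset A)
    (fun i hi => absurd hi (notMem_empty i)) (fun p hp _ => one_le_fac (hA p hp))
  rwa [prod_empty] at h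

lemma one_le_ff (m : ℕ) : 1 ≤ ff m := one_le_prod _ fun _ hp => (Nat.mem_primeFactors.1 hp).1

lemma ff_mul_le {a b : ℕ} (ha : a ≠ 0) (hb : b ≠ 0) : ff (a * b) ≤ ff a * ff b := by
  unfold ff
  rw [Nat.primeFactors_mul ha hb, ← prod_union_inter]
  have h1 : (1 : ℝ) ≤ ∏ p ∈ a.primeFactors ∩ b.primeFactors, ((p : ℝ) / (p - 1)) :=
    one_le_prod _ fun _ hp => (Nat.mem_primeFactors.1 (mem_inter.1 hp).1).1
  have h2 : (0 : ℝ) ≤ ∏ p ∈ a.primeFactors ∪ b.primeFactors, ((p : ℝ) / (p - 1)) := by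
    refine zero_le_one.trans (one_le_prod _ fun p hp => ?_)
    rcases mem_union.1 hp with h | h
    · exact (Nat.mem_primeFactors.1 h).1
    · exact (Nat.mem_primeFactors.1 h).1
  exact le_mul_of_one_le_right h2 h1

lemma ff_le_mul {a b : ℕ} (ha : a ≠ 0) (hb : b ≠ 0) : ff b ≤ ff (a * b) := by
  unfold ff
  rw [Nat.primeFactors_mul ha hb]
  apply prod_le_prod_of_subset_of_one_le subset_union_right
  · intro p hp
    exact zero_le_one.trans (one_le_fac (Nat.mem_primeFactors.1 hp).1)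
  · intro p hp _
    rcases mem_union.1 hp with h | h
    · exact one_le_fac (Nat.mem_primeFactors.1 h).1
    · exact one_le_fac (Nat.mem_primeFactors.1 h).1

/-- second moment -/
theorem ff_mom : ∃ C : ℝ, 0 < C ∧ ∃ L₀ : ℕ, ∀ L : ℕ, L₀ ≤ L → ∑ k ∈ Icc 1 L, ff k ^ 2 ≤ C * L := by
  have tn : Tendsto (fun N : ℕ => (N : ℝ)) atTop atTop := tendsto_natCast_atTop_atTop
  have hev : ∀ᶠ N : ℕ in atTop, (6 * Real.log (N : ℝ)) ^ 5 ≤ (N : ℝ) := by
    have h1 : (fun x : ℝ => Real.log x ^ (5 : ℝ)) =o[atTop] (fun x : ℝ => x ^ (1 : ℝ)) :=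
      isLittleO_log_rpow_rpow_atTop 5 one_pos
    have h2 := h1.bound (show (0 : ℝ) < 1 / 6 ^ 5 by positivity)
    filter_upwards [tn.eventually h2] with N hN
    have hN0 : (0 : ℝ) ≤ (N : ℝ) := Nat.cast_nonneg _
    have hlog : 0 ≤ Real.log (N : ℝ) := Real.log_natCast_nonneg _
    rw [Real.norm_of_nonneg (by positivity), Real.norm_of_nonneg (by positivity),
      show (5 : ℝ) = ((5 : ℕ) : ℝ) by norm_num, Real.rpow_natCast, Real.rpow_one] at hN
    rw [mul_pow]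
    calc (6 : ℝ) ^ 5 * Real.log (N : ℝ) ^ 5 ≤ 6 ^ 5 * (1 / 6 ^ 5 * (N : ℝ)) := by gcongr
      _ = _ := by ring
  have hev2 : ∀ᶠ N : ℕ in atTop, 2 ≤ Real.log (N : ℝ) :=
    (Real.tendsto_log_atTop.comp tn).eventually_ge_atTop 2
  obtain ⟨X₂, hX₂⟩ := eventually_atTop.1 (hev.and hev2)
  refine ⟨9 * (4 * (Real.exp 5 + 1)), by positivity, max X₂ 1, fun L hL => ?_⟩
  obtain ⟨hb1, hb2⟩ := hX₂ L ((le_max_left _ _).trans hL)
  have hL1 : 1 ≤ L := (le_max_right _ _).trans hL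
  have hLR : (1 : ℝ) ≤ L := by exact_mod_cast hL1
  obtain ⟨y, hy⟩ : ∃ y, y = Nat.log 2 (2 * L) := ⟨_, rfl⟩
  have hy1 : 1 ≤ y := by
    rw [hy]
    apply Nat.le_log_of_pow_le (by norm_num)
    omega
  have hy5 : (y + 1) ^ 5 ≤ L := by
    have h3 : (y : ℝ) ≤ 5 * Real.log (L : ℝ) := by
      have h4 : (y : ℝ) ≤ Real.logb 2 ((2 * L : ℕ) : ℝ) := by
        rw [hy]
        have := Real.natLog_le_logb (2 * L) 2
        exact_mod_cast this
      have h5 : Real.logb 2 ((2 * L : ℕ) : ℝ) = (Real.log 2 + Real.log (L : ℝ)) / Real.log 2 := by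
        rw [Real.logb, Nat.cast_mul, Real.log_mul (by norm_num) (by linarith)]
        norm_num
      rw [h5] at h4
      refine h4.trans ?_
      have h6 : 0.6 < Real.log 2 := by
        have := Real.log_two_gt_d9
        linarith
      have h7 : Real.log 2 < 0.7 := by
        have := Real.log_two_lt_d9
        linarith
      rw [div_le_iff₀ (by linarith)]
      nlinarith
    have h4 : ((y : ℝ) + 1) ^ 5 ≤ L := by
      calc ((y : ℝ) + 1) ^ 5 ≤ (6 * Real.log (L : ℝ)) ^ 5 := by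
            apply pow_le_pow_left₀ (by positivity)
            linarith
        _ ≤ _ := hb1
    exact_mod_cast h4
  have h3 := short_mom y L 0 hL1 hy5
  calc ∑ k ∈ Icc 1 L, ff k ^ 2 ≤ ∑ k ∈ Icc 1 L, 9 * fy y (0 + 2 * k) ^ 2 := by
        apply sum_le_sum
        intro k hk
        rw [mem_Icc] at hk
        have h4 := ff_le (2 * k) y (by omega) hy1 (by
          rw [hy]
          apply Nat.log_mono_right
          omega)
        have h5 : ff k ≤ ff (2 * k) := ff_le_mul (by norm_num) (by omega)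
        have h6 : 0 ≤ ff k := zero_le_one.trans (one_le_ff k)
        rw [zero_add]
        calc ff k ^ 2 ≤ (3 * fy y (2 * k)) ^ 2 := pow_le_pow_left₀ h6 (h5.trans h4) 2
          _ = 9 * fy y (2 * k) ^ 2 := by ring
    _ = 9 * ∑ k ∈ Icc 1 L, fy y (0 + 2 * k) ^ 2 := by rw [mul_sum]
    _ ≤ 9 * (4 * (Real.exp 5 + 1) * L) := by gcongr
    _ = _ := by ring

/-- pairs of elements of `Q`, all prime to `m`, at distance `m k`, `k ≤ L` -/
theorem cellsU (Q : Finset ℕ) (a H m L : ℕ) (hQ : Q ⊆ Ioc a (a + H)) (hcop : ∀ p ∈ Q, Nat.Coprime m p) (hm : 1 ≤ m)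
    (hL : 1 ≤ L) (hW : m * L ≤ H) (hbig : 4 * (H : ℝ) ≤ Q.card * L) :
    (Q.card : ℝ) ^ 2 * L * ff m / (8 * H) ≤ ∑ k ∈ Icc 1 L, ((Q.filter (fun p => p + m * k ∈ Q)).card : ℝ) := by
  classical
  obtain ⟨W, hWd⟩ : ∃ W, W = m * L := ⟨_, rfl⟩
  have hW1 : 1 ≤ W := by rw [hWd]; exact Nat.mul_pos hm hL
  have hH1 : 1 ≤ H := by omega
  obtain ⟨f, hf⟩ : ∃ f : ℕ → ℕ × ℕ, f = fun p => ((p - a - 1) / W, p % m) := ⟨_, rfl⟩
  obtain ⟨U, hU⟩ : ∃ U : Finset ℕ, U = (range m).filter (Nat.Coprime m) := ⟨_, rfl⟩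
  have hUc : U.card = m.totient := by rw [hU, Nat.totient_eq_card_coprime]
  obtain ⟨S, hS⟩ : ∃ S : Finset (ℕ × ℕ), S = range (H / W + 1) ×ˢ U := ⟨_, rfl⟩
  have hfS : ∀ p ∈ Q, f p ∈ S := by
    intro p hp
    have h1 := mem_Ioc.1 (hQ hp)
    rw [hf, hS, mem_product, mem_range, hU, mem_filter, mem_range]
    refine ⟨?_, Nat.mod_lt _ (by omega), ?_⟩
    · show (p - a - 1) / W < H / W + 1
      have := Nat.div_le_div_right (c := W) (show p - a - 1 ≤ H by omega)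
      omega
    · show Nat.Coprime m (p % m)
      have h2 : Nat.gcd m (p % m) = Nat.gcd m p := by
        rw [Nat.gcd_comm m (p % m), ← Nat.gcd_rec]
      show Nat.gcd m (p % m) = 1
      rw [h2]
      exact hcop p hp
  have hSc : S.card * (L * m) ≤ 2 * H * m.totient := by
    rw [hS, card_product, card_range, hUc]
    have h1 : (H / W + 1) * m.totient * (L * m) = ((H / W) * W + W) * m.totient := by rw [hWd]; ring
    rw [h1]
    have h2 := Nat.div_mul_le_self H W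
    rw [← hWd] at hW
    apply Nat.mul_le_mul_right
    omega
  -- ordered pairs in the same cell
  obtain ⟨n, hn⟩ : ∃ n : ℕ × ℕ → ℕ, n = fun c => (Q.filter (fun p => f p = c)).card := ⟨_, rfl⟩
  obtain ⟨P, hP⟩ : ∃ P : Finset (ℕ × ℕ), P = (Q ×ˢ Q).filter (fun x => f x.1 = f x.2) := ⟨_, rfl⟩
  have hPc : P.card = ∑ c ∈ S, n c ^ 2 := by
    rw [card_eq_sum_card_fiberwise (f := fun x => f x.1) (t := S)
      (fun x hx => by
        rw [hP, mem_coe, mem_filter, mem_product] at hx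
        exact hfS _ hx.1.1)]
    apply sum_congr rfl
    intro c _
    rw [hn]
    show _ = (Q.filter (fun p => f p = c)).card ^ 2
    rw [sq, ← card_product]
    congr 1
    ext x
    rw [mem_filter, hP, mem_filter, mem_product, mem_product, mem_filter, mem_filter]
    constructor
    · rintro ⟨⟨⟨h1, h2⟩, h3⟩, h4⟩
      exact ⟨⟨h1, h4⟩, h2, by rw [← h3, h4]⟩
    · rintro ⟨⟨h1, h2⟩, h3, h4⟩
      exact ⟨⟨⟨h1, h3⟩, by rw [h2, h4]⟩, h2⟩
  have hQn : Q.card = ∑ c ∈ S, n c := by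
    rw [hn]
    exact card_eq_sum_card_fiberwise (f := f) (t := S) (fun p hp => hfS p hp)
  -- increasing pairs
  obtain ⟨P', hP'⟩ : ∃ P' : Finset (ℕ × ℕ), P' = P.filter (fun x => x.1 < x.2) := ⟨_, rfl⟩
  have hPP' : P.card ≤ Q.card + 2 * P'.card := by
    have h1 : P ⊆ (Q.image (fun p => (p, p)) ∪ P') ∪ P'.image (fun x => (x.2, x.1)) := by
      intro x hx
      have hx0 := hx
      rw [hP, mem_filter, mem_product] at hx
      obtain ⟨⟨h2, h3⟩, h4⟩ := hx
      rw [mem_union, mem_union]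
      rcases lt_trichotomy x.1 x.2 with h5 | h5 | h5
      · refine Or.inl (Or.inr ?_)
        rw [hP', mem_filter]
        exact ⟨hx0, h5⟩
      · refine Or.inl (Or.inl ?_)
        rw [mem_image]
        exact ⟨x.1, h2, Prod.ext rfl h5⟩
      · refine Or.inr ?_
        rw [mem_image]
        refine ⟨(x.2, x.1), ?_, rfl⟩
        rw [hP', mem_filter, hP, mem_filter, mem_product]
        exact ⟨⟨⟨h3, h2⟩, h4.symm⟩, h5⟩
    have h2 := card_le_card h1
    have h3 := card_union_le (Q.image (fun p => (p, p)) ∪ P') (P'.image (fun x => (x.2, x.1)))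
    have h4 := card_union_le (Q.image (fun p => (p, p))) P'
    have h5 : (Q.image (fun p => (p, p))).card ≤ Q.card := card_image_le
    have h6 : (P'.image (fun x => (x.2, x.1))).card ≤ P'.card := card_image_le
    omega
  have hP'c : P'.card ≤ ∑ k ∈ Icc 1 L, (Q.filter (fun p => p + m * k ∈ Q)).card := by
    have hdvd : ∀ x ∈ P', m ∣ x.2 - x.1 ∧ x.2 - x.1 < W ∧ x.1 ∈ Q ∧ x.2 ∈ Q ∧ x.1 < x.2 := by
      intro x hx
      rw [hP', mem_filter, hP, mem_filter, mem_product] at hx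
      obtain ⟨⟨⟨h2, h3⟩, h4⟩, h5⟩ := hx
      rw [hf] at h4
      have h4' := Prod.mk.inj h4
      have e1 := mem_Ioc.1 (hQ h2)
      have e2 := mem_Ioc.1 (hQ h3)
      refine ⟨(Nat.modEq_iff_dvd' h5.le).1 (show x.1 ≡ x.2 [MOD m] from h4'.2), ?_, h2, h3, h5⟩
      have h6 := Nat.div_add_mod (x.1 - a - 1) W
      have h7 := Nat.div_add_mod (x.2 - a - 1) W
      have h8 := Nat.mod_lt (x.2 - a - 1) (show 0 < W by omega)
      have h9 : (x.1 - a - 1) / W = (x.2 - a - 1) / W := h4'.1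
      rw [h9] at h6
      omega
    have h1 : P'.card ≤ ((Icc 1 L).sigma (fun k => Q.filter (fun p => p + m * k ∈ Q))).card := by
      apply card_le_card_of_injOn (fun x => ⟨(x.2 - x.1) / m, x.1⟩)
      · intro x hx
        rw [mem_coe] at hx
        obtain ⟨hd, hlt, h2, h3, h5⟩ := hdvd x hx
        obtain ⟨k, hk⟩ := hd
        have hk1 : (x.2 - x.1) / m = k := by rw [hk]; exact Nat.mul_div_cancel_left _ (by omega)
        have hk2 : 1 ≤ k := by
          rcases Nat.eq_zero_or_pos k with h0 | h0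
          · subst h0; omega
          · exact h0
        have hk3 : k ≤ L := by
          rw [hk, hWd] at hlt
          exact (lt_of_mul_lt_mul_left hlt (Nat.zero_le _)).le
        rw [mem_coe, mem_sigma]
        refine ⟨?_, ?_⟩
        · show (x.2 - x.1) / m ∈ Icc 1 L
          rw [hk1, mem_Icc]
          exact ⟨hk2, hk3⟩
        · show x.1 ∈ Q.filter (fun p => p + m * ((x.2 - x.1) / m) ∈ Q)
          rw [hk1, mem_filter, ← hk, show x.1 + (x.2 - x.1) = x.2 by omega]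
          exact ⟨h2, h3⟩
      · intro x hx y hy hxy
        rw [mem_coe] at hx hy
        obtain ⟨hd, hlt, h2, h3, h5⟩ := hdvd x hx
        obtain ⟨hd', hlt', g2, g3, g5⟩ := hdvd y hy
        have hxy1 : (x.2 - x.1) / m = (y.2 - y.1) / m := congrArg Sigma.fst hxy
        have hxy2 : x.1 = y.1 := eq_of_heq (Sigma.mk.inj_iff.1 hxy).2
        have h8 : x.2 - x.1 = y.2 - y.1 := by
          rw [← Nat.div_mul_cancel hd, ← Nat.div_mul_cancel hd', hxy1]
        exact Prod.ext hxy2 (by omega)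
    rwa [card_sigma] at h1
  -- Cauchy-Schwarz
  have hCS : (Q.card : ℝ) ^ 2 ≤ S.card * (P.card : ℝ) := by
    rw [hPc, hQn]
    push_cast
    exact sq_sum_le_card_mul_sum_sq
  obtain ⟨R, hR⟩ : ∃ R : ℝ, R = ∑ k ∈ Icc 1 L, ((Q.filter (fun p => p + m * k ∈ Q)).card : ℝ) := ⟨_, rfl⟩
  rw [← hR]
  have hPR : (P.card : ℝ) ≤ Q.card + 2 * R := by
    have h1 : (P.card : ℝ) ≤ Q.card + 2 * (P'.card : ℝ) := by exact_mod_cast hPP'
    have h2 : (P'.card : ℝ) ≤ R := by rw [hR]; exact_mod_cast hP'c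
    linarith
  have hF1 := one_le_ff m
  have hm0 : (0 : ℝ) < m := by exact_mod_cast hm
  have hφ0 : (0 : ℝ) < m.totient := by exact_mod_cast Nat.totient_pos.2 hm
  have hSL : (S.card : ℝ) * L * ff m ≤ 2 * H := by
    have h1 : (S.card : ℝ) * (L * m) ≤ 2 * H * m.totient := by exact_mod_cast hSc
    have h2 := ff_totient m
    have h3 : ((S.card : ℝ) * L * ff m) * m.totient ≤ (2 * H) * m.totient := by
      calc ((S.card : ℝ) * L * ff m) * m.totient = S.card * (L * (ff m * m.totient)) := by ring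
        _ = S.card * (L * m) := by rw [h2]
        _ ≤ _ := h1
    exact le_of_mul_le_mul_right h3 hφ0
  have hH0 : (0 : ℝ) < H := by exact_mod_cast hH1
  have hL0 : (0 : ℝ) < L := by exact_mod_cast hL
  have hq0 : (0 : ℝ) ≤ Q.card := Nat.cast_nonneg _
  have hR0 : 0 ≤ R := by rw [hR]; positivity
  have h1 : (Q.card : ℝ) ^ 2 * L * ff m ≤ 2 * H * (Q.card + 2 * R) := by
    calc (Q.card : ℝ) ^ 2 * L * ff m ≤ (S.card * (P.card : ℝ)) * L * ff m := by gcongr
      _ = (S.card * (L : ℝ) * ff m) * P.card := by ring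
      _ ≤ (2 * H) * (Q.card + 2 * R) := by gcongr
  have h2 : 2 * (H : ℝ) * Q.card ≤ (Q.card : ℝ) ^ 2 * L * ff m / 2 := by
    have h3 := mul_le_mul_of_nonneg_left hbig hq0
    have h4 : (Q.card : ℝ) ^ 2 * L ≤ (Q.card : ℝ) ^ 2 * L * ff m := le_mul_of_one_le_right (by positivity) hF1
    nlinarith
  rw [div_le_iff₀ (by positivity)]
  nlinarith

open Classical in
/-- **A positive proportion of the multiples is popular, uniformly in the modulus** -/
theorem densU (δ : ℝ) (hδ : 0 < δ) : ∃ κ ρ K : ℝ, 0 < κ ∧ 0 < ρ ∧ 0 < K ∧ ∃ X₀ : ℕ,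
    ∀ a H : ℕ, X₀ ≤ H → H ≤ a → ∀ Q : Finset ℕ, Q ⊆ Ioc a (a + H) → (∀ p ∈ Q, p.Prime) →
      δ * (H / Real.log H) ≤ Q.card → ∀ q L : ℕ, 1 ≤ q → K * Real.log H ≤ L → 2 * q * L ≤ H →
      ρ * L ≤ (((Icc 1 L).filter (fun k => κ * (ff (2 * q * k) * (H / Real.log H ^ 2)) ≤
        ((Q.filter (fun p => p + 2 * q * k ∈ Q)).card : ℝ))).card : ℝ) := by
  obtain ⟨C, hC, X₁, hup⟩ := KTW.upk 2
  obtain ⟨C₃, hC₃, L₀, hmom⟩ := ff_mom
  obtain ⟨κ, hκ⟩ : ∃ κ : ℝ, κ = δ ^ 2 / 16 := ⟨_, rfl⟩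
  have hκ0 : 0 < κ := by rw [hκ]; positivity
  obtain ⟨ρ, hρ⟩ : ∃ ρ : ℝ, ρ = κ ^ 2 / (C ^ 2 * C₃) := ⟨_, rfl⟩
  have hρ0 : 0 < ρ := by rw [hρ]; positivity
  obtain ⟨B, hB⟩ : ∃ B : ℝ, B = √(2 * C₃ / ρ) := ⟨_, rfl⟩
  have hB0 : 0 < B := by rw [hB]; positivity
  have hB2 : B ^ 2 = 2 * C₃ / ρ := by rw [hB]; exact Real.sq_sqrt (by positivity)
  have hlim : Tendsto (fun H : ℕ => Real.log (H : ℝ)) atTop atTop :=
    Real.tendsto_log_atTop.comp tendsto_natCast_atTop_atTop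
  obtain ⟨X₂, hX₂⟩ := eventually_atTop.1 (hlim.eventually_ge_atTop (L₀ : ℝ))
  refine ⟨κ / B, ρ / 2, 4 / δ + 1, by positivity, by positivity, by positivity, max (max X₁ X₂) 3,
    fun a H hH hHa Q hQ hQp hQc q L hq hL hLH => ?_⟩
  have hX₁ : X₁ ≤ H := (le_max_left _ _).trans ((le_max_left _ _).trans hH)
  have hb2 := hX₂ H ((le_max_right _ _).trans ((le_max_left _ _).trans hH))
  have hH3 : 3 ≤ H := (le_max_right _ _).trans hH
  have hHR : (3 : ℝ) ≤ H := by exact_mod_cast hH3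
  have hlog1 : 1 < Real.log H := by
    rw [Real.lt_log_iff_exp_lt (by linarith)]
    have := Real.exp_one_lt_d9
    linarith
  obtain ⟨ℓ, hℓ⟩ : ∃ ℓ : ℝ, ℓ = Real.log H := ⟨_, rfl⟩
  rw [← hℓ] at hQc hL hlog1 hb2 ⊢
  have hℓ0 : 0 < ℓ := by linarith
  have hLℓ : ℓ ≤ L := by
    refine le_trans ?_ hL
    have : 0 < 4 / δ := by positivity
    nlinarith
  have hL1R : 1 < (L : ℝ) := by linarith
  have hL1 : 1 ≤ L := by
    have : (1 : ℝ) ≤ L := hL1R.le
    exact_mod_cast this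
  have hLL₀ : L₀ ≤ L := by
    have : (L₀ : ℝ) ≤ L := hb2.trans hLℓ
    exact_mod_cast this
  have hL0 : (0 : ℝ) < L := by linarith
  have hH0 : (0 : ℝ) < H := by linarith
  have hbig : 4 * (H : ℝ) ≤ Q.card * L := by
    have h1 : δ * (H / ℓ) * ((4 / δ + 1) * ℓ) ≤ Q.card * L := mul_le_mul hQc hL (by positivity) (by positivity)
    have h2 : δ * (H / ℓ) * ((4 / δ + 1) * ℓ) = 4 * H + δ * H := by field_simp
    rw [h2] at h1
    nlinarith
  have h2q : 2 * q ≤ H := le_trans (Nat.le_mul_of_pos_right _ hL1) hLH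
  have hcell := cellsU Q a H (2 * q) L hQ (by
      intro p hp
      have h1 := mem_Ioc.1 (hQ hp)
      rw [Nat.coprime_comm, (hQp p hp).coprime_iff_not_dvd]
      intro h2
      have := Nat.le_of_dvd (by omega) h2
      omega) (by omega) hL1 hLH hbig
  obtain ⟨V, hV⟩ : ∃ V : ℝ, V = H / ℓ ^ 2 := ⟨_, rfl⟩
  rw [← hV]
  have hV0 : 0 < V := by rw [hV]; positivity
  obtain ⟨R, hR⟩ : ∃ R : ℕ → ℝ, R = fun k => ((Q.filter (fun p => p + 2 * q * k ∈ Q)).card : ℝ) := ⟨_, rfl⟩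
  have hRk : ∀ k, ((Q.filter (fun p => p + 2 * q * k ∈ Q)).card : ℝ) = R k := fun k => by rw [hR]
  simp only [hRk] at hcell ⊢
  obtain ⟨F, hF⟩ : ∃ F : ℝ, F = ff (2 * q) := ⟨_, rfl⟩
  rw [← hF] at hcell
  have hF1 : 1 ≤ F := by rw [hF]; exact one_le_ff _
  have hsum : 2 * κ * (F * V) * L ≤ ∑ k ∈ Icc 1 L, R k := by
    refine le_trans ?_ hcell
    have h1 : (δ * (H / ℓ)) ^ 2 ≤ (Q.card : ℝ) ^ 2 := pow_le_pow_left₀ (by positivity) hQc 2
    calc 2 * κ * (F * V) * L = (δ * (H / ℓ)) ^ 2 * L * F / (8 * H) := by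
          rw [hκ, hV]
          field_simp
          norm_num
      _ ≤ (Q.card : ℝ) ^ 2 * L * F / (8 * H) := by gcongr
  have hkey := RTG.pz (Icc 1 L) R ff L (F * V) C C₃ κ hL0 (by positivity) hC hC₃ hκ0 (by
      intro k hk
      rw [mem_Icc] at hk
      have hk0 : 1 ≤ 2 * q * k := Nat.mul_pos (by omega) hk.1
      have hc : ({0, 2 * q * k} : Finset ℕ).card = 2 := by
        rw [card_insert_of_notMem, card_singleton]
        rw [mem_singleton]
        omega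
      have h1 := hup a H hX₁ hHa {0, 2 * q * k} hc
      rw [← hℓ, ← hV] at h1
      have h2 : R k ≤ (((Ioc a (a + H)).filter (fun n => ∀ t ∈ ({0, 2 * q * k} : Finset ℕ), (n + t).Prime)).card : ℝ) := by
        rw [hR]
        refine Nat.cast_le.2 (card_le_card fun p hp => ?_)
        rw [mem_filter] at hp ⊢
        refine ⟨hQ hp.1, fun t ht => ?_⟩
        rw [mem_insert, mem_singleton] at ht
        rcases ht with rfl | rfl
        · rw [add_zero]; exact hQp p hp.1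
        · exact hQp _ hp.2
      have h3 := CT_pair_le (2 * q * k) hk0
      have h4 : ff (2 * q * k) ≤ F * ff k := by
        rw [hF]
        exact ff_mul_le (by omega) (by omega)
      calc R k ≤ _ := h2
        _ ≤ C * (CT {0, 2 * q * k} * V) := h1
        _ ≤ C * ((F * ff k) * V) := by
            have := h3.trans h4
            gcongr
        _ = _ := by ring) (hmom L hLL₀) (by
      rw [Nat.card_Icc, Nat.add_sub_cancel]) hsum
  rw [← hρ] at hkey
  -- the `k` with large `ff`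
  have hbad : (((Icc 1 L).filter (fun k => B < ff k)).card : ℝ) ≤ ρ / 2 * L := by
    have h1 : (((Icc 1 L).filter (fun k => B < ff k)).card : ℝ) * B ^ 2 ≤ C₃ * L := by
      refine le_trans ?_ (hmom L hLL₀)
      calc (((Icc 1 L).filter (fun k => B < ff k)).card : ℝ) * B ^ 2 =
            ∑ k ∈ (Icc 1 L).filter (fun k => B < ff k), B ^ 2 := by rw [sum_const, nsmul_eq_mul]
        _ ≤ ∑ k ∈ (Icc 1 L).filter (fun k => B < ff k), ff k ^ 2 := by
            apply sum_le_sum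
            intro k hk
            exact pow_le_pow_left₀ hB0.le (mem_filter.1 hk).2.le 2
        _ ≤ _ := sum_le_sum_of_subset_of_nonneg (filter_subset _ _) fun _ _ _ => sq_nonneg _
    rw [hB2] at h1
    have h2 : (((Icc 1 L).filter (fun k => B < ff k)).card : ℝ) * (2 * C₃ / ρ) * (ρ / (2 * C₃)) ≤
        C₃ * L * (ρ / (2 * C₃)) := mul_le_mul_of_nonneg_right h1 (by positivity)
    calc (((Icc 1 L).filter (fun k => B < ff k)).card : ℝ) =
          (((Icc 1 L).filter (fun k => B < ff k)).card : ℝ) * (2 * C₃ / ρ) * (ρ / (2 * C₃)) := by field_simp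
      _ ≤ C₃ * L * (ρ / (2 * C₃)) := h2
      _ = ρ / 2 * L := by field_simp
  have hsub : ((Icc 1 L).filter (fun k => κ * (F * V) ≤ R k)).card ≤
      ((Icc 1 L).filter (fun k => B < ff k)).card +
      ((Icc 1 L).filter (fun k => κ / B * (ff (2 * q * k) * V) ≤ R k)).card := by
    refine (card_le_card ?_).trans (card_union_le _ _)
    intro k hk
    rw [mem_filter] at hk
    rw [mem_union, mem_filter, mem_filter]
    by_cases h : B < ff k
    · exact Or.inl ⟨hk.1, h⟩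
    · refine Or.inr ⟨hk.1, le_trans ?_ hk.2⟩
      push Not at h
      have hk1 := mem_Icc.1 hk.1
      have h4 : ff (2 * q * k) ≤ F * B := by
        refine (ff_mul_le (by omega) (by omega)).trans ?_
        rw [hF]
        exact mul_le_mul_of_nonneg_left h (zero_le_one.trans (one_le_ff _))
      calc κ / B * (ff (2 * q * k) * V) ≤ κ / B * (F * B * V) := by gcongr
        _ = κ * (F * V) := by field_simp
  have hsubR : (((Icc 1 L).filter (fun k => κ * (F * V) ≤ R k)).card : ℝ) ≤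
      (((Icc 1 L).filter (fun k => B < ff k)).card : ℝ) +
      (((Icc 1 L).filter (fun k => κ / B * (ff (2 * q * k) * V) ≤ R k)).card : ℝ) := by exact_mod_cast hsub
  linarith

open Classical in
/-- **Bounded sums, uniformly in the modulus** -/
theorem main (δ : ℝ) (hδ : 0 < δ) : ∃ h M : ℕ, 1 ≤ M ∧ ∃ κ ρ K : ℝ, 0 < κ ∧ 0 < ρ ∧ 0 < K ∧ ∃ X₀ : ℕ,
    ∀ a H : ℕ, X₀ ≤ H → H ≤ a → ∀ Q : Finset ℕ, Q ⊆ Ioc a (a + H) → (∀ p ∈ Q, p.Prime) →
      δ * (H / Real.log H) ≤ Q.card → ∀ q : ℕ, 1 ≤ q →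
      (∀ L : ℕ, K * Real.log H ≤ L → 2 * q * L ≤ H →
        ρ * L ≤ (((Icc 1 L).filter (fun k => κ * (ff (2 * q * k) * (H / Real.log H ^ 2)) ≤
          ((Q.filter (fun p => p + 2 * q * k ∈ Q)).card : ℝ))).card : ℝ)) ∧
      ∀ t : ℕ, M ∣ t → K * Real.log H ≤ t → 2 * q * t ≤ H →
        ∃ l : List ℕ, l.length ≤ h ∧ l.sum = t ∧ ∀ k ∈ l, 1 ≤ k ∧
          κ * (ff (2 * q * k) * (H / Real.log H ^ 2)) ≤ ((Q.filter (fun p => p + 2 * q * k ∈ Q)).card : ℝ) := by
  obtain ⟨κ, ρ, K₁, hκ, hρ, hK₁, X₁, hdens⟩ := densU δ hδ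
  obtain ⟨D, hD⟩ : ∃ D : ℕ, 1 / ((D : ℝ) + 1) < ρ := exists_nat_one_div_lt hρ
  obtain ⟨D', hD'⟩ : ∃ D', D' = max D 1 := ⟨_, rfl⟩
  have hD1 : 1 ≤ D' := by rw [hD']; exact le_max_right _ _
  have hDρ : 1 / ((D' : ℝ) + 1) < ρ := by
    refine lt_of_le_of_lt ?_ hD
    apply one_div_le_one_div_of_le (by positivity)
    have : (D : ℝ) ≤ D' := by rw [hD']; exact_mod_cast le_max_left _ _
    linarith
  obtain ⟨h, C, N₂, hBTH⟩ := BTH.main D' hD1 ρ hDρ
  have hlim : Tendsto (fun H : ℕ => K₁ * Real.log (H : ℝ)) atTop atTop :=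
    (Real.tendsto_log_atTop.comp tendsto_natCast_atTop_atTop).const_mul_atTop hK₁
  obtain ⟨X₃, hX₃⟩ := eventually_atTop.1 (hlim.eventually_ge_atTop (max (N₂ : ℝ) 1))
  obtain ⟨K, hK⟩ : ∃ K : ℝ, K = (2 * C + 1) * K₁ := ⟨_, rfl⟩
  have hC0 : (0 : ℝ) ≤ C := Nat.cast_nonneg _
  have hKK₁ : K₁ ≤ K := by rw [hK]; nlinarith
  refine ⟨h, D'.factorial, Nat.factorial_pos _, κ, ρ, K, hκ, hρ, lt_of_lt_of_le hK₁ hKK₁, max X₁ X₃,
    fun a H hH hHa Q hQ hQp hQc q hq => ⟨fun L hL hLH => ?_, fun t hMt htK htH => ?_⟩⟩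
  · have hlog : 0 ≤ Real.log (H : ℝ) := Real.log_natCast_nonneg H
    exact hdens a H ((le_max_left _ _).trans hH) hHa Q hQ hQp hQc q L hq
      ((mul_le_mul_of_nonneg_right hKK₁ hlog).trans hL) hLH
  · have hlog : 0 ≤ Real.log (H : ℝ) := Real.log_natCast_nonneg H
    have hb := hX₃ H ((le_max_right _ _).trans hH)
    have hb1 : (N₂ : ℝ) ≤ K₁ * Real.log H := (le_max_left _ _).trans hb
    have hb2 : 1 ≤ K₁ * Real.log H := (le_max_right _ _).trans hb
    obtain ⟨N, hN⟩ : ∃ N, N = ⌈K₁ * Real.log H⌉₊ := ⟨_, rfl⟩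
    have hN1 : K₁ * Real.log H ≤ N := by rw [hN]; exact Nat.le_ceil _
    have hN2 : (N : ℝ) ≤ 2 * (K₁ * Real.log H) := by
      have : (N : ℝ) < K₁ * Real.log H + 1 := by rw [hN]; exact Nat.ceil_lt_add_one (by linarith)
      linarith
    have hN0 : N₂ ≤ N := by
      have : (N₂ : ℝ) ≤ N := hb1.trans hN1
      exact_mod_cast this
    have hCN : C * N ≤ t := by
      have h1 : ((C * N : ℕ) : ℝ) ≤ t := by
        push_cast
        calc (C : ℝ) * N ≤ C * (2 * (K₁ * Real.log H)) := mul_le_mul_of_nonneg_left hN2 hC0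
          _ ≤ K * Real.log H := by
              rw [hK]
              nlinarith [mul_nonneg hK₁.le hlog]
          _ ≤ t := htK
      exact_mod_cast h1
    obtain ⟨l, h3, h4, h5⟩ := hBTH (fun k => κ * (ff (2 * q * k) * (H / Real.log H ^ 2)) ≤
      ((Q.filter (fun p => p + 2 * q * k ∈ Q)).card : ℝ)) N t hN0 (fun L hL1 hL2 => by
        have h6 : (N : ℝ) ≤ L := by exact_mod_cast hL1
        exact hdens a H ((le_max_left _ _).trans hH) hHa Q hQ hQp hQc q L hq (hN1.trans h6)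
          (le_trans (Nat.mul_le_mul_left _ hL2) htH)) t hMt hCN le_rfl
    exact ⟨l, h3, h5, fun k hk => ⟨(h4 k hk).2, (h4 k hk).1⟩⟩

end Pool.Agent.U455.UQM
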