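import Mathlib
import Pool.Agent.TH899.UG.TD6
import Pool.Agent.U455.ISO
import Pool.Agent.U455.UNI

/-!
# Differences of primes in short windows: four admissible classes, at every scale
-/

set_option autoImplicit false

namespace Pool.Agent.U455.WIN

open Finset Filter
open Pool.Agent.TH899.UG.TD (core' prq prq_ge expo)
open Pool.Agent.H947R3.GM (AdmN)
open Pool.Agent.U455.EVS (EvC4)

theorem c4 (s : ℝ) (hs : 0 < s) : ∃ K : ℕ, 1 ≤ K ∧ ∀ q : ℕ, 1 ≤ q → ∀ a₀ : ℕ, a₀.Coprime q → ∀ η : ℝ, 0 < η →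
    EvC4 atTop (fun x : ℕ => {k : ℕ | (x : ℝ) ^ (1 - η) ≤ prq s x q a₀ (2 * q * k)}) (2 * q) K := by
  obtain ⟨s', hs'⟩ : ∃ s', s' = min (s / 2) 1 := ⟨_, rfl⟩
  have hs'0 : 0 < s' := by rw [hs']; positivity
  have hs'1 : s' ≤ 1 := by rw [hs']; exact min_le_right _ _
  have hs'2 : s' ≤ s / 2 := by rw [hs']; exact min_le_left _ _
  obtain ⟨K, hK, HC⟩ := core' s' hs'0 hs'1
  refine ⟨K, hK, fun q hq a₀ ha₀ η hη A hA => ?_⟩
  obtain ⟨hinjA, hadm⟩ := hA
  have hdiv : Tendsto (fun x : ℕ => x / q + 1) atTop atTop :=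
    tendsto_atTop.2 fun t => by
      filter_upwards [eventually_ge_atTop (t * q)] with x hx
      have : t ≤ x / q := (Nat.le_div_iff_mul_le (by omega)).2 hx
      omega
  obtain ⟨Z, hZ⟩ : ∃ Z : ℕ, Z = ∑ g, ∑ i, 2 * q * A g i := ⟨_, rfl⟩
  have hAZ : ∀ g i, 2 * q * A g i ≤ Z := by
    intro g i
    rw [hZ]
    calc 2 * q * A g i ≤ ∑ i, 2 * q * A g i :=
          single_le_sum (f := fun i => 2 * q * A g i) (fun _ _ => Nat.zero_le _) (mem_univ i)
      _ ≤ _ := single_le_sum (f := fun g => ∑ i, 2 * q * A g i) (fun _ _ => Nat.zero_le _) (mem_univ g)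
  obtain ⟨R₄, hR₄⟩ := exists_nat_ge (4 * (3 * (q : ℝ) + Z) / s)
  filter_upwards [hdiv.eventually (HC q hq (min (η / 2) 1) (by positivity) (min_le_right _ _)),
    expo q hq η hη, eventually_ge_atTop (q * (q + Z)), eventually_ge_atTop R₄] with x hx hexp hxq hx4
  obtain ⟨a, ha⟩ : ∃ a, a = a₀ % q := ⟨_, rfl⟩
  have haq : a < q := by rw [ha]; exact Nat.mod_lt _ (by omega)
  have haco : a.Coprime q := by
    rw [ha]
    show Nat.gcd (a₀ % q) q = 1
    rw [← Nat.gcd_rec, Nat.gcd_comm]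
    exact ha₀
  have haa : a ≡ a₀ [MOD q] := by rw [ha]; exact Nat.mod_modEq _ _
  obtain ⟨y, hy⟩ : ∃ y, y = x / q + 1 := ⟨_, rfl⟩
  rw [← hy] at hx hexp
  have hqy : x ≤ q * y := by
    rw [hy]
    exact (Nat.lt_mul_div_succ x (by omega : 0 < q)).le
  have hqy2 : q * y ≤ x + q := by
    rw [hy, mul_add, mul_one]
    have := Nat.mul_div_le x q
    omega
  have hqley : q + Z ≤ y := by
    have : q + Z ≤ x / q := (Nat.le_div_iff_mul_le (by omega)).2 (by rw [mul_comm]; exact hxq)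
    omega
  have hq0 : 0 < 2 * q := by omega
  have hsx : 3 * (q : ℝ) + Z ≤ s / 4 * x := by
    have h1 : 4 * (3 * (q : ℝ) + Z) / s ≤ x := hR₄.trans (by exact_mod_cast hx4)
    rw [div_le_iff₀ hs] at h1
    linarith
  obtain ⟨g, g', i, j, hne, hcnt⟩ := hx (fun g i => a + 2 * q * A g i) (by
      intro z z' h
      apply hinjA
      have h2 : a + 2 * q * A z.1 z.2 = a + 2 * q * A z'.1 z'.2 := h
      exact Nat.eq_of_mul_eq_mul_left hq0 (Nat.add_left_cancel h2))
    (fun g i => by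
      have := hAZ g i
      show a + 2 * q * A g i ≤ 9 * y
      omega)
    (fun p hp => by
      have hform : ∀ (n : ℕ) g i, (q : ℤ) * (n : ℤ) + ((a + 2 * q * A g i : ℕ) : ℤ) =
          ((q : ℤ) * n + a) + ((2 * q * A g i : ℕ) : ℤ) := by
        intro n g i
        push_cast
        ring
      by_cases hpN : p ∣ 2 * q
      · have hd : ∀ g i, (p : ℤ) ∣ ((2 * q * A g i : ℕ) : ℤ) := fun g i => by
          exact_mod_cast hpN.mul_right _
        by_cases hpq : p ∣ q
        · refine ⟨((0 : ℕ) : ℤ), fun g i h => ?_⟩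
          rw [hform] at h
          have h1 := (dvd_add_left (hd g i)).1 h
          have h2 : (p : ℤ) ∣ (a : ℤ) := by simpa using h1
          have h3 := Nat.dvd_gcd (by exact_mod_cast h2 : p ∣ a) hpq
          rw [haco] at h3
          exact hp.one_lt.ne' (Nat.dvd_one.1 h3)
        · obtain ⟨n, hn⟩ := Pool.Agent.U455.ISO.solve hp hpq (1 - (a : ℤ))
          refine ⟨(n : ℤ), fun g i h => ?_⟩
          rw [hform] at h
          have h1 := (dvd_add_left (hd g i)).1 h
          have h2 := dvd_sub h1 hn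
          have e : ((q : ℤ) * n + a) - (q * n - (1 - a)) = 1 := by ring
          rw [e] at h2
          have h3 : p ∣ 1 := by exact_mod_cast h2
          exact hp.one_lt.ne' (Nat.dvd_one.1 h3)
      · have hpq : ¬ p ∣ q := fun h => hpN (h.mul_left _)
        obtain ⟨n₀, hn₀⟩ := hadm p hp hpN
        obtain ⟨n, hn⟩ := Pool.Agent.U455.ISO.solve hp hpq ((2 * q : ℕ) * n₀ - (a : ℤ))
        refine ⟨(n : ℤ), fun g i h => hn₀ g i ?_⟩
        rw [hform] at h
        have h2 := dvd_sub h hn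
        have e : ((q : ℤ) * n + a) + ((2 * q * A g i : ℕ) : ℤ) - (q * n - ((2 * q : ℕ) * n₀ - a)) =
            ((2 * q : ℕ) : ℤ) * (n₀ + A g i) := by push_cast; ring
        rw [e] at h2
        rcases (Nat.prime_iff_prime_int.1 hp).dvd_or_dvd h2 with h3 | h3
        · exact absurd (by exact_mod_cast h3) hpN
        · exact h3)
  have fin : ∀ (g g' : Fin 4) (i j : Fin K), A g i < A g' j → ∀ F : Finset ℕ,
      (∀ n ∈ F, (y : ℝ) ≤ n ∧ (n : ℝ) ≤ (1 + s') * y ∧ (q * n + (a + 2 * q * A g i)).Prime ∧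
        (q * n + (a + 2 * q * A g' j)).Prime) →
        (y : ℝ) ^ (1 - min (η / 2) 1) ≤ (F.card : ℝ) →
        (x : ℝ) ^ (1 - η) ≤ prq s x q a₀ (2 * q * (A g' j - A g i)) := by
    intro g g' i j h1 F hF hFc
    refine hexp.trans (hFc.trans ?_)
    rw [Nat.cast_le]
    refine prq_ge s x q a₀ (2 * q * (A g' j - A g i)) a (2 * A g i) hq F haa fun n hn => ?_
    obtain ⟨h3, h4, h5, h6⟩ := hF n hn
    have e1 : q * (2 * A g i) = 2 * q * A g i := by ring
    have e2 : 2 * q * A g i + 2 * q * (A g' j - A g i) = 2 * q * A g' j := by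
      rw [← Nat.mul_add, Nat.add_sub_cancel' h1.le]
    have h7 : q * n + (a + 2 * q * A g i) + 2 * q * (A g' j - A g i) =
        q * n + (a + 2 * q * A g' j) := by
      rw [← e2]; ring
    rw [e1, h7]
    refine ⟨h5, h6, ?_, ?_⟩
    · have h8 : (x : ℝ) ≤ q * y := by exact_mod_cast hqy
      exact h8.trans (mul_le_mul_of_nonneg_left h3 (Nat.cast_nonneg _))
    · have h8 : ((2 * q * A g' j : ℕ) : ℝ) ≤ Z := by exact_mod_cast hAZ g' j
      have hq0R : (0 : ℝ) ≤ q := Nat.cast_nonneg _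
      have hx0 : (0 : ℝ) ≤ x := Nat.cast_nonneg _
      have h9 : (q : ℝ) * n ≤ (1 + s') * (x + q) := by
        have h10 : (q : ℝ) * y ≤ x + q := by exact_mod_cast hqy2
        calc (q : ℝ) * n ≤ q * ((1 + s') * y) := mul_le_mul_of_nonneg_left h4 hq0R
          _ = (1 + s') * (q * y) := by ring
          _ ≤ (1 + s') * (x + q) := mul_le_mul_of_nonneg_left h10 (by linarith)
      have h10 : (a : ℝ) ≤ q := by exact_mod_cast haq.le
      have h11 : ((q * n + (a + 2 * q * A g' j) : ℕ) : ℝ) =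
          (q : ℝ) * n + (a + ((2 * q * A g' j : ℕ) : ℝ)) := by push_cast; ring
      rw [h11]
      nlinarith
  have hneA : A g i ≠ A g' j := fun h => hne (congrArg Prod.fst (hinjA (a₁ := (g, i)) (a₂ := (g', j)) h))
  rcases lt_or_gt_of_ne hneA with hg | hg
  · exact ⟨g, g', i, j, hne, hg, fin g g' i j hg _ (fun n hn => (mem_filter.1 hn).2) hcnt⟩
  · exact ⟨g', g, j, i, hne.symm, hg, fin g' g j i hg _ (fun n hn => by
      obtain ⟨h1, h2, h3, h4⟩ := (mem_filter.1 hn).2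
      exact ⟨h1, h2, h4, h3⟩) hcnt⟩

end Pool.Agent.U455.WIN
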