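import Mathlib
import Pool.Agent.TH899.UG.TD6
import Pool.Agent.N646.TT.Cnt
import Pool.Agent.U455.ISO
import Pool.Agent.U455.UF

/-!
# Prime tuples in short windows: four admissible classes of shifts up to the size of the window
-/

set_option autoImplicit false

namespace Pool.Agent.U455.WINT

open Finset Filter
open Pool.Agent.TH899.UG
open Pool.Agent.TH899.UG.TD (expo)
open Pool.Agent.H947R3.GM (AdmN)
open Pool.Agent.N646.TT (grp two_groups ext_tuple)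

/-- the coloured theorem in a window, `k + 2` primes -/
theorem core (k : ℕ) (s : ℝ) (hs : 0 < s) (hs1 : s ≤ 1) : ∃ K : ℕ, 1 ≤ K ∧ ∀ q : ℕ, 1 ≤ q →
    ∀ η : ℝ, 0 < η → η ≤ 1 →
    ∀ᶠ y : ℕ in atTop, ∀ A : Fin (4 * (k + 1)) → Fin K → ℕ,
      (Function.Injective (fun z : Fin (4 * (k + 1)) × Fin K => A z.1 z.2)) → (∀ g i, A g i ≤ 9 * y) →
      (∀ p : ℕ, p.Prime → ∃ n : ℤ, ∀ g i, ¬ ((p : ℤ) ∣ q * n + (A g i : ℕ))) →
      ∃ (S : Finset (Fin (4 * (k + 1)))) (σ : Fin (4 * (k + 1)) → Fin K), k + 1 + 1 ≤ S.card ∧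
        (y : ℝ) ^ (1 - η) ≤ (((Icc 1 (8 * y)).filter (fun n : ℕ =>
        (y : ℝ) ≤ n ∧ (n : ℝ) ≤ (1 + s) * y ∧ ∀ g ∈ S, (q * n + A g (σ g)).Prime)).card : ℝ) := by
  obtain ⟨c, hc, hc1, H⟩ := NW.exactW
  obtain ⟨K, hK, H⟩ := H (1 / 8) ((1 + s) / 8) le_rfl (by linarith) (by linarith) (4 * (k + 1)) (k + 1)
    (by omega) (by
      push_cast
      have : (0 : ℝ) ≤ k := Nat.cast_nonneg _
      nlinarith)
  refine ⟨K, hK, fun q hq η hη hη1 => ?_⟩
  have htend : Tendsto (fun x : ℕ => 8 * x) atTop atTop :=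
    tendsto_atTop.2 fun b => by
      filter_upwards [eventually_ge_atTop b] with x hx
      omega
  filter_upwards [htend.eventually (H q η hη), eventually_ge_atTop 1]
    with y hN hy A hinj hA hloc
  obtain ⟨S, σ, hS, hcnt⟩ := hN (fun _ _ => (q : ℤ)) (fun g i => (A g i : ℕ))
    (fun _ _ => by
      show (q : ℤ) ≠ 0
      omega) (fun _ _ => by
      show |(q : ℤ)| ≤ q
      rw [Nat.abs_cast])
    (fun g i => by
      have h1 := hA g i
      show 5 * |((A g i : ℕ) : ℤ)| ≤ 6 * ((8 * y : ℕ) : ℤ)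
      rw [Nat.abs_cast]
      push_cast
      omega)
    (fun g i z h1 h2 => by
      have h3 : (0 : ℝ) ≤ (A g i : ℝ) := Nat.cast_nonneg _
      have h4 : (0 : ℝ) ≤ (y : ℝ) := Nat.cast_nonneg _
      have h5 : (1 : ℝ) ≤ (q : ℝ) := by exact_mod_cast hq
      push_cast at h1 h2 ⊢
      nlinarith)
    (by
      rintro z z' h
      apply hinj
      have h2 : ((A z.1 z.2 : ℕ) : ℤ) = (A z'.1 z'.2 : ℕ) := congrArg Prod.snd h
      show A z.1 z.2 = A z'.1 z'.2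
      exact_mod_cast h2)
    hloc
  refine ⟨S, σ, hS, ?_⟩
  have hxN : (y : ℝ) ^ (1 - η) ≤ ((8 * y : ℕ) : ℝ) ^ (1 - η) := by
    have h4 : (1 : ℝ) ≤ y := by exact_mod_cast hy
    exact Real.rpow_le_rpow (by linarith) (by push_cast; linarith) (by linarith)
  refine hxN.trans (hcnt.trans ?_)
  rw [Nat.cast_le]
  apply card_le_card
  intro n hn
  obtain ⟨h4, h5, h6, h7⟩ := mem_filter.1 hn
  have key : ∀ k ∈ S, (q * n + A k (σ k)).Prime := by
    intro k hk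
    have h8 := h7 k hk
    have h9 : ((q : ℤ) * (n : ℤ) + (A k (σ k) : ℕ)).toNat = q * n + A k (σ k) := by
      have : (q : ℤ) * (n : ℤ) + (A k (σ k) : ℕ) = ((q * n + A k (σ k) : ℕ) : ℤ) := by
        push_cast; ring
      rw [this, Int.toNat_natCast]
    rw [h9] at h8
    exact h8
  push_cast at h5 h6
  exact mem_filter.2 ⟨h4, by linarith, by linarith, key⟩

/-- `z` is a prime in `[x, (1 + s) x]` -/
def W (s : ℝ) (x : ℕ) (z : ℤ) : Prop := z.toNat.Prime ∧ (x : ℝ) ≤ z ∧ (z : ℝ) ≤ (1 + s) * x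

/-- the number of the tuples `p`, `p + 2 q d`, `p + 2 q t i` of primes in the window with `p = a mod q` -/
noncomputable def cnt (k : ℕ) (s : ℝ) (x q a d : ℕ) (t : Fin k → ℤ) : ℕ :=
  {p : ℕ | p ≡ a [MOD q] ∧ W s x p ∧ W s x (p + 2 * q * d) ∧ ∀ i, W s x (p + 2 * q * t i)}.ncard

/-- `d` is the difference of at least `Z` tuples with shifts at most `L` -/
def Ext (k : ℕ) (s : ℝ) (x q a L d : ℕ) (Z : ℝ) : Prop := ∃ t : Fin k → ℤ, Function.Injective t ∧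
  (∀ i, t i ≠ 0 ∧ t i ≠ d ∧ |t i| ≤ L) ∧ Z ≤ (cnt k s x q a d t : ℝ)

theorem c4 (k : ℕ) (s : ℝ) (hs : 0 < s) : ∃ K : ℕ, 1 ≤ K ∧ ∃ C : ℕ, ∀ q : ℕ, 1 ≤ q → ∀ η : ℝ, 0 < η →
    ∀ᶠ x : ℕ in atTop, ∀ a₀ : ℕ, a₀.Coprime q → ∀ (Y : ℕ) (H : Fin 4 → Fin ((k + 1) * K) → ℕ),
    AdmN (2 * q) H → (∀ g i, H g i ≤ Y) → C * (q ^ 2 * Y) ≤ x →
    ∃ g g' i i', g ≠ g' ∧ H g i < H g' i' ∧ Ext k s x q a₀ Y (H g' i' - H g i) ((x : ℝ) ^ (1 - η)) := by
  classical
  obtain ⟨s', hs'⟩ : ∃ s', s' = min (s / 2) 1 := ⟨_, rfl⟩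
  have hs'0 : 0 < s' := by rw [hs']; positivity
  have hs'1 : s' ≤ 1 := by rw [hs']; exact min_le_right _ _
  have hs'2 : s' ≤ s / 2 := by rw [hs']; exact min_le_left _ _
  obtain ⟨K, hK, HC⟩ := core k s' hs'0 hs'1
  obtain ⟨C, hC⟩ := exists_nat_ge (16 / s)
  refine ⟨K, hK, C + 1, fun q hq η hη => ?_⟩
  have hdiv : Tendsto (fun x : ℕ => x / q + 1) atTop atTop :=
    tendsto_atTop.2 fun t => by
      filter_upwards [eventually_ge_atTop (t * q)] with x hx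
      have : t ≤ x / q := (Nat.le_div_iff_mul_le (by omega)).2 hx
      omega
  obtain ⟨R₄, hR₄⟩ := exists_nat_ge (24 * (q : ℝ) / s)
  filter_upwards [hdiv.eventually (HC q hq (min (η / 2) 1) (by positivity) (min_le_right _ _)),
    expo q hq η hη, eventually_ge_atTop (q * q), eventually_ge_atTop R₄]
    with x hx hexp hxq hx4 a₀ ha₀ Y H hH hHY hAx
  obtain ⟨hinj, hadm⟩ := hH
  -- the classes
  obtain ⟨E, hE⟩ : ∃ E : Fin (4 * (k + 1)) × Fin K → Fin 4 × Fin ((k + 1) * K), E = fun z =>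
    (grp z.1, finProdFinEquiv ((finProdFinEquiv.symm z.1).2, z.2)) := ⟨_, rfl⟩
  have hE1 : ∀ z, (E z).1 = grp z.1 := fun z => by rw [hE]
  have hEinj : Function.Injective E := by
    intro z z' h
    rw [hE] at h
    have h1 := (Prod.mk.inj h).1
    have h2 := finProdFinEquiv.injective (Prod.mk.inj h).2
    have h3 := (Prod.mk.inj h2).1
    have h4 := (Prod.mk.inj h2).2
    exact Prod.ext (finProdFinEquiv.symm.injective (Prod.ext h1 h3)) h4
  obtain ⟨A, hA⟩ : ∃ A : Fin (4 * (k + 1)) → Fin K → ℕ, A = fun g i => H (E (g, i)).1 (E (g, i)).2 := ⟨_, rfl⟩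
  have hA' : ∀ g i, A g i = H (E (g, i)).1 (E (g, i)).2 := fun g i => by rw [hA]
  have hAinj : Function.Injective (fun y : Fin (4 * (k + 1)) × Fin K => A y.1 y.2) := by
    intro z z' h
    have h1 : A z.1 z.2 = A z'.1 z'.2 := h
    rw [hA', hA'] at h1
    exact hEinj (hinj h1)
  have hAY : ∀ g i, A g i ≤ Y := fun g i => by rw [hA']; exact hHY _ _
  obtain ⟨a, ha⟩ : ∃ a, a = a₀ % q := ⟨_, rfl⟩
  have haq : a < q := by rw [ha]; exact Nat.mod_lt _ (by omega)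
  have haco : a.Coprime q := by
    rw [ha]
    show Nat.gcd (a₀ % q) q = 1
    rw [← Nat.gcd_rec, Nat.gcd_comm]
    exact ha₀
  have haa : a ≡ a₀ [MOD q] := by rw [ha]; exact Nat.mod_modEq _ _
  obtain ⟨y, hy⟩ : ∃ y, y = x / q + 1 := ⟨_, rfl⟩
  rw [← hy] at hx hexp
  have hqy : x ≤ q * y := by
    rw [hy]
    exact (Nat.lt_mul_div_succ x (by omega : 0 < q)).le
  have hqy2 : q * y ≤ x + q := by
    rw [hy, mul_add, mul_one]
    have := Nat.mul_div_le x q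
    omega
  have hq0 : 0 < 2 * q := by omega
  -- sizes
  have hYy : 2 * q * Y ≤ 2 * y := by
    have h1 : q ^ 2 * Y ≤ x := le_trans (Nat.le_mul_of_pos_left _ (by omega)) hAx
    have h2 : q * Y ≤ x / q := by
      rw [Nat.le_div_iff_mul_le (by omega)]
      calc q * Y * q = q ^ 2 * Y := by ring
        _ ≤ x := h1
    have h3 : q * Y ≤ y := by omega
    calc 2 * q * Y = 2 * (q * Y) := by ring
      _ ≤ 2 * y := Nat.mul_le_mul_left _ h3
  have hAy : ∀ g i, 2 * q * A g i ≤ 2 * y := fun g i => (Nat.mul_le_mul_left _ (hAY g i)).trans hYy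
  have hqley : q ≤ y := by
    have : q ≤ x / q := (Nat.le_div_iff_mul_le (by omega)).2 hxq
    omega
  have hYs : ((2 * q * Y : ℕ) : ℝ) ≤ s / 8 * x := by
    have h1 : C * (q * Y) ≤ x := by
      refine le_trans ?_ hAx
      refine Nat.mul_le_mul (by omega) ?_
      rw [sq, mul_assoc]
      exact Nat.le_mul_of_pos_left _ (by omega)
    have h2 : (C : ℝ) * ((q * Y : ℕ) : ℝ) ≤ x := by exact_mod_cast h1
    have h3 : 16 / s * ((q * Y : ℕ) : ℝ) ≤ x :=
      (mul_le_mul_of_nonneg_right hC (Nat.cast_nonneg _)).trans h2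
    have h4 : 16 * ((q * Y : ℕ) : ℝ) ≤ x * s := by
      have e : 16 / s * ((q * Y : ℕ) : ℝ) = 16 * ((q * Y : ℕ) : ℝ) / s := by ring
      rw [e, div_le_iff₀ hs] at h3
      exact h3
    have h5 : ((2 * q * Y : ℕ) : ℝ) = 2 * ((q * Y : ℕ) : ℝ) := by push_cast; ring
    rw [h5]
    linarith
  have hsx : 3 * (q : ℝ) ≤ s / 8 * x := by
    have h1 : 24 * (q : ℝ) / s ≤ x := hR₄.trans (by exact_mod_cast hx4)
    rw [div_le_iff₀ hs] at h1
    linarith
  obtain ⟨S, σ, hS, hcnt⟩ := hx (fun g i => a + 2 * q * A g i) (by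
      intro z z' h
      apply hAinj
      have h2 : a + 2 * q * A z.1 z.2 = a + 2 * q * A z'.1 z'.2 := h
      exact Nat.eq_of_mul_eq_mul_left hq0 (Nat.add_left_cancel h2))
    (fun g i => by
      have := hAy g i
      show a + 2 * q * A g i ≤ 9 * y
      omega)
    (fun p hp => by
      have hform : ∀ (n : ℕ) g i, (q : ℤ) * (n : ℤ) + ((a + 2 * q * A g i : ℕ) : ℤ) =
          ((q : ℤ) * n + a) + ((2 * q * A g i : ℕ) : ℤ) := by
        intro n g i
        push_cast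
        ring
      by_cases hpN : p ∣ 2 * q
      · have hd : ∀ g i, (p : ℤ) ∣ ((2 * q * A g i : ℕ) : ℤ) := fun g i => by
          exact_mod_cast hpN.mul_right _
        by_cases hpq : p ∣ q
        · refine ⟨((0 : ℕ) : ℤ), fun g i h => ?_⟩
          rw [hform] at h
          have h1 := (dvd_add_left (hd g i)).1 h
          have h2 : (p : ℤ) ∣ (a : ℤ) := by simpa using h1
          have h3 := Nat.dvd_gcd (by exact_mod_cast h2 : p ∣ a) hpq
          rw [haco] at h3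
          exact hp.one_lt.ne' (Nat.dvd_one.1 h3)
        · obtain ⟨n, hn⟩ := Pool.Agent.U455.ISO.solve hp hpq (1 - (a : ℤ))
          refine ⟨(n : ℤ), fun g i h => ?_⟩
          rw [hform] at h
          have h1 := (dvd_add_left (hd g i)).1 h
          have h2 := dvd_sub h1 hn
          have e : ((q : ℤ) * n + a) - (q * n - (1 - a)) = 1 := by ring
          rw [e] at h2
          have h3 : p ∣ 1 := by exact_mod_cast h2
          exact hp.one_lt.ne' (Nat.dvd_one.1 h3)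
      · have hpq : ¬ p ∣ q := fun h => hpN (h.mul_left _)
        obtain ⟨n₀, hn₀⟩ := hadm p hp hpN
        obtain ⟨n, hn⟩ := Pool.Agent.U455.ISO.solve hp hpq ((2 * q : ℕ) * n₀ - (a : ℤ))
        refine ⟨(n : ℤ), fun g i h => hn₀ (E (g, i)).1 (E (g, i)).2 ?_⟩
        rw [← hA']
        rw [hform] at h
        have h2 := dvd_sub h hn
        have e : ((q : ℤ) * n + a) + ((2 * q * A g i : ℕ) : ℤ) - (q * n - ((2 * q : ℕ) * n₀ - a)) =
            ((2 * q : ℕ) : ℤ) * (n₀ + A g i) := by push_cast; ring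
        rw [e] at h2
        rcases (Nat.prime_iff_prime_int.1 hp).dvd_or_dvd h2 with h3 | h3
        · exact absurd (by exact_mod_cast h3) hpN
        · exact h3)
  obtain ⟨γ₀', hγ₀', γ₁', hγ₁', hlt'⟩ := two_groups S hS
  obtain ⟨γ₀, hγ₀, γ₁, hγ₁, hne, hltpo⟩ : ∃ γ₀ ∈ S, ∃ γ₁ ∈ S, grp γ₀ ≠ grp γ₁ ∧
      A γ₀ (σ γ₀) < A γ₁ (σ γ₁) := by
    have h1 : A γ₀' (σ γ₀') ≠ A γ₁' (σ γ₁') := by
      intro h
      have h2 := (Prod.mk.inj (hAinj (a₁ := (γ₀', σ γ₀')) (a₂ := (γ₁', σ γ₁')) h)).1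
      rw [h2] at hlt'
      exact lt_irrefl _ hlt'
    rcases lt_or_gt_of_ne h1 with h | h
    · exact ⟨γ₀', hγ₀', γ₁', hγ₁', hlt'.ne, h⟩
    · exact ⟨γ₁', hγ₁', γ₀', hγ₀', hlt'.ne', h⟩
  obtain ⟨g, hg1, hg2, hg3, hg4⟩ := ext_tuple k S hS γ₀ γ₁ hγ₀ hγ₁ (fun h => by
    rw [h] at hne
    exact hne rfl)
  obtain ⟨w, hw⟩ : ∃ w : Fin (k + 2) → ℕ, w = fun i => A (g i) (σ (g i)) := ⟨_, rfl⟩
  have hw' : ∀ i, w i = A (g i) (σ (g i)) := fun i => by rw [hw]
  have hwinj : Function.Injective w := by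
    intro i j h
    rw [hw', hw'] at h
    exact hg1 (Prod.mk.inj (hAinj (a₁ := (g i, σ (g i))) (a₂ := (g j, σ (g j))) h)).1
  have hw0 : w 0 = A γ₀ (σ γ₀) := by rw [hw', hg3]
  have hw1 : w 1 = A γ₁ (σ γ₁) := by rw [hw', hg4]
  have hw01 : w 0 < w 1 := by rw [hw0, hw1]; exact hltpo
  have hwY : ∀ i, w i ≤ Y := fun i => by rw [hw']; exact hAY _ _
  refine ⟨grp γ₀, grp γ₁, (E (γ₀, σ γ₀)).2, (E (γ₁, σ γ₁)).2, hne, ?_, ?_⟩
  · rw [← hE1 (γ₀, σ γ₀), ← hE1 (γ₁, σ γ₁), ← hA', ← hA']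
    exact hltpo
  rw [← hE1 (γ₀, σ γ₀), ← hE1 (γ₁, σ γ₁), ← hA', ← hA', ← hw0, ← hw1]
  refine ⟨fun i => (w i.succ.succ : ℤ) - w 0, ?_, ?_, ?_⟩
  · intro i j hij
    have h3 : (w i.succ.succ : ℤ) = w j.succ.succ := by
      have h4 : (w i.succ.succ : ℤ) - w 0 = (w j.succ.succ : ℤ) - w 0 := hij
      linarith
    exact Fin.succ_injective _ (Fin.succ_injective _ (hwinj (by exact_mod_cast h3)))
  · intro i
    refine ⟨fun h3 => ?_, fun h3 => ?_, ?_⟩
    · have h3' : (w i.succ.succ : ℤ) - w 0 = 0 := h3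
      have h4 : w i.succ.succ = w 0 := by
        have : (w i.succ.succ : ℤ) = w 0 := by linarith
        exact_mod_cast this
      exact Fin.succ_ne_zero _ (hwinj h4)
    · have h3' : (w i.succ.succ : ℤ) - w 0 = ((w 1 - w 0 : ℕ) : ℤ) := h3
      rw [Nat.cast_sub hw01.le] at h3'
      have h4 : w i.succ.succ = w 1 := by
        have : (w i.succ.succ : ℤ) = w 1 := by linarith
        exact_mod_cast this
      have h5 := hwinj h4
      rw [← Fin.succ_zero_eq_one] at h5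
      exact Fin.succ_ne_zero _ (Fin.succ_injective _ h5)
    · have h1 : (w i.succ.succ : ℤ) ≤ Y := by exact_mod_cast hwY _
      have h2 : (w 0 : ℤ) ≤ Y := by exact_mod_cast hwY _
      have h3 : (0 : ℤ) ≤ w i.succ.succ := Int.natCast_nonneg _
      have h4 : (0 : ℤ) ≤ w 0 := Int.natCast_nonneg _
      show |(w i.succ.succ : ℤ) - w 0| ≤ Y
      rw [abs_le]
      constructor <;> linarith
  refine hexp.trans (hcnt.trans ?_)
  rw [Nat.cast_le, ← Set.ncard_coe_finset]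
  unfold cnt
  refine Set.ncard_le_ncard_of_injOn (fun n => q * n + (a + 2 * q * w 0)) ?_ ?_ ?_
  · intro n hn
    obtain ⟨h1, h2, h3, h4⟩ := mem_filter.1 (mem_coe.1 hn)
    -- the primes of the tuple
    have hW : ∀ j, W s x ((q * n + (a + 2 * q * w j) : ℕ) : ℤ) := by
      intro j
      refine ⟨?_, ?_, ?_⟩
      · rw [Int.toNat_natCast, hw']
        exact h4 (g j) (hg2 j)
      · have h5 : (x : ℝ) ≤ q * y := by exact_mod_cast hqy
        have h6 : (q : ℝ) * y ≤ q * n := mul_le_mul_of_nonneg_left h2 (Nat.cast_nonneg _)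
        have h7 : (0 : ℝ) ≤ ((a + 2 * q * w j : ℕ) : ℝ) := Nat.cast_nonneg _
        push_cast at h7 ⊢
        linarith
      · have h8 : ((2 * q * w j : ℕ) : ℝ) ≤ s / 8 * x := by
          refine le_trans ?_ hYs
          exact_mod_cast Nat.mul_le_mul_left _ (hwY j)
        have hq0R : (0 : ℝ) ≤ q := Nat.cast_nonneg _
        have hx0 : (0 : ℝ) ≤ x := Nat.cast_nonneg _
        have h9 : (q : ℝ) * n ≤ (1 + s') * (x + q) := by
          have h10 : (q : ℝ) * y ≤ x + q := by exact_mod_cast hqy2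
          calc (q : ℝ) * n ≤ q * ((1 + s') * y) := mul_le_mul_of_nonneg_left h3 hq0R
            _ = (1 + s') * (q * y) := by ring
            _ ≤ (1 + s') * (x + q) := mul_le_mul_of_nonneg_left h10 (by linarith)
        have h10 : (a : ℝ) ≤ q := by exact_mod_cast haq.le
        push_cast at h8 ⊢
        nlinarith
    refine ⟨?_, hW 0, ?_, ?_⟩
    · show q * n + (a + 2 * q * w 0) ≡ a₀ [MOD q]
      have h6 : q * n + (a + 2 * q * w 0) = a + q * (n + 2 * w 0) := by ring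
      rw [h6]
      refine Nat.ModEq.trans ?_ haa
      unfold Nat.ModEq
      rw [Nat.add_mul_mod_self_left]
    · have h5 := hW 1
      have e : ((q * n + (a + 2 * q * w 1) : ℕ) : ℤ) = ((q * n + (a + 2 * q * w 0) : ℕ) : ℤ) +
          2 * q * ((w 1 - w 0 : ℕ) : ℤ) := by
        rw [Nat.cast_sub hw01.le]
        push_cast
        ring
      rw [e] at h5
      exact h5
    · intro i
      have h5 := hW i.succ.succ
      have e : ((q * n + (a + 2 * q * w i.succ.succ) : ℕ) : ℤ) = ((q * n + (a + 2 * q * w 0) : ℕ) : ℤ) +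
          2 * q * ((w i.succ.succ : ℤ) - w 0) := by
        push_cast
        ring
      rw [e] at h5
      exact h5
  · intro n _ n' _ h
    have h1 : q * n + (a + 2 * q * w 0) = q * n' + (a + 2 * q * w 0) := h
    exact Nat.eq_of_mul_eq_mul_left (by omega : 0 < q) (by omega)
  · refine (Set.finite_le_nat ⌊(1 + s) * x⌋₊).subset ?_
    rintro p ⟨-, ⟨-, -, h1⟩, -, -⟩
    exact Nat.le_floor (by exact_mod_cast h1)

/-- **every multiple of `6` up to the scale is a combination of three differences of tuples** -/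
theorem linear (k : ℕ) (s : ℝ) (hs : 0 < s) (R : ℕ) : ∃ C : ℕ, ∀ q : ℕ, 1 ≤ q → ∀ η : ℝ, 0 < η →
    ∀ᶠ x : ℕ in atTop, ∀ a : ℕ, a.Coprime q → ∀ t : ℕ, 6 ∣ t → 1 ≤ t → C * (q ^ 2 * t) ≤ x →
    ∃ g₁ g₂ g₃ : ℕ, Ext k s x q a (C * t) g₁ ((x : ℝ) ^ (1 - η)) ∧ Ext k s x q a (C * t) g₂ ((x : ℝ) ^ (1 - η)) ∧
      Ext k s x q a (C * t) g₃ ((x : ℝ) ^ (1 - η)) ∧
      (R * t < g₁ ∧ g₁ ≤ C * t) ∧ (R * t < g₂ ∧ g₂ ≤ C * t) ∧ (R * t < g₃ ∧ g₃ ≤ C * t) ∧
      t + g₃ = g₁ + g₂ := by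
  obtain ⟨K, hK, C₀, hC₀⟩ := c4 k s hs
  obtain ⟨B, Y, hBY⟩ := UF.diff ((k + 1) * K) (6 * R)
  refine ⟨B + Y + C₀ * Y, fun q hq η hη => ?_⟩
  filter_upwards [hC₀ q hq η hη] with x hx a ha t h6 ht htx
  obtain ⟨d, hd⟩ := h6
  have hd1 : 1 ≤ d := by omega
  have hF : UF.F4 {g : ℕ | Ext k s x q a (d * Y) (d * g) ((x : ℝ) ^ (1 - η))} ((k + 1) * K) Y := by
    intro H hH hHY
    obtain ⟨g, g', i, i', h1, h2, h3⟩ := hx a ha (d * Y) (fun g i => d * H g i)
      (UF.adm_mul (UF.adm_two (dvd_mul_right 2 q) hH) d hd1) (fun g i => Nat.mul_le_mul_left _ (hHY g i)) (by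
        refine le_trans ?_ htx
        calc C₀ * (q ^ 2 * (d * Y)) = (C₀ * Y) * (q ^ 2 * d) := by ring
          _ ≤ (B + Y + C₀ * Y) * (q ^ 2 * t) := by gcongr <;> omega)
    refine ⟨g, g', i, i', h1, lt_of_mul_lt_mul_left h2 (Nat.zero_le _), ?_⟩
    show Ext k s x q a (d * Y) (d * (H g' i' - H g i)) ((x : ℝ) ^ (1 - η))
    rw [Nat.mul_sub d]
    exact h3
  obtain ⟨g₁, g₂, g₃, h1, h2, h3, h4, h5, h6, h7⟩ := hBY _ hF
  have key : ∀ g, 6 * R < g → g ≤ B → R * t < d * g ∧ d * g ≤ (B + Y + C₀ * Y) * t := by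
    intro g h8 h9
    constructor
    · have h10 := Nat.mul_lt_mul_of_pos_left h8 hd1
      have e : d * (6 * R) = R * t := by rw [hd]; ring
      rw [e] at h10
      exact h10
    · calc d * g ≤ t * (B + Y + C₀ * Y) := Nat.mul_le_mul (by omega) (by omega)
        _ = (B + Y + C₀ * Y) * t := mul_comm _ _
  have hmem : ∀ g : ℕ, Ext k s x q a (d * Y) (d * g) ((x : ℝ) ^ (1 - η)) →
      Ext k s x q a ((B + Y + C₀ * Y) * t) (d * g) ((x : ℝ) ^ (1 - η)) := by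
    rintro g ⟨τ, hτ1, hτ2, hτ3⟩
    refine ⟨τ, hτ1, fun i => ⟨(hτ2 i).1, (hτ2 i).2.1, (hτ2 i).2.2.trans ?_⟩, hτ3⟩
    have : d * Y ≤ (B + Y + C₀ * Y) * t := by
      calc d * Y ≤ t * (B + Y + C₀ * Y) := Nat.mul_le_mul (by omega) (by omega)
        _ = (B + Y + C₀ * Y) * t := mul_comm _ _
    exact_mod_cast this
  refine ⟨d * g₁, d * g₂, d * g₃, hmem _ h1, hmem _ h2, hmem _ h3, key g₁ h4.1 h4.2, key g₂ h5.1 h5.2,
    key g₃ h6.1 h6.2, ?_⟩
  rw [← Nat.mul_add, ← h7, hd]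
  ring

end Pool.Agent.U455.WINT
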